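import Pool.Agent.Lib.HCD.Defs

/-!
# A2: Hoffman's condition in the non-extremal case

PROOF (section 4 of the paper).  n = card V, sig = |S|, tau = |T|, Tc = univ \ T, Sc = univ \ S, D = (1-e) r, n/5 ≤ D (e ≤ 1/5).  c0 small:
k = c0/e with k ≤ γ/4, 5 c0 ≤ γ/4, 5 c0 ≤ 1/2, 10 c0 ≤ ...
(1) r (sig - tau) ≤ x(S,Tc) ≤ e(S,Tc): r sig = x(S,T) + x(S,Tc), r tau = x(S,T) + x(Sc,T) (x(X,Y) = double sum, symmetric), x ≤ 1 and 0 off the edges.
    Hence D (sig - tau) ≤ (1-e) e(S,Tc) in all cases (e(S,Tc) ≥ 0).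
(2) If c0 e(Sc,T) ≤ e * e(S,Tc): done.
(3) Else e(S,Tc) < k e(Sc,T) ≤ k n tau and ≤ k n (n - sig).  It is enough that c0 e(Sc,T) ≤ D (tau - sig); as e(Sc,T) ≤ n min(tau, n-sig), D ≥ n/5, it is
    enough that tau - sig ≥ 5 c0 min(tau, n - sig).  Suppose not: tau - sig < 5 c0 tau and tau - sig < 5 c0 (n - sig).  rho = γ/2.
    (3a) tau ≤ n/2 - rho n: each u ∈ S has at least n/2 - tau ≥ rho n neighbours outside T: sig rho n ≤ e(S,Tc) < k n tau, so sig ≤ (k/rho) tau ≤ tau/2,
         so tau - sig ≥ tau/2 ≥ 5 c0 tau: contradiction.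
    (3b) sig ≥ n/2 + rho n: each v ∉ T has at least n/2 - (n - sig) ≥ rho n neighbours in S: (n - tau) rho n ≤ e(S,Tc) < k n (n - sig): n - tau ≤ (n-sig)/2, so
         tau - sig ≥ (n - sig)/2: contradiction.
    (3c) else: sig > tau - 5 c0 n > (1/2 - γ) n and n - tau > n - sig - 5 c0 n > (1/2 - γ) n: NonExt: e(S,Tc) ≥ γ n^2 > k n^2: contradiction.
(n = 0 is trivial.)
-/

set_option autoImplicit false

noncomputable section

open scoped Classical
open Finset

namespace Pool.Agent.HCD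

private theorem a2_eo1 {V : Type} [Fintype V] (G : SimpleGraph V) (X Y : Finset V) :
    (eo G X Y : ℝ) = ∑ u ∈ X, (dg G u Y : ℝ) := by
  unfold eo dg
  simp only [Finset.card_filter]
  push_cast
  rw [Finset.sum_product]

private theorem a2_eo1' {V : Type} [Fintype V] (G : SimpleGraph V) (X Y : Finset V) :
    (eo G X Y : ℝ) = ∑ u ∈ X, ∑ v ∈ Y, if G.Adj u v then (1 : ℝ) else 0 := by
  unfold eo
  simp only [Finset.card_filter]
  push_cast
  rw [Finset.sum_product]

private theorem a2_eo2 {V : Type} [Fintype V] (G : SimpleGraph V) (X Y : Finset V) :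
    (eo G X Y : ℝ) = ∑ v ∈ Y, (dg G v X : ℝ) := by
  rw [a2_eo1', Finset.sum_comm]
  refine Finset.sum_congr rfl fun v _ => ?_
  unfold dg
  simp only [Finset.card_filter]
  push_cast
  refine Finset.sum_congr rfl fun u _ => ?_
  simp only [G.adj_comm u v]

private theorem a2_le {V : Type} [Fintype V] (G : SimpleGraph V) (X Y : Finset V) :
    (eo G X Y : ℝ) ≤ (X.card : ℝ) * Y.card := by
  have h : eo G X Y ≤ X.card * Y.card := by
    unfold eo
    exact (Finset.card_filter_le _ _).trans (Finset.card_product X Y).le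
  exact_mod_cast h

private theorem a2_dg {V : Type} [Fintype V] (G : SimpleGraph V) (v : V) (X : Finset V) :
    (dg G v univ : ℝ) ≤ dg G v X + (univ \ X).card := by
  have h : dg G v univ ≤ dg G v X + (univ \ X).card := by
    unfold dg
    refine (Finset.card_le_card (t := X.filter (fun u => G.Adj v u) ∪ (univ \ X)) ?_).trans
      (Finset.card_union_le _ _)
    intro u hu
    simp only [Finset.mem_filter, Finset.mem_univ, true_and] at hu
    by_cases h : u ∈ X
    · simp [h, hu]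
    · simp [h]
  exact_mod_cast h

private theorem a2_compl {V : Type} [Fintype V] (X : Finset V) :
    ((univ \ X).card : ℝ) = (Fintype.card V : ℝ) - X.card := by
  rw [Finset.card_sdiff_of_subset (Finset.subset_univ X), Finset.card_univ,
    Nat.cast_sub (Finset.card_le_univ X)]

private theorem a2_r {V : Type} [Fintype V] {G : SimpleGraph V} {x : V → V → ℝ} {r : ℝ}
    (h : FF G x r) (S T : Finset V) :
    r * ((S.card : ℝ) - T.card) ≤ eo G S (univ \ T) := by
  obtain ⟨hw, h1, h2⟩ := h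
  have e1 : r * (S.card : ℝ) = ∑ u ∈ S, ∑ v ∈ T, x u v + ∑ u ∈ S, ∑ v ∈ univ \ T, x u v := by
    rw [← Finset.sum_add_distrib]
    have : ∀ u ∈ S, ∑ v ∈ T, x u v + ∑ v ∈ univ \ T, x u v = r := by
      intro u _
      rw [← h2 u, add_comm]
      exact Finset.sum_sdiff (Finset.subset_univ T)
    rw [Finset.sum_congr rfl this, Finset.sum_const, nsmul_eq_mul, mul_comm]
  have e2 : ∑ u ∈ S, ∑ v ∈ T, x u v ≤ r * (T.card : ℝ) := by
    rw [Finset.sum_comm]
    have : ∀ v ∈ T, ∑ u ∈ S, x u v ≤ r := by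
      intro v _
      rw [← h2 v]
      calc ∑ u ∈ S, x u v = ∑ u ∈ S, x v u :=
            Finset.sum_congr rfl fun u _ => hw.symm u v
        _ ≤ ∑ u, x v u := Finset.sum_le_sum_of_subset_of_nonneg (Finset.subset_univ S)
            fun u _ _ => hw.nonneg v u
    refine (Finset.sum_le_sum this).trans ?_
    rw [Finset.sum_const, nsmul_eq_mul, mul_comm]
  have e3 : ∑ u ∈ S, ∑ v ∈ univ \ T, x u v ≤ eo G S (univ \ T) := by
    rw [a2_eo1']
    refine Finset.sum_le_sum fun u _ => Finset.sum_le_sum fun v _ => ?_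
    by_cases h : G.Adj u v
    · rw [if_pos h]
      exact h1 u v
    · rw [if_neg h]
      exact (hw.zero u v h).le
  linarith

private theorem a2_F3 {V : Type} [Fintype V] {G : SimpleGraph V} (hd : Dirac G)
    (S T : Finset V) :
    (S.card : ℝ) * ((Fintype.card V : ℝ) / 2 - T.card) ≤ eo G S (univ \ T) := by
  rw [a2_eo1]
  have : ∀ u ∈ S, (Fintype.card V : ℝ) / 2 - T.card ≤ dg G u (univ \ T) := by
    intro u _
    have h1 := a2_dg G u (univ \ T)
    rw [Finset.sdiff_sdiff_eq_self (Finset.subset_univ T)] at h1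
    have h2 : (Fintype.card V : ℝ) ≤ 2 * dg G u univ := by exact_mod_cast hd u
    linarith
  refine le_trans ?_ (Finset.sum_le_sum this)
  rw [Finset.sum_const, nsmul_eq_mul]

private theorem a2_F4 {V : Type} [Fintype V] {G : SimpleGraph V} (hd : Dirac G)
    (S T : Finset V) :
    ((Fintype.card V : ℝ) - T.card) * ((S.card : ℝ) - (Fintype.card V : ℝ) / 2) ≤
      eo G S (univ \ T) := by
  rw [a2_eo2]
  have : ∀ v ∈ univ \ T, (S.card : ℝ) - (Fintype.card V : ℝ) / 2 ≤ dg G v S := by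
    intro v _
    have h1 := a2_dg G v S
    have h2 : (Fintype.card V : ℝ) ≤ 2 * dg G v univ := by exact_mod_cast hd v
    rw [a2_compl] at h1
    linarith
  refine le_trans ?_ (Finset.sum_le_sum this)
  rw [Finset.sum_const, nsmul_eq_mul, a2_compl]

private theorem a2_num {e γ n σ τ r a b : ℝ} (he : 0 < e) (he1 : e ≤ 1 / 5) (hγ : 0 < γ)
    (hγ1 : γ ≤ 1 / 2) (hn : 0 < n) (hσ0 : 0 ≤ σ) (hσn : σ ≤ n) (hτ0 : 0 ≤ τ) (hτn : τ ≤ n)
    (hr : n ≤ 4 * r) (ha : 0 ≤ a) (hb : 0 ≤ b) (hb1 : b ≤ (n - σ) * τ)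
    (h1 : r * (σ - τ) ≤ a) (h3 : σ * (n / 2 - τ) ≤ a) (h4 : (n - τ) * (σ - n / 2) ≤ a)
    (h5 : (1 / 2 - γ) * n ≤ σ → (1 / 2 - γ) * n ≤ n - τ → γ * n ^ 2 ≤ a) :
    (1 - e) * r * (σ - τ) ≤ a - e * γ / 20 * b := by
  by_cases hc : e * γ / 20 * b ≤ e * a
  · have : (1 - e) * (r * (σ - τ)) ≤ (1 - e) * a := mul_le_mul_of_nonneg_left h1 (by linarith)
    nlinarith
  push Not at hc
  have hk : a < γ / 20 * b := by
    have : e * a < e * (γ / 20 * b) := by linarith
    exact lt_of_mul_lt_mul_left this he.le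
  have hbτ : b ≤ n * τ := hb1.trans (by nlinarith)
  have hbσ : b ≤ n * (n - σ) := hb1.trans (by nlinarith)
  have hbn : b ≤ n * n := hbτ.trans (by nlinarith)
  have hD : n / 5 ≤ (1 - e) * r := by nlinarith
  have hc0 : e * γ / 20 ≤ 1 / 200 := by nlinarith
  have hc00 : 0 ≤ e * γ / 20 := by positivity
  by_contra hcon
  push Not at hcon
  have hcon2 : (1 - e) * r * (τ - σ) < e * γ / 20 * b := by linarith
  by_cases hA : τ ≤ n / 2 - γ / 2 * n
  · have g1 : σ * (γ / 2 * n) ≤ γ / 20 * (n * τ) := by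
      have : σ * (γ / 2 * n) ≤ σ * (n / 2 - τ) := mul_le_mul_of_nonneg_left (by linarith) hσ0
      have : γ / 20 * b ≤ γ / 20 * (n * τ) := mul_le_mul_of_nonneg_left hbτ (by positivity)
      linarith
    have g2 : σ ≤ τ / 10 := by
      have : (γ * n / 2) * σ ≤ (γ * n / 2) * (τ / 10) := by nlinarith
      exact le_of_mul_le_mul_left this (by positivity)
    have g3 : n / 5 * (9 / 10 * τ) ≤ (1 - e) * r * (τ - σ) := by
      refine mul_le_mul hD (by linarith) (by positivity) (by linarith [hD, hn])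
    have g4 : e * γ / 20 * b ≤ 1 / 200 * (n * τ) :=
      mul_le_mul hc0 hbτ hb (by norm_num)
    nlinarith [mul_nonneg hn.le hτ0]
  by_cases hB : n / 2 + γ / 2 * n ≤ σ
  · have g1 : (n - τ) * (γ / 2 * n) ≤ γ / 20 * (n * (n - σ)) := by
      have : (n - τ) * (γ / 2 * n) ≤ (n - τ) * (σ - n / 2) :=
        mul_le_mul_of_nonneg_left (by linarith) (by linarith)
      have : γ / 20 * b ≤ γ / 20 * (n * (n - σ)) :=
        mul_le_mul_of_nonneg_left hbσ (by positivity)
      linarith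
    have g2 : n - τ ≤ (n - σ) / 10 := by
      have : (γ * n / 2) * (n - τ) ≤ (γ * n / 2) * ((n - σ) / 10) := by nlinarith
      exact le_of_mul_le_mul_left this (by positivity)
    have hσ1 : 0 ≤ n - σ := by linarith
    have g3 : n / 5 * (9 / 10 * (n - σ)) ≤ (1 - e) * r * (τ - σ) := by
      refine mul_le_mul hD (by linarith) (by positivity) (by linarith [hD, hn])
    have g4 : e * γ / 20 * b ≤ 1 / 200 * (n * (n - σ)) :=
      mul_le_mul hc0 hbσ hb (by norm_num)
    nlinarith [mul_nonneg hn.le hσ1]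
  push Not at hA hB
  have g0 : e * γ / 20 * b ≤ (γ / 100) * (n * n) := by
    have : e * γ / 20 ≤ γ / 100 := by nlinarith
    exact mul_le_mul this hbn hb (by positivity)
  have g1 : τ - σ ≤ γ / 20 * n := by
    by_contra hg
    push Not at hg
    have q : 0 ≤ γ / 20 * n := by positivity
    have : n / 5 * (γ / 20 * n) ≤ (1 - e) * r * (τ - σ) :=
      mul_le_mul hD hg.le q (by linarith [hD, hn])
    nlinarith
  have g2 := h5 (by nlinarith) (by nlinarith)
  have g3 : γ / 20 * b ≤ γ / 20 * (n * n) := mul_le_mul_of_nonneg_left hbn (by positivity)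
  have g4 : 0 < γ * (n * n) := by positivity
  nlinarith

theorem hoffman_nonext (e γ : ℝ) (he : 0 < e) (he1 : e ≤ 1 / 5) (hγ : 0 < γ) (hγ1 : γ ≤ 1 / 2) :
    ∃ c0 : ℝ, 0 < c0 ∧ c0 ≤ 1 ∧ ∀ (V : Type) [Fintype V] (G : SimpleGraph V) (x : V → V → ℝ)
      (r : ℝ), Dirac G → FF G x r → (Fintype.card V : ℝ) ≤ 4 * r → NonExt G γ →
      ∀ S T : Finset V, (1 - e) * r * ((S.card : ℝ) - T.card) ≤ (eo G S (univ \ T) : ℝ) -
        c0 * eo G (univ \ S) T := by
  refine ⟨e * γ / 20, by positivity, by nlinarith, ?_⟩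
  intro V _ G x r hd hx hr hne S T
  rcases Nat.eq_zero_or_pos (Fintype.card V) with h0 | h0
  · have hS : S = ∅ := by
      haveI := Fintype.card_eq_zero_iff.1 h0
      exact Finset.eq_empty_of_isEmpty S
    have hT : T = ∅ := by
      haveI := Fintype.card_eq_zero_iff.1 h0
      exact Finset.eq_empty_of_isEmpty T
    have h1 : (eo G (univ \ S) T : ℝ) = 0 := by
      have := a2_le G (univ \ S) T
      rw [hT] at this ⊢
      simp only [Finset.card_empty, Nat.cast_zero, mul_zero] at this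
      exact le_antisymm this (Nat.cast_nonneg _)
    rw [h1, hS, hT]
    simp
  have hn : (0 : ℝ) < Fintype.card V := by exact_mod_cast h0
  refine a2_num he he1 hγ hγ1 hn (Nat.cast_nonneg _) (by exact_mod_cast Finset.card_le_univ S)
    (Nat.cast_nonneg _) (by exact_mod_cast Finset.card_le_univ T) hr (Nat.cast_nonneg _)
    (Nat.cast_nonneg _) ?_ (a2_r hx S T) (a2_F3 hd S T) (a2_F4 hd S T) ?_
  · have := a2_le G (univ \ S) T
    rwa [a2_compl] at this
  · intro k1 k2
    refine hne S (univ \ T) k1 ?_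
    rw [a2_compl]
    exact k2

end Pool.Agent.HCD
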