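import Pool.Agent.Lib.HCD.Defs

/-!
# T2: expectations of products of functions of distinct coordinates

PROOF.  `∑ ω : I → R, ∏ i, h i (ω i) = ∏ i, ∑ r, h i r` (`Fintype.sum_pow`-like: `Finset.prod_univ_sum` together with
`Fintype.piFinset_univ`).  Take `h k r = w k r * (if k = i then g r else 1) * ...`; all the other factors are `∑ r, w k r = 1`.
Linearity is `Finset.sum_comm`, `Finset.mul_sum`.
-/

set_option autoImplicit false

noncomputable section

open scoped Classical
open Finset

namespace Pool.Agent.HCD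

variable {I R : Type} [Fintype I] [Fintype R]

private theorem EE_prod (w : I → R → ℝ) (h : I → R → ℝ) :
    EE w (fun ω => ∏ i, h i (ω i)) = ∏ i, ∑ r, w i r * h i r := by
  unfold EE
  rw [Finset.prod_univ_sum, Fintype.piFinset_univ]
  exact Finset.sum_congr rfl (fun ω _ => by rw [← Finset.prod_mul_distrib])

theorem EE_const (w : I → R → ℝ) (hw1 : ∀ i, ∑ r, w i r = 1) (a : ℝ) :
    EE w (fun _ => a) = a := by
  have h := EE_prod w (fun _ _ => (1 : ℝ))
  simp only [Finset.prod_const_one, mul_one, hw1] at h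
  unfold EE at h ⊢
  rw [← Finset.sum_mul]
  simp only [mul_one] at h
  rw [h, one_mul]

theorem EE_one (w : I → R → ℝ) (hw1 : ∀ i, ∑ r, w i r = 1) (i : I) (g : R → ℝ) :
    EE w (fun ω => g (ω i)) = ∑ r, w i r * g r := by
  have h := EE_prod w (fun k r => if k = i then g r else (1 : ℝ))
  have e1 : (fun ω : I → R => ∏ k, (if k = i then g (ω k) else (1 : ℝ))) = fun ω => g (ω i) := by
    funext ω
    rw [Finset.prod_ite_eq' Finset.univ i (fun k => g (ω k))]
    simp
  rw [e1] at h
  rw [h, ← Finset.mul_prod_erase Finset.univ _ (Finset.mem_univ i)]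
  have e2 : ∏ k ∈ Finset.univ.erase i, ∑ r, w k r * (if k = i then g r else (1 : ℝ)) = 1 := by
    refine Finset.prod_eq_one (fun k hk => ?_)
    have hk' : k ≠ i := Finset.ne_of_mem_erase hk
    simp [hk', hw1]
  rw [e2]
  simp

theorem EE_two (w : I → R → ℝ) (hw1 : ∀ i, ∑ r, w i r = 1) (i j : I) (hij : i ≠ j) (g h : R → ℝ) :
    EE w (fun ω => g (ω i) * h (ω j)) = (∑ r, w i r * g r) * ∑ r, w j r * h r := by
  have H := EE_prod w (fun k r => (if k = i then g r else (1 : ℝ)) * (if k = j then h r else 1))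
  have e1 : (fun ω : I → R => ∏ k, ((if k = i then g (ω k) else (1 : ℝ)) *
      (if k = j then h (ω k) else 1))) = fun ω => g (ω i) * h (ω j) := by
    funext ω
    rw [Finset.prod_mul_distrib, Finset.prod_ite_eq' Finset.univ i (fun k => g (ω k)),
      Finset.prod_ite_eq' Finset.univ j (fun k => h (ω k))]
    simp
  rw [e1] at H
  rw [H, ← Finset.mul_prod_erase Finset.univ _ (Finset.mem_univ i),
    ← Finset.mul_prod_erase (Finset.univ.erase i) _
      (Finset.mem_erase.2 ⟨hij.symm, Finset.mem_univ j⟩)]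
  have e2 : ∏ k ∈ (Finset.univ.erase i).erase j,
      ∑ r, w k r * ((if k = i then g r else (1 : ℝ)) * (if k = j then h r else 1)) = 1 := by
    refine Finset.prod_eq_one (fun k hk => ?_)
    have hk' : k ≠ j := Finset.ne_of_mem_erase hk
    have hk2 : k ≠ i := Finset.ne_of_mem_erase (Finset.mem_of_mem_erase hk)
    simp [hk', hk2, hw1]
  rw [e2]
  simp [hij, hij.symm]

theorem EE_three (w : I → R → ℝ) (hw1 : ∀ i, ∑ r, w i r = 1) (i j k : I) (hij : i ≠ j)
    (hik : i ≠ k) (hjk : j ≠ k) (g h u : R → ℝ) :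
    EE w (fun ω => g (ω i) * h (ω j) * u (ω k)) =
      (∑ r, w i r * g r) * (∑ r, w j r * h r) * ∑ r, w k r * u r := by
  have H := EE_prod w (fun l r => (if l = i then g r else (1 : ℝ)) * (if l = j then h r else 1) *
    (if l = k then u r else 1))
  have e1 : (fun ω : I → R => ∏ l, ((if l = i then g (ω l) else (1 : ℝ)) *
      (if l = j then h (ω l) else 1) * (if l = k then u (ω l) else 1))) =
      fun ω => g (ω i) * h (ω j) * u (ω k) := by
    funext ω
    rw [Finset.prod_mul_distrib, Finset.prod_mul_distrib,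
      Finset.prod_ite_eq' Finset.univ i (fun k => g (ω k)),
      Finset.prod_ite_eq' Finset.univ j (fun k => h (ω k)),
      Finset.prod_ite_eq' Finset.univ k (fun k => u (ω k))]
    simp
  rw [e1] at H
  rw [H, ← Finset.mul_prod_erase Finset.univ _ (Finset.mem_univ i),
    ← Finset.mul_prod_erase (Finset.univ.erase i) _
      (Finset.mem_erase.2 ⟨hij.symm, Finset.mem_univ j⟩),
    ← Finset.mul_prod_erase ((Finset.univ.erase i).erase j) _
      (Finset.mem_erase.2 ⟨hjk.symm, Finset.mem_erase.2 ⟨hik.symm, Finset.mem_univ k⟩⟩)]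
  have e2 : ∏ l ∈ ((Finset.univ.erase i).erase j).erase k,
      ∑ r, w l r * ((if l = i then g r else (1 : ℝ)) * (if l = j then h r else 1) *
        (if l = k then u r else 1)) = 1 := by
    refine Finset.prod_eq_one (fun l hl => ?_)
    have hk' : l ≠ k := Finset.ne_of_mem_erase hl
    have hk2 : l ≠ j := Finset.ne_of_mem_erase (Finset.mem_of_mem_erase hl)
    have hk3 : l ≠ i :=
      Finset.ne_of_mem_erase (Finset.mem_of_mem_erase (Finset.mem_of_mem_erase hl))
    simp [hk', hk2, hk3, hw1]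
  rw [e2]
  simp [hij, hij.symm, hik, hik.symm, hjk, hjk.symm, mul_assoc]

theorem EE_sum (w : I → R → ℝ) {A : Type} (s : Finset A) (f : A → (I → R) → ℝ) :
    EE w (fun ω => ∑ a ∈ s, f a ω) = ∑ a ∈ s, EE w (f a) := by
  unfold EE
  rw [Finset.sum_comm]
  exact Finset.sum_congr rfl (fun ω _ => by rw [Finset.mul_sum])

theorem EE_mul (w : I → R → ℝ) (c : ℝ) (f : (I → R) → ℝ) :
    EE w (fun ω => c * f ω) = c * EE w f := by
  unfold EE
  rw [Finset.mul_sum]
  exact Finset.sum_congr rfl (fun ω _ => by ring)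

theorem EE_congr (w : I → R → ℝ) (f g : (I → R) → ℝ) (h : ∀ ω, f ω = g ω) : EE w f = EE w g := by
  unfold EE
  exact Finset.sum_congr rfl (fun ω _ => by rw [h ω])

end Pool.Agent.HCD
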