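import Pool.Agent.Lib.HCD.T1
import Pool.Agent.Lib.HCD.T2

/-!
# G2: stage 2, random labels of the vertices

PROOF.  `bd_exists` with I = V, R = Fin K, uniform weights 1/K; index set (K1 × Fin K) ⊕ (K2 × Fin K × Fin K).  m = card V.
 f (inl (k,a)) ℓ = (m/K) * #{v ∈ X k | ℓ v = a}: c = m/K, ∑ c^2 ≤ m^3/K^2 ≤ m^3; E = (m/K) * |X k| / K.
 f (inr (k,a,b)) ℓ = #{p ∈ P k | ℓ p.1 = a, ℓ p.2 = b}: changing the label of v changes it by at most #{p ∈ P k : p.1 = v or p.2 = v}
 ≤ 2m; ∑ c^2 ≤ 4 m^3; E = |P k| / K^2 (`EE_two`, p.1 ≠ p.2).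
 S = 4 m^3, t = δ (m/K)^2: t^2/(4S) = δ^2 m / (16 K^4); number of functions = card K1 * K + card K2 * K^2.
-/

set_option autoImplicit false

noncomputable section

open scoped Classical
open Finset

namespace Pool.Agent.HCD

private theorem g2_card {A : Type} (s : Finset A) (q : A → Prop) [DecidablePred q] :
    ((s.filter q).card : ℝ) = ∑ a ∈ s, if q a then (1 : ℝ) else 0 := by
  rw [Finset.sum_ite, Finset.sum_const_zero, add_zero, Finset.sum_const, nsmul_eq_mul, mul_one]

private theorem g2_diff {A : Type} (s : Finset A) (q q' : A → Prop) (e : A → Prop)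
    [DecidablePred q] [DecidablePred q'] [DecidablePred e]
    (h : ∀ a ∈ s, ¬ e a → (q a ↔ q' a)) :
    |((s.filter q).card : ℝ) - ((s.filter q').card : ℝ)| ≤ ((s.filter e).card : ℝ) := by
  rw [g2_card, g2_card, g2_card, ← Finset.sum_sub_distrib]
  refine (Finset.abs_sum_le_sum_abs _ _).trans (Finset.sum_le_sum (fun a ha => ?_))
  by_cases he : e a
  · rw [if_pos he]
    by_cases h1 : q a <;> by_cases h2 : q' a <;> simp [h1, h2]
  · have h1 := h a ha he
    by_cases h2 : q a
    · simp [h2, h1.mp h2, he]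
    · have h3 : ¬ q' a := fun h4 => h2 (h1.mpr h4)
      simp [h2, h3, he]

private theorem g2_unif (K : ℕ) (a : Fin K) :
    ∑ r : Fin K, (1 / (K : ℝ)) * (if r = a then (1 : ℝ) else 0) = 1 / K := by
  simp

private theorem g2_fst {V : Type} [Fintype V] (P : Finset (V × V)) (v : V) :
    ((P.filter (fun p => p.1 = v ∨ p.2 = v)).card : ℝ) ≤ 2 * Fintype.card V := by
  have h1 : P.filter (fun p => p.1 = v ∨ p.2 = v) ⊆
      (Finset.univ.image (fun u : V => (v, u))) ∪ (Finset.univ.image (fun u : V => (u, v))) := by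
    rintro ⟨x, y⟩ hp
    rcases (Finset.mem_filter.mp hp).2 with h | h
    · simp only at h
      subst h
      simp
    · simp only at h
      subst h
      simp
  have h2 := Finset.card_le_card h1
  have h3 : (P.filter (fun p => p.1 = v ∨ p.2 = v)).card ≤ 2 * Fintype.card V := by
    refine h2.trans ((Finset.card_union_le _ _).trans ?_)
    have e1 : (Finset.univ.image (fun u : V => (v, u))).card ≤ Fintype.card V :=
      Finset.card_image_le
    have e2 : (Finset.univ.image (fun u : V => (u, v))).card ≤ Fintype.card V :=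
      Finset.card_image_le
    omega
  exact_mod_cast h3

theorem stage2 {V K1 K2 : Type} [Fintype V] [Fintype K1] [Fintype K2] (K : ℕ) (hK : 0 < K)
    (δ : ℝ) (hδ : 0 < δ) (h1 : 1 ≤ Fintype.card V) (X : K1 → Finset V)
    (P : K2 → Finset (V × V)) (hP : ∀ k, ∀ p ∈ P k, p.1 ≠ p.2)
    (hnum : ((Fintype.card K1 : ℝ) * K + Fintype.card K2 * (K : ℝ) ^ 2) *
      Real.exp (-(δ ^ 2 * Fintype.card V / (16 * (K : ℝ) ^ 4))) < 1 / 2) :
    ∃ ℓ : V → Fin K,
      (∀ k a, |(((X k).filter (fun v => ℓ v = a)).card : ℝ) - (X k).card / K| ≤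
        δ * Fintype.card V / K) ∧
      (∀ k a b, |(((P k).filter (fun p => ℓ p.1 = a ∧ ℓ p.2 = b)).card : ℝ) -
        (P k).card / (K : ℝ) ^ 2| ≤ δ * ((Fintype.card V : ℝ) / K) ^ 2) := by
  set m : ℝ := ((Fintype.card V : ℕ) : ℝ) with hm
  have hm1 : (1 : ℝ) ≤ m := by rw [hm]; exact_mod_cast h1
  have hK0 : (0 : ℝ) < K := by exact_mod_cast hK
  have hK1 : (1 : ℝ) ≤ K := by exact_mod_cast hK
  have hmK : 0 < m / K := by positivity
  set J := (K1 × Fin K) ⊕ (K2 × Fin K × Fin K) with hJ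
  set f : J → (V → Fin K) → ℝ := fun j ℓ => match j with
    | Sum.inl (k, a) => (m / K) * (((X k).filter (fun v => ℓ v = a)).card : ℝ)
    | Sum.inr (k, a, b) => (((P k).filter (fun p => ℓ p.1 = a ∧ ℓ p.2 = b)).card : ℝ) with hf
  set c : J → V → ℝ := fun j v => match j with
    | Sum.inl _ => m / K
    | Sum.inr (k, _, _) => (((P k).filter (fun p => p.1 = v ∨ p.2 = v)).card : ℝ) with hc
  have hw1 : ∀ _v : V, ∑ _r : Fin K, (1 / (K : ℝ)) = 1 := by
    intro _
    rw [Finset.sum_const, Finset.card_univ, Fintype.card_fin, nsmul_eq_mul]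
    field_simp
  obtain ⟨ℓ, _, hℓ⟩ := bd_exists (I := V) (R := Fin K) (K := J) (fun _ _ => 1 / (K : ℝ))
    (fun _ _ => by positivity) hw1 f c (by
      rintro (⟨k, a⟩ | ⟨k, a, b⟩) v ω ω' hω
      · show |(m / K) * (((X k).filter (fun v => ω v = a)).card : ℝ)
          - (m / K) * (((X k).filter (fun v => ω' v = a)).card : ℝ)| ≤ m / K
        rw [← mul_sub, abs_mul, abs_of_pos hmK]
        have h2 : |(((X k).filter (fun v => ω v = a)).card : ℝ)
            - (((X k).filter (fun v => ω' v = a)).card : ℝ)| ≤ 1 := by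
          refine (g2_diff (X k) (fun u => ω u = a) (fun u => ω' u = a) (fun u => u = v)
            (fun u _ hu => by rw [hω u hu])).trans ?_
          have h3 : ((X k).filter (fun u => u = v)).card ≤ 1 := by
            refine Finset.card_le_one.mpr (fun x hx y hy => ?_)
            rw [(Finset.mem_filter.mp hx).2, (Finset.mem_filter.mp hy).2]
          exact_mod_cast h3
        nlinarith
      · exact g2_diff (P k) (fun p => ω p.1 = a ∧ ω p.2 = b) (fun p => ω' p.1 = a ∧ ω' p.2 = b)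
          (fun p => p.1 = v ∨ p.2 = v) (fun p _ hp => by
          rw [not_or] at hp
          rw [hω p.1 hp.1, hω p.2 hp.2])) (4 * m ^ 3) (δ * (m / K) ^ 2)
    (by positivity) (by positivity) (by
      rintro (⟨k, a⟩ | ⟨k, a, b⟩)
      · show ∑ _v : V, (m / K) ^ 2 ≤ 4 * m ^ 3
        rw [Finset.sum_const, Finset.card_univ, nsmul_eq_mul, ← hm, div_pow]
        have h2 : m ^ 2 / (K : ℝ) ^ 2 ≤ m ^ 2 := div_le_self (by positivity) (one_le_pow₀ hK1)
        nlinarith [mul_le_mul_of_nonneg_left h2 (by linarith : (0 : ℝ) ≤ m),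
          pow_pos (by linarith : (0 : ℝ) < m) 3]
      · show ∑ v : V, (((P k).filter (fun p => p.1 = v ∨ p.2 = v)).card : ℝ) ^ 2 ≤ 4 * m ^ 3
        calc ∑ v : V, (((P k).filter (fun p => p.1 = v ∨ p.2 = v)).card : ℝ) ^ 2
            ≤ ∑ _v : V, (2 * m) ^ 2 := Finset.sum_le_sum (fun v _ =>
              pow_le_pow_left₀ (Nat.cast_nonneg _) (g2_fst (P k) v) 2)
          _ = 4 * m ^ 3 := by
            rw [Finset.sum_const, Finset.card_univ, nsmul_eq_mul, ← hm]; ring) (by
      have h2 : (Fintype.card J : ℝ) = (Fintype.card K1 : ℝ) * K + Fintype.card K2 * (K : ℝ) ^ 2 := by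
        simp only [hJ, Fintype.card_sum, Fintype.card_prod, Fintype.card_fin]
        push_cast
        ring
      have h3 : (δ * (m / K) ^ 2) ^ 2 / (4 * (4 * m ^ 3)) = δ ^ 2 * m / (16 * (K : ℝ) ^ 4) := by
        have : m ≠ 0 := by linarith
        field_simp
        ring
      rw [h2, h3]
      exact hnum)
  refine ⟨ℓ, fun k a => ?_, fun k a b => ?_⟩
  · have h2 := hℓ (Sum.inl (k, a))
    have h3 : EE (fun (_ : V) (_ : Fin K) => 1 / (K : ℝ)) (f (Sum.inl (k, a)))
        = (m / K) * ((X k).card / K) := by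
      have h4 : ∀ ω, f (Sum.inl (k, a)) ω
          = (m / K) * ∑ v ∈ X k, (if ω v = a then (1 : ℝ) else 0) := by
        intro ω
        show (m / K) * (((X k).filter (fun v => ω v = a)).card : ℝ) = _
        rw [g2_card]
      rw [EE_congr _ _ _ h4, EE_mul, EE_sum]
      congr 1
      have h5 : ∀ v ∈ X k, EE (fun (_ : V) (_ : Fin K) => 1 / (K : ℝ))
          (fun ω => if ω v = a then (1 : ℝ) else 0) = 1 / K := by
        intro v _
        rw [EE_one _ hw1 v (fun r => if r = a then (1 : ℝ) else 0)]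
        exact g2_unif K a
      rw [Finset.sum_congr rfl h5, Finset.sum_const, nsmul_eq_mul]
      ring
    rw [h3] at h2
    have h4 : f (Sum.inl (k, a)) ℓ = (m / K) * (((X k).filter (fun v => ℓ v = a)).card : ℝ) := rfl
    rw [h4, ← mul_sub, abs_mul, abs_of_pos hmK] at h2
    have h5 : (m / K) * |(((X k).filter (fun v => ℓ v = a)).card : ℝ) - (X k).card / K|
        < (m / K) * (δ * m / K) := by
      refine h2.trans_eq ?_
      ring
    exact (lt_of_mul_lt_mul_left h5 hmK.le).le
  · have h2 := hℓ (Sum.inr (k, a, b))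
    have h3 : EE (fun (_ : V) (_ : Fin K) => 1 / (K : ℝ)) (f (Sum.inr (k, a, b)))
        = (P k).card / (K : ℝ) ^ 2 := by
      have h4 : ∀ ω, f (Sum.inr (k, a, b)) ω
          = ∑ p ∈ P k, (if ω p.1 = a then (1 : ℝ) else 0) * (if ω p.2 = b then (1 : ℝ) else 0) := by
        intro ω
        show (((P k).filter (fun p => ω p.1 = a ∧ ω p.2 = b)).card : ℝ) = _
        rw [g2_card]
        refine Finset.sum_congr rfl (fun p _ => ?_)
        by_cases e1 : ω p.1 = a <;> by_cases e2 : ω p.2 = b <;> simp [e1, e2]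
      rw [EE_congr _ _ _ h4, EE_sum]
      have h5 : ∀ p ∈ P k, EE (fun (_ : V) (_ : Fin K) => 1 / (K : ℝ))
          (fun ω => (if ω p.1 = a then (1 : ℝ) else 0) * (if ω p.2 = b then (1 : ℝ) else 0))
          = 1 / K * (1 / K) := by
        intro p hp
        rw [EE_two _ hw1 p.1 p.2 (hP k p hp) (fun r => if r = a then (1 : ℝ) else 0)
          (fun r => if r = b then (1 : ℝ) else 0)]
        rw [g2_unif K a, g2_unif K b]
      rw [Finset.sum_congr rfl h5, Finset.sum_const, nsmul_eq_mul]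
      field_simp
    rw [h3] at h2
    exact h2.le

end Pool.Agent.HCD
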