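import Pool.Agent.Lib.HCD.Defs

/-!
# T5a: the pattern of the general mode (Walecki: K_K, K even, is a union of K/2 Hamilton paths)

PROOF.  U j (2s) = j - s mod K, U j (2s+1) = j + s + 1 mod K (s < K/2), as elements of Fin K (beyond L = K anything).
Injectivity on positions < K: the residues j, j-1, .., j-K/2+1 and j+1, .., j+K/2 are the K consecutive residues
j-K/2+1, .., j+K/2.  Cover: injective map between sets of size K.  Sums: U j (2s) + U j (2s+1) = 2j+1 and
U j (2s+1) + U j (2s+2) = 2j mod K: the sum mod K (in {2j, 2j+1}, j < K/2) determines j and the parity of s; given these,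
{j-s, j+s+1} determines s < K/2 because s + s' + 1 < K, and {j+s+1, j-s-1} determines s because s + s' + 2 < K.  pos: the
residue j - s (or j + s + 1) and s determine j < K/2.
-/

set_option autoImplicit false

noncomputable section

open scoped Classical
open Finset

namespace Pool.Agent.HCD

private theorem memf5 {α : Type} (q : α → Prop) (inst : DecidablePred q) (s : Finset α) (a : α)
    (h : a ∈ @Finset.filter α q inst s) : q a := ((@Finset.mem_filter α q inst s a).1 h).2

private def fg (J j s : ℕ) : ℕ :=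
  if s % 2 = 0 then (if s / 2 ≤ j then j - s / 2 else j + 2 * J - s / 2) else j + s / 2 + 1

private theorem fg_lt {J j s : ℕ} (hj : j < J) (hs : s < 2 * J) : fg J j s < 2 * J := by
  unfold fg
  split_ifs <;> omega

private theorem fg_even {J j a : ℕ} : fg J j (2 * a) = if a ≤ j then j - a else j + 2 * J - a := by
  unfold fg
  have h1 : 2 * a % 2 = 0 := by omega
  have h2 : 2 * a / 2 = a := by omega
  rw [h1, h2, if_pos rfl]

private theorem fg_odd {J j a : ℕ} : fg J j (2 * a + 1) = j + a + 1 := by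
  unfold fg
  have h1 : ¬ (2 * a + 1) % 2 = 0 := by omega
  have h2 : (2 * a + 1) / 2 = a := by omega
  rw [if_neg h1, h2]

private theorem fg_inj {J j s s' : ℕ} (hj : j < J) (hs : s < 2 * J) (hs' : s' < 2 * J)
    (h : fg J j s = fg J j s') : s = s' := by
  unfold fg at h
  split_ifs at h <;> omega

private theorem fg_cover {J j c : ℕ} (hj : j < J) (hc : c < 2 * J) :
    ∃ s, s < 2 * J ∧ fg J j s = c := by
  by_cases h1 : c ≤ j
  · refine ⟨2 * (j - c), by omega, ?_⟩
    rw [fg_even, if_pos (by omega)]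
    omega
  · by_cases h2 : c ≤ j + J
    · refine ⟨2 * (c - j - 1) + 1, by omega, ?_⟩
      rw [fg_odd]
      omega
    · refine ⟨2 * (j + 2 * J - c), by omega, ?_⟩
      rw [fg_even, if_neg (by omega)]
      omega

private theorem fg_pair1 {J j s j' s' : ℕ} (hj : j < J) (hj' : j' < J) (hs : s + 1 < 2 * J)
    (hs' : s' + 1 < 2 * J) (h : fg J j s = fg J j' s') (h' : fg J j (s + 1) = fg J j' (s' + 1)) :
    j = j' ∧ s = s' := by
  rcases Nat.even_or_odd' s with ⟨a, rfl | rfl⟩ <;>
    rcases Nat.even_or_odd' s' with ⟨b, rfl | rfl⟩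
  · rw [fg_even, fg_even] at h
    rw [fg_odd, fg_odd] at h'
    split_ifs at h <;> omega
  · have e : 2 * b + 1 + 1 = 2 * (b + 1) := by ring
    rw [fg_even, fg_odd] at h
    rw [fg_odd, e, fg_even] at h'
    split_ifs at h h' <;> omega
  · have e : 2 * a + 1 + 1 = 2 * (a + 1) := by ring
    rw [fg_even, fg_odd] at h
    rw [fg_odd, e, fg_even] at h'
    split_ifs at h h' <;> omega
  · have e : 2 * a + 1 + 1 = 2 * (a + 1) := by ring
    have e' : 2 * b + 1 + 1 = 2 * (b + 1) := by ring
    rw [fg_odd, fg_odd] at h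
    rw [e, e', fg_even, fg_even] at h'
    split_ifs at h' <;> omega

private theorem fg_pair2 {J j s j' s' : ℕ} (hj : j < J) (hj' : j' < J) (hs : s + 1 < 2 * J)
    (hs' : s' + 1 < 2 * J) (h : fg J j s = fg J j' (s' + 1)) (h' : fg J j (s + 1) = fg J j' s') :
    False := by
  rcases Nat.even_or_odd' s with ⟨a, rfl | rfl⟩ <;>
    rcases Nat.even_or_odd' s' with ⟨b, rfl | rfl⟩
  · rw [fg_even, fg_odd] at h
    rw [fg_odd, fg_even] at h'
    split_ifs at h h' <;> omega
  · have e : 2 * b + 1 + 1 = 2 * (b + 1) := by ring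
    rw [e, fg_even, fg_even] at h
    rw [fg_odd, fg_odd] at h'
    split_ifs at h <;> omega
  · have e : 2 * a + 1 + 1 = 2 * (a + 1) := by ring
    rw [fg_odd, fg_odd] at h
    rw [e, fg_even, fg_even] at h'
    split_ifs at h' <;> omega
  · have e : 2 * a + 1 + 1 = 2 * (a + 1) := by ring
    have e' : 2 * b + 1 + 1 = 2 * (b + 1) := by ring
    rw [e', fg_odd, fg_even] at h
    rw [e, fg_odd, fg_even] at h'
    split_ifs at h h' <;> omega

private theorem fg_pos {J j s j' : ℕ} (hj : j < J) (hj' : j' < J) (hs : s < 2 * J)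
    (h : fg J j s = fg J j' s) : j = j' := by
  unfold fg at h
  split_ifs at h <;> omega

theorem pattern_gen (J : ℕ) (hJ : 1 ≤ J) :
    ∃ U : Fin J → ℕ → Fin (2 * J), IsPat U (2 * J) := by
  have hK : 0 < 2 * J := by omega
  refine ⟨fun j s => ⟨fg J j s % (2 * J), Nat.mod_lt _ hK⟩, ?_⟩
  have hval : ∀ (j : Fin J) (s : ℕ), s < 2 * J → fg J j s % (2 * J) = fg J j s :=
    fun j s hs => Nat.mod_eq_of_lt (fg_lt j.2 hs)
  have key : ∀ (j j' : Fin J) (s s' : ℕ), s < 2 * J → s' < 2 * J →
      (⟨fg J j s % (2 * J), Nat.mod_lt _ hK⟩ : Fin (2 * J)) =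
        ⟨fg J j' s' % (2 * J), Nat.mod_lt _ hK⟩ → fg J j s = fg J j' s' := by
    intro j j' s s' hs hs' h
    have h1 := congrArg Fin.val h
    simp only at h1
    rwa [hval j s hs, hval j' s' hs'] at h1
  constructor
  · intro j s s' hs hs' h
    exact fg_inj j.2 hs hs' (key j j s s' hs hs' h)
  · intro j p
    obtain ⟨s, hs, h⟩ := fg_cover j.2 p.2
    refine ⟨s, hs, Fin.ext ?_⟩
    show fg J j s % (2 * J) = p
    rw [hval j s hs, h]
  · intro j s j' s' hs hs' h h'
    obtain ⟨h1, h2⟩ := fg_pair1 j.2 j'.2 hs hs' (key j j' s s' (by omega) (by omega) h)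
      (key j j' (s + 1) (s' + 1) hs hs' h')
    exact ⟨Fin.ext h1, h2⟩
  · intro j s j' s' hs hs' h h'
    exact fg_pair2 j.2 j'.2 hs hs' (key j j' s (s' + 1) (by omega) hs' h)
      (key j j' (s + 1) s' hs (by omega) h')
  · intro s hs p
    refine le_trans (Finset.card_le_one.2 ?_) (by norm_num)
    intro j hj j' hj'
    have h1 := memf5 _ _ _ _ hj
    have h2 := memf5 _ _ _ _ hj'
    exact Fin.ext (fg_pos j.2 j'.2 hs (key j j' s s hs hs (h1.trans h2.symm)))

end Pool.Agent.HCD
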