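import Pool.Agent.Lib.HCD.G1
import Pool.Agent.Lib.HCD.G2
import Pool.Agent.Lib.HCD.T5a

/-!
# G9a: stages 1 and 2 together, general mode

PROOF of `pd_gen`.  `stage1` gives H, R1, R2.  `stage2` with K = 2J; linear sets X: univ, the neighbourhoods {u | H.Adj v u} (v ∈ V), vs (virt i)
(i ∈ Fin N) (K1 = Unit ⊕ V ⊕ Fin N); pair sets P: tset H R1 x z, tset H R2 x z (for x ≠ z; ∅ if x = z) (K2 = Bool × V × V; p.1 ≠ p.2 as H.Adj p.1 p.2).
Number of functions: (1 + m + N) K + 2 m^2 K^2 ≤ 6 m^4 (K ≤ m).  Parts: P = Fin (2J), pt = ℓ, U from `pattern_gen`, L = 2J, Δ = ⌈(D + 2δm)/K⌉₊.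
 size: m/K + δm/K ≤ 2m/K.  hi: H-degree into a part ≤ (D+δm)/K + δm/K ≤ Δ.  lo: ≥ ((1-η)D - 2δm)/K ≥ Δ - (η + 5δ)m/K since
 Δ ≤ (D+2δm)/K + 1, 1 ≤ δm/K, D ≤ m.  D1: K Δ ≥ D ≥ m/10.  D2: K Δ ≤ D + 2δm + K ≤ 2m.  hN: J Δ ≥ J D/K = D/2 ≥ N.
 suit1: tset H R1 x z has ≥ (α^2 γ0 - δ) m^2 members (Suit: first alternative), with labels (a,b): ≥ (α^2 γ0 - δ)(m/K)^2 - δ (m/K)^2 ≥ γ (m/K)^2,
 γ = α^2 γ0/2, as 2δ ≤ α^2 γ0/2.  suit2 same.  vsize: |vs|/K + δm/K ≤ (η+δ)m/K.  vtot, vload, vmat: given.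
-/

set_option autoImplicit false

noncomputable section

open scoped Classical
open Finset

namespace Pool.Agent.HCD

private theorem memf9 {α : Type} (q : α → Prop) (inst : DecidablePred q) (s : Finset α) (a : α) :
    a ∈ @Finset.filter α q inst s ↔ a ∈ s ∧ q a := @Finset.mem_filter α q inst s a

private theorem card_inst {α : Type} (s : Finset α) (p : α → Prop) (i1 i2 : DecidablePred p) :
    (@Finset.filter α p i1 s).card = (@Finset.filter α p i2 s).card := by
  congr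

theorem pd_gen {V : Type} [Fintype V] (G : SimpleGraph V) (y : V → V → ℝ) (hy : WG G y)
    (α γ0 η δ D : ℝ) (hα : 0 < α) (hα' : α ≤ 1 / 8) (hγ0 : 0 < γ0) (hδ : 0 < δ) (hη : 0 ≤ η)
    (hδ2 : 4 * δ ≤ α ^ 2 * γ0) (hδ3 : δ ≤ 1 / 4) (hy1 : ∀ u v, y u v ≤ 1 - 2 * α)
    (N J : ℕ) (hJ : 1 ≤ J) (hJm : (2 * J : ℝ) ≤ δ * Fintype.card V)
    (hD1 : (Fintype.card V : ℝ) ≤ 10 * D) (hD2 : D ≤ Fintype.card V)
    (hdeg : ∀ v, (1 - η) * D ≤ ∑ u, y v u ∧ ∑ u, y v u ≤ D) (hN : (2 * N : ℝ) ≤ D)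
    (virt : Fin N → Finset (V × V)) (hv : ∀ i, IsMat (virt i))
    (hv1 : ∀ i, ((vs (virt i)).card : ℝ) ≤ η * Fintype.card V)
    (hv2 : ∀ w, ((univ.filter (fun i => w ∈ vs (virt i))).card : ℝ) ≤ η * Fintype.card V)
    (hE : ∀ x z, x ≠ z → γ0 * (Fintype.card V : ℝ) ^ 2 ≤ esum G y x z)
    (hm1 : 3 * (Fintype.card V : ℝ) ^ 2 * Real.exp (-(δ ^ 2 * Fintype.card V / 24)) < 1 / 2)
    (hm2 : 6 * (Fintype.card V : ℝ) ^ 4 *
      Real.exp (-(δ ^ 2 * Fintype.card V / (16 * (2 * J : ℝ) ^ 4))) < 1 / 2) :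
    ∃ (pt : V → Fin (2 * J)) (U : Fin J → ℕ → Fin (2 * J)) (Δ : ℕ) (H R1 R2 : SimpleGraph V),
      H ≤ G ∧ R1 ≤ G ∧ R2 ≤ G ∧ Disjoint H R1 ∧ Disjoint H R2 ∧ Disjoint R1 R2 ∧
      PD pt U (2 * J) (2 * J) Δ H R1 R2 (fun x z => x ≠ z) virt η δ (α ^ 2 * γ0 / 2) := by
  have hJ1 : (1 : ℝ) ≤ J := by exact_mod_cast hJ
  have hm0' : (1 : ℝ) ≤ (Fintype.card V : ℝ) := by
    have h0 : (0 : ℝ) ≤ (Fintype.card V : ℝ) := Nat.cast_nonneg _
    nlinarith
  have hcard1 : 1 ≤ Fintype.card V := by exact_mod_cast hm0'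
  obtain ⟨H, R1, R2, hHG, hR1G, hR2G, hHR1, hHR2, hR12, hdH, ht1, ht2⟩ :=
    stage1 G y hy α δ hα hα' hδ hy1 hcard1 hm1
  obtain ⟨U, hU⟩ := pattern_gen J hJ
  have hKpos : 0 < 2 * J := by omega
  obtain ⟨ℓ, hℓ1, hℓ2⟩ := stage2 (V := V) (K1 := Unit ⊕ V ⊕ Fin N) (K2 := Bool × V × V) (2 * J)
    hKpos δ hδ hcard1
    (Sum.elim (fun _ => univ) (Sum.elim (fun v => univ.filter (fun u => H.Adj v u))
      (fun i => vs (virt i))))
    (fun k => tset H (if k.1 then R1 else R2) k.2.1 k.2.2)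
    (by
      rintro ⟨b, x, z⟩ p hp
      unfold tset at hp
      rw [memf9] at hp
      exact hp.2.2.2.1.ne)
    (by
      refine lt_of_le_of_lt ?_ hm2
      have e1 : ((Fintype.card (Unit ⊕ V ⊕ Fin N) : ℕ) : ℝ) = 1 + (Fintype.card V + N) := by
        simp only [Fintype.card_sum, Fintype.card_unit, Fintype.card_fin]
        push_cast
        ring
      have e2 : ((Fintype.card (Bool × V × V) : ℕ) : ℝ) = 2 * (Fintype.card V : ℝ) ^ 2 := by
        simp only [Fintype.card_prod, Fintype.card_bool]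
        push_cast
        ring
      rw [e1, e2]
      push_cast
      refine mul_le_mul_of_nonneg_right ?_ (Real.exp_pos _).le
      set m : ℝ := (Fintype.card V : ℝ)
      have hK : (2 * J : ℝ) ≤ m := by nlinarith
      have hN' : (N : ℝ) ≤ m := by
        have : (0 : ℝ) ≤ N := Nat.cast_nonneg _
        linarith
      have hK0 : (0 : ℝ) ≤ 2 * J := by positivity
      have hNn : (0 : ℝ) ≤ N := Nat.cast_nonneg _
      have a1 : (1 + (m + N)) * (2 * J) ≤ (3 * m) * m := by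
        apply mul_le_mul _ hK hK0 (by linarith)
        linarith
      have a2 : (2 * J : ℝ) ^ 2 ≤ m ^ 2 := pow_le_pow_left₀ hK0 hK 2
      have a3 : m ^ 2 ≤ m ^ 4 := by
        have : (1 : ℝ) ≤ m ^ 2 := by nlinarith
        nlinarith
      have a4 : 2 * m ^ 2 * (2 * J : ℝ) ^ 2 ≤ 2 * m ^ 2 * m ^ 2 :=
        mul_le_mul_of_nonneg_left a2 (by positivity)
      nlinarith)
  set m : ℝ := (Fintype.card V : ℝ) with hmdef
  have hKc : (((2 * J : ℕ)) : ℝ) = 2 * J := by push_cast; ring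
  rw [hKc] at hℓ1 hℓ2
  have hm0 : 0 < m := by linarith
  set K : ℝ := 2 * (J : ℝ) with hKdef
  have hK0 : 0 < K := by linarith
  have hKδ : K ≤ δ * m := hJm
  set Δ : ℕ := ⌈(D + 2 * δ * m) / K⌉₊ with hΔ
  have hD0 : 0 ≤ D := by linarith
  have hΔ1 : (D + 2 * δ * m) / K ≤ Δ := Nat.le_ceil _
  have hΔ2 : (Δ : ℝ) ≤ (D + 2 * δ * m) / K + 1 := (Nat.ceil_lt_add_one (by positivity)).le
  have hΔ1' : D + 2 * δ * m ≤ K * Δ := by
    rw [div_le_iff₀ hK0] at hΔ1
    linarith
  have hΔ2' : K * Δ ≤ D + 2 * δ * m + K := by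
    have := mul_le_mul_of_nonneg_left hΔ2 hK0.le
    rwa [mul_add, mul_div_cancel₀ _ hK0.ne', mul_one] at this
  have hd : ∀ v a, ((1 - η) * D - 2 * δ * m) / K ≤
      ((univ.filter (fun u => ℓ u = a ∧ H.Adj v u)).card : ℝ) ∧
      ((univ.filter (fun u => ℓ u = a ∧ H.Adj v u)).card : ℝ) ≤ (D + 2 * δ * m) / K := by
    intro v a
    have h1 := hℓ1 (Sum.inr (Sum.inl v)) a
    simp only [Sum.elim_inr, Sum.elim_inl] at h1
    have h2 := hdH v
    have h3 := hdeg v
    unfold dg at h2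
    have e1 : ((univ.filter (fun u => H.Adj v u)).filter (fun u => ℓ u = a)) =
        univ.filter (fun u => ℓ u = a ∧ H.Adj v u) := by
      ext u
      simp only [memf9, Finset.mem_univ, true_and]
      exact and_comm
    rw [e1] at h1
    rw [abs_le] at h1 h2
    have h4 : ((univ.filter (fun u => H.Adj v u)).card : ℝ) ≤ D + δ * m := by
      linarith [h2.2, h3.2]
    have h5 : (1 - η) * D - δ * m ≤ ((univ.filter (fun u => H.Adj v u)).card : ℝ) := by
      linarith [h2.1, h3.1]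
    have h6 := div_le_div_of_nonneg_right h4 hK0.le
    have h7 := div_le_div_of_nonneg_right h5 hK0.le
    have e2 : (D + 2 * δ * m) / K = (D + δ * m) / K + δ * m / K := by ring
    have e3 : ((1 - η) * D - 2 * δ * m) / K = ((1 - η) * D - δ * m) / K - δ * m / K := by ring
    rw [e2, e3]
    constructor
    · linarith [h1.1]
    · linarith [h1.2]
  have hhi : ∀ v a, (univ.filter (fun u => ℓ u = a ∧ H.Adj v u)).card ≤ Δ := by
    intro v a
    have := (hd v a).2.trans hΔ1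
    exact_mod_cast this
  have hlo : ∀ v a, (Δ : ℝ) - (η + 5 * δ) * m / K ≤
      ((univ.filter (fun u => ℓ u = a ∧ H.Adj v u)).card : ℝ) := by
    intro v a
    refine le_trans ?_ (hd v a).1
    have h1 : (1 : ℝ) ≤ δ * m / K := by
      rw [le_div_iff₀ hK0]
      linarith
    have h2 : η * D / K ≤ η * m / K :=
      div_le_div_of_nonneg_right (mul_le_mul_of_nonneg_left hD2 hη) hK0.le
    have e1 : (η + 5 * δ) * m / K = η * m / K + 5 * (δ * m / K) := by ring
    have e2 : ((1 - η) * D - 2 * δ * m) / K = D / K - η * D / K - 2 * (δ * m / K) := by ring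
    have e3 : (D + 2 * δ * m) / K = D / K + 2 * (δ * m / K) := by ring
    rw [e1, e2]
    rw [e3] at hΔ2
    linarith
  have hsuit : ∀ (R : SimpleGraph V), R = R1 ∨ R = R2 → ∀ (x z : V), x ≠ z →
      ∀ a c : Fin (2 * J), α ^ 2 * γ0 / 2 * (m / K) ^ 2 ≤
      (univ.filter (fun p : V × V => ℓ p.1 = a ∧ ℓ p.2 = c ∧ H.Adj p.1 p.2 ∧
        Suit R x z p)).card := by
    intro R hR x z hxz a c
    have h1 : |(((tset H R x z).filter (fun p => ℓ p.1 = a ∧ ℓ p.2 = c)).card : ℝ) -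
        (tset H R x z).card / K ^ 2| ≤ δ * (m / K) ^ 2 := by
      rcases hR with rfl | rfl
      · exact hℓ2 (true, x, z) a c
      · exact hℓ2 (false, x, z) a c
    have h2 : α ^ 2 * esum G y x z - δ * m ^ 2 ≤ ((tset H R x z).card : ℝ) := by
      rcases hR with rfl | rfl
      · exact ht1 x z hxz
      · exact ht2 x z hxz
    have h3 := hE x z hxz
    have h4 : (α ^ 2 * γ0 - δ) * m ^ 2 ≤ ((tset H R x z).card : ℝ) := by
      have : α ^ 2 * (γ0 * m ^ 2) ≤ α ^ 2 * esum G y x z :=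
        mul_le_mul_of_nonneg_left h3 (by positivity)
      linarith
    have h5 := div_le_div_of_nonneg_right h4 (by positivity : (0 : ℝ) ≤ K ^ 2)
    rw [abs_le] at h1
    have e1 : (α ^ 2 * γ0 - δ) * m ^ 2 / K ^ 2 = (α ^ 2 * γ0 - δ) * (m / K) ^ 2 := by
      rw [div_pow]
      ring
    rw [e1] at h5
    have hsub : ((tset H R x z).filter (fun p => ℓ p.1 = a ∧ ℓ p.2 = c)) ⊆
        univ.filter (fun p : V × V => ℓ p.1 = a ∧ ℓ p.2 = c ∧ H.Adj p.1 p.2 ∧
        Suit R x z p) := by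
      intro p hp
      rw [memf9] at hp
      obtain ⟨hp1, hp2, hp3⟩ := hp
      unfold tset at hp1
      rw [memf9] at hp1
      rw [memf9]
      exact ⟨Finset.mem_univ _, hp2, hp3, hp1.2.2.2.1, Or.inl ⟨hp1.2.1, hp1.2.2.1⟩⟩
    have h6 : (((tset H R x z).filter
        (fun p => ℓ p.1 = a ∧ ℓ p.2 = c)).card : ℝ) ≤
        (univ.filter (fun p : V × V => ℓ p.1 = a ∧ ℓ p.2 = c ∧ H.Adj p.1 p.2 ∧
        Suit R x z p)).card := by
      exact_mod_cast Finset.card_le_card hsub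
    refine le_trans ?_ h6
    have h7 : 0 ≤ (m / K) ^ 2 := by positivity
    have h8 : (4 * δ) * (m / K) ^ 2 ≤ (α ^ 2 * γ0) * (m / K) ^ 2 :=
      mul_le_mul_of_nonneg_right hδ2 h7
    have h9 := h1.1
    linarith
  refine ⟨ℓ, U, Δ, H, R1, R2, hHG, hR1G, hR2G, hHR1, hHR2, hR12, ?_⟩
  exact
    { pat := hU
      L1 := le_rfl
      L2 := by omega
      J2 := rfl
      D1 := by
        rw [hKc]
        nlinarith
      D2 := by
        rw [hKc]
        nlinarith
      hN := by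
        have : (N : ℝ) ≤ J * Δ := by nlinarith
        exact_mod_cast this
      size := by
        intro p
        rw [hKc]
        have h1 := hℓ1 (Sum.inl ()) p
        simp only [Sum.elim_inl, Finset.card_univ] at h1
        rw [abs_le] at h1
        have h2 : ((univ.filter (fun v => ℓ v = p)).card : ℝ) ≤ m / K + δ * m / K := by
          linarith [h1.2]
        have h3 := mul_le_mul_of_nonneg_left h2 hK0.le
        have e1 : K * (m / K + δ * m / K) = m + δ * m := by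
          field_simp
        rw [e1] at h3
        rw [card_inst _ _ _ (fun v => instDecidableEqFin (2 * J) (ℓ v) p)]
        refine h3.trans ?_
        nlinarith
      hi1 := fun j s _ v _ => (card_inst _ _ _ _).trans_le (hhi v (U j (s + 1)))
      hi2 := fun j s _ v _ => (card_inst _ _ _ _).trans_le (hhi v (U j s))
      lo1 := by
        intro j s _ v _
        rw [hKc]
        exact (hlo v (U j (s + 1))).trans_eq (congrArg Nat.cast (card_inst _ _ _ _))
      lo2 := by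
        intro j s _ v _
        rw [hKc]
        exact (hlo v (U j s)).trans_eq (congrArg Nat.cast (card_inst _ _ _ _))
      suit1 := by
        intro x z hxz j s _
        rw [hKc]
        exact (hsuit R1 (Or.inl rfl) x z hxz (U j s) (U j (s + 1))).trans_eq
          (congrArg Nat.cast (card_inst _ _ _ _))
      suit2 := by
        intro x z hxz j s _
        rw [hKc]
        exact (hsuit R2 (Or.inr rfl) x z hxz (U j s) (U j (s + 1))).trans_eq
          (congrArg Nat.cast (card_inst _ _ _ _))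
      vsize := by
        intro i p
        rw [hKc]
        have h1 := hℓ1 (Sum.inr (Sum.inr i)) p
        simp only [Sum.elim_inr] at h1
        rw [abs_le] at h1
        have h2 := div_le_div_of_nonneg_right (hv1 i) hK0.le
        have e1 : (η + δ) * m / K = η * m / K + δ * m / K := by ring
        rw [e1, card_inst _ _ _ (fun v => instDecidableEqFin (2 * J) (ℓ v) p)]
        have h3 := h1.2
        linarith
      vtot := hv1
      vload := hv2
      vmat := hv }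

end Pool.Agent.HCD
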