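import Pool.Agent.Lib.HCD.Defs

/-!
# T5b: the pattern of the bipartite mode (K_{K,K} minus K/2 edges is a union of K/2 Hamilton paths, K = 2J)

PROOF.  U j (2s) = (true, j - s mod K), U j (2s+1) = (false, 3j - s mod K), s < K; L = 2K.  For fixed j both maps
s ↦ j - s, s ↦ 3j - s are bijections of the residues.  Difference (second component of the false part minus that of the
true part) of a consecutive pair: 2j for (2s, 2s+1), 2j+1 for (2s+1, 2s+2): it determines j < K/2 and the parity of the
position, and then the residue of the true part determines s.  pos: (true, j - s): s and the residue determine j; (false, 3j - s):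
0 ≤ 3j < 3K/2, so 3j = c mod K has at most two solutions j.
-/

set_option autoImplicit false

noncomputable section

open scoped Classical
open Finset

namespace Pool.Agent.HCD

private theorem memf5 {α : Type} (q : α → Prop) (inst : DecidablePred q) (s : Finset α) (a : α)
    (h : a ∈ @Finset.filter α q inst s) : q a := ((@Finset.mem_filter α q inst s a).1 h).2

private def fb (J j a : ℕ) : ℕ := if a ≤ j then j - a else j + 2 * J - a

private def fc (J j a : ℕ) : ℕ :=
  if a ≤ 3 * j then (if 3 * j - a < 2 * J then 3 * j - a else 3 * j - a - 2 * J)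
  else 3 * j + 2 * J - a

private theorem fb_lt {J j a : ℕ} (hj : j < J) (ha : a < 2 * J) : fb J j a < 2 * J := by
  unfold fb
  split_ifs <;> omega

private theorem fc_lt {J j a : ℕ} (hj : j < J) (ha : a < 2 * J) : fc J j a < 2 * J := by
  unfold fc
  split_ifs <;> omega

private theorem fb_inj {J j a b : ℕ} (hj : j < J) (ha : a < 2 * J) (hb : b < 2 * J)
    (h : fb J j a = fb J j b) : a = b := by
  unfold fb at h
  split_ifs at h <;> omega

private theorem fc_inj {J j a b : ℕ} (hj : j < J) (ha : a < 2 * J) (hb : b < 2 * J)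
    (h : fc J j a = fc J j b) : a = b := by
  unfold fc at h
  split_ifs at h <;> omega

private theorem fb_cover {J j c : ℕ} (hj : j < J) (hc : c < 2 * J) :
    ∃ a, a < 2 * J ∧ fb J j a = c := by
  by_cases h1 : c ≤ j
  · refine ⟨j - c, by omega, ?_⟩
    unfold fb
    rw [if_pos (by omega)]
    omega
  · refine ⟨j + 2 * J - c, by omega, ?_⟩
    unfold fb
    rw [if_neg (by omega)]
    omega

private theorem fc_cover {J j c : ℕ} (hj : j < J) (hc : c < 2 * J) :
    ∃ a, a < 2 * J ∧ fc J j a = c := by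
  by_cases h1 : c ≤ 3 * j
  · by_cases h2 : 3 * j - c < 2 * J
    · refine ⟨3 * j - c, h2, ?_⟩
      unfold fc
      rw [if_pos (by omega), if_pos (by omega)]
      omega
    · refine ⟨3 * j - c - 2 * J, by omega, ?_⟩
      unfold fc
      rw [if_pos (by omega), if_neg (by omega)]
      omega
  · refine ⟨3 * j + 2 * J - c, by omega, ?_⟩
    unfold fc
    rw [if_neg (by omega)]
    omega

private theorem fbc_pair {J j a j' b : ℕ} (hj : j < J) (hj' : j' < J) (ha : a < 2 * J)
    (hb : b < 2 * J) (h : fb J j a = fb J j' b) (h' : fc J j a = fc J j' b) :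
    j = j' ∧ a = b := by
  unfold fb at h
  unfold fc at h'
  split_ifs at h h' <;> omega

private theorem fbc_pair' {J j a j' b : ℕ} (hj : j < J) (hj' : j' < J) (ha : a + 1 < 2 * J)
    (hb : b + 1 < 2 * J) (h : fb J j (a + 1) = fb J j' (b + 1)) (h' : fc J j a = fc J j' b) :
    j = j' ∧ a = b := by
  unfold fb at h
  unfold fc at h'
  split_ifs at h h' <;> omega

private theorem fbc_mix {J j a j' b : ℕ} (hj : j < J) (hj' : j' < J) (ha : a < 2 * J)
    (hb : b + 1 < 2 * J) (h : fb J j a = fb J j' (b + 1)) (h' : fc J j a = fc J j' b) :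
    False := by
  unfold fb at h
  unfold fc at h'
  split_ifs at h h' <;> omega

private theorem fb_pos {J j a j' : ℕ} (hj : j < J) (hj' : j' < J) (ha : a < 2 * J)
    (h : fb J j a = fb J j' a) : j = j' := by
  unfold fb at h
  split_ifs at h <;> omega

private theorem fc_pos {J j a j' j'' : ℕ} (hj : j < J) (hj' : j' < J) (hj'' : j'' < J)
    (ha : a < 2 * J) (h : fc J j a = fc J j' a) (h' : fc J j a = fc J j'' a) :
    j = j' ∨ j = j'' ∨ j' = j'' := by
  unfold fc at h h'
  split_ifs at h h' <;> omega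

private def ub (J : ℕ) (hJ : 0 < 2 * J) (j s : ℕ) : Bool × Fin (2 * J) :=
  if s % 2 = 0 then (true, ⟨fb J j (s / 2) % (2 * J), Nat.mod_lt _ hJ⟩)
  else (false, ⟨fc J j (s / 2) % (2 * J), Nat.mod_lt _ hJ⟩)

private theorem ub_even {J : ℕ} (hJ : 0 < 2 * J) (j a : ℕ) :
    ub J hJ j (2 * a) = (true, ⟨fb J j a % (2 * J), Nat.mod_lt _ hJ⟩) := by
  unfold ub
  have h1 : 2 * a % 2 = 0 := by omega
  have h2 : 2 * a / 2 = a := by omega
  rw [if_pos h1]
  refine Prod.ext rfl (Fin.ext ?_)
  show fb J j (2 * a / 2) % (2 * J) = fb J j a % (2 * J)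
  rw [h2]

private theorem ub_odd {J : ℕ} (hJ : 0 < 2 * J) (j a : ℕ) :
    ub J hJ j (2 * a + 1) = (false, ⟨fc J j a % (2 * J), Nat.mod_lt _ hJ⟩) := by
  unfold ub
  have h1 : ¬ (2 * a + 1) % 2 = 0 := by omega
  have h2 : (2 * a + 1) / 2 = a := by omega
  rw [if_neg h1]
  refine Prod.ext rfl (Fin.ext ?_)
  show fc J j ((2 * a + 1) / 2) % (2 * J) = fc J j a % (2 * J)
  rw [h2]

private theorem ub_ee {J : ℕ} (hJ : 0 < 2 * J) {j j' a b : ℕ} (hj : j < J) (hj' : j' < J)
    (ha : a < 2 * J) (hb : b < 2 * J) (h : ub J hJ j (2 * a) = ub J hJ j' (2 * b)) :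
    fb J j a = fb J j' b := by
  rw [ub_even, ub_even] at h
  have h1 := congrArg Fin.val (Prod.ext_iff.1 h).2
  simp only at h1
  rwa [Nat.mod_eq_of_lt (fb_lt hj ha), Nat.mod_eq_of_lt (fb_lt hj' hb)] at h1

private theorem ub_oo {J : ℕ} (hJ : 0 < 2 * J) {j j' a b : ℕ} (hj : j < J) (hj' : j' < J)
    (ha : a < 2 * J) (hb : b < 2 * J) (h : ub J hJ j (2 * a + 1) = ub J hJ j' (2 * b + 1)) :
    fc J j a = fc J j' b := by
  rw [ub_odd, ub_odd] at h
  have h1 := congrArg Fin.val (Prod.ext_iff.1 h).2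
  simp only at h1
  rwa [Nat.mod_eq_of_lt (fc_lt hj ha), Nat.mod_eq_of_lt (fc_lt hj' hb)] at h1

private theorem ub_eo {J : ℕ} (hJ : 0 < 2 * J) {j j' a b : ℕ}
    (h : ub J hJ j (2 * a) = ub J hJ j' (2 * b + 1)) : False := by
  rw [ub_even, ub_odd] at h
  exact Bool.noConfusion (Prod.ext_iff.1 h).1

theorem pattern_bip (J : ℕ) (hJ : 1 ≤ J) :
    ∃ U : Fin J → ℕ → Bool × Fin (2 * J), IsPat U (2 * (2 * J)) ∧
      ∀ j s, s + 1 < 2 * (2 * J) → (U j s).1 ≠ (U j (s + 1)).1 := by
  have hK : 0 < 2 * J := by omega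
  refine ⟨fun j s => ub J hK j s, ?_, ?_⟩
  · constructor
    · intro j s s' hs hs' h
      rcases Nat.even_or_odd' s with ⟨a, rfl | rfl⟩ <;>
        rcases Nat.even_or_odd' s' with ⟨b, rfl | rfl⟩
      · rw [fb_inj j.2 (by omega) (by omega) (ub_ee hK j.2 j.2 (by omega) (by omega) h)]
      · exact (ub_eo hK h).elim
      · exact (ub_eo hK h.symm).elim
      · rw [fc_inj j.2 (by omega) (by omega) (ub_oo hK j.2 j.2 (by omega) (by omega) h)]
    · rintro j ⟨t, p⟩
      cases t with
      | true =>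
        obtain ⟨a, ha, h⟩ := fb_cover j.2 p.2
        refine ⟨2 * a, by omega, ?_⟩
        show ub J hK j (2 * a) = (true, p)
        rw [ub_even]
        refine Prod.ext rfl (Fin.ext ?_)
        show fb J j a % (2 * J) = p
        rw [h, Nat.mod_eq_of_lt p.2]
      | false =>
        obtain ⟨a, ha, h⟩ := fc_cover j.2 p.2
        refine ⟨2 * a + 1, by omega, ?_⟩
        show ub J hK j (2 * a + 1) = (false, p)
        rw [ub_odd]
        refine Prod.ext rfl (Fin.ext ?_)
        show fc J j a % (2 * J) = p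
        rw [h, Nat.mod_eq_of_lt p.2]
    · intro j s j' s' hs hs' h h'
      rcases Nat.even_or_odd' s with ⟨a, rfl | rfl⟩ <;>
        rcases Nat.even_or_odd' s' with ⟨b, rfl | rfl⟩
      · obtain ⟨h1, h2⟩ := fbc_pair j.2 j'.2 (by omega) (by omega)
          (ub_ee hK j.2 j'.2 (by omega) (by omega) h)
          (ub_oo hK j.2 j'.2 (by omega) (by omega) h')
        exact ⟨Fin.ext h1, by rw [h2]⟩
      · exact (ub_eo hK h).elim
      · exact (ub_eo hK h.symm).elim
      · have e : 2 * a + 1 + 1 = 2 * (a + 1) := by ring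
        have e' : 2 * b + 1 + 1 = 2 * (b + 1) := by ring
        rw [e, e'] at h'
        obtain ⟨h1, h2⟩ := fbc_pair' j.2 j'.2 (by omega) (by omega)
          (ub_ee hK j.2 j'.2 (by omega) (by omega) h')
          (ub_oo hK j.2 j'.2 (by omega) (by omega) h)
        exact ⟨Fin.ext h1, by rw [h2]⟩
    · intro j s j' s' hs hs' h h'
      rcases Nat.even_or_odd' s with ⟨a, rfl | rfl⟩ <;>
        rcases Nat.even_or_odd' s' with ⟨b, rfl | rfl⟩
      · exact ub_eo hK h
      · have e' : 2 * b + 1 + 1 = 2 * (b + 1) := by ring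
        rw [e'] at h
        exact fbc_mix j.2 j'.2 (by omega) (by omega)
          (ub_ee hK j.2 j'.2 (by omega) (by omega) h)
          (ub_oo hK j.2 j'.2 (by omega) (by omega) h')
      · have e : 2 * a + 1 + 1 = 2 * (a + 1) := by ring
        rw [e] at h'
        exact fbc_mix j'.2 j.2 (by omega) (by omega)
          (ub_ee hK j.2 j'.2 (by omega) (by omega) h').symm
          (ub_oo hK j.2 j'.2 (by omega) (by omega) h).symm
      · have e' : 2 * b + 1 + 1 = 2 * (b + 1) := by ring
        rw [e'] at h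
        exact ub_eo hK h.symm
    · intro s hs p
      by_contra hcon
      push Not at hcon
      obtain ⟨x, hx, y, hy, z, hz, hxy, hxz, hyz⟩ := Finset.two_lt_card.1 hcon
      have h1 : ub J hK x s = p := memf5 (fun j : Fin J => ub J hK j s = p) _ _ _ hx
      have h2 : ub J hK y s = p := memf5 (fun j : Fin J => ub J hK j s = p) _ _ _ hy
      have h3 : ub J hK z s = p := memf5 (fun j : Fin J => ub J hK j s = p) _ _ _ hz
      rcases Nat.even_or_odd' s with ⟨a, rfl | rfl⟩
      · exact hxy (Fin.ext (fb_pos x.2 y.2 (by omega)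
          (ub_ee hK x.2 y.2 (by omega) (by omega) (h1.trans h2.symm))))
      · rcases fc_pos x.2 y.2 z.2 (show a < 2 * J by omega)
          (ub_oo hK x.2 y.2 (by omega) (by omega) (h1.trans h2.symm))
          (ub_oo hK x.2 z.2 (by omega) (by omega) (h1.trans h3.symm)) with h | h | h
        · exact hxy (Fin.ext h)
        · exact hxz (Fin.ext h)
        · exact hyz (Fin.ext h)
  · intro j s hs
    rcases Nat.even_or_odd' s with ⟨a, rfl | rfl⟩
    · show (ub J hK j (2 * a)).1 ≠ (ub J hK j (2 * a + 1)).1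
      rw [ub_even, ub_odd]
      exact Bool.noConfusion
    · have e : 2 * a + 1 + 1 = 2 * (a + 1) := by ring
      show (ub J hK j (2 * a + 1)).1 ≠ (ub J hK j (2 * a + 1 + 1)).1
      rw [e, ub_even, ub_odd]
      exact Bool.noConfusion

end Pool.Agent.HCD
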