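import Pool.Agent.Lib.HCD.G1
import Pool.Agent.Lib.HCD.G2
import Pool.Agent.Lib.HCD.T5b

/-!
# G9b: stages 1 and 2 together, bipartite mode (same proof as pd_gen, see the changes below)

PROOF of `pd_gen`.  `stage1` gives H, R1, R2.  `stage2` with K = 2J; linear sets X: univ, the neighbourhoods {u | H.Adj v u} (v ∈ V), vs (virt i)
(i ∈ Fin N) (K1 = Unit ⊕ V ⊕ Fin N); pair sets P: tset H R1 x z, tset H R2 x z (for x ≠ z; ∅ if x = z) (K2 = Bool × V × V; p.1 ≠ p.2 as H.Adj p.1 p.2).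
Number of functions: (1 + m + N) K + 2 m^2 K^2 ≤ 6 m^4 (K ≤ m).  Parts: P = Fin (2J), pt = ℓ, U from `pattern_gen`, L = 2J, Δ = ⌈(D + 2δm)/K⌉₊.
 size: m/K + δm/K ≤ 2m/K.  hi: H-degree into a part ≤ (D+δm)/K + δm/K ≤ Δ.  lo: ≥ ((1-η)D - 2δm)/K ≥ Δ - (η + 5δ)m/K since
 Δ ≤ (D+2δm)/K + 1, 1 ≤ δm/K, D ≤ m.  D1: K Δ ≥ D ≥ m/10.  D2: K Δ ≤ D + 2δm + K ≤ 2m.  hN: J Δ ≥ J D/K = D/2 ≥ N.
 suit1: tset H R1 x z has ≥ (α^2 γ0 - δ) m^2 members (Suit: first alternative), with labels (a,b): ≥ (α^2 γ0 - δ)(m/K)^2 - δ (m/K)^2 ≥ γ (m/K)^2,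
 γ = α^2 γ0/2, as 2δ ≤ α^2 γ0/2.  suit2 same.  vsize: |vs|/K + δm/K ≤ (η+δ)m/K.  vtot, vload, vmat: given.
PROOF of `pd_bip`.  P = Bool × Fin (2J), pt v = (ty v, ℓ v), U from `pattern_bip`, L = 2(2J).  Linear sets: the same plus none for the types (only
upper bounds of part sizes: {v | ℓ v = a} has ≤ 2m/K members).  For v of type t the H-neighbours have type ≠ t, so the H-degree of v into
the part (¬t, b) is #{u ∈ N_H(v), ℓ u = b}.  suit: for ty x ≠ ty z and consecutive parts (t,a), (¬t,b): if ty x = ¬t: the pairs of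
tset H R1 x z with labels (a,b) (q ~ x so ty q = t, q' ~ z so ty q' = ¬t) (first alternative of Suit); if ty x = t: ty z = ¬t, use tset H R1 z x
(its pairs (q,q'): R1.Adj z q, R1.Adj x q': ty q = t, ty q' = ¬t): second alternative of Suit.
-/

set_option autoImplicit false

noncomputable section

open scoped Classical
open Finset

namespace Pool.Agent.HCD

theorem pd_bip {V : Type} [Fintype V] (G : SimpleGraph V) (y : V → V → ℝ) (hy : WG G y)
    (ty : V → Bool) (hty : ∀ u v, G.Adj u v → ty u ≠ ty v)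
    (α γ0 η δ D : ℝ) (hα : 0 < α) (hα' : α ≤ 1 / 8) (hγ0 : 0 < γ0) (hδ : 0 < δ) (hη : 0 ≤ η)
    (hδ2 : 4 * δ ≤ α ^ 2 * γ0) (hδ3 : δ ≤ 1 / 4) (hy1 : ∀ u v, y u v ≤ 1 - 2 * α)
    (N J : ℕ) (hJ : 1 ≤ J) (hJm : (2 * J : ℝ) ≤ δ * Fintype.card V)
    (hD1 : (Fintype.card V : ℝ) ≤ 10 * D) (hD2 : D ≤ Fintype.card V)
    (hdeg : ∀ v, (1 - η) * D ≤ ∑ u, y v u ∧ ∑ u, y v u ≤ D) (hN : (2 * N : ℝ) ≤ D)
    (virt : Fin N → Finset (V × V)) (hv : ∀ i, IsMat (virt i))
    (hv1 : ∀ i, ((vs (virt i)).card : ℝ) ≤ η * Fintype.card V)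
    (hv2 : ∀ w, ((univ.filter (fun i => w ∈ vs (virt i))).card : ℝ) ≤ η * Fintype.card V)
    (hE : ∀ x z, ty x ≠ ty z → γ0 * (Fintype.card V : ℝ) ^ 2 ≤ esum G y x z)
    (hm1 : 3 * (Fintype.card V : ℝ) ^ 2 * Real.exp (-(δ ^ 2 * Fintype.card V / 24)) < 1 / 2)
    (hm2 : 6 * (Fintype.card V : ℝ) ^ 4 *
      Real.exp (-(δ ^ 2 * Fintype.card V / (16 * (2 * J : ℝ) ^ 4))) < 1 / 2) :
    ∃ (pt : V → Bool × Fin (2 * J)) (U : Fin J → ℕ → Bool × Fin (2 * J)) (Δ : ℕ)
      (H R1 R2 : SimpleGraph V),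
      H ≤ G ∧ R1 ≤ G ∧ R2 ≤ G ∧ Disjoint H R1 ∧ Disjoint H R2 ∧ Disjoint R1 R2 ∧
      PD pt U (2 * (2 * J)) (2 * J) Δ H R1 R2 (fun x z => ty x ≠ ty z) virt η δ
        (α ^ 2 * γ0 / 2) := by
  obtain ⟨m, hm⟩ : ∃ m : ℝ, m = (Fintype.card V : ℝ) := ⟨_, rfl⟩
  obtain ⟨K, hKdef⟩ : ∃ K : ℝ, K = ((2 * J : ℕ) : ℝ) := ⟨_, rfl⟩
  have hK' : K = 2 * (J : ℝ) := by rw [hKdef]; push_cast; ring
  have hJ1 : (1 : ℝ) ≤ J := by exact_mod_cast hJ
  have hK2 : 2 ≤ K := by rw [hK']; linarith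
  have hK0 : 0 < K := by linarith
  rw [← hm] at hJm hD1 hD2
  have hKm : K ≤ δ * m := by rw [hK']; exact hJm
  have hm0 : 0 ≤ m := by rw [hm]; positivity
  have hδm : δ * m ≤ 1 / 4 * m := mul_le_mul_of_nonneg_right hδ3 hm0
  have hm8 : 8 ≤ m := by linarith
  have hKlem : K ≤ m := by linarith
  have hcard1 : 1 ≤ Fintype.card V := by
    have : (1 : ℝ) ≤ (Fintype.card V : ℝ) := by rw [← hm]; linarith
    exact_mod_cast this
  obtain ⟨H, R1, R2, hHG, hR1G, hR2G, hd1, hd2, hd3, hdegH, ht1, ht2⟩ :=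
    stage1 G y hy α δ hα hα' hδ hy1 hcard1 hm1
  rw [← hm] at hdegH ht1 ht2
  -- stage 2
  obtain ⟨X, hX⟩ : ∃ X : Unit ⊕ V ⊕ Fin N → Finset V, X = fun k => match k with
    | Sum.inl _ => univ
    | Sum.inr (Sum.inl v) => univ.filter (fun u => H.Adj v u)
    | Sum.inr (Sum.inr i) => vs (virt i) := ⟨_, rfl⟩
  obtain ⟨P, hP⟩ : ∃ P : Bool × V × V → Finset (V × V), P = fun k =>
    tset H (if k.1 = true then R1 else R2) k.2.1 k.2.2 := ⟨_, rfl⟩
  have hPne : ∀ k, ∀ p ∈ P k, p.1 ≠ p.2 := by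
    intro k p hp
    rw [hP] at hp
    simp only [tset, mem_filter] at hp
    exact hp.2.2.2.1.ne
  have hnum : ((Fintype.card (Unit ⊕ V ⊕ Fin N) : ℝ) * (2 * J : ℕ) +
      Fintype.card (Bool × V × V) * ((2 * J : ℕ) : ℝ) ^ 2) *
      Real.exp (-(δ ^ 2 * Fintype.card V / (16 * ((2 * J : ℕ) : ℝ) ^ 4))) < 1 / 2 := by
    have e1 : ((2 * J : ℕ) : ℝ) = 2 * (J : ℝ) := by push_cast; ring
    rw [e1]
    refine lt_of_le_of_lt (mul_le_mul_of_nonneg_right ?_ (Real.exp_pos _).le) hm2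
    rw [← e1, ← hKdef]
    simp only [Fintype.card_sum, Fintype.card_prod, Fintype.card_unit, Fintype.card_bool,
      Fintype.card_fin]
    push_cast
    rw [← hm]
    have hNm : (N : ℝ) ≤ m := by
      have : (0 : ℝ) ≤ N := by positivity
      linarith
    have hN0 : (0 : ℝ) ≤ N := by positivity
    have h1 : (1 + (m + N)) * K ≤ 3 * m * m := by
      have : 1 + (m + N) ≤ 3 * m := by linarith
      exact mul_le_mul this hKlem hK0.le (by linarith)
    have h2 : K ^ 2 ≤ m ^ 2 := pow_le_pow_left₀ hK0.le hKlem 2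
    have h3 : 2 * (m * m) * K ^ 2 ≤ 2 * (m * m) * m ^ 2 := mul_le_mul_of_nonneg_left h2 (by positivity)
    have h4 : m ^ 2 ≤ m ^ 4 := pow_le_pow_right₀ (by linarith) (by norm_num)
    nlinarith
  obtain ⟨ℓ, hℓ1, hℓ2⟩ := stage2 (2 * J) (by omega) δ hδ hcard1 X P hPne hnum
  rw [← hm, ← hKdef] at hℓ1 hℓ2
  obtain ⟨U, hU, hUalt⟩ := pattern_bip J hJ
  obtain ⟨Δ, hΔ⟩ : ∃ Δ : ℕ, Δ = ⌈(D + 2 * δ * m) / K⌉₊ := ⟨_, rfl⟩
  have hD0 : 0 ≤ D := by linarith
  have hΔ1 : (D + 2 * δ * m) / K ≤ Δ := by rw [hΔ]; exact Nat.le_ceil _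
  have hΔ2 : (Δ : ℝ) ≤ (D + 2 * δ * m) / K + 1 := by
    rw [hΔ]
    exact (Nat.ceil_lt_add_one (by positivity)).le
  have hKΔ1 : D + 2 * δ * m ≤ K * Δ := by
    rw [div_le_iff₀ hK0] at hΔ1
    linarith
  have hKΔ2 : K * Δ ≤ D + 2 * δ * m + K := by
    have h := mul_le_mul_of_nonneg_left hΔ2 hK0.le
    rw [mul_add, mul_div_cancel₀ _ hK0.ne', mul_one] at h
    exact h
  have hδm0 : 0 ≤ δ * m := by positivity
  -- linear sets
  have hXuniv : ∀ a, ((univ.filter (fun v => ℓ v = a)).card : ℝ) ≤ m / K + δ * m / K := by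
    intro a
    have h := (abs_le.1 (hℓ1 (Sum.inl ()) a)).2
    rw [hX] at h
    simp only [card_univ] at h
    rw [← hm] at h
    linarith
  have hdeg1 : ∀ v, (dg H v univ : ℝ) ≤ D + δ * m := fun v => by
    have h := (abs_le.1 (hdegH v)).2
    have h' := (hdeg v).2
    linarith
  have hdeg2 : ∀ v, (1 - η) * D - δ * m ≤ (dg H v univ : ℝ) := fun v => by
    have h := (abs_le.1 (hdegH v)).1
    have h' := (hdeg v).1
    linarith
  have hXN : ∀ v a, |(((univ.filter (fun u => H.Adj v u)).filter (fun u => ℓ u = a)).card : ℝ) -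
      (dg H v univ : ℝ) / K| ≤ δ * m / K := by
    intro v a
    have h := hℓ1 (Sum.inr (Sum.inl v)) a
    rw [hX] at h
    exact h
  have hXv : ∀ i a, |(((vs (virt i)).filter (fun v => ℓ v = a)).card : ℝ) -
      ((vs (virt i)).card : ℝ) / K| ≤ δ * m / K := by
    intro i a
    have h := hℓ1 (Sum.inr (Sum.inr i)) a
    rw [hX] at h
    exact h
  -- degrees into parts
  have hpt : ∀ (u : V) (q : Bool × Fin (2 * J)), (ty u, ℓ u) = q → ty u = q.1 ∧ ℓ u = q.2 := by
    intro u q h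
    rw [← h]
    exact ⟨rfl, rfl⟩
  have hhi : ∀ v (q : Bool × Fin (2 * J)),
      (univ.filter (fun u => (ty u, ℓ u) = q ∧ H.Adj v u)).card ≤ Δ := by
    intro v q
    have hsub : univ.filter (fun u => (ty u, ℓ u) = q ∧ H.Adj v u) ⊆
        (univ.filter (fun u => H.Adj v u)).filter (fun u => ℓ u = q.2) := by
      intro u hu
      simp only [mem_filter, mem_univ, true_and] at hu ⊢
      exact ⟨hu.2, (hpt u q hu.1).2⟩
    have h1 : ((univ.filter (fun u => (ty u, ℓ u) = q ∧ H.Adj v u)).card : ℝ) ≤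
        (((univ.filter (fun u => H.Adj v u)).filter (fun u => ℓ u = q.2)).card : ℝ) := by
      exact_mod_cast card_le_card hsub
    have h2 := (abs_le.1 (hXN v q.2)).2
    have h3 : (dg H v univ : ℝ) / K ≤ (D + δ * m) / K := div_le_div_of_nonneg_right (hdeg1 v) hK0.le
    have h4 : (D + δ * m) / K + δ * m / K = (D + 2 * δ * m) / K := by
      rw [← add_div]
      ring
    have h5 : ((univ.filter (fun u => (ty u, ℓ u) = q ∧ H.Adj v u)).card : ℝ) ≤ Δ := by linarith
    exact_mod_cast h5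
  have hlo : ∀ v (q : Bool × Fin (2 * J)), ty v ≠ q.1 → (Δ : ℝ) - (η + 5 * δ) * m / K ≤
      (univ.filter (fun u => (ty u, ℓ u) = q ∧ H.Adj v u)).card := by
    intro v q hvq
    have hsub : (univ.filter (fun u => H.Adj v u)).filter (fun u => ℓ u = q.2) ⊆
        univ.filter (fun u => (ty u, ℓ u) = q ∧ H.Adj v u) := by
      intro u hu
      simp only [mem_filter, mem_univ, true_and] at hu ⊢
      refine ⟨?_, hu.1⟩
      have h1 := hty v u (hHG hu.1)
      have h2 : ty u = q.1 := by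
        revert h1 hvq
        cases ty u <;> cases ty v <;> cases q.1 <;> simp
      rw [h2, hu.2]
    have h1 : (((univ.filter (fun u => H.Adj v u)).filter (fun u => ℓ u = q.2)).card : ℝ) ≤
        ((univ.filter (fun u => (ty u, ℓ u) = q ∧ H.Adj v u)).card : ℝ) := by
      exact_mod_cast card_le_card hsub
    have h2 := (abs_le.1 (hXN v q.2)).1
    have h3 : ((1 - η) * D - δ * m) / K ≤ (dg H v univ : ℝ) / K :=
      div_le_div_of_nonneg_right (hdeg2 v) hK0.le
    have h4 : (1 : ℝ) ≤ δ * m / K := (one_le_div hK0).2 hKm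
    have h5 : η * D ≤ η * m := mul_le_mul_of_nonneg_left hD2 hη
    have h6 : (D + 2 * δ * m) / K + δ * m / K - (η + 5 * δ) * m / K ≤
        ((1 - η) * D - δ * m) / K - δ * m / K := by
      rw [← add_div, ← sub_div, ← sub_div]
      refine div_le_div_of_nonneg_right ?_ hK0.le
      nlinarith
    linarith
  -- suitable pairs
  have hsuit : ∀ (b : Bool) (R : SimpleGraph V), R = (if b = true then R1 else R2) → R ≤ G →
      (∀ x z, x ≠ z → α ^ 2 * esum G y x z - δ * m ^ 2 ≤ (tset H R x z).card) →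
      ∀ x z, ty x ≠ ty z → ∀ j s, s + 1 < 2 * (2 * J) → α ^ 2 * γ0 / 2 * (m / K) ^ 2 ≤
      (univ.filter (fun p : V × V => (ty p.1, ℓ p.1) = U j s ∧ (ty p.2, ℓ p.2) = U j (s+1) ∧
        H.Adj p.1 p.2 ∧ Suit R x z p)).card := by
    intro b R hR hRG ht x z hxz j s hs
    have key : ∀ x' z', ty x' ≠ ty z' → ∀ a a', α ^ 2 * γ0 / 2 * (m / K) ^ 2 ≤
        (((tset H R x' z').filter (fun p => ℓ p.1 = a ∧ ℓ p.2 = a')).card : ℝ) := by
      intro x' z' hxz' a a'
      have h1 := (abs_le.1 (hℓ2 (b, x', z') a a')).1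
      rw [hP] at h1
      simp only at h1
      rw [← hR] at h1
      have hne : x' ≠ z' := fun h => hxz' (by rw [h])
      have h2 := ht x' z' hne
      have h3 := hE x' z' hxz'
      rw [← hm] at h3
      have h4 : α ^ 2 * (γ0 * m ^ 2) ≤ α ^ 2 * esum G y x' z' :=
        mul_le_mul_of_nonneg_left h3 (by positivity)
      have h5 : (α ^ 2 * γ0 - δ) * m ^ 2 ≤ ((tset H R x' z').card : ℝ) := by linarith
      have h6 : (α ^ 2 * γ0 - δ) * m ^ 2 / K ^ 2 ≤ ((tset H R x' z').card : ℝ) / K ^ 2 :=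
        div_le_div_of_nonneg_right h5 (by positivity)
      have h7 : (α ^ 2 * γ0 - δ) * m ^ 2 / K ^ 2 = (α ^ 2 * γ0 - δ) * (m / K) ^ 2 := by
        rw [div_pow]
        ring
      rw [h7] at h6
      have h8 : 0 ≤ (m / K) ^ 2 := by positivity
      have h9 : (α ^ 2 * γ0 / 2) * (m / K) ^ 2 ≤ (α ^ 2 * γ0 - 2 * δ) * (m / K) ^ 2 :=
        mul_le_mul_of_nonneg_right (by linarith) h8
      linarith
    have halt := hUalt j s hs
    by_cases hx : ty x = (U j s).1
    · have hz : ty z ≠ (U j s).1 := fun h => hxz (by rw [hx, h])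
      refine (key z x (fun h => hxz h.symm) (U j s).2 (U j (s+1)).2).trans ?_
      have hsub : (tset H R z x).filter (fun p => ℓ p.1 = (U j s).2 ∧ ℓ p.2 = (U j (s+1)).2) ⊆
          univ.filter (fun p : V × V => (ty p.1, ℓ p.1) = U j s ∧ (ty p.2, ℓ p.2) = U j (s+1) ∧
            H.Adj p.1 p.2 ∧ Suit R x z p) := by
        intro p hp
        simp only [tset, mem_filter, mem_univ, true_and] at hp ⊢
        obtain ⟨⟨q1, q2, q3, -, -⟩, l1, l2⟩ := hp
        have k1 := hty z p.1 (hRG q1)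
        have k2 := hty x p.2 (hRG q2)
        have e1 : ty p.1 = (U j s).1 := by
          revert k1 hz
          cases ty p.1 <;> cases ty z <;> cases (U j s).1 <;> simp
        have e2 : ty p.2 = (U j (s+1)).1 := by
          rw [hx] at k2
          revert k2 halt
          cases ty p.2 <;> cases (U j s).1 <;> cases (U j (s+1)).1 <;> simp
        refine ⟨by rw [e1, l1], by rw [e2, l2], q3, Or.inr ⟨q2, q1⟩⟩
      exact_mod_cast card_le_card hsub
    · have hz : ty z = (U j s).1 := by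
        revert hx hxz
        cases ty x <;> cases ty z <;> cases (U j s).1 <;> simp
      refine (key x z hxz (U j s).2 (U j (s+1)).2).trans ?_
      have hsub : (tset H R x z).filter (fun p => ℓ p.1 = (U j s).2 ∧ ℓ p.2 = (U j (s+1)).2) ⊆
          univ.filter (fun p : V × V => (ty p.1, ℓ p.1) = U j s ∧ (ty p.2, ℓ p.2) = U j (s+1) ∧
            H.Adj p.1 p.2 ∧ Suit R x z p) := by
        intro p hp
        simp only [tset, mem_filter, mem_univ, true_and] at hp ⊢
        obtain ⟨⟨q1, q2, q3, -, -⟩, l1, l2⟩ := hp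
        have k1 := hty x p.1 (hRG q1)
        have k2 := hty z p.2 (hRG q2)
        have e1 : ty p.1 = (U j s).1 := by
          revert k1 hx
          cases ty p.1 <;> cases ty x <;> cases (U j s).1 <;> simp
        have e2 : ty p.2 = (U j (s+1)).1 := by
          rw [hz] at k2
          revert k2 halt
          cases ty p.2 <;> cases (U j s).1 <;> cases (U j (s+1)).1 <;> simp
        refine ⟨by rw [e1, l1], by rw [e2, l2], q3, Or.inl ⟨q1, q2⟩⟩
      exact_mod_cast card_le_card hsub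
  refine ⟨fun v => (ty v, ℓ v), U, Δ, H, R1, R2, hHG, hR1G, hR2G, hd1, hd2, hd3, ?_⟩
  refine
    { pat := hU
      L1 := by omega
      L2 := le_rfl
      J2 := rfl
      D1 := ?_
      D2 := ?_
      hN := ?_
      size := ?_
      hi1 := fun j s _ v _ => le_trans (le_of_eq (by congr)) (hhi v (U j (s+1)))
      hi2 := fun j s _ v _ => le_trans (le_of_eq (by congr)) (hhi v (U j s))
      lo1 := ?_
      lo2 := ?_
      suit1 := ?_
      suit2 := ?_
      vsize := ?_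
      vtot := hv1
      vload := hv2
      vmat := hv }
  · rw [← hm, ← hKdef]
    nlinarith
  · rw [← hm, ← hKdef]
    linarith
  · have h1 : (N : ℝ) ≤ ((J * Δ : ℕ) : ℝ) := by
      push_cast
      rw [hK'] at hKΔ1
      linarith
    exact_mod_cast h1
  · intro q
    rw [← hm, ← hKdef]
    have hsub : univ.filter (fun v => (ty v, ℓ v) = q) ⊆ univ.filter (fun v => ℓ v = q.2) := by
      intro u hu
      simp only [mem_filter, mem_univ, true_and] at hu ⊢
      exact (hpt u q hu).2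
    have h1 : ((univ.filter (fun v => (ty v, ℓ v) = q)).card : ℝ) ≤ m / K + δ * m / K :=
      le_trans (by exact_mod_cast card_le_card hsub) (hXuniv q.2)
    have h2 := mul_le_mul_of_nonneg_left h1 hK0.le
    rw [mul_add, mul_div_cancel₀ _ hK0.ne', mul_div_cancel₀ _ hK0.ne'] at h2
    refine le_trans (le_of_eq ?_) (h2.trans (by linarith))
    congr
  · intro j s hs v hv'
    rw [← hm, ← hKdef]
    refine le_trans (hlo v (U j (s+1)) ?_) (le_of_eq (by congr))
    rw [(hpt v _ hv').1]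
    exact hUalt j s hs
  · intro j s hs v hv'
    rw [← hm, ← hKdef]
    refine le_trans (hlo v (U j s) ?_) (le_of_eq (by congr))
    rw [(hpt v _ hv').1]
    exact (hUalt j s hs).symm
  · intro x z hxz j s hs
    rw [← hm, ← hKdef]
    exact le_trans (hsuit true R1 (by simp) hR1G ht1 x z hxz j s hs) (le_of_eq (by congr))
  · intro x z hxz j s hs
    rw [← hm, ← hKdef]
    exact le_trans (hsuit false R2 (by simp) hR2G ht2 x z hxz j s hs) (le_of_eq (by congr))
  · intro i q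
    rw [← hm, ← hKdef]
    have hsub : (vs (virt i)).filter (fun v => (ty v, ℓ v) = q) ⊆
        (vs (virt i)).filter (fun v => ℓ v = q.2) := by
      intro u hu
      simp only [mem_filter] at hu ⊢
      exact ⟨hu.1, (hpt u q hu.2).2⟩
    have h1 : (((vs (virt i)).filter (fun v => (ty v, ℓ v) = q)).card : ℝ) ≤
        (((vs (virt i)).filter (fun v => ℓ v = q.2)).card : ℝ) := by
      exact_mod_cast card_le_card hsub
    have h2 := (abs_le.1 (hXv i q.2)).2
    have h3 := hv1 i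
    rw [← hm] at h3
    have h4 : ((vs (virt i)).card : ℝ) / K ≤ η * m / K := div_le_div_of_nonneg_right h3 hK0.le
    have h5 : (η + δ) * m / K = η * m / K + δ * m / K := by
      rw [← add_div]
      ring
    rw [h5]
    refine le_trans (le_of_eq ?_) (h1.trans (by linarith))
    congr

end Pool.Agent.HCD
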