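import Pool.Agent.Lib.HCD.Defs

/-!
# T12: growth: choice of K = 2J, and the three exponential inequalities

PROOF of `choose_J`.  J = ⌈C log m⌉₊ (m ≥ 3, say, and C ≥ 1 w.l.o.g.); C * (2J)^5 * log m ≤ C * (2(C log m + 1))^5 * log m = o(m)
(`Real.isLittleO_pow_log_id_atTop` or `isLittleO_log_rpow_atTop`), and 2J/m → 0, 2J → ∞.
PROOF of `exp_small`.  a * m^3 * exp(-b x) with x ≥ C log m, b C ≥ 5: ≤ a m^3 m^{-5} = a / m^2 < 1/2 for m large.
-/

set_option autoImplicit false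

noncomputable section

open scoped Classical
open Finset

namespace Pool.Agent.HCD

theorem choose_J (C B : ℝ) : ∃ m0 : ℕ, ∀ m : ℕ, m0 ≤ m → ∃ J : ℕ, 1 ≤ J ∧ B ≤ J ∧
    C * Real.log m ≤ 2 * J ∧ C * (2 * J : ℝ) ^ 5 * Real.log m ≤ m := by
  obtain ⟨C', hC1, hCC⟩ : ∃ C' : ℝ, 1 ≤ C' ∧ C ≤ C' := ⟨max C 1, le_max_right _ _, le_max_left _ _⟩
  have hC0 : 0 < C' := by linarith
  have hlog : Filter.Tendsto (fun m : ℕ => Real.log (m : ℝ)) Filter.atTop Filter.atTop :=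
    Real.tendsto_log_atTop.comp tendsto_natCast_atTop_atTop
  have hc : 0 < 1 / (C' * (4 * C') ^ 5) := by positivity
  have h1 : ∀ᶠ x : ℝ in Filter.atTop, ‖Real.log x ^ 6‖ ≤ 1 / (C' * (4 * C') ^ 5) * ‖id x‖ :=
    (Real.isLittleO_pow_log_id_atTop (n := 6)).def hc
  have h2 : ∀ᶠ m : ℕ in Filter.atTop, ‖Real.log (m : ℝ) ^ 6‖ ≤ 1 / (C' * (4 * C') ^ 5) * ‖id (m : ℝ)‖ :=
    tendsto_natCast_atTop_atTop.eventually h1
  have h3 : ∀ᶠ m : ℕ in Filter.atTop, max B 1 ≤ Real.log (m : ℝ) := hlog.eventually_ge_atTop _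
  obtain ⟨m0, hm0⟩ := Filter.eventually_atTop.1 (h2.and h3)
  refine ⟨m0, fun m hm => ?_⟩
  obtain ⟨a1, a2⟩ := hm0 m hm
  set L := Real.log (m : ℝ) with hL
  have hB : B ≤ L := (le_max_left _ _).trans a2
  have hL1 : 1 ≤ L := (le_max_right _ _).trans a2
  have hCL : L ≤ C' * L := by nlinarith
  have c1 : C' * L ≤ (⌈C' * L⌉₊ : ℝ) := Nat.le_ceil _
  have c2 : (⌈C' * L⌉₊ : ℝ) < C' * L + 1 := Nat.ceil_lt_add_one (by linarith)
  refine ⟨⌈C' * L⌉₊, ?_, by linarith, ?_, ?_⟩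
  · have : (1 : ℝ) ≤ (⌈C' * L⌉₊ : ℝ) := by linarith
    exact_mod_cast this
  · have : C * L ≤ C' * L := mul_le_mul_of_nonneg_right hCC (by linarith)
    linarith
  · have b1 : (2 * (⌈C' * L⌉₊ : ℝ)) ≤ 4 * C' * L := by linarith
    have b2 : (2 * (⌈C' * L⌉₊ : ℝ)) ^ 5 ≤ (4 * C' * L) ^ 5 :=
      pow_le_pow_left₀ (by positivity) b1 5
    have b3 : C * (2 * (⌈C' * L⌉₊ : ℝ)) ^ 5 * L ≤ C' * (4 * C' * L) ^ 5 * L := by
      refine mul_le_mul_of_nonneg_right ?_ (by linarith)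
      refine (mul_le_mul_of_nonneg_right hCC (by positivity)).trans ?_
      exact mul_le_mul_of_nonneg_left b2 hC0.le
    refine b3.trans ?_
    have b4 : L ^ 6 ≤ 1 / (C' * (4 * C') ^ 5) * (m : ℝ) := by
      have e1 : ‖L ^ 6‖ = L ^ 6 := by
        rw [Real.norm_eq_abs, abs_of_nonneg (by positivity)]
      have e2 : ‖id (m : ℝ)‖ = m := by
        rw [id, Real.norm_eq_abs, abs_of_nonneg (by positivity)]
      rw [e1, e2] at a1
      exact a1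
    have b5 : C' * (4 * C' * L) ^ 5 * L = (C' * (4 * C') ^ 5) * L ^ 6 := by ring
    rw [b5]
    have b6 : (C' * (4 * C') ^ 5) * L ^ 6 ≤ (C' * (4 * C') ^ 5) * (1 / (C' * (4 * C') ^ 5) * (m : ℝ)) :=
      mul_le_mul_of_nonneg_left b4 (by positivity)
    refine b6.trans (le_of_eq ?_)
    have : C' * (4 * C') ^ 5 ≠ 0 := by positivity
    field_simp

theorem exp_small (a b : ℝ) (hb : 0 < b) : ∃ C : ℝ, 0 < C ∧ ∃ m0 : ℕ, ∀ m : ℕ, m0 ≤ m → ∀ x : ℝ,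
    C * Real.log m ≤ x → a * (m : ℝ) ^ 4 * Real.exp (-(b * x)) < 1 / 2 := by
  obtain ⟨n0, hn0⟩ := exists_nat_gt (2 * |a| + 1)
  refine ⟨5 / b, by positivity, n0, fun m hm x hx => ?_⟩
  have hmn : (n0 : ℝ) ≤ m := by exact_mod_cast hm
  have ha : 0 ≤ |a| := abs_nonneg a
  have hm1 : (1 : ℝ) ≤ m := by linarith
  have hm0 : (0 : ℝ) < m := by linarith
  have h1 : 5 * Real.log m ≤ b * x := by
    have h2 := mul_le_mul_of_nonneg_left hx hb.le
    have h3 : b * (5 / b * Real.log m) = 5 * Real.log m := by field_simp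
    rwa [h3] at h2
  have h2 : Real.exp (-(b * x)) ≤ ((m : ℝ) ^ 5)⁻¹ := by
    have h3 : Real.exp (-(b * x)) ≤ Real.exp (-(5 * Real.log m)) := Real.exp_le_exp.2 (by linarith)
    have h4 : Real.exp (-(5 * Real.log m)) = ((m : ℝ) ^ 5)⁻¹ := by
      rw [Real.exp_neg]
      congr 1
      have : (5 : ℝ) * Real.log m = ((5 : ℕ) : ℝ) * Real.log m := by norm_num
      rw [this, Real.exp_nat_mul, Real.exp_log hm0]
    rwa [h4] at h3
  calc a * (m : ℝ) ^ 4 * Real.exp (-(b * x)) ≤ |a| * (m : ℝ) ^ 4 * Real.exp (-(b * x)) := by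
        refine mul_le_mul_of_nonneg_right ?_ (Real.exp_pos _).le
        exact mul_le_mul_of_nonneg_right (le_abs_self a) (by positivity)
    _ ≤ |a| * (m : ℝ) ^ 4 * ((m : ℝ) ^ 5)⁻¹ := mul_le_mul_of_nonneg_left h2 (by positivity)
    _ = |a| / m := by field_simp
    _ < 1 / 2 := by
        rw [div_lt_div_iff₀ hm0 (by norm_num)]
        linarith

end Pool.Agent.HCD
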