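import Pool.Agent.Lib.HCD.G8
import Pool.Agent.Lib.HCD.G9a
import Pool.Agent.Lib.HCD.G9b
import Pool.Agent.Lib.HCD.T12

/-!
# G9: the general theorem GT in both modes

PROOF.  WLOG γ0 ≤ 1 (replace by min).  γ = α^2 γ0/2; κ from `core`; δ = η0 = min(κ/2, α^2 γ0/4, 1/4).  J from `choose_J` with C large enough for the
three numerical conditions (`exp_small` with b = 1/24·δ^2, x = m; b = δ^2/16, x = m/(2J)^4 ≥ C log m because C (2J)^5 log m ≤ m; b = δ^2/128, x = 2J)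
and B ≥ 1/κ; (2J) ≤ δ m for m large (from C (2J)^5 log m ≤ m).  Then `pd_gen` / `pd_bip` (with η = η0) and `core`.
Mode: general: left alternative; bipartite: right alternative (H ≤ G).
-/

set_option autoImplicit false

noncomputable section

open scoped Classical
open Finset

namespace Pool.Agent.HCD

/-- all numerical conditions for large `m` -/
theorem params (δ κ : ℝ) (hδ : 0 < δ) (hκ : 0 < κ) : ∃ m0 : ℕ, ∀ m : ℕ, m0 ≤ m → ∃ J : ℕ,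
    1 ≤ J ∧ (2 * J : ℝ) ≤ δ * m ∧ 1 ≤ κ * ((2 * J : ℕ) : ℝ) ∧ 1 ≤ κ * m ∧
    3 * (m : ℝ) ^ 2 * Real.exp (-(δ ^ 2 * m / 24)) < 1 / 2 ∧
    6 * (m : ℝ) ^ 4 * Real.exp (-(δ ^ 2 * m / (16 * (2 * J : ℝ) ^ 4))) < 1 / 2 ∧
    4 * (m : ℝ) ^ 3 * Real.exp (-(δ ^ 2 * ((2 * J : ℕ) : ℝ) / 128)) < 1 / 2 := by
  obtain ⟨C1, hC1, m1, h1⟩ := exp_small 3 (δ ^ 2 / 24) (by positivity)
  obtain ⟨C2, hC2, m2, h2⟩ := exp_small 6 (δ ^ 2 / 16) (by positivity)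
  obtain ⟨C3, hC3, m3, h3⟩ := exp_small 4 (δ ^ 2 / 128) (by positivity)
  set C : ℝ := C1 + C2 + C3 + 1 / δ + 1 with hC
  have hδi : 0 < 1 / δ := by positivity
  have hC0 : 0 < C := by positivity
  obtain ⟨m4, h4⟩ := choose_J C (1 / κ)
  refine ⟨max (max m1 m2) (max (max m3 m4) (max 3 ⌈1 / κ⌉₊)), ?_⟩
  intro m hm
  have hm1 : m1 ≤ m := le_trans (le_trans (le_max_left _ _) (le_max_left _ _)) hm
  have hm2 : m2 ≤ m := le_trans (le_trans (le_max_right _ _) (le_max_left _ _)) hm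
  have hm3 : m3 ≤ m :=
    le_trans (le_trans (le_trans (le_max_left _ _) (le_max_left _ _)) (le_max_right _ _)) hm
  have hm4 : m4 ≤ m :=
    le_trans (le_trans (le_trans (le_max_right _ _) (le_max_left _ _)) (le_max_right _ _)) hm
  have hm5 : 3 ≤ m :=
    le_trans (le_trans (le_trans (le_max_left _ _) (le_max_right _ _)) (le_max_right _ _)) hm
  have hm6 : ⌈1 / κ⌉₊ ≤ m :=
    le_trans (le_trans (le_trans (le_max_right _ _) (le_max_right _ _)) (le_max_right _ _)) hm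
  obtain ⟨J, hJ1, hJB, hJ2, hJ3⟩ := h4 m hm4
  have hmr : (3 : ℝ) ≤ m := by exact_mod_cast hm5
  have hlog : 1 ≤ Real.log m := by
    rw [Real.le_log_iff_exp_le (by linarith)]
    have := Real.exp_one_lt_d9
    linarith
  have hJr : (1 : ℝ) ≤ J := by exact_mod_cast hJ1
  have h2J : (1 : ℝ) ≤ 2 * J := by linarith
  have hp4 : (1 : ℝ) ≤ (2 * J : ℝ) ^ 4 := one_le_pow₀ h2J
  have hp5 : (2 * J : ℝ) ≤ (2 * J : ℝ) ^ 5 := by
    calc (2 * J : ℝ) = (2 * J) * 1 := by ring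
      _ ≤ (2 * J) * (2 * J : ℝ) ^ 4 := by gcongr
      _ = (2 * J : ℝ) ^ 5 := by ring
  have hCl : C * Real.log m ≤ m := by
    calc C * Real.log m = C * 1 * Real.log m := by ring
      _ ≤ C * (2 * J : ℝ) ^ 5 * Real.log m := by
        have : (1 : ℝ) ≤ (2 * J : ℝ) ^ 5 := le_trans h2J hp5
        gcongr
      _ ≤ m := hJ3
  refine ⟨J, hJ1, ?_, ?_, ?_, ?_, ?_, ?_⟩
  · have h5 : 1 / δ * (2 * J : ℝ) ≤ m := by
      calc 1 / δ * (2 * J : ℝ) = 1 / δ * (2 * J : ℝ) * 1 := by ring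
        _ ≤ C * (2 * J : ℝ) ^ 5 * Real.log m := by
          have : 1 / δ ≤ C := by rw [hC]; linarith
          gcongr
        _ ≤ m := hJ3
    have h6 : (2 * J : ℝ) = δ * (1 / δ * (2 * J : ℝ)) := by field_simp
    rw [h6]
    gcongr
  · have h5 : κ * (1 / κ) = 1 := by field_simp
    push_cast
    calc (1 : ℝ) = κ * (1 / κ) := h5.symm
      _ ≤ κ * J := by gcongr
      _ ≤ κ * (2 * J) := by gcongr; linarith
  · have h5 : κ * (1 / κ) = 1 := by field_simp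
    calc (1 : ℝ) = κ * (1 / κ) := h5.symm
      _ ≤ κ * m := by
        gcongr
        exact le_trans (Nat.le_ceil _) (by exact_mod_cast hm6)
  · have h5 := h1 m hm1 m (le_trans (by gcongr; rw [hC]; linarith) hCl)
    refine lt_of_le_of_lt ?_ h5
    have h6 : -(δ ^ 2 * (m : ℝ) / 24) = -(δ ^ 2 / 24 * m) := by ring
    rw [h6]
    have h7 : (m : ℝ) ^ 2 ≤ (m : ℝ) ^ 4 := pow_le_pow_right₀ (by linarith) (by norm_num)
    gcongr
  · have h8 : C2 * Real.log m ≤ (m : ℝ) / (2 * J : ℝ) ^ 4 := by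
      rw [le_div_iff₀ (by positivity)]
      calc C2 * Real.log m * (2 * J : ℝ) ^ 4 ≤ C * Real.log m * (2 * J : ℝ) ^ 5 := by
            have h9 : (2 * J : ℝ) ^ 4 ≤ (2 * J : ℝ) ^ 5 := pow_le_pow_right₀ h2J (by norm_num)
            have h10 : C2 ≤ C := by rw [hC]; linarith
            gcongr
        _ = C * (2 * J : ℝ) ^ 5 * Real.log m := by ring
        _ ≤ m := hJ3
    have h5 := h2 m hm2 _ h8
    refine lt_of_le_of_lt (le_of_eq ?_) h5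
    congr 2
    ring
  · have h8 : C3 * Real.log m ≤ ((2 * J : ℕ) : ℝ) := by
      push_cast
      refine le_trans ?_ hJ2
      have h10 : C3 ≤ C := by rw [hC]; linarith
      gcongr
    have h5 := h3 m hm3 _ h8
    refine lt_of_le_of_lt ?_ h5
    have h6 : -(δ ^ 2 * ((2 * J : ℕ) : ℝ) / 128) = -(δ ^ 2 / 128 * ((2 * J : ℕ) : ℝ)) := by ring
    rw [h6]
    have h7 : (m : ℝ) ^ 3 ≤ (m : ℝ) ^ 4 := pow_le_pow_right₀ (by linarith) (by norm_num)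
    gcongr

theorem GT_gen (α γ0 : ℝ) (hα : 0 < α) (hα' : α ≤ 1 / 8) (hγ0 : 0 < γ0) :
    ∃ η0 : ℝ, 0 < η0 ∧ ∃ m0 : ℕ, ∀ (V : Type) [Fintype V] (G : SimpleGraph V) (y : V → V → ℝ)
      (D : ℝ) (N : ℕ) (virt : Fin N → Finset (V × V)), m0 ≤ Fintype.card V → WG G y →
      (∀ u v, y u v ≤ 1 - 2 * α) → (Fintype.card V : ℝ) ≤ 10 * D → D ≤ Fintype.card V →
      (∀ v, (1 - η0) * D ≤ ∑ u, y v u ∧ ∑ u, y v u ≤ D) → (2 * N : ℝ) ≤ D →
      (∀ i, IsMat (virt i)) → (∀ i, ((vs (virt i)).card : ℝ) ≤ η0 * Fintype.card V) →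
      (∀ w, ((univ.filter (fun i => w ∈ vs (virt i))).card : ℝ) ≤ η0 * Fintype.card V) →
      (∀ x z, x ≠ z → γ0 * (Fintype.card V : ℝ) ^ 2 ≤ esum G y x z) →
      HasCyc G virt := by
  set g : ℝ := min γ0 1 with hg
  have hg0 : 0 < g := lt_min hγ0 one_pos
  have hg1 : g ≤ 1 := min_le_right _ _
  have hγ : 0 < α ^ 2 * g / 2 := by positivity
  have hγ1 : α ^ 2 * g / 2 ≤ 1 := by nlinarith
  obtain ⟨κ, hκ, hcore⟩ := core (α ^ 2 * g / 2) hγ hγ1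
  set δ : ℝ := min (κ / 2) (min (α ^ 2 * g / 4) (1 / 4)) with hδ
  have hδ0 : 0 < δ := lt_min (by positivity) (lt_min (by positivity) (by norm_num))
  have hδκ : δ ≤ κ / 2 := min_le_left _ _
  have hδ2 : δ ≤ α ^ 2 * g / 4 := le_trans (min_le_right _ _) (min_le_left _ _)
  have hδ3 : δ ≤ 1 / 4 := le_trans (min_le_right _ _) (min_le_right _ _)
  obtain ⟨m0, hm0⟩ := params δ κ hδ0 hκ
  refine ⟨δ, hδ0, m0, ?_⟩
  intro V _ G y D N virt hm hy hy1 hD1 hD2 hdeg hN hv hv1 hv2 hE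
  obtain ⟨J, hJ1, hJm, hJκ, hmκ, hn1, hn2, hn3⟩ := hm0 (Fintype.card V) hm
  obtain ⟨pt, U, Δ, H, R1, R2, hHG, hR1G, hR2G, hd1, hd2, hd3, hPD⟩ :=
    pd_gen G y hy α g δ δ D hα hα' hg0 hδ0 hδ0.le (by linarith) hδ3 hy1 N J hJ1 hJm hD1 hD2 hdeg
      hN virt hv hv1 hv2 (fun x z hxz => le_trans (by
        have := min_le_left γ0 1
        gcongr) (hE x z hxz)) hn1 hn2
  have hN2 : 2 * N ≤ Fintype.card V := by
    have : (2 * N : ℝ) ≤ (Fintype.card V : ℝ) := le_trans hN hD2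
    exact_mod_cast this
  exact hcore V (Fin (2 * J)) N J pt U (2 * J) (2 * J) Δ G H R1 R2 _ virt δ δ hPD hδ0.le hδ0
    (by linarith) hJκ hmκ hN2 hn3 (Or.inl fun x z h => h) hHG hR1G hR2G hd1 hd2 hd3

theorem GT_bip (α γ0 : ℝ) (hα : 0 < α) (hα' : α ≤ 1 / 8) (hγ0 : 0 < γ0) :
    ∃ η0 : ℝ, 0 < η0 ∧ ∃ m0 : ℕ, ∀ (V : Type) [Fintype V] (G : SimpleGraph V) (y : V → V → ℝ)
      (ty : V → Bool) (D : ℝ) (N : ℕ) (virt : Fin N → Finset (V × V)), m0 ≤ Fintype.card V →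
      WG G y → (∀ u v, G.Adj u v → ty u ≠ ty v) →
      (∀ u v, y u v ≤ 1 - 2 * α) → (Fintype.card V : ℝ) ≤ 10 * D → D ≤ Fintype.card V →
      (∀ v, (1 - η0) * D ≤ ∑ u, y v u ∧ ∑ u, y v u ≤ D) → (2 * N : ℝ) ≤ D →
      (∀ i, IsMat (virt i)) → (∀ i, Bal ty univ (virt i)) →
      (∀ i, ((vs (virt i)).card : ℝ) ≤ η0 * Fintype.card V) →
      (∀ w, ((univ.filter (fun i => w ∈ vs (virt i))).card : ℝ) ≤ η0 * Fintype.card V) →
      (∀ x z, ty x ≠ ty z → γ0 * (Fintype.card V : ℝ) ^ 2 ≤ esum G y x z) →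
      HasCyc G virt := by
  set g : ℝ := min γ0 1 with hg
  have hg0 : 0 < g := lt_min hγ0 one_pos
  have hg1 : g ≤ 1 := min_le_right _ _
  have hγ : 0 < α ^ 2 * g / 2 := by positivity
  have hγ1 : α ^ 2 * g / 2 ≤ 1 := by nlinarith
  obtain ⟨κ, hκ, hcore⟩ := core (α ^ 2 * g / 2) hγ hγ1
  set δ : ℝ := min (κ / 2) (min (α ^ 2 * g / 4) (1 / 4)) with hδ
  have hδ0 : 0 < δ := lt_min (by positivity) (lt_min (by positivity) (by norm_num))
  have hδκ : δ ≤ κ / 2 := min_le_left _ _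
  have hδ2 : δ ≤ α ^ 2 * g / 4 := le_trans (min_le_right _ _) (min_le_left _ _)
  have hδ3 : δ ≤ 1 / 4 := le_trans (min_le_right _ _) (min_le_right _ _)
  obtain ⟨m0, hm0⟩ := params δ κ hδ0 hκ
  refine ⟨δ, hδ0, m0, ?_⟩
  intro V _ G y ty D N virt hm hy hty hy1 hD1 hD2 hdeg hN hv hbal hv1 hv2 hE
  obtain ⟨J, hJ1, hJm, hJκ, hmκ, hn1, hn2, hn3⟩ := hm0 (Fintype.card V) hm
  obtain ⟨pt, U, Δ, H, R1, R2, hHG, hR1G, hR2G, hd1, hd2, hd3, hPD⟩ :=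
    pd_bip G y hy ty hty α g δ δ D hα hα' hg0 hδ0 hδ0.le (by linarith) hδ3 hy1 N J hJ1 hJm hD1
      hD2 hdeg hN virt hv hv1 hv2 (fun x z hxz => le_trans (by
        have := min_le_left γ0 1
        gcongr) (hE x z hxz)) hn1 hn2
  have hN2 : 2 * N ≤ Fintype.card V := by
    have : (2 * N : ℝ) ≤ (Fintype.card V : ℝ) := le_trans hN hD2
    exact_mod_cast this
  exact hcore V (Bool × Fin (2 * J)) N J pt U (2 * (2 * J)) (2 * J) Δ G H R1 R2 _ virt δ δ hPD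
    hδ0.le hδ0 (by linarith) hJκ hmκ hN2 hn3
    (Or.inr ⟨ty, fun x z h => h, fun u v h => hty u v (hHG h), hbal⟩)
    hHG hR1G hR2G hd1 hd2 hd3

end Pool.Agent.HCD
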