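import Pool.Agent.Lib.HCD.Defs
import Pool.Agent.Lib.DHC.T4

/-!
# T4: fractional factors with lower bounds (Hoffman's condition)

PROOF.  K = {f : V → V → ℝ | ∀ u v, (if G.Adj u v then l else 0) ≤ f u v ≤ (if G.Adj u v then 1 else 0)} is compact and nonempty;
Φ(f) = ∑_u (row_u - D)^2 + ∑_v (col_v - D)^2 is continuous, so it has a minimiser f on K (`IsCompact.exists_isMinOn`).  Put
φ u = D - row_u, ψ v = D - col_v.  For adjacent (u,v): φ u + ψ v > 0 → f u v = 1 (otherwise increase f u v by a small ε: Φ changes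
by -2ε(φ u + ψ v) + 2ε^2 < 0), φ u + ψ v < 0 → f u v = l.  Let S = {φ > 0}, T = {ψ < 0}.  For u ∈ S, v ∉ T adjacent f = 1; for
u ∉ S, v ∈ T adjacent: φ u ≤ 0, ψ v < 0 so f = l.  So ∑_{u ∈ S} row_u - ∑_{v ∈ T} col_v = e(S, Tᶜ) - l e(Sᶜ, T) ≥ D(|S| - |T|), i.e.
∑_S φ ≤ ∑_T ψ; the left side is ≥ 0 and the right side ≤ 0, so S = T = ∅: φ ≤ 0 ≤ ψ.  But ∑ φ = D n - ∑ f = ∑ ψ, so φ = ψ = 0.
Put y u v = (f u v + f v u)/2.
-/

set_option autoImplicit false

noncomputable section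

open scoped Classical
open Finset

namespace Pool.Agent.HCD

theorem weights_exist {V : Type} [Fintype V] (G : SimpleGraph V) (l D : ℝ) (hl0 : 0 ≤ l)
    (hl1 : l ≤ 1)
    (h : ∀ S T : Finset V, D * ((S.card : ℝ) - T.card) ≤ (eo G S (univ \ T) : ℝ) -
      l * eo G (univ \ S) T) :
    ∃ y : V → V → ℝ, WG G y ∧ (∀ u v, G.Adj u v → l ≤ y u v) ∧ (∀ u v, y u v ≤ 1) ∧
      ∀ v, ∑ u, y v u = D := by
  obtain ⟨y, h1, h2, h3, h4⟩ := Pool.Agent.Lib.DHC.weights G.Adj (fun _ _ h => h.symm) l D hl1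
    (by
      intro S T
      refine (h S T).trans (le_of_eq ?_)
      have e1 : eo G S (univ \ T) = ((univ : Finset (V × V)).filter
          fun p => p.1 ∈ S ∧ p.2 ∉ T ∧ G.Adj p.1 p.2).card := by
        unfold eo
        congr 1
        ext p
        simp [and_assoc]
      have e2 : eo G (univ \ S) T = ((univ : Finset (V × V)).filter
          fun p => p.1 ∉ S ∧ p.2 ∈ T ∧ G.Adj p.1 p.2).card := by
        unfold eo
        congr 1
        ext p
        simp [and_assoc]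
      rw [e1, e2])
  refine ⟨y, ⟨h1, ?_, h3⟩, fun u v huv => (h2 u v huv).1, ?_, h4⟩
  · intro u v
    by_cases huv : G.Adj u v
    · exact hl0.trans (h2 u v huv).1
    · exact (h3 u v huv).ge
  · intro u v
    by_cases huv : G.Adj u v
    · exact (h2 u v huv).2
    · rw [h3 u v huv]; exact zero_le_one

end Pool.Agent.HCD
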