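import Pool.Agent.Lib.HCD.A2
import Pool.Agent.Lib.HCD.T4
import Pool.Agent.Lib.HCD.G9

/-!
# A3: case A

PROOF (section 4).  e = ε/8, c0 from `hoffman_nonext`; z from `weights_exist` (l = c0, D = (1-e) r); α = ε/16; y = (1-2α) z; D' = (1-2α)(1-e) r.
`GT_gen` with α, γ0 = c0 γ/4 and virt = fun _ => ∅ (IsMat ∅; HasCyc then gives Pack: cp pairs are in E i ⊂ edges, E i disjoint).
r ≤ n (the degree sum is at most n), so D' ≤ n; n ≤ 4r gives n ≤ 10 D'; 2N ≤ (1-ε) r + 2 ≤ D' for n large ((1-ε/8)^2 ≥ 1 - ε/2).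
(E): for x ≠ z: N(x), N(z) have ≥ n/2 elements, so e(N(x),N(z)) ≥ γ n^2; remove the pairs with q = z or q' = x (at most 2n); y ≥ (1-2α) c0 ≥ c0/2 on edges:
esum ≥ (c0/2)(γ n^2 - 2n) ≥ (c0 γ/4) n^2 for n ≥ 4/γ.
-/

set_option autoImplicit false

noncomputable section

open scoped Classical
open Finset

namespace Pool.Agent.HCD

private theorem a3_esum {V : Type} [Fintype V] (G : SimpleGraph V) (y : V → V → ℝ) (x z : V)
    (c : ℝ) (hy : WG G y) (hc : ∀ u v, G.Adj u v → c ≤ y u v) :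
    (((univ : Finset (V × V)).filter (fun p => G.Adj x p.1 ∧ G.Adj z p.2 ∧ p.1 ≠ z ∧ p.2 ≠ x ∧
      G.Adj p.1 p.2)).card : ℝ) * c ≤ esum G y x z := by
  unfold esum
  rw [← Fintype.sum_prod_type' (fun q q' => if G.Adj x q ∧ G.Adj z q' ∧ q ≠ z ∧ q' ≠ x then
    y q q' else 0)]
  have h1 : ∑ p ∈ (univ : Finset (V × V)).filter (fun p => G.Adj x p.1 ∧ G.Adj z p.2 ∧
      p.1 ≠ z ∧ p.2 ≠ x ∧ G.Adj p.1 p.2), (if G.Adj x p.1 ∧ G.Adj z p.2 ∧ p.1 ≠ z ∧ p.2 ≠ x then
      y p.1 p.2 else 0) ≤ ∑ p : V × V, (if G.Adj x p.1 ∧ G.Adj z p.2 ∧ p.1 ≠ z ∧ p.2 ≠ x then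
      y p.1 p.2 else 0) := by
    refine Finset.sum_le_sum_of_subset_of_nonneg (Finset.filter_subset _ _) ?_
    intro p _ _
    split_ifs
    · exact hy.nonneg _ _
    · exact le_rfl
  refine le_trans ?_ h1
  rw [← nsmul_eq_mul]
  refine Finset.card_nsmul_le_sum _ _ _ ?_
  intro p hp
  have hp' := (Finset.mem_filter.1 hp).2
  rw [if_pos ⟨hp'.1, hp'.2.1, hp'.2.2.1, hp'.2.2.2.1⟩]
  exact hc _ _ hp'.2.2.2.2

private theorem a3_count {V : Type} [Fintype V] (G : SimpleGraph V) (x z : V) :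
    eo G (univ.filter (fun u => G.Adj x u)) (univ.filter (fun u => G.Adj z u)) ≤
    ((univ : Finset (V × V)).filter (fun p => G.Adj x p.1 ∧ G.Adj z p.2 ∧ p.1 ≠ z ∧ p.2 ≠ x ∧
      G.Adj p.1 p.2)).card + (Fintype.card V + Fintype.card V) := by
  unfold eo
  have hsub : ((univ.filter (fun u => G.Adj x u)) ×ˢ (univ.filter (fun u => G.Adj z u))).filter
      (fun p : V × V => G.Adj p.1 p.2) ⊆
      ((univ : Finset (V × V)).filter (fun p => G.Adj x p.1 ∧ G.Adj z p.2 ∧ p.1 ≠ z ∧ p.2 ≠ x ∧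
      G.Adj p.1 p.2)) ∪ ((({z} : Finset V) ×ˢ univ) ∪ (univ ×ˢ ({x} : Finset V))) := by
    intro p hp
    rw [Finset.mem_filter, Finset.mem_product, Finset.mem_filter, Finset.mem_filter] at hp
    obtain ⟨⟨⟨_, h1⟩, ⟨_, h2⟩⟩, h3⟩ := hp
    rw [Finset.mem_union, Finset.mem_union, Finset.mem_product, Finset.mem_product,
      Finset.mem_filter, Finset.mem_singleton, Finset.mem_singleton]
    by_cases h4 : p.1 = z
    · exact Or.inr (Or.inl ⟨h4, Finset.mem_univ _⟩)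
    · by_cases h5 : p.2 = x
      · exact Or.inr (Or.inr ⟨Finset.mem_univ _, h5⟩)
      · exact Or.inl ⟨Finset.mem_univ _, h1, h2, h4, h5, h3⟩
  refine (Finset.card_le_card hsub).trans ((Finset.card_union_le _ _).trans ?_)
  refine Nat.add_le_add_left ((Finset.card_union_le _ _).trans ?_) _
  rw [Finset.card_product, Finset.card_product, Finset.card_singleton, Finset.card_singleton,
    Finset.card_univ, one_mul, mul_one]

private theorem a3_pack {V : Type} [Fintype V] (G : SimpleGraph V) (N : ℕ)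
    (h : HasCyc G (fun _ : Fin N => (∅ : Finset (V × V)))) : Pack G N := by
  obtain ⟨l, E, h1, h2, h3, h4, _⟩ := h
  have h5 : ∀ i, ∀ p ∈ cp (l i), s(p.1, p.2) ∈ E i := by
    intro i p hp
    rcases h4 i p hp with h | h | h
    · exact h
    · exact absurd h (Finset.notMem_empty _)
    · exact absurd h (Finset.notMem_empty _)
  refine ⟨l, h1, fun i p hp => ?_, fun i j hij p hp q hq he => ?_⟩
  · exact (SimpleGraph.mem_edgeSet G).1 (h2 i _ (h5 i p hp))
  · have h6 := h5 i p hp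
    have h7 := h5 j q hq
    rw [he] at h6
    exact Set.disjoint_left.1 (h3 i j hij) h6 h7

theorem caseA (ε γ : ℝ) (hε : 0 < ε) (hε1 : ε ≤ 1 / 4) (hγ : 0 < γ) (hγ1 : γ ≤ 1 / 2) :
    ∃ n0 : ℕ, ∀ (V : Type) [Fintype V] (G : SimpleGraph V) (x : V → V → ℝ) (r : ℝ) (N : ℕ),
      n0 ≤ Fintype.card V → Dirac G → FF G x r → (Fintype.card V : ℝ) ≤ 4 * r → NonExt G γ →
      (2 * N : ℝ) ≤ (1 - ε) * r + 2 → Pack G N := by
  obtain ⟨c0, hc0, hc01, hH⟩ := hoffman_nonext (ε / 8) γ (by positivity) (by linarith) hγ hγ1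
  obtain ⟨η0, hη0, m0, hGT⟩ := GT_gen (ε / 16) (c0 * γ / 4) (by positivity) (by linarith)
    (by positivity)
  refine ⟨m0 + 1 + ⌈16 / ε⌉₊ + ⌈4 / γ⌉₊, ?_⟩
  intro V _ G x r N hn hD hFF hr hNE hN
  have hn1 : 1 ≤ Fintype.card V := by omega
  have hnR : (0 : ℝ) < Fintype.card V := by exact_mod_cast hn1
  have hnε : 16 ≤ ε * Fintype.card V := by
    have h1 : ⌈16 / ε⌉₊ ≤ Fintype.card V := by omega
    have h2 : 16 / ε ≤ Fintype.card V := (Nat.ceil_le.1 h1)
    rw [div_le_iff₀ hε] at h2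
    linarith
  have hnγ : 4 ≤ γ * Fintype.card V := by
    have h1 : ⌈4 / γ⌉₊ ≤ Fintype.card V := by omega
    have h2 : 4 / γ ≤ Fintype.card V := (Nat.ceil_le.1 h1)
    rw [div_le_iff₀ hγ] at h2
    linarith
  have hr0 : 0 < r := by linarith
  obtain ⟨v0⟩ : Nonempty V := Fintype.card_pos_iff.1 hn1
  have hrn : r ≤ Fintype.card V := by
    rw [← hFF.2.2 v0]
    calc ∑ u, x v0 u ≤ ∑ _u : V, (1 : ℝ) := Finset.sum_le_sum fun u _ => hFF.2.1 v0 u
      _ = Fintype.card V := by simp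
  obtain ⟨z, hz1, hz2, hz3, hz4⟩ := weights_exist G c0 ((1 - ε / 8) * r) hc0.le hc01
    (hH V G x r hD hFF hr hNE)
  have hf1 : 0 ≤ 1 - 2 * (ε / 16) := by linarith
  have hfh : 1 / 2 ≤ 1 - 2 * (ε / 16) := by linarith
  have hDeq : (1 - 2 * (ε / 16)) * ((1 - ε / 8) * r) = (1 - ε / 8) ^ 2 * r := by ring
  have hq1 : 1 - ε / 4 ≤ (1 - ε / 8) ^ 2 := by nlinarith
  have hq2 : (1 - ε / 8) ^ 2 ≤ 1 := by nlinarith
  have hDpos : 0 < (1 - 2 * (ε / 16)) * ((1 - ε / 8) * r) := by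
    rw [hDeq]
    have : 0 < (1 - ε / 8) ^ 2 := by nlinarith
    positivity
  have hsum : ∀ v, ∑ u, (1 - 2 * (ε / 16)) * z v u =
      (1 - 2 * (ε / 16)) * ((1 - ε / 8) * r) := fun v => by
    rw [← Finset.mul_sum, hz4]
  have hvs : vs (∅ : Finset (V × V)) = ∅ := by
    unfold vs
    rw [Finset.image_empty, Finset.image_empty, Finset.empty_union]
  have hWG : WG G (fun u v => (1 - 2 * (ε / 16)) * z u v) := by
    constructor
    · intro u v
      show (1 - 2 * (ε / 16)) * z u v = (1 - 2 * (ε / 16)) * z v u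
      rw [hz1.symm]
    · intro u v
      exact mul_nonneg hf1 (hz1.nonneg u v)
    · intro u v h
      show (1 - 2 * (ε / 16)) * z u v = 0
      rw [hz1.zero u v h, mul_zero]
  refine a3_pack G N (hGT V G (fun u v => (1 - 2 * (ε / 16)) * z u v)
    ((1 - 2 * (ε / 16)) * ((1 - ε / 8) * r)) N (fun _ => ∅) (by omega) hWG ?_ ?_ ?_ ?_ ?_ ?_ ?_
    ?_ ?_)
  · intro u v
    show (1 - 2 * (ε / 16)) * z u v ≤ 1 - 2 * (ε / 16)
    have := hz3 u v
    nlinarith
  · rw [hDeq]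
    nlinarith
  · rw [hDeq]
    nlinarith
  · intro v
    show (1 - η0) * ((1 - 2 * (ε / 16)) * ((1 - ε / 8) * r)) ≤
      ∑ u, (1 - 2 * (ε / 16)) * z v u ∧ ∑ u, (1 - 2 * (ε / 16)) * z v u ≤ _
    rw [hsum v]
    exact ⟨by nlinarith, le_rfl⟩
  · rw [hDeq]
    nlinarith
  · intro i
    constructor
    · intro p hp
      exact absurd hp (Finset.notMem_empty _)
    · intro p hp
      exact absurd hp (Finset.notMem_empty _)
    · intro p hp
      exact absurd hp (Finset.notMem_empty _)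
    · intro p hp
      exact absurd hp (Finset.notMem_empty _)
  · intro i
    show ((vs (∅ : Finset (V × V))).card : ℝ) ≤ _
    rw [hvs, Finset.card_empty, Nat.cast_zero]
    positivity
  · intro w
    have h0 : (univ.filter (fun _i : Fin N => w ∈ vs (∅ : Finset (V × V)))).card = 0 := by
      rw [Finset.card_eq_zero, Finset.filter_eq_empty_iff]
      intro i _
      rw [hvs]
      exact Finset.notMem_empty _
    show ((univ.filter (fun _i : Fin N => w ∈ vs (∅ : Finset (V × V)))).card : ℝ) ≤ _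
    rw [h0, Nat.cast_zero]
    positivity
  · intro a b _
    have hdeg : ∀ v, (1 / 2 - γ) * Fintype.card V ≤
        ((univ.filter (fun u => G.Adj v u)).card : ℝ) := by
      intro v
      have h1 := hD v
      unfold dg at h1
      have h2 : (Fintype.card V : ℝ) ≤ 2 * ((univ.filter (fun u => G.Adj v u)).card : ℝ) := by
        exact_mod_cast h1
      nlinarith
    have h1 := hNE _ _ (hdeg a) (hdeg b)
    have h2 : (eo G (univ.filter (fun u => G.Adj a u)) (univ.filter (fun u => G.Adj b u)) : ℝ) ≤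
        (((univ : Finset (V × V)).filter (fun p => G.Adj a p.1 ∧ G.Adj b p.2 ∧ p.1 ≠ b ∧
          p.2 ≠ a ∧ G.Adj p.1 p.2)).card : ℝ) + (Fintype.card V + Fintype.card V) := by
      exact_mod_cast a3_count G a b
    have h3 := a3_esum G (fun u v => (1 - 2 * (ε / 16)) * z u v) a b (c0 / 2) hWG (by
      intro u v huv
      show c0 / 2 ≤ (1 - 2 * (ε / 16)) * z u v
      have := hz2 u v huv
      nlinarith)
    refine le_trans ?_ h3
    have h4 : γ * (Fintype.card V : ℝ) ^ 2 / 2 ≤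
        (((univ : Finset (V × V)).filter (fun p => G.Adj a p.1 ∧ G.Adj b p.2 ∧ p.1 ≠ b ∧
          p.2 ≠ a ∧ G.Adj p.1 p.2)).card : ℝ) := by
      have h5 : 4 * (Fintype.card V : ℝ) ≤ γ * (Fintype.card V : ℝ) ^ 2 := by nlinarith
      linarith
    nlinarith

end Pool.Agent.HCD
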