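import Pool.Agent.Lib.HCD.T4

/-!
# A4: every Dirac graph has a fractional n/4-factor

PROOF (section 7).  `weights_exist` with l = 0, D = n/4: need (n/4)(sig - tau) ≤ e(S,Tc) for sig = |S| > tau = |T| (otherwise trivial).  Facts:
(F1) e(S,Tc) ≥ sig (n/2 - tau) (each u ∈ S has at least n/2 neighbours, at most tau in T);
(F2) e(S,Tc) ≥ (n - tau)(sig - n/2) (each v ∉ T has at least n/2 - (n - sig) neighbours in S).
 sig ≤ n/2, tau ≤ n/4: F1 ≥ sig n/4.  sig ≤ n/2, tau > n/4: sig > n/4 and n/2 - tau ≥ sig - tau ≥ 0: F1.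
 sig > n/2, tau ≤ n/2: F1 + F2: 2e ≥ sig(n/2-tau) + (n-tau)(sig-n/2) ≥ (n/2)(n/2-tau) + (n/2)(sig-n/2) = (n/2)(sig-tau).
 tau > n/2, n - tau ≥ n/4: F2 and sig - n/2 ≥ sig - tau.  tau > n/2, n - tau < n/4: sig - n/2 > n/4 and n - tau ≥ sig - tau: F2.
-/

set_option autoImplicit false

noncomputable section

open scoped Classical
open Finset

namespace Pool.Agent.HCD

private theorem A4_sum1 {V : Type} [Fintype V] (G : SimpleGraph V) (X Y : Finset V) :
    eo G X Y = ∑ u ∈ X, dg G u Y := by
  unfold eo dg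
  rw [Finset.card_filter, Finset.sum_product]
  refine Finset.sum_congr rfl (fun u _ => ?_)
  rw [Finset.card_filter]

private theorem A4_sum2 {V : Type} [Fintype V] (G : SimpleGraph V) (X Y : Finset V) :
    eo G X Y = ∑ v ∈ Y, dg G v X := by
  unfold eo dg
  rw [Finset.card_filter, Finset.sum_product_right]
  refine Finset.sum_congr rfl (fun v _ => ?_)
  rw [Finset.card_filter]
  refine Finset.sum_congr rfl (fun u _ => ?_)
  simp only [G.adj_comm]

private theorem A4_dg {V : Type} [Fintype V] (G : SimpleGraph V) (h : Dirac G) (v : V)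
    (X : Finset V) : (Fintype.card V : ℝ) / 2 - ((univ \ X : Finset V).card : ℝ) ≤ dg G v X := by
  have h1 := h v
  have h2 : dg G v univ ≤ dg G v X + (univ \ X : Finset V).card := by
    unfold dg
    have : (univ : Finset V).filter (fun u => G.Adj v u) ⊆
        X.filter (fun u => G.Adj v u) ∪ (univ \ X) := by
      intro u hu
      rw [Finset.mem_filter] at hu
      rw [Finset.mem_union, Finset.mem_filter, Finset.mem_sdiff]
      by_cases hx : u ∈ X
      · exact Or.inl ⟨hx, hu.2⟩
      · exact Or.inr ⟨Finset.mem_univ _, hx⟩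
    exact (Finset.card_le_card this).trans (Finset.card_union_le _ _)
  have h3 : (Fintype.card V : ℝ) ≤ 2 * (dg G v univ : ℝ) := by exact_mod_cast h1
  have h4 : (dg G v univ : ℝ) ≤ dg G v X + ((univ \ X : Finset V).card : ℝ) := by
    exact_mod_cast h2
  linarith

private theorem A4_ineq {n σ τ e : ℝ} (hσ0 : 0 ≤ σ) (hσ : σ ≤ n) (hτ0 : 0 ≤ τ)
    (he : 0 ≤ e) (F1 : σ * (n / 2 - τ) ≤ e) (F2 : (n - τ) * (σ - n / 2) ≤ e) :
    n / 4 * (σ - τ) ≤ e := by
  rcases le_or_gt σ τ with h | h
  · nlinarith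
  rcases le_or_gt σ (n / 2) with h1 | h1
  · rcases le_or_gt τ (n / 4) with h2 | h2
    · nlinarith
    · nlinarith
  · rcases le_or_gt τ (n / 2) with h2 | h2
    · nlinarith [mul_nonneg (sub_nonneg.2 h1.le) (sub_nonneg.2 h2)]
    · rcases le_or_gt (n / 4) (n - τ) with h3 | h3
      · nlinarith
      · nlinarith

theorem quarter_factor {V : Type} [Fintype V] (G : SimpleGraph V) (h : Dirac G) :
    ∃ x : V → V → ℝ, FF G x (Fintype.card V / 4) := by
  obtain ⟨y, h1, -, h2, h3⟩ := weights_exist G 0 ((Fintype.card V : ℝ) / 4) le_rfl zero_le_one (by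
    intro S T
    rw [zero_mul, sub_zero]
    have hcT : ((univ \ T : Finset V).card : ℝ) = Fintype.card V - T.card := by
      rw [Finset.card_sdiff_of_subset (Finset.subset_univ T), Finset.card_univ,
        Nat.cast_sub (Finset.card_le_univ T)]
    have hcS : ((univ \ S : Finset V).card : ℝ) = Fintype.card V - S.card := by
      rw [Finset.card_sdiff_of_subset (Finset.subset_univ S), Finset.card_univ,
        Nat.cast_sub (Finset.card_le_univ S)]
    refine A4_ineq (Nat.cast_nonneg _) (by exact_mod_cast Finset.card_le_univ S)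
      (Nat.cast_nonneg _) (Nat.cast_nonneg _) ?_ ?_
    · rw [A4_sum1, Nat.cast_sum]
      have : (S.card : ℝ) * ((Fintype.card V : ℝ) / 2 - T.card) =
          ∑ u ∈ S, ((Fintype.card V : ℝ) / 2 - T.card) := by
        rw [Finset.sum_const, nsmul_eq_mul]
      rw [this]
      refine Finset.sum_le_sum (fun u _ => ?_)
      have h4 := A4_dg G h u (univ \ T)
      rw [Finset.sdiff_sdiff_eq_self (Finset.subset_univ T)] at h4
      exact h4
    · rw [A4_sum2, Nat.cast_sum, ← hcT]
      have : ((univ \ T : Finset V).card : ℝ) * ((S.card : ℝ) - (Fintype.card V : ℝ) / 2) =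
          ∑ v ∈ univ \ T, ((S.card : ℝ) - (Fintype.card V : ℝ) / 2) := by
        rw [Finset.sum_const, nsmul_eq_mul]
      rw [this]
      refine Finset.sum_le_sum (fun v _ => ?_)
      have h4 := A4_dg G h v S
      rw [hcS] at h4
      linarith)
  exact ⟨y, h1, h2, h3⟩

end Pool.Agent.HCD
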