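import Pool.Agent.Lib.HCD.Defs2

/-!
# B1: the partition of case B and the bound for r

PROOF of `b_part`.  A0 from ExtB; A = {v | dg G v (univ \ A0) ≤ dg G v A0}.  A vertex of A0 not in A has d_A0 < d_B0, so d_B0 ≥ n/4 (B0 = univ \ A0; Dirac);
as eo G A0 B0 ≤ κ0 n^2 there are at most 4 κ0 n of them; a vertex of B0 in A has d_A0 ≥ n/4: at most 4 κ0 n.  So |A|, |B| differ by at most 4κ0 n from
|A0|, |B0|; new cross edges ≤ κ0 n^2 + 8 κ0 n * n; a vertex v ∈ A has dg G v A ≥ dg G v A0 - 4 κ0 n ≥ n/4 - 4κ0 n; the same for v ∉ A.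
PROOF of `b_r`.  S = the smaller one of A, univ \ A: |S| ≤ n/2.  r|S| = ∑_{v ∈ S} ∑_u x v u ≤ |S|^2 + eo G S (univ \ S) ≤ |S|^2 + κ n^2, |S| ≥ (1/2-κ) n ≥ n/4:
r ≤ n/2 + 4κ n.
-/

set_option autoImplicit false

noncomputable section

open scoped Classical
open Finset

namespace Pool.Agent.HCD

section aux
variable {V : Type} [Fintype V] (G : SimpleGraph V)

private theorem b1_mono {X X' Y Y' : Finset V} (hX : X ⊆ X') (hY : Y ⊆ Y') :
    eo G X Y ≤ eo G X' Y' :=
  card_le_card (filter_subset_filter _ (product_subset_product hX hY))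

private theorem b1_union (X Y Z : Finset V) : eo G X (Y ∪ Z) ≤ eo G X Y + eo G X Z := by
  unfold eo
  rw [product_union, filter_union]
  exact card_union_le _ _

private theorem b1_union' (X Y Z : Finset V) : eo G (X ∪ Y) Z ≤ eo G X Z + eo G Y Z := by
  unfold eo
  rw [union_product, filter_union]
  exact card_union_le _ _

private theorem b1_symm (X Y : Finset V) : eo G X Y = eo G Y X := by
  unfold eo
  refine card_bij (fun p _ => p.swap) ?_ ?_ ?_
  · rintro ⟨a, b⟩ h
    rw [mem_filter, mem_product] at h ⊢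
    exact ⟨⟨h.1.2, h.1.1⟩, h.2.symm⟩
  · rintro ⟨a, b⟩ _ ⟨c, d⟩ _ h
    exact Prod.swap_injective h
  · rintro ⟨a, b⟩ h
    refine ⟨(b, a), ?_, rfl⟩
    rw [mem_filter, mem_product] at h ⊢
    exact ⟨⟨h.1.2, h.1.1⟩, h.2.symm⟩

private theorem b1_le (X Y : Finset V) : eo G X Y ≤ X.card * Y.card := by
  unfold eo
  rw [← card_product]
  exact card_filter_le _ _

private theorem b1_sum (X Y : Finset V) : eo G X Y = ∑ v ∈ X, dg G v Y := by
  unfold eo dg
  rw [card_eq_sum_ones, sum_filter, sum_product]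
  refine sum_congr rfl fun v _ => ?_
  rw [card_eq_sum_ones, sum_filter]

private theorem b1_dg_split (v : V) (X : Finset V) :
    dg G v univ = dg G v X + dg G v (univ \ X) := by
  unfold dg
  rw [← card_union_of_disjoint]
  · congr 1
    rw [← filter_union, union_sdiff_of_subset (subset_univ X)]
  · exact disjoint_filter_filter disjoint_sdiff

private theorem b1_dg_sub (v : V) {X Y Z : Finset V} (h : X ⊆ Y ∪ Z) :
    dg G v X ≤ dg G v Y + Z.card := by
  unfold dg
  calc (X.filter (fun u => G.Adj v u)).card ≤ ((Y ∪ Z).filter (fun u => G.Adj v u)).card :=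
        card_le_card (filter_subset_filter _ h)
    _ ≤ (Y.filter (fun u => G.Adj v u)).card + (Z.filter (fun u => G.Adj v u)).card := by
        rw [filter_union]
        exact card_union_le _ _
    _ ≤ _ := Nat.add_le_add_left (card_filter_le _ _) _

/-- few vertices of `D ⊆ X` have many neighbours in `Y` -/
private theorem b1_few {X Y D : Finset V} {n κ : ℝ} (hn : 0 < n) (hDX : D ⊆ X)
    (hD : ∀ v ∈ D, n / 4 ≤ (dg G v Y : ℝ)) (he : (eo G X Y : ℝ) ≤ κ * n ^ 2) :
    (D.card : ℝ) ≤ 4 * κ * n := by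
  have h1 : (D.card : ℝ) * (n / 4) ≤ eo G D Y := by
    rw [b1_sum]
    push_cast
    have h3 := card_nsmul_le_sum D (fun v => (dg G v Y : ℝ)) (n / 4) hD
    rwa [nsmul_eq_mul] at h3
  have h2 : (eo G D Y : ℝ) ≤ eo G X Y := by exact_mod_cast b1_mono G hDX subset_rfl
  have h3 : (D.card : ℝ) * (n / 4) ≤ κ * n ^ 2 := h1.trans (h2.trans he)
  have h4 : (D.card : ℝ) * n ≤ (4 * κ * n) * n := by nlinarith
  exact le_of_mul_le_mul_right h4 hn

end aux

theorem b_part {V : Type} [Fintype V] (G : SimpleGraph V) (κ : ℝ) (hκ : 0 < κ) (hG : Dirac G)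
    (h : ExtB G κ) : ∃ A : Finset V, BP G A (10 * κ) := by
  obtain ⟨A0, hA0, hB0, he⟩ := h
  set n : ℝ := (Fintype.card V : ℝ) with hn
  have hn0 : 0 ≤ n := Nat.cast_nonneg _
  rcases hn0.eq_or_lt with hz | hnpos
  · -- no vertices
    have hV : Fintype.card V = 0 := by
      have : (Fintype.card V : ℝ) = 0 := by rw [← hn]; exact hz.symm
      exact_mod_cast this
    have hE : IsEmpty V := Fintype.card_eq_zero_iff.1 hV
    refine ⟨∅, ?_, ?_, ?_, fun v => (hE.false v).elim⟩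
    · rw [← hn, ← hz, mul_zero]
      exact Nat.cast_nonneg _
    · rw [← hn, ← hz, mul_zero]
      exact Nat.cast_nonneg _
    · have h0 : eo G ∅ (univ \ ∅) = 0 := by
        unfold eo
        simp
      rw [h0, Nat.cast_zero]
      positivity
  set B0 : Finset V := univ \ A0 with hB0def
  set A : Finset V := univ.filter (fun v => dg G v B0 ≤ dg G v A0) with hA
  have hDir : ∀ v, n ≤ 2 * ((dg G v A0 : ℝ) + dg G v B0) := by
    intro v
    have h1 := hG v
    rw [b1_dg_split G v A0] at h1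
    rw [hn]
    exact_mod_cast h1
  -- the two exceptional sets
  have c1 : ((A0 \ A).card : ℝ) ≤ 4 * κ * n := by
    refine b1_few G (X := A0) (Y := B0) hnpos sdiff_subset (fun v hv => ?_) he
    rw [mem_sdiff, hA, mem_filter] at hv
    have h1 : dg G v A0 < dg G v B0 := by
      by_contra hneg
      exact hv.2 ⟨mem_univ v, not_lt.1 hneg⟩
    have h2 : (dg G v A0 : ℝ) < dg G v B0 := by exact_mod_cast h1
    linarith [hDir v]
  have he' : (eo G B0 A0 : ℝ) ≤ κ * n ^ 2 := by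
    rw [b1_symm]
    exact he
  have c2 : ((A \ A0).card : ℝ) ≤ 4 * κ * n := by
    refine b1_few G (X := B0) (Y := A0) hnpos ?_ (fun v hv => ?_) he'
    · intro v hv
      rw [mem_sdiff] at hv
      rw [hB0def, mem_sdiff]
      exact ⟨mem_univ v, hv.2⟩
    · rw [mem_sdiff, hA, mem_filter] at hv
      have h2 : (dg G v B0 : ℝ) ≤ dg G v A0 := by exact_mod_cast hv.1.2
      linarith [hDir v]
  have s1 : A0 ⊆ A ∪ (A0 \ A) := by
    intro v hv
    rw [mem_union, mem_sdiff]
    tauto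
  have s2 : B0 ⊆ (univ \ A) ∪ (A \ A0) := by
    intro v hv
    rw [hB0def, mem_sdiff] at hv
    rw [mem_union, mem_sdiff, mem_sdiff]
    have := mem_univ v
    tauto
  have s3 : A ⊆ A0 ∪ (A \ A0) := by
    intro v hv
    rw [mem_union, mem_sdiff]
    tauto
  have s4 : univ \ A ⊆ B0 ∪ (A0 \ A) := by
    intro v hv
    rw [mem_sdiff] at hv
    rw [hB0def, mem_union, mem_sdiff, mem_sdiff]
    have := mem_univ v
    tauto
  have hκn : 0 < κ * n := mul_pos hκ hnpos
  refine ⟨A, ?_, ?_, ?_, ?_⟩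
  · have h1 : (A0.card : ℝ) ≤ A.card + (A0 \ A).card := by
      exact_mod_cast (card_le_card s1).trans (card_union_le _ _)
    rw [← hn]
    linarith
  · have h1 : (B0.card : ℝ) ≤ (univ \ A).card + (A \ A0).card := by
      exact_mod_cast (card_le_card s2).trans (card_union_le _ _)
    rw [← hn]
    linarith
  · have h1 : eo G A (univ \ A) ≤ eo G A0 B0 + A0.card * (A0 \ A).card +
        (A \ A0).card * (B0 ∪ (A0 \ A)).card := by
      calc eo G A (univ \ A) ≤ eo G (A0 ∪ (A \ A0)) (B0 ∪ (A0 \ A)) := b1_mono G s3 s4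
        _ ≤ eo G A0 (B0 ∪ (A0 \ A)) + eo G (A \ A0) (B0 ∪ (A0 \ A)) := b1_union' G _ _ _
        _ ≤ (eo G A0 B0 + eo G A0 (A0 \ A)) + eo G (A \ A0) (B0 ∪ (A0 \ A)) :=
          Nat.add_le_add_right (b1_union G _ _ _) _
        _ ≤ (eo G A0 B0 + A0.card * (A0 \ A).card) + (A \ A0).card * (B0 ∪ (A0 \ A)).card :=
          Nat.add_le_add (Nat.add_le_add_left (b1_le G _ _) _) (b1_le G _ _)
    have h2 : (eo G A (univ \ A) : ℝ) ≤ eo G A0 B0 + A0.card * (A0 \ A).card +
        (A \ A0).card * (B0 ∪ (A0 \ A)).card := by exact_mod_cast h1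
    have h3 : (A0.card : ℝ) ≤ n := by
      rw [hn]
      exact_mod_cast card_le_univ A0
    have h4 : ((B0 ∪ (A0 \ A)).card : ℝ) ≤ n := by
      rw [hn]
      exact_mod_cast card_le_univ _
    have h5 : (A0.card : ℝ) * (A0 \ A).card ≤ n * (4 * κ * n) :=
      mul_le_mul h3 c1 (Nat.cast_nonneg _) hn0
    have h6 : ((A \ A0).card : ℝ) * (B0 ∪ (A0 \ A)).card ≤ (4 * κ * n) * n :=
      mul_le_mul c2 h4 (Nat.cast_nonneg _) (by positivity)
    have h7 : 0 ≤ κ * n ^ 2 := by positivity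
    rw [← hn]
    nlinarith
  · intro v
    rw [← hn]
    unfold sameS
    split_ifs with hv
    · have h1 : (dg G v A0 : ℝ) ≤ dg G v A + (A0 \ A).card := by
        exact_mod_cast b1_dg_sub G v s1
      rw [hA, mem_filter] at hv
      have h2 : (dg G v B0 : ℝ) ≤ dg G v A0 := by exact_mod_cast hv.2
      linarith [hDir v]
    · have h1 : (dg G v B0 : ℝ) ≤ dg G v (univ \ A) + (A \ A0).card := by
        exact_mod_cast b1_dg_sub G v s2
      have h3 : dg G v A0 < dg G v B0 := by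
        by_contra hneg
        refine hv ?_
        rw [hA, mem_filter]
        exact ⟨mem_univ v, not_lt.1 hneg⟩
      have h2 : (dg G v A0 : ℝ) < dg G v B0 := by exact_mod_cast h3
      linarith [hDir v]

private theorem b1_r_aux {V : Type} [Fintype V] (G : SimpleGraph V) (S : Finset V) (κ : ℝ)
    (hκ : 0 < κ) (hκ1 : κ ≤ 1 / 4) (h1 : 1 ≤ Fintype.card V)
    (hlo : (1 / 2 - κ) * Fintype.card V ≤ S.card) (hhi : (S.card : ℝ) ≤ Fintype.card V / 2)
    (he : (eo G S (univ \ S) : ℝ) ≤ κ * (Fintype.card V : ℝ) ^ 2) (x : V → V → ℝ) (r : ℝ)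
    (hx : FF G x r) : r ≤ Fintype.card V / 2 + 4 * κ * Fintype.card V := by
  set n : ℝ := (Fintype.card V : ℝ) with hn
  have hn1 : 1 ≤ n := by
    rw [hn]
    exact_mod_cast h1
  have hn0 : 0 < n := one_pos.trans_le hn1
  obtain ⟨hW, hle, hsum⟩ := hx
  have hS0 : 0 < (S.card : ℝ) := by nlinarith
  have h2 : (S.card : ℝ) * r = ∑ v ∈ S, ∑ u, x v u := by
    rw [sum_congr rfl fun v _ => hsum v, sum_const, nsmul_eq_mul]
  have h3 : ∑ v ∈ S, ∑ u, x v u = (∑ v ∈ S, ∑ u ∈ S, x v u) + ∑ v ∈ S, ∑ u ∈ univ \ S, x v u := by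
    rw [← sum_add_distrib]
    refine sum_congr rfl fun v _ => ?_
    rw [add_comm, sum_sdiff (subset_univ S)]
  have h4 : ∑ v ∈ S, ∑ u ∈ S, x v u ≤ (S.card : ℝ) * S.card := by
    calc ∑ v ∈ S, ∑ u ∈ S, x v u ≤ ∑ v ∈ S, ∑ u ∈ S, (1 : ℝ) :=
          sum_le_sum fun v _ => sum_le_sum fun u _ => hle v u
      _ = (S.card : ℝ) * S.card := by simp
  have h5 : ∑ v ∈ S, ∑ u ∈ univ \ S, x v u ≤ (eo G S (univ \ S) : ℝ) := by
    rw [b1_sum]
    push_cast
    refine sum_le_sum fun v _ => ?_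
    unfold dg
    rw [card_eq_sum_ones, sum_filter]
    push_cast
    refine sum_le_sum fun u _ => ?_
    split_ifs with hadj
    · exact hle v u
    · exact (hW.zero v u hadj).le
  have h6 : (S.card : ℝ) * r ≤ (S.card : ℝ) * S.card + κ * n ^ 2 := by
    rw [h2, h3]
    linarith
  have h7 : n / 4 ≤ (S.card : ℝ) := by nlinarith
  have h8 : κ * n ^ 2 ≤ (S.card : ℝ) * (4 * κ * n) := by
    have h9 : n / 4 * (4 * κ * n) ≤ (S.card : ℝ) * (4 * κ * n) :=
      mul_le_mul_of_nonneg_right h7 (by positivity)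
    nlinarith
  have h9 : (S.card : ℝ) * r ≤ (S.card : ℝ) * (n / 2 + 4 * κ * n) := by
    have h10 : (S.card : ℝ) * S.card ≤ (S.card : ℝ) * (n / 2) :=
      mul_le_mul_of_nonneg_left hhi hS0.le
    rw [mul_add]
    linarith
  exact le_of_mul_le_mul_left h9 hS0

theorem b_r {V : Type} [Fintype V] (G : SimpleGraph V) (A : Finset V) (κ : ℝ) (hκ : 0 < κ)
    (hκ1 : κ ≤ 1 / 4) (h1 : 1 ≤ Fintype.card V) (h : BP G A κ) (x : V → V → ℝ) (r : ℝ)
    (hx : FF G x r) : r ≤ Fintype.card V / 2 + 4 * κ * Fintype.card V := by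
  have hc : (A.card : ℝ) + (univ \ A).card = Fintype.card V := by
    have h2 := card_sdiff_add_card_eq_card (subset_univ A)
    rw [card_univ] at h2
    have h3 : (((univ \ A).card + A.card : ℕ) : ℝ) = Fintype.card V := by rw [h2]
    push_cast at h3
    linarith
  rcases le_total (A.card : ℝ) (univ \ A).card with hle | hle
  · exact b1_r_aux G A κ hκ hκ1 h1 h.lo (by linarith) h.few x r hx
  · refine b1_r_aux G (univ \ A) κ hκ hκ1 h1 h.lo' (by linarith) ?_ x r hx
    rw [sdiff_sdiff_right_self]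
    have h2 : (univ : Finset V) ⊓ A = A := by
      rw [inf_eq_inter, univ_inter]
    rw [h2, b1_symm]
    exact h.few

end Pool.Agent.HCD
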