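import Pool.Agent.Lib.HCD.Defs2

/-!
# B3: availability of crossing units in case B (section 5.2)

PROOF.  cr w = crL G A Exc w, ell = eo G (A \ Exc) ((univ \ A) \ Exc), c w = min R (cr w - t), n = card V.  W1 = {w ∈ Exc | R ≤ cr w - t}.
(0) |W1| ≥ 2: ∑ c ≥ 2R, and the second claim is vacuous.
(1) |W1| = 1, W1 = {w0}.  Delete w0.  Let S be the smaller one of A \ {w0}, (univ \ A) \ {w0}: 2|S| ≤ n - 1.  Each v ∈ S has at least ceil(n/2) - 1 - (|S| - 1)
 ≥ 1 neighbours in the other side minus w0 (Dirac: deg v ≥ n/2; at most |S|-1 on its own side, at most one is w0; 2(deg) ≥ n and 2|S| ≤ n-1 give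
 deg - 1 - (|S|-1) ≥ 1: 2 deg - 2|S| ≥ 1).  So the number of cross edges avoiding w0 is ≥ |S| ≥ min(|A|,|B|) - 1; it is at most
 ell + ∑_{w ∈ Exc, w ≠ w0} cr w + |Exc|^2.  As c w ≥ cr w - t for w ≠ w0: ∑_{w ≠ w0} c w + ell ≥ |S| - |Exc|^2 - |Exc| t ≥ 2R ≥ R by hmin.  Add c w0 = R.
 Second claim vacuous.
(2) |W1| = 0: S = the smaller one of A, univ \ A, 2|S| ≤ n; each v ∈ S has at least deg v - (|S|-1) ≥ 1 cross neighbours; ell + ∑ cr w + |Exc|^2 ≥ |S|;
 c w ≥ cr w - t, so ∑ c + ell ≥ |S| - |Exc|^2 - |Exc| t ≥ 2R + 2 dm.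
-/

set_option autoImplicit false

noncomputable section

open scoped Classical
open Finset

namespace Pool.Agent.HCD

private theorem dg_sum {V : Type} [Fintype V] (G : SimpleGraph V) (v : V) (Y : Finset V) :
    dg G v Y = ∑ y ∈ Y, if G.Adj v y then 1 else 0 := by
  unfold dg
  rw [Finset.card_filter]

private theorem eo_sum {V : Type} [Fintype V] (G : SimpleGraph V) (X Y : Finset V) :
    eo G X Y = ∑ x ∈ X, dg G x Y := by
  unfold eo
  rw [Finset.card_filter, Finset.sum_product]
  refine Finset.sum_congr rfl fun x _ => ?_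
  rw [dg_sum]

private theorem eo_comm {V : Type} [Fintype V] (G : SimpleGraph V) (X Y : Finset V) :
    eo G X Y = eo G Y X := by
  rw [eo_sum, eo_sum]
  simp only [dg_sum]
  rw [Finset.sum_comm]
  refine Finset.sum_congr rfl fun y _ => Finset.sum_congr rfl fun x _ => ?_
  simp only [G.adj_comm]

private theorem eo_cover {V : Type} [Fintype V] (G : SimpleGraph V) (X X1 X2 Y Y1 Y2 : Finset V)
    (hX : X ⊆ X1 ∪ X2) (hY : Y ⊆ Y1 ∪ Y2) :
    eo G X Y ≤ eo G X1 Y1 + eo G X1 Y2 + eo G X2 Y1 + eo G X2 Y2 := by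
  unfold eo
  have h : (X ×ˢ Y).filter (fun p => G.Adj p.1 p.2) ⊆
      (((X1 ×ˢ Y1).filter (fun p => G.Adj p.1 p.2) ∪ (X1 ×ˢ Y2).filter (fun p => G.Adj p.1 p.2)) ∪
      (X2 ×ˢ Y1).filter (fun p => G.Adj p.1 p.2)) ∪ (X2 ×ˢ Y2).filter (fun p => G.Adj p.1 p.2) := by
    intro p hp
    simp only [Finset.mem_filter, Finset.mem_product, Finset.mem_union] at hp ⊢
    obtain ⟨⟨h1, h2⟩, h3⟩ := hp
    have h1' := Finset.mem_union.1 (hX h1)
    have h2' := Finset.mem_union.1 (hY h2)
    tauto
  refine (Finset.card_le_card h).trans ?_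
  refine (Finset.card_union_le _ _).trans (add_le_add ?_ le_rfl)
  refine (Finset.card_union_le _ _).trans (add_le_add ?_ le_rfl)
  exact Finset.card_union_le _ _

private theorem eo_le {V : Type} [Fintype V] (G : SimpleGraph V) (X Y : Finset V) :
    eo G X Y ≤ X.card * Y.card := by
  unfold eo
  exact (Finset.card_filter_le _ _).trans (le_of_eq (Finset.card_product _ _))

/-- every vertex of the smaller side has a neighbour on the other side -/
private theorem low {V : Type} [Fintype V] (G : SimpleGraph V) (hG : Dirac G) (S T W : Finset V)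
    (hW : W.card ≤ 1) (hU : ∀ v, v ∈ S ∨ v ∈ T ∨ v ∈ W) (hST : Disjoint S T) (hSW : Disjoint S W)
    (hTW : Disjoint T W) (hle : S.card ≤ T.card) : S.card ≤ eo G S T := by
  rw [eo_sum, Finset.card_eq_sum_ones]
  refine Finset.sum_le_sum fun v hv => ?_
  have h1 := hG v
  have h2 : dg G v univ ≤ dg G v S + dg G v T + W.card := by
    unfold dg
    have h : (univ : Finset V).filter (fun u => G.Adj v u) ⊆
        (S.filter (fun u => G.Adj v u) ∪ T.filter (fun u => G.Adj v u)) ∪ W := by
      intro u hu
      simp only [Finset.mem_filter, Finset.mem_univ, true_and, Finset.mem_union] at hu ⊢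
      have := hU u
      tauto
    refine (Finset.card_le_card h).trans ?_
    refine (Finset.card_union_le _ _).trans (add_le_add ?_ le_rfl)
    exact Finset.card_union_le _ _
  have h3 : dg G v S + 1 ≤ S.card := by
    unfold dg
    have h : S.filter (fun u => G.Adj v u) ⊆ S.erase v := by
      intro u hu
      simp only [Finset.mem_filter, Finset.mem_erase] at hu ⊢
      refine ⟨?_, hu.1⟩
      rintro rfl
      exact G.loopless.irrefl _ hu.2
    have := Finset.card_le_card h
    rw [Finset.card_erase_of_mem hv] at this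
    have hpos : 0 < S.card := Finset.card_pos.2 ⟨v, hv⟩
    omega
  have h4 : S.card + T.card + W.card = Fintype.card V := by
    rw [← Finset.card_union_of_disjoint hST, ← Finset.card_union_of_disjoint
      (Finset.disjoint_union_left.2 ⟨hSW, hTW⟩), ← Finset.card_univ]
    congr 1
    ext u
    simp only [Finset.mem_union, Finset.mem_univ, iff_true]
    have := hU u
    tauto
  omega

theorem avail {V : Type} [Fintype V] (G : SimpleGraph V) (hG : Dirac G) (A Exc : Finset V)
    (R t dm : ℕ) (hR : 0 < R)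
    (hA : 2 * R + 2 * dm + Exc.card * (t + Exc.card) + 2 ≤ A.card)
    (hB : 2 * R + 2 * dm + Exc.card * (t + Exc.card) + 2 ≤ (univ \ A).card) :
    2 * R ≤ ∑ w ∈ Exc, min R (crL G A Exc w - t) + eo G (A \ Exc) ((univ \ A) \ Exc) ∧
    (∑ w ∈ Exc, min R (crL G A Exc w - t) < R →
      2 * R + 2 * dm ≤ ∑ w ∈ Exc, min R (crL G A Exc w - t) +
        eo G (A \ Exc) ((univ \ A) \ Exc)) := by
  set W := Exc.filter (fun w => R ≤ crL G A Exc w - t) with hWdef
  have hsplit := Finset.sum_filter_add_sum_filter_not Exc (fun w => R ≤ crL G A Exc w - t)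
    (fun w => min R (crL G A Exc w - t))
  have hWsum : ∑ w ∈ W, min R (crL G A Exc w - t) = W.card * R := by
    rw [Finset.sum_congr rfl (g := fun _ => R), Finset.sum_const, smul_eq_mul]
    intro w hw
    exact min_eq_left (Finset.mem_filter.1 hw).2
  rw [← hWdef] at hsplit
  by_cases hW2 : 2 ≤ W.card
  · have h1 : 2 * R ≤ W.card * R := Nat.mul_le_mul_right R hW2
    constructor
    · omega
    · intro h
      omega
  have hW1 : W.card ≤ 1 := by omega
  have hWE : W ⊆ Exc := Finset.filter_subset _ _
  -- lower bound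
  have hlow : 2 * R + 2 * dm + Exc.card * (t + Exc.card) + 1 ≤
      eo G (A \ W) ((univ \ A) \ W) := by
    have c1 : A.card ≤ (A \ W).card + 1 := by
      have := Finset.le_card_sdiff W A
      omega
    have c2 : (univ \ A).card ≤ ((univ \ A) \ W).card + 1 := by
      have := Finset.le_card_sdiff W (univ \ A)
      omega
    have hd1 : Disjoint (A \ W) ((univ \ A) \ W) := by
      rw [Finset.disjoint_left]
      intro v hv hv'
      simp only [Finset.mem_sdiff, Finset.mem_univ, true_and] at hv hv'
      tauto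
    rcases le_total (A \ W).card ((univ \ A) \ W).card with hle | hle
    · have := low G hG (A \ W) ((univ \ A) \ W) W hW1 (by
        intro v
        simp only [Finset.mem_sdiff, Finset.mem_univ, true_and]
        tauto) hd1 Finset.sdiff_disjoint Finset.sdiff_disjoint hle
      omega
    · have := low G hG ((univ \ A) \ W) (A \ W) W hW1 (by
        intro v
        simp only [Finset.mem_sdiff, Finset.mem_univ, true_and]
        tauto) hd1.symm Finset.sdiff_disjoint Finset.sdiff_disjoint hle
      rw [eo_comm] at this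
      omega
  -- upper bound
  have hup := eo_cover G (A \ W) (A \ Exc) ((Exc \ W).filter (· ∈ A))
    ((univ \ A) \ W) ((univ \ A) \ Exc) ((Exc \ W).filter (· ∉ A)) (by
      intro v hv
      simp only [Finset.mem_sdiff, Finset.mem_union, Finset.mem_filter] at hv ⊢
      tauto) (by
      intro v hv
      simp only [Finset.mem_sdiff, Finset.mem_union, Finset.mem_filter, Finset.mem_univ,
        true_and] at hv ⊢
      tauto)
  have hcr : eo G (A \ Exc) ((Exc \ W).filter (· ∉ A)) +
      eo G ((Exc \ W).filter (· ∈ A)) ((univ \ A) \ Exc) = ∑ w ∈ Exc \ W, crL G A Exc w := by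
    rw [eo_comm G (A \ Exc), eo_sum, eo_sum, ← Finset.sum_filter_add_sum_filter_not (Exc \ W)
      (· ∈ A) (fun w => crL G A Exc w), add_comm]
    congr 1
    · refine Finset.sum_congr rfl fun w hw => ?_
      unfold crL oppS
      rw [if_pos (Finset.mem_filter.1 hw).2]
    · refine Finset.sum_congr rfl fun w hw => ?_
      unfold crL oppS
      rw [if_neg (Finset.mem_filter.1 hw).2]
  have hEE : eo G ((Exc \ W).filter (· ∈ A)) ((Exc \ W).filter (· ∉ A)) ≤ Exc.card * Exc.card := by
    refine (eo_le _ _ _).trans (Nat.mul_le_mul ?_ ?_)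
    · exact Finset.card_le_card ((Finset.filter_subset _ _).trans Finset.sdiff_subset)
    · exact Finset.card_le_card ((Finset.filter_subset _ _).trans Finset.sdiff_subset)
  have hfil : Exc.filter (fun w => ¬ R ≤ crL G A Exc w - t) = Exc \ W := by
    rw [hWdef, Finset.filter_not]
  rw [hfil] at hsplit
  have hc : ∑ w ∈ Exc \ W, crL G A Exc w ≤
      ∑ w ∈ Exc \ W, min R (crL G A Exc w - t) + Exc.card * t := by
    have h1 : ∑ w ∈ Exc \ W, crL G A Exc w ≤
        ∑ w ∈ Exc \ W, (min R (crL G A Exc w - t) + t) := by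
      refine Finset.sum_le_sum fun w hw => ?_
      rw [← hfil, Finset.mem_filter] at hw
      have h2 := hw.2
      rw [min_eq_right (by omega)]
      omega
    rw [Finset.sum_add_distrib, Finset.sum_const, smul_eq_mul] at h1
    have h3 : (Exc \ W).card * t ≤ Exc.card * t :=
      Nat.mul_le_mul_right t (Finset.card_le_card Finset.sdiff_subset)
    omega
  have hmul : Exc.card * (t + Exc.card) = Exc.card * t + Exc.card * Exc.card := mul_add _ _ _
  constructor
  · omega
  · intro _
    omega

end Pool.Agent.HCD
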