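import Pool.Agent.Lib.HCD.B1
import Pool.Agent.Lib.HCD.B3

/-!
# B10a: case B, all numerical facts
-/

set_option autoImplicit false

noncomputable section

open scoped Classical
open Finset

namespace Pool.Agent.HCD

private theorem eo_eq_sum {V : Type} [Fintype V] (G : SimpleGraph V) (X Y : Finset V) :
    eo G X Y = ∑ v ∈ X, dg G v Y := by
  unfold eo dg
  rw [card_filter, sum_product]
  refine sum_congr rfl (fun v _ => ?_)
  rw [card_filter]

private theorem eo_comm' {V : Type} [Fintype V] (G : SimpleGraph V) (X Y : Finset V) :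
    eo G X Y = eo G Y X := by
  rw [eo_eq_sum, eo_eq_sum]
  simp only [dg, card_filter]
  rw [sum_comm]
  refine sum_congr rfl (fun v _ => sum_congr rfl (fun u _ => ?_))
  simp only [G.adj_comm]

private theorem sum_dg_opp {V : Type} [Fintype V] (G : SimpleGraph V) (A : Finset V) :
    ∑ v, dg G v (oppS A v) = 2 * eo G A (univ \ A) := by
  have h1 : ∑ v ∈ A, dg G v (oppS A v) = eo G A (univ \ A) := by
    rw [eo_eq_sum]
    refine sum_congr rfl (fun v hv => ?_)
    simp [oppS, hv]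
  have h2 : ∑ v ∈ univ \ A, dg G v (oppS A v) = eo G A (univ \ A) := by
    rw [eo_comm', eo_eq_sum]
    refine sum_congr rfl (fun v hv => ?_)
    have : v ∉ A := (mem_sdiff.1 hv).2
    simp [oppS, this]
  have h3 := sum_sdiff (subset_univ A) (f := fun v => dg G v (oppS A v))
  omega

private theorem dg_mono {V : Type} [Fintype V] (G : SimpleGraph V) (v : V) {X Y : Finset V}
    (h : X ⊆ Y) : dg G v X ≤ dg G v Y := by
  unfold dg
  exact card_le_card (filter_subset_filter _ h)

private theorem dg_sdiff_le {V : Type} [Fintype V] (G : SimpleGraph V) (v : V)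
    (X Y : Finset V) : dg G v X ≤ dg G v (X \ Y) + Y.card := by
  unfold dg
  have : X.filter (fun u => G.Adj v u) ⊆ (X \ Y).filter (fun u => G.Adj v u) ∪ Y := by
    intro u hu
    rw [mem_filter] at hu
    by_cases hY : u ∈ Y
    · exact mem_union_right _ hY
    · exact mem_union_left _ (mem_filter.2 ⟨mem_sdiff.2 ⟨hu.1, hY⟩, hu.2⟩)
  exact (card_le_card this).trans (card_union_le _ _)

private theorem dg_split {V : Type} [Fintype V] (G : SimpleGraph V) (v : V) (A : Finset V) :
    dg G v univ ≤ dg G v (sameS A v) + dg G v (oppS A v) := by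
  unfold dg
  have : (univ : Finset V).filter (fun u => G.Adj v u) ⊆
      (sameS A v).filter (fun u => G.Adj v u) ∪ (oppS A v).filter (fun u => G.Adj v u) := by
    intro u hu
    rw [mem_filter] at hu
    by_cases hv : v ∈ A <;> by_cases huA : u ∈ A <;> simp [sameS, oppS, hv, huA, hu.2]
  exact (card_le_card this).trans (card_union_le _ _)

private theorem dg_split2 {V : Type} [Fintype V] (G : SimpleGraph V) (v : V)
    (A Exc : Finset V) :
    dg G v univ ≤ ownL G A Exc v + crL G A Exc v + Exc.card := by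
  unfold ownL crL dg
  have : (univ : Finset V).filter (fun u => G.Adj v u) ⊆
      ((sameS A v \ Exc).filter (fun u => G.Adj v u) ∪
        (oppS A v \ Exc).filter (fun u => G.Adj v u)) ∪ Exc := by
    intro u hu
    rw [mem_filter] at hu
    by_cases hE : u ∈ Exc
    · exact mem_union_right _ hE
    · refine mem_union_left _ ?_
      by_cases hv : v ∈ A <;> by_cases huA : u ∈ A <;> simp [sameS, oppS, hv, huA, hu.2, hE]
  refine (card_le_card this).trans ((card_union_le _ _).trans ?_)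
  exact Nat.add_le_add_right (card_union_le _ _) _

theorem b_setup (ε η0 : ℝ) (hε : 0 < ε) (hε1 : ε ≤ 1 / 4) (hη : 0 < η0) (hη1 : η0 ≤ 1 / 20) :
    ∃ κ : ℝ, 0 < κ ∧ ∃ n0 : ℕ, ∀ (V : Type) [Fintype V] (G : SimpleGraph V) (x : V → V → ℝ)
      (r : ℝ) (R : ℕ) (A : Finset V), n0 ≤ Fintype.card V → Dirac G → FF G x r →
      (Fintype.card V : ℝ) ≤ 4 * r → BP G A κ → (2 * R : ℝ) ≤ (1 - ε) * r + 2 → 0 < R →
      ∃ (Exc : Finset V) (t dm : ℕ), 2 * Exc.card + 4 ≤ t ∧
        (∀ w ∈ Exc, R + t ≤ ownL G A Exc w) ∧ (∀ w ∈ Exc, t ≤ crL G A Exc w) ∧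
        (∀ w ∈ Exc, 2 * R + 2 * t + 2 ≤ ownL G A Exc w + crL G A Exc w) ∧
        (∀ v ∉ Exc, crL G A Exc v ≤ dm) ∧
        (2 * R ≤ ∑ w ∈ Exc, min R (crL G A Exc w - t) +
          eo G (A \ Exc) ((univ \ A) \ Exc)) ∧
        (∑ w ∈ Exc, min R (crL G A Exc w - t) < R →
          2 * R + 2 * dm ≤ ∑ w ∈ Exc, min R (crL G A Exc w - t) +
            eo G (A \ Exc) ((univ \ A) \ Exc)) ∧
        (∀ v ∈ A \ Exc, (1 - η0) * ((A \ Exc).card : ℝ) ≤ dg G v (A \ Exc)) ∧
        (∀ v ∈ (univ \ A) \ Exc, (1 - η0) * (((univ \ A) \ Exc).card : ℝ) ≤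
          dg G v ((univ \ A) \ Exc)) ∧
        (2 * R : ℝ) ≤ (1 - ε / 8) * (A \ Exc).card ∧
        (2 * R : ℝ) ≤ (1 - ε / 8) * ((univ \ A) \ Exc).card ∧
        (2 * Exc.card + 6 + dm : ℝ) ≤ η0 * (A \ Exc).card ∧
        (2 * Exc.card + 6 + dm : ℝ) ≤ η0 * ((univ \ A) \ Exc).card ∧
        (Fintype.card V : ℝ) / 3 ≤ (A \ Exc).card ∧
        (Fintype.card V : ℝ) / 3 ≤ ((univ \ A) \ Exc).card := by
  set e : ℝ := min ε η0 with he
  have he0 : 0 < e := lt_min hε hη
  have heε : e ≤ ε := min_le_left _ _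
  have heη : e ≤ η0 := min_le_right _ _
  have he1 : e ≤ 1 / 20 := heη.trans hη1
  refine ⟨e ^ 3 / 10 ^ 9, by positivity, ⌈(10 : ℝ) ^ 9 / e ^ 3⌉₊, ?_⟩
  intro V _ G x r R A hn0 hG hx hr hBP hR hR0
  set n : ℝ := (Fintype.card V : ℝ) with hn
  -- the four sizes
  have he3 : 0 < e ^ 3 := by positivity
  have hnbig : (10 : ℝ) ^ 9 / e ^ 3 ≤ n := (Nat.le_ceil _).trans (Nat.cast_le.2 hn0)
  have h3 : (10 : ℝ) ^ 9 ≤ e ^ 3 * n := by
    rw [div_le_iff₀ he3] at hnbig; linarith
  have hn1 : 0 < n := by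
    by_contra hcon
    push Not at hcon
    have : e ^ 3 * n ≤ 0 := mul_nonpos_of_nonneg_of_nonpos he3.le hcon
    linarith
  have hen0 : 0 < e * n := by positivity
  have h32 : e ^ 3 * n ≤ (e ^ 2 * n) / 20 := by
    have : e ^ 3 * n = e * (e ^ 2 * n) := by ring
    rw [this]
    have h0 : 0 ≤ e ^ 2 * n := by positivity
    nlinarith
  have h21 : e ^ 2 * n ≤ (e * n) / 20 := by
    have : e ^ 2 * n = e * (e * n) := by ring
    rw [this]
    nlinarith
  have h10 : e * n ≤ n / 20 := by nlinarith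
  have hcard1 : 1 ≤ Fintype.card V := by
    have : (0 : ℝ) < (Fintype.card V : ℝ) := hn1
    exact_mod_cast this
  have hκ1 : e ^ 3 / 10 ^ 9 ≤ 1 / 4 := by
    have : e ^ 3 ≤ 1 := by
      have := pow_le_one₀ (n := 3) he0.le (by linarith : e ≤ 1)
      exact this
    linarith
  have hbr := b_r G A (e ^ 3 / 10 ^ 9) (by positivity) hκ1 hcard1 hBP x r hx
  -- abbreviations
  set a1 : ℝ := e * n with ha1
  set a2 : ℝ := e ^ 2 * n with ha2
  set a3 : ℝ := e ^ 3 * n with ha3
  have hκn : e ^ 3 / 10 ^ 9 * n = a3 / 10 ^ 9 := by rw [ha3]; ring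
  have hεn : a1 ≤ ε * n := by rw [ha1]; exact mul_le_mul_of_nonneg_right heε hn1.le
  have hηn : a1 ≤ η0 * n := by rw [ha1]; exact mul_le_mul_of_nonneg_right heη hn1.le
  have hRn : (2 * R : ℝ) ≤ n / 2 - (ε * n) / 2 + 4 * (a3 / 10 ^ 9) + 2 := by
    have h1 : (1 - ε) * r ≤ (1 - ε) * (n / 2 + 4 * (a3 / 10 ^ 9)) := by
      refine mul_le_mul_of_nonneg_left ?_ (by linarith)
      have : 4 * (e ^ 3 / 10 ^ 9) * n = 4 * (a3 / 10 ^ 9) := by rw [ha3]; ring
      linarith [hbr]
    have h2 : 0 ≤ a3 / 10 ^ 9 := by positivity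
    nlinarith [hR]
  -- the exceptional set
  set Exc : Finset V := univ.filter (fun v => a1 / 100 ≤ (dg G v (oppS A v) : ℝ)) with hExc
  have hExcc : (Exc.card : ℝ) ≤ a2 / 5000000 := by
    have h1 : (Exc.card : ℝ) * (a1 / 100) ≤ ∑ v ∈ Exc, (dg G v (oppS A v) : ℝ) := by
      rw [← nsmul_eq_mul]
      refine card_nsmul_le_sum _ _ _ (fun v hv => ?_)
      exact (mem_filter.1 hv).2
    have h2 : ∑ v ∈ Exc, (dg G v (oppS A v) : ℝ) ≤ ∑ v, (dg G v (oppS A v) : ℝ) :=
      sum_le_sum_of_subset_of_nonneg (subset_univ _) (fun _ _ _ => by positivity)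
    have h3' : ∑ v, (dg G v (oppS A v) : ℝ) = 2 * (eo G A (univ \ A) : ℝ) := by
      exact_mod_cast sum_dg_opp G A
    have h4 := hBP.few
    have h5 : (Exc.card : ℝ) * (a1 / 100) ≤ 2 * (e ^ 3 / 10 ^ 9 * n ^ 2) := by
      linarith
    have h6 : 2 * (e ^ 3 / 10 ^ 9 * n ^ 2) = (a2 / 5000000) * (a1 / 100) := by
      rw [ha1, ha2]; ring
    rw [h6] at h5
    exact le_of_mul_le_mul_right h5 (by positivity)
  have hExc0 : (0 : ℝ) ≤ Exc.card := by positivity
  set t : ℕ := ⌈a2 / 10000⌉₊ with ht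
  set dm : ℕ := ⌊a1 / 100⌋₊ with hdm
  have ht1 : a2 / 10000 ≤ (t : ℝ) := Nat.le_ceil _
  have ht2 : (t : ℝ) < a2 / 10000 + 1 := Nat.ceil_lt_add_one (by positivity)
  have hdm1 : (dm : ℝ) ≤ a1 / 100 := Nat.floor_le (by positivity)
  have hdeg : ∀ v, n / 2 ≤ (dg G v univ : ℝ) := by
    intro v
    have := hG v
    have h : (Fintype.card V : ℝ) ≤ 2 * (dg G v univ : ℝ) := by exact_mod_cast this
    linarith
  have hcrE : ∀ w ∈ Exc, a1 / 100 - (Exc.card : ℝ) ≤ (crL G A Exc w : ℝ) := by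
    intro w hw
    have h1 := (mem_filter.1 hw).2
    have h2 : (dg G w (oppS A w) : ℝ) ≤ (crL G A Exc w : ℝ) + Exc.card := by
      exact_mod_cast dg_sdiff_le G w (oppS A w) Exc
    linarith
  have hcrt : ∀ w ∈ Exc, a1 / 200 + (t : ℝ) ≤ (crL G A Exc w : ℝ) := by
    intro w hw
    have := hcrE w hw
    linarith
  have hnA : (A.card : ℝ) + ((univ \ A).card : ℝ) = n := by
    have : A.card + (univ \ A).card = Fintype.card V := by
      rw [card_sdiff_of_subset (subset_univ A), card_univ]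
      have := card_le_univ A
      omega
    rw [hn]
    exact_mod_cast this
  have hlo := hBP.lo
  have hlo' := hBP.lo'
  have hloA : n / 2 - a3 / 10 ^ 9 ≤ (A.card : ℝ) := by
    have : (1 / 2 - e ^ 3 / 10 ^ 9) * n = n / 2 - a3 / 10 ^ 9 := by rw [ha3]; ring
    linarith
  have hloB : n / 2 - a3 / 10 ^ 9 ≤ ((univ \ A).card : ℝ) := by
    have : (1 / 2 - e ^ 3 / 10 ^ 9) * n = n / 2 - a3 / 10 ^ 9 := by rw [ha3]; ring
    linarith
  have hsd : ∀ X : Finset V, (X.card : ℝ) ≤ ((X \ Exc).card : ℝ) + Exc.card := by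
    intro X
    have : X.card ≤ (X \ Exc).card + Exc.card :=
      card_le_card_sdiff_add_card
    exact_mod_cast this
  have hsd2 : ∀ X : Finset V, ((X \ Exc).card : ℝ) ≤ (X.card : ℝ) := by
    intro X
    exact_mod_cast card_le_card sdiff_subset
  have hA1 := hsd A
  have hB1 := hsd (univ \ A)
  have hA2 := hsd2 A
  have hB2 := hsd2 (univ \ A)
  have hA3 : n / 3 ≤ ((A \ Exc).card : ℝ) := by linarith
  have hB3 : n / 3 ≤ (((univ \ A) \ Exc).card : ℝ) := by linarith
  have hηA : a1 / 3 ≤ η0 * ((A \ Exc).card : ℝ) := by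
    have : η0 * (n / 3) ≤ η0 * ((A \ Exc).card : ℝ) := mul_le_mul_of_nonneg_left hA3 hη.le
    linarith
  have hηB : a1 / 3 ≤ η0 * (((univ \ A) \ Exc).card : ℝ) := by
    have : η0 * (n / 3) ≤ η0 * (((univ \ A) \ Exc).card : ℝ) :=
      mul_le_mul_of_nonneg_left hB3 hη.le
    linarith
  have hεA : ε * ((A \ Exc).card : ℝ) ≤ ε * n := by
    refine mul_le_mul_of_nonneg_left ?_ hε.le
    linarith [(by positivity : (0 : ℝ) ≤ ((univ \ A).card : ℝ))]
  have hεB : ε * (((univ \ A) \ Exc).card : ℝ) ≤ ε * n := by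
    refine mul_le_mul_of_nonneg_left ?_ hε.le
    linarith [(by positivity : (0 : ℝ) ≤ (A.card : ℝ))]
  have hlight : ∀ v ∉ Exc, (dg G v (oppS A v) : ℝ) < a1 / 100 := by
    intro v hv
    by_contra hcon
    push Not at hcon
    exact hv (mem_filter.2 ⟨mem_univ _, hcon⟩)
  -- availability
  have hav : (2 * R ≤ ∑ w ∈ Exc, min R (crL G A Exc w - t) +
      eo G (A \ Exc) ((univ \ A) \ Exc)) ∧
      (∑ w ∈ Exc, min R (crL G A Exc w - t) < R →
        2 * R + 2 * dm ≤ ∑ w ∈ Exc, min R (crL G A Exc w - t) +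
          eo G (A \ Exc) ((univ \ A) \ Exc)) := by
    by_cases hE : (Exc.card : ℝ) < 200 / e
    · have hprod : (Exc.card : ℝ) * ((t : ℝ) + Exc.card) + 2 ≤ a1 / 10 := by
        have h1 : (Exc.card : ℝ) * ((t : ℝ) + Exc.card) ≤
            (200 / e) * (a2 / 10000 + 1 + 200 / e) := by
          refine mul_le_mul hE.le (by linarith) (by positivity) (by positivity)
        have h2 : (200 / e) * (a2 / 10000 + 1 + 200 / e) =
            a1 / 50 + 200 / e + 40000 / e ^ 2 := by
          rw [ha1, ha2]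
          field_simp
          ring
        have h3' : 200 / e ≤ a1 / 1000 := by
          rw [div_le_iff₀ he0]
          have : a1 / 1000 * e = a2 / 1000 := by rw [ha1, ha2]; ring
          rw [this]
          linarith
        have h4 : 40000 / e ^ 2 ≤ a1 / 1000 := by
          rw [div_le_iff₀ (by positivity)]
          have : a1 / 1000 * e ^ 2 = a3 / 1000 := by rw [ha1, ha3]; ring
          rw [this]
          linarith
        linarith
      have hA' : 2 * R + 2 * dm + Exc.card * (t + Exc.card) + 2 ≤ A.card := by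
        have : (2 * R + 2 * dm + Exc.card * (t + Exc.card) + 2 : ℝ) ≤ A.card := by
          linarith
        exact_mod_cast this
      have hB' : 2 * R + 2 * dm + Exc.card * (t + Exc.card) + 2 ≤ (univ \ A).card := by
        have : (2 * R + 2 * dm + Exc.card * (t + Exc.card) + 2 : ℝ) ≤ (univ \ A).card := by
          linarith
        exact_mod_cast this
      exact avail G hG A Exc R t dm hR0 hA' hB'
    · push Not at hE
      have hsum : 2 * R ≤ ∑ w ∈ Exc, min R (crL G A Exc w - t) := by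
        have hmin : ∀ w ∈ Exc, min (R : ℝ) (a1 / 200) ≤
            ((min R (crL G A Exc w - t) : ℕ) : ℝ) := by
          intro w hw
          have h1 := hcrt w hw
          have h2 : t ≤ crL G A Exc w := by
            have : (t : ℝ) ≤ (crL G A Exc w : ℝ) := by linarith
            exact_mod_cast this
          rw [Nat.cast_min, Nat.cast_sub h2]
          exact min_le_min le_rfl (by linarith)
        have h1 : (Exc.card : ℝ) * min (R : ℝ) (a1 / 200) ≤
            ∑ w ∈ Exc, ((min R (crL G A Exc w - t) : ℕ) : ℝ) := by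
          rw [← nsmul_eq_mul]
          exact card_nsmul_le_sum _ _ _ hmin
        have h2 : (2 * R : ℝ) ≤ (Exc.card : ℝ) * min (R : ℝ) (a1 / 200) := by
          rcases le_total (R : ℝ) (a1 / 200) with h | h
          · rw [min_eq_left h]
            refine mul_le_mul_of_nonneg_right ?_ (by positivity)
            have : (2 : ℝ) ≤ 200 / e := by
              rw [le_div_iff₀ he0]; linarith
            linarith
          · rw [min_eq_right h]
            have h3' : (200 / e) * (a1 / 200) ≤ (Exc.card : ℝ) * (a1 / 200) :=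
              mul_le_mul_of_nonneg_right hE (by positivity)
            have h4 : (200 / e) * (a1 / 200) = n := by
              rw [ha1]; field_simp
            rw [h4] at h3'
            linarith
        have h3' : (2 * R : ℝ) ≤ ∑ w ∈ Exc, ((min R (crL G A Exc w - t) : ℕ) : ℝ) :=
          h2.trans h1
        exact_mod_cast h3'
      refine ⟨by omega, fun h => ?_⟩
      omega
  refine ⟨Exc, t, dm, ?_, ?_, ?_, ?_, ?_, hav.1, hav.2, ?_, ?_, ?_, ?_, ?_, ?_, hA3, hB3⟩
  · have : (2 * Exc.card + 4 : ℝ) ≤ t := by linarith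
    exact_mod_cast this
  · intro w hw
    have h1 := hBP.own w
    have h2 : (dg G w (sameS A w) : ℝ) ≤ (ownL G A Exc w : ℝ) + Exc.card := by
      exact_mod_cast dg_sdiff_le G w (sameS A w) Exc
    have h3' : (1 / 4 - e ^ 3 / 10 ^ 9) * n = n / 4 - a3 / 10 ^ 9 := by rw [ha3]; ring
    have : (R + t : ℝ) ≤ (ownL G A Exc w : ℝ) := by linarith
    exact_mod_cast this
  · intro w hw
    have h1 := hcrt w hw
    have : (t : ℝ) ≤ (crL G A Exc w : ℝ) := by linarith
    exact_mod_cast this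
  · intro w hw
    have h1 : (dg G w univ : ℝ) ≤ (ownL G A Exc w : ℝ) + crL G A Exc w + Exc.card := by
      exact_mod_cast dg_split2 G w A Exc
    have h2 := hdeg w
    have : (2 * R + 2 * t + 2 : ℝ) ≤ (ownL G A Exc w : ℝ) + crL G A Exc w := by linarith
    exact_mod_cast this
  · intro v hv
    refine Nat.le_floor ?_
    have h1 := hlight v hv
    have h2 : (crL G A Exc v : ℝ) ≤ (dg G v (oppS A v) : ℝ) := by
      exact_mod_cast dg_mono G v sdiff_subset
    linarith
  · intro v hv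
    have hvA := (mem_sdiff.1 hv).1
    have hvE := (mem_sdiff.1 hv).2
    have h1 := hlight v hvE
    have h2 : (dg G v univ : ℝ) ≤ (dg G v (sameS A v) : ℝ) + dg G v (oppS A v) := by
      exact_mod_cast dg_split G v A
    have h3' : (dg G v (sameS A v) : ℝ) ≤ (dg G v (sameS A v \ Exc) : ℝ) + Exc.card := by
      exact_mod_cast dg_sdiff_le G v (sameS A v) Exc
    have h4 : sameS A v = A := by simp [sameS, hvA]
    have h5 := hdeg v
    rw [h4] at h3' h2
    have h6 : (1 - η0) * ((A \ Exc).card : ℝ) =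
        ((A \ Exc).card : ℝ) - η0 * ((A \ Exc).card : ℝ) := by ring
    rw [h6]
    linarith
  · intro v hv
    have hvA : v ∉ A := (mem_sdiff.1 (mem_sdiff.1 hv).1).2
    have hvE := (mem_sdiff.1 hv).2
    have h1 := hlight v hvE
    have h2 : (dg G v univ : ℝ) ≤ (dg G v (sameS A v) : ℝ) + dg G v (oppS A v) := by
      exact_mod_cast dg_split G v A
    have h3' : (dg G v (sameS A v) : ℝ) ≤ (dg G v (sameS A v \ Exc) : ℝ) + Exc.card := by
      exact_mod_cast dg_sdiff_le G v (sameS A v) Exc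
    have h4 : sameS A v = univ \ A := by simp [sameS, hvA]
    have h5 := hdeg v
    rw [h4] at h3' h2
    have h6 : (1 - η0) * (((univ \ A) \ Exc).card : ℝ) =
        (((univ \ A) \ Exc).card : ℝ) - η0 * (((univ \ A) \ Exc).card : ℝ) := by ring
    rw [h6]
    linarith
  · have h6 : (1 - ε / 8) * ((A \ Exc).card : ℝ) =
        ((A \ Exc).card : ℝ) - (ε * ((A \ Exc).card : ℝ)) / 8 := by ring
    rw [h6]
    linarith
  · have h6 : (1 - ε / 8) * (((univ \ A) \ Exc).card : ℝ) =
        (((univ \ A) \ Exc).card : ℝ) - (ε * (((univ \ A) \ Exc).card : ℝ)) / 8 := by ring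
    rw [h6]
    linarith
  · linarith
  · linarith

end Pool.Agent.HCD
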