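import Pool.Agent.Lib.HCD.T10

/-!
# B8: gluing two cyclic lists along two crossing units

PROOF.  After replacing lA by its reverse (mem_cp_reverse) we may assume (a2,a1) ∈ cp lA, and (b1,b2) ∈ cp lB.  `exists_cut`: an open list tA that starts at a1 and
ends at a2 (same cp), and tB that starts at b2 and ends at b1.  l = tA ++ tB; `mem_cp_append`: pairs inside tA, pairs inside tB, (a2,b2), (b1,a1).  `mem_cp_open`: the
pairs inside tA are those of cp lA except (a2,a1) (nodup: (a2,a1) is not inside since a1 is the head of tA); s(p.1,p.2) ≠ s(a1,a2) for the others: (a1,a2) ∉ cp lA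
by `cp_swap` (length ≥ 3).
-/

set_option autoImplicit false

noncomputable section

open scoped Classical
open Finset

namespace Pool.Agent.HCD

private theorem b8_open {V : Type} {t : List V} {x y : V} (hx : t.head? = some x)
    (hy : t.getLast? = some y) (ht : t.Nodup) (h3 : 3 ≤ t.length) (p : V × V) :
    p ∈ t.zip t.tail ↔ p ∈ cp t ∧ s(p.1, p.2) ≠ s(y, x) := by
  have hyx : (y, x) ∈ cp t := (mem_cp_open hx hy _).2 (Or.inr rfl)
  constructor
  · intro h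
    have hc : p ∈ cp t := (mem_cp_open hx hy _).2 (Or.inl h)
    refine ⟨hc, ?_⟩
    intro he
    rcases Sym2.eq_iff.1 he with ⟨h1, h2⟩ | ⟨h1, h2⟩
    · cases t with
      | nil => simp at hx
      | cons a t =>
        simp only [List.head?_cons, Option.some.injEq] at hx
        have h4 := (List.of_mem_zip (a := p.1) (b := p.2) h).2
        rw [h2, ← hx, List.tail_cons] at h4
        exact (List.nodup_cons.1 ht).1 h4
    · have h4 : p = (x, y) := Prod.ext h1 h2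
      rw [h4] at hc
      exact cp_swap ht h3 hyx hc
  · rintro ⟨hc, he⟩
    rcases (mem_cp_open hx hy _).1 hc with h | h
    · exact h
    · exact absurd (by rw [h]) he

private theorem b8_norm1 {V : Type} {l : List V} (hl : l.Nodup) (h3 : 3 ≤ l.length) {x y : V}
    (h : (x, y) ∈ cp l) : ∃ t : List V, t.Nodup ∧ 3 ≤ t.length ∧ (∀ v, v ∈ t ↔ v ∈ l) ∧
      t.head? = some y ∧ t.getLast? = some x ∧ (∀ p, p ∈ cp t ↔ p ∈ cp l) := by
  obtain ⟨t, -, h1, h2, h4, h5, h6⟩ := exists_cut hl h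
  refine ⟨t, h4, ?_, h5, h1, h2, h6⟩
  rw [((List.perm_ext_iff_of_nodup h4 hl).2 h5).length_eq]
  exact h3

private theorem b8_norm {V : Type} {l : List V} (hl : l.Nodup) (h3 : 3 ≤ l.length) {x y : V}
    (h : (x, y) ∈ cp l ∨ (y, x) ∈ cp l) : ∃ t : List V, t.Nodup ∧ 3 ≤ t.length ∧
      (∀ v, v ∈ t ↔ v ∈ l) ∧ t.head? = some y ∧ t.getLast? = some x ∧
      (∀ p ∈ cp t, p ∈ cp l ∨ p.swap ∈ cp l) ∧ (∀ p ∈ cp l, p ∈ cp t ∨ p.swap ∈ cp t) := by
  rcases h with h | h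
  · obtain ⟨t, h1, h2, h4, h5, h6, h7⟩ := b8_norm1 hl h3 h
    exact ⟨t, h1, h2, h4, h5, h6, fun p hp => Or.inl ((h7 p).1 hp),
      fun p hp => Or.inl ((h7 p).2 hp)⟩
  · have h' : (x, y) ∈ cp l.reverse := (mem_cp_reverse l _).2 h
    obtain ⟨t, h1, h2, h4, h5, h6, h7⟩ := b8_norm1 (List.nodup_reverse.2 hl)
      (by rwa [List.length_reverse]) h'
    refine ⟨t, h1, h2, fun v => (h4 v).trans List.mem_reverse, h5, h6, ?_, ?_⟩
    · intro p hp
      exact Or.inr ((mem_cp_reverse l _).1 ((h7 p).1 hp))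
    · intro p hp
      refine Or.inr ((h7 _).2 ((mem_cp_reverse l _).2 ?_))
      rwa [Prod.swap_swap]

theorem combine_one {V : Type} (lA lB : List V) (a1 a2 b1 b2 : V) (hA : lA.Nodup)
    (hB : lB.Nodup) (hA3 : 3 ≤ lA.length) (hB3 : 3 ≤ lB.length) (hAB : ∀ v ∈ lA, v ∉ lB)
    (ha : (a1, a2) ∈ cp lA ∨ (a2, a1) ∈ cp lA) (hb : (b1, b2) ∈ cp lB ∨ (b2, b1) ∈ cp lB) :
    ∃ l : List V, l.Nodup ∧ (∀ v, v ∈ l ↔ v ∈ lA ∨ v ∈ lB) ∧
      (∀ p ∈ cp l, ((p ∈ cp lA ∨ p.swap ∈ cp lA) ∧ s(p.1, p.2) ≠ s(a1, a2)) ∨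
        ((p ∈ cp lB ∨ p.swap ∈ cp lB) ∧ s(p.1, p.2) ≠ s(b1, b2)) ∨
        s(p.1, p.2) = s(a1, b1) ∨ s(p.1, p.2) = s(a2, b2)) ∧
      (∀ p ∈ cp lA, s(p.1, p.2) ≠ s(a1, a2) → p ∈ cp l ∨ p.swap ∈ cp l) ∧
      (∀ p ∈ cp lB, s(p.1, p.2) ≠ s(b1, b2) → p ∈ cp l ∨ p.swap ∈ cp l) ∧
      ((a1, b1) ∈ cp l ∨ (b1, a1) ∈ cp l) ∧ ((a2, b2) ∈ cp l ∨ (b2, a2) ∈ cp l) := by
  obtain ⟨tA, nA, lA3, mA, hdA, lsA, cA, cA'⟩ := b8_norm hA hA3 (x := a2) (y := a1) ha.symm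
  obtain ⟨tB, nB, lB3, mB, hdB, lsB, cB, cB'⟩ := b8_norm hB hB3 (x := b1) (y := b2) hb
  have key := fun p => mem_cp_append hdA lsA hdB lsB p
  have oA := b8_open hdA lsA nA lA3
  have oB := b8_open hdB lsB nB lB3
  refine ⟨tA ++ tB, ?_, ?_, ?_, ?_, ?_, ?_, ?_⟩
  · rw [List.nodup_append]
    refine ⟨nA, nB, ?_⟩
    intro v hv w hw hvw
    subst hvw
    exact hAB v ((mA v).1 hv) ((mB v).1 hw)
  · intro v
    rw [List.mem_append, mA, mB]
  · intro p hp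
    rcases (key p).1 hp with h | h | h | h
    · obtain ⟨h1, h2⟩ := (oA p).1 h
      refine Or.inl ⟨cA p h1, ?_⟩
      rwa [Sym2.eq_swap (a := a1)]
    · obtain ⟨h1, h2⟩ := (oB p).1 h
      exact Or.inr (Or.inl ⟨cB p h1, h2⟩)
    · right; right; right
      rw [h]
    · right; right; left
      rw [h]
      exact Sym2.eq_swap
  · intro p hp hne
    have hne' : s(p.1, p.2) ≠ s(a2, a1) := by rwa [Sym2.eq_swap (a := a2)]
    rcases cA' p hp with h | h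
    · exact Or.inl ((key p).2 (Or.inl ((oA p).2 ⟨h, hne'⟩)))
    · refine Or.inr ((key _).2 (Or.inl ((oA _).2 ⟨h, ?_⟩)))
      rw [Prod.fst_swap, Prod.snd_swap, Sym2.eq_swap]
      exact hne'
  · intro p hp hne
    rcases cB' p hp with h | h
    · exact Or.inl ((key p).2 (Or.inr (Or.inl ((oB p).2 ⟨h, hne⟩))))
    · refine Or.inr ((key _).2 (Or.inr (Or.inl ((oB _).2 ⟨h, ?_⟩))))
      rw [Prod.fst_swap, Prod.snd_swap, Sym2.eq_swap]
      exact hne
  · exact Or.inr ((key _).2 (Or.inr (Or.inr (Or.inr rfl))))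
  · exact Or.inl ((key _).2 (Or.inr (Or.inr (Or.inl rfl))))

end Pool.Agent.HCD
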