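import Pool.Agent.Lib.HCD.Defs

/-!
# T10: toolkit for cyclic lists

PROOFS.  `cp (a :: t) = (a :: t).zip (t ++ [a])`.  Everything by `List.zip`/`getElem` computations or by the description
(a,b) ∈ cp l iff a = l[k], b = l[(k+1) % l.length] for some k < l.length.
`cp_expand`: induction on the list for the open version (list `l ++ [c]` with a last element that is not expanded), then
close up.
-/

set_option autoImplicit false

noncomputable section

open scoped Classical
open Finset

namespace Pool.Agent.HCD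

variable {V : Type}

theorem cp_cons (a : V) (t : List V) : cp (a :: t) = (a :: t).zip (t ++ [a]) := by
  simp [cp, List.rotate_cons_succ]

theorem mem_cp_iff (l : List V) (p : V × V) :
    p ∈ cp l ↔ ∃ k, ∃ h : k < l.length, p.1 = l[k] ∧
      p.2 = l[(k + 1) % l.length]'(Nat.mod_lt _ (by omega)) := by
  unfold cp
  rw [List.mem_iff_getElem]
  constructor
  · rintro ⟨k, hk, h⟩
    have hk' : k < l.length := by
      simp only [List.length_zip, List.length_rotate, min_self] at hk
      exact hk
    refine ⟨k, hk', ?_⟩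
    rw [← h, List.getElem_zip]
    simp [List.getElem_rotate]
  · rintro ⟨k, hk, h1, h2⟩
    refine ⟨k, by simpa using hk, ?_⟩
    rw [List.getElem_zip]
    rw [List.getElem_rotate]
    exact Prod.ext h1.symm h2.symm

theorem mem_of_mem_cp {l : List V} {p : V × V} (h : p ∈ cp l) : p.1 ∈ l ∧ p.2 ∈ l := by
  rw [mem_cp_iff] at h
  obtain ⟨k, hk, h1, h2⟩ := h
  exact ⟨h1 ▸ List.getElem_mem _, h2 ▸ List.getElem_mem _⟩

theorem mod_cases {k n : ℕ} (h : k < n) :
    (k + 1 < n ∧ (k + 1) % n = k + 1) ∨ (k + 1 = n ∧ (k + 1) % n = 0) := by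
  rcases Nat.lt_or_ge (k + 1) n with h1 | h1
  · exact Or.inl ⟨h1, Nat.mod_eq_of_lt h1⟩
  · have : k + 1 = n := by omega
    exact Or.inr ⟨this, by rw [this]; exact Nat.mod_self n⟩

theorem cp_fst {l : List V} (hl : l.Nodup) {p q : V × V} (hp : p ∈ cp l) (hq : q ∈ cp l)
    (h : p.1 = q.1) : p = q := by
  rw [mem_cp_iff] at hp hq
  obtain ⟨k, hk, h1, h2⟩ := hp
  obtain ⟨j, hj, h3, h4⟩ := hq
  rw [h1, h3] at h
  have hkj : k = j := (List.Nodup.getElem_inj_iff hl).1 h
  subst hkj
  exact Prod.ext (h1.trans h3.symm) (h2.trans h4.symm)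

theorem cp_snd {l : List V} (hl : l.Nodup) {p q : V × V} (hp : p ∈ cp l) (hq : q ∈ cp l)
    (h : p.2 = q.2) : p = q := by
  rw [mem_cp_iff] at hp hq
  obtain ⟨k, hk, h1, h2⟩ := hp
  obtain ⟨j, hj, h3, h4⟩ := hq
  rw [h2, h4] at h
  have hkj : (k + 1) % l.length = (j + 1) % l.length := (List.Nodup.getElem_inj_iff hl).1 h
  have hkj' : k = j := by
    rcases mod_cases hk with ⟨a, b⟩ | ⟨a, b⟩ <;> rcases mod_cases hj with ⟨c, d⟩ | ⟨c, d⟩ <;> omega
  subst hkj'
  exact Prod.ext (h1.trans h3.symm) (h2.trans h4.symm)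

theorem exists_cp_fst {l : List V} {a : V} (h : a ∈ l) : ∃ b, (a, b) ∈ cp l := by
  obtain ⟨k, hk, h1⟩ := List.mem_iff_getElem.1 h
  exact ⟨_, (mem_cp_iff l _).2 ⟨k, hk, h1.symm, rfl⟩⟩

theorem exists_cp_snd {l : List V} {a : V} (h : a ∈ l) : ∃ b, (b, a) ∈ cp l := by
  obtain ⟨k, hk, h1⟩ := List.mem_iff_getElem.1 h
  rcases Nat.eq_zero_or_pos k with h0 | h0
  · subst h0
    refine ⟨l[l.length - 1]'(by omega), (mem_cp_iff l _).2 ⟨l.length - 1, by omega, rfl, ?_⟩⟩
    have e : (l.length - 1 + 1) % l.length = 0 := by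
      rw [Nat.sub_add_cancel (by omega), Nat.mod_self]
    simp only [e]
    exact h1.symm
  · refine ⟨l[k - 1]'(by omega), (mem_cp_iff l _).2 ⟨k - 1, by omega, rfl, ?_⟩⟩
    have e : (k - 1 + 1) % l.length = k := by
      rw [Nat.sub_add_cancel (by omega), Nat.mod_eq_of_lt hk]
    simp only [e]
    exact h1.symm

theorem cp_ne {l : List V} (hl : l.Nodup) (h2 : 2 ≤ l.length) {p : V × V} (hp : p ∈ cp l) :
    p.1 ≠ p.2 := by
  rw [mem_cp_iff] at hp
  obtain ⟨k, hk, h3, h4⟩ := hp
  rw [h3, h4]
  intro h
  have hkj : k = (k + 1) % l.length := (List.Nodup.getElem_inj_iff hl).1 h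
  rcases mod_cases hk with ⟨a, b⟩ | ⟨a, b⟩ <;> omega

/-- for at least three members no pair is consecutive in both directions -/
theorem cp_swap {l : List V} (hl : l.Nodup) (h3 : 3 ≤ l.length) {p : V × V} (hp : p ∈ cp l) :
    p.swap ∉ cp l := by
  rw [mem_cp_iff] at hp
  obtain ⟨k, hk, h4, h5⟩ := hp
  intro h
  rw [mem_cp_iff] at h
  obtain ⟨j, hj, h6, h7⟩ := h
  simp only [Prod.fst_swap, Prod.snd_swap] at h6 h7
  rw [h5] at h6
  rw [h4] at h7
  have e1 := (List.Nodup.getElem_inj_iff hl).1 h6
  have e2 := (List.Nodup.getElem_inj_iff hl).1 h7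
  rcases mod_cases hk with ⟨a, b⟩ | ⟨a, b⟩ <;> rcases mod_cases hj with ⟨c, d⟩ | ⟨c, d⟩ <;> omega

theorem mem_cp_rotate (l : List V) (n : ℕ) (p : V × V) : p ∈ cp (l.rotate n) ↔ p ∈ cp l := by
  have : cp (l.rotate n) = (cp l).rotate n := by
    unfold cp
    rw [List.zip_eq_zipWith, List.zip_eq_zipWith, List.zipWith_rotate_distrib _ _ _ _ (by simp),
      List.rotate_rotate, List.rotate_rotate, Nat.add_comm]
  rw [this, List.mem_rotate]

/-- open form: a list that starts at `b` and ends at `a` -/
theorem exists_cut {l : List V} (hl : l.Nodup) {a b : V} (h : (a, b) ∈ cp l) :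
    ∃ t : List V, t ≠ [] ∧ t.head? = some b ∧ t.getLast? = some a ∧ t.Nodup ∧
      (∀ v, v ∈ t ↔ v ∈ l) ∧ (∀ p, p ∈ cp t ↔ p ∈ cp l) := by
  rw [mem_cp_iff] at h
  obtain ⟨k, hk, h1, h2⟩ := h
  simp only at h1 h2
  refine ⟨l.rotate (k + 1), ?_, ?_, ?_, ?_, ?_, ?_⟩
  · intro h0
    rw [List.rotate_eq_nil_iff] at h0
    rw [h0] at hk
    simp at hk
  · rw [List.head?_eq_getElem?, List.getElem?_rotate (by omega), h2, Nat.zero_add,
      List.getElem?_eq_getElem (Nat.mod_lt _ (by omega))]
  · rw [List.getLast?_eq_getElem?, List.length_rotate, List.getElem?_rotate (by omega), h1]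
    have : (l.length - 1 + (k + 1)) % l.length = k := by
      rw [show l.length - 1 + (k + 1) = k + l.length by omega, Nat.add_mod_right,
        Nat.mod_eq_of_lt hk]
    rw [this, List.getElem?_eq_getElem hk]
  · exact List.nodup_rotate.2 hl
  · intro v; exact List.mem_rotate
  · intro p; exact mem_cp_rotate l _ p

theorem mem_zip_snoc (t : List V) : ∀ (a c : V) (p : V × V),
    p ∈ (a :: t).zip (t ++ [c]) ↔ p ∈ (a :: t).zip t ∨
      p = ((a :: t).getLast (List.cons_ne_nil _ _), c) := by
  induction t with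
  | nil => intro a c p; simp
  | cons b t ih =>
    intro a c p
    have := ih b c p
    simp only [List.cons_append, List.zip_cons_cons, List.mem_cons] at this ⊢
    rw [this, List.getLast_cons (List.cons_ne_nil _ _)]
    tauto

/-- consecutive pairs of a cyclic list, from its open form -/
theorem mem_cp_open {l : List V} {a b : V} (ha : l.head? = some a) (hb : l.getLast? = some b)
    (p : V × V) : p ∈ cp l ↔ p ∈ l.zip l.tail ∨ p = (b, a) := by
  cases l with
  | nil => simp at ha
  | cons x t =>
    simp only [List.head?_cons, Option.some.injEq] at ha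
    subst ha
    rw [List.getLast?_eq_getLast_of_ne_nil (List.cons_ne_nil _ _)] at hb
    simp only [Option.some.injEq] at hb
    rw [cp_cons, mem_zip_snoc, hb]
    rfl

theorem mem_zt_append (l : List V) : ∀ (m : List V) {b c : V}
    (_ : l.getLast? = some b) (_ : m.head? = some c) (p : V × V),
    p ∈ (l ++ m).zip (l ++ m).tail ↔ p ∈ l.zip l.tail ∨ p ∈ m.zip m.tail ∨ p = (b, c) := by
  induction l with
  | nil => intro m b c hb; simp at hb
  | cons x t ih =>
    intro m b c hb hc p
    cases t with
    | nil =>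
      simp only [List.getLast?_singleton, Option.some.injEq] at hb
      subst hb
      cases m with
      | nil => simp at hc
      | cons y s =>
        simp only [List.head?_cons, Option.some.injEq] at hc
        subst hc
        simp only [List.cons_append, List.nil_append, List.tail_cons, List.zip_cons_cons,
          List.mem_cons, List.zip_nil_right, List.not_mem_nil, false_or]
        tauto
    | cons y s =>
      have := ih m (b := b) (c := c) (by simpa using hb) hc p
      simp only [List.cons_append, List.tail_cons, List.zip_cons_cons, List.mem_cons] at this ⊢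
      rw [this]
      tauto

theorem mem_zt_reverse (l : List V) : ∀ (p : V × V),
    p ∈ l.reverse.zip l.reverse.tail ↔ p.swap ∈ l.zip l.tail := by
  induction l with
  | nil => intro p; simp
  | cons x t ih =>
    intro p
    cases t with
    | nil => simp
    | cons y s =>
      have h1 : ((y :: s).reverse).getLast? = some y := by simp
      have h2 : ([x] : List V).head? = some x := rfl
      rw [List.reverse_cons, mem_zt_append _ _ h1 h2, ih]
      simp only [List.tail_cons, List.zip_cons_cons, List.mem_cons, List.zip_nil_right,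
        List.not_mem_nil, false_or]
      rw [Prod.ext_iff, Prod.ext_iff]
      simp only [Prod.fst_swap, Prod.snd_swap]
      tauto

theorem mem_cp_reverse (l : List V) (p : V × V) : p ∈ cp l.reverse ↔ p.swap ∈ cp l := by
  cases l with
  | nil => simp [cp]
  | cons x t =>
    obtain ⟨b, hb⟩ : ∃ b, (x :: t).getLast? = some b :=
      ⟨_, List.getLast?_eq_getLast_of_ne_nil (List.cons_ne_nil _ _)⟩
    rw [mem_cp_open (l := x :: t) (List.head?_cons) hb,
      mem_cp_open (l := (x :: t).reverse) (a := b) (b := x) (by rw [List.head?_reverse]; exact hb)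
      (by rw [List.getLast?_reverse]; rfl), mem_zt_reverse]
    rw [Prod.ext_iff, Prod.ext_iff]
    simp only [Prod.fst_swap, Prod.snd_swap]
    tauto

/-- consecutive pairs of a concatenation of two open lists -/
theorem mem_cp_append {l m : List V} {a b c d : V} (ha : l.head? = some a)
    (hb : l.getLast? = some b) (hc : m.head? = some c) (hd : m.getLast? = some d) (p : V × V) :
    p ∈ cp (l ++ m) ↔ p ∈ l.zip l.tail ∨ p ∈ m.zip m.tail ∨ p = (b, c) ∨ p = (d, a) := by
  rw [mem_cp_open (l := l ++ m) (a := a) (b := d) ?_ ?_, mem_zt_append l m hb hc]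
  · tauto
  · rw [List.head?_append, ha]; rfl
  · rw [List.getLast?_append, hd]; rfl

theorem mem_expand (ins : V → List V) (l : List V) (v : V) :
    v ∈ expand ins l ↔ v ∈ l ∨ ∃ a ∈ l, v ∈ ins a := by
  unfold expand
  rw [List.mem_flatMap]
  constructor
  · rintro ⟨a, ha, h⟩
    rcases List.mem_cons.1 h with h | h
    · left; rw [h]; exact ha
    · exact Or.inr ⟨a, ha, h⟩
  · rintro (h | ⟨a, ha, h⟩)
    · exact ⟨v, h, List.mem_cons_self⟩
    · exact ⟨a, ha, List.mem_cons_of_mem _ h⟩

theorem nodup_expand (ins : V → List V) {l : List V} (hl : l.Nodup)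
    (h1 : ∀ a ∈ l, (ins a).Nodup) (h2 : ∀ a ∈ l, ∀ v ∈ ins a, v ∉ l)
    (h3 : ∀ a ∈ l, ∀ b ∈ l, a ≠ b → ∀ v ∈ ins a, v ∉ ins b) : (expand ins l).Nodup := by
  unfold expand
  rw [List.nodup_flatMap]
  constructor
  · intro a ha
    rw [List.nodup_cons]
    exact ⟨fun h => h2 a ha a h ha, h1 a ha⟩
  · rw [List.Nodup] at hl
    refine List.Pairwise.imp_of_mem ?_ hl
    intro a b ha hb hab
    show List.Disjoint (a :: ins a) (b :: ins b)
    intro v hv hv'
    rcases List.mem_cons.1 hv with h | h <;> rcases List.mem_cons.1 hv' with h' | h'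
    · exact hab (h.symm.trans h')
    · subst h; exact h2 b hb v h' ha
    · subst h'; exact h2 a ha v h hb
    · exact h3 a ha b hb hab v h h'

theorem expand_cons (ins : V → List V) (a : V) (t : List V) :
    expand ins (a :: t) = a :: (ins a ++ expand ins t) := by
  simp [expand]

theorem mem_zip_expand (ins : V → List V) (c : V) (p : V × V) (l : List V) :
    p ∈ (expand ins l).zip ((expand ins l).tail ++ [c]) ↔
      ∃ q ∈ l.zip (l.tail ++ [c]), p ∈ (q.1 :: ins q.1).zip (ins q.1 ++ [q.2]) := by
  induction l with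
  | nil => simp [expand]
  | cons a t ih =>
    cases t with
    | nil =>
      rw [expand_cons]
      simp [expand]
    | cons b s =>
      have e1 : expand ins (a :: b :: s) = (a :: ins a) ++ expand ins (b :: s) := by
        rw [expand_cons]; rfl
      have e2 : (expand ins (a :: b :: s)).tail ++ [c] =
          (ins a ++ [b]) ++ ((expand ins (b :: s)).tail ++ [c]) := by
        rw [expand_cons, expand_cons]; simp
      rw [e2, e1, List.zip_append (by simp), List.mem_append, ih]
      simp only [List.tail_cons, List.cons_append, List.zip_cons_cons, List.mem_cons,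
        exists_eq_or_imp]

/-- consecutive pairs of an expanded list -/
theorem mem_cp_expand (ins : V → List V) (l : List V) (p : V × V) :
    p ∈ cp (expand ins l) ↔
      ∃ q ∈ cp l, p ∈ (q.1 :: ins q.1).zip (ins q.1 ++ [q.2]) := by
  cases l with
  | nil => simp [cp, expand]
  | cons a t =>
    have h := mem_zip_expand ins a p (a :: t)
    rw [cp_cons, expand_cons, cp_cons]
    rw [expand_cons] at h
    exact h

end Pool.Agent.HCD
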