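import Pool.Agent.Lib.HCD.Defs2
import Pool.Agent.Lib.HCD.T10

/-!
# B9: putting the exceptional vertices back

PROOF.  l' i = expand (ins i) (l i) with ins i x = [w] if for some w ∈ Exc and y: (x,y) ∈ cp (l i) and ((x,y) = (u i w, v i w) or (y,x) = (u i w, v i w)) (w is unique
by `leaf`: the leaves of different w are different), else [].  Every w ∈ Exc is inserted exactly once (hv: its leaf pair is consecutive in one direction, and
only one by `cp_swap`, 3 ≤ length).  Full: nodup_expand, mem_expand.  cp (mem_cp_expand): pairs (x,w), (w,y) with {x,y} the leaves of w: edges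
s(w,u i w), s(w,v i w); other pairs p ∈ cp (l i): in E i, or a pair of Ns i (up to swap) [a leaf pair gets its w inserted, so it does not survive].
Edge-disjointness for i ≠ j: E i, E j disjoint; edges of E i have no end in Exc; E i against Ns j: hEN; Ns i, Ns j: ndist; the edges at w ∈ Exc: their other ends are light
(uL, vL), so equal edges have the same w and the same leaf: edist.
-/

set_option autoImplicit false

noncomputable section

open scoped Classical
open Finset

namespace Pool.Agent.HCD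

/-- `x` is followed by the other leaf of the cherry at `w` -/
private def B9_P {V : Type} (Exc : Finset V) (u v : V → V) (l : List V) (x w : V) : Prop :=
  w ∈ Exc ∧ ∃ y, (x, y) ∈ cp l ∧ ((x = u w ∧ y = v w) ∨ (x = v w ∧ y = u w))

private def B9_ins {V : Type} (Exc : Finset V) (u v : V → V) (l : List V) (x : V) : List V :=
  if h : ∃ w, B9_P Exc u v l x w then [h.choose] else []

private theorem B9_mem_ins {V : Type} {Exc : Finset V} {u v : V → V} {l : List V}
    (hu : ∀ w ∈ Exc, ∀ w' ∈ Exc, w ≠ w' → u w ≠ u w' ∧ u w ≠ v w' ∧ v w ≠ v w') {x w : V} :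
    w ∈ B9_ins Exc u v l x ↔ B9_P Exc u v l x w := by
  unfold B9_ins
  constructor
  · intro h
    split_ifs at h with h1
    · rw [List.mem_singleton] at h
      rw [h]
      exact h1.choose_spec
    · exact absurd h (List.not_mem_nil)
  · intro h
    have h1 : ∃ w, B9_P Exc u v l x w := ⟨w, h⟩
    rw [dif_pos h1, List.mem_singleton]
    by_contra hne
    obtain ⟨hw', y', -, h2'⟩ := h1.choose_spec
    obtain ⟨hw, y, -, h2⟩ := h
    obtain ⟨e1, e2, e3⟩ := hu w hw _ hw' hne
    obtain ⟨f1, f2, f3⟩ := hu _ hw' w hw (Ne.symm hne)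
    rcases h2 with ⟨a, -⟩ | ⟨a, -⟩ <;> rcases h2' with ⟨b, -⟩ | ⟨b, -⟩
    · exact e1 (a.symm.trans b)
    · exact e2 (a.symm.trans b)
    · exact f2 (b.symm.trans a)
    · exact e3 (a.symm.trans b)

/-- classification of the consecutive pairs of the expanded list -/
private theorem B9_class {V : Type} {Exc : Finset V} {u v : V → V} {l : List V}
    (hl : l.Nodup) {Ns : Finset (V × V)} {E : Set (Sym2 V)}
    (hcp : ∀ p ∈ cp l, s(p.1, p.2) ∈ E ∨ p ∈ Exc.image (fun w => (u w, v w)) ∪ Ns ∨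
      p.swap ∈ Exc.image (fun w => (u w, v w)) ∪ Ns) {p : V × V}
    (hp : p ∈ cp (expand (B9_ins Exc u v l) l)) :
    s(p.1, p.2) ∈ E ∨ (∃ r ∈ Ns, s(p.1, p.2) = s(r.1, r.2)) ∨
      ∃ w ∈ Exc, ∃ x, (x = u w ∨ x = v w) ∧ s(p.1, p.2) = s(w, x) := by
  rw [mem_cp_expand] at hp
  obtain ⟨q, hq, hp⟩ := hp
  by_cases h1 : ∃ w, B9_P Exc u v l q.1 w
  · have hins : B9_ins Exc u v l q.1 = [h1.choose] := by
      unfold B9_ins
      rw [dif_pos h1]
    obtain ⟨hw, y, hy, h2⟩ := h1.choose_spec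
    set w := h1.choose with hwdef
    have hqy : (q.1, y) = q := cp_fst hl hy hq rfl
    have hq2 : q.2 = y := by rw [← hqy]
    rw [hins] at hp
    simp only [List.cons_append, List.nil_append, List.zip_cons_cons, List.zip_nil_right,
      List.mem_cons, List.not_mem_nil, or_false] at hp
    right; right
    refine ⟨w, hw, ?_⟩
    rcases hp with hp | hp
    · refine ⟨q.1, ?_, by rw [hp]; exact Sym2.eq_swap⟩
      rcases h2 with ⟨a, -⟩ | ⟨a, -⟩
      · exact Or.inl a
      · exact Or.inr a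
    · refine ⟨q.2, ?_, by rw [hp]⟩
      rw [hq2]
      rcases h2 with ⟨-, a⟩ | ⟨-, a⟩
      · exact Or.inr a
      · exact Or.inl a
  · have hins : B9_ins Exc u v l q.1 = [] := by
      unfold B9_ins
      rw [dif_neg h1]
    rw [hins] at hp
    simp only [List.nil_append, List.zip_cons_cons, List.zip_nil_right,
      List.mem_cons, List.not_mem_nil, or_false] at hp
    have hpq : p = q := by rw [hp]
    subst hpq
    rcases hcp p hq with h | h | h
    · exact Or.inl h
    · rcases Finset.mem_union.1 h with h | h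
      · exfalso
        obtain ⟨w, hw, he⟩ := Finset.mem_image.1 h
        apply h1
        refine ⟨w, hw, p.2, hq, Or.inl ⟨?_, ?_⟩⟩
        · rw [← he]
        · rw [← he]
      · exact Or.inr (Or.inl ⟨p, h, rfl⟩)
    · rcases Finset.mem_union.1 h with h | h
      · exfalso
        obtain ⟨w, hw, he⟩ := Finset.mem_image.1 h
        apply h1
        refine ⟨w, hw, p.2, hq, Or.inr ⟨?_, ?_⟩⟩
        · exact (congrArg Prod.snd he).symm
        · exact (congrArg Prod.fst he).symm
      · exact Or.inr (Or.inl ⟨p.swap, h, Sym2.eq_swap⟩)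

theorem reinsert {V : Type} [Fintype V] (G : SimpleGraph V) (Exc : Finset V) {R : ℕ}
    (u v : Fin R → V → V) (Ns : Fin R → Finset (V × V)) (hJ : JS G Exc u v Ns)
    (h3 : 3 ≤ (univ \ Exc).card) (l : Fin R → List V) (E : Fin R → Set (Sym2 V))
    (hl : ∀ i, (l i).Nodup ∧ ∀ x, x ∈ l i ↔ x ∉ Exc)
    (hE : ∀ i, ∀ e ∈ E i, e ∈ G.edgeSet ∧ ∀ x ∈ e, x ∉ Exc)
    (hEd : ∀ i j, i ≠ j → Disjoint (E i) (E j))
    (hEN : ∀ i j, ∀ p ∈ Ns j, s(p.1, p.2) ∉ E i)
    (hcp : ∀ i, ∀ p ∈ cp (l i), s(p.1, p.2) ∈ E i ∨ p ∈ jv Exc u v Ns i ∨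
      p.swap ∈ jv Exc u v Ns i)
    (hv : ∀ i, ∀ p ∈ jv Exc u v Ns i, p ∈ cp (l i) ∨ p.swap ∈ cp (l i)) : Pack G R := by
  have hlen : ∀ i, 3 ≤ (l i).length := by
    intro i
    have h1 : (l i).toFinset = univ \ Exc := by
      ext x
      rw [List.mem_toFinset, (hl i).2 x, Finset.mem_sdiff]
      simp
    have h2 := List.toFinset_card_of_nodup (hl i).1
    rw [h1] at h2
    omega
  have hcl : ∀ i, ∀ p ∈ cp (expand (B9_ins Exc (u i) (v i) (l i)) (l i)),
      s(p.1, p.2) ∈ E i ∨ (∃ r ∈ Ns i, s(p.1, p.2) = s(r.1, r.2)) ∨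
      ∃ w ∈ Exc, ∃ x, (x = u i w ∨ x = v i w) ∧ s(p.1, p.2) = s(w, x) :=
    fun i p hp => B9_class (hl i).1 (hcp i) hp
  have hxL : ∀ i, ∀ w ∈ Exc, ∀ x, (x = u i w ∨ x = v i w) → x ∉ Exc := by
    intro i w hw x hx
    rcases hx with rfl | rfl
    · exact hJ.uL i w hw
    · exact hJ.vL i w hw
  refine ⟨fun i => expand (B9_ins Exc (u i) (v i) (l i)) (l i), fun i => ⟨?_, fun x => ?_⟩, ?_, ?_⟩
  · refine nodup_expand _ (hl i).1 ?_ ?_ ?_
    · intro a _
      unfold B9_ins
      split_ifs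
      · exact List.nodup_singleton _
      · exact List.nodup_nil
    · intro a _ w hw
      rw [B9_mem_ins (hJ.leaf i)] at hw
      rw [(hl i).2]
      exact fun h => h hw.1
    · intro a _ b _ hab w hw hw'
      rw [B9_mem_ins (hJ.leaf i)] at hw hw'
      obtain ⟨_, y, hy, h2⟩ := hw
      obtain ⟨_, y', hy', h2'⟩ := hw'
      have hcs := cp_swap (hl i).1 (hlen i) hy
      rcases h2 with ⟨a1, a2⟩ | ⟨a1, a2⟩ <;> rcases h2' with ⟨b1, b2⟩ | ⟨b1, b2⟩
      · exact hab (a1.trans b1.symm)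
      · apply hcs
        rw [a2, a1, Prod.swap_prod_mk]
        rw [b1, b2] at hy'
        exact hy'
      · apply hcs
        rw [a2, a1, Prod.swap_prod_mk]
        rw [b1, b2] at hy'
        exact hy'
      · exact hab (a1.trans b1.symm)
  · rw [mem_expand]
    by_cases hx : x ∈ Exc
    · right
      have h1 : (u i x, v i x) ∈ jv Exc u v Ns i :=
        Finset.mem_union_left _ (Finset.mem_image.2 ⟨x, hx, rfl⟩)
      rcases hv i _ h1 with h | h
      · refine ⟨u i x, (mem_of_mem_cp h).1, ?_⟩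
        rw [B9_mem_ins (hJ.leaf i)]
        exact ⟨hx, v i x, h, Or.inl ⟨rfl, rfl⟩⟩
      · refine ⟨v i x, (mem_of_mem_cp h).1, ?_⟩
        rw [B9_mem_ins (hJ.leaf i)]
        exact ⟨hx, u i x, h, Or.inr ⟨rfl, rfl⟩⟩
    · left
      rw [(hl i).2]
      exact hx
  · intro i p hp
    rw [← SimpleGraph.mem_edgeSet]
    rcases hcl i p hp with h | ⟨r, hr, h⟩ | ⟨w, hw, x, hx, h⟩
    · exact (hE i _ h).1
    · rw [h, SimpleGraph.mem_edgeSet]
      exact hJ.nadj i r hr
    · rw [h, SimpleGraph.mem_edgeSet]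
      rcases hx with rfl | rfl
      · exact hJ.uadj i w hw
      · exact hJ.vadj i w hw
  · have key : ∀ i j, i ≠ j → ∀ p ∈ cp (expand (B9_ins Exc (u i) (v i) (l i)) (l i)),
        ∀ q ∈ cp (expand (B9_ins Exc (u j) (v j) (l j)) (l j)), s(p.1, p.2) ≠ s(q.1, q.2) := by
      intro i j hij p hp q hq heq
      rcases hcl i p hp with h | ⟨r, hr, h⟩ | ⟨w, hw, x, hx, h⟩ <;>
        rcases hcl j q hq with h' | ⟨r', hr', h'⟩ | ⟨w', hw', x', hx', h'⟩
      · rw [heq] at h
        exact Set.disjoint_left.1 (hEd i j hij) h h'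
      · rw [heq, h'] at h
        exact hEN i j r' hr' h
      · rw [heq, h'] at h
        exact (hE i _ h).2 w' (Sym2.mem_mk_left _ _) hw'
      · rw [← heq, h] at h'
        exact hEN j i r hr h'
      · exact hJ.ndist i j hij r hr r' hr' (h.symm.trans (heq.trans h'))
      · have h1 : s(r.1, r.2) = s(w', x') := h.symm.trans (heq.trans h')
        have h2 : w' ∈ s(r.1, r.2) := by rw [h1]; exact Sym2.mem_mk_left _ _
        rw [Sym2.mem_iff] at h2
        rcases h2 with h2 | h2
        · exact (hJ.nL i r hr).1 (h2 ▸ hw')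
        · exact (hJ.nL i r hr).2 (h2 ▸ hw')
      · rw [← heq, h] at h'
        exact (hE j _ h').2 w (Sym2.mem_mk_left _ _) hw
      · have h1 : s(r'.1, r'.2) = s(w, x) := h'.symm.trans (heq.symm.trans h)
        have h2 : w ∈ s(r'.1, r'.2) := by rw [h1]; exact Sym2.mem_mk_left _ _
        rw [Sym2.mem_iff] at h2
        rcases h2 with h2 | h2
        · exact (hJ.nL j r' hr').1 (h2 ▸ hw)
        · exact (hJ.nL j r' hr').2 (h2 ▸ hw)
      · have h1 : s(w, x) = s(w', x') := h.symm.trans (heq.trans h')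
        rw [Sym2.eq_iff] at h1
        rcases h1 with ⟨rfl, rfl⟩ | ⟨h2, -⟩
        · obtain ⟨e1, e2, e3⟩ := hJ.edist i j hij w hw
          obtain ⟨f1, f2, f3⟩ := hJ.edist j i hij.symm w hw
          rcases hx with a | a <;> rcases hx' with b | b
          · exact e1 (a.symm.trans b)
          · exact e2 (a.symm.trans b)
          · exact f2 (b.symm.trans a)
          · exact e3 (a.symm.trans b)
        · exact hxL j w' hw' x' hx' (h2 ▸ hw)
    exact key

end Pool.Agent.HCD
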