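import Pool.Agent.Lib.HCD.B2
import Pool.Agent.Lib.HCD.B8
import Pool.Agent.Lib.HCD.B9

/-!
# B10b: case B, gluing: from cyclic lists of the two light sides to Hamilton cycles

PROOF.  From hA: lists lA i of A' = A \ Exc and edge sets EA i (shrink EA i to the edges s(p.1,p.2), p ∈ cp (lA i), that are in EA i: then they are edges of G with both ends in
A'); lB i, EB i similarly.  `combine_one` for every i with a1 i, a2 i, b1 i, b2 i ((a1,a2) ∈ vA i is consecutive in lA i up to direction).  l i = the glued list: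
members = all light vertices.  E i = EA i ∪ EB i.  Apply `reinsert`.
hcp: a pair of cp (l i) from lA with s ≠ s(a1,a2): in EA i or (up to swap) in vA i, and then not the pair (a1,a2), so in jv i; the new pairs s(a1,b1), s(a2,b2) are
in jv i up to swap (m1, m2).  hv: p ∈ jv i: by `pure` both ends in A: p ∈ vA i, consecutive in lA i, and s(p.1,p.2) ≠ s(a1,a2) because a1 is an end of the mixed
pair and jv i is a matching (jv_mat) → consecutive in l i; both ends outside A: same; mixed: one of the two new pairs.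
hEd: EA i, EA j disjoint; EA i, EB j have ends on different sides.  hEN: the pairs of Ns j have ends on both sides (ncross).
-/

set_option autoImplicit false

noncomputable section

open scoped Classical
open Finset

namespace Pool.Agent.HCD

/-- virtual pairs on the side `A` -/
def vA {V : Type} [Fintype V] {R : ℕ} (A Exc : Finset V) (u v : Fin R → V → V)
    (Ns : Fin R → Finset (V × V)) (a1 a2 : Fin R → V) (i : Fin R) : Finset (V × V) :=
  (jv Exc u v Ns i).filter (fun p => p.1 ∈ A ∧ p.2 ∈ A) ∪ {(a1 i, a2 i)}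

private lemma sym_of' {V : Type} {c x : V × V} (h : c = x ∨ c = x.swap) :
    s(c.1, c.2) = s(x.1, x.2) := by
  rcases h with rfl | rfl
  · rfl
  · exact Sym2.eq_swap

private lemma of_sym' {V : Type} {c : V × V} {a b : V} (h : s(c.1, c.2) = s(a, b)) :
    c = (a, b) ∨ c = (b, a) := by
  rw [Sym2.eq_iff] at h
  rcases h with ⟨h1, h2⟩ | ⟨h1, h2⟩
  · exact Or.inl (Prod.ext h1 h2)
  · exact Or.inr (Prod.ext h1 h2)

private lemma not_s {V : Type} {M : Finset (V × V)} (hM : IsMat M) {a b c : V}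
    (hm : (a, b) ∈ M ∨ (b, a) ∈ M) {p : V × V} (hp : p ∈ M) (h1 : p.1 ≠ b) (h2 : p.2 ≠ b) :
    s(p.1, p.2) ≠ s(a, c) := by
  intro h
  rcases of_sym' h with e | e
  · have e1 : p.1 = a := by rw [e]
    rcases hm with hm | hm
    · have := hM.fst p hp _ hm e1
      exact h2 (by rw [this])
    · exact hM.mix p hp _ hm e1
  · have e1 : p.2 = a := by rw [e]
    rcases hm with hm | hm
    · exact hM.mix _ hm p hp e1.symm
    · have := hM.snd p hp _ hm e1
      exact h1 (by rw [this])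

private lemma len_of {V : Type} {l : List V} {W : Finset V} (h : l.Nodup ∧ ∀ v, v ∈ l ↔ v ∈ W) :
    l.length = W.card := by
  rw [← List.toFinset_card_of_nodup h.1]
  congr 1
  ext v
  rw [List.mem_toFinset, h.2]

/-- the edges of one side that are really used -/
private def shr {V : Type} (l : List V) (E : Set (Sym2 V)) : Set (Sym2 V) :=
  {e | e ∈ E ∧ ∃ p ∈ cp l, e = s(p.1, p.2)}

private lemma shr_mem {V : Type} {l : List V} {W : Finset V} (h : ∀ v, v ∈ l ↔ v ∈ W)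
    {E : Set (Sym2 V)} {e : Sym2 V} (he : e ∈ shr l E) : ∀ x ∈ e, x ∈ W := by
  obtain ⟨_, p, hp, rfl⟩ := he
  intro x hx
  have hm := mem_of_mem_cp hp
  rw [Sym2.mem_iff] at hx
  rcases hx with rfl | rfl
  · exact (h _).1 hm.1
  · exact (h _).1 hm.2

private lemma side_cp {V : Type} [Fintype V] {R : ℕ} {A Exc : Finset V} {u v : Fin R → V → V}
    {Ns : Fin R → Finset (V × V)} {a1 a2 : Fin R → V} {i : Fin R} {l : List V}
    {E : Set (Sym2 V)}
    (h : ∀ p ∈ cp l, s(p.1, p.2) ∈ E ∨ p ∈ vA A Exc u v Ns a1 a2 i ∨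
      p.swap ∈ vA A Exc u v Ns a1 a2 i) {p : V × V} (hp : p ∈ cp l ∨ p.swap ∈ cp l)
    (hne : s(p.1, p.2) ≠ s(a1 i, a2 i)) :
    s(p.1, p.2) ∈ shr l E ∨ p ∈ jv Exc u v Ns i ∨ p.swap ∈ jv Exc u v Ns i := by
  have hv : ∀ c, c ∈ vA A Exc u v Ns a1 a2 i → s(c.1, c.2) ≠ s(a1 i, a2 i) →
      c ∈ jv Exc u v Ns i := by
    intro c hc hcn
    unfold vA at hc
    rw [mem_union, mem_filter, mem_singleton] at hc
    rcases hc with hc | hc
    · exact hc.1
    · exact absurd (by rw [hc]) hcn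
  have key : ∀ c, c ∈ cp l → s(c.1, c.2) ≠ s(a1 i, a2 i) →
      s(c.1, c.2) ∈ shr l E ∨ c ∈ jv Exc u v Ns i ∨ c.swap ∈ jv Exc u v Ns i := by
    intro c hc hcn
    rcases h c hc with h1 | h1 | h1
    · exact Or.inl ⟨h1, c, hc, rfl⟩
    · exact Or.inr (Or.inl (hv c h1 hcn))
    · refine Or.inr (Or.inr (hv _ h1 ?_))
      rw [sym_of' (Or.inr rfl)]
      exact hcn
  rcases hp with hp | hp
  · exact key p hp hne
  · have e : s(p.swap.1, p.swap.2) = s(p.1, p.2) := sym_of' (Or.inr rfl)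
    rcases key p.swap hp (by rw [e]; exact hne) with h1 | h1 | h1
    · rw [e] at h1
      exact Or.inl h1
    · exact Or.inr (Or.inr h1)
    · rw [Prod.swap_swap] at h1
      exact Or.inr (Or.inl h1)

theorem glueB {V : Type} [Fintype V] (G : SimpleGraph V) (A Exc : Finset V) {R : ℕ}
    (u v : Fin R → V → V) (Ns : Fin R → Finset (V × V)) (a1 a2 b1 b2 : Fin R → V)
    (hJ : BJ G A Exc u v Ns a1 a2 b1 b2) (hA3 : 3 ≤ (A \ Exc).card)
    (hB3 : 3 ≤ ((univ \ A) \ Exc).card)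
    (hA : HasCycOn G (A \ Exc) (vA A Exc u v Ns a1 a2))
    (hB : HasCycOn G ((univ \ A) \ Exc) (vA (univ \ A) Exc u v Ns b1 b2)) : Pack G R := by
  obtain ⟨lA, EA, hA1, hA2, hA3', hA4, hA5⟩ := hA
  obtain ⟨lB, EB, hB1, hB2, hB3', hB4, hB5⟩ := hB
  have hex : ∀ i : Fin R, ∃ l : List V, l.Nodup ∧ (∀ v, v ∈ l ↔ v ∈ lA i ∨ v ∈ lB i) ∧
      (∀ p ∈ cp l, ((p ∈ cp (lA i) ∨ p.swap ∈ cp (lA i)) ∧ s(p.1, p.2) ≠ s(a1 i, a2 i)) ∨
        ((p ∈ cp (lB i) ∨ p.swap ∈ cp (lB i)) ∧ s(p.1, p.2) ≠ s(b1 i, b2 i)) ∨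
        s(p.1, p.2) = s(a1 i, b1 i) ∨ s(p.1, p.2) = s(a2 i, b2 i)) ∧
      (∀ p ∈ cp (lA i), s(p.1, p.2) ≠ s(a1 i, a2 i) → p ∈ cp l ∨ p.swap ∈ cp l) ∧
      (∀ p ∈ cp (lB i), s(p.1, p.2) ≠ s(b1 i, b2 i) → p ∈ cp l ∨ p.swap ∈ cp l) ∧
      ((a1 i, b1 i) ∈ cp l ∨ (b1 i, a1 i) ∈ cp l) ∧
      ((a2 i, b2 i) ∈ cp l ∨ (b2 i, a2 i) ∈ cp l) := by
    intro i
    refine combine_one (lA i) (lB i) (a1 i) (a2 i) (b1 i) (b2 i) (hA1 i).1 (hB1 i).1 ?_ ?_ ?_ ?_ ?_
    · rw [len_of (hA1 i)]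
      exact hA3
    · rw [len_of (hB1 i)]
      exact hB3
    · intro v hv hv'
      have h1 := ((hA1 i).2 v).1 hv
      have h2 := ((hB1 i).2 v).1 hv'
      simp only [mem_sdiff, mem_univ, true_and] at h1 h2
      exact h2.1 h1.1
    · exact hA5 i (a1 i, a2 i) (mem_union_right _ (mem_singleton_self _))
    · exact hB5 i (b1 i, b2 i) (mem_union_right _ (mem_singleton_self _))
  choose l h1 h2 h3 h4 h5 h6 h7 using hex
  have hmA : ∀ i, ∀ e ∈ shr (lA i) (EA i), ∀ x ∈ e, x ∈ A \ Exc := fun i e he =>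
    shr_mem (hA1 i).2 he
  have hmB : ∀ i, ∀ e ∈ shr (lB i) (EB i), ∀ x ∈ e, x ∈ (univ \ A) \ Exc := fun i e he =>
    shr_mem (hB1 i).2 he
  have hAB : ∀ i j, ∀ e ∈ shr (lA i) (EA i), e ∉ shr (lB j) (EB j) := by
    intro i j e he he'
    obtain ⟨_, p, hp, hpe⟩ := he
    have hx : p.1 ∈ e := by
      rw [hpe]
      exact Sym2.mem_mk_left _ _
    have e1 := hmA i e ⟨‹_›, p, hp, hpe⟩ _ hx
    have e2 := hmB j e he' _ hx
    simp only [mem_sdiff, mem_univ, true_and] at e1 e2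
    exact e2.1 e1.1
  refine reinsert G Exc u v Ns hJ.js ?_ l (fun i => shr (lA i) (EA i) ∪ shr (lB i) (EB i))
    ?_ ?_ ?_ ?_ ?_ ?_
  · refine hA3.trans (card_le_card ?_)
    intro x hx
    rw [mem_sdiff] at hx ⊢
    exact ⟨mem_univ _, hx.2⟩
  · intro i
    refine ⟨h1 i, fun x => ?_⟩
    rw [h2, (hA1 i).2, (hB1 i).2]
    simp only [mem_sdiff, mem_univ, true_and]
    tauto
  · intro i e he
    rcases he with he | he
    · exact ⟨hA2 i e he.1, fun x hx => (mem_sdiff.1 (hmA i e he x hx)).2⟩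
    · exact ⟨hB2 i e he.1, fun x hx => (mem_sdiff.1 (hmB i e he x hx)).2⟩
  · intro i j hij
    rw [Set.disjoint_left]
    intro e he he'
    rcases he with he | he <;> rcases he' with he' | he'
    · exact (Set.disjoint_left.1 (hA3' i j hij)) he.1 he'.1
    · exact hAB i j e he he'
    · exact hAB j i e he' he
    · exact (Set.disjoint_left.1 (hB3' i j hij)) he.1 he'.1
  · intro i j p hp he
    obtain ⟨e1, e2⟩ := hJ.ncross j p hp
    rcases he with he | he
    · have := hmA i _ he p.2 (Sym2.mem_mk_right _ _)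
      exact e2 (mem_sdiff.1 this).1
    · have := hmB i _ he p.1 (Sym2.mem_mk_left _ _)
      exact (mem_sdiff.1 (mem_sdiff.1 this).1).2 e1
  · intro i p hp
    have hmix : ∀ a b : V, ((a, b) ∈ jv Exc u v Ns i ∨ (b, a) ∈ jv Exc u v Ns i) →
        s(p.1, p.2) = s(a, b) → p ∈ jv Exc u v Ns i ∨ p.swap ∈ jv Exc u v Ns i := by
      intro a b hab he
      rcases of_sym' he with e | e <;> rcases hab with h | h
      · exact Or.inl (by rw [e]; exact h)
      · exact Or.inr (by rw [e]; exact h)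
      · exact Or.inr (by rw [e]; exact h)
      · exact Or.inl (by rw [e]; exact h)
    rcases h3 i p hp with ⟨ha, hb⟩ | ⟨ha, hb⟩ | ha | ha
    · rcases side_cp (hA4 i) ha hb with h | h
      · exact Or.inl (Or.inl h)
      · exact Or.inr h
    · rcases side_cp (hB4 i) ha hb with h | h
      · exact Or.inl (Or.inr h)
      · exact Or.inr h
    · exact Or.inr (hmix _ _ (hJ.m1 i) ha)
    · exact Or.inr (hmix _ _ (hJ.m2 i) ha)
  · intro i p hp
    obtain ⟨hm1, hm2, hm3, hm4⟩ := hJ.mem i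
    simp only [mem_sdiff, mem_univ, true_and] at hm1 hm2 hm3 hm4
    have hmix : ∀ a b : V, ((a, b) ∈ cp (l i) ∨ (b, a) ∈ cp (l i)) →
        s(p.1, p.2) = s(a, b) → p ∈ cp (l i) ∨ p.swap ∈ cp (l i) := by
      intro a b hab he
      rcases of_sym' he with e | e <;> rcases hab with h | h
      · exact Or.inl (by rw [e]; exact h)
      · exact Or.inr (by rw [e]; exact h)
      · exact Or.inr (by rw [e]; exact h)
      · exact Or.inl (by rw [e]; exact h)
    rcases hJ.pure i p hp with ⟨ha, hb⟩ | ⟨ha, hb⟩ | ha | ha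
    · have hne : s(p.1, p.2) ≠ s(a1 i, a2 i) :=
        not_s (jv_mat hJ.js i) (hJ.m1 i) hp (fun h => hm3.1 (h ▸ ha)) (fun h => hm3.1 (h ▸ hb))
      rcases hA5 i p (mem_union_left _ (mem_filter.2 ⟨hp, ha, hb⟩)) with h | h
      · exact h4 i p h hne
      · have := h4 i p.swap h (by rw [sym_of' (Or.inr rfl)]; exact hne)
        rw [Prod.swap_swap] at this
        exact this.symm
    · have hm1' : (b1 i, a1 i) ∈ jv Exc u v Ns i ∨ (a1 i, b1 i) ∈ jv Exc u v Ns i :=
        (hJ.m1 i).symm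
      have hne : s(p.1, p.2) ≠ s(b1 i, b2 i) :=
        not_s (jv_mat hJ.js i) hm1' hp (fun h => ha (h ▸ hm1.1)) (fun h => hb (h ▸ hm1.1))
      rcases hB5 i p (mem_union_left _ (mem_filter.2 ⟨hp, by simp [ha], by simp [hb]⟩)) with h | h
      · exact h5 i p h hne
      · have := h5 i p.swap h (by rw [sym_of' (Or.inr rfl)]; exact hne)
        rw [Prod.swap_swap] at this
        exact this.symm
    · exact hmix _ _ (h6 i) ha
    · exact hmix _ _ (h7 i) ha

end Pool.Agent.HCD
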