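import Pool.Agent.Lib.HCD.T10

/-!
# G10a: transport from a subtype

PROOF.  G' = G.comap Subtype.val on {v // v ∈ W}, virt' i = the pairs of virt i lifted to the subtype (e.g. univ.filter (fun p => (p.1.1, p.2.1) ∈ virt i)).
From HasCyc G' virt' take l', E'; l i = (l' i).map Subtype.val, E i = Sym2.map Subtype.val '' E' i.  `cp (l.map f) = (cp l).map (Prod.map f f)`.
-/

set_option autoImplicit false

noncomputable section

open scoped Classical
open Finset

namespace Pool.Agent.HCD

/-- pairs of the subtype lying over `E` -/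
def liftP {V : Type} [Fintype V] (W : Finset V) (E : Finset (V × V)) :
    Finset ({v // v ∈ W} × {v // v ∈ W}) :=
  univ.filter (fun p => (p.1.1, p.2.1) ∈ E)

private theorem g10a_mem_vs {V : Type} (E : Finset (V × V)) (v : V) :
    v ∈ vs E ↔ (∃ p ∈ E, p.1 = v) ∨ (∃ p ∈ E, p.2 = v) := by
  unfold vs
  rw [mem_union, mem_image, mem_image]

theorem hasCycOn_of_sub {V : Type} [Fintype V] {N : ℕ} (G : SimpleGraph V) (W : Finset V)
    (virt : Fin N → Finset (V × V)) (hv : ∀ i, vs (virt i) ⊆ W)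
    (h : HasCyc (G.comap (Subtype.val : {v // v ∈ W} → V)) (fun i => liftP W (virt i))) :
    HasCycOn G W virt := by
  obtain ⟨l', E', h1, h2, h3, h4, h5⟩ := h
  have hcp : ∀ i, cp ((l' i).map Subtype.val) = (cp (l' i)).map (Prod.map Subtype.val Subtype.val) := by
    intro i
    unfold cp
    rw [← List.map_rotate, List.zip_map]
  refine ⟨fun i => (l' i).map Subtype.val, fun i => Sym2.map Subtype.val '' E' i, ?_, ?_, ?_, ?_, ?_⟩
  · intro i
    refine ⟨(h1 i).1.map Subtype.val_injective, fun v => ?_⟩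
    rw [List.mem_map]
    constructor
    · rintro ⟨w, -, rfl⟩
      exact w.2
    · intro hw
      exact ⟨⟨v, hw⟩, (h1 i).2 _, rfl⟩
  · rintro i _ ⟨e, he, rfl⟩
    have := h2 i e he
    induction e using Sym2.ind with
    | _ x y =>
      rw [Sym2.map_mk]
      exact this
  · intro i j hij
    rw [Set.disjoint_iff_inter_eq_empty, ← Set.image_inter (Sym2.map.injective Subtype.val_injective),
      Set.disjoint_iff_inter_eq_empty.1 (h3 i j hij), Set.image_empty]
  · intro i p hp
    simp only [hcp, List.mem_map] at hp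
    obtain ⟨q, hq, rfl⟩ := hp
    rcases h4 i q hq with h6 | h6 | h6
    · left
      exact ⟨_, h6, rfl⟩
    · right; left
      exact (mem_filter.1 h6).2
    · right; right
      exact (mem_filter.1 h6).2
  · intro i p hp
    have hw1 : p.1 ∈ W := hv i (mem_union_left _ (mem_image_of_mem _ hp))
    have hw2 : p.2 ∈ W := hv i (mem_union_right _ (mem_image_of_mem _ hp))
    have hm : ((⟨p.1, hw1⟩, ⟨p.2, hw2⟩) : {v // v ∈ W} × {v // v ∈ W}) ∈ liftP W (virt i) :=
      mem_filter.2 ⟨mem_univ _, hp⟩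
    simp only [hcp, List.mem_map]
    rcases h5 i _ hm with h6 | h6
    · left
      exact ⟨_, h6, rfl⟩
    · right
      exact ⟨_, h6, rfl⟩

theorem isMat_liftP {V : Type} [Fintype V] (W : Finset V) (E : Finset (V × V)) (h : IsMat E) :
    IsMat (liftP W E) := by
  have key : ∀ p ∈ liftP W E, (p.1.1, p.2.1) ∈ E := fun p hp => (mem_filter.1 hp).2
  refine ⟨?_, ?_, ?_, ?_⟩
  · intro p hp h0
    exact h.ne _ (key p hp) (congrArg Subtype.val h0)
  · intro p hp q hq h0
    have h1 := h.fst _ (key p hp) _ (key q hq) (congrArg Subtype.val h0)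
    exact Prod.ext h0 (Subtype.ext (congrArg Prod.snd h1))
  · intro p hp q hq h0
    have h1 := h.snd _ (key p hp) _ (key q hq) (congrArg Subtype.val h0)
    exact Prod.ext (Subtype.ext (congrArg Prod.fst h1)) h0
  · intro p hp q hq h0
    exact h.mix _ (key p hp) _ (key q hq) (congrArg Subtype.val h0)

theorem vs_liftP_card {V : Type} [Fintype V] (W : Finset V) (E : Finset (V × V)) :
    (vs (liftP W E)).card ≤ (vs E).card := by
  refine card_le_card_of_injOn (fun w => w.1) ?_ (fun x _ y _ hxy => Subtype.ext hxy)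
  intro w h
  have h := (g10a_mem_vs _ _).1 (mem_coe.1 h)
  refine mem_coe.2 ((g10a_mem_vs _ _).2 ?_)
  rcases h with ⟨p, hp, rfl⟩ | ⟨p, hp, rfl⟩
  · exact Or.inl ⟨_, (mem_filter.1 hp).2, rfl⟩
  · exact Or.inr ⟨_, (mem_filter.1 hp).2, rfl⟩

theorem mem_vs_liftP {V : Type} [Fintype V] (W : Finset V) (E : Finset (V × V))
    (w : {v // v ∈ W}) (h : w ∈ vs (liftP W E)) : w.1 ∈ vs E := by
  refine (g10a_mem_vs _ _).2 ?_
  rcases (g10a_mem_vs _ _).1 h with ⟨p, hp, rfl⟩ | ⟨p, hp, rfl⟩
  · exact Or.inl ⟨_, (mem_filter.1 hp).2, rfl⟩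
  · exact Or.inr ⟨_, (mem_filter.1 hp).2, rfl⟩

end Pool.Agent.HCD

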