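import Pool.Agent.Lib.HCD.G9
import Pool.Agent.Lib.HCD.G10a

/-!
# G10b: near complete graphs (general mode)

PROOF.  `GT_gen` with γ0 = 1/4 for the subtype {v // v ∈ W}, the graph G.comap val, y u v = 1 - 2α on edges, 0 else, D = (1-2α) |W|.  η0 =
min (η of GT_gen) (1/20).  Degrees: (1-η0) D ≤ (1-2α) dg G v W ≤ D (dg ≤ |W|).  |W| ≤ 10 D as 1 - 2α ≥ 3/4.  (E): for x ≠ z the number of pairs (q,q') with
x~q, z~q', q~q', q ≠ z, q' ≠ x is at least |W|^2 - 3 η0 |W|^2 - (few)|W| ≥ |W|^2/3 ·.. (for q: at most η0|W| non-neighbours of x and at most η0|W|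
non-neighbours q' of z, of q), times 1 - 2α ≥ 3/4: ≥ |W|^2/4 for |W| large.
-/

set_option autoImplicit false

noncomputable section

open scoped Classical
open Finset

namespace Pool.Agent.HCD

private theorem g10b_card {V : Type} [Fintype V] (G : SimpleGraph V) (W : Finset V)
    (G' : SimpleGraph {v // v ∈ W}) (hG : ∀ u v, G'.Adj u v ↔ G.Adj u.1 v.1)
    (v : {v // v ∈ W}) :
    (univ.filter (fun u => G'.Adj v u)).card = dg G v.1 W := by
  unfold dg
  refine card_bij (fun u _ => u.1) ?_ (fun a _ b _ h => Subtype.ext h) ?_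
  · intro a ha
    exact mem_filter.2 ⟨a.2, (hG _ _).1 (mem_filter.1 ha).2⟩
  · intro b hb
    obtain ⟨h1, h2⟩ := mem_filter.1 hb
    exact ⟨⟨b, h1⟩, mem_filter.2 ⟨mem_univ _, (hG _ _).2 h2⟩, rfl⟩

private theorem g10b_load {V' V : Type} {N : ℕ} (f : V' → V) (A : Fin N → Finset V')
    (B : Fin N → Finset V) (w : V') (h : ∀ i, w ∈ A i → f w ∈ B i) :
    ((univ.filter (fun i => w ∈ A i)).card : ℝ) ≤ (univ.filter (fun i => f w ∈ B i)).card := by
  have h2 : univ.filter (fun i => w ∈ A i) ⊆ univ.filter (fun i => f w ∈ B i) := by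
    intro i hi
    exact mem_filter.2 ⟨mem_univ _, h i (mem_filter.1 hi).2⟩
  exact_mod_cast card_le_card h2

private theorem g10b_esum {V : Type} [Fintype V] (G : SimpleGraph V) (α η : ℝ) (hα : 0 < α)
    (hα' : α ≤ 1 / 8) (hη0 : 0 < η) (hη : η ≤ 1 / 20) (hn : 10 ≤ Fintype.card V)
    (hd : ∀ v, (1 - η) * Fintype.card V ≤ ((univ.filter (fun u => G.Adj v u)).card : ℝ))
    (x z : V) :
    1 / 4 * (Fintype.card V : ℝ) ^ 2 ≤
      esum G (fun u v => if G.Adj u v then 1 - 2 * α else 0) x z := by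
  have hn' : (10 : ℝ) ≤ Fintype.card V := by exact_mod_cast hn
  set n : ℝ := (Fintype.card V : ℝ) with hndef
  have h1 : ∀ q : V, (if G.Adj x q ∧ q ≠ z then (1 - 2 * α) * ((1 - 2 * η) * n - 1) else 0) ≤
      ∑ q', if G.Adj x q ∧ G.Adj z q' ∧ q ≠ z ∧ q' ≠ x then
        (if G.Adj q q' then 1 - 2 * α else 0) else 0 := by
    intro q
    split_ifs with hq
    · have h2 : ∑ q', (if G.Adj x q ∧ G.Adj z q' ∧ q ≠ z ∧ q' ≠ x then
          (if G.Adj q q' then 1 - 2 * α else 0) else 0) =
          ∑ q' ∈ ((univ.filter (fun u => G.Adj z u)) ∩ (univ.filter (fun u => G.Adj q u))) \ {x},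
            (1 - 2 * α) := by
        rw [← sum_filter_add_sum_filter_not univ (fun q' =>
          q' ∈ ((univ.filter (fun u => G.Adj z u)) ∩ (univ.filter (fun u => G.Adj q u))) \ {x})]
        have h3 : ∑ q' ∈ univ.filter (fun q' => ¬ q' ∈ ((univ.filter (fun u => G.Adj z u)) ∩
            (univ.filter (fun u => G.Adj q u))) \ {x}),
            (if G.Adj x q ∧ G.Adj z q' ∧ q ≠ z ∧ q' ≠ x then
            (if G.Adj q q' then 1 - 2 * α else 0) else 0) = 0 := by
          refine sum_eq_zero fun q' hq' => ?_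
          have h4 := (mem_filter.1 hq').2
          simp only [mem_sdiff, mem_inter, mem_filter, mem_univ, true_and, mem_singleton] at h4
          by_cases h5 : G.Adj x q ∧ G.Adj z q' ∧ q ≠ z ∧ q' ≠ x
          · rw [if_pos h5, if_neg]
            intro h6
            exact h4 ⟨⟨h5.2.1, h6⟩, h5.2.2.2⟩
          · rw [if_neg h5]
        rw [h3, add_zero]
        have h7 : univ.filter (fun q' => q' ∈ ((univ.filter (fun u => G.Adj z u)) ∩
            (univ.filter (fun u => G.Adj q u))) \ {x}) = ((univ.filter (fun u => G.Adj z u)) ∩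
            (univ.filter (fun u => G.Adj q u))) \ {x} := by
          ext w
          simp
        rw [h7]
        refine sum_congr rfl fun q' hq' => ?_
        simp only [mem_sdiff, mem_inter, mem_filter, mem_univ, true_and, mem_singleton] at hq'
        rw [if_pos ⟨hq.1, hq'.1.1, hq.2, hq'.2⟩, if_pos hq'.1.2]
      rw [h2, sum_const, nsmul_eq_mul, mul_comm (1 - 2 * α)]
      refine mul_le_mul_of_nonneg_right ?_ (by linarith)
      have h8 := card_union_add_card_inter (univ.filter (fun u => G.Adj z u))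
        (univ.filter (fun u => G.Adj q u))
      have h9 : ((univ.filter (fun u => G.Adj z u)) ∪ (univ.filter (fun u => G.Adj q u))).card ≤
          Fintype.card V := card_le_univ _
      have h10 := card_le_card_sdiff_add_card (t := {x}) (s := (univ.filter (fun u => G.Adj z u)) ∩
        (univ.filter (fun u => G.Adj q u)))
      rw [card_singleton] at h10
      have h8' : (((univ.filter (fun u => G.Adj z u)) ∪
        (univ.filter (fun u => G.Adj q u))).card : ℝ) + (((univ.filter (fun u => G.Adj z u)) ∩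
        (univ.filter (fun u => G.Adj q u))).card : ℝ) = (univ.filter (fun u => G.Adj z u)).card +
        (univ.filter (fun u => G.Adj q u)).card := by exact_mod_cast h8
      have h9' : (((univ.filter (fun u => G.Adj z u)) ∪
        (univ.filter (fun u => G.Adj q u))).card : ℝ) ≤ n := by
        rw [hndef]
        exact_mod_cast h9
      have h10' : (((univ.filter (fun u => G.Adj z u)) ∩
        (univ.filter (fun u => G.Adj q u))).card : ℝ) ≤ (((univ.filter (fun u => G.Adj z u)) ∩
        (univ.filter (fun u => G.Adj q u))) \ {x}).card + 1 := by exact_mod_cast h10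
      have h11 := hd z
      have h12 := hd q
      linarith
    · refine sum_nonneg fun q' _ => ?_
      split_ifs
      · linarith
      · exact le_refl _
      · exact le_refl _
  have h2 : ∑ q : V, (if G.Adj x q ∧ q ≠ z then (1 - 2 * α) * ((1 - 2 * η) * n - 1) else 0) ≤
      esum G (fun u v => if G.Adj u v then 1 - 2 * α else 0) x z := by
    unfold esum
    exact sum_le_sum fun q _ => h1 q
  refine le_trans ?_ h2
  rw [← sum_filter, sum_const, nsmul_eq_mul]
  have h3 : (1 - η) * n - 1 ≤ ((univ.filter (fun q => G.Adj x q ∧ q ≠ z)).card : ℝ) := by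
    have h4 := card_le_card_sdiff_add_card (t := {z}) (s := univ.filter (fun u => G.Adj x u))
    rw [card_singleton] at h4
    have h5 : (univ.filter (fun u => G.Adj x u)) \ {z} =
        univ.filter (fun q => G.Adj x q ∧ q ≠ z) := by
      ext w
      simp
    rw [h5] at h4
    have h4' : ((univ.filter (fun u => G.Adj x u)).card : ℝ) ≤
        (univ.filter (fun q => G.Adj x q ∧ q ≠ z)).card + 1 := by exact_mod_cast h4
    have h6 := hd x
    linarith
  have h4 : (0 : ℝ) ≤ (1 - 2 * η) * n - 1 := by nlinarith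
  have h5 : (19 / 20 : ℝ) * n - 1 ≤ (1 - η) * n - 1 := by nlinarith
  have h6 : (9 / 10 : ℝ) * n - 1 ≤ (1 - 2 * η) * n - 1 := by nlinarith
  have h7 : (3 / 4 : ℝ) * (9 / 10 * n - 1) ≤ (1 - 2 * α) * ((1 - 2 * η) * n - 1) := by
    have h8 : (0 : ℝ) ≤ 9 / 10 * n - 1 := by linarith
    exact mul_le_mul (by linarith) h6 h8 (by linarith)
  calc 1 / 4 * n ^ 2 ≤ (19 / 20 * n - 1) * (3 / 4 * (9 / 10 * n - 1)) := by nlinarith
    _ ≤ _ := mul_le_mul (h5.trans h3) h7 (by linarith) (by positivity)

theorem NC_gen (α : ℝ) (hα : 0 < α) (hα' : α ≤ 1 / 8) :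
    ∃ η0 : ℝ, 0 < η0 ∧ η0 ≤ 1 / 20 ∧ ∃ m0 : ℕ, ∀ (V : Type) [Fintype V] (G : SimpleGraph V)
      (W : Finset V) (N : ℕ) (virt : Fin N → Finset (V × V)), m0 ≤ W.card →
      (∀ v ∈ W, (1 - η0) * W.card ≤ dg G v W) → (2 * N : ℝ) ≤ (1 - 2 * α) * W.card →
      (∀ i, IsMat (virt i)) → (∀ i, vs (virt i) ⊆ W) →
      (∀ i, ((vs (virt i)).card : ℝ) ≤ η0 * W.card) →
      (∀ w, ((univ.filter (fun i => w ∈ vs (virt i))).card : ℝ) ≤ η0 * W.card) →
      HasCycOn G W virt := by
  obtain ⟨η1, hη1, m1, H⟩ := GT_gen α (1 / 4) hα hα' (by norm_num)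
  refine ⟨min η1 (1 / 20), lt_min hη1 (by norm_num), min_le_right _ _, max m1 10, ?_⟩
  intro V _ G W N virt hm hdeg hN hmat hsub hsize hload
  set η0 := min η1 (1 / 20) with hη0
  have hη00 : 0 < η0 := lt_min hη1 (by norm_num)
  have hη01 : η0 ≤ η1 := min_le_left _ _
  have hη02 : η0 ≤ 1 / 20 := min_le_right _ _
  have hc : Fintype.card {v // v ∈ W} = W.card := Fintype.card_coe W
  have hm1 : m1 ≤ W.card := (le_max_left _ _).trans hm
  have hm2 : 10 ≤ W.card := (le_max_right _ _).trans hm
  have hm2' : (10 : ℝ) ≤ W.card := by exact_mod_cast hm2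
  apply hasCycOn_of_sub G W virt hsub
  have hG' : ∀ u v, (G.comap (Subtype.val : {v // v ∈ W} → V)).Adj u v ↔ G.Adj u.1 v.1 :=
    fun u v => Iff.rfl
  generalize G.comap (Subtype.val : {v // v ∈ W} → V) = G' at hG' ⊢
  have hsum : ∀ v : {v // v ∈ W}, ∑ u, (if G'.Adj v u then 1 - 2 * α else 0) =
      (1 - 2 * α) * dg G v.1 W := by
    intro v
    rw [← sum_filter, sum_const, nsmul_eq_mul, g10b_card G W G' hG', mul_comm]
  have ha : (0 : ℝ) ≤ 1 - 2 * α := by linarith
  apply H {v // v ∈ W} G' (fun u v => if G'.Adj u v then 1 - 2 * α else 0)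
    ((1 - 2 * α) * W.card) N (fun i => liftP W (virt i))
  · rw [hc]
    exact hm1
  · refine ⟨fun u v => ?_, fun u v => ?_, fun u v huv => if_neg huv⟩
    · simp only [SimpleGraph.adj_comm]
    · split_ifs
      · exact ha
      · exact le_refl _
  · intro u v
    split_ifs
    · exact le_refl _
    · exact ha
  · rw [hc]
    nlinarith
  · rw [hc]
    nlinarith
  · intro v
    rw [hsum]
    constructor
    · have h1 := hdeg v.1 v.2
      calc (1 - η1) * ((1 - 2 * α) * W.card) = (1 - 2 * α) * ((1 - η1) * W.card) := by ring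
        _ ≤ (1 - 2 * α) * ((1 - η0) * W.card) := by
          refine mul_le_mul_of_nonneg_left ?_ ha
          refine mul_le_mul_of_nonneg_right ?_ (by positivity)
          linarith
        _ ≤ _ := mul_le_mul_of_nonneg_left h1 ha
    · refine mul_le_mul_of_nonneg_left ?_ ha
      exact_mod_cast card_filter_le _ _
  · exact hN
  · intro i
    exact isMat_liftP W _ (hmat i)
  · intro i
    rw [hc]
    have h1 : ((vs (liftP W (virt i))).card : ℝ) ≤ (vs (virt i)).card := by
      exact_mod_cast vs_liftP_card W (virt i)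
    refine h1.trans ((hsize i).trans ?_)
    exact mul_le_mul_of_nonneg_right hη01 (by positivity)
  · intro w
    rw [hc]
    have h1 := g10b_load (Subtype.val : {v // v ∈ W} → V) (fun i => vs (liftP W (virt i)))
      (fun i => vs (virt i)) w (fun i hi => mem_vs_liftP W (virt i) w hi)
    refine h1.trans ((hload w.1).trans ?_)
    exact mul_le_mul_of_nonneg_right hη01 (by positivity)
  · intro x z _
    refine g10b_esum G' α η0 hα hα' hη00 hη02
      (by rw [hc]; exact hm2) ?_ x z
    intro v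
    rw [g10b_card G W G' hG', hc]
    exact hdeg v.1 v.2

end Pool.Agent.HCD

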