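import Pool.Agent.Lib.HCD.B7
import Pool.Agent.Lib.HCD.B10a
import Pool.Agent.Lib.HCD.B10b
import Pool.Agent.Lib.HCD.G10b

/-!
# B10c: case B

PROOF.  α = ε/16, η0 from `NC_gen`; κ' from `b_setup` and κ = κ'/10 (b_part gives BP with 10 κ = κ').  N = 0: trivial (Pack G 0).  R = N.
`b_setup`, `b_js`, then `NC_gen` for W = A \ Exc and virt = vA A Exc u v Ns a1 a2: IsMat: a submatching of jv i plus the pair (a1,a2), whose ends are ends of the mixed
pairs (different from each other and from all other ends); vs ⊆ W by jv_light and the filter; |vs| ≤ 2|Exc| + 2*2 + 2 ≤ η0 |W|; load of x: x ∈ vs (vA i) → x ∈ vs (jv i): `jv_load` with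
E = ((A \ Exc) ×ˢ ((univ \ A) \ Exc)).filter (fun p => G.Adj p.1 p.2), degrees ≤ dm: ≤ |Exc| + dm ≤ η0 |W|; 2R ≤ (1-ε/8)|W| = (1-2α)|W|.  The same for the other side (W = (univ \ A) \ Exc,
b1, b2; note jv pairs with both ends in univ \ A).  Then `glueB`.
-/

set_option autoImplicit false

noncomputable section

open scoped Classical
open Finset

namespace Pool.Agent.HCD

private theorem mem_vs {V : Type} (E : Finset (V × V)) (x : V) :
    x ∈ vs E ↔ ∃ p ∈ E, p.1 = x ∨ p.2 = x := by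
  unfold vs
  rw [mem_union, mem_image, mem_image]
  constructor
  · rintro (⟨p, hp, h⟩ | ⟨p, hp, h⟩)
    · exact ⟨p, hp, Or.inl h⟩
    · exact ⟨p, hp, Or.inr h⟩
  · rintro ⟨p, hp, h | h⟩
    · exact Or.inl ⟨p, hp, h⟩
    · exact Or.inr ⟨p, hp, h⟩

section side

variable {V : Type} [Fintype V] {G : SimpleGraph V} {A Exc : Finset V} {R : ℕ}
  {u v : Fin R → V → V} {Ns : Fin R → Finset (V × V)} {c1 c2 d1 d2 : Fin R → V}

private theorem mem_vA {i : Fin R} {p : V × V} :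
    p ∈ vA A Exc u v Ns c1 c2 i ↔
      (p ∈ jv Exc u v Ns i ∧ p.1 ∈ A ∧ p.2 ∈ A) ∨ p = (c1 i, c2 i) := by
  unfold vA
  rw [mem_union, mem_filter, mem_singleton]

private theorem not_c (hjs : JS G Exc u v Ns) (hd1 : ∀ i, d1 i ∉ A)
    (hm1 : ∀ i, (c1 i, d1 i) ∈ jv Exc u v Ns i ∨ (d1 i, c1 i) ∈ jv Exc u v Ns i) {i : Fin R}
    {p : V × V} (hp : p ∈ jv Exc u v Ns i) (hp1 : p.1 ∈ A) (hp2 : p.2 ∈ A) :
    p.1 ≠ c1 i ∧ p.2 ≠ c1 i := by
  have hM := jv_mat hjs i
  constructor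
  · intro h
    rcases hm1 i with hm | hm
    · have := hM.fst p hp _ hm h
      rw [this] at hp2
      exact hd1 i hp2
    · exact hM.mix p hp _ hm h
  · intro h
    rcases hm1 i with hm | hm
    · exact hM.mix _ hm p hp h.symm
    · have := hM.snd p hp _ hm h
      rw [this] at hp1
      exact hd1 i hp1

private theorem vA_mat (hjs : JS G Exc u v Ns) (hne : ∀ i, c1 i ≠ c2 i) (hd1 : ∀ i, d1 i ∉ A)
    (hd2 : ∀ i, d2 i ∉ A)
    (hm1 : ∀ i, (c1 i, d1 i) ∈ jv Exc u v Ns i ∨ (d1 i, c1 i) ∈ jv Exc u v Ns i)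
    (hm2 : ∀ i, (c2 i, d2 i) ∈ jv Exc u v Ns i ∨ (d2 i, c2 i) ∈ jv Exc u v Ns i) (i : Fin R) :
    IsMat (vA A Exc u v Ns c1 c2 i) := by
  have hM := jv_mat hjs i
  constructor
  · intro p hp
    rcases mem_vA.1 hp with ⟨hp, -, -⟩ | rfl
    · exact hM.ne p hp
    · exact hne i
  · intro p hp q hq h
    rcases mem_vA.1 hp with ⟨hp, hp1, hp2⟩ | rfl <;> rcases mem_vA.1 hq with ⟨hq, hq1, hq2⟩ | rfl
    · exact hM.fst p hp q hq h
    · exact absurd h (not_c hjs hd1 hm1 hp hp1 hp2).1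
    · exact absurd h.symm (not_c hjs hd1 hm1 hq hq1 hq2).1
    · rfl
  · intro p hp q hq h
    rcases mem_vA.1 hp with ⟨hp, hp1, hp2⟩ | rfl <;> rcases mem_vA.1 hq with ⟨hq, hq1, hq2⟩ | rfl
    · exact hM.snd p hp q hq h
    · exact absurd h (not_c hjs hd2 hm2 hp hp1 hp2).2
    · exact absurd h.symm (not_c hjs hd2 hm2 hq hq1 hq2).2
    · rfl
  · intro p hp q hq
    rcases mem_vA.1 hp with ⟨hp, hp1, hp2⟩ | rfl <;> rcases mem_vA.1 hq with ⟨hq, hq1, hq2⟩ | rfl
    · exact hM.mix p hp q hq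
    · exact (not_c hjs hd2 hm2 hp hp1 hp2).1
    · exact fun h => (not_c hjs hd1 hm1 hq hq1 hq2).2 h.symm
    · exact hne i

private theorem vA_sub (hjs : JS G Exc u v Ns) (hc1 : ∀ i, c1 i ∈ A \ Exc)
    (hc2 : ∀ i, c2 i ∈ A \ Exc) (i : Fin R) : vs (vA A Exc u v Ns c1 c2 i) ⊆ A \ Exc := by
  intro x hx
  obtain ⟨p, hp, h⟩ := (mem_vs _ x).1 hx
  rcases mem_vA.1 hp with ⟨hp, hp1, hp2⟩ | rfl
  · have hl := jv_light hjs i ((mem_vs _ x).2 ⟨p, hp, h⟩)
    rw [mem_sdiff] at hl ⊢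
    refine ⟨?_, hl.2⟩
    rcases h with h | h
    · rwa [← h]
    · rwa [← h]
  · rcases h with h | h
    · rw [← h]; exact hc1 i
    · rw [← h]; exact hc2 i

private theorem vA_vs
    (hm1 : ∀ i, (c1 i, d1 i) ∈ jv Exc u v Ns i ∨ (d1 i, c1 i) ∈ jv Exc u v Ns i)
    (hm2 : ∀ i, (c2 i, d2 i) ∈ jv Exc u v Ns i ∨ (d2 i, c2 i) ∈ jv Exc u v Ns i) (i : Fin R) :
    vs (vA A Exc u v Ns c1 c2 i) ⊆ vs (jv Exc u v Ns i) := by
  intro x hx
  obtain ⟨p, hp, h⟩ := (mem_vs _ x).1 hx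
  refine (mem_vs _ x).2 ?_
  rcases mem_vA.1 hp with ⟨hp, hp1, hp2⟩ | rfl
  · exact ⟨p, hp, h⟩
  · rcases h with h | h
    · rcases hm1 i with hm | hm
      · exact ⟨_, hm, Or.inl h⟩
      · exact ⟨_, hm, Or.inr h⟩
    · rcases hm2 i with hm | hm
      · exact ⟨_, hm, Or.inl h⟩
      · exact ⟨_, hm, Or.inr h⟩

end side

private theorem cross_deg {V : Type} [Fintype V] (G : SimpleGraph V) (A Exc : Finset V) (dm : ℕ)
    (hdm : ∀ v ∉ Exc, crL G A Exc v ≤ dm) (x : V) :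
    ((((A \ Exc) ×ˢ ((univ \ A) \ Exc)).filter (fun p : V × V => G.Adj p.1 p.2)).filter
      (fun p => p.1 = x ∨ p.2 = x)).card ≤ dm := by
  by_cases hx : x ∈ Exc
  · have : (((A \ Exc) ×ˢ ((univ \ A) \ Exc)).filter (fun p : V × V => G.Adj p.1 p.2)).filter
      (fun p => p.1 = x ∨ p.2 = x) = ∅ := by
      rw [eq_empty_iff_forall_notMem]
      rintro ⟨a, b⟩ hp
      rw [mem_filter, mem_filter, mem_product, mem_sdiff, mem_sdiff] at hp
      obtain ⟨⟨⟨⟨-, ha⟩, ⟨-, hb⟩⟩, -⟩, h | h⟩ := hp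
      · exact ha (by rw [h]; exact hx)
      · exact hb (by rw [h]; exact hx)
    rw [this, card_empty]
    exact Nat.zero_le _
  · refine le_trans ?_ (hdm x hx)
    by_cases hA : x ∈ A
    · have h1 : crL G A Exc x = (((univ \ A) \ Exc).filter (fun w => G.Adj x w)).card := by
        unfold crL dg oppS
        rw [if_pos hA]
      rw [h1]
      refine card_le_card_of_injOn (fun p => p.2) ?_ ?_
      · rintro ⟨a, b⟩ hp
        rw [mem_coe, mem_filter, mem_filter, mem_product, mem_sdiff, mem_sdiff, mem_sdiff] at hp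
        obtain ⟨⟨⟨⟨haA, -⟩, ⟨⟨hbu, hbA⟩, hbE⟩⟩, hadj⟩, h⟩ := hp
        rw [mem_coe, mem_filter, mem_sdiff, mem_sdiff]
        refine ⟨⟨⟨hbu, hbA⟩, hbE⟩, ?_⟩
        rcases h with h | h
        · rw [← h]; exact hadj
        · exfalso
          apply hbA
          change b ∈ A
          have : b = x := h
          rw [this]
          exact hA
      · rintro ⟨a, b⟩ hp ⟨a', b'⟩ hp' h
        rw [mem_coe, mem_filter, mem_filter, mem_product, mem_sdiff, mem_sdiff, mem_sdiff] at hp hp'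
        have e : ∀ {a b : V}, b ∉ A → (a = x ∨ b = x) → a = x := by
          rintro a b hb (h | h)
          · exact h
          · exact absurd (h ▸ hA) hb
        have ha : a = x := e hp.1.1.2.1.2 hp.2
        have ha' : a' = x := e hp'.1.1.2.1.2 hp'.2
        have hb : b = b' := h
        rw [ha, ha', hb]
    · have h1 : crL G A Exc x = ((A \ Exc).filter (fun w => G.Adj x w)).card := by
        unfold crL dg oppS
        rw [if_neg hA]
      rw [h1]
      refine card_le_card_of_injOn (fun p => p.1) ?_ ?_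
      · rintro ⟨a, b⟩ hp
        rw [mem_coe, mem_filter, mem_filter, mem_product, mem_sdiff, mem_sdiff, mem_sdiff] at hp
        obtain ⟨⟨⟨⟨haA, haE⟩, -⟩, hadj⟩, h⟩ := hp
        rw [mem_coe, mem_filter, mem_sdiff]
        refine ⟨⟨haA, haE⟩, ?_⟩
        rcases h with h | h
        · exfalso
          apply hA
          have : a = x := h
          rw [← this]
          exact haA
        · rw [← h]; exact hadj.symm
      · rintro ⟨a, b⟩ hp ⟨a', b'⟩ hp' h
        rw [mem_coe, mem_filter, mem_filter, mem_product, mem_sdiff, mem_sdiff, mem_sdiff] at hp hp'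
        have e : ∀ {a b : V}, a ∈ A → (a = x ∨ b = x) → b = x := by
          rintro a b ha (h | h)
          · exact absurd (h ▸ ha) hA
          · exact h
        have hb : b = x := e hp.1.1.1.1 hp.2
        have hb' : b' = x := e hp'.1.1.1.1 hp'.2
        have ha : a = a' := h
        rw [hb, hb', ha]

theorem caseB (ε : ℝ) (hε : 0 < ε) (hε1 : ε ≤ 1 / 4) :
    ∃ κ : ℝ, 0 < κ ∧ ∃ n0 : ℕ, ∀ (V : Type) [Fintype V] (G : SimpleGraph V) (x : V → V → ℝ)
      (r : ℝ) (N : ℕ), n0 ≤ Fintype.card V → Dirac G → FF G x r →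
      (Fintype.card V : ℝ) ≤ 4 * r → ExtB G κ → (2 * N : ℝ) ≤ (1 - ε) * r + 2 → Pack G N := by
  obtain ⟨η0, hη, hη1, m0, hNC⟩ := NC_gen (ε / 16) (by positivity) (by linarith)
  obtain ⟨κ, hκ, n1, hset⟩ := b_setup ε η0 hε hε1 hη hη1
  refine ⟨κ / 10, by positivity, max n1 (3 * m0 + 9), ?_⟩
  intro V _ G x r N hn hD hx hr hExt hN
  rcases Nat.eq_zero_or_pos N with hN0 | hN0
  · subst hN0
    exact ⟨fun i => i.elim0, fun i => i.elim0, fun i => i.elim0, fun i => i.elim0⟩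
  obtain ⟨A, hA⟩ := b_part G (κ / 10) (by positivity) hD hExt
  rw [show 10 * (κ / 10) = κ by ring] at hA
  obtain ⟨Exc, t, dm, ht, h1, h2, h3, hdm, hav, hav2, hdA, hdB, hRA, hRB, hvA, hvB, hcA, hcB⟩ :=
    hset V G x r N A ((le_max_left _ _).trans hn) hD hx hr hA hN hN0
  obtain ⟨u, v, Ns, a1, a2, b1, b2, hJ, hNs⟩ :=
    b_js G A Exc N t dm hN0 ht h1 h2 h3 hdm hav hav2
  have hn2 : (3 * m0 + 9 : ℕ) ≤ Fintype.card V := (le_max_right _ _).trans hn
  have hn3 : (m0 : ℝ) + 3 ≤ (Fintype.card V : ℝ) / 3 := by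
    have : ((3 * m0 + 9 : ℕ) : ℝ) ≤ (Fintype.card V : ℝ) := by exact_mod_cast hn2
    push_cast at this
    linarith
  have hAc : m0 + 3 ≤ (A \ Exc).card := by
    have : ((m0 + 3 : ℕ) : ℝ) ≤ ((A \ Exc).card : ℝ) := by
      push_cast
      linarith
    exact_mod_cast this
  have hBc : m0 + 3 ≤ ((univ \ A) \ Exc).card := by
    have : ((m0 + 3 : ℕ) : ℝ) ≤ (((univ \ A) \ Exc).card : ℝ) := by
      push_cast
      linarith
    exact_mod_cast this
  -- the light cross edges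
  set E : Finset (V × V) :=
    ((A \ Exc) ×ˢ ((univ \ A) \ Exc)).filter (fun p : V × V => G.Adj p.1 p.2) with hE
  have hNE : ∀ i, Ns i ⊆ E := by
    intro i p hp
    have e1 := hJ.js.nadj i p hp
    have e2 := hJ.js.nL i p hp
    have e3 := hJ.ncross i p hp
    rw [hE, mem_filter, mem_product, mem_sdiff, mem_sdiff, mem_sdiff]
    exact ⟨⟨⟨e3.1, e2.1⟩, ⟨⟨mem_univ _, e3.2⟩, e2.2⟩⟩, e1⟩
  have hload : ∀ w, (univ.filter (fun i => w ∈ vs (jv Exc u v Ns i))).card ≤ Exc.card + dm :=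
    fun w => jv_load hJ.js dm E hNE (fun y => cross_deg G A Exc dm hdm y) w
  have hsize : ∀ i, (vs (jv Exc u v Ns i)).card ≤ 2 * Exc.card + 4 := by
    intro i
    have e1 := jv_size hJ.js i
    have e2 := hNs i
    omega
  have hloadv : ∀ (virt : Fin N → Finset (V × V)), (∀ i, vs (virt i) ⊆ vs (jv Exc u v Ns i)) →
      ∀ w, (univ.filter (fun i => w ∈ vs (virt i))).card ≤ Exc.card + dm := by
    intro virt hvirt w
    refine (card_le_card ?_).trans (hload w)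
    intro i hi
    rw [mem_filter] at hi ⊢
    exact ⟨hi.1, hvirt i hi.2⟩
  refine glueB G A Exc u v Ns a1 a2 b1 b2 hJ (by omega) (by omega) ?_ ?_
  · have hd1 : ∀ i, b1 i ∉ A := fun i => by
      have := (hJ.mem i).2.2.1
      rw [mem_sdiff, mem_sdiff] at this
      exact this.1.2
    have hd2 : ∀ i, b2 i ∉ A := fun i => by
      have := (hJ.mem i).2.2.2
      rw [mem_sdiff, mem_sdiff] at this
      exact this.1.2
    have hvs : ∀ i, vs (vA A Exc u v Ns a1 a2 i) ⊆ vs (jv Exc u v Ns i) :=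
      fun i => vA_vs hJ.m1 hJ.m2 i
    refine hNC V G (A \ Exc) N (vA A Exc u v Ns a1 a2) (by omega) hdA ?_ ?_ ?_ ?_ ?_
    · have : (1 : ℝ) - 2 * (ε / 16) = 1 - ε / 8 := by ring
      rw [this]
      exact hRA
    · exact fun i => vA_mat hJ.js (fun i => (hJ.ne i).1) hd1 hd2 hJ.m1 hJ.m2 i
    · exact fun i => vA_sub hJ.js (fun i => (hJ.mem i).1) (fun i => (hJ.mem i).2.1) i
    · intro i
      have e1 : ((vs (vA A Exc u v Ns a1 a2 i)).card : ℝ) ≤ ((2 * Exc.card + 4 : ℕ) : ℝ) := by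
        exact_mod_cast (card_le_card (hvs i)).trans (hsize i)
      push_cast at e1
      have e2 : (0 : ℝ) ≤ dm := Nat.cast_nonneg _
      linarith
    · intro w
      have e1 : ((univ.filter (fun i => w ∈ vs (vA A Exc u v Ns a1 a2 i))).card : ℝ) ≤
          ((Exc.card + dm : ℕ) : ℝ) := by
        exact_mod_cast hloadv _ hvs w
      push_cast at e1
      have e2 : (0 : ℝ) ≤ Exc.card := Nat.cast_nonneg _
      linarith
  · have hd1 : ∀ i, a1 i ∉ univ \ A := fun i => by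
      have := (hJ.mem i).1
      rw [mem_sdiff] at this ⊢
      exact fun h => h.2 this.1
    have hd2 : ∀ i, a2 i ∉ univ \ A := fun i => by
      have := (hJ.mem i).2.1
      rw [mem_sdiff] at this ⊢
      exact fun h => h.2 this.1
    have hm1 : ∀ i, (b1 i, a1 i) ∈ jv Exc u v Ns i ∨ (a1 i, b1 i) ∈ jv Exc u v Ns i :=
      fun i => (hJ.m1 i).symm
    have hm2 : ∀ i, (b2 i, a2 i) ∈ jv Exc u v Ns i ∨ (a2 i, b2 i) ∈ jv Exc u v Ns i :=
      fun i => (hJ.m2 i).symm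
    have hvs : ∀ i, vs (vA (univ \ A) Exc u v Ns b1 b2 i) ⊆ vs (jv Exc u v Ns i) :=
      fun i => vA_vs hm1 hm2 i
    refine hNC V G ((univ \ A) \ Exc) N (vA (univ \ A) Exc u v Ns b1 b2) (by omega) hdB
      ?_ ?_ ?_ ?_ ?_
    · have : (1 : ℝ) - 2 * (ε / 16) = 1 - ε / 8 := by ring
      rw [this]
      exact hRB
    · exact fun i => vA_mat hJ.js (fun i => (hJ.ne i).2) hd1 hd2 hm1 hm2 i
    · exact fun i => vA_sub hJ.js (fun i => (hJ.mem i).2.2.1) (fun i => (hJ.mem i).2.2.2) i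
    · intro i
      have e1 : ((vs (vA (univ \ A) Exc u v Ns b1 b2 i)).card : ℝ) ≤
          ((2 * Exc.card + 4 : ℕ) : ℝ) := by
        exact_mod_cast (card_le_card (hvs i)).trans (hsize i)
      push_cast at e1
      have e2 : (0 : ℝ) ≤ dm := Nat.cast_nonneg _
      linarith
    · intro w
      have e1 : ((univ.filter (fun i => w ∈ vs (vA (univ \ A) Exc u v Ns b1 b2 i))).card : ℝ) ≤
          ((Exc.card + dm : ℕ) : ℝ) := by
        exact_mod_cast hloadv _ hvs w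
      push_cast at e1
      have e2 : (0 : ℝ) ≤ Exc.card := Nat.cast_nonneg _
      linarith

end Pool.Agent.HCD
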