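import Pool.Agent.Lib.HCD.Defs2

/-!
# B2: virtual pairs of the structures J_i: matching, size, loads

PROOF.  jv i = leaf pairs ∪ Ns i; IsMat by uv, leaf, leafN, nmat.  |vs| ≤ 2|Exc| + 2|Ns i|.  Load of x: if x = u i w or v i w with w ∈ Exc: for fixed w at most one i
(edist); if x ∈ vs (Ns i): each such i gives a pair of E at x, different i different pairs (disjoint Ns i ⊆ E): at most dm.
-/

set_option autoImplicit false

noncomputable section

open scoped Classical
open Finset

namespace Pool.Agent.HCD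

variable {V : Type} [Fintype V] {G : SimpleGraph V} {Exc : Finset V} {R : ℕ}
  {u v : Fin R → V → V} {Ns : Fin R → Finset (V × V)}

private theorem b2_mem_jv {i : Fin R} {p : V × V} :
    p ∈ jv Exc u v Ns i ↔ (∃ w ∈ Exc, (u i w, v i w) = p) ∨ p ∈ Ns i := by
  unfold jv
  rw [mem_union, mem_image]

theorem jv_mat (hJ : JS G Exc u v Ns) (i : Fin R) : IsMat (jv Exc u v Ns i) := by
  refine ⟨?_, ?_, ?_, ?_⟩
  · intro p hp
    rw [b2_mem_jv] at hp
    rcases hp with ⟨w, hw, rfl⟩ | hp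
    · exact hJ.uv i w hw
    · exact (hJ.nmat i).ne p hp
  · intro p hp q hq h
    rw [b2_mem_jv] at hp hq
    rcases hp with ⟨w, hw, rfl⟩ | hp
    · rcases hq with ⟨w', hw', rfl⟩ | hq
      · by_cases hww : w = w'
        · rw [hww]
        · exact absurd h (hJ.leaf i w hw w' hw' hww).1
      · exact absurd h.symm (hJ.leafN i w hw q hq).1
    · rcases hq with ⟨w', hw', rfl⟩ | hq
      · exact absurd h (hJ.leafN i w' hw' p hp).1
      · exact (hJ.nmat i).fst p hp q hq h
  · intro p hp q hq h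
    rw [b2_mem_jv] at hp hq
    rcases hp with ⟨w, hw, rfl⟩ | hp
    · rcases hq with ⟨w', hw', rfl⟩ | hq
      · by_cases hww : w = w'
        · rw [hww]
        · exact absurd h (hJ.leaf i w hw w' hw' hww).2.2
      · exact absurd h.symm (hJ.leafN i w hw q hq).2.2.2
    · rcases hq with ⟨w', hw', rfl⟩ | hq
      · exact absurd h (hJ.leafN i w' hw' p hp).2.2.2
      · exact (hJ.nmat i).snd p hp q hq h
  · intro p hp q hq h
    rw [b2_mem_jv] at hp hq
    rcases hp with ⟨w, hw, rfl⟩ | hp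
    · rcases hq with ⟨w', hw', rfl⟩ | hq
      · by_cases hww : w = w'
        · rw [hww] at h
          exact hJ.uv i w' hw' h
        · exact (hJ.leaf i w hw w' hw' hww).2.1 h
      · exact (hJ.leafN i w hw q hq).2.2.1 h.symm
    · rcases hq with ⟨w', hw', rfl⟩ | hq
      · exact (hJ.leafN i w' hw' p hp).2.1 h
      · exact (hJ.nmat i).mix p hp q hq h

theorem jv_light (hJ : JS G Exc u v Ns) (i : Fin R) : vs (jv Exc u v Ns i) ⊆ univ \ Exc := by
  intro x hx
  rw [mem_sdiff]
  refine ⟨mem_univ x, ?_⟩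
  unfold vs at hx
  rw [mem_union, mem_image, mem_image] at hx
  rcases hx with ⟨p, hp, rfl⟩ | ⟨p, hp, rfl⟩
  · rw [b2_mem_jv] at hp
    rcases hp with ⟨w, hw, rfl⟩ | hp
    · exact hJ.uL i w hw
    · exact (hJ.nL i p hp).1
  · rw [b2_mem_jv] at hp
    rcases hp with ⟨w, hw, rfl⟩ | hp
    · exact hJ.vL i w hw
    · exact (hJ.nL i p hp).2

theorem jv_size (hJ : JS G Exc u v Ns) (i : Fin R) :
    (vs (jv Exc u v Ns i)).card ≤ 2 * Exc.card + 2 * (Ns i).card := by
  have h1 : (jv Exc u v Ns i).card ≤ Exc.card + (Ns i).card := by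
    unfold jv
    exact (card_union_le _ _).trans (Nat.add_le_add_right card_image_le _)
  have h2 : (vs (jv Exc u v Ns i)).card ≤ (jv Exc u v Ns i).card + (jv Exc u v Ns i).card := by
    unfold vs
    exact (card_union_le _ _).trans (Nat.add_le_add card_image_le card_image_le)
  omega

theorem jv_load (hJ : JS G Exc u v Ns) (dm : ℕ) (E : Finset (V × V)) (hE : ∀ i, Ns i ⊆ E)
    (hdm : ∀ x, (E.filter (fun p => p.1 = x ∨ p.2 = x)).card ≤ dm) (x : V) :
    (univ.filter (fun i => x ∈ vs (jv Exc u v Ns i))).card ≤ Exc.card + dm := by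
  set S1 : Finset (Fin R) := univ.filter (fun i => ∃ w ∈ Exc, u i w = x ∨ v i w = x) with hS1
  set S2 : Finset (Fin R) := univ.filter (fun i => ∃ p ∈ Ns i, p.1 = x ∨ p.2 = x) with hS2
  have hsub : univ.filter (fun i => x ∈ vs (jv Exc u v Ns i)) ⊆ S1 ∪ S2 := by
    intro i hi
    rw [mem_filter] at hi
    have hx := hi.2
    unfold vs at hx
    rw [mem_union, mem_image, mem_image] at hx
    rw [mem_union, hS1, hS2, mem_filter, mem_filter]
    rcases hx with ⟨p, hp, hpx⟩ | ⟨p, hp, hpx⟩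
    · rw [b2_mem_jv] at hp
      rcases hp with ⟨w, hw, rfl⟩ | hp
      · exact Or.inl ⟨mem_univ i, w, hw, Or.inl hpx⟩
      · exact Or.inr ⟨mem_univ i, p, hp, Or.inl hpx⟩
    · rw [b2_mem_jv] at hp
      rcases hp with ⟨w, hw, rfl⟩ | hp
      · exact Or.inl ⟨mem_univ i, w, hw, Or.inr hpx⟩
      · exact Or.inr ⟨mem_univ i, p, hp, Or.inr hpx⟩
  have h1 : S1.card ≤ Exc.card := by
    have hch : ∀ i ∈ S1, ∃ w, w ∈ Exc ∧ (u i w = x ∨ v i w = x) := by
      intro i hi
      rw [hS1, mem_filter] at hi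
      obtain ⟨w, hw, h⟩ := hi.2
      exact ⟨w, hw, h⟩
    have : Nonempty V := ⟨x⟩
    choose! f hf using hch
    refine card_le_card_of_injOn f (fun i hi => (hf i hi).1) ?_
    intro i hi j hj hij
    have hi' := hf i hi
    have hj' := hf j hj
    rw [← hij] at hj'
    by_contra hne
    obtain ⟨d1, d2, d3⟩ := hJ.edist i j hne (f i) hi'.1
    obtain ⟨-, d4, -⟩ := hJ.edist j i (Ne.symm hne) (f i) hi'.1
    rcases hi'.2 with a | a <;> rcases hj'.2 with b | b
    · exact d1 (a.trans b.symm)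
    · exact d2 (a.trans b.symm)
    · exact d4 (b.trans a.symm)
    · exact d3 (a.trans b.symm)
  have h2 : S2.card ≤ dm := by
    have hch : ∀ i ∈ S2, ∃ p, p ∈ Ns i ∧ (p.1 = x ∨ p.2 = x) := by
      intro i hi
      rw [hS2, mem_filter] at hi
      obtain ⟨p, hp, h⟩ := hi.2
      exact ⟨p, hp, h⟩
    have hch' : ∀ i : Fin R, ∃ p : V × V, i ∈ S2 → p ∈ Ns i ∧ (p.1 = x ∨ p.2 = x) := by
      intro i
      by_cases hi : i ∈ S2
      · obtain ⟨p, hp⟩ := hch i hi
        exact ⟨p, fun _ => hp⟩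
      · exact ⟨(x, x), fun h => absurd h hi⟩
    choose f hf using hch'
    refine le_trans (card_le_card_of_injOn f (t := E.filter (fun p => p.1 = x ∨ p.2 = x)) ?_ ?_)
      (hdm x)
    · intro i hi
      rw [mem_coe, mem_filter]
      exact ⟨hE i (hf i hi).1, (hf i hi).2⟩
    · intro i hi j hj hij
      by_contra hne
      have h3 := hJ.ndist i j hne (f i) (hf i hi).1 (f j) (hf j hj).1
      rw [hij] at h3
      exact h3 rfl
  calc (univ.filter (fun i => x ∈ vs (jv Exc u v Ns i))).card ≤ (S1 ∪ S2).card :=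
        card_le_card hsub
    _ ≤ S1.card + S2.card := card_union_le _ _
    _ ≤ Exc.card + dm := Nat.add_le_add h1 h2

end Pool.Agent.HCD
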