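import Pool.Agent.Lib.HCD.Defs

/-!
# T9: cyclic rounding

PROOF.  Order A (equiv with Fin), offsets o a = sum of y over the earlier elements; z a i = number of integers k with
o a ≤ k < o a + y a and k % R = i.  An interval of length m contains between m / R and (m + R - 1) / R members of a residue class
(`Nat.count_modEq_card` or direct); the whole interval [0, R * T) contains exactly T.
-/

set_option autoImplicit false

noncomputable section

open scoped Classical
open Finset

namespace Pool.Agent.HCD

/-- number of `k < m` with `k % R = i`, summed over `i` -/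
theorem T9_hermite (R : ℕ) (hR : 0 < R) (m : ℕ) :
    ∑ i : Fin R, (m + (R - 1 - (i : ℕ))) / R = m := by
  induction m with
  | zero =>
    apply Finset.sum_eq_zero
    intro i _
    apply Nat.div_eq_of_lt
    omega
  | succ m ih =>
    have h1 : ∀ i : Fin R, (m + 1 + (R - 1 - (i : ℕ))) / R =
        (m + (R - 1 - (i : ℕ))) / R + if i = (⟨m % R, Nat.mod_lt _ hR⟩ : Fin R) then 1 else 0 := by
      intro i
      rw [show m + 1 + (R - 1 - (i : ℕ)) = (m + (R - 1 - (i : ℕ))) + 1 by omega, Nat.succ_div]
      congr 1
      have hi := i.isLt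
      have hiff : R ∣ m + (R - 1 - (i : ℕ)) + 1 ↔ i = (⟨m % R, Nat.mod_lt _ hR⟩ : Fin R) := by
        constructor
        · rintro ⟨k, hk⟩
          apply Fin.ext
          show (i : ℕ) = m % R
          have h2 : (i : ℕ) ≡ m [MOD R] := by
            rw [Nat.modEq_iff_dvd]
            refine ⟨(k : ℤ) - 1, ?_⟩
            have h3 : (m : ℤ) + (R - 1 - (i : ℕ)) + 1 = R * k := by
              have h4 : ((m + (R - 1 - (i : ℕ)) + 1 : ℕ) : ℤ) = ((R * k : ℕ) : ℤ) := by rw [hk]
              have h5 : ((R - 1 - (i : ℕ) : ℕ) : ℤ) = (R : ℤ) - 1 - (i : ℕ) := by omega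
              push_cast [h5] at h4
              linarith
            linarith
          have h6 : (i : ℕ) % R = m % R := h2
          rw [Nat.mod_eq_of_lt hi] at h6
          exact h6
        · intro h
          have h7 : (i : ℕ) = m % R := by rw [h]
          refine ⟨m / R + 1, ?_⟩
          have h8 := Nat.div_add_mod m R
          rw [Nat.mul_add, Nat.mul_one]
          omega
      by_cases hc : i = (⟨m % R, Nat.mod_lt _ hR⟩ : Fin R)
      · rw [if_pos (hiff.mpr hc), if_pos hc]
      · rw [if_neg (fun h => hc (hiff.mp h)), if_neg hc]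
    rw [Finset.sum_congr rfl (fun i _ => h1 i), Finset.sum_add_distrib, ih]
    simp

theorem rounding {A : Type} [Fintype A] (R T : ℕ) (hR : 0 < R) (y : A → ℕ)
    (htot : ∑ a, y a = R * T) :
    ∃ z : A → Fin R → ℕ, (∀ a, ∑ i, z a i = y a) ∧ (∀ i, ∑ a, z a i = T) ∧
      (∀ a i, z a i ≤ (y a + R - 1) / R) ∧ (∀ a i, y a / R ≤ z a i) := by
  have key : ∀ S : Finset A, ∃ z : A → Fin R → ℕ, (∀ a ∈ S, ∑ i, z a i = y a) ∧
      (∀ i : Fin R, ∑ a ∈ S, z a i = (∑ a ∈ S, y a + (R - 1 - (i : ℕ))) / R) ∧
      (∀ a ∈ S, ∀ i, z a i ≤ (y a + R - 1) / R) ∧ (∀ a ∈ S, ∀ i, y a / R ≤ z a i) := by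
    intro S
    induction S using Finset.induction_on with
    | empty =>
      refine ⟨fun _ _ => 0, by simp, ?_, by simp, by simp⟩
      intro i
      rw [Finset.sum_empty, Finset.sum_empty]
      symm
      apply Nat.div_eq_of_lt
      omega
    | insert a S ha ih =>
      obtain ⟨z, h1, h2, h3, h4⟩ := ih
      set s := ∑ b ∈ S, y b with hs
      have hlow : ∀ i : Fin R, (s + (R - 1 - (i : ℕ))) / R + y a / R ≤
          (y a + s + (R - 1 - (i : ℕ))) / R := by
        intro i
        have : (s + (R - 1 - (i : ℕ))) / R + y a / R ≤ (s + (R - 1 - (i : ℕ)) + y a) / R :=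
          Nat.div_add_div_le_add_div
        rw [show y a + s + (R - 1 - (i : ℕ)) = s + (R - 1 - (i : ℕ)) + y a by ring]
        exact this
      have hup : ∀ i : Fin R, (y a + s + (R - 1 - (i : ℕ))) / R ≤
          (s + (R - 1 - (i : ℕ))) / R + (y a + R - 1) / R := by
        intro i
        set x := s + (R - 1 - (i : ℕ)) with hx
        have e1 : y a + s + (R - 1 - (i : ℕ)) = x + y a := by omega
        rw [e1]
        apply Nat.le_of_lt_succ
        rw [Nat.div_lt_iff_lt_mul hR]
        have h5 := Nat.div_add_mod x R
        have h6 := Nat.mod_lt x hR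
        have h7 := Nat.div_add_mod (y a + R - 1) R
        have h8 := Nat.mod_lt (y a + R - 1) hR
        have h9 : (x / R + (y a + R - 1) / R).succ * R =
            R * (x / R) + R * ((y a + R - 1) / R) + R := by
          rw [Nat.succ_eq_add_one]; ring
        rw [h9]
        omega
      refine ⟨fun b i => if b = a then (y a + s + (R - 1 - (i : ℕ))) / R -
        (s + (R - 1 - (i : ℕ))) / R else z b i, ?_, ?_, ?_, ?_⟩
      · intro b hb
        rcases Finset.mem_insert.mp hb with hb | hb
        · subst hb
          simp only [if_true]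
          have e1 := T9_hermite R hR (y b + s)
          have e2 := T9_hermite R hR s
          have e3 : ∑ i : Fin R, ((y b + s + (R - 1 - (i : ℕ))) / R -
              (s + (R - 1 - (i : ℕ))) / R) + ∑ i : Fin R, (s + (R - 1 - (i : ℕ))) / R =
              ∑ i : Fin R, (y b + s + (R - 1 - (i : ℕ))) / R := by
            rw [← Finset.sum_add_distrib]
            apply Finset.sum_congr rfl
            intro i _
            exact Nat.sub_add_cancel (le_trans (Nat.le_add_right _ _) (hlow i))
          rw [e1, e2] at e3
          omega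
        · have hne : b ≠ a := fun h => ha (h ▸ hb)
          simp only [if_neg hne]
          exact h1 b hb
      · intro i
        rw [Finset.sum_insert ha, Finset.sum_insert ha]
        have e1 : ∑ b ∈ S, (if b = a then (y a + s + (R - 1 - (i : ℕ))) / R -
            (s + (R - 1 - (i : ℕ))) / R else z b i) = ∑ b ∈ S, z b i := by
          apply Finset.sum_congr rfl
          intro b hb
          have hne : b ≠ a := fun h => ha (h ▸ hb)
          rw [if_neg hne]
        rw [e1, h2 i]
        simp only [if_true]
        rw [← hs]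
        exact Nat.sub_add_cancel (le_trans (Nat.le_add_right _ _) (hlow i))
      · intro b hb i
        rcases Finset.mem_insert.mp hb with hb | hb
        · subst hb
          simp only [if_true]
          exact Nat.sub_le_iff_le_add'.mpr (hup i)
        · have hne : b ≠ a := fun h => ha (h ▸ hb)
          simp only [if_neg hne]
          exact h3 b hb i
      · intro b hb i
        rcases Finset.mem_insert.mp hb with hb | hb
        · subst hb
          simp only [if_true]
          exact Nat.le_sub_of_add_le (by rw [Nat.add_comm]; exact hlow i)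
        · have hne : b ≠ a := fun h => ha (h ▸ hb)
          simp only [if_neg hne]
          exact h4 b hb i
  obtain ⟨z, h1, h2, h3, h4⟩ := key Finset.univ
  refine ⟨z, fun a => h1 a (Finset.mem_univ _), ?_, fun a => h3 a (Finset.mem_univ _),
    fun a => h4 a (Finset.mem_univ _)⟩
  intro i
  rw [h2 i, htot]
  have hi := i.isLt
  rw [Nat.mul_add_div hR, Nat.div_eq_of_lt (by omega), Nat.add_zero]

end Pool.Agent.HCD
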