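import Pool.Agent.Lib.HCD.Defs2
import Pool.Agent.Lib.HCD.T9

/-!
# B4: the numbers of case B (section 5.3)

PROOF.  c w = min R (cr w - t).  Choose m w ≤ c w (w ∈ Exc) with ∑ m = min(2R, ∑ c) (order Exc, truncate) and ell' = 2R - ∑ m ≤ ell (hav).
`rounding` with R, T = 2, rows: w ∈ Exc (m w units, m w ≤ R: at most 1 per index) and one row of ell' units (A := Option {w // w ∈ Exc}, or V with 0 outside
Exc): z w i ∈ {0,1}, b i = z none i, ∑_w z w i + b i = 2; b i ≤ (ell' + R - 1)/R: b i ≤ 1 if ell' ≤ R; if ell' > R then ∑ m = ∑ c (as ell' > 0) < R, so by hav2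
ell' + 2dm ≤ ell.
For w: cross-cross number q = min (R - m) ((cr w - t - m)/2), own-own number p = R - m - q.  Choose a subset Q_w of the R - m indices with z w i = 0 of size q:
a i w = 1 if z w i = 1, 0 if i ∈ Q_w, 2 otherwise.  ∑_i (2 - a i w) = m + 2q ≤ cr w - t.  ∑_i a i w = m + 2p: if q = R - m: p = 0, m ≤ R ≤ own w - t (h1);
else 2q ≥ cr w - t - m - 1: 2p + m = 2R - m - 2q ≤ 2R - cr w + t + 1 ≤ own w - t (h3).
(For w ∉ Exc put a i w = 2.)
-/

set_option autoImplicit false

noncomputable section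

open scoped Classical
open Finset

namespace Pool.Agent.HCD

private theorem b4_choose {V : Type} (S : Finset V) (c : V → ℕ) (K : ℕ) (h : K ≤ ∑ w ∈ S, c w) :
    ∃ m : V → ℕ, (∀ w, m w ≤ c w) ∧ ∑ w ∈ S, m w = K := by
  induction S using Finset.induction_on generalizing K with
  | empty =>
    rw [Finset.sum_empty] at h
    exact ⟨fun _ => 0, fun _ => Nat.zero_le _, by rw [Finset.sum_empty]; omega⟩
  | insert a S ha ih =>
    rw [Finset.sum_insert ha] at h
    obtain ⟨m, hm, hs⟩ := ih (K - c a) (by omega)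
    refine ⟨fun w => if w = a then min (c a) K else m w, fun w => ?_, ?_⟩
    · dsimp only
      split_ifs with hw
      · rw [hw]
        exact min_le_left _ _
      · exact hm w
    · rw [Finset.sum_insert ha, if_pos rfl]
      have h1 : ∑ w ∈ S, (if w = a then min (c a) K else m w) = ∑ w ∈ S, m w :=
        Finset.sum_congr rfl fun w hw => if_neg fun (h0 : w = a) => ha (h0 ▸ hw)
      rw [h1, hs]
      omega

/-- the numbers for one exceptional vertex -/
private theorem b4_one {R : ℕ} (t own cr : ℕ) (z : Fin R → ℕ) (hz : ∀ i, z i ≤ 1) (h1 : R + t ≤ own)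
    (h2 : t ≤ cr) (h3 : 2 * R + 2 * t + 2 ≤ own + cr) (hm : ∑ i, z i ≤ min R (cr - t)) :
    ∃ a : Fin R → ℕ, (∀ i, a i ≤ 2) ∧ ∑ i, a i + t ≤ own ∧ ∑ i, (2 - a i) + t ≤ cr ∧
      ∀ i, a i = 1 ↔ z i = 1 := by
  set m := ∑ i, z i with hmdef
  have hZ : (univ.filter (fun i : Fin R => z i = 0)).card + m = R := by
    have h4 : m = (univ.filter (fun i : Fin R => ¬ z i = 0)).card := by
      rw [hmdef, Finset.card_filter]
      refine Finset.sum_congr rfl fun i _ => ?_
      have := hz i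
      split_ifs with h0 <;> omega
    have h5 := Finset.card_filter_add_card_filter_not (s := (univ : Finset (Fin R))) (fun i => z i = 0)
    rw [Finset.card_univ, Fintype.card_fin] at h5
    omega
  have hmR : m ≤ R := hm.trans (min_le_left _ _)
  have hmc : m ≤ cr - t := hm.trans (min_le_right _ _)
  obtain ⟨Q, hQ, hQc⟩ := Finset.exists_subset_card_eq
    (s := univ.filter (fun i : Fin R => z i = 0)) (n := min (R - m) ((cr - t - m) / 2)) (by omega)
  have hQz : ∀ i ∈ Q, z i = 0 := fun i hi => (Finset.mem_filter.1 (hQ hi)).2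
  let a : Fin R → ℕ := fun i => if z i = 1 then 1 else if i ∈ Q then 0 else 2
  have hsum : ∀ i, a i + z i + 2 * (if i ∈ Q then 1 else 0) = 2 := by
    intro i
    have h4 := hz i
    dsimp only [a]
    by_cases hi : i ∈ Q
    · have h5 := hQz i hi
      rw [h5, if_neg (by omega), if_pos hi, if_pos hi]
    · rw [if_neg hi, if_neg hi]
      split_ifs with h6 <;> omega
  have hS : ∑ i, a i + m + 2 * Q.card = 2 * R := by
    have h4 : ∑ i, (a i + z i + 2 * (if i ∈ Q then 1 else 0)) = ∑ _i : Fin R, 2 :=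
      Finset.sum_congr rfl fun i _ => hsum i
    rw [Finset.sum_add_distrib, Finset.sum_add_distrib, ← Finset.mul_sum, Finset.sum_const,
      Finset.card_univ, Fintype.card_fin, ← Finset.card_filter] at h4
    have h5 : (univ.filter (fun i => i ∈ Q)) = Q := by
      ext i
      simp
    rw [h5, smul_eq_mul] at h4
    omega
  have hle : ∀ i, a i ≤ 2 := fun i => by
    have := hsum i
    omega
  have hS2 : ∑ i, (2 - a i) + ∑ i, a i = 2 * R := by
    rw [← Finset.sum_add_distrib]
    have h4 : ∑ i, (2 - a i + a i) = ∑ _i : Fin R, 2 :=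
      Finset.sum_congr rfl fun i _ => Nat.sub_add_cancel (hle i)
    rw [h4, Finset.sum_const, Finset.card_univ, Fintype.card_fin, smul_eq_mul, mul_comm]
  refine ⟨a, hle, ?_, ?_, fun i => ?_⟩
  · rw [hQc] at hS
    omega
  · rw [hQc] at hS
    omega
  · dsimp only [a]
    constructor
    · intro h
      by_contra h0
      rw [if_neg h0] at h
      split_ifs at h
      all_goals omega
    · intro h
      rw [if_pos h]

theorem b_numbers {V : Type} [Fintype V] (Exc : Finset V) (R t ell dm : ℕ) (hR : 0 < R)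
    (own cr : V → ℕ) (h1 : ∀ w ∈ Exc, R + t ≤ own w) (h2 : ∀ w ∈ Exc, t ≤ cr w)
    (h3 : ∀ w ∈ Exc, 2 * R + 2 * t + 2 ≤ own w + cr w)
    (hav : 2 * R ≤ ∑ w ∈ Exc, min R (cr w - t) + ell)
    (hav2 : ∑ w ∈ Exc, min R (cr w - t) < R →
      2 * R + 2 * dm ≤ ∑ w ∈ Exc, min R (cr w - t) + ell) :
    ∃ (a : Fin R → V → ℕ) (b : Fin R → ℕ), (∀ i w, a i w ≤ 2) ∧
      (∀ w ∈ Exc, ∑ i, a i w + t ≤ own w) ∧ (∀ w ∈ Exc, ∑ i, (2 - a i w) + t ≤ cr w) ∧
      (∀ i, (Exc.filter (fun w => a i w = 1)).card + b i = 2) ∧ ∑ i, b i ≤ ell ∧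
      (∀ i, b i ≤ 1 ∨ ∑ j, b j + 2 * dm ≤ ell) := by
  obtain ⟨m, hm, hms⟩ := b4_choose Exc (fun w => min R (cr w - t))
    (min (2 * R) (∑ w ∈ Exc, min R (cr w - t))) (min_le_right _ _)
  set C := ∑ w ∈ Exc, min R (cr w - t) with hC
  let y : Option {w // w ∈ Exc} → ℕ := fun o => o.elim (2 * R - min (2 * R) C) fun w => m w.1
  have hy : ∑ o, y o = R * 2 := by
    rw [Fintype.sum_option]
    show (2 * R - min (2 * R) C) + ∑ w : {w // w ∈ Exc}, m w.1 = R * 2
    rw [Finset.sum_coe_sort Exc m, hms]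
    have := min_le_left (2 * R) C
    omega
  obtain ⟨z, hz1, hz2, hz3, _⟩ := rounding R 2 hR y hy
  have hzle : ∀ (w : {w // w ∈ Exc}) i, z (some w) i ≤ 1 := by
    intro w i
    have h4 := hz3 (some w) i
    have h5 : y (some w) ≤ R := (hm w.1).trans (min_le_left _ _)
    have h6 : (y (some w) + R - 1) / R < 2 := by
      rw [Nat.div_lt_iff_lt_mul hR]
      omega
    omega
  have hex : ∀ w : V, ∃ a : Fin R → ℕ, (∀ i, a i ≤ 2) ∧ (w ∈ Exc → ∑ i, a i + t ≤ own w) ∧
      (w ∈ Exc → ∑ i, (2 - a i) + t ≤ cr w) ∧ ∀ (hw : w ∈ Exc) i, a i = 1 ↔ z (some ⟨w, hw⟩) i = 1 := by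
    intro w
    by_cases hw : w ∈ Exc
    · obtain ⟨a, h4, h5, h6, h7⟩ := b4_one t (own w) (cr w) (z (some ⟨w, hw⟩)) (hzle ⟨w, hw⟩)
        (h1 w hw) (h2 w hw) (h3 w hw) (by
          rw [hz1 (some ⟨w, hw⟩)]
          exact hm w)
      exact ⟨a, h4, fun _ => h5, fun _ => h6, fun _ => h7⟩
    · exact ⟨fun _ => 2, fun _ => le_rfl, fun h => absurd h hw, fun h => absurd h hw,
        fun h => absurd h hw⟩
  choose a ha1 ha2 ha3 ha4 using hex
  have hb : ∑ i, z none i = 2 * R - min (2 * R) C := hz1 none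
  refine ⟨fun i w => a w i, fun i => z none i, fun i w => ha1 w i, fun w hw => ha2 w hw,
    fun w hw => ha3 w hw, fun i => ?_, ?_, fun i => ?_⟩
  · have h4 := hz2 i
    rw [Fintype.sum_option] at h4
    have h5 : (Exc.filter (fun w => a w i = 1)).card = ∑ w : {w // w ∈ Exc}, z (some w) i := by
      rw [Finset.card_filter, ← Finset.sum_coe_sort Exc]
      refine Finset.sum_congr rfl fun w _ => ?_
      have h6 := ha4 w.1 w.2 i
      have h7 := hzle w i
      by_cases h8 : z (some w) i = 1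
      · rw [if_pos (h6.2 h8), h8]
      · rw [if_neg fun h9 => h8 (h6.1 h9)]
        omega
    show (Exc.filter (fun w => a w i = 1)).card + z none i = 2
    rw [h5]
    omega
  · rw [hb]
    omega
  · have h4 := hz3 none i
    have h5 : y none = 2 * R - min (2 * R) C := rfl
    rw [h5] at h4
    by_cases h6 : 2 * R - min (2 * R) C ≤ R
    · left
      have h7 : (2 * R - min (2 * R) C + R - 1) / R < 2 := by
        rw [Nat.div_lt_iff_lt_mul hR]
        omega
      show z none i ≤ 1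
      omega
    · right
      have h7 := hav2 (by omega)
      rw [hb]
      omega

end Pool.Agent.HCD
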