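import Pool.Agent.Lib.HCD.Defs2

/-!
# B5: greedy edge-disjoint matchings of prescribed sizes

PROOF.  Choose Ns 0, Ns 1, .. in this order (induction on the number of indices already served, e.g. over the statement for `Fin R'`, R' ≤ R, or over
finsets of indices).  When i is served the unused pairs number E.card - ∑_{served j} b j ≥ E.card - ∑ b + b i > 2 dm (b i - 1) (if b i > 0).  Choose b i pairs
one after the other: each pair chosen kills at most 2 dm pairs (those meeting it), so while fewer than b i are chosen (at most b i - 1) there is an unused pair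
disjoint from the chosen ones.
-/

set_option autoImplicit false

noncomputable section

open scoped Classical
open Finset

namespace Pool.Agent.HCD

private theorem b5_insert {V : Type} {M : Finset (V × V)} (hM : IsMat M) {p : V × V}
    (hp : p.1 ≠ p.2) (h1 : p.1 ∉ vs M) (h2 : p.2 ∉ vs M) : IsMat (insert p M) := by
  have m1 : ∀ q ∈ M, q.1 ∈ vs M := fun q hq => mem_union_left _ (mem_image_of_mem _ hq)
  have m2 : ∀ q ∈ M, q.2 ∈ vs M := fun q hq => mem_union_right _ (mem_image_of_mem _ hq)
  refine ⟨?_, ?_, ?_, ?_⟩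
  · intro q hq
    rcases mem_insert.1 hq with rfl | hq
    · exact hp
    · exact hM.ne q hq
  · intro q hq r hr h
    rcases mem_insert.1 hq with rfl | hq' <;> rcases mem_insert.1 hr with rfl | hr'
    · rfl
    · exact absurd (h ▸ m1 r hr') h1
    · exact absurd (h ▸ m1 q hq') h1
    · exact hM.fst q hq' r hr' h
  · intro q hq r hr h
    rcases mem_insert.1 hq with rfl | hq' <;> rcases mem_insert.1 hr with rfl | hr'
    · rfl
    · exact absurd (h ▸ m2 r hr') h2
    · exact absurd (h ▸ m2 q hq') h2
    · exact hM.snd q hq' r hr' h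
  · intro q hq r hr h
    rcases mem_insert.1 hq with rfl | hq' <;> rcases mem_insert.1 hr with rfl | hr'
    · exact hp h
    · exact h1 (h ▸ m2 r hr')
    · exact h2 (h ▸ m1 q hq')
    · exact hM.mix q hq' r hr' h

private theorem b5_one {V : Type} (E U : Finset (V × V)) (hU : U ⊆ E)
    (hE : ∀ p ∈ E, p.1 ≠ p.2) (dm : ℕ)
    (hdm : ∀ x, (E.filter (fun p => p.1 = x ∨ p.2 = x)).card ≤ dm) (c : ℕ)
    (hc : c = 0 ∨ 2 * dm * (c - 1) < U.card) :
    ∃ M : Finset (V × V), M ⊆ U ∧ M.card = c ∧ IsMat M := by
  induction c with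
  | zero =>
    refine ⟨∅, empty_subset _, card_empty, ?_⟩
    constructor <;> simp
  | succ c ih =>
    have hc1 : 2 * dm * c < U.card := by
      rcases hc with h | h
      · omega
      · simpa using h
    obtain ⟨M, hMU, hMc, hM⟩ := ih (Or.inr (lt_of_le_of_lt (Nat.mul_le_mul_left _ (by omega)) hc1))
    have hv : (vs M).card ≤ 2 * c := by
      refine (card_union_le _ _).trans ?_
      have e1 := card_image_le (s := M) (f := Prod.fst)
      have e2 := card_image_le (s := M) (f := Prod.snd)
      omega
    have hbad : (U.filter (fun p => p.1 ∈ vs M ∨ p.2 ∈ vs M)).card < U.card := by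
      refine lt_of_le_of_lt ?_ hc1
      have hsub : U.filter (fun p => p.1 ∈ vs M ∨ p.2 ∈ vs M) ⊆
          (vs M).biUnion (fun x => E.filter (fun p => p.1 = x ∨ p.2 = x)) := by
        intro p hp
        obtain ⟨hp, h⟩ := mem_filter.1 hp
        rw [mem_biUnion]
        rcases h with h | h
        · exact ⟨p.1, h, mem_filter.2 ⟨hU hp, Or.inl rfl⟩⟩
        · exact ⟨p.2, h, mem_filter.2 ⟨hU hp, Or.inr rfl⟩⟩
      refine (card_le_card hsub).trans ((card_biUnion_le_card_mul _ _ dm fun x _ => hdm x).trans ?_)
      calc (vs M).card * dm ≤ 2 * c * dm := Nat.mul_le_mul_right _ hv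
        _ = 2 * dm * c := by ring
    obtain ⟨p, hpU, hp⟩ : ∃ p ∈ U, ¬ (p.1 ∈ vs M ∨ p.2 ∈ vs M) := by
      by_contra hcon
      push Not at hcon
      rw [filter_true_of_mem hcon] at hbad
      exact lt_irrefl _ hbad
    rw [not_or] at hp
    have hpM : p ∉ M := fun h => hp.1 (mem_union_left _ (mem_image_of_mem _ h))
    refine ⟨insert p M, insert_subset hpU hMU, ?_, b5_insert hM (hE p (hU hpU)) hp.1 hp.2⟩
    rw [card_insert_of_notMem hpM, hMc]

theorem matchings {V : Type} [Fintype V] (E : Finset (V × V))
    (hE : ∀ p ∈ E, p.1 ≠ p.2 ∧ p.swap ∉ E) (dm : ℕ)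
    (hdm : ∀ x, (E.filter (fun p => p.1 = x ∨ p.2 = x)).card ≤ dm) (R : ℕ) (b : Fin R → ℕ)
    (h : ∀ i, b i = 0 ∨ 2 * dm * (b i - 1) + ∑ j, b j < E.card + b i) :
    ∃ Ns : Fin R → Finset (V × V), (∀ i, Ns i ⊆ E) ∧ (∀ i, (Ns i).card = b i) ∧
      (∀ i, IsMat (Ns i)) ∧ (∀ i j, i ≠ j → Disjoint (Ns i) (Ns j)) := by
  have main : ∀ S : Finset (Fin R), ∃ Ns : Fin R → Finset (V × V), (∀ i ∈ S, Ns i ⊆ E) ∧
      (∀ i ∈ S, (Ns i).card = b i) ∧ (∀ i ∈ S, IsMat (Ns i)) ∧
      (∀ i ∈ S, ∀ j ∈ S, i ≠ j → Disjoint (Ns i) (Ns j)) := by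
    intro S
    induction S using Finset.induction_on with
    | empty => exact ⟨fun _ => ∅, by simp, by simp, by simp, by simp⟩
    | insert i S hi ih =>
      obtain ⟨Ns, n1, n2, n3, n4⟩ := ih
      have hcard : E.card + b i ≤ (E \ S.biUnion Ns).card + ∑ j, b j := by
        have e1 : (S.biUnion Ns).card ≤ ∑ j ∈ S, b j := by
          refine card_biUnion_le.trans (sum_le_sum fun j hj => (n2 j hj).le)
        have e2 : E.card ≤ (E \ S.biUnion Ns).card + (S.biUnion Ns).card := by
          have := card_le_card (show E ⊆ (E \ S.biUnion Ns) ∪ S.biUnion Ns by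
            intro x hx
            by_cases h : x ∈ S.biUnion Ns
            · exact mem_union_right _ h
            · exact mem_union_left _ (mem_sdiff.2 ⟨hx, h⟩))
          exact this.trans (card_union_le _ _)
        have e3 : ∑ j ∈ insert i S, b j ≤ ∑ j, b j :=
          sum_le_sum_of_subset (subset_univ _)
        rw [sum_insert hi] at e3
        omega
      obtain ⟨M, m1, m2, m3⟩ := b5_one E (E \ S.biUnion Ns) sdiff_subset
        (fun p hp => (hE p hp).1) dm hdm (b i) (by
          rcases h i with h0 | h0
          · exact Or.inl h0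
          · right
            omega)
      have hMd : ∀ j ∈ S, Disjoint M (Ns j) := by
        intro j hj
        rw [disjoint_left]
        intro x hx hx'
        exact (mem_sdiff.1 (m1 hx)).2 (mem_biUnion.2 ⟨j, hj, hx'⟩)
      have hu : ∀ j ∈ S, Function.update Ns i M j = Ns j := fun j hj =>
        Function.update_of_ne (fun h0 : j = i => hi (h0 ▸ hj)) _ _
      refine ⟨Function.update Ns i M, ?_, ?_, ?_, ?_⟩
      · intro j hj
        rcases mem_insert.1 hj with rfl | hj
        · rw [Function.update_self]
          exact m1.trans sdiff_subset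
        · rw [hu j hj]
          exact n1 j hj
      · intro j hj
        rcases mem_insert.1 hj with rfl | hj
        · rw [Function.update_self]
          exact m2
        · rw [hu j hj]
          exact n2 j hj
      · intro j hj
        rcases mem_insert.1 hj with rfl | hj
        · rw [Function.update_self]
          exact m3
        · rw [hu j hj]
          exact n3 j hj
      · intro j hj k hk hjk
        rcases mem_insert.1 hj with rfl | hj' <;> rcases mem_insert.1 hk with rfl | hk'
        · exact absurd rfl hjk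
        · rw [Function.update_self, hu k hk']
          exact hMd k hk'
        · rw [Function.update_self, hu j hj']
          exact (hMd j hj').symm
        · rw [hu j hj', hu k hk']
          exact n4 j hj' k hk' hjk
  obtain ⟨Ns, n1, n2, n3, n4⟩ := main univ
  exact ⟨Ns, fun i => n1 i (mem_univ _), fun i => n2 i (mem_univ _), fun i => n3 i (mem_univ _),
    fun i j => n4 i (mem_univ _) j (mem_univ _)⟩

end Pool.Agent.HCD
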