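import Pool.Agent.Lib.HCD.Defs

/-!
# Definitions for the extremal cases B and C
-/

set_option autoImplicit false

noncomputable section

open scoped Classical
open Finset

namespace Pool.Agent.HCD

variable {V : Type} [Fintype V]

/-- the side of `v` in the partition `A`, complement of `A` -/
def sameS (A : Finset V) (v : V) : Finset V := if v ∈ A then A else univ \ A

/-- the side opposite to `v` -/
def oppS (A : Finset V) (v : V) : Finset V := if v ∈ A then univ \ A else A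

/-- number of light neighbours on the own side -/
def ownL (G : SimpleGraph V) (A Exc : Finset V) (v : V) : ℕ := dg G v (sameS A v \ Exc)

/-- number of light neighbours on the other side -/
def crL (G : SimpleGraph V) (A Exc : Finset V) (v : V) : ℕ := dg G v (oppS A v \ Exc)

/-- partition of case B (section 5.1) -/
structure BP (G : SimpleGraph V) (A : Finset V) (κ : ℝ) : Prop where
  lo : (1 / 2 - κ) * Fintype.card V ≤ A.card
  lo' : (1 / 2 - κ) * Fintype.card V ≤ (univ \ A).card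
  few : (eo G A (univ \ A) : ℝ) ≤ κ * (Fintype.card V : ℝ) ^ 2
  own : ∀ v, (1 / 4 - κ) * Fintype.card V ≤ dg G v (sameS A v)

/-- partition of case C (section 6.1) -/
structure CPt (G : SimpleGraph V) (A : Finset V) (κ : ℝ) : Prop where
  lo : (1 / 2 - κ) * Fintype.card V ≤ A.card
  lo' : (1 / 2 - κ) * Fintype.card V ≤ (univ \ A).card
  miss : (A.card : ℝ) * (univ \ A).card - eo G A (univ \ A) ≤ κ * (Fintype.card V : ℝ) ^ 2
  cross : ∀ v, (Fintype.card V : ℝ) / 10 ≤ dg G v (oppS A v)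

/-- the virtual pairs of the structure J_i: leaf pairs of the cherries and light edges -/
def jv {R : ℕ} (Exc : Finset V) (u v : Fin R → V → V) (Ns : Fin R → Finset (V × V))
    (i : Fin R) : Finset (V × V) :=
  Exc.image (fun w => (u i w, v i w)) ∪ Ns i

/-- the structures J_i, i < R: for every exceptional `w` the cherry `u i w - w - v i w` with light
leaves, and a matching `Ns i` of light edges; vertex-disjoint for fixed `i`, edge-disjoint over `i` -/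
structure JS (G : SimpleGraph V) (Exc : Finset V) {R : ℕ} (u v : Fin R → V → V)
    (Ns : Fin R → Finset (V × V)) : Prop where
  uadj : ∀ i, ∀ w ∈ Exc, G.Adj w (u i w)
  vadj : ∀ i, ∀ w ∈ Exc, G.Adj w (v i w)
  uL : ∀ i, ∀ w ∈ Exc, u i w ∉ Exc
  vL : ∀ i, ∀ w ∈ Exc, v i w ∉ Exc
  nadj : ∀ i, ∀ p ∈ Ns i, G.Adj p.1 p.2
  nL : ∀ i, ∀ p ∈ Ns i, p.1 ∉ Exc ∧ p.2 ∉ Exc
  uv : ∀ i, ∀ w ∈ Exc, u i w ≠ v i w
  leaf : ∀ i, ∀ w ∈ Exc, ∀ w' ∈ Exc, w ≠ w' →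
    u i w ≠ u i w' ∧ u i w ≠ v i w' ∧ v i w ≠ v i w'
  leafN : ∀ i, ∀ w ∈ Exc, ∀ p ∈ Ns i, p.1 ≠ u i w ∧ p.1 ≠ v i w ∧ p.2 ≠ u i w ∧ p.2 ≠ v i w
  nmat : ∀ i, IsMat (Ns i)
  edist : ∀ i j, i ≠ j → ∀ w ∈ Exc, u i w ≠ u j w ∧ u i w ≠ v j w ∧ v i w ≠ v j w
  ndist : ∀ i j, i ≠ j → ∀ p ∈ Ns i, ∀ q ∈ Ns j, s(p.1, p.2) ≠ s(q.1, q.2)

/-- the structures of case B: exactly two mixed units `a1 b1`, `a2 b2` -/
structure BJ (G : SimpleGraph V) (A Exc : Finset V) {R : ℕ} (u v : Fin R → V → V)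
    (Ns : Fin R → Finset (V × V)) (a1 a2 b1 b2 : Fin R → V) : Prop where
  js : JS G Exc u v Ns
  ncross : ∀ i, ∀ p ∈ Ns i, p.1 ∈ A ∧ p.2 ∉ A
  mem : ∀ i, a1 i ∈ A \ Exc ∧ a2 i ∈ A \ Exc ∧ b1 i ∈ (univ \ A) \ Exc ∧ b2 i ∈ (univ \ A) \ Exc
  ne : ∀ i, a1 i ≠ a2 i ∧ b1 i ≠ b2 i
  m1 : ∀ i, (a1 i, b1 i) ∈ jv Exc u v Ns i ∨ (b1 i, a1 i) ∈ jv Exc u v Ns i
  m2 : ∀ i, (a2 i, b2 i) ∈ jv Exc u v Ns i ∨ (b2 i, a2 i) ∈ jv Exc u v Ns i
  pure : ∀ i, ∀ p ∈ jv Exc u v Ns i, (p.1 ∈ A ∧ p.2 ∈ A) ∨ (p.1 ∉ A ∧ p.2 ∉ A) ∨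
    s(p.1, p.2) = s(a1 i, b1 i) ∨ s(p.1, p.2) = s(a2 i, b2 i)

end Pool.Agent.HCD
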