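import Pool.Agent.Lib.HCD.T13
import Pool.Agent.Lib.HCD.Defs2

/-!
# B6: choice of the leaves of the cherries (sections 5.5, 6.5)

PROOF.  `list_choice` with demands D = {(i,w,c) : i : Fin R, w ∈ Exc, c : Bool} (c = false: u, c = true: v); type of (i,w,false): own (S1 w) if 1 ≤ a i w, else
cross (S2 w); type of (i,w,true): own if a i w = 2, else cross.  Candidates: (S w of that type) \ Fb i.  conf d e: same i, or (same w and same type).
Number of e ≠ d in conflict: same i: at most 2|Exc| - 1; same w, same type, other i: at most (total number of demands of w of that type) - 1, where the total is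
∑_i a i w (own) or ∑_i (2 - a i w) (cross).  So deg + 1 ≤ 2|Exc| + total ≤ |S w| - |Fb i|, using total + t ≤ |S w|, 2|Exc| + |Fb i| ≤ t.
Leaves of the same w and different i: same type: different by conf; different types: S1 w, S2 w are disjoint.  u ≠ v for the same i.
-/

set_option autoImplicit false

noncomputable section

open scoped Classical
open Finset

namespace Pool.Agent.HCD

theorem cherries {V : Type} [Fintype V] (Exc : Finset V) (R t : ℕ) (a : Fin R → V → ℕ)
    (S1 S2 : V → Finset V) (Fb : Fin R → Finset V) (ha : ∀ i w, a i w ≤ 2)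
    (hd : ∀ w, Disjoint (S1 w) (S2 w))
    (h1 : ∀ w ∈ Exc, (∀ i, a i w = 0) ∨ ∑ i, a i w + t ≤ (S1 w).card)
    (h2 : ∀ w ∈ Exc, (∀ i, a i w = 2) ∨ ∑ i, (2 - a i w) + t ≤ (S2 w).card)
    (ht : ∀ i, 2 * Exc.card + (Fb i).card ≤ t) :
    ∃ u v : Fin R → V → V,
      (∀ i, ∀ w ∈ Exc, u i w ∈ (if 1 ≤ a i w then S1 w else S2 w) ∧
        v i w ∈ (if a i w = 2 then S1 w else S2 w) ∧ u i w ∉ Fb i ∧ v i w ∉ Fb i ∧
        u i w ≠ v i w) ∧
      (∀ i, ∀ w ∈ Exc, ∀ w' ∈ Exc, w ≠ w' →
        u i w ≠ u i w' ∧ u i w ≠ v i w' ∧ v i w ≠ v i w') ∧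
      (∀ i j, i ≠ j → ∀ w ∈ Exc, u i w ≠ u j w ∧ u i w ≠ v j w ∧ v i w ≠ v j w) := by
  set D : Type := Fin R × ({w // w ∈ Exc} × Bool) with hD
  let typ : D → Bool := fun d => if d.2.2 = false then decide (1 ≤ a d.1 d.2.1) else
    decide (a d.1 d.2.1 = 2)
  let S : D → Finset V := fun d => if typ d = true then S1 d.2.1 else S2 d.2.1
  let C : D → Finset V := fun d => S d \ Fb d.1
  let conf : D → D → Prop := fun d e => d.1 = e.1 ∨ (d.2.1 = e.2.1 ∧ typ d = typ e)
  have hsymm : ∀ d e, conf d e → conf e d := by
    intro d e h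
    rcases h with h | h
    · exact Or.inl h.symm
    · exact Or.inr ⟨h.1.symm, h.2.symm⟩
  -- the number of demands of `w` of a given type
  have hcnt : ∀ (w : {w // w ∈ Exc}) (b : Bool), (univ.filter (fun e : D => w = e.2.1 ∧ b = typ e)).card ≤
      ∑ i, (if b = true then a i w else 2 - a i w) := by
    intro w b
    rw [Finset.card_eq_sum_card_fiberwise (f := fun e : D => e.1) (t := univ)
      (fun _ _ => Finset.mem_coe.2 (mem_univ _))]
    apply Finset.sum_le_sum
    intro i _
    have h1 : (((univ.filter (fun e : D => w = e.2.1 ∧ b = typ e))).filter (fun e => e.1 = i)).card ≤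
        (univ.filter (fun c : Bool => b = typ (i, (w, c)))).card := by
      apply Finset.card_le_card_of_injOn (fun e => e.2.2)
      · intro e he
        simp only [Finset.coe_filter, Finset.mem_filter, Finset.mem_univ, true_and,
          Set.mem_ofPred_eq] at he ⊢
        obtain ⟨⟨h1, h2⟩, rfl⟩ := he
        rw [h2, h1]
      · intro e he e' he' hee
        simp only [Finset.coe_filter, Finset.mem_filter, Finset.mem_univ, true_and,
          Set.mem_ofPred_eq] at he he'
        exact Prod.ext (he.2.trans he'.2.symm) (Prod.ext (he.1.1.symm.trans he'.1.1) hee)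
    refine le_trans h1 ?_
    have h2 := ha i w
    have h3 : a i w = 0 ∨ a i w = 1 ∨ a i w = 2 := by omega
    rcases h3 with h3 | h3 | h3 <;> rcases b with _ | _ <;>
      simp [typ, h3, Finset.card_filter]
  have hdeg : ∀ d, (univ.filter (fun e => e ≠ d ∧ conf d e)).card < (C d).card := by
    intro d
    have hsub : univ.filter (fun e => e ≠ d ∧ conf d e) ⊆
        (univ.filter (fun e : D => e.1 = d.1)).erase d ∪
        (univ.filter (fun e : D => d.2.1 = e.2.1 ∧ typ d = typ e)).erase d := by
      intro e he
      simp only [Finset.mem_filter, Finset.mem_univ, true_and, Finset.mem_union,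
        Finset.mem_erase] at he ⊢
      rcases he.2 with h | h
      · exact Or.inl ⟨he.1, h.symm⟩
      · exact Or.inr ⟨he.1, h⟩
    have hA : (univ.filter (fun e : D => e.1 = d.1)).card ≤ 2 * Exc.card := by
      have : (univ.filter (fun e : D => e.1 = d.1)).card ≤
          (univ : Finset ({w // w ∈ Exc} × Bool)).card := by
        apply Finset.card_le_card_of_injOn (fun e => e.2)
        · intro e _; exact Finset.mem_coe.2 (mem_univ _)
        · intro e he e' he' hee
          simp only [Finset.coe_filter, Finset.mem_univ, true_and, Set.mem_ofPred_eq] at he he'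
          exact Prod.ext (he.trans he'.symm) hee
      refine le_trans this ?_
      rw [Finset.card_univ, Fintype.card_prod, Fintype.card_coe, Fintype.card_bool]
      omega
    have hdA : d ∈ univ.filter (fun e : D => e.1 = d.1) := by simp
    have hdB : d ∈ univ.filter (fun e : D => d.2.1 = e.2.1 ∧ typ d = typ e) := by simp
    have hB := hcnt d.2.1 (typ d)
    have h3 := Finset.card_erase_add_one hdA
    have h4 := Finset.card_erase_add_one hdB
    have h5 := le_trans (Finset.card_le_card hsub) (Finset.card_union_le _ _)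
    have h6 := ht d.1
    have h7 : (S d).card - (Fb d.1).card ≤ (C d).card := Finset.le_card_sdiff _ _
    have h8 : (∑ i, (if typ d = true then a i d.2.1 else 2 - a i d.2.1)) + t ≤ (S d).card := by
      by_cases htd : typ d = true
      · simp only [S, htd, if_true]
        rcases h1 d.2.1 d.2.1.2 with h | h
        · exfalso
          have h9 := h d.1
          simp only [typ] at htd
          split_ifs at htd with h10
          · simp [h9] at htd
          · simp [h9] at htd
        · exact h
      · simp only [S, htd]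
        rcases h2 d.2.1 d.2.1.2 with h | h
        · exfalso
          have h9 := h d.1
          apply htd
          simp only [typ, h9]
          split_ifs <;> simp
        · exact h
    omega
  obtain ⟨g, hg, hgc⟩ := list_choice conf hsymm C (fun d => by convert hdeg d)
  have hgS : ∀ d, g d ∈ S d ∧ g d ∉ Fb d.1 := fun d => by
    have := hg d
    rwa [Finset.mem_sdiff] at this
  have hn1 : ∀ d e : D, d.1 ≠ e.1 → d ≠ e := fun d e h h' => h (congrArg Prod.fst h')
  have hn2 : ∀ d e : D, d.2.1 ≠ e.2.1 → d ≠ e := fun d e h h' =>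
    h (congrArg (fun q : D => q.2.1) h')
  have hn3 : ∀ d e : D, d.2.2 ≠ e.2.2 → d ≠ e := fun d e h h' =>
    h (congrArg (fun q : D => q.2.2) h')
  refine ⟨fun i w => if h : w ∈ Exc then g (i, (⟨w, h⟩, false)) else w,
    fun i w => if h : w ∈ Exc then g (i, (⟨w, h⟩, true)) else w, ?_, ?_, ?_⟩
  · intro i w hw
    simp only [dif_pos hw]
    refine ⟨?_, ?_, (hgS _).2, (hgS _).2, ?_⟩
    · have := (hgS (i, (⟨w, hw⟩, false))).1
      simpa [S, typ] using this
    · have := (hgS (i, (⟨w, hw⟩, true))).1
      simpa [S, typ] using this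
    · exact hgc _ _ (hn3 _ _ (by simp)) (Or.inl rfl)
  · intro i w hw w' hw' hww
    simp only [dif_pos hw, dif_pos hw']
    refine ⟨hgc _ _ (hn2 _ _ ?_) (Or.inl rfl), hgc _ _ (hn2 _ _ ?_) (Or.inl rfl),
      hgc _ _ (hn2 _ _ ?_) (Or.inl rfl)⟩ <;>
      · simp only [ne_eq, Subtype.mk.injEq]
        exact hww
  · intro i j hij w hw
    simp only [dif_pos hw]
    have key : ∀ c c' : Bool, g (i, (⟨w, hw⟩, c)) ≠ g (j, (⟨w, hw⟩, c')) := by
      intro c c'
      by_cases htt : typ (i, (⟨w, hw⟩, c)) = typ (j, (⟨w, hw⟩, c'))
      · exact hgc _ _ (hn1 _ _ hij) (Or.inr ⟨rfl, htt⟩)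
      · intro heq
        have h1 := (hgS (i, (⟨w, hw⟩, c))).1
        have h2 := (hgS (j, (⟨w, hw⟩, c'))).1
        rw [← heq] at h2
        have h3 := Finset.disjoint_left.1 (hd w)
        by_cases hc : typ (i, (⟨w, hw⟩, c)) = true
        · have hc' : ¬ typ (j, (⟨w, hw⟩, c')) = true := fun h => htt (hc.trans h.symm)
          simp only [S, hc, hc', if_true] at h1 h2
          exact h3 h1 h2
        · have hc' : typ (j, (⟨w, hw⟩, c')) = true := by
            cases h : typ (j, (⟨w, hw⟩, c')) with
            | true => rfl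
            | false =>
              exfalso
              apply htt
              rw [h]
              simpa using hc
          simp only [S, hc, hc', if_true] at h1 h2
          exact h3 h2 h1
    exact ⟨key _ _, key _ _, key _ _⟩

end Pool.Agent.HCD
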