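import Pool.Agent.Lib.HCD.B3
import Pool.Agent.Lib.HCD.B4
import Pool.Agent.Lib.HCD.B5
import Pool.Agent.Lib.HCD.B6

/-!
# B7: the structures J_i of case B

PROOF.  (a, b) from `b_numbers` with own = ownL G A Exc, cr = crL G A Exc, ell = eo G (A\Exc) ((univ\A)\Exc).
Light cross edges: `matchings` with E = ((A\Exc) ×ˢ ((univ\A)\Exc)).filter (G.Adj) (E.card = ell, p.swap ∉ E), degrees ≤ dm by hdm;
the condition: b i = 1: ∑ b ≤ ell; b i = 2: 2dm + ∑ b < ell + 2 by the last clause.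
Cherries: `cherries` with S1 w = light neighbours on the own side, S2 w = light neighbours on the other side, Fb i = vs (Ns i) (≤ 4 elements: b i ≤ 2), ht by hyp.
JS: clear.  ndist: Ns i, Ns j are disjoint subsets of E ⊆ (A) × (complement): equal unordered pairs are equal ordered pairs.
Mixed units: the w with a i w = 1 (leaves u i w ∈ own side, v i w ∈ other side) and the pairs of Ns i: exactly 2 together; a1, b1, a2, b2 = their ends
in A resp. outside.  They are different because all the leaves and ends of Ns i are different.  pure: a i w = 2: both leaves on the side of w; 0: both on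
the other side.
-/

set_option autoImplicit false

noncomputable section

open scoped Classical
open Finset

namespace Pool.Agent.HCD

private theorem b7_same {V : Type} [Fintype V] {A : Finset V} {w x : V} (h : x ∈ sameS A w) :
    x ∈ A ↔ w ∈ A := by
  unfold sameS at h
  split_ifs at h with hw
  · exact iff_of_true h hw
  · exact iff_of_false (mem_sdiff.1 h).2 hw

private theorem b7_opp {V : Type} [Fintype V] {A : Finset V} {w x : V} (h : x ∈ oppS A w) :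
    x ∈ A ↔ w ∉ A := by
  unfold oppS at h
  split_ifs at h with hw
  · exact iff_of_false (mem_sdiff.1 h).2 (not_not.2 hw)
  · exact iff_of_true h hw

private theorem b7_deg {V : Type} [Fintype V] (G : SimpleGraph V) (A Exc : Finset V) (dm : ℕ)
    (hdm : ∀ v ∉ Exc, crL G A Exc v ≤ dm) (x : V) :
    ((((A \ Exc) ×ˢ ((univ \ A) \ Exc)).filter (fun p => G.Adj p.1 p.2)).filter
      (fun p => p.1 = x ∨ p.2 = x)).card ≤ dm := by
  by_cases hx : x ∈ Exc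
  · rw [filter_eq_empty_iff.2 ?_]
    · simp
    · intro p hp
      rw [mem_filter, mem_product, mem_sdiff, mem_sdiff] at hp
      rintro (h | h)
      · exact hp.1.1.2 (h ▸ hx)
      · exact hp.1.2.2 (h ▸ hx)
  refine le_trans ?_ (hdm x hx)
  unfold crL dg
  by_cases hA : x ∈ A
  · refine card_le_card_of_injOn Prod.snd ?_ ?_
    · intro p hp
      simp only [coe_filter, Set.mem_ofPred_eq, mem_filter, mem_product, mem_sdiff, mem_univ,
        true_and] at hp ⊢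
      obtain ⟨⟨⟨⟨h1, h2⟩, h3, h4⟩, h5⟩, h6⟩ := hp
      rcases h6 with h6 | h6
      · refine ⟨⟨?_, h4⟩, h6 ▸ h5⟩
        rw [oppS, if_pos hA]
        exact mem_sdiff.2 ⟨mem_univ _, h3⟩
      · exact absurd (h6 ▸ hA) h3
    · intro p hp q hq h
      simp only [coe_filter, Set.mem_ofPred_eq, mem_filter, mem_product, mem_sdiff, mem_univ,
        true_and] at hp hq
      have e1 : p.1 = x := hp.2.resolve_right fun h6 => hp.1.1.2.1 (h6 ▸ hA)
      have e2 : q.1 = x := hq.2.resolve_right fun h6 => hq.1.1.2.1 (h6 ▸ hA)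
      exact Prod.ext (e1.trans e2.symm) h
  · refine card_le_card_of_injOn Prod.fst ?_ ?_
    · intro p hp
      simp only [coe_filter, Set.mem_ofPred_eq, mem_filter, mem_product, mem_sdiff, mem_univ,
        true_and] at hp ⊢
      obtain ⟨⟨⟨⟨h1, h2⟩, h3, h4⟩, h5⟩, h6⟩ := hp
      rcases h6 with h6 | h6
      · exact absurd (h6 ▸ h1) hA
      · refine ⟨⟨?_, h2⟩, h6 ▸ h5.symm⟩
        rw [oppS, if_neg hA]
        exact h1
    · intro p hp q hq h
      simp only [coe_filter, Set.mem_ofPred_eq, mem_filter, mem_product, mem_sdiff, mem_univ,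
        true_and] at hp hq
      have e1 : p.2 = x := hp.2.resolve_left fun h6 => hA (h6 ▸ hp.1.1.1.1)
      have e2 : q.2 = x := hq.2.resolve_left fun h6 => hA (h6 ▸ hq.1.1.1.1)
      exact Prod.ext h (e1.trans e2.symm)

private theorem b7_mat {V : Type} [Fintype V] {G : SimpleGraph V} {Exc : Finset V} {R : ℕ}
    {u v : Fin R → V → V} {Ns : Fin R → Finset (V × V)} (hJ : JS G Exc u v Ns) (i : Fin R)
    {p q : V × V} (hp : p ∈ jv Exc u v Ns i) (hq : q ∈ jv Exc u v Ns i) (hpq : p ≠ q) :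
    p.1 ≠ q.1 ∧ p.1 ≠ q.2 ∧ p.2 ≠ q.1 ∧ p.2 ≠ q.2 := by
  unfold jv at hp hq
  rcases mem_union.1 hp with hp | hp <;> rcases mem_union.1 hq with hq | hq
  · obtain ⟨w, hw, rfl⟩ := mem_image.1 hp
    obtain ⟨w', hw', rfl⟩ := mem_image.1 hq
    have hww : w ≠ w' := fun h => hpq (by rw [h])
    obtain ⟨h1, h2, h3⟩ := hJ.leaf i w hw w' hw' hww
    obtain ⟨-, h5, -⟩ := hJ.leaf i w' hw' w hw hww.symm
    exact ⟨h1, h2, h5.symm, h3⟩
  · obtain ⟨w, hw, rfl⟩ := mem_image.1 hp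
    obtain ⟨h1, h2, h3, h4⟩ := hJ.leafN i w hw q hq
    exact ⟨h1.symm, h3.symm, h2.symm, h4.symm⟩
  · obtain ⟨w, hw, rfl⟩ := mem_image.1 hq
    obtain ⟨h1, h2, h3, h4⟩ := hJ.leafN i w hw p hp
    exact ⟨h1, h2, h3, h4⟩
  · exact ⟨fun h => hpq ((hJ.nmat i).fst p hp q hq h), (hJ.nmat i).mix p hp q hq,
      ((hJ.nmat i).mix q hq p hp).symm, fun h => hpq ((hJ.nmat i).snd p hp q hq h)⟩

private theorem b7_light {V : Type} [Fintype V] {G : SimpleGraph V} {Exc : Finset V} {R : ℕ}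
    {u v : Fin R → V → V} {Ns : Fin R → Finset (V × V)} (hJ : JS G Exc u v Ns) (i : Fin R)
    {p : V × V} (hp : p ∈ jv Exc u v Ns i) : p.1 ∉ Exc ∧ p.2 ∉ Exc := by
  unfold jv at hp
  rcases mem_union.1 hp with hp | hp
  · obtain ⟨w, hw, rfl⟩ := mem_image.1 hp
    exact ⟨hJ.uL i w hw, hJ.vL i w hw⟩
  · exact hJ.nL i p hp

/-- the end of `p` in `A` and the other one -/
private theorem b7_or {V : Type} {A : Finset V} (p : V × V)
    (h : (p.1 ∈ A ∧ p.2 ∉ A) ∨ (p.1 ∉ A ∧ p.2 ∈ A)) :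
    ∃ a b : V, a ∈ A ∧ b ∉ A ∧ ((a = p.1 ∧ b = p.2) ∨ (a = p.2 ∧ b = p.1)) := by
  rcases h with h | h
  · exact ⟨p.1, p.2, h.1, h.2, Or.inl ⟨rfl, rfl⟩⟩
  · exact ⟨p.2, p.1, h.2, h.1, Or.inr ⟨rfl, rfl⟩⟩

private theorem b7_mixed {V : Type} [Fintype V] {G : SimpleGraph V} {A Exc : Finset V} {R : ℕ}
    {u v : Fin R → V → V} {Ns : Fin R → Finset (V × V)} (hJ : JS G Exc u v Ns) (i : Fin R)
    (hN : ∀ p ∈ Ns i, p.1 ∈ A ∧ p.2 ∉ A)
    (hc : (Exc.filter (fun w => ¬ (u i w ∈ A ↔ v i w ∈ A))).card + (Ns i).card = 2) :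
    ∃ a1 a2 b1 b2 : V, (a1 ∈ A \ Exc ∧ a2 ∈ A \ Exc ∧ b1 ∈ (univ \ A) \ Exc ∧
        b2 ∈ (univ \ A) \ Exc) ∧ (a1 ≠ a2 ∧ b1 ≠ b2) ∧
      ((a1, b1) ∈ jv Exc u v Ns i ∨ (b1, a1) ∈ jv Exc u v Ns i) ∧
      ((a2, b2) ∈ jv Exc u v Ns i ∨ (b2, a2) ∈ jv Exc u v Ns i) ∧
      (∀ p ∈ jv Exc u v Ns i, (p.1 ∈ A ∧ p.2 ∈ A) ∨ (p.1 ∉ A ∧ p.2 ∉ A) ∨
        s(p.1, p.2) = s(a1, b1) ∨ s(p.1, p.2) = s(a2, b2)) := by
  obtain ⟨M, hM⟩ : ∃ M, M = (jv Exc u v Ns i).filter (fun p => ¬ (p.1 ∈ A ↔ p.2 ∈ A)) := ⟨_, rfl⟩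
  have hM2 : M = (Exc.filter (fun w => ¬ (u i w ∈ A ↔ v i w ∈ A))).image
      (fun w => (u i w, v i w)) ∪ Ns i := by
    rw [hM]
    ext p
    rw [mem_filter, jv, mem_union, mem_union, mem_image, mem_image]
    constructor
    · rintro ⟨⟨w, hw, rfl⟩ | h, hp⟩
      · exact Or.inl ⟨w, mem_filter.2 ⟨hw, hp⟩, rfl⟩
      · exact Or.inr h
    · rintro (⟨w, hw, rfl⟩ | h)
      · exact ⟨Or.inl ⟨w, (mem_filter.1 hw).1, rfl⟩, (mem_filter.1 hw).2⟩
      · exact ⟨Or.inr h, fun h1 => (hN p h).2 (h1.1 (hN p h).1)⟩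
  have hMc : M.card = 2 := by
    rw [hM2, card_union_of_disjoint, card_image_of_injOn, hc]
    · intro w hw w' hw' h
      by_contra hne
      exact (hJ.leaf i w (mem_filter.1 hw).1 w' (mem_filter.1 hw').1 hne).1 (Prod.mk.inj h).1
    · rw [disjoint_left]
      intro p hp hp'
      obtain ⟨w, hw, rfl⟩ := mem_image.1 hp
      exact (hJ.leafN i w (mem_filter.1 hw).1 _ hp').1 rfl
  obtain ⟨p, q, hpq, hMpq⟩ := card_eq_two.1 hMc
  have hpM : p ∈ M := by rw [hMpq]; simp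
  have hqM : q ∈ M := by rw [hMpq]; simp
  rw [hM, mem_filter] at hpM hqM
  have hor : ∀ p : V × V, ¬ (p.1 ∈ A ↔ p.2 ∈ A) → (p.1 ∈ A ∧ p.2 ∉ A) ∨ (p.1 ∉ A ∧ p.2 ∈ A) := by
    intro p hp
    tauto
  obtain ⟨a1, b1, ha1, hb1, h1⟩ := b7_or p (hor p hpM.2)
  obtain ⟨a2, b2, ha2, hb2, h2⟩ := b7_or q (hor q hqM.2)
  obtain ⟨n1, n2, n3, n4⟩ := b7_mat hJ i hpM.1 hqM.1 hpq
  obtain ⟨l1, l2⟩ := b7_light hJ i hpM.1
  obtain ⟨l3, l4⟩ := b7_light hJ i hqM.1
  refine ⟨a1, a2, b1, b2, ⟨?_, ?_, ?_, ?_⟩, ⟨?_, ?_⟩, ?_, ?_, ?_⟩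
  · refine mem_sdiff.2 ⟨ha1, ?_⟩
    rcases h1 with ⟨h, -⟩ | ⟨h, -⟩ <;> rw [h] <;> assumption
  · refine mem_sdiff.2 ⟨ha2, ?_⟩
    rcases h2 with ⟨h, -⟩ | ⟨h, -⟩ <;> rw [h] <;> assumption
  · refine mem_sdiff.2 ⟨mem_sdiff.2 ⟨mem_univ _, hb1⟩, ?_⟩
    rcases h1 with ⟨-, h⟩ | ⟨-, h⟩ <;> rw [h] <;> assumption
  · refine mem_sdiff.2 ⟨mem_sdiff.2 ⟨mem_univ _, hb2⟩, ?_⟩
    rcases h2 with ⟨-, h⟩ | ⟨-, h⟩ <;> rw [h] <;> assumption
  · rcases h1 with ⟨h, -⟩ | ⟨h, -⟩ <;> rcases h2 with ⟨h', -⟩ | ⟨h', -⟩ <;> rw [h, h'] <;>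
      assumption
  · rcases h1 with ⟨-, h⟩ | ⟨-, h⟩ <;> rcases h2 with ⟨-, h'⟩ | ⟨-, h'⟩ <;> rw [h, h'] <;>
      assumption
  · rcases h1 with ⟨h, h'⟩ | ⟨h, h'⟩
    · left; rw [h, h']; exact hpM.1
    · right; rw [h, h']; exact hpM.1
  · rcases h2 with ⟨h, h'⟩ | ⟨h, h'⟩
    · left; rw [h, h']; exact hqM.1
    · right; rw [h, h']; exact hqM.1
  · intro r hr
    by_cases hmix : (r.1 ∈ A ↔ r.2 ∈ A)
    · by_cases h : r.1 ∈ A
      · exact Or.inl ⟨h, hmix.1 h⟩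
      · exact Or.inr (Or.inl ⟨h, fun h' => h (hmix.2 h')⟩)
    · right; right
      have hrM : r ∈ M := by rw [hM]; exact mem_filter.2 ⟨hr, hmix⟩
      rw [hMpq, mem_insert, mem_singleton] at hrM
      rcases hrM with rfl | rfl
      · left
        rcases h1 with ⟨h, h'⟩ | ⟨h, h'⟩
        · rw [h, h']
        · rw [h, h', Sym2.eq_swap]
      · right
        rcases h2 with ⟨h, h'⟩ | ⟨h, h'⟩
        · rw [h, h']
        · rw [h, h', Sym2.eq_swap]

theorem b_js {V : Type} [Fintype V] (G : SimpleGraph V) (A Exc : Finset V)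
    (R t dm : ℕ) (hR : 0 < R) (ht : 2 * Exc.card + 4 ≤ t)
    (h1 : ∀ w ∈ Exc, R + t ≤ ownL G A Exc w) (h2 : ∀ w ∈ Exc, t ≤ crL G A Exc w)
    (h3 : ∀ w ∈ Exc, 2 * R + 2 * t + 2 ≤ ownL G A Exc w + crL G A Exc w)
    (hdm : ∀ v ∉ Exc, crL G A Exc v ≤ dm)
    (hav : 2 * R ≤ ∑ w ∈ Exc, min R (crL G A Exc w - t) + eo G (A \ Exc) ((univ \ A) \ Exc))
    (hav2 : ∑ w ∈ Exc, min R (crL G A Exc w - t) < R →
      2 * R + 2 * dm ≤ ∑ w ∈ Exc, min R (crL G A Exc w - t) +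
        eo G (A \ Exc) ((univ \ A) \ Exc)) :
    ∃ (u v : Fin R → V → V) (Ns : Fin R → Finset (V × V)) (a1 a2 b1 b2 : Fin R → V),
      BJ G A Exc u v Ns a1 a2 b1 b2 ∧ ∀ i, (Ns i).card ≤ 2 := by
  obtain ⟨a, b, ha, hs1, hs2, hb, hbs, hb2⟩ := b_numbers Exc R t
    (eo G (A \ Exc) ((univ \ A) \ Exc)) dm hR (ownL G A Exc) (crL G A Exc) h1 h2 h3 hav hav2
  obtain ⟨E, hE⟩ : ∃ E, E = ((A \ Exc) ×ˢ ((univ \ A) \ Exc)).filter
    (fun p => G.Adj p.1 p.2) := ⟨_, rfl⟩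
  have hEc : E.card = eo G (A \ Exc) ((univ \ A) \ Exc) := by rw [hE]; rfl
  have hEm : ∀ p ∈ E, (p.1 ∈ A ∧ p.1 ∉ Exc) ∧ (p.2 ∉ A ∧ p.2 ∉ Exc) ∧ G.Adj p.1 p.2 := by
    intro p hp
    rw [hE, mem_filter, mem_product, mem_sdiff, mem_sdiff, mem_sdiff] at hp
    exact ⟨hp.1.1, ⟨hp.1.2.1.2, hp.1.2.2⟩, hp.2⟩
  obtain ⟨Ns, n1, n2, n3, n4⟩ := matchings E
    (fun p hp => ⟨fun h => (hEm p hp).2.1.1 (h ▸ (hEm p hp).1.1),
      fun h => (hEm p hp).2.1.1 (hEm _ h).1.1⟩) dm (by rw [hE]; exact b7_deg G A Exc dm hdm) R b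
    (by
      intro i
      have e1 := hb i
      have e2 := hb2 i
      rw [hEc]
      have e3 : b i = 0 ∨ b i = 1 ∨ b i = 2 := by omega
      rcases e3 with e3 | e3 | e3
      · exact Or.inl e3
      · right
        rw [e3]
        omega
      · right
        rw [e3]
        omega)
  have hbi : ∀ i, (Ns i).card ≤ 2 := by
    intro i
    have e1 := hb i
    rw [n2 i]
    omega
  obtain ⟨S1, hS1⟩ : ∃ S1 : V → Finset V, S1 = fun w => (sameS A w \ Exc).filter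
    (fun x => G.Adj w x) := ⟨_, rfl⟩
  obtain ⟨S2, hS2⟩ : ∃ S2 : V → Finset V, S2 = fun w => (oppS A w \ Exc).filter
    (fun x => G.Adj w x) := ⟨_, rfl⟩
  have m1 : ∀ w x, x ∈ S1 w → (x ∈ A ↔ w ∈ A) ∧ x ∉ Exc ∧ G.Adj w x := by
    intro w x hx
    rw [hS1] at hx
    simp only [mem_filter, mem_sdiff] at hx
    exact ⟨b7_same hx.1.1, hx.1.2, hx.2⟩
  have m2 : ∀ w x, x ∈ S2 w → (x ∈ A ↔ w ∉ A) ∧ x ∉ Exc ∧ G.Adj w x := by
    intro w x hx
    rw [hS2] at hx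
    simp only [mem_filter, mem_sdiff] at hx
    exact ⟨b7_opp hx.1.1, hx.1.2, hx.2⟩
  obtain ⟨u, v, c1, c2, c3⟩ := cherries Exc R t a S1 S2 (fun i => vs (Ns i)) ha
    (by
      intro w
      rw [disjoint_left]
      intro x hx hx'
      have e1 := (m1 w x hx).1
      have e2 := (m2 w x hx').1
      tauto)
    (fun w hw => Or.inr (by rw [hS1]; exact hs1 w hw))
    (fun w hw => Or.inr (by rw [hS2]; exact hs2 w hw))
    (by
      intro i
      have e1 : (vs (Ns i)).card ≤ 4 := by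
        refine (card_union_le _ _).trans ?_
        have e1 := card_image_le (s := Ns i) (f := Prod.fst)
        have e2 := card_image_le (s := Ns i) (f := Prod.snd)
        have e3 := hbi i
        omega
      omega)
  have uS : ∀ i, ∀ w ∈ Exc, u i w ∉ Exc ∧ G.Adj w (u i w) := by
    intro i w hw
    have h := (c1 i w hw).1
    split_ifs at h
    · exact (m1 w _ h).2
    · exact (m2 w _ h).2
  have vS : ∀ i, ∀ w ∈ Exc, v i w ∉ Exc ∧ G.Adj w (v i w) := by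
    intro i w hw
    have h := (c1 i w hw).2.1
    split_ifs at h
    · exact (m1 w _ h).2
    · exact (m2 w _ h).2
  have hJ : JS G Exc u v Ns := by
    refine ⟨fun i w hw => (uS i w hw).2, fun i w hw => (vS i w hw).2,
      fun i w hw => (uS i w hw).1, fun i w hw => (vS i w hw).1,
      fun i p hp => (hEm p (n1 i hp)).2.2,
      fun i p hp => ⟨(hEm p (n1 i hp)).1.2, (hEm p (n1 i hp)).2.1.2⟩,
      fun i w hw => (c1 i w hw).2.2.2.2, c2, ?_, n3, c3, ?_⟩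
    · intro i w hw p hp
      obtain ⟨-, -, hu, hv, -⟩ := c1 i w hw
      have p1 : p.1 ∈ vs (Ns i) := mem_union_left _ (mem_image_of_mem _ hp)
      have p2 : p.2 ∈ vs (Ns i) := mem_union_right _ (mem_image_of_mem _ hp)
      exact ⟨fun h => hu (h ▸ p1), fun h => hv (h ▸ p1), fun h => hu (h ▸ p2),
        fun h => hv (h ▸ p2)⟩
    · intro i j hij p hp q hq h
      rcases Sym2.eq_iff.1 h with ⟨e1, e2⟩ | ⟨e1, e2⟩
      · have e3 : p = q := Prod.ext e1 e2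
        exact (disjoint_left.1 (n4 i j hij)) hp (e3 ▸ hq)
      · exact (hEm q (n1 j hq)).2.1.1 (e1 ▸ (hEm p (n1 i hp)).1.1)
  have hmix : ∀ i, ∀ w ∈ Exc, (a i w = 1 ↔ ¬ (u i w ∈ A ↔ v i w ∈ A)) := by
    intro i w hw
    obtain ⟨hu, hv, -⟩ := c1 i w hw
    have e := ha i w
    have e3 : a i w = 0 ∨ a i w = 1 ∨ a i w = 2 := by omega
    rcases e3 with e3 | e3 | e3
    · rw [e3] at hu hv
      rw [if_neg (by norm_num)] at hu hv
      have e1 := (m2 w _ hu).1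
      have e2 := (m2 w _ hv).1
      rw [e3]
      constructor
      · intro h; omega
      · intro h; exact absurd (e1.trans e2.symm) h
    · rw [e3] at hu hv
      rw [if_pos (by norm_num)] at hu
      rw [if_neg (by norm_num)] at hv
      have e1 := (m1 w _ hu).1
      have e2 := (m2 w _ hv).1
      rw [e3]
      constructor
      · intro _ h
        tauto
      · intro _; rfl
    · rw [e3] at hu hv
      rw [if_pos (by norm_num)] at hu hv
      have e1 := (m1 w _ hu).1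
      have e2 := (m1 w _ hv).1
      rw [e3]
      constructor
      · intro h; omega
      · intro h; exact absurd (e1.trans e2.symm) h
  have hall : ∀ i, _ := fun i => b7_mixed (A := A) hJ i
    (fun p hp => ⟨(hEm p (n1 i hp)).1.1, (hEm p (n1 i hp)).2.1.1⟩) (by
      rw [n2 i, ← hb i]
      congr 2
      refine filter_congr fun w hw => (hmix i w hw).symm)
  choose a1 a2 b1 b2 k1 k2 k3 k4 k5 using hall
  exact ⟨u, v, Ns, a1, a2, b1, b2, ⟨hJ, fun i p hp => ⟨(hEm p (n1 i hp)).1.1,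
    (hEm p (n1 i hp)).2.1.1⟩, k1, k2, k3, k4, k5⟩, hbi⟩

end Pool.Agent.HCD
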