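import Pool.Agent.Lib.HCD.Defs2

/-!
# C1: the partition of case C and the bound for r (section 6.1)

PROOF.  n = card V.  A0 from ExtC, B0 = univ \ A0; κ ≤ 1/100.  |B0| ≤ (1/2+κ) n.  Some v ∈ A0 has at most 3κn neighbours in A0 (average ≤ κn^2/|A0|), so |B0| ≥ n/2 - 3κ n (if n > 0).
 Number of non-adjacent cross pairs of (A0,B0): |A0||B0| - eo G A0 B0 ≤ |A0||B0| - (|A0| n/2 - κ n^2) ≤ 2κ n^2.
 M1 = {v ∈ A0 | dg G v B0 < n/8}: each misses ≥ |B0| - n/8 ≥ n/4 vertices of B0: |M1| ≤ 8κ n.  M2 = {v ∈ B0 | dg G v A0 < n/8}: |M2| ≤ 8κ n.  A = (A0 \ M1) ∪ M2.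
 cross: v ∈ A0 \ M1: dg G v (univ \ A) ≥ n/8 - |M2| ≥ n/10; v ∈ M2: dg G v B0 ≥ n/2 - n/8, minus |M2| ≥ n/10; symmetric for v ∉ A.  (κ ≤ 1/1000.)
 miss: non-adjacent cross pairs of (A, univ \ A) ≤ 2κ n^2 + 16κ n * n = 18κ n^2.  sizes: (1/2 - κ - 8κ) n, (1/2 - 3κ - 8κ) n.
 eo G A A ≤ eo G A0 A0 + 2 * 8κ n * n ≤ 17κ n^2.
 r: r|A| = ∑_{v∈A}∑_u x v u ≤ |A||univ \ A| + eo G A A, so r ≤ |univ \ A| + 17κ n^2/|A| ≤ (1/2 + 9κ) n + 51κ n ≤ (1/2 + 60κ) n.
-/

set_option autoImplicit false

noncomputable section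

open scoped Classical
open Finset

namespace Pool.Agent.HCD

section
variable {V : Type} [Fintype V] (G : SimpleGraph V)

private theorem c1_dg (v : V) (X : Finset V) : dg G v X = ∑ u ∈ X, if G.Adj v u then 1 else 0 := by
  unfold dg
  rw [Finset.card_filter]

private theorem c1_eo (X Y : Finset V) : eo G X Y = ∑ v ∈ X, dg G v Y := by
  unfold eo
  rw [Finset.card_filter, Finset.sum_product]
  exact Finset.sum_congr rfl fun v _ => (c1_dg G v Y).symm

private theorem c1_split (v : V) (A : Finset V) :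
    dg G v univ = dg G v A + dg G v (univ \ A) := by
  rw [c1_dg, c1_dg, c1_dg, add_comm]
  exact (Finset.sum_sdiff (Finset.subset_univ A)).symm

private theorem c1_le (v : V) (X : Finset V) : dg G v X ≤ X.card := Finset.card_filter_le _ _

private theorem c1_sub (v : V) {X Y M : Finset V} (h : X ⊆ Y ∪ M) :
    dg G v X ≤ dg G v Y + M.card := by
  unfold dg
  calc (X.filter (fun u => G.Adj v u)).card ≤ ((Y.filter (fun u => G.Adj v u)) ∪ M).card := by
        refine Finset.card_le_card fun u hu => ?_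
        rw [Finset.mem_filter] at hu
        rcases Finset.mem_union.1 (h hu.1) with h1 | h1
        · exact Finset.mem_union_left _ (Finset.mem_filter.2 ⟨h1, hu.2⟩)
        · exact Finset.mem_union_right _ h1
    _ ≤ _ := Finset.card_union_le _ _

/-- the number of non-adjacent ordered pairs -/
private def c1_ne (X Y : Finset V) : ℕ := ((X ×ˢ Y).filter (fun p => ¬ G.Adj p.1 p.2)).card

private theorem c1_eo_ne (X Y : Finset V) : eo G X Y + c1_ne G X Y = X.card * Y.card := by
  unfold eo c1_ne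
  rw [Finset.card_filter_add_card_filter_not, Finset.card_product]

private theorem c1_ne_sum (X Y : Finset V) : c1_ne G X Y = ∑ v ∈ X, (Y.card - dg G v Y) := by
  have h1 := c1_eo_ne G X Y
  have h2 : ∑ v ∈ X, (Y.card - dg G v Y) + ∑ v ∈ X, dg G v Y = X.card * Y.card := by
    rw [← Finset.sum_add_distrib, Finset.sum_congr rfl fun v _ => Nat.sub_add_cancel (c1_le G v Y),
      Finset.sum_const, smul_eq_mul]
  rw [← c1_eo] at h2
  omega

private theorem c1_ne_symm (X Y : Finset V) : c1_ne G X Y = c1_ne G Y X := by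
  unfold c1_ne
  refine Finset.card_bij (fun p _ => p.swap) ?_ ?_ ?_
  · intro p hp
    rw [Finset.mem_filter, Finset.mem_product] at hp ⊢
    exact ⟨⟨hp.1.2, hp.1.1⟩, fun h => hp.2 h.symm⟩
  · intro p _ q _ h
    exact Prod.swap_injective h
  · intro p hp
    rw [Finset.mem_filter, Finset.mem_product] at hp
    refine ⟨p.swap, ?_, Prod.swap_swap p⟩
    rw [Finset.mem_filter, Finset.mem_product]
    exact ⟨⟨hp.1.2, hp.1.1⟩, fun h => hp.2 h.symm⟩

/-- few vertices of `X` miss many vertices of `Y` -/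
private theorem c1_few {X Y : Finset V} {a b : ℝ} (hb : ∀ v ∈ X, b + dg G v Y ≤ Y.card) {Z : Finset V}
    (hXZ : X ⊆ Z) (hZ : (c1_ne G Z Y : ℝ) ≤ a) : (X.card : ℝ) * b ≤ a := by
  refine le_trans ?_ hZ
  have h1 : ∑ v ∈ X, (Y.card - dg G v Y) ≤ c1_ne G Z Y := by
    rw [c1_ne_sum]
    exact Finset.sum_le_sum_of_subset hXZ
  have h2 : (X.card : ℝ) * b ≤ ((∑ v ∈ X, (Y.card - dg G v Y) : ℕ) : ℝ) := by
    rw [Nat.cast_sum, ← nsmul_eq_mul, ← Finset.sum_const]
    refine Finset.sum_le_sum fun v hv => ?_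
    rw [Nat.cast_sub (c1_le G v Y)]
    have := hb v hv
    linarith
  exact h2.trans (by exact_mod_cast h1)

end

theorem c_part {V : Type} [Fintype V] (G : SimpleGraph V) (κ : ℝ) (hκ : 0 < κ)
    (hκ1 : κ ≤ 1 / 1000) (h1 : 1 ≤ Fintype.card V) (hG : Dirac G) (h : ExtC G κ)
    (x : V → V → ℝ) (r : ℝ) (hx : FF G x r) :
    ∃ A : Finset V, CPt G A (20 * κ) ∧ r ≤ (1 / 2 + 60 * κ) * Fintype.card V := by
  obtain ⟨A0, hA0, heo⟩ := h
  set n : ℝ := (Fintype.card V : ℝ) with hn
  have hn1 : (1 : ℝ) ≤ n := by rw [hn]; exact_mod_cast h1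
  have hn0 : 0 < n := by linarith
  have hκn : 0 < κ * n := mul_pos hκ hn0
  have hcard : ∀ X : Finset V, (X.card : ℝ) + (univ \ X).card = n := fun X => by
    rw [hn, ← Nat.cast_add]
    congr 1
    rw [add_comm, Finset.card_sdiff_add_card_eq_card (Finset.subset_univ X), Finset.card_univ]
  have hcle : ∀ X : Finset V, (X.card : ℝ) ≤ n := fun X => by
    have := hcard X
    have h2 : (0 : ℝ) ≤ (univ \ X).card := Nat.cast_nonneg _
    linarith
  have hdeg : ∀ v, n / 2 ≤ (dg G v univ : ℝ) := fun v => by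
    have h2 := hG v
    have h3 : (Fintype.card V : ℝ) ≤ 2 * dg G v univ := by exact_mod_cast h2
    rw [← hn] at h3
    linarith
  set B0 : Finset V := univ \ A0 with hB0
  have hAB0 := hcard A0
  rw [← hB0] at hAB0
  -- edges between the two sides
  have hcross : (A0.card : ℝ) * (n / 2) ≤ eo G A0 A0 + eo G A0 B0 := by
    rw [c1_eo, c1_eo, Nat.cast_sum, Nat.cast_sum, ← Finset.sum_add_distrib, ← nsmul_eq_mul,
      ← Finset.sum_const]
    refine Finset.sum_le_sum fun v _ => ?_
    have h2 := hdeg v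
    rw [c1_split G v A0, Nat.cast_add] at h2
    exact h2
  have hne0 : (eo G A0 B0 : ℝ) + c1_ne G A0 B0 = A0.card * B0.card := by
    exact_mod_cast c1_eo_ne G A0 B0
  have hA0n : n / 3 ≤ (A0.card : ℝ) := by nlinarith
  have hneA : (c1_ne G A0 B0 : ℝ) ≤ 2 * κ * n ^ 2 := by
    have h2 : (A0.card : ℝ) * (B0.card - n / 2) ≤ n * (κ * n) := by
      have h3 : (B0.card : ℝ) - n / 2 ≤ κ * n := by linarith
      calc (A0.card : ℝ) * (B0.card - n / 2) ≤ A0.card * (κ * n) :=
            mul_le_mul_of_nonneg_left h3 (Nat.cast_nonneg _)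
        _ ≤ n * (κ * n) := mul_le_mul_of_nonneg_right (hcle A0) hκn.le
    nlinarith
  have hB0n : n / 2 - 3 * κ * n ≤ (B0.card : ℝ) := by
    by_contra hc
    push Not at hc
    have h2 : (A0.card : ℝ) * (n / 2 - B0.card) ≤ κ * n ^ 2 := by
      have h3 : (0 : ℝ) ≤ c1_ne G A0 B0 := Nat.cast_nonneg _
      nlinarith
    have h3 : n / 3 * (3 * κ * n) < (A0.card : ℝ) * (n / 2 - B0.card) := by
      have h4 : 3 * κ * n < n / 2 - B0.card := by linarith
      calc n / 3 * (3 * κ * n) ≤ A0.card * (3 * κ * n) :=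
            mul_le_mul_of_nonneg_right hA0n (by nlinarith)
        _ < A0.card * (n / 2 - B0.card) := mul_lt_mul_of_pos_left h4 (by linarith)
    nlinarith
  set M1 : Finset V := A0.filter (fun v => (dg G v B0 : ℝ) < n / 8) with hM1
  set M2 : Finset V := B0.filter (fun v => (dg G v A0 : ℝ) < n / 8) with hM2
  have hM1A : M1 ⊆ A0 := Finset.filter_subset _ _
  have hM2B : M2 ⊆ B0 := Finset.filter_subset _ _
  have hM1c : (M1.card : ℝ) ≤ 8 * κ * n := by
    have h2 := c1_few G (X := M1) (Y := B0) (a := 2 * κ * n ^ 2) (b := n / 4) (fun v hv => by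
      have h3 := (Finset.mem_filter.1 hv).2
      nlinarith) hM1A hneA
    have h4 : (M1.card : ℝ) * (n / 4) ≤ (8 * κ * n) * (n / 4) := by nlinarith
    exact le_of_mul_le_mul_right h4 (by linarith)
  have hM2c : (M2.card : ℝ) ≤ 8 * κ * n := by
    have hneA' : (c1_ne G B0 A0 : ℝ) ≤ 2 * κ * n ^ 2 := by
      rw [c1_ne_symm]
      exact hneA
    have h2 := c1_few G (X := M2) (Y := A0) (a := 2 * κ * n ^ 2) (b := n / 4) (fun v hv => by
      have h3 := (Finset.mem_filter.1 hv).2
      nlinarith) hM2B hneA'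
    have h4 : (M2.card : ℝ) * (n / 4) ≤ (8 * κ * n) * (n / 4) := by nlinarith
    exact le_of_mul_le_mul_right h4 (by linarith)
  set A : Finset V := (A0 \ M1) ∪ M2 with hA
  have hAmem : ∀ v, v ∈ A ↔ (v ∈ A0 ∧ v ∉ M1) ∨ v ∈ M2 := fun v => by
    rw [hA, Finset.mem_union, Finset.mem_sdiff]
  have hB0mem : ∀ v, v ∈ B0 ↔ v ∉ A0 := fun v => by
    rw [hB0, Finset.mem_sdiff]
    exact ⟨fun h2 => h2.2, fun h2 => ⟨Finset.mem_univ _, h2⟩⟩
  have hsub1 : A0 ⊆ A ∪ M1 := fun v hv => by
    by_cases hm : v ∈ M1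
    · exact Finset.mem_union_right _ hm
    · exact Finset.mem_union_left _ ((hAmem v).2 (Or.inl ⟨hv, hm⟩))
  have hsub2 : B0 ⊆ (univ \ A) ∪ M2 := fun v hv => by
    by_cases hm : v ∈ M2
    · exact Finset.mem_union_right _ hm
    · refine Finset.mem_union_left _ (Finset.mem_sdiff.2 ⟨Finset.mem_univ _, fun h2 => ?_⟩)
      rcases (hAmem v).1 h2 with h3 | h3
      · exact (hB0mem v).1 hv h3.1
      · exact hm h3
  have hAc : (1 / 2 - 9 * κ) * n ≤ (A.card : ℝ) := by
    have h2 : A0.card ≤ A.card + M1.card := (Finset.card_le_card hsub1).trans (Finset.card_union_le _ _)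
    have h3 : (A0.card : ℝ) ≤ A.card + M1.card := by exact_mod_cast h2
    nlinarith
  have hBc : (1 / 2 - 11 * κ) * n ≤ ((univ \ A).card : ℝ) := by
    have h2 : B0.card ≤ (univ \ A).card + M2.card :=
      (Finset.card_le_card hsub2).trans (Finset.card_union_le _ _)
    have h3 : (B0.card : ℝ) ≤ (univ \ A).card + M2.card := by exact_mod_cast h2
    nlinarith
  have hABc := hcard A
  have hsm : 8 * κ * n ≤ n / 40 := by nlinarith
  refine ⟨A, ⟨by nlinarith, by nlinarith, ?_, ?_⟩, ?_⟩
  · -- missing pairs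
    have h2 : (eo G A (univ \ A) : ℝ) + c1_ne G A (univ \ A) = A.card * (univ \ A).card := by
      exact_mod_cast c1_eo_ne G A (univ \ A)
    have h3 : c1_ne G A (univ \ A) ≤ c1_ne G A0 B0 + M2.card * Fintype.card V +
        Fintype.card V * M1.card := by
      unfold c1_ne
      rw [← Finset.card_univ (α := V), ← Finset.card_product, ← Finset.card_product]
      refine le_trans (Finset.card_le_card (t := ((A0 ×ˢ B0).filter (fun p => ¬ G.Adj p.1 p.2) ∪
        M2 ×ˢ univ) ∪ univ ×ˢ M1) fun p hp => ?_) ((Finset.card_union_le _ _).trans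
          (Nat.add_le_add_right (Finset.card_union_le _ _) _))
      rw [Finset.mem_filter, Finset.mem_product, Finset.mem_sdiff] at hp
      obtain ⟨⟨hp1, _, hp2⟩, hp3⟩ := hp
      rw [Finset.mem_union, Finset.mem_union, Finset.mem_filter, Finset.mem_product, Finset.mem_product,
        Finset.mem_product]
      rcases (hAmem p.1).1 hp1 with h4 | h4
      · by_cases h5 : p.2 ∈ A0
        · right
          refine ⟨Finset.mem_univ _, ?_⟩
          by_contra h6
          exact hp2 ((hAmem p.2).2 (Or.inl ⟨h5, h6⟩))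
        · left
          left
          exact ⟨⟨h4.1, (hB0mem p.2).2 h5⟩, hp3⟩
      · left
        right
        exact ⟨h4, Finset.mem_univ _⟩
    have h4 : (c1_ne G A (univ \ A) : ℝ) ≤ c1_ne G A0 B0 + M2.card * n + n * M1.card := by
      rw [hn]
      exact_mod_cast h3
    have h5 : (M2.card : ℝ) * n ≤ 8 * κ * n * n := mul_le_mul_of_nonneg_right hM2c hn0.le
    have h6 : n * (M1.card : ℝ) ≤ n * (8 * κ * n) := mul_le_mul_of_nonneg_left hM1c hn0.le
    have h7 : 0 < κ * n ^ 2 := by positivity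
    nlinarith
  · -- cross degrees
    intro v
    have hb1 : (dg G v A0 : ℝ) ≤ dg G v A + M1.card := by exact_mod_cast c1_sub G v hsub1
    have hb2 : (dg G v B0 : ℝ) ≤ dg G v (univ \ A) + M2.card := by exact_mod_cast c1_sub G v hsub2
    have hb3 := hdeg v
    rw [c1_split G v A0, Nat.cast_add, ← hB0] at hb3
    unfold oppS
    by_cases hv : v ∈ A
    · rw [if_pos hv]
      rcases (hAmem v).1 hv with h4 | h4
      · have h5 : n / 8 ≤ (dg G v B0 : ℝ) := by
          by_contra h6
          push Not at h6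
          exact h4.2 (Finset.mem_filter.2 ⟨h4.1, h6⟩)
        linarith
      · have h5 : (dg G v A0 : ℝ) < n / 8 := (Finset.mem_filter.1 h4).2
        linarith
    · rw [if_neg hv]
      by_cases h4 : v ∈ A0
      · have h5 : v ∈ M1 := by
          by_contra h6
          exact hv ((hAmem v).2 (Or.inl ⟨h4, h6⟩))
        have h6 : (dg G v B0 : ℝ) < n / 8 := (Finset.mem_filter.1 h5).2
        linarith
      · have h5 : n / 8 ≤ (dg G v A0 : ℝ) := by
          by_contra h6
          push Not at h6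
          exact hv ((hAmem v).2 (Or.inr (Finset.mem_filter.2 ⟨(hB0mem v).2 h4, h6⟩)))
        linarith
  · -- the bound for r
    have h2 : eo G A A ≤ eo G A0 A0 + M2.card * Fintype.card V + Fintype.card V * M2.card := by
      unfold eo
      rw [← Finset.card_univ (α := V), ← Finset.card_product, ← Finset.card_product]
      refine le_trans (Finset.card_le_card (t := ((A0 ×ˢ A0).filter (fun p => G.Adj p.1 p.2) ∪
        M2 ×ˢ univ) ∪ univ ×ˢ M2) fun p hp => ?_) ((Finset.card_union_le _ _).trans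
          (Nat.add_le_add_right (Finset.card_union_le _ _) _))
      rw [Finset.mem_filter, Finset.mem_product] at hp
      obtain ⟨⟨hp1, hp2⟩, hp3⟩ := hp
      rw [Finset.mem_union, Finset.mem_union, Finset.mem_filter, Finset.mem_product, Finset.mem_product,
        Finset.mem_product]
      rcases (hAmem p.1).1 hp1 with h4 | h4
      · rcases (hAmem p.2).1 hp2 with h5 | h5
        · left
          left
          exact ⟨⟨h4.1, h5.1⟩, hp3⟩
        · right
          exact ⟨Finset.mem_univ _, h5⟩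
      · left
        right
        exact ⟨h4, Finset.mem_univ _⟩
    have h3 : (eo G A A : ℝ) ≤ eo G A0 A0 + M2.card * n + n * M2.card := by
      rw [hn]
      exact_mod_cast h2
    have h5 : (M2.card : ℝ) * n ≤ 8 * κ * n * n := mul_le_mul_of_nonneg_right hM2c hn0.le
    have h7 : (eo G A A : ℝ) ≤ 17 * κ * n ^ 2 := by nlinarith
    have h8 : (A.card : ℝ) * r ≤ eo G A A + A.card * (univ \ A).card := by
      have h9 : ∀ v ∈ A, r ≤ (dg G v A : ℝ) + (univ \ A).card := by
        intro v _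
        rw [← hx.2.2 v]
        have h10 : ∑ u, x v u ≤ (dg G v univ : ℝ) := by
          rw [c1_dg, Nat.cast_sum]
          refine Finset.sum_le_sum fun u _ => ?_
          by_cases hadj : G.Adj v u
          · rw [if_pos hadj, Nat.cast_one]
            exact hx.2.1 v u
          · rw [if_neg hadj, hx.1.zero v u hadj, Nat.cast_zero]
        have h11 : (dg G v (univ \ A) : ℝ) ≤ (univ \ A).card := by exact_mod_cast c1_le G v _
        rw [c1_split G v A, Nat.cast_add] at h10
        linarith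
      have h12 := Finset.sum_le_sum h9
      rw [Finset.sum_const, nsmul_eq_mul, Finset.sum_add_distrib, Finset.sum_const, nsmul_eq_mul] at h12
      rw [c1_eo, Nat.cast_sum]
      exact h12
    by_contra hc
    push Not at hc
    have h9 : 51 * κ * n < r - (univ \ A).card := by nlinarith
    have hA3 : n / 3 ≤ (A.card : ℝ) := by nlinarith
    have h10 : n / 3 * (51 * κ * n) < (A.card : ℝ) * (r - (univ \ A).card) := by
      calc n / 3 * (51 * κ * n) ≤ A.card * (51 * κ * n) :=
            mul_le_mul_of_nonneg_right hA3 (by nlinarith)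
        _ < A.card * (r - (univ \ A).card) := mul_lt_mul_of_pos_left h9 (by linarith)
    nlinarith

end Pool.Agent.HCD
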