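import Pool.Agent.Lib.HCD.Defs2

/-!
# C2: the master inequality, sparse side (section 6.2)

PROOF.  Write x(X,Y) = ∑_{a∈X}∑_{b∈Y} x a b; EA = Exc ∩ A, EB = Exc \ A, AL = A \ Exc, B = univ \ A.
(1) r|A| - r|B| = x(A,univ) - x(B,univ) = x(A,A) - x(B,B).  So R s = ρ r s/2 = ρ (x(A,A) - x(B,B))/2 (2R = ρ r).
(2) x(A,A)/2 ≤ ∑_{v∈EA} x(v,A) + x(AL,AL)/2 (x(A,A) = x(EA,A) + x(AL,EA) + x(AL,AL) ≤ 2 x(EA,A) + x(AL,AL)); x(AL,AL) ≤ eo G AL AL.
(3) x(B,B)/2 ≥ ∑_{v∈EB} (x(v,B) - x(v,EB)/2)  (x(B,B) = x(EB,B) + x(BL,EB) + x(BL,BL) ≥ 2 x(EB,B) - x(EB,EB)).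
(4) v ∈ EA: ρ x(v,A) ≤ y1 v = min (2R) (own v - t): ρ x(v,A) ≤ ρ r = 2R; x(v,A) ≤ dg G v A ≤ own v + |Exc| and ρ (own v + |Exc|) ≤ own v - t by h1.
(5) v ∈ EB: y0 v = 2R + t - cr v (truncated) ≤ ρ (x(v,B) - x(v,EB)/2): if y0 v = 0: x(v,EB) ≤ x(v,B).  Otherwise x(v,B) = r - x(v,A) ≥ r - cr v - |Exc|, x(v,EB) ≤ |Exc|:
   RHS ≥ 2R - ρ (cr v + 3|Exc|/2) ≥ 2R + t - cr v by h2.
-/

set_option autoImplicit false

noncomputable section

open scoped Classical
open Finset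

namespace Pool.Agent.HCD

/-- total weight between two sets -/
private def XX {V : Type} (x : V → V → ℝ) (S T : Finset V) : ℝ := ∑ a ∈ S, ∑ b ∈ T, x a b

private lemma XX_symm {V : Type} (x : V → V → ℝ) (hs : ∀ u v, x u v = x v u) (S T : Finset V) :
    XX x S T = XX x T S := by
  unfold XX
  rw [Finset.sum_comm]
  exact Finset.sum_congr rfl fun a _ => Finset.sum_congr rfl fun b _ => hs _ _

private lemma XX_left {V : Type} (x : V → V → ℝ) (S S' T : Finset V) :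
    XX x S T = XX x (S ∩ S') T + XX x (S \ S') T := by
  unfold XX
  exact (Finset.sum_inter_add_sum_sdiff S S' _).symm

private lemma XX_right {V : Type} (x : V → V → ℝ) (S T T' : Finset V) :
    XX x S T = XX x S (T ∩ T') + XX x S (T \ T') := by
  unfold XX
  rw [← Finset.sum_add_distrib]
  exact Finset.sum_congr rfl fun a _ => (Finset.sum_inter_add_sum_sdiff T T' _).symm

private lemma XX_nonneg {V : Type} (x : V → V → ℝ) (h0 : ∀ u v, 0 ≤ x u v) (S T : Finset V) :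
    0 ≤ XX x S T := Finset.sum_nonneg fun a _ => Finset.sum_nonneg fun b _ => h0 a b

private lemma row_le_dg {V : Type} [Fintype V] (G : SimpleGraph V) (x : V → V → ℝ)
    (hz : ∀ u v, ¬ G.Adj u v → x u v = 0) (h1 : ∀ u v, x u v ≤ 1) (v : V) (T : Finset V) :
    ∑ b ∈ T, x v b ≤ dg G v T := by
  have h2 : ∑ b ∈ T, x v b = ∑ b ∈ T.filter (fun u => G.Adj v u), x v b := by
    rw [Finset.sum_filter]
    refine Finset.sum_congr rfl fun b _ => ?_
    split_ifs with h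
    · rfl
    · exact hz _ _ h
  rw [h2]
  unfold dg
  calc ∑ b ∈ T.filter (fun u => G.Adj v u), x v b
      ≤ ∑ b ∈ T.filter (fun u => G.Adj v u), (1 : ℝ) := Finset.sum_le_sum fun b _ => h1 v b
    _ = _ := by simp

private lemma row_le_card {V : Type} (x : V → V → ℝ) (h1 : ∀ u v, x u v ≤ 1) (v : V)
    (T : Finset V) : ∑ b ∈ T, x v b ≤ T.card := by
  calc ∑ b ∈ T, x v b ≤ ∑ b ∈ T, (1 : ℝ) := Finset.sum_le_sum fun b _ => h1 v b
    _ = _ := by simp

private lemma XX_le_eo {V : Type} [Fintype V] (G : SimpleGraph V) (x : V → V → ℝ)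
    (hz : ∀ u v, ¬ G.Adj u v → x u v = 0) (h1 : ∀ u v, x u v ≤ 1) (S T : Finset V) :
    XX x S T ≤ eo G S T := by
  have h2 : eo G S T = ∑ a ∈ S, dg G a T := by
    unfold eo dg
    rw [Finset.card_filter, Finset.sum_product]
    refine Finset.sum_congr rfl fun a _ => ?_
    rw [Finset.card_filter]
  rw [h2]
  push_cast
  exact Finset.sum_le_sum fun a _ => row_le_dg G x hz h1 a T

private lemma dg_le_sdiff {V : Type} [Fintype V] (G : SimpleGraph V) (v : V) (S E : Finset V) :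
    dg G v S ≤ dg G v (S \ E) + E.card := by
  unfold dg
  calc (S.filter (fun u => G.Adj v u)).card
      ≤ ((S \ E).filter (fun u => G.Adj v u) ∪ E).card := by
        apply Finset.card_le_card
        intro u hu
        simp only [Finset.mem_filter, Finset.mem_union, Finset.mem_sdiff] at hu ⊢
        tauto
    _ ≤ _ := Finset.card_union_le _ _

theorem master {V : Type} [Fintype V] (G : SimpleGraph V) (A Exc : Finset V) (x : V → V → ℝ)
    (r ρ : ℝ) (hx : FF G x r) (R t : ℕ) (hρ0 : 0 ≤ ρ) (hρ1 : ρ ≤ 1) (hρ : (2 * R : ℝ) = ρ * r)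
    (h1 : ∀ v ∈ Exc, ρ * (ownL G A Exc v + Exc.card) + t ≤ ownL G A Exc v)
    (h2 : ∀ v ∈ Exc, ρ * (crL G A Exc v + 2 * Exc.card) + t ≤ crL G A Exc v) :
    (R : ℝ) * ((A.card : ℝ) - (univ \ A).card) ≤
      (∑ v ∈ Exc ∩ A, (min (2 * R) (ownL G A Exc v - t) : ℕ) : ℝ) -
      (∑ v ∈ Exc \ A, (2 * R + t - crL G A Exc v : ℕ) : ℝ) +
      ρ * (eo G (A \ Exc) (A \ Exc) : ℝ) / 2 := by
  obtain ⟨⟨hs, h0, hz⟩, hx1, hr⟩ := hx
  have hrowT : ∀ v (T : Finset V), ∑ b ∈ T, x v b + ∑ b ∈ univ \ T, x v b = r := by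
    intro v T
    rw [← hr v, ← Finset.sum_inter_add_sum_sdiff univ T (fun b => x v b), Finset.univ_inter]
  have hrow0 : ∀ v (T : Finset V), 0 ≤ ∑ b ∈ T, x v b := fun v T =>
    Finset.sum_nonneg fun b _ => h0 v b
  have hR0 : (0 : ℝ) ≤ 2 * R := by positivity
  -- (1)
  have e1 : XX x A A + XX x A (univ \ A) = r * A.card := by
    unfold XX
    rw [← Finset.sum_add_distrib, Finset.sum_congr rfl fun a _ => hrowT a A]
    simp [mul_comm]
  have e2 : XX x (univ \ A) A + XX x (univ \ A) (univ \ A) = r * (univ \ A).card := by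
    unfold XX
    rw [← Finset.sum_add_distrib, Finset.sum_congr rfl fun a _ => hrowT a A]
    simp [mul_comm]
  have e3 : XX x (univ \ A) A = XX x A (univ \ A) := XX_symm x hs _ _
  -- (2)
  have f1 : XX x A A = XX x (A ∩ Exc) A + XX x (A \ Exc) A := XX_left x _ _ _
  have f2 : XX x (A \ Exc) A = XX x (A \ Exc) (A ∩ Exc) + XX x (A \ Exc) (A \ Exc) :=
    XX_right x _ _ _
  have f3 : XX x (A \ Exc) (A ∩ Exc) = XX x (A ∩ Exc) (A \ Exc) := XX_symm x hs _ _
  have f4 : XX x (A ∩ Exc) A = XX x (A ∩ Exc) (A ∩ Exc) + XX x (A ∩ Exc) (A \ Exc) :=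
    XX_right x _ _ _
  have f5 : 0 ≤ XX x (A ∩ Exc) (A ∩ Exc) := XX_nonneg x h0 _ _
  have f6 : XX x (A \ Exc) (A \ Exc) ≤ eo G (A \ Exc) (A \ Exc) := XX_le_eo G x hz hx1 _ _
  have F : XX x A A ≤ 2 * XX x (A ∩ Exc) A + eo G (A \ Exc) (A \ Exc) := by linarith
  -- (3)
  set B : Finset V := univ \ A with hB
  have g1 : XX x B B = XX x (B ∩ Exc) B + XX x (B \ Exc) B := XX_left x _ _ _
  have g2 : XX x (B \ Exc) B = XX x (B \ Exc) (B ∩ Exc) + XX x (B \ Exc) (B \ Exc) :=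
    XX_right x _ _ _
  have g3 : XX x (B \ Exc) (B ∩ Exc) = XX x (B ∩ Exc) (B \ Exc) := XX_symm x hs _ _
  have g4 : XX x (B ∩ Exc) B = XX x (B ∩ Exc) (B ∩ Exc) + XX x (B ∩ Exc) (B \ Exc) :=
    XX_right x _ _ _
  have g5 : 0 ≤ XX x (B \ Exc) (B \ Exc) := XX_nonneg x h0 _ _
  have Gg : 2 * XX x (B ∩ Exc) B - XX x (B ∩ Exc) (B ∩ Exc) ≤ XX x B B := by linarith
  have hAE : A ∩ Exc = Exc ∩ A := Finset.inter_comm _ _
  have hBE : B ∩ Exc = Exc \ A := by
    ext v
    simp only [hB, Finset.mem_inter, Finset.mem_sdiff, Finset.mem_univ, true_and]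
    tauto
  rw [hAE] at F
  rw [hBE] at Gg
  -- (4)
  have h4 : ∀ v ∈ Exc ∩ A, ρ * ∑ b ∈ A, x v b ≤ ((min (2 * R) (ownL G A Exc v - t) : ℕ) : ℝ) := by
    intro v hv
    rw [Finset.mem_inter] at hv
    have hown : ownL G A Exc v = dg G v (A \ Exc) := by
      unfold ownL sameS
      rw [if_pos hv.2]
    have a1 : ∑ b ∈ A, x v b ≤ r := by
      have := hrowT v A
      have := hrow0 v (univ \ A)
      linarith
    have a2 : ρ * ∑ b ∈ A, x v b ≤ 2 * R := by
      rw [hρ]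
      exact mul_le_mul_of_nonneg_left a1 hρ0
    have a3 : ∑ b ∈ A, x v b ≤ ownL G A Exc v + Exc.card := by
      have b1 := row_le_dg G x hz hx1 v A
      have b2 := dg_le_sdiff G v A Exc
      rw [← hown] at b2
      have b3 : (dg G v A : ℝ) ≤ ownL G A Exc v + Exc.card := by exact_mod_cast b2
      linarith
    have a4 : ρ * ∑ b ∈ A, x v b ≤ ((ownL G A Exc v - t : ℕ) : ℝ) := by
      have b1 : ρ * ∑ b ∈ A, x v b ≤ ρ * (ownL G A Exc v + Exc.card) :=
        mul_le_mul_of_nonneg_left a3 hρ0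
      have b2 := h1 v hv.1
      have b3 : (ownL G A Exc v : ℝ) ≤ ((ownL G A Exc v - t : ℕ) : ℝ) + t := by
        have : ownL G A Exc v ≤ (ownL G A Exc v - t) + t := by omega
        exact_mod_cast this
      linarith
    rw [Nat.cast_min]
    push_cast at a4 ⊢
    exact le_min a2 a4
  -- (5)
  have h5 : ∀ v ∈ Exc \ A, ((2 * R + t - crL G A Exc v : ℕ) : ℝ) ≤
      ρ * (∑ b ∈ B, x v b - (∑ b ∈ Exc \ A, x v b) / 2) := by
    intro v hv
    rw [Finset.mem_sdiff] at hv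
    have hcr : crL G A Exc v = dg G v (A \ Exc) := by
      unfold crL oppS
      rw [if_neg hv.2]
    have hsub : ∑ b ∈ Exc \ A, x v b ≤ ∑ b ∈ B, x v b := by
      refine Finset.sum_le_sum_of_subset_of_nonneg ?_ fun b _ _ => h0 v b
      intro b hb
      rw [Finset.mem_sdiff] at hb
      simp [hB, hb.2]
    have hpos := hrow0 v (Exc \ A)
    rcases Nat.eq_zero_or_pos (2 * R + t - crL G A Exc v) with h | h
    · rw [h]
      have : 0 ≤ ∑ b ∈ B, x v b - (∑ b ∈ Exc \ A, x v b) / 2 := by linarith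
      have := mul_nonneg hρ0 this
      simpa using this
    · have c1 : ((2 * R + t - crL G A Exc v : ℕ) : ℝ) = 2 * R + t - crL G A Exc v := by
        rw [Nat.cast_sub (by omega)]
        push_cast
        ring
      rw [c1]
      have c2 : ∑ b ∈ B, x v b = r - ∑ b ∈ A, x v b := by
        have := hrowT v A
        linarith
      have c3 : ∑ b ∈ A, x v b ≤ crL G A Exc v + Exc.card := by
        have b1 := row_le_dg G x hz hx1 v A
        have b2 := dg_le_sdiff G v A Exc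
        rw [← hcr] at b2
        have b3 : (dg G v A : ℝ) ≤ crL G A Exc v + Exc.card := by exact_mod_cast b2
        linarith
      have c4 : ∑ b ∈ Exc \ A, x v b ≤ Exc.card := by
        have b1 := row_le_card x hx1 v (Exc \ A)
        have b2 : ((Exc \ A).card : ℝ) ≤ Exc.card := by
          exact_mod_cast Finset.card_le_card Finset.sdiff_subset
        linarith
      have c5 : r - crL G A Exc v - 2 * Exc.card ≤
          ∑ b ∈ B, x v b - (∑ b ∈ Exc \ A, x v b) / 2 := by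
        have : (0 : ℝ) ≤ Exc.card := by positivity
        linarith
      have c6 := mul_le_mul_of_nonneg_left c5 hρ0
      have c7 := h2 v hv.1
      have c8 : ρ * (r - crL G A Exc v - 2 * Exc.card) =
          ρ * r - ρ * (crL G A Exc v + 2 * Exc.card) := by ring
      rw [c8, ← hρ] at c6
      linarith
  have S4 : ρ * XX x (Exc ∩ A) A ≤ ∑ v ∈ Exc ∩ A, ((min (2 * R) (ownL G A Exc v - t) : ℕ) : ℝ) := by
    unfold XX
    rw [Finset.mul_sum]
    exact Finset.sum_le_sum h4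
  have S5 : ∑ v ∈ Exc \ A, ((2 * R + t - crL G A Exc v : ℕ) : ℝ) ≤
      ρ * (XX x (Exc \ A) B - XX x (Exc \ A) (Exc \ A) / 2) := by
    have : XX x (Exc \ A) B - XX x (Exc \ A) (Exc \ A) / 2 =
        ∑ v ∈ Exc \ A, (∑ b ∈ B, x v b - (∑ b ∈ Exc \ A, x v b) / 2) := by
      unfold XX
      rw [Finset.sum_sub_distrib, Finset.sum_div]
    rw [this, Finset.mul_sum]
    exact Finset.sum_le_sum h5
  have key : (R : ℝ) * ((A.card : ℝ) - B.card) = ρ * (XX x A A - XX x B B) / 2 := by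
    have : 2 * (R : ℝ) * ((A.card : ℝ) - B.card) = ρ * (XX x A A - XX x B B) := by
      rw [hρ]
      have : XX x A A - XX x B B = r * A.card - r * B.card := by
        rw [← e1, ← e2, e3]
        ring
      rw [this]
      ring
    linarith
  rw [key]
  have k1 : XX x A A - XX x B B ≤ 2 * XX x (Exc ∩ A) A + eo G (A \ Exc) (A \ Exc) -
      (2 * XX x (Exc \ A) B - XX x (Exc \ A) (Exc \ A)) := by linarith
  have k2 := mul_le_mul_of_nonneg_left k1 hρ0
  have k3 : ρ * (2 * XX x (Exc ∩ A) A + eo G (A \ Exc) (A \ Exc) -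
      (2 * XX x (Exc \ A) B - XX x (Exc \ A) (Exc \ A))) =
      2 * (ρ * XX x (Exc ∩ A) A) + ρ * eo G (A \ Exc) (A \ Exc) -
      2 * (ρ * (XX x (Exc \ A) B - XX x (Exc \ A) (Exc \ A) / 2)) := by ring
  rw [k3] at k2
  linarith

end Pool.Agent.HCD
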