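import Pool.Agent.Lib.HCD.Defs2
import Pool.Agent.Lib.HCD.T9

/-!
# C3: choice of the totals and cyclic rounding (section 6.3)

PROOF of `c_choose`.  Case ∑_{Exc∩A} y0 - ∑_{Exc\A} y0 ≤ R s, s = |A| - |univ \ A|: use hA (MA for A).  D = R s + ∑_{Exc\A} y0 (≥ ∑_{Exc∩A} y0).  If D ≤ ∑_{Exc∩A} y1: choose
y with y0 ≤ y ≤ y1 and ∑_{Exc∩A} y = D, τ = 0 (discrete intermediate values: increase one by one); else y = y1 on Exc∩A, τ = D - ∑ y1 > 0, and hA gives (tA A > 0 and)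
τ ≤ tA A.  On Exc\A: y = y0.  Output A1 = A.
Otherwise ∑_{Exc\A} y0 - ∑_{Exc∩A} y0 < R (-s): the same with A1 = univ \ A (Exc ∩ (univ\A) = Exc \ A, Exc \ (univ\A) = Exc ∩ A, univ \ (univ \ A) = A), hB.
PROOF of `c_round`.  `rounding` with rows: v ∈ Exc∩A: y v; v ∈ Exc\A: 2R - y v; one row τ; total R (s + 2|Exc \ A|) (so s + 2|Exc \ A| ≥ 0, T its toNat).  a i v = z on Exc∩A,
2 - z on Exc\A (z ≤ (2R + R - 1)/R = 2), 0 elsewhere.
-/

set_option autoImplicit false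

noncomputable section

open scoped Classical
open Finset

namespace Pool.Agent.HCD

private lemma disc_ivt {V : Type} (y0 y1 : V → ℕ) (S : Finset V) :
    ∀ D : ℕ, (∀ v ∈ S, y0 v ≤ y1 v) → ∑ v ∈ S, y0 v ≤ D → D ≤ ∑ v ∈ S, y1 v →
    ∃ y : V → ℕ, (∀ v ∈ S, y0 v ≤ y v ∧ y v ≤ y1 v) ∧ ∑ v ∈ S, y v = D := by
  induction S using Finset.induction_on with
  | empty =>
    intro D _ _ h2
    refine ⟨y0, by simp, ?_⟩
    simp only [Finset.sum_empty] at h2 ⊢
    omega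
  | insert a S ha ih =>
    intro D h01 h1 h2
    rw [Finset.sum_insert ha] at h1 h2
    have h01a := h01 a (Finset.mem_insert_self a S)
    have h01S : ∀ v ∈ S, y0 v ≤ y1 v := fun v hv => h01 v (Finset.mem_insert_of_mem hv)
    have hle : ∑ v ∈ S, y0 v ≤ ∑ v ∈ S, y1 v := Finset.sum_le_sum h01S
    obtain ⟨c, hc0, hc1, hc2, hc3⟩ : ∃ c, y0 a ≤ c ∧ c ≤ y1 a ∧ c ≤ D ∧
        ∑ v ∈ S, y0 v ≤ D - c ∧ D - c ≤ ∑ v ∈ S, y1 v := by
      by_cases h : y0 a ≤ D - ∑ v ∈ S, y1 v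
      · exact ⟨D - ∑ v ∈ S, y1 v, h, by omega, by omega, by omega, by omega⟩
      · exact ⟨y0 a, le_rfl, h01a, by omega, by omega, by omega⟩
    obtain ⟨y, hy1, hy2⟩ := ih (D - c) h01S hc3.1 hc3.2
    refine ⟨Function.update y a c, ?_, ?_⟩
    · intro v hv
      by_cases hva : v = a
      · subst hva
        rw [Function.update_self]
        exact ⟨hc0, hc1⟩
      · rw [Function.update_of_ne hva]
        exact hy1 v ((Finset.mem_insert.mp hv).resolve_left hva)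
    · rw [Finset.sum_insert ha, Function.update_self]
      have : ∑ v ∈ S, Function.update y a c v = ∑ v ∈ S, y v := by
        refine Finset.sum_congr rfl fun v hv => ?_
        rw [Function.update_of_ne]
        rintro rfl
        exact ha hv
      rw [this, hy2]
      omega

private lemma side_choose {V : Type} [Fintype V] (A Exc : Finset V) (R : ℕ) (y0 y1 : V → ℕ)
    (h01 : ∀ v ∈ Exc, y0 v ≤ y1 v) (t1 : ℝ)
    (h0 : ((∑ v ∈ Exc ∩ A, y0 v : ℕ) : ℤ) - (∑ v ∈ Exc \ A, y0 v : ℕ) ≤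
      R * ((A.card : ℤ) - (univ \ A).card))
    (hA : (R : ℝ) * ((A.card : ℝ) - (univ \ A).card) ≤
      (∑ v ∈ Exc ∩ A, y1 v : ℕ) - (∑ v ∈ Exc \ A, y0 v : ℕ) + t1) :
    ∃ (y : V → ℕ) (τ : ℕ), (∀ v ∈ Exc, y0 v ≤ y v ∧ y v ≤ y1 v) ∧ (τ = 0 ∨ (τ : ℝ) ≤ t1) ∧
      (∀ v ∈ Exc \ A, y v = y0 v) ∧
      (∑ v ∈ Exc ∩ A, (y v : ℤ)) - ∑ v ∈ Exc \ A, (y v : ℤ) + τ =
        R * ((A.card : ℤ) - (univ \ A).card) := by
  set s : ℤ := (A.card : ℤ) - (univ \ A).card with hs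
  have hsR : ((A.card : ℝ) - (univ \ A).card) = ((s : ℤ) : ℝ) := by
    rw [hs]
    push_cast
    ring
  rw [hsR] at hA
  have hD0 : (0 : ℤ) ≤ R * s + (∑ v ∈ Exc \ A, y0 v : ℕ) := by
    have : (0 : ℤ) ≤ ((∑ v ∈ Exc ∩ A, y0 v : ℕ) : ℤ) := Int.natCast_nonneg _
    linarith
  obtain ⟨D, hD⟩ := Int.eq_ofNat_of_zero_le hD0
  -- build the final function from a function on `Exc ∩ A`
  have build : ∀ (y' : V → ℕ) (τ : ℕ), (∀ v ∈ Exc ∩ A, y0 v ≤ y' v ∧ y' v ≤ y1 v) →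
      (τ = 0 ∨ (τ : ℝ) ≤ t1) → (∑ v ∈ Exc ∩ A, y' v) + τ = D →
      ∃ (y : V → ℕ) (τ : ℕ), (∀ v ∈ Exc, y0 v ≤ y v ∧ y v ≤ y1 v) ∧ (τ = 0 ∨ (τ : ℝ) ≤ t1) ∧
        (∀ v ∈ Exc \ A, y v = y0 v) ∧
        (∑ v ∈ Exc ∩ A, (y v : ℤ)) - ∑ v ∈ Exc \ A, (y v : ℤ) + τ = R * s := by
    intro y' τ hy' hτ hsum
    refine ⟨fun v => if v ∈ A then y' v else y0 v, τ, ?_, hτ, ?_, ?_⟩
    · intro v hv
      dsimp only
      split_ifs with h
      · exact hy' v (Finset.mem_inter.mpr ⟨hv, h⟩)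
      · exact ⟨le_rfl, h01 v hv⟩
    · intro v hv
      dsimp only
      rw [if_neg (Finset.mem_sdiff.mp hv).2]
    · have e1 : ∑ v ∈ Exc ∩ A, (((if v ∈ A then y' v else y0 v : ℕ)) : ℤ) =
          ((∑ v ∈ Exc ∩ A, y' v : ℕ) : ℤ) := by
        push_cast
        refine Finset.sum_congr rfl fun v hv => ?_
        rw [if_pos (Finset.mem_inter.mp hv).2]
      have e2 : ∑ v ∈ Exc \ A, (((if v ∈ A then y' v else y0 v : ℕ)) : ℤ) =
          ((∑ v ∈ Exc \ A, y0 v : ℕ) : ℤ) := by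
        push_cast
        refine Finset.sum_congr rfl fun v hv => ?_
        rw [if_neg (Finset.mem_sdiff.mp hv).2]
      rw [e1, e2]
      have e3 : ((∑ v ∈ Exc ∩ A, y' v : ℕ) : ℤ) + τ = D := by exact_mod_cast hsum
      linarith
  by_cases hcase : D ≤ ∑ v ∈ Exc ∩ A, y1 v
  · have h1 : ∑ v ∈ Exc ∩ A, y0 v ≤ D := by
      have : ((∑ v ∈ Exc ∩ A, y0 v : ℕ) : ℤ) ≤ (D : ℤ) := by linarith
      exact_mod_cast this
    obtain ⟨y', hy1, hy2⟩ := disc_ivt y0 y1 (Exc ∩ A) D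
      (fun v hv => h01 v (Finset.mem_inter.mp hv).1) h1 hcase
    exact build y' 0 hy1 (Or.inl rfl) (by omega)
  · push Not at hcase
    refine build y1 (D - ∑ v ∈ Exc ∩ A, y1 v)
      (fun v hv => ⟨h01 v (Finset.mem_inter.mp hv).1, le_rfl⟩) (Or.inr ?_) (by omega)
    rw [Nat.cast_sub hcase.le]
    have hDR : (D : ℝ) = R * ((s : ℤ) : ℝ) + ((∑ v ∈ Exc \ A, y0 v : ℕ) : ℝ) := by
      have : ((D : ℤ) : ℝ) = ((R * s + (∑ v ∈ Exc \ A, y0 v : ℕ) : ℤ) : ℝ) := by rw [hD]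
      push_cast at this ⊢
      linarith
    rw [hDR]
    linarith

theorem c_choose {V : Type} [Fintype V] (A Exc : Finset V) (R : ℕ) (y0 y1 : V → ℕ)
    (h01 : ∀ v ∈ Exc, y0 v ≤ y1 v) (tA tB : ℝ)
    (hA : (R : ℝ) * ((A.card : ℝ) - (univ \ A).card) ≤
      (∑ v ∈ Exc ∩ A, y1 v : ℕ) - (∑ v ∈ Exc \ A, y0 v : ℕ) + tA)
    (hB : (R : ℝ) * (((univ \ A).card : ℝ) - A.card) ≤
      (∑ v ∈ Exc \ A, y1 v : ℕ) - (∑ v ∈ Exc ∩ A, y0 v : ℕ) + tB) :
    ∃ (A1 : Finset V) (t1 : ℝ) (y : V → ℕ) (τ : ℕ), ((A1 = A ∧ t1 = tA) ∨ (A1 = univ \ A ∧ t1 = tB)) ∧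
      (∀ v ∈ Exc, y0 v ≤ y v ∧ y v ≤ y1 v) ∧ (τ = 0 ∨ (τ : ℝ) ≤ t1) ∧
      (∀ v ∈ Exc \ A1, y v = y0 v) ∧
      (∑ v ∈ Exc ∩ A1, (y v : ℤ)) - ∑ v ∈ Exc \ A1, (y v : ℤ) + τ =
        R * ((A1.card : ℤ) - (univ \ A1).card) := by
  have hc1 : Exc ∩ (univ \ A) = Exc \ A := by
    ext v
    simp
  have hc2 : Exc \ (univ \ A) = Exc ∩ A := by
    ext v
    simp
  have hc3 : (univ : Finset V) \ (univ \ A) = A := by
    ext v
    simp
  by_cases h : ((∑ v ∈ Exc ∩ A, y0 v : ℕ) : ℤ) - (∑ v ∈ Exc \ A, y0 v : ℕ) ≤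
      R * ((A.card : ℤ) - (univ \ A).card)
  · obtain ⟨y, τ, k1, k2, k3, k4⟩ := side_choose A Exc R y0 y1 h01 tA h hA
    exact ⟨A, tA, y, τ, Or.inl ⟨rfl, rfl⟩, k1, k2, k3, k4⟩
  · push Not at h
    obtain ⟨y, τ, k1, k2, k3, k4⟩ := side_choose (univ \ A) Exc R y0 y1 h01 tB (by
      rw [hc1, hc2, hc3]
      have : (R : ℤ) * (((univ \ A).card : ℤ) - A.card) =
        - (R * ((A.card : ℤ) - (univ \ A).card)) := by ring
      rw [this]
      linarith) (by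
      rw [hc1, hc2, hc3]
      exact hB)
    exact ⟨univ \ A, tB, y, τ, Or.inr ⟨rfl, rfl⟩, k1, k2, k3, k4⟩

theorem c_round {V : Type} [Fintype V] (A Exc : Finset V) (R : ℕ) (hR : 0 < R) (y : V → ℕ)
    (hy : ∀ v ∈ Exc, y v ≤ 2 * R) (τ : ℕ) (s : ℤ)
    (hs : (∑ v ∈ Exc ∩ A, (y v : ℤ)) - ∑ v ∈ Exc \ A, (y v : ℤ) + τ = R * s) :
    ∃ (a : Fin R → V → ℕ) (b : Fin R → ℕ), (∀ i w, a i w ≤ 2) ∧ (∀ w ∈ Exc, ∑ i, a i w = y w) ∧
      ∑ i, b i = τ ∧ (∀ i, b i ≤ (τ + R - 1) / R) ∧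
      (∀ i, (∑ v ∈ Exc ∩ A, (a i v : ℤ)) - ∑ v ∈ Exc \ A, (a i v : ℤ) + b i = s) := by
  set y' : Option V → ℕ := fun o => match o with
    | none => τ
    | some v => if v ∈ Exc then (if v ∈ A then y v else 2 * R - y v) else 0 with hy'
  have htot : ((∑ o, y' o : ℕ) : ℤ) = R * (s + 2 * (Exc \ A).card) := by
    rw [Fintype.sum_option]
    have e1 : ∑ v : V, y' (some v) = ∑ v ∈ Exc ∩ A, y v + ∑ v ∈ Exc \ A, (2 * R - y v) := by
      have : ∑ v : V, y' (some v) = ∑ v ∈ Exc, (if v ∈ A then y v else 2 * R - y v) := by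
        simp only [hy']
        rw [Finset.sum_ite_mem]
        simp
      rw [this, ← Finset.sum_inter_add_sum_sdiff Exc A]
      congr 1
      · exact Finset.sum_congr rfl fun v hv => if_pos (Finset.mem_inter.mp hv).2
      · exact Finset.sum_congr rfl fun v hv => if_neg (Finset.mem_sdiff.mp hv).2
    have e2 : ((∑ v ∈ Exc \ A, (2 * R - y v) : ℕ) : ℤ) =
        2 * R * (Exc \ A).card - ∑ v ∈ Exc \ A, (y v : ℤ) := by
      push_cast
      have : ∀ v ∈ Exc \ A, ((2 * R - y v : ℕ) : ℤ) = 2 * R - (y v : ℤ) := by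
        intro v hv
        have := hy v (Finset.mem_sdiff.mp hv).1
        omega
      rw [Finset.sum_congr rfl this, Finset.sum_sub_distrib]
      simp
      ring
    rw [e1]
    push_cast at e2 ⊢
    rw [e2]
    have e3 : (y' none : ℤ) = τ := rfl
    rw [e3]
    linarith
  have hT0 : (0 : ℤ) ≤ s + 2 * (Exc \ A).card := by
    have h1 : (0 : ℤ) ≤ R * (s + 2 * (Exc \ A).card) := by
      rw [← htot]
      exact Int.natCast_nonneg _
    have h2 : (0 : ℤ) < R := by exact_mod_cast hR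
    exact nonneg_of_mul_nonneg_right h1 h2
  obtain ⟨T, hT⟩ := Int.eq_ofNat_of_zero_le hT0
  have htot' : ∑ o, y' o = R * T := by
    have : ((∑ o, y' o : ℕ) : ℤ) = ((R * T : ℕ) : ℤ) := by
      rw [htot, hT]
      push_cast
      ring
    exact_mod_cast this
  obtain ⟨z, hz1, hz2, hz3, hz4⟩ := rounding R T hR y' htot'
  have hz2' : ∀ v i, z (some v) i ≤ 2 := by
    intro v i
    refine (hz3 _ _).trans ?_
    have : y' (some v) ≤ 2 * R := by
      simp only [hy']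
      split_ifs with h1 h2
      · exact hy v h1
      · omega
      · omega
    have h3 : y' (some v) + R - 1 < 3 * R := by omega
    have := Nat.div_lt_of_lt_mul (show y' (some v) + R - 1 < R * 3 by omega)
    omega
  have hz0 : ∀ v, v ∉ Exc → ∀ i, z (some v) i = 0 := by
    intro v hv i
    have h1 := hz3 (some v) i
    have h2 : y' (some v) = 0 := by
      simp only [hy']
      rw [if_neg hv]
    rw [h2] at h1
    have h3 : (0 + R - 1) / R = 0 := Nat.div_eq_of_lt (by omega)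
    omega
  refine ⟨fun i v => if v ∈ Exc then (if v ∈ A then z (some v) i else 2 - z (some v) i) else 0,
    fun i => z none i, ?_, ?_, ?_, ?_, ?_⟩
  · intro i w
    dsimp only
    have := hz2' w i
    split_ifs <;> omega
  · intro w hw
    simp only [if_pos hw]
    by_cases hA : w ∈ A
    · simp only [if_pos hA]
      rw [hz1]
      simp only [hy']
      rw [if_pos hw, if_pos hA]
    · simp only [if_neg hA]
      have h1 : ∑ i, (2 - z (some w) i) + ∑ i, z (some w) i = 2 * R := by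
        rw [← Finset.sum_add_distrib]
        have : ∀ i : Fin R, 2 - z (some w) i + z (some w) i = 2 := by
          intro i
          have := hz2' w i
          omega
        simp only [this]
        simp [mul_comm]
      rw [hz1] at h1
      have h2 : y' (some w) = 2 * R - y w := by
        simp only [hy']
        rw [if_pos hw, if_neg hA]
      rw [h2] at h1
      have := hy w hw
      omega
  · exact hz1 none
  · intro i
    exact hz3 none i
  · intro i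
    dsimp only
    have h1 := hz2 i
    rw [Fintype.sum_option] at h1
    have e1 : ∑ v : V, z (some v) i = ∑ v ∈ Exc ∩ A, z (some v) i +
        ∑ v ∈ Exc \ A, z (some v) i := by
      rw [Finset.sum_inter_add_sum_sdiff]
      refine (Finset.sum_subset (Finset.subset_univ _) fun v _ hv => hz0 v hv i).symm
    rw [e1] at h1
    have e2 : ∑ v ∈ Exc ∩ A,
        (((if v ∈ Exc then (if v ∈ A then z (some v) i else 2 - z (some v) i) else 0 : ℕ)) : ℤ) =
        ((∑ v ∈ Exc ∩ A, z (some v) i : ℕ) : ℤ) := by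
      push_cast
      refine Finset.sum_congr rfl fun v hv => ?_
      rw [Finset.mem_inter] at hv
      rw [if_pos hv.1, if_pos hv.2]
    have e3 : ∑ v ∈ Exc \ A,
        (((if v ∈ Exc then (if v ∈ A then z (some v) i else 2 - z (some v) i) else 0 : ℕ)) : ℤ) =
        2 * (Exc \ A).card - ((∑ v ∈ Exc \ A, z (some v) i : ℕ) : ℤ) := by
      have : ∀ v ∈ Exc \ A,
          (((if v ∈ Exc then (if v ∈ A then z (some v) i else 2 - z (some v) i) else 0 : ℕ)) : ℤ)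
          = 2 - (z (some v) i : ℤ) := by
        intro v hv
        rw [Finset.mem_sdiff] at hv
        rw [if_pos hv.1, if_neg hv.2]
        have := hz2' v i
        omega
      rw [Finset.sum_congr rfl this, Finset.sum_sub_distrib]
      push_cast
      simp
      ring
    rw [e2, e3]
    have h2 : ((z none i + (∑ v ∈ Exc ∩ A, z (some v) i + ∑ v ∈ Exc \ A, z (some v) i) : ℕ) : ℤ)
        = T := by exact_mod_cast h1
    push_cast at h2 ⊢
    have hT' : s + 2 * ((Exc \ A).card : ℤ) = T := hT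
    linarith

end Pool.Agent.HCD
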