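import Pool.Agent.Lib.HCD.B5
import Pool.Agent.Lib.HCD.B6

/-!
# C4: the structures J_i of case C

PROOF.  Light edges: choose one ordered representative of every edge of G inside A \ Exc (e.g. an arbitrary injection V → ℕ, p.1 < p.2): E, 2|E| = eo G (A\Exc) (A\Exc), degrees ≤ dm;
`matchings` with b: condition from hb.  Cherries: `cherries` with S1 w = light neighbours on the own side, S2 w = light neighbours on the other side, Fb i = vs (Ns i),
h1: ∑_i a i w = y w ≤ ownL - t or all a i w = 0 (from ya), h2: ∑_i (2 - a i w) = 2R - y w, 2R - y w + t ≤ crL (from yb), ht.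
Balance: for each i: pairs of jv i: w ∈ Exc∩A with a i w = 2: both leaves in A; 1: mixed; 0: both outside A; so (#both in A) - (#both outside) over Exc∩A = ∑ (a i w - 1); over Exc\A:
∑ (1 - a i w); Ns i: b i pairs inside A.  Total = ∑_{Exc∩A} a - ∑_{Exc\A} a + b i - |Exc∩A| + |Exc\A| = s - |Exc∩A| + |Exc\A| = |A\Exc| - |(univ\A)\Exc|, s = |A| - |univ\A|.
(The pairs (u i w, v i w) of different w are different: leaf; and not in Ns i: leafN.)
-/

set_option autoImplicit false

noncomputable section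

open scoped Classical
open Finset

namespace Pool.Agent.HCD

private lemma c4_vs_card {V : Type} (E : Finset (V × V)) : (vs E).card ≤ 2 * E.card := by
  unfold vs
  refine (card_union_le _ _).trans ?_
  have h1 : (E.image Prod.fst).card ≤ E.card := card_image_le
  have h2 : (E.image Prod.snd).card ≤ E.card := card_image_le
  omega

/-- one orientation of every edge inside `B` -/
private def c4E {V : Type} [Fintype V] (G : SimpleGraph V) (B : Finset V) (e : V → ℕ) :
    Finset (V × V) :=
  (B ×ˢ B).filter (fun p => G.Adj p.1 p.2 ∧ e p.1 < e p.2)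

private lemma c4_mem {V : Type} [Fintype V] {G : SimpleGraph V} {B : Finset V} {e : V → ℕ}
    {p : V × V} : p ∈ c4E G B e ↔ (p.1 ∈ B ∧ p.2 ∈ B) ∧ G.Adj p.1 p.2 ∧ e p.1 < e p.2 := by
  unfold c4E
  rw [mem_filter, mem_product]

private lemma c4_card {V : Type} [Fintype V] (G : SimpleGraph V) (B : Finset V) (e : V → ℕ)
    (he : Function.Injective e) : 2 * (c4E G B e).card = eo G B B := by
  have h1 : eo G B B = (c4E G B e).card + ((c4E G B e).image Prod.swap).card := by
    unfold eo
    rw [← card_union_of_disjoint]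
    · congr 1
      ext p
      simp only [mem_filter, mem_product, mem_union, mem_image, c4_mem, Prod.exists]
      constructor
      · rintro ⟨⟨h1, h2⟩, h3⟩
        have hne : e p.1 ≠ e p.2 := fun h => h3.ne (he h)
        rcases lt_or_gt_of_ne hne with h | h
        · exact Or.inl ⟨⟨h1, h2⟩, h3, h⟩
        · exact Or.inr ⟨p.2, p.1, ⟨⟨h2, h1⟩, h3.symm, h⟩, rfl⟩
      · rintro (⟨⟨h1, h2⟩, h3, h⟩ | ⟨a, b, ⟨⟨h1, h2⟩, h3, h⟩, rfl⟩)
        · exact ⟨⟨h1, h2⟩, h3⟩
        · exact ⟨⟨h2, h1⟩, h3.symm⟩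
    · rw [disjoint_left]
      intro p hp hq
      rw [mem_image] at hq
      obtain ⟨q, hq, rfl⟩ := hq
      rw [c4_mem] at hp hq
      have := hp.2.2
      have := hq.2.2
      simp only [Prod.fst_swap, Prod.snd_swap] at *
      omega
  rw [h1, card_image_of_injective _ Prod.swap_injective]
  ring

private lemma c4_deg {V : Type} [Fintype V] (G : SimpleGraph V) (B : Finset V) (e : V → ℕ)
    (dm : ℕ) (hdm : ∀ v ∈ B, dg G v B ≤ dm) (x : V) :
    ((c4E G B e).filter (fun p => p.1 = x ∨ p.2 = x)).card ≤ dm := by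
  by_cases hx : x ∈ B
  · refine le_trans ?_ (hdm x hx)
    unfold dg
    refine card_le_card_of_injOn (fun p => if p.1 = x then p.2 else p.1) ?_ ?_
    · intro p hp
      rw [mem_coe, mem_filter, c4_mem] at hp
      rw [mem_coe, mem_filter]
      obtain ⟨⟨⟨h1, h2⟩, h3, h4⟩, h5⟩ := hp
      by_cases h : p.1 = x
      · simp only [h, if_true]
        exact ⟨h2, h ▸ h3⟩
      · simp only [h, if_false]
        have h6 : p.2 = x := by tauto
        exact ⟨h1, h6 ▸ h3.symm⟩
    · intro p hp q hq hpq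
      rw [mem_coe, mem_filter, c4_mem] at hp hq
      obtain ⟨⟨⟨h1, h2⟩, h3, h4⟩, h5⟩ := hp
      obtain ⟨⟨⟨g1, g2⟩, g3, g4⟩, g5⟩ := hq
      obtain ⟨p1, p2⟩ := p
      obtain ⟨q1, q2⟩ := q
      simp only at *
      by_cases h : p1 = x <;> by_cases h' : q1 = x
      · subst h; subst h'
        simp only [if_true] at hpq
        rw [hpq]
      · subst h
        simp only [if_true, h', if_false] at hpq
        have : q2 = p1 := by tauto
        subst this; subst hpq
        exact absurd h4 (by omega)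
      · subst h'
        simp only [if_true, h, if_false] at hpq
        have : p2 = q1 := by tauto
        subst this; subst hpq
        exact absurd h4 (by omega)
      · simp only [h, h', if_false] at hpq
        have e1 : p2 = x := by tauto
        have e2 : q2 = x := by tauto
        rw [hpq, e1, e2]
  · have : (c4E G B e).filter (fun p => p.1 = x ∨ p.2 = x) = ∅ := by
      rw [filter_eq_empty_iff]
      intro p hp hpx
      rw [c4_mem] at hp
      rcases hpx with h | h
      · exact hx (h ▸ hp.1.1)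
      · exact hx (h ▸ hp.1.2)
    rw [this]; simp

theorem c_js {V : Type} [Fintype V] (G : SimpleGraph V) (A Exc : Finset V) (R t dm : ℕ)
    (a : Fin R → V → ℕ) (b : Fin R → ℕ) (ha : ∀ i w, a i w ≤ 2)
    (h1 : ∀ w ∈ Exc, (∀ i, a i w = 0) ∨ ∑ i, a i w + t ≤ ownL G A Exc w)
    (h2 : ∀ w ∈ Exc, ∑ i, (2 - a i w) + t ≤ crL G A Exc w)
    (hdm : (∀ i, b i = 0) ∨ ∀ v ∈ A \ Exc, dg G v (A \ Exc) ≤ dm)
    (hb : ∀ i, b i = 0 ∨
      2 * (2 * dm * (b i - 1) + ∑ j, b j) < eo G (A \ Exc) (A \ Exc) + 2 * b i)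
    (ht : ∀ i, 2 * Exc.card + 2 * b i ≤ t)
    (hbal : ∀ i, (∑ v ∈ Exc ∩ A, (a i v : ℤ)) - ∑ v ∈ Exc \ A, (a i v : ℤ) + b i =
      (A.card : ℤ) - (univ \ A).card) :
    ∃ (u v : Fin R → V → V) (Ns : Fin R → Finset (V × V)), JS G Exc u v Ns ∧
      (∀ i, (Ns i).card = b i) ∧ (∀ i, ∀ p ∈ Ns i, p.1 ∈ A ∧ p.2 ∈ A) ∧
      (∀ i, (((A \ Exc).card : ℤ)) - ((univ \ A) \ Exc).card =
        ((jv Exc u v Ns i).filter (fun p => p.1 ∈ A \ Exc ∧ p.2 ∈ A \ Exc)).card -
        ((jv Exc u v Ns i).filter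
          (fun p => p.1 ∈ (univ \ A) \ Exc ∧ p.2 ∈ (univ \ A) \ Exc)).card) := by
  -- the light matchings
  obtain ⟨e, he⟩ : ∃ e : V → ℕ, Function.Injective e :=
    ⟨fun v => (Fintype.equivFin V v : ℕ), fun x y h => (Fintype.equivFin V).injective (Fin.ext h)⟩
  set B := A \ Exc with hB
  obtain ⟨Ns, hN1, hN2, hN3, hN4⟩ : ∃ Ns : Fin R → Finset (V × V), (∀ i, Ns i ⊆ c4E G B e) ∧
      (∀ i, (Ns i).card = b i) ∧ (∀ i, IsMat (Ns i)) ∧
      (∀ i j, i ≠ j → Disjoint (Ns i) (Ns j)) := by
    rcases hdm with h0 | hdm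
    · refine ⟨fun _ => ∅, fun _ => empty_subset _, fun i => by simp [h0 i], fun i => ?_,
        fun i j _ => disjoint_empty_left _⟩
      exact ⟨by simp, by simp, by simp, by simp⟩
    · refine matchings (c4E G B e) ?_ dm (c4_deg G B e dm hdm) R b ?_
      · intro p hp
        rw [c4_mem] at hp
        refine ⟨hp.2.1.ne, fun hs => ?_⟩
        rw [c4_mem] at hs
        have h1 := hp.2.2
        have h2 := hs.2.2
        simp only [Prod.fst_swap, Prod.snd_swap] at h2
        omega
      · intro i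
        rcases hb i with h | h
        · exact Or.inl h
        · right
          have := c4_card G B e he
          omega
  -- the cherries
  set S1 : V → Finset V := fun w => (sameS A w \ Exc).filter (fun u => G.Adj w u) with hS1
  set S2 : V → Finset V := fun w => (oppS A w \ Exc).filter (fun u => G.Adj w u) with hS2
  have hdisj : ∀ w, Disjoint (sameS A w) (oppS A w) := by
    intro w
    unfold sameS oppS
    split_ifs
    · exact disjoint_sdiff
    · exact sdiff_disjoint
  obtain ⟨u, v, hc1, hc2, hc3⟩ := cherries Exc R t a S1 S2 (fun i => vs (Ns i)) ha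
    (fun w => by
      rw [disjoint_left]
      intro x h1 h2
      rw [hS1, mem_filter, mem_sdiff] at h1
      rw [hS2, mem_filter, mem_sdiff] at h2
      exact (disjoint_left.mp (hdisj w)) h1.1.1 h2.1.1)
    (fun w hw => h1 w hw) (fun w hw => Or.inr (h2 w hw))
    (fun i => by
      have h3 := c4_vs_card (Ns i)
      rw [hN2 i] at h3
      have h4 := ht i
      show 2 * Exc.card + (vs (Ns i)).card ≤ t
      omega)
  have m1 : ∀ w x, x ∈ S1 w → x ∈ sameS A w ∧ x ∉ Exc ∧ G.Adj w x := by
    intro w x h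
    rw [hS1, mem_filter, mem_sdiff] at h
    exact ⟨h.1.1, h.1.2, h.2⟩
  have m2 : ∀ w x, x ∈ S2 w → x ∈ oppS A w ∧ x ∉ Exc ∧ G.Adj w x := by
    intro w x h
    rw [hS2, mem_filter, mem_sdiff] at h
    exact ⟨h.1.1, h.1.2, h.2⟩
  have hu : ∀ i, ∀ w ∈ Exc, u i w ∉ Exc ∧ G.Adj w (u i w) ∧
      (1 ≤ a i w → u i w ∈ sameS A w) ∧ (¬ 1 ≤ a i w → u i w ∈ oppS A w) := by
    intro i w hw
    have h := (hc1 i w hw).1
    by_cases h1 : 1 ≤ a i w
    · rw [if_pos h1] at h
      have := m1 w _ h
      exact ⟨this.2.1, this.2.2, fun _ => this.1, fun h2 => absurd h1 h2⟩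
    · rw [if_neg h1] at h
      have := m2 w _ h
      exact ⟨this.2.1, this.2.2, fun h2 => absurd h2 h1, fun _ => this.1⟩
  have hv : ∀ i, ∀ w ∈ Exc, v i w ∉ Exc ∧ G.Adj w (v i w) ∧
      (a i w = 2 → v i w ∈ sameS A w) ∧ (¬ a i w = 2 → v i w ∈ oppS A w) := by
    intro i w hw
    have h := (hc1 i w hw).2.1
    by_cases h1 : a i w = 2
    · rw [if_pos h1] at h
      have := m1 w _ h
      exact ⟨this.2.1, this.2.2, fun _ => this.1, fun h2 => absurd h1 h2⟩
    · rw [if_neg h1] at h
      have := m2 w _ h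
      exact ⟨this.2.1, this.2.2, fun h2 => absurd h2 h1, fun _ => this.1⟩
  have hE : ∀ i, ∀ p ∈ Ns i, (p.1 ∈ B ∧ p.2 ∈ B) ∧ G.Adj p.1 p.2 ∧ e p.1 < e p.2 :=
    fun i p hp => c4_mem.mp (hN1 i hp)
  have hBA : ∀ x, x ∈ B → x ∈ A ∧ x ∉ Exc := fun x hx => mem_sdiff.mp hx
  have hleafN : ∀ i, ∀ w ∈ Exc, ∀ p ∈ Ns i,
      p.1 ≠ u i w ∧ p.1 ≠ v i w ∧ p.2 ≠ u i w ∧ p.2 ≠ v i w := by
    intro i w hw p hp
    have h3 := (hc1 i w hw).2.2.1
    have h4 := (hc1 i w hw).2.2.2.1
    have e1 : p.1 ∈ vs (Ns i) := mem_union_left _ (mem_image_of_mem _ hp)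
    have e2 : p.2 ∈ vs (Ns i) := mem_union_right _ (mem_image_of_mem _ hp)
    exact ⟨fun h => h3 (h ▸ e1), fun h => h4 (h ▸ e1), fun h => h3 (h ▸ e2), fun h => h4 (h ▸ e2)⟩
  refine ⟨u, v, Ns, ?_, hN2, fun i p hp => ⟨(hBA _ (hE i p hp).1.1).1, (hBA _ (hE i p hp).1.2).1⟩,
    ?_⟩
  · exact
      { uadj := fun i w hw => (hu i w hw).2.1
        vadj := fun i w hw => (hv i w hw).2.1
        uL := fun i w hw => (hu i w hw).1
        vL := fun i w hw => (hv i w hw).1
        nadj := fun i p hp => (hE i p hp).2.1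
        nL := fun i p hp => ⟨(hBA _ (hE i p hp).1.1).2, (hBA _ (hE i p hp).1.2).2⟩
        uv := fun i w hw => (hc1 i w hw).2.2.2.2
        leaf := hc2
        leafN := hleafN
        nmat := hN3
        edist := hc3
        ndist := by
          intro i j hij p hp q hq h
          have hp' := hE i p hp
          have hq' := hE j q hq
          rw [Sym2.eq_iff] at h
          rcases h with ⟨h1, h2⟩ | ⟨h1, h2⟩
          · have : p = q := Prod.ext h1 h2
            subst this
            exact (disjoint_left.mp (hN4 i j hij)) hp hq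
          · have h3 := hp'.2.2
            have h4 := hq'.2.2
            rw [h1, h2] at h3
            omega }
  · intro i
    have hinj : Set.InjOn (fun w => (u i w, v i w)) (Exc : Set V) := by
      intro w hw w' hw' h
      by_contra hne
      exact (hc2 i w hw w' hw' hne).1 (congrArg Prod.fst h)
    have hdj : Disjoint (Exc.image (fun w => (u i w, v i w))) (Ns i) := by
      rw [disjoint_left]
      intro p hp hq
      rw [mem_image] at hp
      obtain ⟨w, hw, rfl⟩ := hp
      exact (hleafN i w hw _ hq).1 rfl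
    have hcount : ∀ (P : V × V → Prop) [DecidablePred P], ((jv Exc u v Ns i).filter P).card =
        (Exc.filter (fun w => P (u i w, v i w))).card + ((Ns i).filter P).card := by
      intro P _
      unfold jv
      rw [filter_union, card_union_of_disjoint (disjoint_filter_filter hdj), filter_image,
        card_image_of_injOn]
      intro w hw w' hw' h
      refine hinj ?_ ?_ h
      · exact mem_coe.mpr (mem_of_mem_filter _ (mem_coe.mp hw))
      · exact mem_coe.mpr (mem_of_mem_filter _ (mem_coe.mp hw'))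
    rw [hcount, hcount]
    have hn1 : ((Ns i).filter (fun p => p.1 ∈ B ∧ p.2 ∈ B)).card = b i := by
      rw [filter_true_of_mem (fun p hp => (hE i p hp).1), hN2 i]
    have hn2 : ((Ns i).filter
        (fun p => p.1 ∈ (univ \ A) \ Exc ∧ p.2 ∈ (univ \ A) \ Exc)).card = 0 := by
      rw [card_eq_zero, filter_eq_empty_iff]
      intro p hp h
      have h1 := (hBA _ (hE i p hp).1.1).1
      simp only [mem_sdiff, mem_univ, true_and] at h
      exact h.1.1 h1
    rw [hn1, hn2]
    -- the main computation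
    have hside : ∀ w x, (w ∈ A → (x ∈ sameS A w ↔ x ∈ A) ∧ (x ∈ oppS A w ↔ x ∉ A)) ∧
        (w ∉ A → (x ∈ sameS A w ↔ x ∉ A) ∧ (x ∈ oppS A w ↔ x ∈ A)) := by
      intro w x
      constructor
      · intro hw
        simp [sameS, oppS, hw]
      · intro hw
        simp [sameS, oppS, hw]
    have key : ∀ w ∈ Exc,
        (if (u i w, v i w).1 ∈ B ∧ (u i w, v i w).2 ∈ B then (1 : ℤ) else 0) -
        (if (u i w, v i w).1 ∈ (univ \ A) \ Exc ∧ (u i w, v i w).2 ∈ (univ \ A) \ Exc
          then (1 : ℤ) else 0) = if w ∈ A then (a i w : ℤ) - 1 else 1 - (a i w : ℤ) := by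
      intro w hw
      have hu' := hu i w hw
      have hv' := hv i w hw
      have ha' := ha i w
      have s1 := hside w (u i w)
      have s2 := hside w (v i w)
      simp only [hB, mem_sdiff, mem_univ, true_and, hu'.1, hv'.1, not_false_iff, and_true]
      by_cases hwA : w ∈ A
      · rw [if_pos hwA]
        have t1 := s1.1 hwA
        have t2 := s2.1 hwA
        have hcases : a i w = 0 ∨ a i w = 1 ∨ a i w = 2 := by omega
        rcases hcases with h | h | h
        · have e1 : u i w ∉ A := t1.2.mp (hu'.2.2.2 (by omega))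
          have e2 : v i w ∉ A := t2.2.mp (hv'.2.2.2 (by omega))
          simp [e1, e2, h]
        · have e1 : u i w ∈ A := t1.1.mp (hu'.2.2.1 (by omega))
          have e2 : v i w ∉ A := t2.2.mp (hv'.2.2.2 (by omega))
          simp [e1, e2, h]
        · have e1 : u i w ∈ A := t1.1.mp (hu'.2.2.1 (by omega))
          have e2 : v i w ∈ A := t2.1.mp (hv'.2.2.1 h)
          simp [e1, e2, h]
      · rw [if_neg hwA]
        have t1 := s1.2 hwA
        have t2 := s2.2 hwA
        have hcases : a i w = 0 ∨ a i w = 1 ∨ a i w = 2 := by omega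
        rcases hcases with h | h | h
        · have e1 : u i w ∈ A := t1.2.mp (hu'.2.2.2 (by omega))
          have e2 : v i w ∈ A := t2.2.mp (hv'.2.2.2 (by omega))
          simp [e1, e2, h]
        · have e1 : u i w ∉ A := t1.1.mp (hu'.2.2.1 (by omega))
          have e2 : v i w ∈ A := t2.2.mp (hv'.2.2.2 (by omega))
          simp [e1, e2, h]
        · have e1 : u i w ∉ A := t1.1.mp (hu'.2.2.1 (by omega))
          have e2 : v i w ∉ A := t2.1.mp (hv'.2.2.1 h)
          simp [e1, e2, h]
    have hsum := sum_congr rfl key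
    rw [sum_sub_distrib] at hsum
    have f1 : ((Exc.filter (fun w => (u i w, v i w).1 ∈ B ∧ (u i w, v i w).2 ∈ B)).card : ℤ) =
        ∑ w ∈ Exc, (if (u i w, v i w).1 ∈ B ∧ (u i w, v i w).2 ∈ B then (1 : ℤ) else 0) := by
      rw [card_filter]; push_cast; rfl
    have f2 : ((Exc.filter (fun w => (u i w, v i w).1 ∈ (univ \ A) \ Exc ∧
        (u i w, v i w).2 ∈ (univ \ A) \ Exc)).card : ℤ) =
        ∑ w ∈ Exc, (if (u i w, v i w).1 ∈ (univ \ A) \ Exc ∧
          (u i w, v i w).2 ∈ (univ \ A) \ Exc then (1 : ℤ) else 0) := by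
      rw [card_filter]; push_cast; rfl
    have g : ∑ w ∈ Exc, (if w ∈ A then (a i w : ℤ) - 1 else 1 - (a i w : ℤ)) =
        (∑ w ∈ Exc ∩ A, (a i w : ℤ)) - (Exc ∩ A).card -
          ((∑ w ∈ Exc \ A, (a i w : ℤ)) - (Exc \ A).card) := by
      rw [← sum_inter_add_sum_sdiff Exc A]
      have e1 : ∑ w ∈ Exc ∩ A, (if w ∈ A then (a i w : ℤ) - 1 else 1 - (a i w : ℤ)) =
          ∑ w ∈ Exc ∩ A, ((a i w : ℤ) - 1) :=
        sum_congr rfl fun w hw => if_pos (mem_inter.mp hw).2
      have e2 : ∑ w ∈ Exc \ A, (if w ∈ A then (a i w : ℤ) - 1 else 1 - (a i w : ℤ)) =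
          ∑ w ∈ Exc \ A, (1 - (a i w : ℤ)) :=
        sum_congr rfl fun w hw => if_neg (mem_sdiff.mp hw).2
      rw [e1, e2, sum_sub_distrib, sum_sub_distrib]
      simp only [sum_const, nsmul_eq_mul, mul_one]
      ring
    have c1 : ((A \ Exc).card : ℤ) = A.card - (Exc ∩ A).card := by
      have := card_sdiff_add_card_inter A Exc
      rw [inter_comm] at this
      omega
    have c2 : (((univ \ A) \ Exc).card : ℤ) = (univ \ A).card - (Exc \ A).card := by
      have := card_sdiff_add_card_inter (univ \ A) Exc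
      have h3 : (univ \ A) ∩ Exc = Exc \ A := by
        ext x; simp only [mem_inter, mem_sdiff, mem_univ, true_and]; tauto
      rw [h3] at this
      omega
    have hb' := hbal i
    push_cast
    rw [f1, f2]
    rw [hB] at *
    rw [c1, c2]
    linarith

end Pool.Agent.HCD
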