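import Pool.Agent.Lib.HCD.Defs2

/-!
# C5a: case C: exceptional vertices, hubs, degrees (section 6.1)

Constants (`CConst`): e ≤ 1/20, e ≤ ε; θ = e/200; ξ = e θ/200; k3 = ξ/100; κ = k3 θ^2/1000.  n = card V.

PROOF of `c_facts`.  t = ⌈ξ n⌉₊, T0 = ⌈θ n⌉₊, c3 = ⌊k3 n⌋₊.  Exc0 = {v | dg G v (oppS A v) + θ n ≤ |oppS A v|}: ∑_{v∈A} (|univ\A| - dg G v (univ\A)) = |A||univ\A| - eo G A (univ\A) ≤ κ n^2, the same for the
other side (eo G A (univ\A) = eo G (univ\A) A); so |Exc0| θ n ≤ 2κ n^2.  HA = {v ∈ A | T0 ≤ dg G v A} if it has at most c3 elements, else a subset with exactly c3 elements (`exists_subset_card_eq`);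
HB same for univ \ A.  |Exc| ≤ 2κ n/θ + 2 k3 n ≤ 3 k3 n.
2R ≤ (1-ε) r + 2 ≤ (1-ε)(1/2+κ) n + 2 ≤ (1 - ε/2) n/2.
own: hub v: dg G v (sameS A v) ≥ θ n; v ∈ Exc0: dg G v (sameS) ≥ n/2 - dg G v (oppS) ≥ n/2 - |oppS| + θ n ≥ (θ - κ) n; minus |Exc|: ≥ θ n/2.
cr: ≥ n/10 - |Exc| ≥ n/20.  sum: ownL + crL ≥ n/2 - |Exc| ≥ 2R + 2t + 2.  far: v ∉ Exc0: crL > |oppS| - θ n - |Exc| ≥ (1/2-κ-θ-3k3) n ≥ 2R + t.  light: same bound for v ∉ Exc.
-/

set_option autoImplicit false

noncomputable section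

open scoped Classical
open Finset

namespace Pool.Agent.HCD

/-- the constants of case C -/
structure CConst (ε e θ ξ k3 κ : ℝ) : Prop where
  he0 : 0 < e
  he1 : e ≤ 1 / 20
  hε : e ≤ ε
  hε1 : ε ≤ 1 / 4
  hθ : θ = e / 200
  hξ : ξ = e * θ / 200
  hk3 : k3 = ξ / 100
  hκ : κ = k3 * θ ^ 2 / 1000

/-- exceptional vertices, hubs, degrees in case C -/
structure CF {V : Type} [Fintype V] (G : SimpleGraph V) (A Exc Exc0 HA HB : Finset V)
    (R t T0 c3 : ℕ) (κ θ ξ k3 : ℝ) : Prop where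
  t1 : ξ * Fintype.card V ≤ t
  t2 : (t : ℝ) ≤ ξ * Fintype.card V + 1
  T1 : θ * Fintype.card V ≤ T0
  T2 : (T0 : ℝ) ≤ θ * Fintype.card V + 1
  c1 : k3 * Fintype.card V ≤ c3 + 1
  c2 : (c3 : ℝ) ≤ k3 * Fintype.card V
  exc : Exc = Exc0 ∪ HA ∪ HB
  excC : (Exc.card : ℝ) ≤ 3 * k3 * Fintype.card V
  exc0C : (Exc0.card : ℝ) * θ ≤ 2 * κ * Fintype.card V
  HAs : HA ⊆ A
  HBs : HB ⊆ univ \ A
  HAd : ∀ v ∈ HA, T0 ≤ dg G v A
  HBd : ∀ v ∈ HB, T0 ≤ dg G v (univ \ A)
  HAc : (∀ v ∈ A, T0 ≤ dg G v A → v ∈ HA) ∨ HA.card = c3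
  HBc : (∀ v ∈ univ \ A, T0 ≤ dg G v (univ \ A) → v ∈ HB) ∨ HB.card = c3
  own : ∀ v ∈ Exc, θ / 2 * Fintype.card V ≤ ownL G A Exc v
  cr : ∀ v ∈ Exc, (Fintype.card V : ℝ) / 20 ≤ crL G A Exc v
  sum : ∀ v ∈ Exc, 2 * R + 2 * t + 2 ≤ ownL G A Exc v + crL G A Exc v
  far : ∀ v ∈ Exc, v ∉ Exc0 → 2 * R + t ≤ crL G A Exc v
  lightA : ∀ v ∈ A \ Exc, (1 / 2 - κ - θ - 3 * k3) * Fintype.card V ≤
    dg G v ((univ \ A) \ Exc)
  lightB : ∀ v ∈ (univ \ A) \ Exc, (1 / 2 - κ - θ - 3 * k3) * Fintype.card V ≤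
    dg G v (A \ Exc)

section aux

variable {V : Type} [Fintype V]

private theorem dg_le_card (G : SimpleGraph V) (v : V) (X : Finset V) : dg G v X ≤ X.card :=
  card_filter_le _ _

private theorem dg_sdiff (G : SimpleGraph V) (v : V) (X E : Finset V) :
    dg G v X ≤ dg G v (X \ E) + E.card := by
  unfold dg
  calc (X.filter (fun u => G.Adj v u)).card
      ≤ ((X \ E).filter (fun u => G.Adj v u) ∪ E).card := by
        refine card_le_card fun u hu => ?_
        rw [mem_filter] at hu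
        by_cases hE : u ∈ E
        · exact mem_union_right _ hE
        · exact mem_union_left _ (mem_filter.2 ⟨mem_sdiff.2 ⟨hu.1, hE⟩, hu.2⟩)
    _ ≤ _ := card_union_le _ _

private theorem dg_split (G : SimpleGraph V) (v : V) (A : Finset V) :
    dg G v univ = dg G v A + dg G v (univ \ A) := by
  unfold dg
  rw [← card_union_of_disjoint]
  · congr 1
    ext u
    simp only [mem_filter, mem_univ, true_and, mem_union, mem_sdiff]
    tauto
  · rw [disjoint_left]
    intro u hu hu'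
    rw [mem_filter] at hu hu'
    exact (mem_sdiff.1 hu'.1).2 hu.1

private theorem dg_same_opp (G : SimpleGraph V) (v : V) (A : Finset V) :
    dg G v univ = dg G v (sameS A v) + dg G v (oppS A v) := by
  unfold sameS oppS
  by_cases h : v ∈ A
  · rw [if_pos h, if_pos h]
    exact dg_split G v A
  · rw [if_neg h, if_neg h, add_comm]
    exact dg_split G v A

private theorem eo_sum (G : SimpleGraph V) (X Y : Finset V) :
    eo G X Y = ∑ v ∈ X, dg G v Y := by
  unfold eo dg
  rw [card_filter, sum_product]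
  refine sum_congr rfl fun v _ => ?_
  rw [card_filter]

private theorem eo_symm (G : SimpleGraph V) (X Y : Finset V) : eo G X Y = eo G Y X := by
  rw [eo_sum, eo_sum]
  unfold dg
  simp only [card_filter]
  rw [sum_comm]
  refine sum_congr rfl fun v _ => sum_congr rfl fun u _ => ?_
  simp only [G.adj_comm]

/-- few vertices with many missing neighbours -/
private theorem few (G : SimpleGraph V) (X Y : Finset V) (s : ℝ) :
    ((X.filter (fun v => (dg G v Y : ℝ) + s ≤ Y.card)).card : ℝ) * s ≤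
      (X.card : ℝ) * Y.card - eo G X Y := by
  have h1 : (X.card : ℝ) * Y.card - eo G X Y = ∑ v ∈ X, ((Y.card : ℝ) - dg G v Y) := by
    rw [eo_sum, sum_sub_distrib, sum_const, nsmul_eq_mul]
    push_cast
    rfl
  rw [h1]
  calc ((X.filter (fun v => (dg G v Y : ℝ) + s ≤ Y.card)).card : ℝ) * s
      ≤ ∑ v ∈ X.filter (fun v => (dg G v Y : ℝ) + s ≤ Y.card), ((Y.card : ℝ) - dg G v Y) := by
        rw [← nsmul_eq_mul]
        refine card_nsmul_le_sum _ _ _ fun v hv => ?_
        have := (mem_filter.1 hv).2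
        linarith
    _ ≤ _ := by
        refine sum_le_sum_of_subset_of_nonneg (filter_subset _ _) fun v _ _ => ?_
        have : (dg G v Y : ℝ) ≤ Y.card := by exact_mod_cast dg_le_card G v Y
        linarith

private theorem sdsd (A : Finset V) : univ \ (univ \ A) = A := by
  ext u
  simp

private theorem oppS_compl (A : Finset V) (v : V) : oppS (univ \ A) v = oppS A v := by
  unfold oppS
  by_cases h : v ∈ A
  · have h' : v ∉ univ \ A := by simp [h]
    rw [if_pos h, if_neg h']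
  · have h' : v ∈ univ \ A := by simp [h]
    rw [if_neg h, if_pos h', sdsd]

private theorem sameS_compl (A : Finset V) (v : V) : sameS (univ \ A) v = sameS A v := by
  unfold sameS
  by_cases h : v ∈ A
  · have h' : v ∉ univ \ A := by simp [h]
    rw [if_pos h, if_neg h', sdsd]
  · have h' : v ∈ univ \ A := by simp [h]
    rw [if_neg h, if_pos h']

omit [Fintype V] in
/-- a set or a subset with exactly `c` elements -/
private theorem trunc (S : Finset V) (c : ℕ) : ∃ H ⊆ S, H.card ≤ c ∧ (H = S ∨ H.card = c) := by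
  by_cases h : S.card ≤ c
  · exact ⟨S, Subset.refl _, h, Or.inl rfl⟩
  · obtain ⟨H, h1, h2⟩ := exists_subset_card_eq (le_of_not_ge h)
    exact ⟨H, h1, h2.le, Or.inr h2⟩

end aux

theorem c_facts (ε e θ ξ k3 κ : ℝ) (hc : CConst ε e θ ξ k3 κ) : ∃ n0 : ℕ, ∀ (V : Type)
    [Fintype V] (G : SimpleGraph V) (x : V → V → ℝ) (r : ℝ) (R : ℕ) (A : Finset V),
    n0 ≤ Fintype.card V → Dirac G → FF G x r → (Fintype.card V : ℝ) ≤ 4 * r → CPt G A κ →
    r ≤ (1 / 2 + κ) * Fintype.card V → (2 * R : ℝ) ≤ (1 - ε) * r + 2 →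
    ∃ (Exc Exc0 HA HB : Finset V) (t T0 c3 : ℕ), CF G A Exc Exc0 HA HB R t T0 c3 κ θ ξ k3 := by
  obtain ⟨he0, he1, hε, hε1, hθ, hξ, hk3, hκ⟩ := hc
  have hθ0 : 0 < θ := by rw [hθ]; positivity
  have hθe : θ ≤ 1 / 4000 := by rw [hθ]; linarith
  have hξ0 : 0 < ξ := by rw [hξ]; positivity
  have hξθ : ξ ≤ θ / 4000 := by
    rw [hξ]
    have : e * θ ≤ 1 / 20 * θ := mul_le_mul_of_nonneg_right he1 hθ0.le
    linarith
  have hk0 : 0 < k3 := by rw [hk3]; positivity
  have hkξ : k3 = ξ / 100 := hk3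
  have hκ0 : 0 < κ := by rw [hκ]; positivity
  have hκθ : κ = θ * (k3 * θ / 1000) := by rw [hκ]; ring
  have hκk : κ ≤ k3 / 1000 := by
    have : k3 * θ ^ 2 ≤ k3 * 1 :=
      mul_le_mul_of_nonneg_left (by nlinarith) hk0.le
    rw [hκ]
    linarith
  have hθe' : θ = e / 200 := hθ
  refine ⟨⌈24 / e⌉₊ + 1, ?_⟩
  intro V _ G x r R A hn hD hFF hr4 hA hr hR
  obtain ⟨n, hne⟩ : ∃ n : ℝ, n = Fintype.card V := ⟨_, rfl⟩
  have hn1 : 24 / e < n := by
    have h1 : 24 / e ≤ (⌈24 / e⌉₊ : ℝ) := Nat.le_ceil _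
    have h2 : ((⌈24 / e⌉₊ + 1 : ℕ) : ℝ) ≤ n := by rw [hne]; exact_mod_cast hn
    push_cast at h2
    linarith
  have hen : 24 < e * n := by
    rw [div_lt_iff₀ he0] at hn1
    linarith
  have hn0 : 0 < n := lt_trans (by positivity) hn1
  have hcard : (A.card : ℝ) + (univ \ A).card = n := by
    rw [hne]
    have := card_sdiff_add_card_eq_card (subset_univ A)
    rw [card_univ] at this
    exact_mod_cast (by omega : A.card + (univ \ A).card = Fintype.card V)
  obtain ⟨hlo, hlo', hmiss, hcross⟩ := hA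
  rw [← hne] at hlo hlo' hmiss hcross hr hr4
  -- the sets
  obtain ⟨E0, hE0⟩ : ∃ E0 : Finset V, E0 = univ.filter (fun v =>
    (dg G v (oppS A v) : ℝ) + θ * n ≤ (oppS A v).card) := ⟨_, rfl⟩
  obtain ⟨HA, hHA1, hHA2, hHA3⟩ := trunc (A.filter (fun v => ⌈θ * n⌉₊ ≤ dg G v A)) ⌊k3 * n⌋₊
  obtain ⟨HB, hHB1, hHB2, hHB3⟩ :=
    trunc ((univ \ A).filter (fun v => ⌈θ * n⌉₊ ≤ dg G v (univ \ A))) ⌊k3 * n⌋₊
  have hc3 : (⌊k3 * n⌋₊ : ℝ) ≤ k3 * n := Nat.floor_le (by positivity)
  have hE0c : (E0.card : ℝ) * θ ≤ 2 * κ * n := by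
    have h1 := few G A (univ \ A) (θ * n)
    have h2 := few G (univ \ A) A (θ * n)
    rw [eo_symm G (univ \ A) A] at h2
    have h3 : E0 ⊆ A.filter (fun v => (dg G v (univ \ A) : ℝ) + θ * n ≤ (univ \ A).card) ∪
        (univ \ A).filter (fun v => (dg G v A : ℝ) + θ * n ≤ A.card) := by
      intro v hv
      rw [hE0, mem_filter] at hv
      by_cases h : v ∈ A
      · have h4 := hv.2
        simp only [oppS, if_pos h] at h4
        exact mem_union_left _ (mem_filter.2 ⟨h, h4⟩)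
      · have h4 := hv.2
        simp only [oppS, if_neg h] at h4
        exact mem_union_right _ (mem_filter.2 ⟨by simp [h], h4⟩)
    have h4 : (E0.card : ℝ) ≤
        ((A.filter (fun v => (dg G v (univ \ A) : ℝ) + θ * n ≤ (univ \ A).card)).card : ℝ) +
        (((univ \ A).filter (fun v => (dg G v A : ℝ) + θ * n ≤ A.card)).card : ℝ) := by
      exact_mod_cast (card_le_card h3).trans (card_union_le _ _)
    have h5 := mul_le_mul_of_nonneg_right h4 (by positivity : 0 ≤ θ * n)
    have h6 : (E0.card : ℝ) * θ * n ≤ 2 * κ * n * n := by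
      calc (E0.card : ℝ) * θ * n = E0.card * (θ * n) := by ring
        _ ≤ _ := h5
        _ ≤ 2 * (κ * n ^ 2) := by linarith
        _ = _ := by ring
    exact le_of_mul_le_mul_right h6 hn0
  obtain ⟨Exc, hExc⟩ : ∃ Exc : Finset V, Exc = E0 ∪ HA ∪ HB := ⟨_, rfl⟩
  have hExcC : (Exc.card : ℝ) ≤ 3 * k3 * n := by
    have h1 : (Exc.card : ℝ) ≤ E0.card + HA.card + HB.card := by
      rw [hExc]
      exact_mod_cast (card_union_le _ _).trans (Nat.add_le_add_right (card_union_le _ _) _)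
    have h2 : (HA.card : ℝ) ≤ k3 * n := le_trans (by exact_mod_cast hHA2) hc3
    have h3 : (HB.card : ℝ) ≤ k3 * n := le_trans (by exact_mod_cast hHB2) hc3
    have h4 : (E0.card : ℝ) ≤ k3 * n := by
      have h5 : (E0.card : ℝ) * θ ≤ (2 * (k3 * θ / 1000) * n) * θ := by
        refine hE0c.trans_eq ?_
        rw [hκθ]
        ring
      have h6 := le_of_mul_le_mul_right h5 hθ0
      have h7 : k3 * θ ≤ k3 * 1 := mul_le_mul_of_nonneg_left (by linarith) hk0.le
      have h8 : 2 * (k3 * θ / 1000) * n ≤ k3 * n :=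
        mul_le_mul_of_nonneg_right (by linarith) hn0.le
      linarith
    linarith
  have hopp : ∀ v, (1 / 2 - κ) * n ≤ (oppS A v).card ∧ ((oppS A v).card : ℝ) ≤ (1 / 2 + κ) * n := by
    intro v
    unfold oppS
    by_cases h : v ∈ A
    · rw [if_pos h]
      exact ⟨hlo', by linarith⟩
    · rw [if_neg h]
      exact ⟨hlo, by linarith⟩
  have hDn : ∀ v, n ≤ 2 * (dg G v univ : ℝ) := fun v => by
    rw [hne]
    exact_mod_cast hD v
  have hsd : ∀ v (X : Finset V), (dg G v X : ℝ) ≤ dg G v (X \ Exc) + Exc.card := fun v X => by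
    exact_mod_cast dg_sdiff G v X Exc
  have hsum : ∀ v, (dg G v univ : ℝ) = dg G v (sameS A v) + dg G v (oppS A v) := fun v => by
    exact_mod_cast dg_same_opp G v A
  have hT1 : θ * n ≤ ⌈θ * n⌉₊ := Nat.le_ceil _
  have hT2 : (⌈θ * n⌉₊ : ℝ) ≤ θ * n + 1 := (Nat.ceil_lt_add_one (by positivity)).le
  have ht1 : ξ * n ≤ ⌈ξ * n⌉₊ := Nat.le_ceil _
  have ht2 : (⌈ξ * n⌉₊ : ℝ) ≤ ξ * n + 1 := (Nat.ceil_lt_add_one (by positivity)).le
  -- products with n
  have pk : k3 * n = ξ * n / 100 := by rw [hkξ]; ring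
  have pκ : κ * n ≤ k3 * n / 1000 := by
    have := mul_le_mul_of_nonneg_right hκk hn0.le
    linarith
  have pξ : ξ * n ≤ θ * n / 4000 := by
    have := mul_le_mul_of_nonneg_right hξθ hn0.le
    linarith
  have pθ : θ * n = e * n / 200 := by rw [hθe']; ring
  have pε : e * n ≤ ε * n := mul_le_mul_of_nonneg_right hε hn0.le
  have pκ0 : 0 < κ * n := by positivity
  have pk0 : 0 < k3 * n := by positivity
  have pξ0 : 0 < ξ * n := by positivity
  have pθ0 : 0 < θ * n := by positivity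
  have pen : e * n ≤ n / 20 := by
    have := mul_le_mul_of_nonneg_right he1 hn0.le
    linarith
  have hεκ : 0 ≤ ε * (κ * n) := by
    have : 0 ≤ ε := he0.le.trans hε
    positivity
  have hR2 : 2 * (R : ℝ) ≤ n / 2 - ε * n / 2 + κ * n + 2 := by
    have h1 : (1 - ε) * r ≤ (1 - ε) * ((1 / 2 + κ) * n) :=
      mul_le_mul_of_nonneg_left hr (by linarith)
    have h2 : (1 - ε) * ((1 / 2 + κ) * n) = n / 2 - ε * n / 2 + κ * n - ε * (κ * n) := by ring
    linarith
  have hfar : ∀ v, v ∉ E0 → (1 / 2 - κ - θ - 3 * k3) * n ≤ (dg G v (oppS A v \ Exc) : ℝ) := by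
    intro v hv
    have h1 : ¬ ((dg G v (oppS A v) : ℝ) + θ * n ≤ (oppS A v).card) := by
      intro h
      exact hv (by rw [hE0]; exact mem_filter.2 ⟨mem_univ _, h⟩)
    push Not at h1
    have h2 := (hopp v).1
    have h3 := hsd v (oppS A v)
    have h4 : (1 / 2 - κ - θ - 3 * k3) * n = (1 / 2 - κ) * n - θ * n - 3 * k3 * n := by ring
    rw [h4]
    linarith
  have hE0Exc : E0 ⊆ Exc := by
    rw [hExc]
    exact subset_union_left.trans subset_union_left
  refine ⟨Exc, E0, HA, HB, ⌈ξ * n⌉₊, ⌈θ * n⌉₊, ⌊k3 * n⌋₊, ?_⟩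
  refine ⟨by rw [← hne]; exact ht1, by rw [← hne]; exact ht2, by rw [← hne]; exact hT1,
    by rw [← hne]; exact hT2, by rw [← hne]; exact (Nat.lt_floor_add_one _).le,
    by rw [← hne]; exact hc3, hExc, by rw [← hne]; exact hExcC, by rw [← hne]; exact hE0c,
    hHA1.trans (filter_subset _ _), hHB1.trans (filter_subset _ _),
    fun v hv => (mem_filter.1 (hHA1 hv)).2, fun v hv => (mem_filter.1 (hHB1 hv)).2,
    ?_, ?_, ?_, ?_, ?_, ?_, ?_, ?_⟩
  · rcases hHA3 with h | h
    · exact Or.inl fun v h1 h2 => by rw [h]; exact mem_filter.2 ⟨h1, h2⟩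
    · exact Or.inr h
  · rcases hHB3 with h | h
    · exact Or.inl fun v h1 h2 => by rw [h]; exact mem_filter.2 ⟨h1, h2⟩
    · exact Or.inr h
  · intro v hv
    rw [← hne]
    have h3 := hsd v (sameS A v)
    unfold ownL
    rw [hExc, mem_union, mem_union] at hv
    rcases hv with (hv | hv) | hv
    · rw [hE0, mem_filter] at hv
      have h1 := hDn v
      have h2 := hsum v
      have h4 := (hopp v).2
      have h5 := hv.2
      have h6 : (1 / 2 + κ) * n = n / 2 + κ * n := by ring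
      linarith
    · have h1 := mem_filter.1 (hHA1 hv)
      have h2 : sameS A v = A := by unfold sameS; rw [if_pos h1.1]
      rw [h2] at h3 ⊢
      have h4 : (⌈θ * n⌉₊ : ℝ) ≤ dg G v A := by exact_mod_cast h1.2
      linarith
    · have h1 := mem_filter.1 (hHB1 hv)
      have h2 : sameS A v = univ \ A := by
        unfold sameS
        rw [if_neg (mem_sdiff.1 h1.1).2]
      rw [h2] at h3 ⊢
      have h4 : (⌈θ * n⌉₊ : ℝ) ≤ dg G v (univ \ A) := by exact_mod_cast h1.2
      linarith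
  · intro v hv
    rw [← hne]
    have h1 := hcross v
    have h2 := hsd v (oppS A v)
    unfold crL
    linarith
  · intro v hv
    have h1 := hDn v
    have h2 := hsum v
    have h3 : (dg G v univ : ℝ) ≤ ownL G A Exc v + crL G A Exc v + Exc.card := by
      unfold ownL crL
      have h4 := hsd v univ
      have h5 : (dg G v (univ \ Exc) : ℝ) =
          dg G v (sameS A v \ Exc) + dg G v (oppS A v \ Exc) := by
        have h6 : dg G v (univ \ Exc) = dg G v (sameS A v \ Exc) + dg G v (oppS A v \ Exc) := by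
          unfold dg sameS oppS
          rw [← card_union_of_disjoint]
          · congr 1
            ext u
            by_cases h : v ∈ A
            · rw [if_pos h, if_pos h]
              simp only [mem_filter, mem_sdiff, mem_univ, true_and, mem_union]
              tauto
            · rw [if_neg h, if_neg h]
              simp only [mem_filter, mem_sdiff, mem_univ, true_and, mem_union]
              tauto
          · rw [disjoint_left]
            intro u hu hu'
            by_cases h : v ∈ A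
            · rw [if_pos h] at hu hu'
              simp only [mem_filter, mem_sdiff, mem_univ, true_and] at hu hu'
              tauto
            · rw [if_neg h] at hu hu'
              simp only [mem_filter, mem_sdiff, mem_univ, true_and] at hu hu'
              tauto
        exact_mod_cast h6
      linarith
    have h7 : ((2 * R + 2 * ⌈ξ * n⌉₊ + 2 : ℕ) : ℝ) ≤
        ((ownL G A Exc v + crL G A Exc v : ℕ) : ℝ) := by
      push_cast
      linarith
    exact_mod_cast h7
  · intro v hv hv0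
    have h1 := hfar v hv0
    have h4 : (1 / 2 - κ - θ - 3 * k3) * n = n / 2 - κ * n - θ * n - 3 * (k3 * n) := by ring
    rw [h4] at h1
    have h7 : ((2 * R + ⌈ξ * n⌉₊ : ℕ) : ℝ) ≤ ((crL G A Exc v : ℕ) : ℝ) := by
      unfold crL
      push_cast
      linarith
    exact_mod_cast h7
  · intro v hv
    rw [mem_sdiff] at hv
    have h1 := hfar v fun h => hv.2 (hE0Exc h)
    unfold oppS at h1
    rw [if_pos hv.1] at h1
    rw [← hne]
    exact h1
  · intro v hv
    rw [mem_sdiff, mem_sdiff] at hv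
    have h1 := hfar v fun h => hv.2 (hE0Exc h)
    unfold oppS at h1
    rw [if_neg hv.1.2] at h1
    rw [← hne]
    exact h1

theorem CF.symm {V : Type} [Fintype V] {G : SimpleGraph V} {A Exc Exc0 HA HB : Finset V}
    {R t T0 c3 : ℕ} {κ θ ξ k3 : ℝ} (h : CF G A Exc Exc0 HA HB R t T0 c3 κ θ ξ k3) :
    CF G (univ \ A) Exc Exc0 HB HA R t T0 c3 κ θ ξ k3 := by
  have e1 : ∀ v, ownL G (univ \ A) Exc v = ownL G A Exc v := fun v => by
    unfold ownL
    rw [sameS_compl]
  have e2 : ∀ v, crL G (univ \ A) Exc v = crL G A Exc v := fun v => by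
    unfold crL
    rw [oppS_compl]
  exact { t1 := h.t1, t2 := h.t2, T1 := h.T1, T2 := h.T2, c1 := h.c1, c2 := h.c2
          exc := by rw [h.exc, union_assoc, union_comm HA HB, ← union_assoc]
          excC := h.excC, exc0C := h.exc0C, HAs := h.HBs
          HBs := by rw [sdsd]; exact h.HAs
          HAd := h.HBd
          HBd := by rw [sdsd]; exact h.HAd
          HAc := h.HBc
          HBc := by rw [sdsd]; exact h.HAc
          own := fun v hv => by rw [e1]; exact h.own v hv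
          cr := fun v hv => by rw [e2]; exact h.cr v hv
          sum := fun v hv => by rw [e1, e2]; exact h.sum v hv
          far := fun v hv hv0 => by rw [e2]; exact h.far v hv hv0
          lightA := by rw [sdsd]; exact h.lightB
          lightB := by rw [sdsd]; exact h.lightA }

end Pool.Agent.HCD
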