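import Pool.Agent.Lib.HCD.C2
import Pool.Agent.Lib.HCD.C5a

/-!
# C5b: case C: the master inequality for one side (sparse or dense)

PROOF.  n = card V large, R ≥ n/16 from (1-ε) r ≤ 2R.  ρ = 2R/r: 0 ≤ ρ ≤ 1 - ε/2 (2R ≤ (1-ε) r + 2 ≤ (1-ε/2) r, r ≥ n/4).
Sparse (first alternative of HAc): tA = ρ * eo/2 ≤ (1-ε/2) eo/2 and `master`: h1: (1-ρ) own ≥ (ε/2)(θ/2) n ≥ 3 k3 n + ξ n + 1 ≥ ρ |Exc| + t; h2: (1-ρ) cr ≥ (ε/2)(n/20) ≥ 2 * 3 k3 n + ξ n + 1.
Dense (HA.card = c3): tA = 0.  For v ∈ HA: ownL G A Exc v ≥ T0 - |Exc| ≥ θ n/2 + ..., min (2R) (ownL - t) ≥ θ n/4; so ∑_{Exc∩A} ≥ c3 θ n/4 ≥ (k3 n - 1) θ n/4 ≥ k3 θ n^2/8.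
R(|A| - |univ\A|) ≤ R * 2κ n ≤ κ n^2 (lo': |A| ≤ (1/2+κ) n; lo; 2R ≤ n).  2R + t - crL = 0 for v ∈ Exc \ Exc0 (far); for v ∈ Exc0 it is ≤ 2R ≤ n/2.. (crL ≥ n/20 ≥ t):
∑_{Exc\A} ≤ |Exc0| n ≤ (2κ/θ) n^2.  k3 θ/8 ≥ κ + 2κ/θ since κ = k3 θ^2/1000.
-/

set_option autoImplicit false

noncomputable section

open scoped Classical
open Finset

namespace Pool.Agent.HCD

theorem c_MA (ε e θ ξ k3 κ : ℝ) (hc : CConst ε e θ ξ k3 κ) : ∃ n0 : ℕ, ∀ (V : Type)
    [Fintype V] (G : SimpleGraph V) (x : V → V → ℝ) (r : ℝ) (A Exc Exc0 HA HB : Finset V)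
    (R t T0 c3 : ℕ), n0 ≤ Fintype.card V → FF G x r → (Fintype.card V : ℝ) ≤ 4 * r →
    (1 / 2 - κ) * Fintype.card V ≤ A.card → (1 / 2 - κ) * Fintype.card V ≤ (univ \ A).card →
    (2 * R : ℝ) ≤ (1 - ε) * r + 2 → (1 - ε) * r ≤ 2 * R → (2 * R : ℝ) ≤ Fintype.card V →
    CF G A Exc Exc0 HA HB R t T0 c3 κ θ ξ k3 →
    ∃ tA : ℝ, (tA = 0 ∨ ((∀ v ∈ A, T0 ≤ dg G v A → v ∈ HA) ∧
        tA ≤ (1 - ε / 2) * (eo G (A \ Exc) (A \ Exc) : ℝ) / 2)) ∧
      (R : ℝ) * ((A.card : ℝ) - (univ \ A).card) ≤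
        (∑ v ∈ Exc ∩ A, min (2 * R) (ownL G A Exc v - t) : ℕ) -
        (∑ v ∈ Exc \ A, (2 * R + t - crL G A Exc v) : ℕ) + tA := by
  obtain ⟨he0, he1, hε, hε1, hθ, hξ, hk3, hκ⟩ := hc
  have hε0 : 0 < ε := he0.trans_le hε
  have hθ0 : 0 < θ := by rw [hθ]; positivity
  have hξ0 : 0 < ξ := by rw [hξ]; positivity
  have hk30 : 0 < k3 := by rw [hk3]; positivity
  have hκ0 : 0 < κ := by rw [hκ]; positivity
  refine ⟨⌈200 / ξ⌉₊, ?_⟩
  intro V _ G x r A Exc Exc0 HA HB R t T0 c3 hn hFF hr hA hA' hR1 hR2 hR3 hCF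
  have hn' : 200 / ξ ≤ (Fintype.card V : ℝ) := (Nat.le_ceil _).trans (by exact_mod_cast hn)
  have hξN : 200 ≤ ξ * (Fintype.card V : ℝ) := by
    rw [div_le_iff₀ hξ0] at hn'
    linarith
  have hcard : (A.card : ℝ) + (univ \ A).card = (Fintype.card V : ℝ) := by
    have h1 := card_sdiff_add_card_eq_card (subset_univ A)
    rw [card_univ] at h1
    have h2 : ((univ \ A).card : ℝ) + A.card = (Fintype.card V : ℝ) := by exact_mod_cast h1
    linarith
  set N : ℝ := (Fintype.card V : ℝ) with hN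
  have hN0 : 0 < N := by
    by_contra h0
    have : ξ * N ≤ 0 := mul_nonpos_of_nonneg_of_nonpos hξ0.le (not_lt.1 h0)
    linarith
  have hθN : 4000 * (ξ * N) ≤ θ * N := by
    have h1 : 4000 * ξ ≤ θ := by rw [hξ]; nlinarith
    nlinarith
  have hε50 : 50 * (ξ * N) ≤ ε / 2 * (θ / 2 * N) := by
    have h1 : 50 * ξ ≤ ε / 2 * (θ / 2) := by rw [hξ]; nlinarith
    nlinarith
  have heN : 200 * (θ * N) ≤ ε * N := by
    have h1 : 200 * θ ≤ ε := by rw [hθ]; linarith
    nlinarith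
  have hk3N : k3 * N = ξ * N / 100 := by rw [hk3]; ring
  have hr0 : 0 < r := by linarith
  rcases hCF.HAc with hsp | hde
  · -- the sparse side
    have hρ1 : (2 * R : ℝ) ≤ (1 - ε / 2) * r := by nlinarith
    have hρe : (2 * R : ℝ) / r ≤ 1 - ε / 2 := by
      rw [div_le_iff₀ hr0]
      exact hρ1
    have hρ0 : (0 : ℝ) ≤ 2 * R / r := by positivity
    refine ⟨(2 * R : ℝ) / r * (eo G (A \ Exc) (A \ Exc) : ℝ) / 2, Or.inr ⟨hsp, ?_⟩, ?_⟩
    · have h1 : (2 * R : ℝ) / r * (eo G (A \ Exc) (A \ Exc) : ℝ) ≤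
          (1 - ε / 2) * (eo G (A \ Exc) (A \ Exc) : ℝ) :=
        mul_le_mul_of_nonneg_right hρe (by positivity)
      linarith
    · have hE : (2 * R : ℝ) / r * (Exc.card : ℝ) ≤ 3 * k3 * N := by
        calc (2 * R : ℝ) / r * (Exc.card : ℝ) ≤ 1 * (Exc.card : ℝ) :=
              mul_le_mul_of_nonneg_right (by linarith) (by positivity)
          _ ≤ 3 * k3 * N := by
            rw [one_mul]
            exact hCF.excC
      have h3 := master G A Exc x r (2 * R / r) hFF R t hρ0 (by linarith)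
        (by field_simp) (by
          intro v hv
          have h1 := hCF.own v hv
          have h2 : ε / 2 * (θ / 2 * N) ≤ (1 - 2 * R / r) * (ownL G A Exc v : ℝ) :=
            mul_le_mul (by linarith) h1 (by positivity) (by linarith)
          have h4 := hCF.t2
          nlinarith) (by
          intro v hv
          have h1 := hCF.cr v hv
          have h2 : ε / 2 * (N / 20) ≤ (1 - 2 * R / r) * (crL G A Exc v : ℝ) :=
            mul_le_mul (by linarith) h1 (by positivity) (by linarith)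
          have h4 := hCF.t2
          nlinarith)
      push_cast at h3 ⊢
      linarith
  · -- the dense side
    refine ⟨0, Or.inl rfl, ?_⟩
    rw [add_zero]
    have h1 : (R : ℝ) * ((A.card : ℝ) - (univ \ A).card) ≤ κ * N ^ 2 := by
      have h2 : (A.card : ℝ) - (univ \ A).card ≤ 2 * κ * N := by linarith
      calc (R : ℝ) * ((A.card : ℝ) - (univ \ A).card) ≤ R * (2 * κ * N) :=
            mul_le_mul_of_nonneg_left h2 (by positivity)
        _ = 2 * R * (κ * N) := by ring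
        _ ≤ N * (κ * N) := mul_le_mul_of_nonneg_right hR3 (by positivity)
        _ = κ * N ^ 2 := by ring
    have h2 : k3 * θ / 8 * N ^ 2 ≤
        ((∑ v ∈ Exc ∩ A, min (2 * R) (ownL G A Exc v - t) : ℕ) : ℝ) := by
      have hsub : HA ⊆ Exc ∩ A := by
        intro v hv
        rw [mem_inter, hCF.exc]
        exact ⟨mem_union_left _ (mem_union_right _ hv), hCF.HAs hv⟩
      have h3 : ((∑ v ∈ HA, min (2 * R) (ownL G A Exc v - t) : ℕ) : ℝ) ≤
          ((∑ v ∈ Exc ∩ A, min (2 * R) (ownL G A Exc v - t) : ℕ) : ℝ) := by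
        exact_mod_cast sum_le_sum_of_subset hsub
      refine le_trans ?_ h3
      have h4 : ∀ v ∈ HA, θ / 4 * N ≤ ((min (2 * R) (ownL G A Exc v - t) : ℕ) : ℝ) := by
        intro v hv
        have hvE : v ∈ Exc := (mem_inter.1 (hsub hv)).1
        rw [Nat.cast_min]
        apply le_min
        · push_cast
          nlinarith
        · have h5 := hCF.own v hvE
          have h6 := hCF.t2
          have h7 : (ownL G A Exc v : ℝ) - t ≤ ((ownL G A Exc v - t : ℕ) : ℝ) := by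
            rw [sub_le_iff_le_add]
            have h8 : ownL G A Exc v ≤ ownL G A Exc v - t + t := by omega
            exact_mod_cast h8
          nlinarith
      rw [Nat.cast_sum]
      have h5 : (HA.card : ℝ) * (θ / 4 * N) ≤
          ∑ v ∈ HA, ((min (2 * R) (ownL G A Exc v - t) : ℕ) : ℝ) := by
        have := card_nsmul_le_sum HA (fun v => ((min (2 * R) (ownL G A Exc v - t) : ℕ) : ℝ))
          (θ / 4 * N) h4
        rwa [nsmul_eq_mul] at this
      refine le_trans ?_ h5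
      rw [hde]
      have h6 := hCF.c1
      have h7 : k3 * N / 2 ≤ (c3 : ℝ) := by linarith
      calc k3 * θ / 8 * N ^ 2 = k3 * N / 2 * (θ / 4 * N) := by ring
        _ ≤ c3 * (θ / 4 * N) := mul_le_mul_of_nonneg_right h7 (by positivity)
    have h3 : ((∑ v ∈ Exc \ A, (2 * R + t - crL G A Exc v) : ℕ) : ℝ) ≤ 2 * κ / θ * N ^ 2 := by
      have h4 : ∑ v ∈ Exc \ A, (2 * R + t - crL G A Exc v) ≤
          ∑ v ∈ Exc0, (2 * R + t - crL G A Exc v) := by
        have h5 : ∑ v ∈ Exc \ A, (2 * R + t - crL G A Exc v) =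
            ∑ v ∈ (Exc \ A) ∩ Exc0, (2 * R + t - crL G A Exc v) := by
          rw [← sum_filter_add_sum_filter_not (Exc \ A) (fun v => v ∈ Exc0)]
          have h6 : ∑ v ∈ (Exc \ A).filter (fun v => ¬ v ∈ Exc0),
              (2 * R + t - crL G A Exc v) = 0 := by
            refine sum_eq_zero fun v hv => ?_
            obtain ⟨h7, h8⟩ := mem_filter.1 hv
            exact Nat.sub_eq_zero_of_le (hCF.far v (mem_sdiff.1 h7).1 h8)
          rw [h6, add_zero, filter_mem_eq_inter]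
        rw [h5]
        exact sum_le_sum_of_subset inter_subset_right
      have h5 : ∀ v ∈ Exc0, ((2 * R + t - crL G A Exc v : ℕ) : ℝ) ≤ N := by
        intro v hv
        have hvE : v ∈ Exc := by
          rw [hCF.exc]
          exact mem_union_left _ (mem_union_left _ hv)
        have h6 := hCF.cr v hvE
        have h7 := hCF.t2
        have h8 : (t : ℝ) ≤ (crL G A Exc v : ℝ) := by nlinarith
        have h9 : t ≤ crL G A Exc v := by exact_mod_cast h8
        have h10 : 2 * R + t - crL G A Exc v ≤ 2 * R := by omega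
        have h11 : ((2 * R + t - crL G A Exc v : ℕ) : ℝ) ≤ ((2 * R : ℕ) : ℝ) := by
          exact_mod_cast h10
        push_cast at h11
        linarith
      have h6 : ((∑ v ∈ Exc0, (2 * R + t - crL G A Exc v) : ℕ) : ℝ) ≤ (Exc0.card : ℝ) * N := by
        rw [Nat.cast_sum]
        have := sum_le_card_nsmul Exc0 (fun v => ((2 * R + t - crL G A Exc v : ℕ) : ℝ)) N h5
        rwa [nsmul_eq_mul] at this
      have h7 : (Exc0.card : ℝ) ≤ 2 * κ * N / θ := by
        rw [le_div_iff₀ hθ0]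
        exact hCF.exc0C
      calc ((∑ v ∈ Exc \ A, (2 * R + t - crL G A Exc v) : ℕ) : ℝ) ≤
            ((∑ v ∈ Exc0, (2 * R + t - crL G A Exc v) : ℕ) : ℝ) := by exact_mod_cast h4
        _ ≤ (Exc0.card : ℝ) * N := h6
        _ ≤ 2 * κ * N / θ * N := mul_le_mul_of_nonneg_right h7 hN0.le
        _ = 2 * κ / θ * N ^ 2 := by ring
    have h4 : κ + 2 * κ / θ ≤ k3 * θ / 8 := by
      have h5 : 2 * κ / θ = k3 * θ / 500 := by
        rw [hκ]
        field_simp
        ring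
      have h6 : κ ≤ k3 * θ / 1000 := by
        rw [hκ]
        have h7 : θ ≤ 1 := by rw [hθ]; linarith
        nlinarith [mul_pos hk30 hθ0]
      rw [h5]
      nlinarith [mul_pos hk30 hθ0]
    have h5 : (κ + 2 * κ / θ) * N ^ 2 ≤ k3 * θ / 8 * N ^ 2 :=
      mul_le_mul_of_nonneg_right h4 (by positivity)
    nlinarith

end Pool.Agent.HCD

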