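import Pool.Agent.Lib.HCD.C3
import Pool.Agent.Lib.HCD.C5b

/-!
# C5c: case C, the choice of all numbers (section 6.3)

PROOF.  e = min ε η0 etc. (`CConst`), κ as there.  `c_facts` gives CF; `c_MA` for A and (CF.symm; ownL, crL unchanged under A ↔ univ \ A; Exc ∩ (univ\A) = Exc \ A; Exc \ (univ\A) = Exc ∩ A) for univ \ A: tA, tB.
y0 v = 2R + t - crL v, y1 v = min (2R) (ownL v - t): y0 ≤ y1 (crL ≥ t, ownL ≥ t, sum).  `c_choose`: A1, t1, y, τ.  `c_round` with s = |A1| - |univ\A1|: a, b.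
(1) ∑_i a i w + t = y w + t ≤ ownL.  (2) ∑_i (2 - a i w) = 2R - y w ≤ crL - t.
(3) τ/R is small: τ = R s - ∑_{Exc∩A1} y + ∑_{Exc\A1} y0 ≤ R * 2κ n + |Exc0| * 2R (y0 = 0 off Exc0, ≤ 2R), so τ ≤ R (2κ n + 4κ n/θ) ≤ R ξ n/1000.  b i ≤ (τ + R - 1)/R ≤ ξ n/1000 + 1.
(4) if τ = 0 then all b i = 0.  If τ > 0: t1 ≥ τ > 0, so side A1 is sparse: every v ∈ A1 with T0 ≤ dg G v A1 is a hub, hence in Exc: light v: dg G v (A1\Exc) ≤ T0 =: dm; and 2τ ≤ (1-ε/2) eL, eL = eo (A1\Exc) (A1\Exc).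
 hb for b i > 0: b i - 1 ≤ τ/R (natural division bound: b i ≤ (τ+R-1)/R), so 2(2 dm (b i - 1) + τ) ≤ 4 T0 τ/R + 2τ; 4 T0/R ≤ 4(θ n + 1) * 16/n ≤ 70 θ ≤ ε/2 (θ ≤ ε/200), so ≤ (ε/2) τ + 2 τ ≤ eL < eL + 2 b i
 (2τ ≤ (1-ε/2) eL and (ε/2) τ ≤ (ε/2) eL).
(5) ht: 2|Exc| + 2 b i ≤ 6 k3 n + ξ n/500 + 2 ≤ ξ n ≤ t.  (6) M = (1/2+κ) n: |A| ≤ M by lo' etc.; light degrees ≥ (1/2-κ-θ-3k3) n ≥ (1-η0) M; 2R ≤ (1-ε) r + 2 ≤ (1-ε/8) M; sizes ≤ η0 M.
-/

set_option autoImplicit false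

noncomputable section

open scoped Classical
open Finset

namespace Pool.Agent.HCD

private theorem c5_cc {V : Type} [Fintype V] (A : Finset V) : univ \ (univ \ A) = A :=
  Finset.sdiff_sdiff_eq_self (subset_univ A)

private theorem c5_own {V : Type} [Fintype V] (G : SimpleGraph V) (A Exc : Finset V) (v : V) :
    ownL G (univ \ A) Exc v = ownL G A Exc v := by
  unfold ownL sameS
  by_cases h : v ∈ A
  · rw [if_neg (by simp [h]), if_pos h, c5_cc]
  · rw [if_pos (by simp [h]), if_neg h]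

private theorem c5_cr {V : Type} [Fintype V] (G : SimpleGraph V) (A Exc : Finset V) (v : V) :
    crL G (univ \ A) Exc v = crL G A Exc v := by
  unfold crL oppS
  by_cases h : v ∈ A
  · rw [if_neg (by simp [h]), if_pos h]
  · rw [if_pos (by simp [h]), if_neg h, c5_cc]

private theorem c5_inter {V : Type} [Fintype V] (A Exc : Finset V) :
    Exc ∩ (univ \ A) = Exc \ A := by
  ext v
  simp

private theorem c5_sdiff {V : Type} [Fintype V] (A Exc : Finset V) :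
    Exc \ (univ \ A) = Exc ∩ A := by
  ext v
  simp

private theorem c5_mono {V : Type} [Fintype V] (G : SimpleGraph V) (v : V) {X Y : Finset V}
    (h : X ⊆ Y) : dg G v X ≤ dg G v Y :=
  card_le_card (filter_subset_filter _ h)

theorem c_setup (ε η0 : ℝ) (hε : 0 < ε) (hε1 : ε ≤ 1 / 4) (hη : 0 < η0) (hη1 : η0 ≤ 1 / 20) :
    ∃ κ : ℝ, 0 < κ ∧ ∃ n0 : ℕ, ∀ (V : Type) [Fintype V] (G : SimpleGraph V) (x : V → V → ℝ)
      (r : ℝ) (R : ℕ) (A : Finset V), n0 ≤ Fintype.card V → Dirac G → FF G x r →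
      (Fintype.card V : ℝ) ≤ 4 * r → CPt G A κ → r ≤ (1 / 2 + κ) * Fintype.card V →
      (2 * R : ℝ) ≤ (1 - ε) * r + 2 → (1 - ε) * r ≤ 2 * R →
      ∃ (A1 Exc : Finset V) (t dm : ℕ) (M : ℝ) (a : Fin R → V → ℕ) (b : Fin R → ℕ),
        (∀ i w, a i w ≤ 2) ∧
        (∀ w ∈ Exc, (∀ i, a i w = 0) ∨ ∑ i, a i w + t ≤ ownL G A1 Exc w) ∧
        (∀ w ∈ Exc, ∑ i, (2 - a i w) + t ≤ crL G A1 Exc w) ∧
        ((∀ i, b i = 0) ∨ ∀ v ∈ A1 \ Exc, dg G v (A1 \ Exc) ≤ dm) ∧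
        (∀ i, b i = 0 ∨
          2 * (2 * dm * (b i - 1) + ∑ j, b j) < eo G (A1 \ Exc) (A1 \ Exc) + 2 * b i) ∧
        (∀ i, 2 * Exc.card + 2 * b i ≤ t) ∧
        (∀ i, (∑ v ∈ Exc ∩ A1, (a i v : ℤ)) - ∑ v ∈ Exc \ A1, (a i v : ℤ) + b i =
          (A1.card : ℤ) - (univ \ A1).card) ∧
        ((A1 \ Exc).card : ℝ) ≤ M ∧ (((univ \ A1) \ Exc).card : ℝ) ≤ M ∧
        (∀ v ∈ A1 \ Exc, (1 - η0) * M ≤ dg G v ((univ \ A1) \ Exc)) ∧
        (∀ v ∈ (univ \ A1) \ Exc, (1 - η0) * M ≤ dg G v (A1 \ Exc)) ∧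
        (2 * R : ℝ) ≤ (1 - ε / 8) * M ∧ (Fintype.card V : ℝ) / 3 ≤ M ∧
        (∀ i, (2 * Exc.card + 2 * b i : ℝ) ≤ η0 * M) ∧ (Exc.card + dm : ℝ) ≤ η0 * M := by
  obtain ⟨e, he⟩ : ∃ e : ℝ, e = min ε η0 := ⟨_, rfl⟩
  have he0 : 0 < e := by
    rw [he]
    exact lt_min hε hη
  have heε : e ≤ ε := by
    rw [he]
    exact min_le_left _ _
  have heη : e ≤ η0 := by
    rw [he]
    exact min_le_right _ _
  have he1 : e ≤ 1 / 20 := heη.trans hη1
  obtain ⟨θ, hθ⟩ : ∃ θ : ℝ, θ = e / 200 := ⟨_, rfl⟩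
  obtain ⟨ξ, hξ⟩ : ∃ ξ : ℝ, ξ = e * θ / 200 := ⟨_, rfl⟩
  obtain ⟨k3, hk3⟩ : ∃ k3 : ℝ, k3 = ξ / 100 := ⟨_, rfl⟩
  obtain ⟨κ, hκ⟩ : ∃ κ : ℝ, κ = k3 * θ ^ 2 / 1000 := ⟨_, rfl⟩
  have hc : CConst ε e θ ξ k3 κ := ⟨he0, he1, heε, hε1, hθ, hξ, hk3, hκ⟩
  obtain ⟨n1, hn1⟩ := c_facts ε e θ ξ k3 κ hc
  obtain ⟨n2, hn2⟩ := c_MA ε e θ ξ k3 κ hc
  have hθ0 : 0 < θ := by rw [hθ]; positivity
  have hξ0 : 0 < ξ := by rw [hξ]; positivity
  have hk0 : 0 < k3 := by rw [hk3]; positivity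
  have hκ0 : 0 < κ := by rw [hκ]; positivity
  have hθ1 : θ ≤ 1 / 4000 := by rw [hθ]; linarith
  have hξ1 : ξ ≤ θ / 4000 := by
    rw [hξ]
    nlinarith
  -- the auxiliary constant
  obtain ⟨q, hq⟩ : ∃ q : ℝ, q = k3 * θ / 1000 := ⟨_, rfl⟩
  have hq0 : 0 < q := by rw [hq]; positivity
  have hκq : κ = q * θ := by rw [hκ, hq]; ring
  have hq1 : q ≤ k3 / 4000000 := by
    rw [hq]
    nlinarith
  have hκ1 : κ ≤ q / 4000 := by
    rw [hκq]
    nlinarith
  refine ⟨κ, hκ0, max (max n1 n2) ⌈10 / k3⌉₊, ?_⟩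
  intro V _ G x r R A hn hD hF h4 hC hr hR1 hR2
  have hn1' : n1 ≤ Fintype.card V := ((le_max_left _ _).trans (le_max_left _ _)).trans hn
  have hn2' : n2 ≤ Fintype.card V := ((le_max_right _ _).trans (le_max_left _ _)).trans hn
  have hn3' : (⌈10 / k3⌉₊ : ℝ) ≤ (Fintype.card V : ℝ) := by
    exact_mod_cast (le_max_right _ _).trans hn
  obtain ⟨Exc, Exc0, HA, HB, t, T0, c3, hCF⟩ :=
    hn1 V G x r R A hn1' hD hF h4 hC hr hR1
  set n : ℝ := (Fintype.card V : ℝ) with hndef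
  have hkn : 10 ≤ k3 * n := by
    have h1 : 10 / k3 ≤ n := (Nat.le_ceil _).trans hn3'
    rw [div_le_iff₀ hk0] at h1
    linarith
  have hn0 : 0 < n := by
    by_contra h
    push Not at h
    have : k3 * n ≤ 0 := mul_nonpos_of_nonneg_of_nonpos hk0.le h
    linarith
  -- products with `n`
  have p1 : ξ * n = 100 * (k3 * n) := by rw [hk3]; ring
  have p2 : ξ * n ≤ θ * n / 4000 := by
    have := mul_le_mul_of_nonneg_right hξ1 hn0.le
    linarith
  have p3 : θ * n = e * n / 200 := by rw [hθ]; ring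
  have p4 : q * n ≤ k3 * n / 4000000 := by
    have := mul_le_mul_of_nonneg_right hq1 hn0.le
    linarith
  have p5 : κ * n ≤ q * n / 4000 := by
    have := mul_le_mul_of_nonneg_right hκ1 hn0.le
    linarith
  have p6 : e * n ≤ ε * n := mul_le_mul_of_nonneg_right heε hn0.le
  have p7 : e * n ≤ η0 * n := mul_le_mul_of_nonneg_right heη hn0.le
  have p8 : ε * n ≤ n / 4 := by
    have := mul_le_mul_of_nonneg_right hε1 hn0.le
    linarith
  have p9 : 0 < κ * n := by positivity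
  have p10 : 0 < q * n := by positivity
  have p11 : η0 * n ≤ n / 20 := by
    have := mul_le_mul_of_nonneg_right hη1 hn0.le
    linarith
  have hR2n : (2 * R : ℝ) ≤ n := by
    have h1 : (1 - ε) * r ≤ r := by nlinarith
    have h2 : (1 / 2 + κ) * n = n / 2 + κ * n := by ring
    linarith
  obtain ⟨tA, htA, hMA⟩ := hn2 V G x r A Exc Exc0 HA HB R t T0 c3 hn2' hF h4 hC.lo hC.lo' hR1 hR2
    hR2n hCF
  obtain ⟨tB, htB, hMB⟩ := hn2 V G x r (univ \ A) Exc Exc0 HB HA R t T0 c3 hn2' hF h4 hC.lo'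
    (by rw [c5_cc]; exact hC.lo) hR1 hR2 hR2n hCF.symm
  rw [c5_inter, c5_cc, c5_sdiff] at hMB
  simp only [c5_own, c5_cr] at hMB
  have htown : ∀ v ∈ Exc, t ≤ ownL G A Exc v := by
    intro v hv
    have h1 := hCF.own v hv
    have h2 := hCF.t2
    have h3 : (t : ℝ) ≤ (ownL G A Exc v : ℝ) := by
      rw [← hndef] at h1 h2
      linarith
    exact_mod_cast h3
  have htcr : ∀ v ∈ Exc, t ≤ crL G A Exc v := by
    intro v hv
    have h1 := hCF.cr v hv
    have h2 := hCF.t2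
    have h3 : (t : ℝ) ≤ (crL G A Exc v : ℝ) := by
      rw [← hndef] at h1 h2
      linarith
    exact_mod_cast h3
  obtain ⟨A1, t1, y, τ, hA1, hy01, hτ1, hy0, hsum⟩ := c_choose A Exc R
    (fun v => 2 * R + t - crL G A Exc v) (fun v => min (2 * R) (ownL G A Exc v - t)) (by
      intro v hv
      have h1 := htown v hv
      have h2 := htcr v hv
      have h3 := hCF.sum v hv
      apply le_min
      · omega
      · omega) tA tB hMA hMB
  -- the facts for `A1`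
  obtain ⟨H1, H2, hCF1, ht1, hlo1, hlo2, hown1, hcr1⟩ : ∃ H1 H2 : Finset V,
      CF G A1 Exc Exc0 H1 H2 R t T0 c3 κ θ ξ k3 ∧
      (t1 = 0 ∨ ((∀ v ∈ A1, T0 ≤ dg G v A1 → v ∈ H1) ∧
        t1 ≤ (1 - ε / 2) * (eo G (A1 \ Exc) (A1 \ Exc) : ℝ) / 2)) ∧
      (1 / 2 - κ) * n ≤ A1.card ∧ (1 / 2 - κ) * n ≤ (univ \ A1).card ∧
      (∀ v, ownL G A1 Exc v = ownL G A Exc v) ∧ (∀ v, crL G A1 Exc v = crL G A Exc v) := by
    rcases hA1 with ⟨rfl, rfl⟩ | ⟨rfl, rfl⟩
    · exact ⟨HA, HB, hCF, htA, hC.lo, hC.lo', fun _ => rfl, fun _ => rfl⟩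
    · exact ⟨HB, HA, hCF.symm, htB, hC.lo', by rw [c5_cc]; exact hC.lo,
        fun v => c5_own G A Exc v, fun v => c5_cr G A Exc v⟩
  have hcards : (A1.card : ℝ) + (univ \ A1).card = n := by
    rw [hndef]
    have h1 := card_sdiff_add_card_eq_card (subset_univ A1)
    rw [card_univ] at h1
    rw [← h1]
    push_cast
    ring
  have hRpos : 0 < R := by
    have h1 : (3 / 4 : ℝ) * r ≤ (1 - ε) * r := by
      apply mul_le_mul_of_nonneg_right (by linarith)
      linarith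
    have h2 : (0 : ℝ) < R := by linarith
    exact_mod_cast h2
  have hRn : 3 * n / 32 ≤ (R : ℝ) := by
    have h1 : (3 / 4 : ℝ) * r ≤ (1 - ε) * r := by
      apply mul_le_mul_of_nonneg_right (by linarith)
      linarith
    linarith
  obtain ⟨a, b, ha2, hay, hbτ, hbR, hfin⟩ := c_round A1 Exc R hRpos y
    (fun v hv => ((hy01 v hv).2).trans (min_le_left _ _)) τ
    ((A1.card : ℤ) - (univ \ A1).card) hsum
  -- the bound for `τ`
  have hτb : (τ : ℝ) ≤ R * (2 * (κ * n) + 4 * (q * n)) := by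
    have e1 : (τ : ℝ) ≤ R * ((A1.card : ℝ) - (univ \ A1).card) + (∑ v ∈ Exc \ A1, y v : ℕ) := by
      have h1 : (τ : ℤ) ≤ R * ((A1.card : ℤ) - (univ \ A1).card) +
          ((∑ v ∈ Exc \ A1, y v : ℕ) : ℤ) := by
        have h2 : 0 ≤ ∑ v ∈ Exc ∩ A1, (y v : ℤ) := sum_nonneg fun v _ => Int.natCast_nonneg _
        have h3 : ((∑ v ∈ Exc \ A1, y v : ℕ) : ℤ) = ∑ v ∈ Exc \ A1, (y v : ℤ) := by
          push_cast
          rfl
        rw [h3]
        linarith
      have h4 : ((τ : ℤ) : ℝ) ≤ ((R * ((A1.card : ℤ) - (univ \ A1).card) +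
          ((∑ v ∈ Exc \ A1, y v : ℕ) : ℤ) : ℤ) : ℝ) := by exact_mod_cast h1
      push_cast at h4 ⊢
      exact h4
    have e2 : (∑ v ∈ Exc \ A1, y v) ≤ Exc0.card * (2 * R) := by
      have h1 : ∀ v ∈ Exc \ A1, y v ≤ if v ∈ Exc0 then 2 * R else 0 := by
        intro v hv
        have hvE : v ∈ Exc := (mem_sdiff.1 hv).1
        rw [hy0 v hv]
        have h2 := htcr v hvE
        split_ifs with h3
        · omega
        · have h4 := hCF.far v hvE h3
          omega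
      refine (sum_le_sum h1).trans ?_
      rw [← sum_filter, sum_const, smul_eq_mul]
      apply Nat.mul_le_mul_right
      apply card_le_card
      intro v hv
      exact (mem_filter.1 hv).2
    have e3 : (Exc0.card : ℝ) ≤ 2 * (q * n) := by
      have h1 := hCF.exc0C
      rw [← hndef, hκq] at h1
      have h2 : (Exc0.card : ℝ) * θ ≤ (2 * (q * n)) * θ := by linarith
      exact le_of_mul_le_mul_right h2 hθ0
    have e4 : ((∑ v ∈ Exc \ A1, y v : ℕ) : ℝ) ≤ Exc0.card * (2 * R) := by exact_mod_cast e2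
    have e5 : (A1.card : ℝ) - (univ \ A1).card ≤ 2 * (κ * n) := by
      have h1 : (1 / 2 - κ) * n = n / 2 - κ * n := by ring
      linarith
    have hR0 : (0 : ℝ) ≤ R := Nat.cast_nonneg R
    have e6 : (R : ℝ) * ((A1.card : ℝ) - (univ \ A1).card) ≤ R * (2 * (κ * n)) :=
      mul_le_mul_of_nonneg_left e5 hR0
    have e7 : (Exc0.card : ℝ) * (2 * R) ≤ 2 * (q * n) * (2 * R) :=
      mul_le_mul_of_nonneg_right e3 (by positivity)
    have e8 : R * (2 * (κ * n) + 4 * (q * n)) = R * (2 * (κ * n)) + 2 * (q * n) * (2 * R) := by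
      ring
    linarith
  have hbmul : ∀ i, (b i : ℝ) * R ≤ τ + R - 1 := by
    intro i
    have h1 : b i * R ≤ τ + R - 1 := (Nat.le_div_iff_mul_le hRpos).1 (hbR i)
    have h2 : b i * R + 1 ≤ τ + R := by omega
    have h3 : ((b i * R + 1 : ℕ) : ℝ) ≤ ((τ + R : ℕ) : ℝ) := by exact_mod_cast h2
    push_cast at h3
    linarith
  have hR0 : (0 : ℝ) < R := by exact_mod_cast hRpos
  have hbb : ∀ i, (b i : ℝ) ≤ 6 * (q * n) + 1 := by
    intro i
    have h1 := hbmul i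
    have h2 : (b i : ℝ) * R ≤ (2 * (κ * n) + 4 * (q * n) + 1) * R := by
      have h3 : (2 * (κ * n) + 4 * (q * n) + 1) * R = R * (2 * (κ * n) + 4 * (q * n)) + R := by
        ring
      linarith
    have h4 := le_of_mul_le_mul_right h2 hR0
    linarith
  have hEb : ∀ i, (2 * Exc.card + 2 * b i : ℝ) ≤ ξ * n := by
    intro i
    have h1 := hbb i
    have h2 := hCF.excC
    rw [← hndef] at h2
    linarith
  have hcL : ∀ w, ∑ i, (2 - a i w) + ∑ i, a i w = 2 * R := by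
    intro w
    rw [← sum_add_distrib]
    have h1 : ∀ i : Fin R, 2 - a i w + a i w = 2 := fun i => Nat.sub_add_cancel (ha2 i w)
    rw [sum_congr rfl fun i _ => h1 i, sum_const, card_univ, Fintype.card_fin, smul_eq_mul,
      mul_comm]
  have hM : (1 / 2 + κ) * n = n / 2 + κ * n := by ring
  have hM' : (1 / 2 - κ) * n = n / 2 - κ * n := by ring
  have hηM : η0 * n / 2 ≤ η0 * ((1 / 2 + κ) * n) := by
    rw [hM]
    have : 0 ≤ η0 * (κ * n) := by positivity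
    linarith
  have hlight : (1 - η0) * ((1 / 2 + κ) * n) ≤ (1 / 2 - κ - θ - 3 * k3) * n := by
    have h1 : (1 - η0) * ((1 / 2 + κ) * n) = (1 / 2 + κ) * n - η0 * ((1 / 2 + κ) * n) := by ring
    have h2 : (1 / 2 - κ - θ - 3 * k3) * n = n / 2 - κ * n - θ * n - 3 * (k3 * n) := by ring
    rw [h1, h2]
    linarith
  refine ⟨A1, Exc, t, T0, (1 / 2 + κ) * n, a, b, ha2, ?_, ?_, ?_, ?_, ?_, hfin, ?_, ?_, ?_, ?_,
    ?_, ?_, ?_, ?_⟩
  · intro w hw
    right
    rw [hay w hw, hown1]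
    have h1 := (hy01 w hw).2
    have h2 := htown w hw
    have h3 : y w ≤ ownL G A Exc w - t := h1.trans (min_le_right _ _)
    omega
  · intro w hw
    have h1 := (hy01 w hw).1
    have h2 := hcL w
    rw [hay w hw] at h2
    have h3 := htcr w hw
    have h4 : 2 * R + t - crL G A Exc w ≤ y w := h1
    rw [hcr1]
    omega
  · rcases Nat.eq_zero_or_pos τ with h0 | h0
    · left
      intro i
      have h1 : ∑ i, b i = 0 := hbτ.trans h0
      exact (sum_eq_zero_iff.1 h1) i (mem_univ i)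
    · right
      intro v hv
      have h1 : (τ : ℝ) ≤ t1 := hτ1.resolve_left (by omega)
      have h2 : (0 : ℝ) < τ := by exact_mod_cast h0
      rcases ht1 with h3 | ⟨h3, _⟩
      · linarith
      · by_contra h4
        push Not at h4
        have h5 : T0 ≤ dg G v A1 := h4.le.trans (c5_mono G v sdiff_subset)
        have h6 := h3 v (mem_sdiff.1 hv).1 h5
        apply (mem_sdiff.1 hv).2
        rw [hCF1.exc]
        exact mem_union_left _ (mem_union_right _ h6)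
  · intro i
    rcases Nat.eq_zero_or_pos (b i) with h0 | h0
    · exact Or.inl h0
    · right
      have hτpos : 0 < τ := by
        rw [← hbτ]
        exact lt_of_lt_of_le h0 (single_le_sum (f := b) (fun _ _ => Nat.zero_le _) (mem_univ i))
      have h1 : (τ : ℝ) ≤ t1 := hτ1.resolve_left (by omega)
      have h2 : (0 : ℝ) < τ := by exact_mod_cast hτpos
      rcases ht1 with h3 | ⟨_, h3⟩
      · linarith
      · set eL : ℝ := (eo G (A1 \ Exc) (A1 \ Exc) : ℝ) with heL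
        have heL0 : 0 ≤ eL := Nat.cast_nonneg _
        rw [hbτ]
        have h4 : 2 * (τ : ℝ) ≤ (1 - ε / 2) * eL := by linarith
        have h5 : (τ : ℝ) ≤ eL := by nlinarith
        have h6 : 4 * (T0 : ℝ) ≤ ε / 2 * R := by
          have h7 := hCF.T2
          rw [← hndef] at h7
          have h8 : ε / 2 * (3 * n / 32) ≤ ε / 2 * R :=
            mul_le_mul_of_nonneg_left hRn (by linarith)
          have h9 : ε / 2 * (3 * n / 32) = 3 / 64 * (ε * n) := by ring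
          linarith
        have hb1 : (1 : ℝ) ≤ b i := by exact_mod_cast h0
        have h7 : 4 * (T0 : ℝ) * ((b i : ℝ) - 1) ≤ ε / 2 * R * ((b i : ℝ) - 1) :=
          mul_le_mul_of_nonneg_right h6 (by linarith)
        have h8 : ε / 2 * (R * ((b i : ℝ) - 1)) ≤ ε / 2 * τ := by
          apply mul_le_mul_of_nonneg_left _ (by linarith)
          have := hbmul i
          linarith
        have h9 : ε / 2 * (τ : ℝ) ≤ ε / 2 * eL := mul_le_mul_of_nonneg_left h5 (by linarith)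
        have h10 : (2 * (2 * (T0 : ℝ) * ((b i : ℝ) - 1) + τ)) < eL + 2 * b i := by linarith
        have h11 : ((2 * (2 * T0 * (b i - 1) + τ) : ℕ) : ℝ) <
            ((eo G (A1 \ Exc) (A1 \ Exc) + 2 * b i : ℕ) : ℝ) := by
          rw [Nat.cast_mul, Nat.cast_add, Nat.cast_mul, Nat.cast_mul, Nat.cast_sub h0,
            Nat.cast_add, Nat.cast_mul, ← heL]
          simpa using h10
        exact_mod_cast h11
  · intro i
    have h1 := hEb i
    have h2 := hCF.t1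
    rw [← hndef] at h2
    have h3 : ((2 * Exc.card + 2 * b i : ℕ) : ℝ) ≤ (t : ℝ) := by
      push_cast
      linarith
    exact_mod_cast h3
  · have h1 : ((A1 \ Exc).card : ℝ) ≤ A1.card := by exact_mod_cast card_le_card sdiff_subset
    linarith
  · have h1 : (((univ \ A1) \ Exc).card : ℝ) ≤ (univ \ A1).card := by
      exact_mod_cast card_le_card sdiff_subset
    linarith
  · intro v hv
    exact hlight.trans (hCF1.lightA v hv)
  · intro v hv
    exact hlight.trans (hCF1.lightB v hv)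
  · have h1 : (1 - ε) * r ≤ (1 - ε) * ((1 / 2 + κ) * n) :=
      mul_le_mul_of_nonneg_left hr (by linarith)
    have h2 : 0 ≤ ε * (κ * n) := by positivity
    have h3 : (1 - ε / 8) * ((1 / 2 + κ) * n) - (1 - ε) * ((1 / 2 + κ) * n) =
        7 / 16 * (ε * n) + 7 / 8 * (ε * (κ * n)) := by ring
    linarith
  · rw [hM]
    linarith
  · intro i
    refine (hEb i).trans (le_trans ?_ hηM)
    linarith
  · refine le_trans ?_ hηM
    have h1 := hCF.excC
    have h2 := hCF.T2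
    rw [← hndef] at h1 h2
    linarith

end Pool.Agent.HCD
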