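import Pool.Agent.Lib.HCD.G9
import Pool.Agent.Lib.HCD.G10a

/-!
# G10c: near complete bipartite graphs

PROOF.  `GT_bip` with γ0 = 1/16 for the subtype {v // v ∈ A ∪ B}, the graph (comap of G with only the A-B edges: `bipG G A B`), ty v = (v ∈ A),
y = 1 - 2α on edges, D = (1-2α) M.  card = |A| + |B| ≤ 2M ≤ 10 D; M ≤ |A|/(1-η0), |B|/(1-η0), so D ≤ M ≤ |A| + |B|.
(E): x ∈ A, z ∈ B: q ∈ N(x) ⊂ B, q' ∈ N(z) ⊂ A, q ~ q': at least |A||B| - 3η0 M·.. ≥ M^2/2 pairs, minus those with q = z or q' = x; M ≥ (|A|+|B|)/2.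
HasCyc of bipG gives HasCycOn (bipG G A B) (A ∪ B) virt.
-/

set_option autoImplicit false

noncomputable section

open scoped Classical
open Finset

namespace Pool.Agent.HCD

/-- the edges of `G` between `A` and `B` -/
def bipG {V : Type} (G : SimpleGraph V) (A B : Finset V) : SimpleGraph V where
  Adj u v := G.Adj u v ∧ ((u ∈ A ∧ v ∈ B) ∨ (u ∈ B ∧ v ∈ A))
  symm := ⟨fun u v h => ⟨h.1.symm, by rcases h.2 with h | h <;> tauto⟩⟩
  loopless := ⟨fun u h => G.loopless.irrefl u h.1⟩

private theorem card_nb {V : Type} [Fintype V] (W T : Finset V) (hT : T ⊆ W) (P Q : V → Prop)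
    (h : ∀ u ∈ W, Q u ↔ P u ∧ u ∈ T) :
    (univ.filter (fun u : {v // v ∈ W} => Q u.1)).card = (T.filter P).card := by
  have : (univ.filter (fun u : {v // v ∈ W} => Q u.1)).map (Function.Embedding.subtype _) =
      T.filter P := by
    ext u
    simp only [mem_map, mem_filter, mem_univ, true_and, Function.Embedding.subtype_apply,
      Subtype.exists, exists_and_left, exists_prop, exists_eq_right_right]
    constructor
    · rintro ⟨h1, h2⟩
      have := (h u h2).1 h1
      exact ⟨this.2, this.1⟩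
    · rintro ⟨h1, h2⟩
      exact ⟨(h u (hT h1)).2 ⟨h2, h1⟩, hT h1⟩
  rw [← this, card_map]

private theorem esum_ge {U : Type} [Fintype U] (G : SimpleGraph U) (c : ℝ) (hc : 0 ≤ c) (x z : U)
    (a b : ℝ) (hb : 0 ≤ b)
    (ha : a ≤ ((univ.filter (fun q => G.Adj x q ∧ q ≠ z)).card : ℝ))
    (hb' : ∀ q, G.Adj x q →
      b ≤ ((univ.filter (fun q' => G.Adj z q' ∧ G.Adj q q' ∧ q' ≠ x)).card : ℝ)) :
    c * (a * b) ≤ esum G (fun u v => if G.Adj u v then c else 0) x z := by
  have h1 : c * (a * b) ≤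
      ∑ q ∈ univ.filter (fun q => G.Adj x q ∧ q ≠ z), c * b := by
    rw [sum_const, nsmul_eq_mul]
    have : a * b ≤ ((univ.filter (fun q => G.Adj x q ∧ q ≠ z)).card : ℝ) * b :=
      mul_le_mul_of_nonneg_right ha hb
    nlinarith [mul_le_mul_of_nonneg_left this hc]
  refine h1.trans ?_
  unfold esum
  have h2 : ∀ q ∈ univ.filter (fun q => G.Adj x q ∧ q ≠ z), c * b ≤
      ∑ q', if G.Adj x q ∧ G.Adj z q' ∧ q ≠ z ∧ q' ≠ x then
        (if G.Adj q q' then c else 0) else 0 := by
    intro q hq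
    rw [mem_filter] at hq
    have h3 : c * b ≤ ∑ q', if G.Adj z q' ∧ G.Adj q q' ∧ q' ≠ x then c else 0 := by
      rw [← sum_filter, sum_const, nsmul_eq_mul, mul_comm]
      exact mul_le_mul_of_nonneg_right (hb' q hq.2.1) hc
    refine h3.trans (sum_le_sum ?_)
    intro q' _
    by_cases hh : G.Adj z q' ∧ G.Adj q q' ∧ q' ≠ x
    · rw [if_pos hh, if_pos ⟨hq.2.1, hh.1, hq.2.2, hh.2.2⟩, if_pos hh.2.1]
    · rw [if_neg hh]
      split_ifs <;> first | exact hc | exact le_refl _
  refine (sum_le_sum h2).trans (sum_le_sum_of_subset_of_nonneg (subset_univ _) ?_)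
  intro q _ _
  refine sum_nonneg ?_
  intro q' _
  split_ifs <;> first | exact hc | exact le_refl _

/-- condition (E) when `x` lies in the side `S`, `z` in the side `T` -/
private theorem esum_side {U : Type} [Fintype U] (G : SimpleGraph U) (c M η0 : ℝ) (hc : 3 / 4 ≤ c)
    (hη : η0 ≤ 1 / 20) (hM : 20 ≤ M) (S T : Finset U) (hS : (S.card : ℝ) ≤ M)
    (hN : ∀ v ∈ T, univ.filter (fun u => G.Adj v u) ⊆ S)
    (hN' : ∀ v ∈ S, univ.filter (fun u => G.Adj v u) ⊆ T)
    (hd : ∀ v, (1 - η0) * M ≤ ((univ.filter (fun u => G.Adj v u)).card : ℝ))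
    (x z : U) (hx : x ∈ S) (hz : z ∈ T) :
    M ^ 2 / 4 ≤ esum G (fun u v => if G.Adj u v then c else 0) x z := by
  have hge := esum_ge G c (by linarith) x z (9 / 10 * M) (17 / 20 * M) (by linarith) ?_ ?_
  · nlinarith [mul_nonneg (show 0 ≤ c - 3 / 4 by linarith) (sq_nonneg M), sq_nonneg M]
  · have h1 := hd x
    have h2 : (univ.filter (fun u => G.Adj x u)).card ≤
        (univ.filter (fun q => G.Adj x q ∧ q ≠ z)).card + 1 := by
      have : univ.filter (fun u => G.Adj x u) ⊆
          insert z (univ.filter (fun q => G.Adj x q ∧ q ≠ z)) := by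
        intro u hu
        rw [mem_filter] at hu
        by_cases huz : u = z
        · rw [huz]; exact mem_insert_self _ _
        · exact mem_insert_of_mem (by rw [mem_filter]; exact ⟨mem_univ _, hu.2, huz⟩)
      exact (card_le_card this).trans (card_insert_le _ _)
    have h3 : ((univ.filter (fun u => G.Adj x u)).card : ℝ) ≤
        ((univ.filter (fun q => G.Adj x q ∧ q ≠ z)).card : ℝ) + 1 := by exact_mod_cast h2
    nlinarith
  · intro q hq
    have hqT : q ∈ T := hN' x hx (by rw [mem_filter]; exact ⟨mem_univ _, hq⟩)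
    have h1 := hd q
    have h2 := hd z
    have h3 : (univ.filter (fun u => G.Adj q u)).card + (univ.filter (fun u => G.Adj z u)).card ≤
        S.card + (univ.filter (fun u => G.Adj q u) ∩ univ.filter (fun u => G.Adj z u)).card := by
      rw [← card_union_add_card_inter]
      exact Nat.add_le_add_right (card_le_card (union_subset (hN q hqT) (hN z hz))) _
    have h4 : (univ.filter (fun u => G.Adj q u) ∩ univ.filter (fun u => G.Adj z u)).card ≤
        (univ.filter (fun q' => G.Adj z q' ∧ G.Adj q q' ∧ q' ≠ x)).card + 1 := by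
      have : univ.filter (fun u => G.Adj q u) ∩ univ.filter (fun u => G.Adj z u) ⊆
          insert x (univ.filter (fun q' => G.Adj z q' ∧ G.Adj q q' ∧ q' ≠ x)) := by
        intro u hu
        rw [mem_inter, mem_filter, mem_filter] at hu
        by_cases hux : u = x
        · rw [hux]; exact mem_insert_self _ _
        · exact mem_insert_of_mem
            (by rw [mem_filter]; exact ⟨mem_univ _, hu.2.2, hu.1.2, hux⟩)
      exact (card_le_card this).trans (card_insert_le _ _)
    have h3' : ((univ.filter (fun u => G.Adj q u)).card : ℝ) +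
        ((univ.filter (fun u => G.Adj z u)).card : ℝ) ≤
        (S.card : ℝ) +
          ((univ.filter (fun u => G.Adj q u) ∩ univ.filter (fun u => G.Adj z u)).card : ℝ) := by
      exact_mod_cast h3
    have h4' : ((univ.filter (fun u => G.Adj q u) ∩ univ.filter (fun u => G.Adj z u)).card : ℝ) ≤
        ((univ.filter (fun q' => G.Adj z q' ∧ G.Adj q q' ∧ q' ≠ x)).card : ℝ) + 1 := by
      exact_mod_cast h4
    nlinarith

theorem NC_bip (α : ℝ) (hα : 0 < α) (hα' : α ≤ 1 / 8) :
    ∃ η0 : ℝ, 0 < η0 ∧ η0 ≤ 1 / 20 ∧ ∃ m0 : ℕ, ∀ (V : Type) [Fintype V] (G : SimpleGraph V)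
      (A B : Finset V) (M : ℝ) (N : ℕ) (virt : Fin N → Finset (V × V)), Disjoint A B →
      (m0 : ℝ) ≤ M → (A.card : ℝ) ≤ M → (B.card : ℝ) ≤ M →
      (∀ v ∈ A, (1 - η0) * M ≤ dg G v B) → (∀ v ∈ B, (1 - η0) * M ≤ dg G v A) →
      (2 * N : ℝ) ≤ (1 - 2 * α) * M → A.Nonempty → B.Nonempty →
      (∀ i, IsMat (virt i)) → (∀ i, vs (virt i) ⊆ A ∪ B) →
      (∀ i, ((vs (virt i)).card : ℝ) ≤ η0 * M) →
      (∀ w, ((univ.filter (fun i => w ∈ vs (virt i))).card : ℝ) ≤ η0 * M) →
      (∀ i, (A.card : ℤ) - B.card = ((virt i).filter (fun p => p.1 ∈ A ∧ p.2 ∈ A)).card -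
        ((virt i).filter (fun p => p.1 ∈ B ∧ p.2 ∈ B)).card) →
      HasCycOn (bipG G A B) (A ∪ B) virt := by
  obtain ⟨η, hη, m1, H⟩ := GT_bip α (1 / 16) hα hα' (by norm_num)
  refine ⟨min η (1 / 20), lt_min hη (by norm_num), min_le_right _ _, max m1 20, ?_⟩
  intro V _ G A B M N virt hAB hM hAM hBM hdA hdB hN hAne hBne hmat hvs hvc hvl hbal
  have h0 : min η (1 / 20) ≤ η := min_le_left _ _
  have h1 : min η (1 / 20) ≤ 1 / 20 := min_le_right _ _
  have hpos : 0 < min η (1 / 20) := lt_min hη (by norm_num)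
  generalize min η (1 / 20) = η0 at *
  have hMm : (m1 : ℝ) ≤ M := le_trans (by exact_mod_cast le_max_left m1 20) hM
  have hM20 : (20 : ℝ) ≤ M := le_trans (by exact_mod_cast le_max_right m1 20) hM
  have hB' : (1 - η0) * M ≤ B.card := by
    obtain ⟨v, hv⟩ := hAne
    refine (hdA v hv).trans ?_
    exact_mod_cast card_le_card (filter_subset _ _)
  have hA' : (1 - η0) * M ≤ A.card := by
    obtain ⟨v, hv⟩ := hBne
    refine (hdB v hv).trans ?_
    exact_mod_cast card_le_card (filter_subset _ _)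
  have hc1 : (1 : ℝ) - 2 * α ≤ 1 := by linarith
  have hc2 : (3 : ℝ) / 4 ≤ 1 - 2 * α := by linarith
  apply hasCycOn_of_sub _ _ _ hvs
  have hcard : Fintype.card {v // v ∈ A ∪ B} = A.card + B.card := by
    rw [Fintype.card_coe, card_union_of_disjoint hAB]
  have hcardR : (Fintype.card {v // v ∈ A ∪ B} : ℝ) = (A.card : ℝ) + B.card := by
    rw [hcard]; push_cast; ring
  have hnM : M ≤ (Fintype.card {v // v ∈ A ∪ B} : ℝ) := by rw [hcardR]; nlinarith
  have hadj : ∀ u v : {v // v ∈ A ∪ B},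
      ((bipG G A B).comap (Subtype.val : {v // v ∈ A ∪ B} → V)).Adj u v ↔
        G.Adj u.1 v.1 ∧ ((u.1 ∈ A ∧ v.1 ∈ B) ∨ (u.1 ∈ B ∧ v.1 ∈ A)) := fun u v => Iff.rfl
  have hdj : ∀ v, v ∈ A → v ∉ B := fun v h h' => disjoint_left.1 hAB h h'
  have hdegA : ∀ v : {v // v ∈ A ∪ B}, v.1 ∈ A →
      (univ.filter (fun u : {v // v ∈ A ∪ B} =>
        ((bipG G A B).comap (Subtype.val : {v // v ∈ A ∪ B} → V)).Adj v u)).card = dg G v.1 B := by
    intro v hv
    exact card_nb (A ∪ B) B subset_union_right (fun u => G.Adj v.1 u)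
      (fun u => (bipG G A B).Adj v.1 u) (fun u _ => by
        show G.Adj v.1 u ∧ ((v.1 ∈ A ∧ u ∈ B) ∨ (v.1 ∈ B ∧ u ∈ A)) ↔ _
        have := hdj _ hv
        tauto)
  have hdegB : ∀ v : {v // v ∈ A ∪ B}, v.1 ∈ B →
      (univ.filter (fun u : {v // v ∈ A ∪ B} =>
        ((bipG G A B).comap (Subtype.val : {v // v ∈ A ∪ B} → V)).Adj v u)).card = dg G v.1 A := by
    intro v hv
    exact card_nb (A ∪ B) A subset_union_left (fun u => G.Adj v.1 u)
      (fun u => (bipG G A B).Adj v.1 u) (fun u _ => by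
        show G.Adj v.1 u ∧ ((v.1 ∈ A ∧ u ∈ B) ∨ (v.1 ∈ B ∧ u ∈ A)) ↔ _
        have : v.1 ∉ A := fun h => hdj _ h hv
        tauto)
  have hdeg : ∀ v : {v // v ∈ A ∪ B},
      (1 - η0) * M ≤ ((univ.filter (fun u : {v // v ∈ A ∪ B} =>
        ((bipG G A B).comap (Subtype.val : {v // v ∈ A ∪ B} → V)).Adj v u)).card : ℝ) ∧
      ((univ.filter (fun u : {v // v ∈ A ∪ B} =>
        ((bipG G A B).comap (Subtype.val : {v // v ∈ A ∪ B} → V)).Adj v u)).card : ℝ) ≤ M := by
    intro v
    rcases mem_union.1 v.2 with hv | hv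
    · rw [hdegA v hv]
      refine ⟨hdA _ hv, le_trans ?_ hBM⟩
      exact_mod_cast card_le_card (filter_subset _ _)
    · rw [hdegB v hv]
      refine ⟨hdB _ hv, le_trans ?_ hAM⟩
      exact_mod_cast card_le_card (filter_subset _ _)
  have hSA : (univ.filter (fun u : {v // v ∈ A ∪ B} => u.1 ∈ A)).card = A.card := by
    have h := card_nb (A ∪ B) A subset_union_left (fun _ => True) (fun u => u ∈ A)
      (fun u _ => by tauto)
    have h2 := h.trans (show _ = A.card by simp)
    convert h2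
  have hSB : (univ.filter (fun u : {v // v ∈ A ∪ B} => u.1 ∈ B)).card = B.card := by
    have h := card_nb (A ∪ B) B subset_union_right (fun _ => True) (fun u => u ∈ B)
      (fun u _ => by tauto)
    have h2 := h.trans (show _ = B.card by simp)
    convert h2
  refine H {v // v ∈ A ∪ B} ((bipG G A B).comap (Subtype.val : {v // v ∈ A ∪ B} → V))
    (fun u v => if ((bipG G A B).comap (Subtype.val : {v // v ∈ A ∪ B} → V)).Adj u v
      then 1 - 2 * α else 0)
    (fun v => decide (v.1 ∈ A)) ((1 - 2 * α) * M) N (fun i => liftP (A ∪ B) (virt i))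
    ?_ ?_ ?_ ?_ ?_ ?_ ?_ hN ?_ ?_ ?_ ?_ ?_
  · have : (m1 : ℝ) ≤ (Fintype.card {v // v ∈ A ∪ B} : ℝ) := hMm.trans hnM
    exact_mod_cast this
  · refine ⟨?_, ?_, ?_⟩
    · intro u v
      simp only [SimpleGraph.adj_comm]
    · intro u v
      show (0 : ℝ) ≤ if _ then _ else _
      split_ifs <;> linarith
    · intro u v huv
      exact if_neg huv
  · intro u v huv
    rcases ((hadj u v).1 huv).2 with ⟨a, b⟩ | ⟨a, b⟩
    · have : v.1 ∉ A := fun h => hdj _ h b
      simp [a, this]
    · have : u.1 ∉ A := fun h => hdj _ h a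
      simp [b, this]
  · intro u v
    show (if _ then _ else _ : ℝ) ≤ _
    split_ifs <;> linarith
  · rw [hcardR]; nlinarith
  · refine le_trans ?_ hnM
    nlinarith
  · intro v
    have hs : ∑ u, (if ((bipG G A B).comap (Subtype.val : {v // v ∈ A ∪ B} → V)).Adj v u
      then 1 - 2 * α else (0 : ℝ)) = (1 - 2 * α) *
        ((univ.filter (fun u : {v // v ∈ A ∪ B} =>
        ((bipG G A B).comap (Subtype.val : {v // v ∈ A ∪ B} → V)).Adj v u)).card : ℝ) := by
      rw [← sum_filter, sum_const, nsmul_eq_mul, mul_comm]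
    obtain ⟨d1, d2⟩ := hdeg v
    rw [hs]
    constructor
    · have e1 : (1 - η) * ((1 - 2 * α) * M) ≤ (1 - 2 * α) * ((1 - η0) * M) := by
        have : 0 ≤ (η - η0) * ((1 - 2 * α) * M) :=
          mul_nonneg (by linarith) (mul_nonneg (by linarith) (by linarith))
        nlinarith
      exact e1.trans (mul_le_mul_of_nonneg_left d1 (by linarith))
    · exact mul_le_mul_of_nonneg_left d2 (by linarith)
  · intro i
    exact isMat_liftP _ _ (hmat i)
  · intro i
    have hpair : ∀ S : Finset V, S ⊆ A ∪ B →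
        ((liftP (A ∪ B) (virt i)).filter (fun p => p.1.1 ∈ S ∧ p.2.1 ∈ S)).card =
        ((virt i).filter (fun p => p.1 ∈ S ∧ p.2 ∈ S)).card := by
      intro S hS
      refine card_bij (fun p _ => (p.1.1, p.2.1)) ?_ ?_ ?_
      · intro p hp
        rw [mem_filter] at hp ⊢
        refine ⟨?_, hp.2⟩
        have := hp.1
        unfold liftP at this
        exact (mem_filter.1 this).2
      · intro p _ q _ hpq
        have h1 := congrArg Prod.fst hpq
        have h2 := congrArg Prod.snd hpq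
        exact Prod.ext (Subtype.ext h1) (Subtype.ext h2)
      · intro p hp
        rw [mem_filter] at hp
        refine ⟨(⟨p.1, hS hp.2.1⟩, ⟨p.2, hS hp.2.2⟩), ?_, rfl⟩
        rw [mem_filter]
        refine ⟨?_, hp.2⟩
        unfold liftP
        rw [mem_filter]
        exact ⟨mem_univ _, hp.1⟩
    unfold Bal
    have a1 : (univ.filter (fun v : {v // v ∈ A ∪ B} => decide (v.1 ∈ A) = true)) =
        univ.filter (fun v : {v // v ∈ A ∪ B} => v.1 ∈ A) := by
      ext v; simp
    have a2 : (univ.filter (fun v : {v // v ∈ A ∪ B} => decide (v.1 ∈ A) = false)) =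
        univ.filter (fun v : {v // v ∈ A ∪ B} => v.1 ∈ B) := by
      ext v
      simp only [mem_filter, mem_univ, true_and, decide_eq_false_iff_not]
      constructor
      · intro h
        exact (mem_union.1 v.2).resolve_left h
      · intro h h'
        exact hdj _ h' h
    have a3 : ((liftP (A ∪ B) (virt i)).filter
        (fun p => decide (p.1.1 ∈ A) = true ∧ decide (p.2.1 ∈ A) = true)) =
        (liftP (A ∪ B) (virt i)).filter (fun p => p.1.1 ∈ A ∧ p.2.1 ∈ A) := by
      apply filter_congr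
      intro p _
      simp
    have a4 : ((liftP (A ∪ B) (virt i)).filter
        (fun p => decide (p.1.1 ∈ A) = false ∧ decide (p.2.1 ∈ A) = false)) =
        (liftP (A ∪ B) (virt i)).filter (fun p => p.1.1 ∈ B ∧ p.2.1 ∈ B) := by
      apply filter_congr
      intro p _
      simp only [decide_eq_false_iff_not]
      constructor
      · rintro ⟨b1, b2⟩
        exact ⟨(mem_union.1 p.1.2).resolve_left b1, (mem_union.1 p.2.2).resolve_left b2⟩
      · rintro ⟨b1, b2⟩
        exact ⟨fun h' => hdj _ h' b1, fun h' => hdj _ h' b2⟩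
    rw [a1, a2, a3, a4, hSA, hSB, hpair A subset_union_left, hpair B subset_union_right]
    exact hbal i
  · intro i
    have e1 : ((vs (liftP (A ∪ B) (virt i))).card : ℝ) ≤ ((vs (virt i)).card : ℝ) := by
      exact_mod_cast vs_liftP_card _ _
    refine e1.trans ((hvc i).trans ?_)
    exact mul_le_mul h0 hnM (by linarith) hη.le
  · intro w
    have e3 : η0 * M ≤ η * (Fintype.card {v // v ∈ A ∪ B} : ℝ) :=
      mul_le_mul h0 hnM (by linarith) hη.le
    refine le_trans ?_ ((hvl w.1).trans e3)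
    rw [Nat.cast_le]
    refine card_le_card ?_
    intro i hi
    simp only [mem_filter, mem_univ, true_and] at hi ⊢
    exact mem_vs_liftP _ _ _ hi
  · intro x z hxz
    have hn2 : 1 / 16 * (Fintype.card {v // v ∈ A ∪ B} : ℝ) ^ 2 ≤ M ^ 2 / 4 := by
      rw [hcardR]
      have a1 : (0 : ℝ) ≤ (A.card : ℝ) := Nat.cast_nonneg _
      have a2 : (0 : ℝ) ≤ (B.card : ℝ) := Nat.cast_nonneg _
      have a3 : (A.card : ℝ) + B.card ≤ 2 * M := by linarith
      have a4 := mul_le_mul a3 a3 (by linarith) (by linarith : (0 : ℝ) ≤ 2 * M)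
      nlinarith
    refine hn2.trans ?_
    have hNA : ∀ v ∈ univ.filter (fun u : {v // v ∈ A ∪ B} => u.1 ∈ A),
        univ.filter (fun u => ((bipG G A B).comap
          (Subtype.val : {v // v ∈ A ∪ B} → V)).Adj v u) ⊆
        univ.filter (fun u : {v // v ∈ A ∪ B} => u.1 ∈ B) := by
      intro v hv u hu
      rw [mem_filter] at hv hu ⊢
      refine ⟨mem_univ _, ?_⟩
      rcases ((hadj v u).1 hu.2).2 with ⟨a, b⟩ | ⟨a, b⟩
      · exact b
      · exact absurd a (hdj _ hv.2)
    have hNB : ∀ v ∈ univ.filter (fun u : {v // v ∈ A ∪ B} => u.1 ∈ B),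
        univ.filter (fun u => ((bipG G A B).comap
          (Subtype.val : {v // v ∈ A ∪ B} → V)).Adj v u) ⊆
        univ.filter (fun u : {v // v ∈ A ∪ B} => u.1 ∈ A) := by
      intro v hv u hu
      rw [mem_filter] at hv hu ⊢
      refine ⟨mem_univ _, ?_⟩
      rcases ((hadj v u).1 hu.2).2 with ⟨a, b⟩ | ⟨a, b⟩
      · exact absurd hv.2 (hdj _ a)
      · exact b
    by_cases hx : x.1 ∈ A
    · have hz : z.1 ∈ B := by
        refine (mem_union.1 z.2).resolve_left ?_
        intro h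
        exact hxz (by simp [hx, h])
      exact esum_side _ (1 - 2 * α) M η0 hc2 h1 hM20
        (univ.filter (fun u : {v // v ∈ A ∪ B} => u.1 ∈ A))
        (univ.filter (fun u : {v // v ∈ A ∪ B} => u.1 ∈ B)) (by rw [hSA]; exact hAM) hNB hNA
        (fun v => (hdeg v).1) x z (by rw [mem_filter]; exact ⟨mem_univ _, hx⟩)
        (by rw [mem_filter]; exact ⟨mem_univ _, hz⟩)
    · have hxB : x.1 ∈ B := (mem_union.1 x.2).resolve_left hx
      have hz : z.1 ∈ A := by
        by_contra h
        exact hxz (by simp [hx, h])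
      exact esum_side _ (1 - 2 * α) M η0 hc2 h1 hM20
        (univ.filter (fun u : {v // v ∈ A ∪ B} => u.1 ∈ B))
        (univ.filter (fun u : {v // v ∈ A ∪ B} => u.1 ∈ A)) (by rw [hSB]; exact hBM) hNA hNB
        (fun v => (hdeg v).1) x z (by rw [mem_filter]; exact ⟨mem_univ _, hxB⟩)
        (by rw [mem_filter]; exact ⟨mem_univ _, hz⟩)

end Pool.Agent.HCD
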