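import Pool.Agent.Lib.HCD.B2
import Pool.Agent.Lib.HCD.B9
import Pool.Agent.Lib.HCD.C1
import Pool.Agent.Lib.HCD.C4
import Pool.Agent.Lib.HCD.C5c
import Pool.Agent.Lib.HCD.G10c

/-!
# C6: case C

PROOF.  α = ε/16, η0 from `NC_bip`; κ' from `c_setup`; κ = min (κ'/60) (1/1000).  ExtC G κ → `c_part`: CPt G A (20κ) → CPt G A κ' (monotone), r ≤ (1/2+60κ) n ≤ (1/2+κ') n.
It is enough to treat R = ⌈(1-ε) r/2⌉₊ (N ≤ R: Pack G R → Pack G N by restriction along Fin.castLE; 2N ≤ (1-ε) r + 2 gives N ≤ R + .. : if 2N ≤ (1-ε)r+2 then N ≤ (1-ε)r/2 + 1 ≤ R + 1;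
so instead take R = N if (1-ε) r ≤ 2N, otherwise R = ⌈(1-ε)r/2⌉₊ ≥ N; both satisfy (1-ε) r ≤ 2R ≤ (1-ε) r + 2).
`c_setup`, `c_js`; `NC_bip` for A' = A1 \ Exc, B' = (univ\A1) \ Exc, virt = jv Exc u v Ns: IsMat jv_mat; vs ⊆ univ \ Exc = A' ∪ B' (jv_light); size jv_size; load jv_load with E = all pairs p with p.1, p.2 ∈ A1 \ Exc,
G.Adj, p ∈ some Ns i (E = ⋃ Ns i; at x: at most dg G x (A1\Exc) ≤ dm of them: distinct pairs at x have distinct other ends by ndist and nmat; if all b i = 0, E = ∅); balance from c_js.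
HasCycOn (bipG ..): lists l i of A' ∪ B' = univ \ Exc and E i ⊆ edges between A' and B'.  `reinsert`: hEN: the pairs of Ns j are inside A1.  3 ≤ card.
-/

set_option autoImplicit false

noncomputable section

open scoped Classical
open Finset

namespace Pool.Agent.HCD

private theorem Pack.mono' {V : Type} {G : SimpleGraph V} {N R : ℕ} (h : Pack G R) (hNR : N ≤ R) :
    Pack G N := by
  obtain ⟨l, h1, h2, h3⟩ := h
  refine ⟨fun i => l (Fin.castLE hNR i), fun i => h1 _, fun i => h2 _, fun i j hij => ?_⟩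
  exact h3 _ _ fun he => hij (Fin.castLE_injective hNR he)

private theorem CPt.mono' {V : Type} [Fintype V] {G : SimpleGraph V} {A : Finset V} {κ κ' : ℝ}
    (h : CPt G A κ) (hκ : κ ≤ κ') : CPt G A κ' := by
  have hn : (0 : ℝ) ≤ Fintype.card V := Nat.cast_nonneg _
  refine ⟨le_trans ?_ h.lo, le_trans ?_ h.lo', h.miss.trans ?_, h.cross⟩
  · exact mul_le_mul_of_nonneg_right (by linarith) hn
  · exact mul_le_mul_of_nonneg_right (by linarith) hn
  · exact mul_le_mul_of_nonneg_right hκ (by positivity)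

/-- the load of the light edges -/
private theorem light_load {V : Type} [Fintype V] {G : SimpleGraph V} {Exc A : Finset V} {R : ℕ}
    {u v : Fin R → V → V} {Ns : Fin R → Finset (V × V)} (hJ : JS G Exc u v Ns)
    (hNA : ∀ i, ∀ p ∈ Ns i, p.1 ∈ A ∧ p.2 ∈ A) (dm : ℕ)
    (hdm : (∀ i, Ns i = ∅) ∨ ∀ v ∈ A \ Exc, dg G v (A \ Exc) ≤ dm) (x : V) :
    ((univ.biUnion Ns).filter (fun p => p.1 = x ∨ p.2 = x)).card ≤ dm := by
  rcases hdm with hdm | hdm
  · have : univ.biUnion Ns = ∅ := by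
      ext p
      simp [hdm]
    rw [this]
    simp
  · by_cases hx : x ∈ A \ Exc
    · refine le_trans ?_ (hdm x hx)
      unfold dg
      refine card_le_card_of_injOn (fun p => if p.1 = x then p.2 else p.1) ?_ ?_
      · intro p hp
        rw [mem_coe, mem_filter, mem_biUnion] at hp
        obtain ⟨⟨i, _, hi⟩, hpx⟩ := hp
        have a1 := hNA i p hi
        have a2 := hJ.nL i p hi
        have a3 := hJ.nadj i p hi
        rw [mem_coe, mem_filter, mem_sdiff]
        by_cases h1 : p.1 = x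
        · simp only [h1, if_true]
          exact ⟨⟨a1.2, a2.2⟩, h1 ▸ a3⟩
        · simp only [h1, if_false]
          have h2 : p.2 = x := hpx.resolve_left h1
          exact ⟨⟨a1.1, a2.1⟩, h2 ▸ a3.symm⟩
      · intro p hp q hq hpq
        rw [mem_coe, mem_filter, mem_biUnion] at hp hq
        obtain ⟨⟨i, _, hi⟩, hpx⟩ := hp
        obtain ⟨⟨j, _, hj⟩, hqx⟩ := hq
        have hs : s(p.1, p.2) = s(q.1, q.2) := by
          rw [Sym2.eq_iff]
          by_cases h1 : p.1 = x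
          · by_cases h2 : q.1 = x
            · simp only [h1, h2, if_true] at hpq
              exact Or.inl ⟨h1.trans h2.symm, hpq⟩
            · simp only [h1, h2, if_true, if_false] at hpq
              exact Or.inr ⟨h1.trans (hqx.resolve_left h2).symm, hpq⟩
          · have h1' := hpx.resolve_left h1
            by_cases h2 : q.1 = x
            · simp only [h1, h2, if_true, if_false] at hpq
              exact Or.inr ⟨hpq, h1'.trans h2.symm⟩
            · simp only [h1, h2, if_false] at hpq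
              exact Or.inl ⟨hpq, h1'.trans (hqx.resolve_left h2).symm⟩
        by_cases hij : i = j
        · subst hij
          rw [Sym2.eq_iff] at hs
          rcases hs with hs | hs
          · exact Prod.ext hs.1 hs.2
          · exact absurd hs.1 ((hJ.nmat i).mix p hi q hj)
        · exact absurd hs (hJ.ndist i j hij p hi q hj)
    · have : (univ.biUnion Ns).filter (fun p => p.1 = x ∨ p.2 = x) = ∅ := by
        rw [filter_eq_empty_iff]
        intro p hp hpx
        rw [mem_biUnion] at hp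
        obtain ⟨i, _, hi⟩ := hp
        have a1 := hNA i p hi
        have a2 := hJ.nL i p hi
        refine hx (mem_sdiff.2 ?_)
        rcases hpx with h | h
        · exact h ▸ ⟨a1.1, a2.1⟩
        · exact h ▸ ⟨a1.2, a2.2⟩
      rw [this]
      simp

theorem caseC (ε : ℝ) (hε : 0 < ε) (hε1 : ε ≤ 1 / 4) :
    ∃ κ : ℝ, 0 < κ ∧ ∃ n0 : ℕ, ∀ (V : Type) [Fintype V] (G : SimpleGraph V) (x : V → V → ℝ)
      (r : ℝ) (N : ℕ), n0 ≤ Fintype.card V → Dirac G → FF G x r →
      (Fintype.card V : ℝ) ≤ 4 * r → ExtC G κ → (2 * N : ℝ) ≤ (1 - ε) * r + 2 → Pack G N := by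
  obtain ⟨η0, hη0, hη1, m0, hNC⟩ := NC_bip (ε / 16) (by positivity) (by linarith)
  obtain ⟨κ', hκ', n0, hset⟩ := c_setup ε η0 hε hε1 hη0 hη1
  refine ⟨min (κ' / 60) (1 / 1000), lt_min (by positivity) (by norm_num),
    max n0 (3 * m0 + 6), ?_⟩
  intro V _ G x r N hn hD hFF hr4 hEx hN
  obtain ⟨κ, hκe⟩ : ∃ κ, κ = min (κ' / 60) (1 / 1000) := ⟨_, rfl⟩
  rw [← hκe] at hEx
  have hκ0 : 0 < κ := by rw [hκe]; exact lt_min (by positivity) (by norm_num)
  have hκ1 : κ ≤ 1 / 1000 := by rw [hκe]; exact min_le_right _ _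
  have hκ2 : 60 * κ ≤ κ' := by
    have : κ ≤ κ' / 60 := by rw [hκe]; exact min_le_left _ _
    linarith
  have hn1 : n0 ≤ Fintype.card V := (le_max_left _ _).trans hn
  have hn2 : 3 * m0 + 6 ≤ Fintype.card V := (le_max_right _ _).trans hn
  have hn3 : (3 * m0 + 6 : ℝ) ≤ Fintype.card V := by exact_mod_cast hn2
  have hm0 : (0 : ℝ) ≤ m0 := Nat.cast_nonneg _
  have hr0 : 0 < r := by linarith
  have h1ε : 0 < 1 - ε := by linarith
  -- the number of cycles
  obtain ⟨R, hR1, hR2, hNR⟩ : ∃ R : ℕ, (1 - ε) * r ≤ 2 * R ∧ (2 * R : ℝ) ≤ (1 - ε) * r + 2 ∧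
      N ≤ R := by
    by_cases h : (1 - ε) * r ≤ 2 * N
    · exact ⟨N, h, hN, le_rfl⟩
    · have h0 : 0 ≤ (1 - ε) * r / 2 := by positivity
      have h1 : (1 - ε) * r / 2 ≤ ⌈(1 - ε) * r / 2⌉₊ := Nat.le_ceil _
      have h2 : (⌈(1 - ε) * r / 2⌉₊ : ℝ) < (1 - ε) * r / 2 + 1 := Nat.ceil_lt_add_one h0
      refine ⟨⌈(1 - ε) * r / 2⌉₊, by linarith, by linarith, ?_⟩
      have h3 : (N : ℝ) ≤ (⌈(1 - ε) * r / 2⌉₊ : ℝ) := by linarith
      exact_mod_cast h3
  refine Pack.mono' ?_ hNR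
  have hRpos : 0 < R := by
    have : (0 : ℝ) < R := by
      have := mul_pos h1ε hr0
      linarith
    exact_mod_cast this
  obtain ⟨A, hA, hrA⟩ := c_part G κ hκ0 hκ1 (by omega) hD hEx x r hFF
  have hcn : (0 : ℝ) ≤ Fintype.card V := Nat.cast_nonneg _
  obtain ⟨A1, Exc, t, dm, M, a, b, ha, h1, h2, hdm, hb, ht, hbal, hM1, hM2, hd1, hd2, hRM, hnM,
    hsz, hld⟩ := hset V G x r R A hn1 hD hFF hr4 (hA.mono' (by linarith))
      (hrA.trans (mul_le_mul_of_nonneg_right (by linarith) hcn)) hR2 hR1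
  obtain ⟨u, v, Ns, hJ, hNc, hNA, hbal2⟩ := c_js G A1 Exc R t dm a b ha h1 h2 hdm hb ht hbal
  have hM0 : 0 < M := by linarith
  have hmM : (m0 : ℝ) ≤ M := by linarith
  have hηM : 0 < (1 - η0) * M := mul_pos (by linarith) hM0
  have hcov : ∀ y : V, y ∈ (A1 \ Exc) ∪ ((univ \ A1) \ Exc) ↔ y ∉ Exc := by
    intro y
    simp only [mem_union, mem_sdiff, mem_univ, true_and]
    tauto
  have hcov2 : (A1 \ Exc) ∪ ((univ \ A1) \ Exc) = univ \ Exc := by
    ext y
    rw [hcov]
    simp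
  have hdis : Disjoint (A1 \ Exc) ((univ \ A1) \ Exc) := by
    rw [disjoint_left]
    intro y hy hy'
    simp only [mem_sdiff, mem_univ, true_and] at hy hy'
    exact hy'.1 hy.1
  have dgpos : ∀ (y : V) (X : Finset V), (1 - η0) * M ≤ dg G y X →
      X.Nonempty ∧ (1 - η0) * M ≤ X.card := by
    intro y X h
    have h3 : (dg G y X : ℝ) ≤ X.card := by
      exact_mod_cast (card_filter_le _ _ : dg G y X ≤ X.card)
    have h4 : (0 : ℝ) < X.card := lt_of_lt_of_le hηM (h.trans h3)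
    exact ⟨card_pos.1 (by exact_mod_cast h4), h.trans h3⟩
  -- a light vertex
  have hlight : ∃ y : V, y ∉ Exc := by
    by_contra hcon
    push Not at hcon
    have hVne : Nonempty V := Fintype.card_pos_iff.1 (by omega)
    obtain ⟨w⟩ := hVne
    have hwE := hcon w
    have e1 : 2 ≤ t := by
      have := ht ⟨0, hRpos⟩
      have : 0 < Exc.card := card_pos.2 ⟨w, hwE⟩
      omega
    have e2 := h2 w hwE
    have e3 : crL G A1 Exc w = 0 := by
      unfold crL dg
      rw [card_eq_zero, filter_eq_empty_iff]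
      intro z hz
      exact absurd (hcon z) (mem_sdiff.1 hz).2
    rw [e3] at e2
    omega
  have hne : ((A1 \ Exc).Nonempty ∧ (1 - η0) * M ≤ (A1 \ Exc).card) ∧
      (((univ \ A1) \ Exc).Nonempty ∧ (1 - η0) * M ≤ ((univ \ A1) \ Exc).card) := by
    obtain ⟨y, hy⟩ := hlight
    rcases mem_union.1 ((hcov y).2 hy) with h | h
    · have h3 := dgpos y _ (hd1 y h)
      obtain ⟨z, hz⟩ := h3.1
      exact ⟨dgpos z _ (hd2 z hz), h3⟩
    · have h3 := dgpos y _ (hd2 y h)
      obtain ⟨z, hz⟩ := h3.1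
      exact ⟨h3, dgpos z _ (hd1 z hz)⟩
  have hload : ∀ w, (((univ.filter (fun i => w ∈ vs (jv Exc u v Ns i))).card : ℕ) : ℝ) ≤
      η0 * M := by
    intro w
    have h3 : (∀ i, Ns i = ∅) ∨ ∀ v ∈ A1 \ Exc, dg G v (A1 \ Exc) ≤ dm := by
      rcases hdm with h | h
      · exact Or.inl fun i => card_eq_zero.1 (by rw [hNc, h])
      · exact Or.inr h
    have h4 := jv_load hJ dm (univ.biUnion Ns) (fun i => subset_biUnion_of_mem Ns (mem_univ i))
      (light_load hJ hNA dm h3) w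
    have h5 : (((univ.filter (fun i => w ∈ vs (jv Exc u v Ns i))).card : ℕ) : ℝ) ≤
        ((Exc.card + dm : ℕ) : ℝ) := by exact_mod_cast h4
    push_cast at h5
    exact h5.trans hld
  have hsize : ∀ i, ((vs (jv Exc u v Ns i)).card : ℝ) ≤ η0 * M := by
    intro i
    have h3 := jv_size hJ i
    rw [hNc] at h3
    have h4 : ((vs (jv Exc u v Ns i)).card : ℝ) ≤ ((2 * Exc.card + 2 * b i : ℕ) : ℝ) := by
      exact_mod_cast h3
    push_cast at h4
    exact h4.trans (hsz i)
  obtain ⟨l, E, hl, hE, hEd, hcp, hv⟩ := hNC V G (A1 \ Exc) ((univ \ A1) \ Exc) M R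
    (jv Exc u v Ns) hdis hmM hM1 hM2 hd1 hd2
    (by rw [show 1 - 2 * (ε / 16) = 1 - ε / 8 by ring]; exact hRM) hne.1.1 hne.2.1
    (fun i => jv_mat hJ i) (fun i => by rw [hcov2]; exact jv_light hJ i) hsize hload hbal2
  refine reinsert G Exc u v Ns hJ ?_ l E (fun i => ⟨(hl i).1, fun y => ?_⟩) ?_ hEd ?_ hcp hv
  · rw [← hcov2, card_union_of_disjoint hdis]
    have h3 : (3 : ℝ) ≤ (((A1 \ Exc).card + ((univ \ A1) \ Exc).card : ℕ) : ℝ) := by
      push_cast
      have h4 : (19 / 20 : ℝ) * M ≤ (1 - η0) * M :=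
        mul_le_mul_of_nonneg_right (by linarith) hM0.le
      linarith [hne.1.2, hne.2.2]
    exact_mod_cast h3
  · rw [(hl i).2 y]
    exact hcov y
  · intro i e he
    have h3 := hE i e he
    induction e using Sym2.ind with
    | _ p q =>
      rw [SimpleGraph.mem_edgeSet] at h3
      refine ⟨(SimpleGraph.mem_edgeSet G).2 h3.1, ?_⟩
      intro y hy
      rw [Sym2.mem_iff] at hy
      rcases h3.2 with h4 | h4
      · rcases hy with rfl | rfl
        · exact (mem_sdiff.1 h4.1).2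
        · exact (mem_sdiff.1 h4.2).2
      · rcases hy with rfl | rfl
        · exact (mem_sdiff.1 h4.1).2
        · exact (mem_sdiff.1 h4.2).2
  · intro i j p hp hmem
    have h3 := hE i _ hmem
    rw [SimpleGraph.mem_edgeSet] at h3
    have h4 := hNA j p hp
    rcases h3.2 with h5 | h5
    · exact (mem_sdiff.1 (mem_sdiff.1 h5.2).1).2 h4.2
    · exact (mem_sdiff.1 (mem_sdiff.1 h5.1).1).2 h4.1

end Pool.Agent.HCD
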