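import Mathlib

/-!
# Edge-disjoint Hamilton cycles in Dirac graphs (MP_2173d5_co): definitions

Paper: /team-store/MP_2173d5_co_paper.md.  Everything lives in `Pool.Agent.HCD`.
-/

set_option autoImplicit false

noncomputable section

open scoped Classical
open Finset

namespace Pool.Agent.HCD

/-! ## Cyclic lists -/

/-- the cyclically consecutive pairs of a list -/
def cp {V : Type} (l : List V) : List (V × V) := l.zip (l.rotate 1)

/-- insert the list `ins a` after every member `a` of `l` -/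
def expand {V : Type} (ins : V → List V) (l : List V) : List V := l.flatMap (fun a => a :: ins a)

/-- `l` lists every vertex exactly once -/
def Full {V : Type} (l : List V) : Prop := l.Nodup ∧ ∀ v, v ∈ l

/-! ## Finite product probability -/

/-- expectation on the finite product space with weights `w i` -/
def EE {I R : Type} [Fintype I] [Fintype R] (w : I → R → ℝ) (f : (I → R) → ℝ) : ℝ :=
  ∑ ω : I → R, (∏ i, w i (ω i)) * f ω

/-! ## Weighted graphs -/

/-- `y` is a symmetric nonnegative weight on the edges of `G` -/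
structure WG {V : Type} (G : SimpleGraph V) (y : V → V → ℝ) : Prop where
  symm : ∀ u v, y u v = y v u
  nonneg : ∀ u v, 0 ≤ y u v
  zero : ∀ u v, ¬ G.Adj u v → y u v = 0

/-- number of ordered pairs `(u,v)` of `X × Y` with `u ~ v` -/
def eo {V : Type} [Fintype V] (G : SimpleGraph V) (X Y : Finset V) : ℕ :=
  ((X ×ˢ Y).filter (fun p => G.Adj p.1 p.2)).card

/-- degree of `v` into the set `X` -/
def dg {V : Type} [Fintype V] (G : SimpleGraph V) (v : V) (X : Finset V) : ℕ :=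
  (X.filter (fun u => G.Adj v u)).card

/-- the weighted sum of condition (E) for `x, z` -/
def esum {V : Type} [Fintype V] (G : SimpleGraph V) (y : V → V → ℝ) (x z : V) : ℝ :=
  ∑ q, ∑ q', if G.Adj x q ∧ G.Adj z q' ∧ q ≠ z ∧ q' ≠ x then y q q' else 0

/-- the pairs `(q,q')` with `xq, zq'` edges of `R` and `qq'` an edge of `H` -/
def tset {V : Type} [Fintype V] (H R : SimpleGraph V) (x z : V) : Finset (V × V) :=
  univ.filter (fun p => R.Adj x p.1 ∧ R.Adj z p.2 ∧ H.Adj p.1 p.2 ∧ p.1 ≠ z ∧ p.2 ≠ x)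

/-- the pair `p` is suitable for `x, z` with respect to `R` -/
def Suit {V : Type} (R : SimpleGraph V) (x z : V) (p : V × V) : Prop :=
  (R.Adj x p.1 ∧ R.Adj z p.2) ∨ (R.Adj x p.2 ∧ R.Adj z p.1)

/-! ## Patterns -/

/-- layers `j`, positions `s < L`, parts `U j s` -/
structure IsPat {P : Type} {J : ℕ} (U : Fin J → ℕ → P) (L : ℕ) : Prop where
  inj : ∀ j s s', s < L → s' < L → U j s = U j s' → s = s'
  cover : ∀ j p, ∃ s, s < L ∧ U j s = p
  pair1 : ∀ j s j' s', s + 1 < L → s' + 1 < L → U j s = U j' s' → U j (s+1) = U j' (s'+1) →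
    j = j' ∧ s = s'
  pair2 : ∀ j s j' s', s + 1 < L → s' + 1 < L → U j s = U j' (s'+1) → U j (s+1) ≠ U j' s'
  pos : ∀ s, s < L → ∀ p, (univ.filter (fun j => U j s = p)).card ≤ 2

/-! ## Vertex sets of sets of pairs -/

/-- all vertices of a set of pairs -/
def vs {V : Type} (E : Finset (V × V)) : Finset V := E.image Prod.fst ∪ E.image Prod.snd

/-- a set of pairs that is a matching (all ends distinct) -/
structure IsMat {V : Type} (E : Finset (V × V)) : Prop where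
  ne : ∀ p ∈ E, p.1 ≠ p.2
  fst : ∀ p ∈ E, ∀ q ∈ E, p.1 = q.1 → p = q
  snd : ∀ p ∈ E, ∀ q ∈ E, p.2 = q.2 → p = q
  mix : ∀ p ∈ E, ∀ q ∈ E, p.1 ≠ q.2

/-- a set of pairs whose out- and in-degrees are at most one and which has a rank function -/
structure IsLin {V : Type} (E : Finset (V × V)) : Prop where
  fst : ∀ p ∈ E, ∀ q ∈ E, p.1 = q.1 → p = q
  snd : ∀ p ∈ E, ∀ q ∈ E, p.2 = q.2 → p = q
  rank : ∃ h : V → ℕ, ∀ p ∈ E, h p.1 < h p.2

/-- type balance: (number of `true` vertices of `W`) - (number of `false` ones) equals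
(number of pairs of `E` with both ends `true`) - (both ends `false`) -/
def Bal {V : Type} (ty : V → Bool) (W : Finset V) (E : Finset (V × V)) : Prop :=
  ((W.filter (fun v => ty v = true)).card : ℤ) - (W.filter (fun v => ty v = false)).card =
  ((E.filter (fun p => ty p.1 = true ∧ ty p.2 = true)).card : ℤ) -
    (E.filter (fun p => ty p.1 = false ∧ ty p.2 = false)).card

/-- the block ends: members of `W` without out-pair or without in-pair -/
def endsOf {V : Type} (W : Finset V) (E : Finset (V × V)) : Finset V :=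
  W.filter (fun w => (∀ p ∈ E, p.1 ≠ w) ∨ (∀ p ∈ E, p.2 ≠ w))

/-- `l` is a cyclic list of `W`; its consecutive pairs are the pairs of `E` (in one of the two
directions) and the joints `X` -/
structure IsArr {V : Type} (W : Finset V) (E : Finset (V × V)) (Adm : V → V → Prop) (l : List V)
    (X : Finset (V × V)) : Prop where
  nodup : l.Nodup
  mem : ∀ v, v ∈ l ↔ v ∈ W
  X_cp : ∀ p ∈ X, p ∈ cp l
  cp_E : ∀ p ∈ cp l, p ∉ X → p ∈ E ∨ p.swap ∈ E
  E_cp : ∀ p ∈ E, (p ∈ cp l ∧ p ∉ X) ∨ (p.swap ∈ cp l ∧ p.swap ∉ X)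
  adm : ∀ p ∈ X, Adm p.1 p.2
  ends : ∀ p ∈ X, p.1 ∈ endsOf W E ∧ p.2 ∈ endsOf W E
  card : X.card + E.card = W.card

/-! ## Families of systems -/

/-- main pairs, virtual pairs and links of the `N` systems -/
structure Fam (V : Type) (N : ℕ) where
  main : Fin N → Finset (V × V)
  virt : Fin N → Finset (V × V)
  links : Fin N → Finset (V × V)

/-- the vertices of the cyclic list of system `i`: all but those of the links -/
def Fam.W {V : Type} [Fintype V] {N : ℕ} (F : Fam V N) (i : Fin N) : Finset V :=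
  univ \ vs (F.links i)

/-- the pairs of system `i` that are kept consecutive -/
def Fam.E {V : Type} {N : ℕ} (F : Fam V N) (i : Fin N) : Finset (V × V) := F.main i ∪ F.virt i

/-- the block ends of system `i` -/
def Fam.ends {V : Type} [Fintype V] {N : ℕ} (F : Fam V N) (i : Fin N) : Finset V :=
  endsOf (F.W i) (F.E i)

/-- the output of stages 1, 2, 3 (section 2 of the paper) -/
structure Fam.Good {V : Type} [Fintype V] {N : ℕ} (F : Fam V N) (H R1 R2 : SimpleGraph V)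
    (Adm : V → V → Prop) (ζ γ μ : ℝ) : Prop where
  lin : ∀ i, IsLin (F.E i)
  lmat : ∀ i, IsMat (F.links i)
  mH : ∀ i, ∀ p ∈ F.main i, H.Adj p.1 p.2
  lH : ∀ i, ∀ p ∈ F.links i, H.Adj p.1 p.2
  ml : ∀ i, ∀ p ∈ F.E i, p.1 ∉ vs (F.links i) ∧ p.2 ∉ vs (F.links i)
  mv : ∀ i, ∀ p ∈ F.main i, p.1 ∉ vs (F.virt i) ∧ p.2 ∉ vs (F.virt i)
  disj : ∀ i j, i ≠ j → ∀ p ∈ F.main i ∪ F.links i, ∀ q ∈ F.main j ∪ F.links j,
    s(p.1, p.2) ≠ s(q.1, q.2)
  joints : ∀ i, ((F.W i).card : ℝ) ≤ (F.E i).card + μ * Fintype.card V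
  nlinks : ∀ i, ((F.links i).card : ℝ) ≤ 2 * ζ * Fintype.card V
  loadE : ∀ w, ((univ.filter (fun i => w ∈ F.ends i)).card : ℝ) ≤ μ * Fintype.card V
  loadL : ∀ w, ((univ.filter (fun i => w ∈ vs (F.links i))).card : ℝ) ≤ 8 * ζ * Fintype.card V
  suit1 : ∀ i x z, Adm x z → ζ * γ / 16 * Fintype.card V ≤
    (((F.links i).filter (fun p => Suit R1 x z p)).card : ℝ)
  suit2 : ∀ i x z, Adm x z → γ / 16 * Fintype.card V ≤
    (((F.main i).filter (fun p => Suit R2 x z p)).card : ℝ)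

/-- general mode or bipartite mode -/
def Mode {V : Type} [Fintype V] {N : ℕ} (H : SimpleGraph V) (Adm : V → V → Prop)
    (virt : Fin N → Finset (V × V)) : Prop :=
  (∀ x z, x ≠ z → Adm x z) ∨
  ∃ ty : V → Bool, (∀ x z, ty x ≠ ty z → Adm x z) ∧ (∀ u v, H.Adj u v → ty u ≠ ty v) ∧
    ∀ i, Bal ty univ (virt i)

/-- the conclusion of the general theorem: cyclic lists of all vertices which contain the virtual
pairs and whose other consecutive pairs are in pairwise disjoint edge sets of `G` -/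
def HasCyc {V : Type} [Fintype V] {N : ℕ} (G : SimpleGraph V) (virt : Fin N → Finset (V × V)) :
    Prop :=
  ∃ (l : Fin N → List V) (E : Fin N → Set (Sym2 V)),
    (∀ i, Full (l i)) ∧ (∀ i, ∀ e ∈ E i, e ∈ G.edgeSet) ∧
    (∀ i j, i ≠ j → Disjoint (E i) (E j)) ∧
    (∀ i, ∀ p ∈ cp (l i), s(p.1, p.2) ∈ E i ∨ p ∈ virt i ∨ p.swap ∈ virt i) ∧
    (∀ i, ∀ p ∈ virt i, p ∈ cp (l i) ∨ p.swap ∈ cp (l i))

/-- the same for cyclic lists of a set `W` (all edges of `G` are meant to lie inside `W`) -/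
def HasCycOn {V : Type} {N : ℕ} (G : SimpleGraph V) (W : Finset V)
    (virt : Fin N → Finset (V × V)) : Prop :=
  ∃ (l : Fin N → List V) (E : Fin N → Set (Sym2 V)),
    (∀ i, (l i).Nodup ∧ ∀ v, v ∈ l i ↔ v ∈ W) ∧ (∀ i, ∀ e ∈ E i, e ∈ G.edgeSet) ∧
    (∀ i j, i ≠ j → Disjoint (E i) (E j)) ∧
    (∀ i, ∀ p ∈ cp (l i), s(p.1, p.2) ∈ E i ∨ p ∈ virt i ∨ p.swap ∈ virt i) ∧
    (∀ i, ∀ p ∈ virt i, p ∈ cp (l i) ∨ p.swap ∈ cp (l i))

/-- `k` pairwise edge-disjoint Hamilton cycles, as cyclic lists -/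
def Pack {V : Type} (G : SimpleGraph V) (k : ℕ) : Prop :=
  ∃ l : Fin k → List V, (∀ i, Full (l i)) ∧ (∀ i, ∀ p ∈ cp (l i), G.Adj p.1 p.2) ∧
    ∀ i j, i ≠ j → ∀ p ∈ cp (l i), ∀ q ∈ cp (l j), s(p.1, p.2) ≠ s(q.1, q.2)

/-- a fractional `r`-factor -/
def FF {V : Type} [Fintype V] (G : SimpleGraph V) (x : V → V → ℝ) (r : ℝ) : Prop :=
  WG G x ∧ (∀ u v, x u v ≤ 1) ∧ ∀ v, ∑ u, x v u = r

/-- minimum degree at least n/2 -/
def Dirac {V : Type} [Fintype V] (G : SimpleGraph V) : Prop :=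
  ∀ v, Fintype.card V ≤ 2 * dg G v univ

/-- the non-extremal case -/
def NonExt {V : Type} [Fintype V] (G : SimpleGraph V) (γ : ℝ) : Prop :=
  ∀ X Y : Finset V, (1 / 2 - γ) * Fintype.card V ≤ X.card →
    (1 / 2 - γ) * Fintype.card V ≤ Y.card → γ * (Fintype.card V : ℝ) ^ 2 ≤ eo G X Y

/-- extremal case B: two near cliques -/
def ExtB {V : Type} [Fintype V] (G : SimpleGraph V) (κ : ℝ) : Prop :=
  ∃ A : Finset V, (1 / 2 - κ) * Fintype.card V ≤ A.card ∧
    (1 / 2 - κ) * Fintype.card V ≤ (univ \ A).card ∧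
    (eo G A (univ \ A) : ℝ) ≤ κ * (Fintype.card V : ℝ) ^ 2

/-- extremal case C: a nearly independent set of almost half the vertices -/
def ExtC {V : Type} [Fintype V] (G : SimpleGraph V) (κ : ℝ) : Prop :=
  ∃ A : Finset V, (1 / 2 - κ) * Fintype.card V ≤ A.card ∧
    (eo G A A : ℝ) ≤ κ * (Fintype.card V : ℝ) ^ 2

/-- the data after stage 2: parts, pattern, graphs `H, R1, R2` (section 2 of the paper) -/
structure PD {V P : Type} [Fintype V] {N J : ℕ} (pt : V → P) (U : Fin J → ℕ → P) (L K Δ : ℕ)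
    (H R1 R2 : SimpleGraph V) (Adm : V → V → Prop) (virt : Fin N → Finset (V × V))
    (η δ γ : ℝ) : Prop where
  pat : IsPat U L
  L1 : K ≤ L
  L2 : L ≤ 2 * K
  J2 : 2 * J = K
  D1 : (Fintype.card V : ℝ) ≤ 10 * K * Δ
  D2 : (K : ℝ) * Δ ≤ 2 * Fintype.card V
  hN : N ≤ J * Δ
  size : ∀ p, (K : ℝ) * (univ.filter (fun v => pt v = p)).card ≤ 2 * Fintype.card V
  hi1 : ∀ j s, s + 1 < L → ∀ v, pt v = U j s →
    (univ.filter (fun u => pt u = U j (s+1) ∧ H.Adj v u)).card ≤ Δ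
  hi2 : ∀ j s, s + 1 < L → ∀ v, pt v = U j (s+1) →
    (univ.filter (fun u => pt u = U j s ∧ H.Adj v u)).card ≤ Δ
  lo1 : ∀ j s, s + 1 < L → ∀ v, pt v = U j s → (Δ : ℝ) - (η + 5 * δ) * Fintype.card V / K ≤
    (univ.filter (fun u => pt u = U j (s+1) ∧ H.Adj v u)).card
  lo2 : ∀ j s, s + 1 < L → ∀ v, pt v = U j (s+1) → (Δ : ℝ) - (η + 5 * δ) * Fintype.card V / K ≤
    (univ.filter (fun u => pt u = U j s ∧ H.Adj v u)).card
  suit1 : ∀ x z, Adm x z → ∀ j s, s + 1 < L → γ * (Fintype.card V / K : ℝ) ^ 2 ≤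
    (univ.filter (fun p : V × V => pt p.1 = U j s ∧ pt p.2 = U j (s+1) ∧ H.Adj p.1 p.2 ∧
      Suit R1 x z p)).card
  suit2 : ∀ x z, Adm x z → ∀ j s, s + 1 < L → γ * (Fintype.card V / K : ℝ) ^ 2 ≤
    (univ.filter (fun p : V × V => pt p.1 = U j s ∧ pt p.2 = U j (s+1) ∧ H.Adj p.1 p.2 ∧
      Suit R2 x z p)).card
  vsize : ∀ i p, ((vs (virt i)).filter (fun v => pt v = p)).card ≤
    (η + δ) * (Fintype.card V : ℝ) / K
  vtot : ∀ i, ((vs (virt i)).card : ℝ) ≤ η * Fintype.card V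
  vload : ∀ w, ((univ.filter (fun i => w ∈ vs (virt i))).card : ℝ) ≤ η * Fintype.card V
  vmat : ∀ i, IsMat (virt i)

end Pool.Agent.HCD
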