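import Pool.Agent.Lib.HCD.Defs

/-!
# F1: the trichotomy (section 3)

PROOF.  γ = min (κ^2/100) (1/100) (so sqrt γ ≤ κ/10), n = card V.  If NonExt G γ fails there are X, Y with |X|, |Y| ≥ (1/2-γ) n and eo G X Y < γ n^2.  P = X ∩ Y, Q = X \ Y, S = Y \ X, T = univ \ (X ∪ Y).
eo G P P, eo G P S, eo G Q P (= eo G P Q), eo G Q S ≤ eo G X Y < γ n^2.  g = sqrt γ.
If |P| ≥ g n: |P| n/2 ≤ ∑_{v∈P} deg v = eo P P + eo P Q + eo P S + eo P T ≤ 3γ n^2 + |P||T|, so |T| ≥ n/2 - 3 g n, so |X ∪ Y| ≤ n/2 + 3 g n, |S| = |X∪Y| - |X| ≤ (3g + γ) n, |Q| likewise, |P| = |X| - |Q| ≥ (1/2 - 2γ - 3g) n ≥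
(1/2 - κ) n: ExtC with A = P.
If |P| < g n: A = Q: |Q| ≥ (1/2 - γ - g) n; univ \ Q ⊇ S ∪ ..: |univ \ Q| ≥ |Y| ≥ (1/2-γ) n; univ \ Q = S ∪ P ∪ T', |(univ \ Q) \ S| = n - |Q| - |S| ≤ (2γ + 2g) n; eo G Q (univ \ Q) ≤ γ n^2 + (2γ+2g) n^2 ≤ κ n^2: ExtB.
-/

set_option autoImplicit false

noncomputable section

open scoped Classical
open Finset

namespace Pool.Agent.HCD

section aux
variable {V : Type} [Fintype V] (G : SimpleGraph V)

private theorem f1_mono {X X' Y Y' : Finset V} (hX : X ⊆ X') (hY : Y ⊆ Y') :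
    eo G X Y ≤ eo G X' Y' :=
  card_le_card (filter_subset_filter _ (product_subset_product hX hY))

private theorem f1_union (X Y Z : Finset V) : eo G X (Y ∪ Z) ≤ eo G X Y + eo G X Z := by
  unfold eo
  rw [product_union, filter_union]
  exact card_union_le _ _

private theorem f1_symm (X Y : Finset V) : eo G X Y = eo G Y X := by
  unfold eo
  refine card_bij (fun p _ => p.swap) ?_ ?_ ?_
  · rintro ⟨a, b⟩ h
    rw [mem_filter, mem_product] at h ⊢
    exact ⟨⟨h.1.2, h.1.1⟩, h.2.symm⟩
  · rintro ⟨a, b⟩ _ ⟨c, d⟩ _ h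
    exact Prod.swap_injective h
  · rintro ⟨a, b⟩ h
    refine ⟨(b, a), ?_, rfl⟩
    rw [mem_filter, mem_product] at h ⊢
    exact ⟨⟨h.1.2, h.1.1⟩, h.2.symm⟩

private theorem f1_le (X Y : Finset V) : eo G X Y ≤ X.card * Y.card := by
  unfold eo
  rw [← card_product]
  exact card_filter_le _ _

private theorem f1_sum (X Y : Finset V) : eo G X Y = ∑ v ∈ X, dg G v Y := by
  unfold eo dg
  rw [card_eq_sum_ones, sum_filter, sum_product]
  refine sum_congr rfl fun v _ => ?_
  rw [card_eq_sum_ones, sum_filter]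

end aux

theorem trichotomy (κ : ℝ) (hκ : 0 < κ) : ∃ γ : ℝ, 0 < γ ∧ γ ≤ 1 / 2 ∧ ∀ (V : Type) [Fintype V]
    (G : SimpleGraph V), Dirac G → NonExt G γ ∨ ExtB G κ ∨ ExtC G κ := by
  set g : ℝ := min (κ / 10) (1 / 10) with hg
  have hg0 : 0 < g := lt_min (by positivity) (by norm_num)
  have hgκ : g ≤ κ / 10 := min_le_left _ _
  have hg1 : g ≤ 1 / 10 := min_le_right _ _
  have hγg : g ^ 2 ≤ g / 10 := by nlinarith
  refine ⟨g ^ 2, by positivity, by nlinarith, ?_⟩
  intro V _ G hD
  by_contra hcon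
  rw [not_or, not_or] at hcon
  obtain ⟨hNE, hB, hC⟩ := hcon
  unfold NonExt at hNE
  push Not at hNE
  obtain ⟨X, Y, hX, hY, hXY⟩ := hNE
  set n : ℝ := (Fintype.card V : ℝ) with hn
  have hn0 : 0 ≤ n := Nat.cast_nonneg _
  have hnpos : 0 < n := by
    rcases hn0.eq_or_lt with h0 | h0
    · rw [← h0] at hXY
      have : (0 : ℝ) ≤ eo G X Y := Nat.cast_nonneg _
      simp only [ne_eq, OfNat.ofNat_ne_zero, not_false_eq_true, zero_pow, mul_zero] at hXY
      linarith
    · exact h0
  set P := X ∩ Y with hP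
  set Q := X \ Y with hQ
  set S := Y \ X with hS
  set T := univ \ (X ∪ Y) with hT
  have cX : (P.card : ℝ) + Q.card = X.card := by
    have h := card_inter_add_card_sdiff X Y
    exact_mod_cast h
  have cY : (P.card : ℝ) + S.card = Y.card := by
    have h := card_inter_add_card_sdiff Y X
    rw [inter_comm] at h
    exact_mod_cast h
  have cU : ((X ∪ Y).card : ℝ) + P.card = X.card + Y.card := by
    have h := card_union_add_card_inter X Y
    exact_mod_cast h
  have cT : (T.card : ℝ) + (X ∪ Y).card = n := by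
    have h := card_sdiff_add_card_eq_card (subset_univ (X ∪ Y))
    rw [card_univ] at h
    rw [hn]
    exact_mod_cast h
  have hPX : P ⊆ X := inter_subset_left
  have hPY : P ⊆ Y := inter_subset_right
  have hQX : Q ⊆ X := sdiff_subset
  have hSY : S ⊆ Y := sdiff_subset
  have lt_of : ∀ {A B : Finset V}, A ⊆ X → B ⊆ Y → (eo G A B : ℝ) < g ^ 2 * n ^ 2 := by
    intro A B hA hB
    exact lt_of_le_of_lt (by exact_mod_cast f1_mono G hA hB) hXY
  have ePP := lt_of hPX hPY
  have ePS := lt_of hPX hSY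
  have ePQ : (eo G P Q : ℝ) < g ^ 2 * n ^ 2 := by
    rw [f1_symm]
    exact lt_of hQX hPY
  have hTn : (0 : ℝ) ≤ T.card := Nat.cast_nonneg _
  have hPn : (0 : ℝ) ≤ P.card := Nat.cast_nonneg _
  have hQn : (0 : ℝ) ≤ Q.card := Nat.cast_nonneg _
  rcases le_or_gt (g * n) P.card with hcase | hcase
  · -- case C
    refine hC ⟨P, ?_, ?_⟩
    · have h1 : (P.card : ℝ) * (n / 2) ≤ eo G P univ := by
        rw [f1_sum]
        push_cast
        have h2 : ∀ v ∈ P, n / 2 ≤ (dg G v univ : ℝ) := by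
          intro v _
          have h3 := hD v
          have h4 : n ≤ 2 * (dg G v univ : ℝ) := by
            rw [hn]
            exact_mod_cast h3
          linarith
        have h3 := card_nsmul_le_sum P (fun v => (dg G v univ : ℝ)) (n / 2) h2
        rwa [nsmul_eq_mul] at h3
      have h2 : (eo G P univ : ℝ) ≤ eo G P P + eo G P Q + eo G P S + eo G P T := by
        have hcov : (univ : Finset V) ⊆ ((P ∪ Q) ∪ S) ∪ T := by
          intro v _
          rw [hP, hQ, hS, hT]
          simp only [mem_union, mem_inter, mem_sdiff, mem_univ, true_and]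
          tauto
        have h3 : eo G P univ ≤ eo G P P + eo G P Q + eo G P S + eo G P T := by
          calc eo G P univ ≤ eo G P (((P ∪ Q) ∪ S) ∪ T) := f1_mono G subset_rfl hcov
            _ ≤ eo G P ((P ∪ Q) ∪ S) + eo G P T := f1_union G _ _ _
            _ ≤ (eo G P (P ∪ Q) + eo G P S) + eo G P T :=
              Nat.add_le_add_right (f1_union G _ _ _) _
            _ ≤ ((eo G P P + eo G P Q) + eo G P S) + eo G P T :=
              Nat.add_le_add_right (Nat.add_le_add_right (f1_union G _ _ _) _) _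
        exact_mod_cast h3
      have h3 : (eo G P T : ℝ) ≤ P.card * T.card := by exact_mod_cast f1_le G P T
      have h4 : (P.card : ℝ) * (n / 2 - T.card) ≤ 3 * (g ^ 2 * n ^ 2) := by
        nlinarith
      have h5 : n / 2 - T.card ≤ 3 * g * n := by
        by_contra hneg
        rw [not_le] at hneg
        have h6 : g * n * (3 * g * n) < P.card * (n / 2 - T.card) := by
          have h7 : 0 < g * n := mul_pos hg0 hnpos
          calc g * n * (3 * g * n) < g * n * (n / 2 - T.card) :=
                mul_lt_mul_of_pos_left hneg h7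
            _ ≤ P.card * (n / 2 - T.card) := by
                refine mul_le_mul_of_nonneg_right hcase ?_
                have : 0 < 3 * g * n := by positivity
                linarith
        nlinarith
      have h6 : g ^ 2 * n ≤ g / 10 * n := mul_le_mul_of_nonneg_right hγg hn0
      have h7 : g * n ≤ κ / 10 * n := mul_le_mul_of_nonneg_right hgκ hn0
      have h8 : 0 < κ * n := mul_pos hκ hnpos
      linarith
    · have h6 : g ^ 2 ≤ κ := by linarith
      have h7 : g ^ 2 * n ^ 2 ≤ κ * n ^ 2 := mul_le_mul_of_nonneg_right h6 (sq_nonneg n)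
      linarith
  · -- case B
    have h6 : g ^ 2 * n ≤ g / 10 * n := mul_le_mul_of_nonneg_right hγg hn0
    have h7 : g * n ≤ κ / 10 * n := mul_le_mul_of_nonneg_right hgκ hn0
    have h8 : 0 < κ * n := mul_pos hκ hnpos
    refine hB ⟨Q, ?_, ?_, ?_⟩
    · linarith
    · have h1 : Y ⊆ univ \ Q := by
        intro v hv
        rw [hQ]
        simp only [mem_sdiff, mem_univ, true_and]
        tauto
      have h2 : (Y.card : ℝ) ≤ (univ \ Q).card := by exact_mod_cast card_le_card h1
      linarith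
    · have hcov : univ \ Q ⊆ Y ∪ T := by
        intro v hv
        rw [hQ] at hv
        rw [hT]
        simp only [mem_union, mem_sdiff, mem_univ, true_and] at hv ⊢
        tauto
      have h1 : (eo G Q (univ \ Q) : ℝ) ≤ eo G Q Y + eo G Q T := by
        exact_mod_cast (f1_mono G subset_rfl hcov).trans (f1_union G _ _ _)
      have h2 : (eo G Q Y : ℝ) < g ^ 2 * n ^ 2 := lt_of hQX subset_rfl
      have h3 : (eo G Q T : ℝ) ≤ Q.card * T.card := by exact_mod_cast f1_le G Q T
      have h4 : (T.card : ℝ) ≤ (2 * g ^ 2 + g) * n := by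
        have : (2 * g ^ 2 + g) * n = 2 * (g ^ 2 * n) + g * n := by ring
        rw [this]
        linarith
      have h5 : (Q.card : ℝ) ≤ n := by
        rw [hn]
        exact_mod_cast card_le_univ Q
      have h9 : (Q.card : ℝ) * T.card ≤ n * ((2 * g ^ 2 + g) * n) :=
        mul_le_mul h5 h4 hTn hn0
      have h10 : 3 * g ^ 2 + g ≤ κ := by linarith
      have h11 : (3 * g ^ 2 + g) * n ^ 2 ≤ κ * n ^ 2 :=
        mul_le_mul_of_nonneg_right h10 (sq_nonneg n)
      nlinarith

end Pool.Agent.HCD
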