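import Pool.Agent.Lib.HCD.T10

/-!
# T11: from a cyclic list to a Hamilton cycle in the sense of Mathlib

PROOF.  `Pool.Agent.Lib.MP_e65231_co.Transfer` proves `G.IsHamiltonian` from a cyclic list by the same construction: a walk
p : G.Walk (l.head _) (l.getLast _) with support l (`SimpleGraph.Walk` from a chain), closed by the edge last-head;
`IsHamiltonianCycle` = cycle + support count.  Here the edges are also needed: the edges of the closed walk are the pairs
s(p.1,p.2), p ∈ cp l.
-/

set_option autoImplicit false

noncomputable section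

open scoped Classical
open Finset

namespace Pool.Agent.HCD

theorem walk_of_list {V : Type} [Fintype V] [DecidableEq V] (G : SimpleGraph V) (l : List V)
    (hl : Full l) (h3 : 3 ≤ Fintype.card V) (hadj : ∀ p ∈ cp l, G.Adj p.1 p.2) :
    ∃ (v : V) (w : G.Walk v v), w.IsHamiltonianCycle ∧
      ∀ e ∈ w.edges, ∃ p ∈ cp l, e = s(p.1, p.2) := by
  have hnd := hl.1
  have hlen : l.length = Fintype.card V := by
    rw [← List.toFinset_card_of_nodup hnd]
    have : l.toFinset = Finset.univ := by
      ext v
      simp [hl.2 v]
    rw [this, Finset.card_univ]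
  have hne : l ≠ [] := by
    intro h
    rw [h, List.length_nil] at hlen
    omega
  have hopen : ∀ p : V × V, p ∈ cp l ↔ p ∈ l.zip l.tail ∨ p = (l.getLast hne, l.head hne) :=
    mem_cp_open (List.head?_eq_some_head hne) (List.getLast?_eq_some_getLast hne)
  have hch : l.IsChain G.Adj := by
    rw [List.isChain_iff_getElem]
    intro i hi
    have h1 : (l[i], l[i + 1]) ∈ l.zip l.tail := by
      rw [List.mem_iff_getElem]
      refine ⟨i, by rw [List.length_zip, List.length_tail]; omega, ?_⟩
      rw [List.getElem_zip]
      refine Prod.ext rfl ?_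
      exact List.getElem_tail _
    exact hadj _ ((hopen _).2 (Or.inl h1))
  obtain ⟨p, hp⟩ : ∃ p : G.Walk (l.head hne) (l.getLast hne), p.support = l :=
    ⟨SimpleGraph.Walk.ofSupport l hne hch, SimpleGraph.Walk.support_ofSupport hne hch⟩
  have hpath : p.IsPath := by
    rw [SimpleGraph.Walk.isPath_def, hp]
    exact hnd
  have hpl : p.length + 1 = l.length := by
    have h4 := SimpleGraph.Walk.length_support p
    rw [hp] at h4
    exact h4.symm
  have hcl : (l.getLast hne, l.head hne) ∈ cp l := (hopen _).2 (Or.inr rfl)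
  have hadj' : G.Adj (l.getLast hne) (l.head hne) := hadj _ hcl
  have hcyc : (SimpleGraph.Walk.cons hadj' p).IsCycle := by
    rw [SimpleGraph.Walk.cons_isCycle_iff]
    refine ⟨hpath, fun hmem => ?_⟩
    rw [Sym2.eq_swap] at hmem
    have := hpath.length_eq_one_of_mem_edges hmem
    omega
  refine ⟨_, SimpleGraph.Walk.cons hadj' p, ?_, ?_⟩
  · rw [SimpleGraph.Walk.isHamiltonianCycle_iff_isCycle_and_length_eq]
    refine ⟨hcyc, ?_⟩
    rw [SimpleGraph.Walk.length_cons]
    omega
  · intro e he
    rw [SimpleGraph.Walk.edges_cons, List.mem_cons] at he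
    rcases he with rfl | he
    · exact ⟨_, hcl, rfl⟩
    · rw [SimpleGraph.Walk.edges_eq_zipWith_support, hp, List.mem_iff_getElem] at he
      obtain ⟨i, hi, rfl⟩ := he
      rw [List.getElem_zipWith]
      have hi' := hi
      rw [List.length_zipWith] at hi'
      have h1 : (l[i]'(by omega), l.tail[i]'(by omega)) ∈ l.zip l.tail := by
        rw [List.mem_iff_getElem]
        exact ⟨i, by rw [List.length_zip]; exact hi', by rw [List.getElem_zip]⟩
      exact ⟨_, (hopen _).2 (Or.inl h1), rfl⟩

end Pool.Agent.HCD
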