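import Pool.Agent.Lib.HCD.A3
import Pool.Agent.Lib.HCD.A4
import Pool.Agent.Lib.HCD.B10c
import Pool.Agent.Lib.HCD.C6
import Pool.Agent.Lib.HCD.F1
import Pool.Agent.Lib.HCD.T11

/-!
# F2: the final theorem

PROOF of `pack_frac`.  WLOG ε ≤ 1/4 (replace ε by min ε (1/4); (1-ε) r ≤ ..: N with 2N ≤ (1-ε) r + 2 for the bigger ε is fine for the smaller).  κ = min of the κ of caseB, caseC (ExtB, ExtC are monotone in κ), γ
from `trichotomy`, then `caseA`.
PROOF of `dirac_walks`.  G on Fin n, r-factor H (r even): x u v = 1 if H.Adj: FF G x r.  If n ≤ 4r: N = ⌈(1-ε) r/2⌉₊ from pack_frac.  Otherwise use the fractional n/4-factor (`quarter_factor`), N = ⌈(1-ε) n/8⌉₊, (1-ε) r/2 ≤ (1-ε) n/8 ≤ N.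
(ε ≥ 1: N = 0.)  k = N; from Pack to walks: `walk_of_list` (the edges of the walk are among the s(p.1,p.2), p ∈ cp (l i)).
-/

set_option autoImplicit false

noncomputable section

open scoped Classical
open Finset

namespace Pool.Agent.HCD

private theorem extB_mono {V : Type} [Fintype V] {G : SimpleGraph V} {κ κ' : ℝ} (h : κ ≤ κ')
    (hE : ExtB G κ) : ExtB G κ' := by
  obtain ⟨A, h1, h2, h3⟩ := hE
  have hn : (0 : ℝ) ≤ Fintype.card V := Nat.cast_nonneg _
  refine ⟨A, ?_, ?_, ?_⟩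
  · exact (mul_le_mul_of_nonneg_right (by linarith) hn).trans h1
  · exact (mul_le_mul_of_nonneg_right (by linarith) hn).trans h2
  · exact h3.trans (mul_le_mul_of_nonneg_right h (by positivity))

private theorem extC_mono {V : Type} [Fintype V] {G : SimpleGraph V} {κ κ' : ℝ} (h : κ ≤ κ')
    (hE : ExtC G κ) : ExtC G κ' := by
  obtain ⟨A, h1, h3⟩ := hE
  have hn : (0 : ℝ) ≤ Fintype.card V := Nat.cast_nonneg _
  refine ⟨A, ?_, ?_⟩
  · exact (mul_le_mul_of_nonneg_right (by linarith) hn).trans h1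
  · exact h3.trans (mul_le_mul_of_nonneg_right h (by positivity))

theorem pack_frac (ε : ℝ) (hε : 0 < ε) : ∃ n0 : ℕ, ∀ (V : Type) [Fintype V]
    (G : SimpleGraph V) (x : V → V → ℝ) (r : ℝ) (N : ℕ), n0 ≤ Fintype.card V → Dirac G →
    FF G x r → (Fintype.card V : ℝ) ≤ 4 * r → (2 * N : ℝ) ≤ (1 - ε) * r + 2 → Pack G N := by
  have he0 : 0 < min ε (1 / 4) := lt_min hε (by norm_num)
  have he1 : min ε (1 / 4) ≤ 1 / 4 := min_le_right _ _
  obtain ⟨κB, hκB, nB, hB⟩ := caseB (min ε (1 / 4)) he0 he1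
  obtain ⟨κC, hκC, nC, hC⟩ := caseC (min ε (1 / 4)) he0 he1
  obtain ⟨γ, hγ, hγ2, hT⟩ := trichotomy (min κB κC) (lt_min hκB hκC)
  obtain ⟨nA, hA⟩ := caseA (min ε (1 / 4)) γ he0 he1 hγ hγ2
  refine ⟨max nA (max nB nC), fun V _ G x r N hn hD hF h4 hN => ?_⟩
  have hr : 0 ≤ r := by
    have h1 : (0 : ℝ) ≤ Fintype.card V := Nat.cast_nonneg _
    linarith
  have hN' : (2 * N : ℝ) ≤ (1 - min ε (1 / 4)) * r + 2 := by
    have h1 : (1 - ε) * r ≤ (1 - min ε (1 / 4)) * r :=
      mul_le_mul_of_nonneg_right (by linarith [min_le_left ε (1 / 4)]) hr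
    linarith
  have hnA : nA ≤ Fintype.card V := (le_max_left _ _).trans hn
  have hnB : nB ≤ Fintype.card V := ((le_max_left _ _).trans (le_max_right _ _)).trans hn
  have hnC : nC ≤ Fintype.card V := ((le_max_right _ _).trans (le_max_right _ _)).trans hn
  rcases hT V G hD with h | h | h
  · exact hA V G x r N hnA hD hF h4 h hN'
  · exact hB V G x r N hnB hD hF h4 (extB_mono (min_le_left _ _) h) hN'
  · exact hC V G x r N hnC hD hF h4 (extC_mono (min_le_right _ _) h) hN'

theorem dirac_walks (ε : ℝ) (hε : 0 < ε) : ∃ n0 : ℕ, ∀ n : ℕ, n0 ≤ n →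
    ∀ G : SimpleGraph (Fin n), (∀ v, n ≤ 2 * G.degree v) → ∀ r : ℕ, Even r →
      (∃ H : SimpleGraph (Fin n), H ≤ G ∧ H.IsRegularOfDegree r) →
      ∃ k : ℕ, (1 - ε) * ((r : ℝ) / 2) ≤ k ∧ ∃ p : Fin k → Σ v : Fin n, G.Walk v v,
        (∀ i, (p i).2.IsHamiltonianCycle) ∧
        ∀ i j, i ≠ j → ∀ e ∈ (p i).2.edges, e ∉ (p j).2.edges := by
  by_cases hε1 : 1 ≤ ε
  · refine ⟨0, fun n _ G _ r _ _ => ⟨0, ?_, fun i => i.elim0, fun i => i.elim0,
      fun i => i.elim0⟩⟩
    have h1 : (0 : ℝ) ≤ (r : ℝ) / 2 := by positivity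
    rw [Nat.cast_zero]
    nlinarith
  · rw [not_le] at hε1
    obtain ⟨n0, hP⟩ := pack_frac ε hε
    refine ⟨max n0 3, fun n hn G hG r _ hH => ?_⟩
    have hn0 : n0 ≤ n := (le_max_left _ _).trans hn
    have hn3 : 3 ≤ n := (le_max_right _ _).trans hn
    have hcard : Fintype.card (Fin n) = n := Fintype.card_fin n
    have hdg : ∀ (K : SimpleGraph (Fin n)) (v : Fin n), dg K v univ = K.degree v := by
      intro K v
      unfold dg
      rw [← SimpleGraph.card_neighborFinset_eq_degree, SimpleGraph.neighborFinset_eq_filter]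
    have hD : Dirac G := by
      intro v
      rw [hcard, hdg]
      exact hG v
    have hpack : ∃ k : ℕ, (1 - ε) * ((r : ℝ) / 2) ≤ k ∧ Pack G k := by
      obtain ⟨H, hHG, hHr⟩ := hH
      by_cases h4 : (n : ℝ) ≤ 4 * r
      · have hx0 : 0 ≤ (1 - ε) * ((r : ℝ) / 2) := mul_nonneg (by linarith) (by positivity)
        refine ⟨⌈(1 - ε) * ((r : ℝ) / 2)⌉₊, Nat.le_ceil _, ?_⟩
        have hF : FF G (fun u v => if H.Adj u v then 1 else 0) (r : ℝ) := by
          refine ⟨⟨?_, ?_, ?_⟩, ?_, ?_⟩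
          · intro u v
            simp only [H.adj_comm u v]
          · intro u v
            split_ifs <;> norm_num
          · intro u v huv
            rw [if_neg fun h => huv (hHG h)]
          · intro u v
            dsimp only
            split_ifs <;> norm_num
          · intro v
            rw [Finset.sum_boole]
            have h1 := hHr v
            rw [← hdg H v] at h1
            unfold dg at h1
            rw [h1]
        refine hP (Fin n) G _ r _ (by rw [hcard]; exact hn0) hD hF (by rw [hcard]; exact h4) ?_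
        have h1 := (Nat.ceil_lt_add_one hx0).le
        linarith
      · rw [not_le] at h4
        obtain ⟨x, hx⟩ := quarter_factor G hD
        rw [hcard] at hx
        have hx0 : 0 ≤ (1 - ε) * ((n : ℝ) / 8) := mul_nonneg (by linarith) (by positivity)
        refine ⟨⌈(1 - ε) * ((n : ℝ) / 8)⌉₊, ?_, ?_⟩
        · refine le_trans ?_ (Nat.le_ceil _)
          exact mul_le_mul_of_nonneg_left (by linarith) (by linarith)
        · refine hP (Fin n) G _ _ _ (by rw [hcard]; exact hn0) hD hx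
            (by rw [hcard]; linarith) ?_
          have h1 := (Nat.ceil_lt_add_one hx0).le
          linarith
    obtain ⟨k, hk, l, hl1, hl2, hl3⟩ := hpack
    have hw := fun i => walk_of_list G (l i) (hl1 i) (by rw [hcard]; exact hn3) (hl2 i)
    choose v w hw1 hw2 using hw
    refine ⟨k, hk, fun i => ⟨v i, w i⟩, hw1, ?_⟩
    intro i j hij e hei hej
    obtain ⟨p, hp, hep⟩ := hw2 i e hei
    obtain ⟨q, hq, heq⟩ := hw2 j e hej
    exact hl3 i j hij p hp q hq (hep.symm.trans heq)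

end Pool.Agent.HCD
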