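import Pool.Agent.Lib.HCD.T1
import Pool.Agent.Lib.HCD.T2

/-!
# G1: stage 1, random labels of the edges

PROOF.  `bd_exists` with I = Sym2 V (or {e : Sym2 V // ¬ e.IsDiag}), R = Fin 4 (0 = none, 1 = R1, 2 = R2, 3 = H); weights of e = s(u,v):
if G.Adj u v then (1 - 2α - y u v, α, α, y u v) else (1, 0, 0, 0) (well defined by symmetry of y: use `Sym2.lift` or the ordered
pair `e.out`).  K = V ⊕ (Bool × V × V).  With m = card V:
 f (inl v) ω = m * #{u | ω s(v,u) = 3, u ≠ v}: c = m if v ∈ e else 0; ∑ c^2 ≤ m * m^2; E = m * ∑ u, y v u (`EE_one`, `EE_sum`).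
 f (inr (σ,x,z)) ω = if x = z then 0 else #{(q,q') | ω s(x,q) = σ, ω s(z,q') = σ, ω s(q,q') = 3, G.Adj x q, G.Adj z q', G.Adj q q',
   q ≠ z, q' ≠ x}: the three edges are distinct, so E = α^2 * esum G y x z (`EE_three`); c e = m if x ∈ e or z ∈ e (then only one of q, q' is
   free), else 2; ∑ c^2 ≤ 2m * m^2 + (m^2) * 4 ≤ 4 m^3 if m ≥ 4 (else the hypothesis hm fails, or treat: it suffices that c e ≤ m ..).
 S = 6 m^3 (generous), t = δ m^2: t^2/(4S) = δ^2 m / 24.
H, R1, R2 = graphs of the labels 3, 1, 2 (all edges of positive label are edges of G, because a non-edge has label 0: weight of the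
other labels is 0 and `bd_exists` gives positive weights).
-/

set_option autoImplicit false
set_option linter.unusedSectionVars false

noncomputable section

open scoped Classical
open Finset

namespace Pool.Agent.HCD

private def ind (b : Prop) : ℝ := if b then 1 else 0

private theorem ind_nonneg (b : Prop) : 0 ≤ ind b := by unfold ind; split_ifs <;> norm_num

private theorem ind_le_one (b : Prop) : ind b ≤ 1 := by unfold ind; split_ifs <;> norm_num

private theorem ind_true {b : Prop} (h : b) : ind b = 1 := by unfold ind; rw [if_pos h]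

private theorem ind_false {b : Prop} (h : ¬ b) : ind b = 0 := by unfold ind; rw [if_neg h]

variable {V : Type} [Fintype V]

private def NN (v : V) (e : Sym2 V) : ℝ := ∑ u, ind (s(v, u) = e)

private def MM (e : Sym2 V) : ℝ := ∑ q : V, ∑ q' : V, ind (s(q, q') = e)

private theorem NN_nonneg (v : V) (e : Sym2 V) : 0 ≤ NN v e :=
  Finset.sum_nonneg (fun _ _ => ind_nonneg _)

private theorem NN_le_one (v : V) (e : Sym2 V) : NN v e ≤ 1 := by
  unfold NN
  by_cases h : ∃ u₀, s(v, u₀) = e
  · obtain ⟨u₀, h₀⟩ := h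
    rw [Finset.sum_eq_single u₀]
    · exact ind_le_one _
    · intro b _ hb
      refine ind_false (fun hh => hb ?_)
      exact Sym2.congr_right.1 (hh.trans h₀.symm)
    · intro h
      exact absurd (Finset.mem_univ _) h
  · push Not at h
    rw [Finset.sum_eq_zero (fun u _ => ind_false (h u))]
    norm_num

private theorem sum_NN (v : V) : ∑ e, NN v e = (Fintype.card V : ℝ) := by
  unfold NN
  rw [Finset.sum_comm]
  have : ∀ u : V, ∑ e : Sym2 V, ind (s(v, u) = e) = 1 := by
    intro u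
    rw [Finset.sum_eq_single s(v, u)]
    · exact ind_true rfl
    · intro b _ hb
      exact ind_false (fun h => hb h.symm)
    · intro h
      exact absurd (Finset.mem_univ _) h
  simp [this]

private theorem MM_nonneg (e : Sym2 V) : 0 ≤ MM e :=
  Finset.sum_nonneg (fun _ _ => Finset.sum_nonneg (fun _ _ => ind_nonneg _))

private theorem MM_le_two (e : Sym2 V) : MM e ≤ 2 := by
  induction e using Sym2.ind with
  | _ a b =>
    unfold MM
    have h1 : ∀ q q' : V, ind (s(q, q') = s(a, b)) ≤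
        (if q = a then (if q' = b then (1 : ℝ) else 0) else 0) +
        (if q = b then (if q' = a then (1 : ℝ) else 0) else 0) := by
      intro q q'
      unfold ind
      by_cases h : s(q, q') = s(a, b)
      · rw [if_pos h]
        rw [Sym2.eq_iff] at h
        rcases h with ⟨h1, h2⟩ | ⟨h1, h2⟩
        · rw [if_pos h1, if_pos h2]
          split_ifs <;> norm_num
        · rw [if_pos h1, if_pos h2]
          split_ifs <;> norm_num
      · rw [if_neg h]
        split_ifs <;> norm_num
    calc ∑ q : V, ∑ q' : V, ind (s(q, q') = s(a, b))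
        ≤ ∑ q : V, ∑ q' : V, ((if q = a then (if q' = b then (1 : ℝ) else 0) else 0) +
        (if q = b then (if q' = a then (1 : ℝ) else 0) else 0)) :=
          Finset.sum_le_sum (fun q _ => Finset.sum_le_sum (fun q' _ => h1 q q'))
      _ = 2 := by
          simp only [Finset.sum_add_distrib]
          have e1 : ∀ c d : V, ∑ q : V, ∑ q' : V, (if q = c then (if q' = d then (1 : ℝ) else 0)
              else 0) = 1 := by
            intro c d
            rw [Finset.sum_eq_single c]
            · simp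
            · intro q _ hq
              simp [hq]
            · simp
          rw [e1, e1]
          norm_num

private theorem sum_MM : ∑ e : Sym2 V, MM e = (Fintype.card V : ℝ) ^ 2 := by
  unfold MM
  rw [Finset.sum_comm]
  have : ∀ q : V, ∑ e : Sym2 V, ∑ q' : V, ind (s(q, q') = e) = (Fintype.card V : ℝ) :=
    fun q => sum_NN q
  simp only [this]
  simp [sq]

private def lab {R : Type} (G : SimpleGraph V) (ω : Sym2 V → R) (r : R) : SimpleGraph V where
  Adj u v := G.Adj u v ∧ ω s(u, v) = r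
  symm := ⟨fun u v h => ⟨h.1.symm, by rw [Sym2.eq_swap]; exact h.2⟩⟩
  loopless := ⟨fun u h => G.loopless.irrefl u h.1⟩

private def F1 (G : SimpleGraph V) (v : V) (ω : Sym2 V → Fin 4) : ℝ :=
  (Fintype.card V : ℝ) * ∑ u, if G.Adj v u then ind (ω s(v, u) = 3) else 0

private def F2 (G : SimpleGraph V) (σ : Fin 4) (x z : V) (ω : Sym2 V → Fin 4) : ℝ :=
  ∑ q, ∑ q', if (G.Adj x q ∧ G.Adj z q' ∧ G.Adj q q' ∧ q ≠ z ∧ q' ≠ x) then
    ind (ω s(x, q) = σ) * ind (ω s(z, q') = σ) * ind (ω s(q, q') = 3) else 0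

private def ew (G : SimpleGraph V) (y : V → V → ℝ) (hs : ∀ u v, y u v = y v u) (α : ℝ)
    (e : Sym2 V) : Fin 4 → ℝ :=
  if e ∈ G.edgeSet then ![1 - 2 * α - Sym2.lift ⟨y, hs⟩ e, α, α, Sym2.lift ⟨y, hs⟩ e]
  else ![1, 0, 0, 0]

private theorem ew_nonneg (G : SimpleGraph V) (y : V → V → ℝ) (hy : WG G y) (α : ℝ) (hα : 0 < α)
    (hy1 : ∀ u v, y u v ≤ 1 - 2 * α) (e : Sym2 V) (r : Fin 4) : 0 ≤ ew G y hy.symm α e r := by
  induction e using Sym2.ind with
  | _ a b =>
    unfold ew
    have h1 := hy1 a b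
    have h2 := hy.nonneg a b
    split_ifs
    · fin_cases r
      · simp only [Sym2.lift_mk]
        change (0 : ℝ) ≤ 1 - 2 * α - y a b
        linarith
      · exact hα.le
      · exact hα.le
      · change (0 : ℝ) ≤ y a b
        exact h2
    · fin_cases r <;> simp

private theorem ew_sum (G : SimpleGraph V) (y : V → V → ℝ) (hs : ∀ u v, y u v = y v u) (α : ℝ)
    (e : Sym2 V) : ∑ r, ew G y hs α e r = 1 := by
  rw [Fin.sum_univ_four]
  unfold ew
  split_ifs
  · simp
    ring
  · simp

private theorem ew_three (G : SimpleGraph V) (y : V → V → ℝ) (hs : ∀ u v, y u v = y v u) (α : ℝ)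
    (u v : V) (h : G.Adj u v) : ew G y hs α s(u, v) 3 = y u v := by
  unfold ew
  rw [if_pos (by simpa using h)]
  rfl

private theorem ew_one (G : SimpleGraph V) (y : V → V → ℝ) (hs : ∀ u v, y u v = y v u) (α : ℝ)
    (u v : V) (h : G.Adj u v) : ew G y hs α s(u, v) 1 = α := by
  unfold ew
  rw [if_pos (by simpa using h)]
  rfl

private theorem ew_two (G : SimpleGraph V) (y : V → V → ℝ) (hs : ∀ u v, y u v = y v u) (α : ℝ)
    (u v : V) (h : G.Adj u v) : ew G y hs α s(u, v) 2 = α := by
  unfold ew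
  rw [if_pos (by simpa using h)]
  rfl

private theorem sum_ind (w : Fin 4 → ℝ) (σ : Fin 4) : ∑ r, w r * ind (r = σ) = w σ := by
  rw [Finset.sum_eq_single σ]
  · rw [ind_true rfl, mul_one]
  · intro b _ hb
    rw [ind_false hb, mul_zero]
  · simp

private theorem EE_zero {I R : Type} [Fintype I] [Fintype R] (w : I → R → ℝ) :
    EE w (fun _ => 0) = 0 := by
  unfold EE
  simp

private theorem EE_F1 (G : SimpleGraph V) (y : V → V → ℝ) (hy : WG G y) (α : ℝ) (v : V) :
    EE (ew G y hy.symm α) (F1 G v) = (Fintype.card V : ℝ) * ∑ u, y v u := by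
  unfold F1
  rw [EE_mul, EE_sum]
  congr 1
  refine Finset.sum_congr rfl (fun u _ => ?_)
  by_cases h : G.Adj v u
  · simp only [if_pos h]
    rw [EE_one _ (ew_sum G y hy.symm α) s(v, u) (fun r => ind (r = 3)), sum_ind, ew_three _ _ _ _ _ _ h]
  · simp only [if_neg h]
    rw [EE_zero, hy.zero v u h]

private theorem EE_F2 (G : SimpleGraph V) (y : V → V → ℝ) (hy : WG G y) (α : ℝ) (x z : V)
    (hxz : x ≠ z) (σ : Fin 4) (hσ : σ = 1 ∨ σ = 2) :
    EE (ew G y hy.symm α) (F2 G σ x z) = α ^ 2 * esum G y x z := by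
  have hw : ∀ u v, G.Adj u v → ew G y hy.symm α s(u, v) σ = α := by
    intro u v h
    rcases hσ with rfl | rfl
    · exact ew_one _ _ _ _ _ _ h
    · exact ew_two _ _ _ _ _ _ h
  unfold F2 esum
  rw [EE_sum, Finset.mul_sum]
  refine Finset.sum_congr rfl (fun q _ => ?_)
  rw [EE_sum, Finset.mul_sum]
  refine Finset.sum_congr rfl (fun q' _ => ?_)
  by_cases h : G.Adj x q ∧ G.Adj z q' ∧ G.Adj q q' ∧ q ≠ z ∧ q' ≠ x
  · obtain ⟨h1, h2, h3, h4, h5⟩ := h
    simp only [if_pos (show G.Adj x q ∧ G.Adj z q' ∧ G.Adj q q' ∧ q ≠ z ∧ q' ≠ x from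
      ⟨h1, h2, h3, h4, h5⟩)]
    rw [if_pos (show G.Adj x q ∧ G.Adj z q' ∧ q ≠ z ∧ q' ≠ x from ⟨h1, h2, h4, h5⟩)]
    have d1 : s(x, q) ≠ s(z, q') := by
      intro h
      rw [Sym2.eq_iff] at h
      rcases h with ⟨h, _⟩ | ⟨h, _⟩
      · exact hxz h
      · exact h5 h.symm
    have d2 : s(x, q) ≠ s(q, q') := by
      intro h
      rw [Sym2.eq_iff] at h
      rcases h with ⟨h, _⟩ | ⟨h, _⟩
      · exact h1.ne h
      · exact h5 h.symm
    have d3 : s(z, q') ≠ s(q, q') := by
      intro h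
      rw [Sym2.eq_iff] at h
      rcases h with ⟨h, _⟩ | ⟨h, _⟩
      · exact h4 h.symm
      · exact h2.ne h
    rw [EE_three _ (ew_sum G y hy.symm α) s(x, q) s(z, q') s(q, q') d1 d2 d3
      (fun r => ind (r = σ)) (fun r => ind (r = σ)) (fun r => ind (r = 3)), sum_ind, sum_ind,
      sum_ind, hw _ _ h1, hw _ _ h2, ew_three _ _ _ _ _ _ h3]
    ring
  · simp only [if_neg h]
    rw [EE_zero]
    by_cases h' : G.Adj x q ∧ G.Adj z q' ∧ q ≠ z ∧ q' ≠ x
    · rw [if_pos h']
      have : ¬ G.Adj q q' := fun h3 => h ⟨h'.1, h'.2.1, h3, h'.2.2.1, h'.2.2.2⟩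
      rw [hy.zero q q' this, mul_zero]
    · rw [if_neg h', mul_zero]

private theorem bd_F1 (G : SimpleGraph V) (v : V) (e : Sym2 V) (ω ω' : Sym2 V → Fin 4)
    (h : ∀ j, j ≠ e → ω j = ω' j) : |F1 G v ω - F1 G v ω'| ≤ (Fintype.card V : ℝ) * NN v e := by
  unfold F1 NN
  rw [← mul_sub, abs_mul, abs_of_nonneg (Nat.cast_nonneg _ : (0 : ℝ) ≤ (Fintype.card V : ℝ)),
    ← Finset.sum_sub_distrib]
  refine mul_le_mul_of_nonneg_left ((Finset.abs_sum_le_sum_abs _ _).trans
    (Finset.sum_le_sum (fun u _ => ?_))) (Nat.cast_nonneg _)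
  by_cases he : s(v, u) = e
  · rw [ind_true he]
    split_ifs
    · rw [abs_le]
      have h1 := ind_nonneg (ω s(v, u) = 3)
      have h2 := ind_nonneg (ω' s(v, u) = 3)
      have h3 := ind_le_one (ω s(v, u) = 3)
      have h4 := ind_le_one (ω' s(v, u) = 3)
      constructor <;> linarith
    · simp
  · rw [ind_false he, h _ he]
    simp

private theorem bd_F2 (G : SimpleGraph V) (σ : Fin 4) (x z : V) (e : Sym2 V)
    (ω ω' : Sym2 V → Fin 4) (h : ∀ j, j ≠ e → ω j = ω' j) :
    |F2 G σ x z ω - F2 G σ x z ω'| ≤ (Fintype.card V : ℝ) * (NN x e + NN z e) + MM e := by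
  have key : ∀ q q' : V,
      |(if (G.Adj x q ∧ G.Adj z q' ∧ G.Adj q q' ∧ q ≠ z ∧ q' ≠ x) then
        ind (ω s(x, q) = σ) * ind (ω s(z, q') = σ) * ind (ω s(q, q') = 3) else 0) -
      (if (G.Adj x q ∧ G.Adj z q' ∧ G.Adj q q' ∧ q ≠ z ∧ q' ≠ x) then
        ind (ω' s(x, q) = σ) * ind (ω' s(z, q') = σ) * ind (ω' s(q, q') = 3) else 0)| ≤
      ind (s(x, q) = e) + ind (s(z, q') = e) + ind (s(q, q') = e) := by
    intro q q'
    have p1 := ind_nonneg (s(x, q) = e)
    have p2 := ind_nonneg (s(z, q') = e)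
    have p3 := ind_nonneg (s(q, q') = e)
    have bnd : ∀ a b c : Prop, 0 ≤ ind a * ind b * ind c ∧ ind a * ind b * ind c ≤ 1 := by
      intro a b c
      constructor
      · exact mul_nonneg (mul_nonneg (ind_nonneg _) (ind_nonneg _)) (ind_nonneg _)
      · exact mul_le_one₀ (mul_le_one₀ (ind_le_one _) (ind_nonneg _) (ind_le_one _)) (ind_nonneg _)
          (ind_le_one _)
    by_cases hC : (G.Adj x q ∧ G.Adj z q' ∧ G.Adj q q' ∧ q ≠ z ∧ q' ≠ x)
    · rw [if_pos hC, if_pos hC]
      by_cases h1 : s(x, q) = e ∨ s(z, q') = e ∨ s(q, q') = e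
      · have hge : 1 ≤ ind (s(x, q) = e) + ind (s(z, q') = e) + ind (s(q, q') = e) := by
          rcases h1 with h1 | h1 | h1
          · rw [ind_true h1]; linarith
          · rw [ind_true h1]; linarith
          · rw [ind_true h1]; linarith
        have b1 := bnd (ω s(x, q) = σ) (ω s(z, q') = σ) (ω s(q, q') = 3)
        have b2 := bnd (ω' s(x, q) = σ) (ω' s(z, q') = σ) (ω' s(q, q') = 3)
        refine le_trans ?_ hge
        rw [abs_le]
        constructor <;> linarith [b1.1, b1.2, b2.1, b2.2]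
      · push Not at h1
        rw [h _ h1.1, h _ h1.2.1, h _ h1.2.2, sub_self, abs_zero]
        linarith
    · rw [if_neg hC, if_neg hC, sub_self, abs_zero]
      linarith
  have e1 : (Fintype.card V : ℝ) * (NN x e + NN z e) + MM e =
      ∑ q : V, ∑ q' : V, (ind (s(x, q) = e) + ind (s(z, q') = e) + ind (s(q, q') = e)) := by
    unfold NN MM
    simp only [Finset.sum_add_distrib, Finset.sum_const, Finset.card_univ, nsmul_eq_mul,
      Finset.mul_sum, mul_add]
  rw [e1]
  unfold F2
  rw [← Finset.sum_sub_distrib]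
  refine (Finset.abs_sum_le_sum_abs _ _).trans (Finset.sum_le_sum (fun q _ => ?_))
  rw [← Finset.sum_sub_distrib]
  exact (Finset.abs_sum_le_sum_abs _ _).trans (Finset.sum_le_sum (fun q' _ => key q q'))

private theorem dg_lab (G : SimpleGraph V) (ω : Sym2 V → Fin 4) (v : V) :
    (Fintype.card V : ℝ) * (dg (lab G ω 3) v univ : ℝ) = F1 G v ω := by
  unfold F1 dg
  congr 1
  rw [Finset.card_filter]
  push_cast
  refine Finset.sum_congr rfl (fun u _ => ?_)
  by_cases h : G.Adj v u
  · rw [if_pos h]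
    by_cases h2 : ω s(v, u) = 3
    · rw [ind_true h2, if_pos (show (lab G ω 3).Adj v u from ⟨h, h2⟩)]
    · rw [ind_false h2, if_neg (fun h3 : (lab G ω 3).Adj v u => h2 h3.2)]
  · rw [if_neg h, if_neg (fun h3 : (lab G ω 3).Adj v u => h h3.1)]

private theorem tset_lab (G : SimpleGraph V) (ω : Sym2 V → Fin 4) (σ : Fin 4) (x z : V) :
    ((tset (lab G ω 3) (lab G ω σ) x z).card : ℝ) = F2 G σ x z ω := by
  unfold F2 tset
  rw [Finset.card_filter]
  push_cast
  rw [Fintype.sum_prod_type]
  refine Finset.sum_congr rfl (fun q _ => Finset.sum_congr rfl (fun q' _ => ?_))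
  by_cases h : G.Adj x q ∧ G.Adj z q' ∧ G.Adj q q' ∧ q ≠ z ∧ q' ≠ x
  · rw [if_pos h]
    obtain ⟨h1, h2, h3, h4, h5⟩ := h
    by_cases k1 : ω s(x, q) = σ
    · by_cases k2 : ω s(z, q') = σ
      · by_cases k3 : ω s(q, q') = 3
        · rw [ind_true k1, ind_true k2, ind_true k3, if_pos]
          · norm_num
          · exact ⟨⟨h1, k1⟩, ⟨h2, k2⟩, ⟨h3, k3⟩, h4, h5⟩
        · rw [ind_false k3, if_neg (fun hh => k3 hh.2.2.1.2), mul_zero]
      · rw [ind_false k2, if_neg (fun hh => k2 hh.2.1.2), mul_zero, zero_mul]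
    · rw [ind_false k1, if_neg (fun hh => k1 hh.1.2), zero_mul, zero_mul]
  · rw [if_neg h, if_neg]
    intro hh
    exact h ⟨hh.1.1, hh.2.1.1, hh.2.2.1.1, hh.2.2.2.1, hh.2.2.2.2⟩

private theorem lab_disj (G : SimpleGraph V) (ω : Sym2 V → Fin 4) (a b : Fin 4) (hab : a ≠ b) :
    Disjoint (lab G ω a) (lab G ω b) := by
  rw [SimpleGraph.disjoint_left]
  intro u v h1 h2
  exact hab (h1.2.symm.trans h2.2)

private theorem lab_le (G : SimpleGraph V) (ω : Sym2 V → Fin 4) (a : Fin 4) :
    lab G ω a ≤ G := fun _ _ h => h.1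

theorem stage1 {V : Type} [Fintype V] (G : SimpleGraph V) (y : V → V → ℝ) (hy : WG G y)
    (α δ : ℝ) (hα : 0 < α) (hα' : α ≤ 1 / 8) (hδ : 0 < δ) (hy1 : ∀ u v, y u v ≤ 1 - 2 * α)
    (h1 : 1 ≤ Fintype.card V)
    (hm : 3 * (Fintype.card V : ℝ) ^ 2 * Real.exp (-(δ ^ 2 * Fintype.card V / 24)) < 1 / 2) :
    ∃ H R1 R2 : SimpleGraph V, H ≤ G ∧ R1 ≤ G ∧ R2 ≤ G ∧ Disjoint H R1 ∧ Disjoint H R2 ∧
      Disjoint R1 R2 ∧
      (∀ v, |(dg H v univ : ℝ) - ∑ u, y v u| ≤ δ * Fintype.card V) ∧
      (∀ x z, x ≠ z → α ^ 2 * esum G y x z - δ * (Fintype.card V : ℝ) ^ 2 ≤ (tset H R1 x z).card) ∧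
      (∀ x z, x ≠ z → α ^ 2 * esum G y x z - δ * (Fintype.card V : ℝ) ^ 2 ≤ (tset H R2 x z).card)
    := by
  have hy1' : ∀ u v, y u v ≤ 1 := fun u v => (hy1 u v).trans (by linarith)
  have hm1 : (1 : ℝ) ≤ (Fintype.card V : ℝ) := by exact_mod_cast h1
  by_cases hδ1 : 1 ≤ δ
  · -- trivial case
    have hes : ∀ x z, α ^ 2 * esum G y x z ≤ (Fintype.card V : ℝ) ^ 2 := by
      intro x z
      have e1 : esum G y x z ≤ (Fintype.card V : ℝ) ^ 2 := by
        unfold esum
        calc ∑ q, ∑ q', (if G.Adj x q ∧ G.Adj z q' ∧ q ≠ z ∧ q' ≠ x then y q q' else 0)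
            ≤ ∑ q : V, ∑ q' : V, (1 : ℝ) := by
              refine Finset.sum_le_sum (fun q _ => Finset.sum_le_sum (fun q' _ => ?_))
              split_ifs
              · exact hy1' q q'
              · norm_num
          _ = (Fintype.card V : ℝ) ^ 2 := by simp [sq]
      have e0 : 0 ≤ esum G y x z := by
        unfold esum
        refine Finset.sum_nonneg (fun q _ => Finset.sum_nonneg (fun q' _ => ?_))
        split_ifs
        · exact hy.nonneg q q'
        · norm_num
      have e2 : α ^ 2 ≤ 1 := by nlinarith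
      nlinarith
    have hk : ∀ H R : SimpleGraph V, ∀ x z, x ≠ z →
        α ^ 2 * esum G y x z - δ * (Fintype.card V : ℝ) ^ 2 ≤ (tset H R x z).card := by
      intro H R x z _
      have := hes x z
      have h0 : (0 : ℝ) ≤ ((tset H R x z).card : ℝ) := Nat.cast_nonneg _
      have h2 : (0 : ℝ) ≤ (Fintype.card V : ℝ) ^ 2 := by positivity
      nlinarith
    refine ⟨⊥, ⊥, ⊥, bot_le, bot_le, bot_le, disjoint_bot_left, disjoint_bot_left,
      disjoint_bot_left, ?_, hk _ _, hk _ _⟩
    intro v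
    have e0 : dg (⊥ : SimpleGraph V) v univ = 0 := by
      unfold dg
      simp
    have e1 : ∑ u, y v u ≤ (Fintype.card V : ℝ) := by
      calc ∑ u, y v u ≤ ∑ _u : V, (1 : ℝ) := Finset.sum_le_sum (fun u _ => hy1' v u)
        _ = _ := by simp
    have e2 : 0 ≤ ∑ u, y v u := Finset.sum_nonneg (fun u _ => hy.nonneg v u)
    rw [e0, abs_le]
    constructor
    · push_cast
      nlinarith
    · push_cast
      nlinarith
  · push Not at hδ1
    have hm5 : (5 : ℝ) ≤ (Fintype.card V : ℝ) := by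
      by_contra hlt
      push Not at hlt
      have hlt' : (Fintype.card V : ℝ) ≤ 4 := by
        have : Fintype.card V < 5 := by exact_mod_cast hlt
        have : Fintype.card V ≤ 4 := by omega
        exact_mod_cast this
      have h2 : δ ^ 2 * (Fintype.card V : ℝ) / 24 ≤ 1 / 6 := by
        have : δ ^ 2 ≤ 1 := by nlinarith
        nlinarith
      have h3 : 1 - 1 / 6 ≤ Real.exp (-(δ ^ 2 * Fintype.card V / 24)) := by
        have := Real.add_one_le_exp (-(δ ^ 2 * (Fintype.card V : ℝ) / 24))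
        linarith
      have h4 : (1 : ℝ) ≤ (Fintype.card V : ℝ) ^ 2 := by nlinarith
      nlinarith
    set m : ℝ := (Fintype.card V : ℝ) with hmdef
    have hm0 : 0 < m := by linarith
    obtain ⟨ω, -, hω⟩ := bd_exists (I := Sym2 V) (R := Fin 4) (K := V ⊕ (Bool × V × V))
      (ew G y hy.symm α) (ew_nonneg G y hy α hα hy1) (ew_sum G y hy.symm α)
      (Sum.elim (F1 G) (fun p => F2 G (if p.1 then 1 else 2) p.2.1 p.2.2))
      (Sum.elim (fun v e => m * NN v e) (fun p e => m * (NN p.2.1 e + NN p.2.2 e) + MM e))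
      (by
        intro k e ω ω' h
        rcases k with v | ⟨b, x, z⟩
        · exact bd_F1 G v e ω ω' h
        · exact bd_F2 G _ x z e ω ω' h)
      (6 * m ^ 3) (δ * m ^ 2) (by positivity) (by positivity)
      (by
        intro k
        rcases k with v | ⟨b, x, z⟩
        · change ∑ e, (m * NN v e) ^ 2 ≤ 6 * m ^ 3
          calc ∑ e, (m * NN v e) ^ 2 ≤ ∑ e, m ^ 2 * NN v e := by
                refine Finset.sum_le_sum (fun e _ => ?_)
                have h1 := NN_nonneg v e
                have h2 := NN_le_one v e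
                rw [mul_pow]
                exact mul_le_mul_of_nonneg_left (by nlinarith) (by positivity)
            _ = m ^ 3 := by rw [← Finset.mul_sum, sum_NN]; ring
            _ ≤ 6 * m ^ 3 := by nlinarith [pow_pos hm0 3]
        · change ∑ e, (m * (NN x e + NN z e) + MM e) ^ 2 ≤ 6 * m ^ 3
          calc ∑ e, (m * (NN x e + NN z e) + MM e) ^ 2
              ≤ ∑ e, ((2 * m + 4) * (m * (NN x e + NN z e)) + 2 * MM e) := by
                refine Finset.sum_le_sum (fun e _ => ?_)
                have h1 := NN_nonneg x e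
                have h2 := NN_le_one x e
                have h3 := NN_nonneg z e
                have h4 := NN_le_one z e
                have h5 := MM_nonneg e
                have h6 := MM_le_two e
                have hs0 : 0 ≤ m * (NN x e + NN z e) := by positivity
                have hs1 : m * (NN x e + NN z e) ≤ 2 * m := by nlinarith
                nlinarith [mul_nonneg (sub_nonneg.2 hs1) hs0, mul_nonneg hs0 (sub_nonneg.2 h6),
                  mul_nonneg (sub_nonneg.2 h6) h5]
            _ = (2 * m + 4) * (m * (m + m)) + 2 * m ^ 2 := by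
                rw [Finset.sum_add_distrib, ← Finset.mul_sum, ← Finset.mul_sum, ← Finset.mul_sum,
                  Finset.sum_add_distrib, sum_NN, sum_NN, sum_MM]
            _ ≤ 6 * m ^ 3 := by nlinarith [mul_pos hm0 hm0])
      (by
        have e1 : (δ * m ^ 2) ^ 2 / (4 * (6 * m ^ 3)) = δ ^ 2 * m / 24 := by
          field_simp
          ring
        rw [e1]
        have e2 : ((Fintype.card (V ⊕ (Bool × V × V)) : ℕ) : ℝ) = m + 2 * m ^ 2 := by
          simp only [Fintype.card_sum, Fintype.card_prod, Fintype.card_bool]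
          push_cast
          rw [← hmdef]
          ring
        rw [e2]
        refine lt_of_le_of_lt ?_ hm
        refine mul_le_mul_of_nonneg_right ?_ (Real.exp_pos _).le
        nlinarith)
    refine ⟨lab G ω 3, lab G ω 1, lab G ω 2, lab_le G ω 3, lab_le G ω 1, lab_le G ω 2,
      lab_disj G ω 3 1 (by decide), lab_disj G ω 3 2 (by decide), lab_disj G ω 1 2 (by decide),
      ?_, ?_, ?_⟩
    · intro v
      have h := hω (Sum.inl v)
      simp only [Sum.elim_inl] at h
      rw [EE_F1 G y hy, ← dg_lab, ← hmdef, ← mul_sub, abs_mul, abs_of_pos hm0] at h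
      have h2 : m * |(dg (lab G ω 3) v univ : ℝ) - ∑ u, y v u| < m * (δ * m) := by
        calc _ < δ * m ^ 2 := h
          _ = _ := by ring
      exact (lt_of_mul_lt_mul_left h2 hm0.le).le
    · intro x z hxz
      have h := hω (Sum.inr (true, x, z))
      simp only [Sum.elim_inr, if_true] at h
      rw [EE_F2 G y hy α x z hxz 1 (Or.inl rfl), ← tset_lab, abs_lt] at h
      linarith [h.1]
    · intro x z hxz
      have h := hω (Sum.inr (false, x, z))
      simp only [Sum.elim_inr] at h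
      rw [if_neg (by simp), EE_F2 G y hy α x z hxz 2 (Or.inr rfl), ← tset_lab, abs_lt] at h
      linarith [h.1]

end Pool.Agent.HCD
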