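import Pool.Agent.Lib.HCD.T1
import Pool.Agent.Lib.HCD.T2

/-!
# G3: independent uniform random permutations

PROOF.  `bd_exists` with R = Equiv.Perm (Fin Δ), uniform weights 1/Δ!, f k τ = ∑ i, ∑ a, h k i a (τ i a); changing τ i changes f k by
at most c k i (both values of the i-th summand are in [0, c k i]).  Mean: E f k = ∑ i (1/Δ!) ∑ π ∑ a h k i a (π a) and for
fixed a, b the number of π with π a = b is (Δ-1)! , so it is (1/Δ) ∑ i ∑ a ∑ b h k i a b.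
-/

set_option autoImplicit false

noncomputable section

open scoped Classical
open Finset

namespace Pool.Agent.HCD

private theorem g3_sum (Δ : ℕ) (hΔ : 0 < Δ) (a : Fin Δ) (g : Fin Δ → ℝ) :
    (Δ : ℝ) * ∑ π : Equiv.Perm (Fin Δ), g (π a) = (Δ.factorial : ℝ) * ∑ b, g b := by
  have : NeZero Δ := ⟨hΔ.ne'⟩
  have h1 : ∀ c : Fin Δ, ∑ π : Equiv.Perm (Fin Δ), g (π a)
      = ∑ π : Equiv.Perm (Fin Δ), g (π a + c) := by
    intro c
    rw [← Equiv.sum_comp (Equiv.mulLeft (Equiv.addRight c : Equiv.Perm (Fin Δ)))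
      (fun π : Equiv.Perm (Fin Δ) => g (π a))]
    rfl
  calc (Δ : ℝ) * ∑ π : Equiv.Perm (Fin Δ), g (π a)
      = ∑ _c : Fin Δ, ∑ π : Equiv.Perm (Fin Δ), g (π a) := by
        rw [Finset.sum_const, Finset.card_univ, Fintype.card_fin, nsmul_eq_mul]
    _ = ∑ c : Fin Δ, ∑ π : Equiv.Perm (Fin Δ), g (π a + c) :=
        Finset.sum_congr rfl (fun c _ => h1 c)
    _ = ∑ π : Equiv.Perm (Fin Δ), ∑ c : Fin Δ, g (π a + c) := Finset.sum_comm
    _ = ∑ _π : Equiv.Perm (Fin Δ), ∑ b, g b :=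
        Finset.sum_congr rfl (fun π _ => Equiv.sum_comp (Equiv.addLeft (π a)) g)
    _ = (Δ.factorial : ℝ) * ∑ b, g b := by
        rw [Finset.sum_const, Finset.card_univ, Fintype.card_perm, Fintype.card_fin, nsmul_eq_mul]

theorem perm_mean (Δ : ℕ) (hΔ : 0 < Δ) (h : Fin Δ → Fin Δ → ℝ) :
    ∑ π : Equiv.Perm (Fin Δ), (1 / (Δ.factorial : ℝ)) * ∑ a, h a (π a) =
      (1 / (Δ : ℝ)) * ∑ a, ∑ b, h a b := by
  have hΔ' : (Δ : ℝ) ≠ 0 := by exact_mod_cast hΔ.ne'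
  have hf : (Δ.factorial : ℝ) ≠ 0 := by exact_mod_cast Δ.factorial_ne_zero
  rw [← Finset.mul_sum, Finset.sum_comm]
  have h1 : ∀ a, ∑ π : Equiv.Perm (Fin Δ), h a (π a)
      = (Δ.factorial : ℝ) / Δ * ∑ b, h a b := by
    intro a
    have := g3_sum Δ hΔ a (h a)
    field_simp
    linear_combination this
  rw [Finset.sum_congr rfl (fun a _ => h1 a), ← Finset.mul_sum]
  field_simp

theorem pal {I K : Type} [Fintype I] [Fintype K] (Δ : ℕ) (hΔ : 0 < Δ)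
    (h : K → I → Fin Δ → Fin Δ → ℝ) (h0 : ∀ k i a b, 0 ≤ h k i a b) (c : K → I → ℝ)
    (hc : ∀ k i (π : Equiv.Perm (Fin Δ)), ∑ a, h k i a (π a) ≤ c k i)
    (S t : ℝ) (hS : 0 < S) (ht : 0 < t) (hcS : ∀ k, ∑ i, c k i ^ 2 ≤ S)
    (hcard : (Fintype.card K : ℝ) * Real.exp (-(t ^ 2 / (4 * S))) < 1 / 2) :
    ∃ τ : I → Equiv.Perm (Fin Δ), ∀ k,
      |∑ i, ∑ a, h k i a (τ i a) - (1 / (Δ : ℝ)) * ∑ i, ∑ a, ∑ b, h k i a b| < t := by
  have hf : (Δ.factorial : ℝ) ≠ 0 := by exact_mod_cast Δ.factorial_ne_zero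
  have hw1 : ∀ _i : I, ∑ _π : Equiv.Perm (Fin Δ), (1 / (Δ.factorial : ℝ)) = 1 := by
    intro _
    rw [Finset.sum_const, Finset.card_univ, Fintype.card_perm, Fintype.card_fin, nsmul_eq_mul]
    field_simp
  obtain ⟨τ, _, hτ⟩ := bd_exists (I := I) (R := Equiv.Perm (Fin Δ))
    (fun _ _ => 1 / (Δ.factorial : ℝ)) (fun _ _ => by positivity) hw1
    (fun (k : K) (τ : I → Equiv.Perm (Fin Δ)) => ∑ i, ∑ a, h k i a (τ i a)) c (by
      intro k i ω ω' hω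
      rw [← Finset.sum_sub_distrib, Finset.sum_eq_single i
        (fun j _ hj => by rw [hω j hj, sub_self]) (fun hi => absurd (Finset.mem_univ i) hi)]
      have a1 := hc k i (ω i)
      have a2 := hc k i (ω' i)
      have b1 : 0 ≤ ∑ a, h k i a (ω i a) := Finset.sum_nonneg (fun a _ => h0 k i a _)
      have b2 : 0 ≤ ∑ a, h k i a (ω' i a) := Finset.sum_nonneg (fun a _ => h0 k i a _)
      rw [abs_le]
      constructor <;> linarith) S t hS ht hcS hcard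
  refine ⟨τ, fun k => ?_⟩
  have h1 := hτ k
  rw [EE_sum] at h1
  have h2 : ∀ i, EE (fun (_ : I) (_ : Equiv.Perm (Fin Δ)) => 1 / (Δ.factorial : ℝ))
      (fun τ => ∑ a, h k i a (τ i a)) = (1 / (Δ : ℝ)) * ∑ a, ∑ b, h k i a b := by
    intro i
    rw [EE_one _ hw1 i (fun π => ∑ a, h k i a (π a))]
    exact perm_mean Δ hΔ (h k i)
  rw [Finset.sum_congr rfl (fun i _ => h2 i), ← Finset.mul_sum] at h1
  exact h1

end Pool.Agent.HCD
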