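import Pool.Agent.Lib.HCD.T3
import Pool.Agent.Lib.HCD.G3

/-!
# G4: stage 3, colour classes of the pattern pairs and their random assignment to the systems

`ClsFam`: for every pattern pair (j,s) (s+1 < L) a partition of the H-edges between the parts U j s and U j (s+1) into Δ matchings.

PROOF of `exists_cls`.  `koenig_classes` for every (j,s) with E = pe pt U H j s (degrees ≤ Δ by hi1, hi2); for s + 1 ≥ L anything
(empty classes).
-/

set_option autoImplicit false

noncomputable section

open scoped Classical
open Finset

namespace Pool.Agent.HCD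

/-- the H-edges between the parts `U j s` and `U j (s+1)` -/
def pe {V P : Type} [Fintype V] {J : ℕ} (pt : V → P) (U : Fin J → ℕ → P) (H : SimpleGraph V)
    (j : Fin J) (s : ℕ) : Finset (V × V) :=
  univ.filter (fun p => pt p.1 = U j s ∧ pt p.2 = U j (s + 1) ∧ H.Adj p.1 p.2)

/-- partition of `E` into `Δ` matchings -/
structure IsCls {V : Type} (E : Finset (V × V)) {Δ : ℕ} (cls : Fin Δ → Finset (V × V)) : Prop where
  sub : ∀ c, cls c ⊆ E
  ex : ∀ e ∈ E, ∃ c, e ∈ cls c
  uniq : ∀ c c' e, e ∈ cls c → e ∈ cls c' → c = c'
  fst : ∀ c, ∀ e ∈ cls c, ∀ e' ∈ cls c, e.1 = e'.1 → e = e'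
  snd : ∀ c, ∀ e ∈ cls c, ∀ e' ∈ cls c, e.2 = e'.2 → e = e'

theorem exists_cls {V P : Type} [Fintype V] {N J : ℕ} {pt : V → P} {U : Fin J → ℕ → P}
    {L K Δ : ℕ} {H R1 R2 : SimpleGraph V} {Adm : V → V → Prop} {virt : Fin N → Finset (V × V)}
    {η δ γ : ℝ} (h : PD pt U L K Δ H R1 R2 Adm virt η δ γ) :
    ∃ cls : Fin J → ℕ → Fin Δ → Finset (V × V), ∀ j s, s + 1 < L →
      IsCls (pe pt U H j s) (cls j s) := by
  have key : ∀ (j : Fin J) (s : ℕ), ∃ c : Fin Δ → Finset (V × V), s + 1 < L →
      IsCls (pe pt U H j s) c := by
    intro j s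
    by_cases hs : s + 1 < L
    · have h1 : ∀ a, ((pe pt U H j s).filter (fun e => e.1 = a)).card ≤ Δ := by
        intro a
        by_cases ha : pt a = U j s
        · refine le_trans ?_ (h.hi1 j s hs a ha)
          apply Finset.card_le_card_of_injOn (fun e => e.2)
          · intro e he
            simp only [pe, Finset.coe_filter, Finset.mem_filter, Finset.mem_univ, true_and,
              Set.mem_ofPred_eq] at he ⊢
            obtain ⟨⟨_, h2, h3⟩, rfl⟩ := he
            exact ⟨h2, h3⟩
          · intro e he e' he' hee
            simp only [pe, Finset.coe_filter, Finset.mem_filter, Finset.mem_univ, true_and,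
              Set.mem_ofPred_eq] at he he'
            exact Prod.ext (he.2.trans he'.2.symm) hee
        · rw [Finset.card_eq_zero.2]
          · exact Nat.zero_le _
          · rw [Finset.filter_eq_empty_iff]
            rintro e he rfl
            simp only [pe, Finset.mem_filter, Finset.mem_univ, true_and] at he
            exact ha he.1
      have h2 : ∀ b, ((pe pt U H j s).filter (fun e => e.2 = b)).card ≤ Δ := by
        intro b
        by_cases hb : pt b = U j (s + 1)
        · refine le_trans ?_ (h.hi2 j s hs b hb)
          apply Finset.card_le_card_of_injOn (fun e => e.1)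
          · intro e he
            simp only [pe, Finset.coe_filter, Finset.mem_filter, Finset.mem_univ, true_and,
              Set.mem_ofPred_eq] at he ⊢
            obtain ⟨⟨h1, _, h3⟩, rfl⟩ := he
            exact ⟨h1, h3.symm⟩
          · intro e he e' he' hee
            simp only [pe, Finset.coe_filter, Finset.mem_filter, Finset.mem_univ, true_and,
              Set.mem_ofPred_eq] at he he'
            exact Prod.ext hee (he.2.trans he'.2.symm)
        · rw [Finset.card_eq_zero.2]
          · exact Nat.zero_le _
          · rw [Finset.filter_eq_empty_iff]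
            rintro e he rfl
            simp only [pe, Finset.mem_filter, Finset.mem_univ, true_and] at he
            exact hb he.2.1
      obtain ⟨cls, hc1, hc2, hc3, hc4⟩ := koenig_classes (pe pt U H j s) Δ h1 h2
      refine ⟨cls, fun _ => ⟨hc1, fun e he => (hc2 e he).exists, ?_, hc3, hc4⟩⟩
      intro c c' e hce hce'
      exact (hc2 e (hc1 c hce)).unique hce hce'
    · exact ⟨fun _ => ∅, fun h' => absurd h' hs⟩
  choose cls hcls using key
  exact ⟨cls, fun j s hs => hcls j s hs⟩

/-- number of vertices of the two parts missed by the class `c` of the pattern pair `(j,s)` -/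
def miss {V P : Type} [Fintype V] {J Δ : ℕ} (pt : V → P) (U : Fin J → ℕ → P)
    (cls : Fin J → ℕ → Fin Δ → Finset (V × V)) (j : Fin J) (s : ℕ) (c : Fin Δ) : ℕ :=
  (univ.filter (fun v => pt v = U j s ∧ ∀ p ∈ cls j s c, p.1 ≠ v)).card +
    (univ.filter (fun v => pt v = U j (s + 1) ∧ ∀ p ∈ cls j s c, p.2 ≠ v)).card

end Pool.Agent.HCD
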