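import Pool.Agent.Lib.HCD.G4

/-!
# G5: stage 3, the random permutations

PROOF.  `pal` with I = Fin J × Fin L (only s + 1 < L matters; put h = 0 for the others), Δ, and the functions
 (a) for (j,c): h (j',s) a b = if j' = j ∧ a = c ∧ s + 1 < L then miss j s b else 0;   c-bound: 4m/K (two parts of size ≤ 2m/K);
     mean ≤ 80(η+5δ)m: for each s: ∑_b miss j s b = ∑ over the vertices v of the two parts of (Δ - H-degree into the other part)
     ≤ 2 (2m/K) (η+5δ) m/K (lo1, lo2; each vertex v of degree d is covered by exactly d classes); divide by Δ, sum over s < L ≤ 2K: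
     ≤ 8 (η+5δ) m^2/(K Δ) ≤ 80 (η+5δ) m by D1.
 (b) for (j,c,x,z), Adm x z, and each of the two sets of positions: h (j',s) a b = if j' = j ∧ a = c ∧ s ∈ Pos then
     #{p ∈ cls j s b | Suit R1 x z p} else 0; bound 2m/K; mean ≥ |Pos| γ (m/K)^2 / Δ ≥ |Pos| γ m/(2K) by D2 (the classes partition
     pe; suit1, suit2 of PD).
 (d) for w: h (j,s) a b = #{p ∈ cls j s b | (p.1 = w ∧ p.2 ∈ VM j a) ∨ (p.2 = w ∧ p.1 ∈ VM j a)}: 0 if the part of w is not U j s, U j (s+1);
     c-bound: ∑_a h a (π a) ≤ Δ ≤ 2m/K for the at most 2J = K pairs (j,s) containing the part of w, 0 otherwise;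
     mean ≤ ∑ over these (j,s) of max_a |VM j a ∩ other part| ≤ K (η+δ) m/K.
 ∑ c^2 ≤ 2K (4m/K)^2 = 32 m^2/K = S; t = δ m; t^2/(4S) = δ^2 K/128; number of functions ≤ JΔ + 2 JΔ m^2 + m ≤ 4 m^3 (JΔ ≤ m by D2).
-/

set_option autoImplicit false

noncomputable section

open scoped Classical
open Finset

namespace Pool.Agent.HCD

section aux
variable {V P : Type} [Fintype V]

omit [Fintype V] in
/-- the classes partition the edges -/
private theorem sum_cls {E : Finset (V × V)} {Δ : ℕ} {cls : Fin Δ → Finset (V × V)} (h : IsCls E cls)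
    (Q : V × V → Prop) [DecidablePred Q] : ∑ b, ((cls b).filter Q).card = (E.filter Q).card := by
  have h1 : E.filter Q = univ.biUnion (fun b => (cls b).filter Q) := by
    ext p
    simp only [mem_filter, mem_biUnion, mem_univ, true_and]
    constructor
    · rintro ⟨hp, hq⟩
      obtain ⟨b, hb⟩ := h.ex p hp
      exact ⟨b, hb, hq⟩
    · rintro ⟨b, hb, hq⟩
      exact ⟨h.sub b hb, hq⟩
  rw [h1, card_biUnion]
  intro b _ b' _ hbb'
  show Disjoint ((cls b).filter Q) ((cls b').filter Q)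
  rw [Finset.disjoint_left]
  intro p hp hp'
  exact hbb' (h.uniq b b' p (mem_filter.1 hp).1 (mem_filter.1 hp').1)

/-- vertices missed by the classes -/
private theorem side {Δ : ℕ} (hΔ : 0 < Δ) (cls : Fin Δ → Finset (V × V)) (pr : V × V → V)
    (hinj : ∀ c, ∀ e ∈ cls c, ∀ e' ∈ cls c, pr e = pr e' → e = e') (A : Finset V)
    (D : V → Finset (V × V)) (hD : ∀ v ∈ A, ∀ e ∈ D v, pr e = v ∧ ∃ c, e ∈ cls c) (X : ℝ)
    (hX : ∀ v ∈ A, (Δ : ℝ) - X ≤ (D v).card) :
    ((∑ b, (A.filter (fun v => ∀ p ∈ cls b, pr p ≠ v)).card : ℕ) : ℝ) ≤ A.card * X := by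
  have h1 : ∑ b, (A.filter (fun v => ∀ p ∈ cls b, pr p ≠ v)).card =
      ∑ v ∈ A, (univ.filter (fun b => ∀ p ∈ cls b, pr p ≠ v)).card := by
    simp only [card_filter]
    exact Finset.sum_comm
  rw [h1]
  push_cast
  rw [← nsmul_eq_mul, ← Finset.sum_const]
  refine Finset.sum_le_sum fun v hv => ?_
  have h2 : (D v).card ≤ (univ.filter (fun b => ¬ ∀ p ∈ cls b, pr p ≠ v)).card := by
    have hex : ∀ e : V × V, ∃ c : Fin Δ, e ∈ D v → e ∈ cls c := by
      intro e
      by_cases he : e ∈ D v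
      · obtain ⟨c, hc⟩ := (hD v hv e he).2
        exact ⟨c, fun _ => hc⟩
      · exact ⟨⟨0, hΔ⟩, fun h => (he h).elim⟩
    choose f hf using hex
    refine card_le_card_of_injOn f (fun e he => ?_) ?_
    · simp only [coe_filter, mem_univ, true_and, Set.mem_ofPred_eq]
      intro h
      exact h e (hf e he) (hD v hv e he).1
    · intro e he e' he' hee'
      have h3 := hf e he
      have h4 := hf e' he'
      rw [← hee'] at h4
      exact hinj _ e h3 e' h4 ((hD v hv e he).1.trans (hD v hv e' he').1.symm)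
  have h3 := Finset.card_filter_add_card_filter_not (s := (univ : Finset (Fin Δ)))
    (fun b => ∀ p ∈ cls b, pr p ≠ v)
  rw [card_univ, Fintype.card_fin] at h3
  have h4 := hX v hv
  have h5 : ((D v).card : ℝ) ≤ ((univ.filter (fun b => ¬ ∀ p ∈ cls b, pr p ≠ v)).card : ℝ) := by
    exact_mod_cast h2
  have h6 : ((univ.filter (fun b => ∀ p ∈ cls b, pr p ≠ v)).card : ℝ) +
      ((univ.filter (fun b => ¬ ∀ p ∈ cls b, pr p ≠ v)).card : ℝ) = Δ := by
    exact_mod_cast h3
  linarith

/-- one system, the positions `Pos` -/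
private def hg {J L Δ : ℕ} (j : Fin J) (c : Fin Δ) (Pos : Finset ℕ) (g : ℕ → Fin Δ → ℝ) :
    (Fin J × Fin L) → Fin Δ → Fin Δ → ℝ :=
  fun i a b => if i.1 = j ∧ a = c ∧ (i.2 : ℕ) ∈ Pos then g i.2 b else 0

private theorem hg_nonneg {J L Δ : ℕ} (j : Fin J) (c : Fin Δ) (Pos : Finset ℕ)
    (g : ℕ → Fin Δ → ℝ) (hgn : ∀ s b, 0 ≤ g s b) (i : Fin J × Fin L) (a b : Fin Δ) :
    0 ≤ hg j c Pos g i a b := by
  unfold hg
  split_ifs
  · exact hgn _ _
  · exact le_rfl

private theorem hg_row {J L Δ : ℕ} (j : Fin J) (c : Fin Δ) (Pos : Finset ℕ)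
    (g : ℕ → Fin Δ → ℝ) (i : Fin J × Fin L) (f : Fin Δ → Fin Δ) :
    ∑ a, hg j c Pos g i a (f a) = if i.1 = j ∧ (i.2 : ℕ) ∈ Pos then g i.2 (f c) else 0 := by
  unfold hg
  by_cases h1 : i.1 = j ∧ (i.2 : ℕ) ∈ Pos
  · rw [if_pos h1, Finset.sum_eq_single c]
    · rw [if_pos ⟨h1.1, rfl, h1.2⟩]
    · intro a _ ha
      rw [if_neg fun h => ha h.2.1]
    · intro h
      exact (h (mem_univ c)).elim
  · rw [if_neg h1]
    refine Finset.sum_eq_zero fun a _ => ?_
    rw [if_neg fun h => h1 ⟨h.1, h.2.2⟩]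

private theorem pos_sum {L : ℕ} (Pos : Finset ℕ) (hP : ∀ s ∈ Pos, s + 1 < L) (f : ℕ → ℝ) :
    ∑ s : Fin L, (if (s : ℕ) ∈ Pos then f s else 0) = ∑ s ∈ Pos, f s := by
  rw [Fin.sum_univ_eq_sum_range (fun s => if s ∈ Pos then f s else 0) L, ← Finset.sum_filter]
  congr 1
  ext s
  simp only [mem_filter, mem_range]
  constructor
  · exact fun h => h.2
  · intro h
    have := hP s h
    exact ⟨by omega, h⟩

private theorem hg_val {J L Δ : ℕ} (j : Fin J) (c : Fin Δ) (Pos : Finset ℕ)
    (hP : ∀ s ∈ Pos, s + 1 < L) (g : ℕ → Fin Δ → ℝ) (τ' : Fin J × Fin L → Equiv.Perm (Fin Δ))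
    (τ : Fin J → ℕ → Equiv.Perm (Fin Δ)) (hτ : ∀ j (s : Fin L), τ' (j, s) = τ j s) :
    ∑ i, ∑ a, hg j c Pos g i a (τ' i a) = ∑ s ∈ Pos, g s (τ j s c) := by
  rw [← pos_sum Pos hP, Fintype.sum_prod_type, Finset.sum_eq_single j]
  · refine Finset.sum_congr rfl fun s _ => ?_
    rw [hg_row j c Pos g (j, s) (τ' (j, s)), hτ]
    simp
  · intro j' _ hj'
    refine Finset.sum_eq_zero fun s _ => ?_
    rw [hg_row j c Pos g (j', s) (τ' (j', s)), if_neg fun h => hj' h.1]
  · intro h
    exact (h (mem_univ j)).elim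

private theorem hg_mean {J L Δ : ℕ} (j : Fin J) (c : Fin Δ) (Pos : Finset ℕ)
    (hP : ∀ s ∈ Pos, s + 1 < L) (g : ℕ → Fin Δ → ℝ) :
    ∑ i : Fin J × Fin L, ∑ a, ∑ b, hg j c Pos g i a b = ∑ s ∈ Pos, ∑ b, g s b := by
  rw [← pos_sum Pos hP, Fintype.sum_prod_type, Finset.sum_eq_single j]
  · refine Finset.sum_congr rfl fun s _ => ?_
    rw [Finset.sum_comm]
    have h1 : ∀ b, ∑ a, hg j c Pos g (j, s) a b = if (s : ℕ) ∈ Pos then g s b else 0 := by
      intro b
      rw [hg_row j c Pos g (j, s) (fun _ => b)]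
      simp
    rw [Finset.sum_congr rfl fun b _ => h1 b]
    split_ifs <;> simp
  · intro j' _ hj'
    refine Finset.sum_eq_zero fun s _ => ?_
    rw [Finset.sum_comm]
    refine Finset.sum_eq_zero fun b _ => ?_
    rw [hg_row j c Pos g (j', s) (fun _ => b), if_neg fun h => hj' h.1]
  · intro h
    exact (h (mem_univ j)).elim

private theorem hg_c {J L Δ : ℕ} (j : Fin J) (c : Fin Δ) (Pos : Finset ℕ)
    (hP : ∀ s ∈ Pos, s + 1 < L) (g : ℕ → Fin Δ → ℝ) (M : ℝ) (hM : 0 ≤ M)
    (hgM : ∀ s, s + 1 < L → ∀ b, g s b ≤ M) (i : Fin J × Fin L) (π : Equiv.Perm (Fin Δ)) :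
    ∑ a, hg j c Pos g i a (π a) ≤ if i.1 = j then M else 0 := by
  rw [hg_row j c Pos g i π]
  by_cases h1 : i.1 = j
  · rw [if_pos h1]
    split_ifs with h2
    · exact hgM _ (hP _ h2.2) _
    · exact hM
  · rw [if_neg h1, if_neg fun h => h1 h.1]

private theorem one_c {J L : ℕ} (j : Fin J) (M : ℝ) :
    ∑ i : Fin J × Fin L, (if i.1 = j then M else 0) ^ 2 = L * M ^ 2 := by
  rw [Fintype.sum_prod_type, Finset.sum_eq_single j]
  · simp
  · intro j' _ hj'
    simp [hj']
  · intro h
    exact (h (mem_univ j)).elim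

/-- few pattern pairs contain the part of `w` -/
private theorem rel_sum {J L : ℕ} {U : Fin J → ℕ → P} (hU : IsPat U L) (q : P) (M : ℝ)
    (hM : 0 ≤ M) :
    ∑ i : Fin J × Fin L, (if (i.2 : ℕ) + 1 < L ∧ (q = U i.1 i.2 ∨ q = U i.1 (i.2 + 1)) then M else 0) ≤
      2 * J * M := by
  have key : ∀ Q : Fin L → Prop, (∀ s s', Q s → Q s' → s = s') →
      ∑ s : Fin L, (if Q s then M else 0) ≤ M := by
    intro Q hQ
    rw [← Finset.sum_filter, Finset.sum_const, nsmul_eq_mul]
    have h1 : (univ.filter Q).card ≤ 1 := by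
      rw [card_le_one]
      intro a ha b hb
      exact hQ a b (mem_filter.1 ha).2 (mem_filter.1 hb).2
    have h2 : ((univ.filter Q).card : ℝ) ≤ 1 := by exact_mod_cast h1
    nlinarith
  rw [Fintype.sum_prod_type]
  calc ∑ j : Fin J, ∑ s : Fin L,
        (if (s : ℕ) + 1 < L ∧ (q = U j s ∨ q = U j (s + 1)) then M else 0)
      ≤ ∑ _j : Fin J, (M + M) := by
        refine Finset.sum_le_sum fun j _ => ?_
        have h1 := key (fun s => (s : ℕ) + 1 < L ∧ q = U j s) (fun s s' h h' =>
          Fin.ext (hU.inj j s s' (by omega) (by omega) (h.2.symm.trans h'.2)))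
        have h2 := key (fun s => (s : ℕ) + 1 < L ∧ q = U j (s + 1)) (fun s s' h h' => by
          have := hU.inj j (s + 1) (s' + 1) h.1 h'.1 (h.2.symm.trans h'.2)
          exact Fin.ext (by omega))
        refine le_trans ?_ (add_le_add h1 h2)
        rw [← Finset.sum_add_distrib]
        refine Finset.sum_le_sum fun s _ => ?_
        split_ifs <;> first | linarith | (exfalso; tauto)
    _ = 2 * J * M := by
        rw [Finset.sum_const, card_univ, Fintype.card_fin, nsmul_eq_mul]
        ring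

private theorem pal_two {J L Δ : ℕ} (hΔ : 0 < Δ) {K1 K2 : Type} [Fintype K1] [Fintype K2]
    (j : K1 → Fin J) (c : K1 → Fin Δ) (Pos : K1 → Finset ℕ) (hP : ∀ k, ∀ s ∈ Pos k, s + 1 < L)
    (g : K1 → ℕ → Fin Δ → ℝ) (hg0 : ∀ k s b, 0 ≤ g k s b) (M : ℝ) (hM : 0 ≤ M)
    (hgM : ∀ k s, s + 1 < L → ∀ b, g k s b ≤ M)
    (hd : K2 → (Fin J × Fin L) → Fin Δ → Fin Δ → ℝ) (hd0 : ∀ w i a b, 0 ≤ hd w i a b)
    (cd : K2 → Fin J × Fin L → ℝ)
    (hcd : ∀ w i (π : Equiv.Perm (Fin Δ)), ∑ a, hd w i a (π a) ≤ cd w i)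
    (S t : ℝ) (hS : 0 < S) (ht : 0 < t) (hS1 : L * M ^ 2 ≤ S) (hS2 : ∀ w, ∑ i, cd w i ^ 2 ≤ S)
    (hcard : ((Fintype.card K1 : ℝ) + Fintype.card K2) * Real.exp (-(t ^ 2 / (4 * S))) < 1 / 2) :
    ∃ τ : Fin J → ℕ → Equiv.Perm (Fin Δ),
      (∀ k, |∑ s ∈ Pos k, g k s (τ (j k) s (c k)) - (1 / (Δ : ℝ)) * ∑ s ∈ Pos k, ∑ b, g k s b| < t) ∧
      (∀ w, |∑ i : Fin J × Fin L, ∑ a, hd w i a (τ i.1 i.2 a) -
        (1 / (Δ : ℝ)) * ∑ i, ∑ a, ∑ b, hd w i a b| < t) := by
  let hh : K1 ⊕ K2 → (Fin J × Fin L) → Fin Δ → Fin Δ → ℝ :=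
    Sum.elim (fun k => hg (j k) (c k) (Pos k) (g k)) hd
  let cc : K1 ⊕ K2 → (Fin J × Fin L) → ℝ :=
    Sum.elim (fun k i => if i.1 = j k then M else 0) cd
  have h0 : ∀ k i a b, 0 ≤ hh k i a b := by
    rintro (k | w) i a b
    · exact hg_nonneg _ _ _ _ (hg0 k) _ _ _
    · exact hd0 w i a b
  have h1 : ∀ k i (π : Equiv.Perm (Fin Δ)), ∑ a, hh k i a (π a) ≤ cc k i := by
    rintro (k | w) i π
    · exact hg_c _ _ _ (hP k) _ M hM (hgM k) i π
    · exact hcd w i π
  have h2 : ∀ k, ∑ i, cc k i ^ 2 ≤ S := by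
    rintro (k | w)
    · have := one_c (L := L) (j k) M
      exact this.le.trans hS1
    · exact hS2 w
  have h3 : (Fintype.card (K1 ⊕ K2) : ℝ) * Real.exp (-(t ^ 2 / (4 * S))) < 1 / 2 := by
    rw [Fintype.card_sum, Nat.cast_add]
    exact hcard
  obtain ⟨τ', hτ'⟩ := pal (I := Fin J × Fin L) (K := K1 ⊕ K2) Δ hΔ hh h0 cc h1 S t hS ht h2 h3
  let τ : Fin J → ℕ → Equiv.Perm (Fin Δ) := fun j s => if hs : s < L then τ' (j, ⟨s, hs⟩) else 1
  have hτ : ∀ j (s : Fin L), τ' (j, s) = τ j s := by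
    intro j s
    simp only [τ]
    rw [dif_pos s.2]
  refine ⟨τ, fun k => ?_, fun w => ?_⟩
  · have h4 := hτ' (Sum.inl k)
    have h5 : ∑ i, ∑ a, hh (Sum.inl k) i a (τ' i a) = ∑ s ∈ Pos k, g k s (τ (j k) s (c k)) :=
      hg_val (j k) (c k) (Pos k) (hP k) (g k) τ' τ hτ
    have h6 : ∑ i, ∑ a, ∑ b, hh (Sum.inl k) i a b = ∑ s ∈ Pos k, ∑ b, g k s b :=
      hg_mean (j k) (c k) (Pos k) (hP k) (g k)
    rw [h5, h6] at h4
    exact h4
  · have h4 := hτ' (Sum.inr w)
    have h5 : ∑ i, ∑ a, hh (Sum.inr w) i a (τ' i a) =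
        ∑ i : Fin J × Fin L, ∑ a, hd w i a (τ i.1 i.2 a) := by
      refine Finset.sum_congr rfl fun i _ => Finset.sum_congr rfl fun a _ => ?_
      rw [← hτ i.1 i.2]
      rfl
    rw [h5] at h4
    exact h4

end aux

theorem stage3 {V P : Type} [Fintype V] {N J : ℕ} {pt : V → P} {U : Fin J → ℕ → P}
    {L K Δ : ℕ} {H R1 R2 : SimpleGraph V} {Adm : V → V → Prop} {virt : Fin N → Finset (V × V)}
    {η δ γ : ℝ} (h : PD pt U L K Δ H R1 R2 Adm virt η δ γ) (hη : 0 ≤ η) (hδ : 0 < δ) (hγ : 0 ≤ γ)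
    (h1 : 1 ≤ Fintype.card V) (hK : 0 < K) (cls : Fin J → ℕ → Fin Δ → Finset (V × V))
    (hcls : ∀ j s, s + 1 < L → IsCls (pe pt U H j s) (cls j s))
    (VM : Fin J → Fin Δ → Finset V)
    (hVM : ∀ j c p, (((VM j c).filter (fun v => pt v = p)).card : ℝ) ≤
      (η + δ) * (Fintype.card V : ℝ) / K)
    (Pos1 Pos2 : Finset ℕ) (hP1 : ∀ s ∈ Pos1, s + 1 < L) (hP2 : ∀ s ∈ Pos2, s + 1 < L)
    (hnum : 4 * (Fintype.card V : ℝ) ^ 3 * Real.exp (-(δ ^ 2 * K / 128)) < 1 / 2) :
    ∃ τ : Fin J → ℕ → Equiv.Perm (Fin Δ),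
      (∀ j c, ((∑ s ∈ range (L - 1), miss pt U cls j s (τ j s c) : ℕ) : ℝ) ≤
        81 * (η + 5 * δ) * Fintype.card V) ∧
      (∀ j c x z, Adm x z → (Pos1.card : ℝ) * γ * Fintype.card V / (2 * K) -
        δ * Fintype.card V ≤
        ((∑ s ∈ Pos1, ((cls j s (τ j s c)).filter (fun p => Suit R1 x z p)).card : ℕ) : ℝ)) ∧
      (∀ j c x z, Adm x z → (Pos2.card : ℝ) * γ * Fintype.card V / (2 * K) -
        δ * Fintype.card V ≤
        ((∑ s ∈ Pos2, ((cls j s (τ j s c)).filter (fun p => Suit R2 x z p)).card : ℕ) : ℝ)) ∧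
      (∀ w, ((∑ j, ∑ s ∈ range (L - 1), ∑ c, ((cls j s (τ j s c)).filter (fun p =>
        (p.1 = w ∧ p.2 ∈ VM j c) ∨ (p.2 = w ∧ p.1 ∈ VM j c))).card : ℕ) : ℝ) ≤
        (η + 2 * δ) * Fintype.card V) := by
  classical
  have hm1 : (1 : ℝ) ≤ (Fintype.card V : ℝ) := by exact_mod_cast h1
  have hΔ : 0 < Δ := by
    by_contra h0
    have h0' : Δ = 0 := by omega
    have h2 := h.D1
    rw [h0'] at h2
    simp only [Nat.cast_zero, mul_zero] at h2
    linarith
  have hD1 := h.D1
  have hD2 := h.D2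
  have hKr : (0 : ℝ) < K := by exact_mod_cast hK
  have hΔr : (0 : ℝ) < Δ := by exact_mod_cast hΔ
  have hJ2 : 2 * (J : ℝ) = K := by exact_mod_cast h.J2
  have hL2 : (L : ℝ) ≤ 2 * K := by exact_mod_cast h.L2
  set m : ℝ := (Fintype.card V : ℝ) with hm
  have hmpos : 0 < m := by linarith
  have hpart : ∀ p, ((univ.filter (fun v => pt v = p)).card : ℝ) ≤ 2 * m / K := by
    intro p
    rw [le_div_iff₀ hKr, mul_comm]
    exact h.size p
  have hclscard : ∀ j s, s + 1 < L → ∀ b, ((cls j s b).card : ℝ) ≤ 2 * m / K := by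
    intro j s hs b
    refine le_trans ?_ (hpart (U j s))
    have h2 : (cls j s b).card ≤ (univ.filter (fun v => pt v = U j s)).card := by
      refine card_le_card_of_injOn Prod.fst (fun p hp => ?_) ?_
      · have h3 := (hcls j s hs).sub b hp
        simp only [pe, mem_filter, mem_univ, true_and] at h3
        simp only [coe_filter, mem_univ, true_and, Set.mem_ofPred_eq]
        exact h3.1
      · intro p hp q hq hpq
        exact (hcls j s hs).fst b p hp q hq hpq
    exact_mod_cast h2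
  have hmissle : ∀ j s b, ((miss pt U cls j s b : ℕ) : ℝ) ≤ 4 * m / K := by
    intro j s b
    have h2 : (univ.filter (fun v => pt v = U j s ∧ ∀ p ∈ cls j s b, p.1 ≠ v)).card ≤
        (univ.filter (fun v => pt v = U j s)).card :=
      card_le_card fun v hv => by
        simp only [mem_filter, mem_univ, true_and] at hv ⊢
        exact hv.1
    have h3 : (univ.filter (fun v => pt v = U j (s + 1) ∧ ∀ p ∈ cls j s b, p.2 ≠ v)).card ≤
        (univ.filter (fun v => pt v = U j (s + 1))).card :=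
      card_le_card fun v hv => by
        simp only [mem_filter, mem_univ, true_and] at hv ⊢
        exact hv.1
    have h4 := hpart (U j s)
    have h5 := hpart (U j (s + 1))
    have h6 : 4 * m / K = 2 * m / K + 2 * m / K := by ring
    have h7 : ((univ.filter (fun v => pt v = U j s ∧ ∀ p ∈ cls j s b, p.1 ≠ v)).card : ℝ) ≤
        ((univ.filter (fun v => pt v = U j s)).card : ℝ) := by exact_mod_cast h2
    have h8 : ((univ.filter (fun v => pt v = U j (s + 1) ∧ ∀ p ∈ cls j s b, p.2 ≠ v)).card : ℝ) ≤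
        ((univ.filter (fun v => pt v = U j (s + 1))).card : ℝ) := by exact_mod_cast h3
    rw [miss, Nat.cast_add, h6]
    linarith
  have hX0 : 0 ≤ (η + 5 * δ) * m / K := by positivity
  have hmiss : ∀ j s, s + 1 < L → ∑ b, ((miss pt U cls j s b : ℕ) : ℝ) ≤
      4 * m / K * ((η + 5 * δ) * m / K) := by
    intro j s hs
    have hc := hcls j s hs
    have s1 := side hΔ (cls j s) Prod.fst hc.fst (univ.filter (fun v => pt v = U j s))
      (fun v => (univ.filter (fun u => pt u = U j (s + 1) ∧ H.Adj v u)).image (fun u => (v, u)))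
      (by
        intro v hv e he
        obtain ⟨u, hu, rfl⟩ := mem_image.1 he
        simp only [mem_filter, mem_univ, true_and] at hu hv
        exact ⟨rfl, hc.ex _ (by simp only [pe, mem_filter, mem_univ, true_and]; exact ⟨hv, hu.1, hu.2⟩)⟩)
      ((η + 5 * δ) * m / K)
      (by
        intro v hv
        rw [card_image_of_injective _ fun a b hab => (Prod.mk.inj hab).2]
        exact h.lo1 j s hs v (mem_filter.1 hv).2)
    have s2 := side hΔ (cls j s) Prod.snd hc.snd (univ.filter (fun v => pt v = U j (s + 1)))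
      (fun v => (univ.filter (fun u => pt u = U j s ∧ H.Adj v u)).image (fun u => (u, v)))
      (by
        intro v hv e he
        obtain ⟨u, hu, rfl⟩ := mem_image.1 he
        simp only [mem_filter, mem_univ, true_and] at hu hv
        exact ⟨rfl, hc.ex _ (by
          simp only [pe, mem_filter, mem_univ, true_and]; exact ⟨hu.1, hv, hu.2.symm⟩)⟩)
      ((η + 5 * δ) * m / K)
      (by
        intro v hv
        rw [card_image_of_injective _ fun a b hab => (Prod.mk.inj hab).1]
        exact h.lo2 j s hs v (mem_filter.1 hv).2)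
    simp only [filter_filter] at s1 s2
    push_cast at s1 s2
    simp only [miss, Nat.cast_add, Finset.sum_add_distrib]
    have h4 := mul_le_mul_of_nonneg_right (hpart (U j s)) hX0
    have h5 := mul_le_mul_of_nonneg_right (hpart (U j (s + 1))) hX0
    have h6 : 4 * m / K * ((η + 5 * δ) * m / K) = 2 * m / K * ((η + 5 * δ) * m / K) +
      2 * m / K * ((η + 5 * δ) * m / K) := by ring
    rw [h6]
    linarith
  -- the part of a vertex lies in few pattern pairs
  let rel : V → Fin J × Fin L → Prop := fun w i =>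
    (i.2 : ℕ) + 1 < L ∧ (pt w = U i.1 i.2 ∨ pt w = U i.1 (i.2 + 1))
  let Q : V → Fin J → Fin Δ → V × V → Prop := fun w j a p =>
    (p.1 = w ∧ p.2 ∈ VM j a) ∨ (p.2 = w ∧ p.1 ∈ VM j a)
  let hd : V → Fin J × Fin L → Fin Δ → Fin Δ → ℝ := fun w i a b =>
    if (i.2 : ℕ) + 1 < L then (((cls i.1 i.2 b).filter (Q w i.1 a)).card : ℝ) else 0
  have hUne : ∀ j s, s + 1 < L → U j s ≠ U j (s + 1) := by
    intro j s hs he
    have := h.pat.inj j s (s + 1) (by omega) hs he
    omega
  have hd_le : ∀ w (i : Fin J × Fin L) a b, hd w i a b ≤ if rel w i then 1 else 0 := by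
    intro w i a b
    simp only [hd]
    split_ifs with c1 c2
    · have h2 : ((cls i.1 i.2 b).filter (Q w i.1 a)).card ≤ 1 := by
        rw [card_le_one]
        intro p hp q hq
        rw [mem_filter] at hp hq
        have hp' := (hcls i.1 i.2 c1).sub b hp.1
        have hq' := (hcls i.1 i.2 c1).sub b hq.1
        simp only [pe, mem_filter, mem_univ, true_and] at hp' hq'
        have hne := hUne i.1 i.2 c1
        rcases hp.2 with ⟨e1, -⟩ | ⟨e1, -⟩ <;> rcases hq.2 with ⟨e2, -⟩ | ⟨e2, -⟩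
        · exact (hcls i.1 i.2 c1).fst b p hp.1 q hq.1 (e1.trans e2.symm)
        · exfalso
          apply hne
          rw [← hp'.1, ← hq'.2.1, e1, e2]
        · exfalso
          apply hne
          rw [← hq'.1, ← hp'.2.1, e1, e2]
        · exact (hcls i.1 i.2 c1).snd b p hp.1 q hq.1 (e1.trans e2.symm)
      exact_mod_cast h2
    · have h2 : ((cls i.1 i.2 b).filter (Q w i.1 a)) = ∅ := by
        rw [filter_eq_empty_iff]
        intro p hp hQ
        have hp' := (hcls i.1 i.2 c1).sub b hp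
        simp only [pe, mem_filter, mem_univ, true_and] at hp'
        apply c2
        rcases hQ with ⟨e1, -⟩ | ⟨e1, -⟩
        · exact ⟨c1, Or.inl (by rw [← e1]; exact hp'.1)⟩
        · exact ⟨c1, Or.inr (by rw [← e1]; exact hp'.2.1)⟩
      rw [h2]
      simp
    · exact zero_le_one
    · exact le_rfl
  have hd_sum : ∀ w (i : Fin J × Fin L) a, ∑ b, hd w i a b ≤
      if rel w i then (η + δ) * m / K else 0 := by
    intro w i a
    simp only [hd]
    by_cases c1 : (i.2 : ℕ) + 1 < L
    · simp only [if_pos c1]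
      have h2 := sum_cls (hcls i.1 i.2 c1) (Q w i.1 a)
      have h3 : ∑ b, (((cls i.1 i.2 b).filter (Q w i.1 a)).card : ℝ) =
          (((pe pt U H i.1 i.2).filter (Q w i.1 a)).card : ℝ) := by exact_mod_cast h2
      rw [h3]
      have hne := hUne i.1 i.2 c1
      by_cases c2 : pt w = U i.1 i.2
      · have c3 : rel w i := ⟨c1, Or.inl c2⟩
        rw [if_pos c3]
        refine le_trans ?_ (hVM i.1 a (U i.1 (i.2 + 1)))
        have h4 : ((pe pt U H i.1 i.2).filter (Q w i.1 a)).card ≤
            ((VM i.1 a).filter (fun v => pt v = U i.1 (i.2 + 1))).card := by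
          refine card_le_card_of_injOn Prod.snd (fun p hp => ?_) ?_
          · rw [mem_coe, mem_filter] at hp
            have hp' := hp.1
            simp only [pe, mem_filter, mem_univ, true_and] at hp'
            rw [mem_coe, mem_filter]
            rcases hp.2 with ⟨e1, e2⟩ | ⟨e1, e2⟩
            · exact ⟨e2, hp'.2.1⟩
            · exfalso
              apply hne
              rw [← hp'.2.1, e1, c2]
          · intro p hp q hq hpq
            rw [mem_coe, mem_filter] at hp hq
            have hp' := hp.1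
            have hq' := hq.1
            simp only [pe, mem_filter, mem_univ, true_and] at hp' hq'
            refine Prod.ext ?_ hpq
            have e1 : p.1 = w := by
              rcases hp.2 with ⟨e1, e2⟩ | ⟨e1, e2⟩
              · exact e1
              · exfalso
                apply hne
                rw [← hp'.2.1, e1, c2]
            have e2 : q.1 = w := by
              rcases hq.2 with ⟨e1, e2⟩ | ⟨e1, e2⟩
              · exact e1
              · exfalso
                apply hne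
                rw [← hq'.2.1, e1, c2]
            rw [e1, e2]
        exact_mod_cast h4
      · by_cases c4 : pt w = U i.1 (i.2 + 1)
        · have c3 : rel w i := ⟨c1, Or.inr c4⟩
          rw [if_pos c3]
          refine le_trans ?_ (hVM i.1 a (U i.1 i.2))
          have h4 : ((pe pt U H i.1 i.2).filter (Q w i.1 a)).card ≤
              ((VM i.1 a).filter (fun v => pt v = U i.1 i.2)).card := by
            refine card_le_card_of_injOn Prod.fst (fun p hp => ?_) ?_
            · rw [mem_coe, mem_filter] at hp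
              have hp' := hp.1
              simp only [pe, mem_filter, mem_univ, true_and] at hp'
              rw [mem_coe, mem_filter]
              rcases hp.2 with ⟨e1, e2⟩ | ⟨e1, e2⟩
              · exfalso
                apply c2
                rw [← e1]
                exact hp'.1
              · exact ⟨e2, hp'.1⟩
            · intro p hp q hq hpq
              rw [mem_coe, mem_filter] at hp hq
              have hp' := hp.1
              have hq' := hq.1
              simp only [pe, mem_filter, mem_univ, true_and] at hp' hq'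
              refine Prod.ext hpq ?_
              have e1 : p.2 = w := by
                rcases hp.2 with ⟨e1, e2⟩ | ⟨e1, e2⟩
                · exfalso
                  apply c2
                  rw [← e1]
                  exact hp'.1
                · exact e1
              have e2 : q.2 = w := by
                rcases hq.2 with ⟨e1, e2⟩ | ⟨e1, e2⟩
                · exfalso
                  apply c2
                  rw [← e1]
                  exact hq'.1
                · exact e1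
              rw [e1, e2]
          exact_mod_cast h4
        · have c3 : ¬ rel w i := fun hr => hr.2.elim c2 c4
          rw [if_neg c3]
          have h4 : ((pe pt U H i.1 i.2).filter (Q w i.1 a)) = ∅ := by
            rw [filter_eq_empty_iff]
            intro p hp hQ
            simp only [pe, mem_filter, mem_univ, true_and] at hp
            rcases hQ with ⟨e1, -⟩ | ⟨e1, -⟩
            · exact c2 (by rw [← e1]; exact hp.1)
            · exact c4 (by rw [← e1]; exact hp.2.1)
          rw [h4]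
          simp
    · simp only [if_neg c1, Finset.sum_const_zero]
      split_ifs
      · positivity
      · exact le_rfl
  have hrel : ∀ (w : V) (M : ℝ), 0 ≤ M → ∑ i : Fin J × Fin L, (if rel w i then M else 0) ≤ K * M := by
    intro w M hM
    have h2 := rel_sum h.pat (pt w) M hM
    rwa [hJ2] at h2
  have hJΔ : (J : ℝ) * Δ ≤ m := by
    have : (K : ℝ) * Δ = 2 * (J * Δ) := by rw [← hJ2]; ring
    linarith
  -- the permutations
  let Pos : Fin J × Fin Δ × Option (Bool × V × V) → Finset ℕ := fun k =>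
    match k.2.2 with
    | none => range (L - 1)
    | some (true, _) => Pos1
    | some (false, _) => Pos2
  let g : Fin J × Fin Δ × Option (Bool × V × V) → ℕ → Fin Δ → ℝ := fun k s b =>
    match k.2.2 with
    | none => ((miss pt U cls k.1 s b : ℕ) : ℝ)
    | some (true, x, z) => (((cls k.1 s b).filter (fun p => Suit R1 x z p)).card : ℝ)
    | some (false, x, z) => (((cls k.1 s b).filter (fun p => Suit R2 x z p)).card : ℝ)
  have hPos : ∀ k, ∀ s ∈ Pos k, s + 1 < L := by
    rintro ⟨j, c, _ | ⟨_ | _, x, z⟩⟩ s hs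
    · have hs' : s ∈ range (L - 1) := hs
      rw [mem_range] at hs'
      omega
    · exact hP2 s hs
    · exact hP1 s hs
  have hg0 : ∀ k s b, 0 ≤ g k s b := by
    rintro ⟨j, c, _ | ⟨_ | _, x, z⟩⟩ s b <;> exact Nat.cast_nonneg _
  have hcl : ∀ (R : SimpleGraph V) (j : Fin J) (x z : V) s, s + 1 < L → ∀ b,
      (((cls j s b).filter (fun p => Suit R x z p)).card : ℝ) ≤ 4 * m / K := by
    intro R j x z s hs b
    have h2 : (((cls j s b).filter (fun p => Suit R x z p)).card : ℝ) ≤ ((cls j s b).card : ℝ) := by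
      exact_mod_cast card_filter_le _ _
    have h3 := hclscard j s hs b
    have h4 : 2 * m / K ≤ 4 * m / K := by
      apply div_le_div_of_nonneg_right _ hKr.le
      linarith
    linarith
  have hgM : ∀ k s, s + 1 < L → ∀ b, g k s b ≤ 4 * m / K := by
    rintro ⟨j, c, _ | ⟨_ | _, x, z⟩⟩ s hs b
    · exact hmissle j s b
    · exact hcl R2 j x z s hs b
    · exact hcl R1 j x z s hs b
  have hd0 : ∀ w i a b, 0 ≤ hd w i a b := by
    intro w i a b
    simp only [hd]
    split_ifs
    · exact Nat.cast_nonneg _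
    · exact le_rfl
  have hcd : ∀ w i (π : Equiv.Perm (Fin Δ)), ∑ a, hd w i a (π a) ≤
      if rel w i then 2 * m / K else 0 := by
    intro w i π
    calc ∑ a, hd w i a (π a) ≤ ∑ _a : Fin Δ, (if rel w i then (1 : ℝ) else 0) :=
          Finset.sum_le_sum fun a _ => hd_le w i a (π a)
      _ = Δ * (if rel w i then (1 : ℝ) else 0) := by
          rw [Finset.sum_const, card_univ, Fintype.card_fin, nsmul_eq_mul]
      _ ≤ if rel w i then 2 * m / K else 0 := by
          split_ifs
          · rw [mul_one, le_div_iff₀ hKr, mul_comm]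
            exact hD2
          · simp
  have hS1 : (L : ℝ) * (4 * m / K) ^ 2 ≤ 32 * m ^ 2 / K := by
    have h2 : (L : ℝ) * (4 * m / K) ^ 2 ≤ 2 * K * (4 * m / K) ^ 2 :=
      mul_le_mul_of_nonneg_right hL2 (by positivity)
    refine h2.trans (le_of_eq ?_)
    field_simp
    ring
  have hS2 : ∀ w, ∑ i : Fin J × Fin L, (if rel w i then 2 * m / K else 0) ^ 2 ≤
      32 * m ^ 2 / K := by
    intro w
    have h2 : ∀ i : Fin J × Fin L, (if rel w i then 2 * m / K else 0) ^ 2 =
        if rel w i then (2 * m / K) ^ 2 else 0 := by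
      intro i
      split_ifs <;> simp
    rw [Finset.sum_congr rfl fun i _ => h2 i]
    refine (hrel w _ (by positivity)).trans ?_
    have h3 : (K : ℝ) * (2 * m / K) ^ 2 = 4 * m ^ 2 / K := by
      field_simp
      ring
    rw [h3]
    apply div_le_div_of_nonneg_right _ hKr.le
    nlinarith [sq_nonneg m]
  have hcard : ((Fintype.card (Fin J × Fin Δ × Option (Bool × V × V)) : ℝ) + Fintype.card V) *
      Real.exp (-((δ * m) ^ 2 / (4 * (32 * m ^ 2 / K)))) < 1 / 2 := by
    have h2 : (δ * m) ^ 2 / (4 * (32 * m ^ 2 / K)) = δ ^ 2 * K / 128 := by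
      field_simp
      ring
    rw [h2]
    refine lt_of_le_of_lt (mul_le_mul_of_nonneg_right ?_ (Real.exp_pos _).le) hnum
    simp only [Fintype.card_prod, Fintype.card_fin, Fintype.card_option, Fintype.card_bool,
      Nat.cast_add, Nat.cast_mul, Nat.cast_one, Nat.cast_ofNat]
    rw [← hm]
    have h3 : 0 ≤ (J : ℝ) * Δ := by positivity
    have h4 : (J : ℝ) * (Δ * (2 * (m * m) + 1)) ≤ m * (2 * (m * m) + 1) := by
      rw [← mul_assoc]
      exact mul_le_mul_of_nonneg_right hJΔ (by positivity)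
    have h5 : m ≤ m ^ 3 := by
      have : 1 ≤ m ^ 2 := one_le_pow₀ hm1
      nlinarith
    nlinarith
  obtain ⟨τ, hτ1, hτ2⟩ := pal_two hΔ (fun k => k.1) (fun k => k.2.1) Pos hPos g hg0 (4 * m / K)
    (by positivity) hgM hd hd0 (fun w i => if rel w i then 2 * m / K else 0) hcd
    (32 * m ^ 2 / K) (δ * m) (by positivity) (by positivity) hS1 hS2 hcard
  have hsuit : ∀ (R : SimpleGraph V) (Ps : Finset ℕ), (∀ s ∈ Ps, s + 1 < L) → ∀ (j : Fin J) (x z : V),
      (∀ s, s + 1 < L → γ * (m / K : ℝ) ^ 2 ≤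
        (univ.filter (fun p : V × V => pt p.1 = U j s ∧ pt p.2 = U j (s+1) ∧ H.Adj p.1 p.2 ∧
          Suit R x z p)).card) →
      (Ps.card : ℝ) * γ * m / (2 * K) ≤ (1 / (Δ : ℝ)) * ∑ s ∈ Ps, ∑ b,
        (((cls j s b).filter (fun p => Suit R x z p)).card : ℝ) := by
    intro R Ps hPs j x z hs
    have h2 : (Ps.card : ℝ) * (γ * (m / K) ^ 2) ≤ ∑ s ∈ Ps, ∑ b,
        (((cls j s b).filter (fun p => Suit R x z p)).card : ℝ) := by
      rw [← nsmul_eq_mul, ← Finset.sum_const]
      refine Finset.sum_le_sum fun s hsP => ?_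
      have h3 := sum_cls (hcls j s (hPs s hsP)) (fun p => Suit R x z p)
      have h4 : ∑ b, (((cls j s b).filter (fun p => Suit R x z p)).card : ℝ) =
          (((pe pt U H j s).filter (fun p => Suit R x z p)).card : ℝ) := by exact_mod_cast h3
      rw [h4]
      refine (hs s (hPs s hsP)).trans (le_of_eq ?_)
      congr 2
      ext p
      simp only [pe, mem_filter, mem_univ, true_and]
      tauto
    have h5 : (Ps.card : ℝ) * γ * m / (2 * K) ≤ (1 / (Δ : ℝ)) * ((Ps.card : ℝ) * (γ * (m / K) ^ 2)) := by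
      have h6 : (1 / (Δ : ℝ)) * ((Ps.card : ℝ) * (γ * (m / K) ^ 2)) =
          (Ps.card : ℝ) * γ * m / (2 * K) * (2 * m / (K * Δ)) := by
        field_simp
      rw [h6]
      refine le_mul_of_one_le_right (by positivity) ?_
      rw [one_le_div₀ (by positivity)]
      exact hD2
    exact h5.trans (mul_le_mul_of_nonneg_left h2 (by positivity))
  refine ⟨τ, ?_, ?_, ?_, ?_⟩
  · intro j c
    have h2 : |∑ s ∈ range (L - 1), ((miss pt U cls j s (τ j s c) : ℕ) : ℝ) -
        (1 / (Δ : ℝ)) * ∑ s ∈ range (L - 1), ∑ b, ((miss pt U cls j s b : ℕ) : ℝ)| < δ * m :=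
      hτ1 (j, c, none)
    have h3 : ∑ s ∈ range (L - 1), ∑ b, ((miss pt U cls j s b : ℕ) : ℝ) ≤
        2 * K * (4 * m / K * ((η + 5 * δ) * m / K)) := by
      calc ∑ s ∈ range (L - 1), ∑ b, ((miss pt U cls j s b : ℕ) : ℝ)
          ≤ ∑ _s ∈ range (L - 1), (4 * m / K * ((η + 5 * δ) * m / K)) := by
            refine Finset.sum_le_sum fun s hs => hmiss j s ?_
            rw [mem_range] at hs
            omega
        _ = ((L - 1 : ℕ) : ℝ) * (4 * m / K * ((η + 5 * δ) * m / K)) := by
            rw [Finset.sum_const, card_range, nsmul_eq_mul]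
        _ ≤ _ := by
            refine mul_le_mul_of_nonneg_right (le_trans ?_ hL2) (by positivity)
            exact_mod_cast Nat.sub_le L 1
    have h4 : (1 / (Δ : ℝ)) * ∑ s ∈ range (L - 1), ∑ b, ((miss pt U cls j s b : ℕ) : ℝ) ≤
        80 * (η + 5 * δ) * m := by
      refine (mul_le_mul_of_nonneg_left h3 (by positivity)).trans ?_
      have h5 : (1 / (Δ : ℝ)) * (2 * K * (4 * m / K * ((η + 5 * δ) * m / K))) =
          80 * (η + 5 * δ) * m * (m / (10 * K * Δ)) := by
        field_simp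
        ring
      rw [h5]
      refine mul_le_of_le_one_right (by positivity) ?_
      rw [div_le_one₀ (by positivity)]
      exact hD1
    have h5 := (abs_lt.1 h2).2
    push_cast
    nlinarith
  · intro j c x z hA
    have h2 : |∑ s ∈ Pos1, (((cls j s (τ j s c)).filter (fun p => Suit R1 x z p)).card : ℝ) -
        (1 / (Δ : ℝ)) * ∑ s ∈ Pos1, ∑ b, (((cls j s b).filter (fun p => Suit R1 x z p)).card : ℝ)| <
          δ * m := hτ1 (j, c, some (true, x, z))
    have h3 := hsuit R1 Pos1 hP1 j x z (h.suit1 x z hA j)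
    have h4 := (abs_lt.1 h2).1
    push_cast
    linarith
  · intro j c x z hA
    have h2 : |∑ s ∈ Pos2, (((cls j s (τ j s c)).filter (fun p => Suit R2 x z p)).card : ℝ) -
        (1 / (Δ : ℝ)) * ∑ s ∈ Pos2, ∑ b, (((cls j s b).filter (fun p => Suit R2 x z p)).card : ℝ)| <
          δ * m := hτ1 (j, c, some (false, x, z))
    have h3 := hsuit R2 Pos2 hP2 j x z (h.suit2 x z hA j)
    have h4 := (abs_lt.1 h2).1
    push_cast
    linarith
  · intro w
    have h2 := (abs_lt.1 (hτ2 w)).2
    have h3 : ∑ i : Fin J × Fin L, ∑ a, hd w i a (τ i.1 i.2 a) =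
        ((∑ j, ∑ s ∈ range (L - 1), ∑ c, ((cls j s (τ j s c)).filter (fun p =>
        (p.1 = w ∧ p.2 ∈ VM j c) ∨ (p.2 = w ∧ p.1 ∈ VM j c))).card : ℕ) : ℝ) := by
      push_cast
      rw [Fintype.sum_prod_type]
      refine Finset.sum_congr rfl fun j _ => ?_
      rw [← pos_sum (L := L) (range (L - 1)) (by intro s hs; rw [mem_range] at hs; omega)]
      refine Finset.sum_congr rfl fun s _ => ?_
      have hiff : ((s : ℕ) ∈ range (L - 1)) ↔ (s : ℕ) + 1 < L := by
        rw [mem_range]
        omega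
      by_cases hs : (s : ℕ) + 1 < L
      · rw [if_pos (hiff.2 hs)]
        refine Finset.sum_congr rfl fun a _ => ?_
        simp only [hd, if_pos hs]
        rfl
      · rw [if_neg fun h' => hs (hiff.1 h')]
        refine Finset.sum_eq_zero fun a _ => ?_
        simp only [hd, if_neg hs]
    have h4 : (1 / (Δ : ℝ)) * ∑ i, ∑ a, ∑ b, hd w i a b ≤ (η + δ) * m := by
      have h5 : ∑ i, ∑ a, ∑ b, hd w i a b ≤ K * (Δ * ((η + δ) * m / K)) := by
        refine le_trans ?_ (hrel w (Δ * ((η + δ) * m / K)) (by positivity))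
        refine Finset.sum_le_sum fun i _ => ?_
        calc ∑ a, ∑ b, hd w i a b ≤ ∑ _a : Fin Δ, (if rel w i then (η + δ) * m / K else 0) :=
              Finset.sum_le_sum fun a _ => hd_sum w i a
          _ = if rel w i then (Δ * ((η + δ) * m / K) : ℝ) else 0 := by
              rw [Finset.sum_const, card_univ, Fintype.card_fin, nsmul_eq_mul]
              split_ifs <;> simp
      refine (mul_le_mul_of_nonneg_left h5 (by positivity)).trans (le_of_eq ?_)
      field_simp
    rw [h3] at h2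
    linarith

end Pool.Agent.HCD
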