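import Pool.Agent.Lib.HCD.G6a

/-!
# G6b: number of links, number of joints

PROOF.  Write F = mkFam .., (j,c) = e i, C s = cls j s (τ j s c), VM = vs (virt i).
nlinks: |links i| ≤ ∑_{t<k} |C (L-2k+2t)| ≤ k * (2m/K) (first components are distinct members of a part).
joints: |W i| - |E i| = number of w ∈ W i without out-pair in E i (the map p ↦ p.1 is injective on E i with values in W i by `Str.ml`).
Such a w (position s in layer j) is of one of the kinds:
 s = L-2k-1: at most 2m/K;   w ∈ VM: at most |VM|;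
 s < L-2k-1, w missed by C s (counted in miss j s), or (w,w') ∈ C s with w' ∈ VM: at most |VM| (for w' given, s and w are determined);
 s ≥ L-2k, s = L-2k+2t (first vertex of a link position): missed (counted in miss) or mate in VM (at most |VM|) [if (w,w') ∈ C s with w, w'
   ∉ VM then w ∈ vs (links i), not in W i];   s = L-2k+2t+1: missed, or mate in VM (at most |VM|).
 Total ≤ 2m/K + ∑_{s<L-1} miss j s (τ j s c) + 4|VM|.
-/

set_option autoImplicit false

noncomputable section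

open scoped Classical
open Finset

namespace Pool.Agent.HCD

private theorem gb_mem_links {V : Type} {N J Δ : ℕ} {L k : ℕ}
    {cls : Fin J → ℕ → Fin Δ → Finset (V × V)} {τ : Fin J → ℕ → Equiv.Perm (Fin Δ)}
    {e : Fin N → Fin J × Fin Δ} {virt : Fin N → Finset (V × V)} {i : Fin N} {p : V × V} :
    p ∈ (mkFam L k cls τ e virt).links i ↔
      (∃ t < k, p ∈ cls (e i).1 (L - 2 * k + 2 * t) (τ (e i).1 (L - 2 * k + 2 * t) (e i).2)) ∧
        p.1 ∉ vs (virt i) ∧ p.2 ∉ vs (virt i) := by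
  simp only [mkFam, mem_filter, mem_biUnion, mem_range]

private theorem gb_mem_main {V : Type} {N J Δ : ℕ} {L k : ℕ}
    {cls : Fin J → ℕ → Fin Δ → Finset (V × V)} {τ : Fin J → ℕ → Equiv.Perm (Fin Δ)}
    {e : Fin N → Fin J × Fin Δ} {virt : Fin N → Finset (V × V)} {i : Fin N} {p : V × V} :
    p ∈ (mkFam L k cls τ e virt).main i ↔
      (∃ s < L - 2 * k - 1, p ∈ cls (e i).1 s (τ (e i).1 s (e i).2)) ∧
        p.1 ∉ vs (virt i) ∧ p.2 ∉ vs (virt i) := by
  simp only [mkFam, mem_filter, mem_biUnion, mem_range]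

private theorem gb_vs {V : Type} {E : Finset (V × V)} {w : V} :
    w ∈ vs E ↔ ∃ p ∈ E, p.1 = w ∨ p.2 = w := by
  simp only [vs, mem_union, mem_image]
  constructor
  · rintro (⟨p, hp, h⟩ | ⟨p, hp, h⟩)
    · exact ⟨p, hp, Or.inl h⟩
    · exact ⟨p, hp, Or.inr h⟩
  · rintro ⟨p, hp, h | h⟩
    · exact Or.inl ⟨p, hp, h⟩
    · exact Or.inr ⟨p, hp, h⟩

private theorem gb_cls_card {V P : Type} [Fintype V] {J Δ : ℕ} {pt : V → P} {U : Fin J → ℕ → P}
    {H : SimpleGraph V} {j : Fin J} {s : ℕ} {cl : Fin Δ → Finset (V × V)}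
    (h : IsCls (pe pt U H j s) cl) (c : Fin Δ) :
    (cl c).card ≤ (univ.filter (fun v => pt v = U j s)).card := by
  apply card_le_card_of_injOn Prod.fst
  · intro p hp
    have := h.sub c hp
    simp only [pe, mem_filter, mem_univ, true_and] at this
    simpa using this.1
  · intro p hp q hq hpq
    exact h.fst c p hp q hq hpq

theorem mkFam_nlinks {V P : Type} [Fintype V] {N J : ℕ} {pt : V → P} {U : Fin J → ℕ → P}
    {L Δ : ℕ} {H : SimpleGraph V} {virt : Fin N → Finset (V × V)}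
    (cls : Fin J → ℕ → Fin Δ → Finset (V × V))
    (hcls : ∀ j s, s + 1 < L → IsCls (pe pt U H j s) (cls j s))
    (τ : Fin J → ℕ → Equiv.Perm (Fin Δ)) (e : Fin N → Fin J × Fin Δ)
    (k : ℕ) (hk : 2 * k + 1 ≤ L) (M : ℝ)
    (hM : ∀ p, ((univ.filter (fun v => pt v = p)).card : ℝ) ≤ M) (i : Fin N) :
    (((mkFam L k cls τ e virt).links i).card : ℝ) ≤ k * M := by
  have h1 : ((mkFam L k cls τ e virt).links i).card ≤ ∑ t ∈ range k,
      (cls (e i).1 (L - 2 * k + 2 * t) (τ (e i).1 (L - 2 * k + 2 * t) (e i).2)).card := by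
    refine (card_filter_le _ _).trans ?_
    exact card_biUnion_le
  have h2 : ∀ t ∈ range k,
      ((cls (e i).1 (L - 2 * k + 2 * t) (τ (e i).1 (L - 2 * k + 2 * t) (e i).2)).card : ℝ) ≤ M := by
    intro t ht
    have ht' := mem_range.1 ht
    refine le_trans ?_ (hM (U (e i).1 (L - 2 * k + 2 * t)))
    exact_mod_cast gb_cls_card (hcls (e i).1 (L - 2 * k + 2 * t) (by omega)) _
  calc (((mkFam L k cls τ e virt).links i).card : ℝ)
      ≤ ((∑ t ∈ range k,
      (cls (e i).1 (L - 2 * k + 2 * t) (τ (e i).1 (L - 2 * k + 2 * t) (e i).2)).card : ℕ) : ℝ) := by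
        exact_mod_cast h1
    _ = ∑ t ∈ range k,
      ((cls (e i).1 (L - 2 * k + 2 * t) (τ (e i).1 (L - 2 * k + 2 * t) (e i).2)).card : ℝ) := by
        push_cast; rfl
    _ ≤ ∑ t ∈ range k, M := sum_le_sum h2
    _ = k * M := by simp

theorem mkFam_joints {V P : Type} [Fintype V] {N J : ℕ} {pt : V → P} {U : Fin J → ℕ → P}
    {L Δ : ℕ} {H : SimpleGraph V} {virt : Fin N → Finset (V × V)} (hpat : IsPat U L)
    (hv : ∀ i, IsMat (virt i)) (cls : Fin J → ℕ → Fin Δ → Finset (V × V))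
    (hcls : ∀ j s, s + 1 < L → IsCls (pe pt U H j s) (cls j s))
    (τ : Fin J → ℕ → Equiv.Perm (Fin Δ)) (e : Fin N → Fin J × Fin Δ)
    (he : Function.Injective e) (k : ℕ) (hk : 2 * k + 1 ≤ L) (M : ℝ)
    (hM : ∀ p, ((univ.filter (fun v => pt v = p)).card : ℝ) ≤ M) (i : Fin N) :
    (((mkFam L k cls τ e virt).W i).card : ℝ) ≤ ((mkFam L k cls τ e virt).E i).card + M +
      ((∑ s ∈ range (L - 1), miss pt U cls (e i).1 s (τ (e i).1 s (e i).2) : ℕ) : ℝ) +
      4 * (vs (virt i)).card := by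
  set F : Fam V N := mkFam L k cls τ e virt with hF
  set j : Fin J := (e i).1 with hj
  set c : Fin Δ := (e i).2 with hc
  set VM : Finset V := vs (virt i) with hVM
  obtain ⟨C, hC⟩ : ∃ C : ℕ → Finset (V × V), ∀ s, C s = cls j s (τ j s c) := ⟨_, fun s => rfl⟩
  have hCpe : ∀ s, s + 1 < L → ∀ p ∈ C s, pt p.1 = U j s ∧ pt p.2 = U j (s + 1) := by
    intro s hs p hp
    rw [hC] at hp
    have := (hcls j s hs).sub _ hp
    simp only [pe, mem_filter, mem_univ, true_and] at this
    exact ⟨this.1, this.2.1⟩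
  set B : Finset V := univ.filter (fun w => w ∉ vs (F.links i) ∧ ∀ p ∈ F.E i, p.1 ≠ w) with hB
  have h1 : (F.W i).card ≤ (F.E i).card + B.card := by
    have h2 : F.W i ⊆ (F.E i).image Prod.fst ∪ B := by
      intro w hw
      simp only [Fam.W, mem_sdiff, mem_univ, true_and] at hw
      by_cases h : ∃ p ∈ F.E i, p.1 = w
      · exact mem_union_left _ (mem_image.2 h)
      · apply mem_union_right
        rw [hB, mem_filter]
        exact ⟨mem_univ _, hw, fun p hp hpw => h ⟨p, hp, hpw⟩⟩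
    exact (card_le_card h2).trans ((card_union_le _ _).trans
      (Nat.add_le_add_right card_image_le _))
  set B1 : Finset V := univ.filter (fun v => pt v = U j (L - 2 * k - 1)) with hB1
  set B3 : Finset V := (range (L - 1)).biUnion (fun s =>
    (univ.filter (fun v => pt v = U j s ∧ ∀ p ∈ cls j s (τ j s c), p.1 ≠ v)) ∪
    (univ.filter (fun v => pt v = U j (s + 1) ∧ ∀ p ∈ cls j s (τ j s c), p.2 ≠ v))) with hB3
  set B4 : Finset V := univ.filter (fun w => ∃ w' ∈ VM, ∃ s, s + 1 < L ∧ (w, w') ∈ C s) with hB4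
  set B5 : Finset V := univ.filter (fun w => ∃ w' ∈ VM, ∃ s, s + 1 < L ∧ (w', w) ∈ C s) with hB5
  have hsub : B ⊆ (((B1 ∪ VM) ∪ B3) ∪ B4) ∪ B5 := by
    intro w hw
    rw [hB, mem_filter] at hw
    obtain ⟨_, hw1, hw2⟩ := hw
    by_contra hcon
    simp only [mem_union, not_or] at hcon
    obtain ⟨⟨⟨⟨c1, c2⟩, c3⟩, c4⟩, c5⟩ := hcon
    obtain ⟨s, hs1, hs2⟩ := hpat.cover j (pt w)
    have d1 : s ≠ L - 2 * k - 1 := by
      intro h0
      apply c1
      rw [hB1, mem_filter]
      exact ⟨mem_univ _, by rw [← h0, hs2]⟩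
    have d3 : s + 1 < L → ∃ p ∈ C s, p.1 = w ∧ p.2 ∉ VM := by
      intro hlt
      have h5 : ∃ p ∈ C s, p.1 = w := by
        by_contra hne
        apply c3
        rw [hB3, mem_biUnion]
        refine ⟨s, mem_range.2 (by omega), mem_union_left _ ?_⟩
        rw [mem_filter]
        exact ⟨mem_univ _, hs2.symm, fun p hp h => hne ⟨p, by rw [hC]; exact hp, h⟩⟩
      obtain ⟨p, hp, hpw⟩ := h5
      refine ⟨p, hp, hpw, fun hv2 => c4 ?_⟩
      rw [hB4, mem_filter]
      refine ⟨mem_univ _, p.2, hv2, s, hlt, ?_⟩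
      rw [← hpw]
      exact hp
    have d4 : 1 ≤ s → ∃ p ∈ C (s - 1), p.2 = w ∧ p.1 ∉ VM := by
      intro hlt
      have hss : s - 1 + 1 = s := by omega
      have h5 : ∃ p ∈ C (s - 1), p.2 = w := by
        by_contra hne
        apply c3
        rw [hB3, mem_biUnion]
        refine ⟨s - 1, mem_range.2 (by omega), mem_union_right _ ?_⟩
        rw [mem_filter, hss]
        exact ⟨mem_univ _, hs2.symm, fun p hp h => hne ⟨p, by rw [hC]; exact hp, h⟩⟩
      obtain ⟨p, hp, hpw⟩ := h5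
      refine ⟨p, hp, hpw, fun hv2 => c5 ?_⟩
      rw [hB5, mem_filter]
      refine ⟨mem_univ _, p.1, hv2, s - 1, by omega, ?_⟩
      rw [← hpw]
      exact hp
    rcases Nat.lt_or_ge s (L - 2 * k - 1) with hlt | hge
    · obtain ⟨p, hp, hpw, hpv⟩ := d3 (by omega)
      have hm : p ∈ F.main i := gb_mem_main.2 ⟨⟨s, hlt, by rw [← hj, ← hc, ← hC]; exact hp⟩,
        by rw [hpw]; exact c2, hpv⟩
      exact hw2 p (mem_union_left _ hm) hpw
    · apply hw1
      rw [gb_vs]
      obtain ⟨t, ht⟩ := Nat.even_or_odd' (s - (L - 2 * k))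
      rcases ht with ht | ht
      · obtain ⟨p, hp, hpw, hpv⟩ := d3 (by omega)
        refine ⟨p, gb_mem_links.2 ⟨⟨t, by omega, ?_⟩, by rw [hpw]; exact c2, hpv⟩, Or.inl hpw⟩
        have h6 : L - 2 * k + 2 * t = s := by omega
        rw [← hj, ← hc, h6, ← hC]
        exact hp
      · obtain ⟨p', hp', hpw', hpv'⟩ := d4 (by omega)
        refine ⟨p', gb_mem_links.2 ⟨⟨t, by omega, ?_⟩, hpv', by rw [hpw']; exact c2⟩, Or.inr hpw'⟩
        have h6 : L - 2 * k + 2 * t = s - 1 := by omega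
        rw [← hj, ← hc, h6, ← hC]
        exact hp'
  have e3 : B3.card ≤ ∑ s ∈ range (L - 1), miss pt U cls j s (τ j s c) := by
    refine card_biUnion_le.trans (sum_le_sum fun s _ => ?_)
    exact card_union_le _ _
  have e4 : B4.card ≤ VM.card := by
    apply card_le_card_of_forall_subsingleton (fun w w' => ∃ s, s + 1 < L ∧ (w, w') ∈ C s)
    · intro w hw
      rw [hB4, mem_filter] at hw
      obtain ⟨_, w', hw', h⟩ := hw
      exact ⟨w', hw', h⟩
    · intro w' _ w1 h1 w2 h2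
      obtain ⟨_, s1, hs1, h1⟩ := h1
      obtain ⟨_, s2, hs2, h2⟩ := h2
      have h3 := (hCpe s1 hs1 _ h1).2
      have h4 := (hCpe s2 hs2 _ h2).2
      have h5 := hpat.inj j (s1 + 1) (s2 + 1) hs1 hs2 (h3.symm.trans h4)
      have h6 : s1 = s2 := by omega
      subst h6
      rw [hC] at h1 h2
      exact congrArg Prod.fst ((hcls j s1 hs1).snd _ _ h1 _ h2 rfl)
  have e5 : B5.card ≤ VM.card := by
    apply card_le_card_of_forall_subsingleton (fun w w' => ∃ s, s + 1 < L ∧ (w', w) ∈ C s)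
    · intro w hw
      rw [hB5, mem_filter] at hw
      obtain ⟨_, w', hw', h⟩ := hw
      exact ⟨w', hw', h⟩
    · intro w' _ w1 h1 w2 h2
      obtain ⟨_, s1, hs1, h1⟩ := h1
      obtain ⟨_, s2, hs2, h2⟩ := h2
      have h3 := (hCpe s1 hs1 _ h1).1
      have h4 := (hCpe s2 hs2 _ h2).1
      have h6 := hpat.inj j s1 s2 (by omega) (by omega) (h3.symm.trans h4)
      subst h6
      rw [hC] at h1 h2
      exact congrArg Prod.snd ((hcls j s1 hs1).fst _ _ h1 _ h2 rfl)
  have e1 : (B1.card : ℝ) ≤ M := hM _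
  have e0 : B.card ≤ (((B1.card + VM.card) + B3.card) + B4.card) + B5.card := by
    refine (card_le_card hsub).trans ?_
    refine (card_union_le _ _).trans (Nat.add_le_add_right ?_ _)
    refine (card_union_le _ _).trans (Nat.add_le_add_right ?_ _)
    refine (card_union_le _ _).trans (Nat.add_le_add_right ?_ _)
    exact card_union_le _ _
  have f0 : ((F.W i).card : ℝ) ≤ (F.E i).card + B.card := by exact_mod_cast h1
  have f1 : (B.card : ℝ) ≤ (((B1.card + VM.card) + B3.card) + B4.card) + B5.card := by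
    exact_mod_cast e0
  have f3 : (B3.card : ℝ) ≤ ((∑ s ∈ range (L - 1), miss pt U cls j s (τ j s c) : ℕ) : ℝ) := by
    exact_mod_cast e3
  have f4 : (B4.card : ℝ) ≤ VM.card := by exact_mod_cast e4
  have f5 : (B5.card : ℝ) ≤ VM.card := by exact_mod_cast e5
  have f6 : (0 : ℝ) ≤ VM.card := Nat.cast_nonneg _
  linarith

end Pool.Agent.HCD
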