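import Pool.Agent.Lib.HCD.G6a

/-!
# G6c: loads

PROOF.  loadL: w ∈ vs (links i), (j,c) = e i: the position of w in layer j is one of the 2k positions ≥ L-2k; for each position at most two
layers j (IsPat.pos), so at most 4k layers, and at most Δ systems per layer (e injective).
loadE: let w ∈ ends i, (j,c) = e i, s = position of w in layer j.  Then one of:
 (1) s = 0 or s = L-2k-1: at most 2 + 2 layers, so at most 4Δ systems;
 (2) w ∈ vs (virt i): at most `b` systems;
 (3) for s' = s (if s+1<L) or s' = s-1 (if s ≥ 1): w is missed by cls j s' (τ j s' c): for each (j,s') the number of c is at most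
     Δ - (H-degree of w into the other part) ≤ ρ, and there are at most 2J pairs (j,s'): at most 2Jρ;
 (4) the mate of w in cls j s' (τ j s' c) is in VM = vs (virt i): the sum in `hload` counts it.
 [If none of these holds: w ∉ vs (virt i), it is matched at every position pair at w by vertices outside vs (virt i).  If 0 < s < L-2k-1 then w has
 an in-pair and an out-pair, not an end.  If s ≥ L-2k then w ∈ vs (links i), so w ∉ W i.]
-/

set_option autoImplicit false

noncomputable section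

open scoped Classical
open Finset

namespace Pool.Agent.HCD

private theorem gc_count {N J Δ : ℕ} (e : Fin N → Fin J × Fin Δ) (he : Function.Injective e)
    (A : Finset (Fin J × Fin Δ)) : (univ.filter (fun i => e i ∈ A)).card ≤ A.card :=
  Finset.card_le_card_of_injOn e (by intro i hi; simpa using hi) he.injOn

private theorem gc_layers {P : Type} {J : ℕ} {U : Fin J → ℕ → P} {L : ℕ} (hpat : IsPat U L) (p : P)
    (T : Finset ℕ) (hT : ∀ s ∈ T, s < L) :
    (univ.filter (fun j : Fin J => ∃ s ∈ T, U j s = p)).card ≤ 2 * T.card := by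
  have h1 : (univ.filter (fun j : Fin J => ∃ s ∈ T, U j s = p)) ⊆
      T.biUnion (fun s => univ.filter (fun j => U j s = p)) := by
    intro j hj
    simp only [mem_filter, mem_univ, true_and] at hj
    obtain ⟨s, hs, h⟩ := hj
    exact mem_biUnion.2 ⟨s, hs, by simp [h]⟩
  calc (univ.filter (fun j : Fin J => ∃ s ∈ T, U j s = p)).card
      ≤ (T.biUnion (fun s => univ.filter (fun j => U j s = p))).card := card_le_card h1
    _ ≤ ∑ s ∈ T, (univ.filter (fun j => U j s = p)).card := card_biUnion_le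
    _ ≤ ∑ s ∈ T, 2 := sum_le_sum fun s hs => hpat.pos s (hT s hs) p
    _ = 2 * T.card := by rw [sum_const, smul_eq_mul, mul_comm]

private theorem gc_mem_links {V : Type} {N J Δ : ℕ} {L k : ℕ}
    {cls : Fin J → ℕ → Fin Δ → Finset (V × V)} {τ : Fin J → ℕ → Equiv.Perm (Fin Δ)}
    {e : Fin N → Fin J × Fin Δ} {virt : Fin N → Finset (V × V)} {i : Fin N} {p : V × V} :
    p ∈ (mkFam L k cls τ e virt).links i ↔
      (∃ t < k, p ∈ cls (e i).1 (L - 2 * k + 2 * t) (τ (e i).1 (L - 2 * k + 2 * t) (e i).2)) ∧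
        p.1 ∉ vs (virt i) ∧ p.2 ∉ vs (virt i) := by
  simp only [mkFam, mem_filter, mem_biUnion, mem_range]

private theorem gc_mem_main {V : Type} {N J Δ : ℕ} {L k : ℕ}
    {cls : Fin J → ℕ → Fin Δ → Finset (V × V)} {τ : Fin J → ℕ → Equiv.Perm (Fin Δ)}
    {e : Fin N → Fin J × Fin Δ} {virt : Fin N → Finset (V × V)} {i : Fin N} {p : V × V} :
    p ∈ (mkFam L k cls τ e virt).main i ↔
      (∃ s < L - 2 * k - 1, p ∈ cls (e i).1 s (τ (e i).1 s (e i).2)) ∧
        p.1 ∉ vs (virt i) ∧ p.2 ∉ vs (virt i) := by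
  simp only [mkFam, mem_filter, mem_biUnion, mem_range]

private theorem gc_vs {V : Type} {E : Finset (V × V)} {w : V} :
    w ∈ vs E ↔ ∃ p ∈ E, p.1 = w ∨ p.2 = w := by
  simp only [vs, mem_union, mem_image]
  constructor
  · rintro (⟨p, hp, h⟩ | ⟨p, hp, h⟩)
    · exact ⟨p, hp, Or.inl h⟩
    · exact ⟨p, hp, Or.inr h⟩
  · rintro ⟨p, hp, h | h⟩
    · exact Or.inl ⟨p, hp, h⟩
    · exact Or.inr ⟨p, hp, h⟩

/-- a vertex of degree `d` is missed by at most `Δ - d` classes -/
private theorem gc_miss1 {V P : Type} [Fintype V] {J Δ : ℕ} {pt : V → P} {U : Fin J → ℕ → P}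
    {H : SimpleGraph V} {j : Fin J} {s : ℕ} {cl : Fin Δ → Finset (V × V)}
    (h : IsCls (pe pt U H j s) cl) (τ : Equiv.Perm (Fin Δ)) {w : V} (hw : pt w = U j s) :
    (univ.filter (fun c : Fin Δ => ∀ p ∈ cl (τ c), p.1 ≠ w)).card +
      (univ.filter (fun u => pt u = U j (s+1) ∧ H.Adj w u)).card ≤ Δ := by
  have h1 : (univ.filter (fun u => pt u = U j (s+1) ∧ H.Adj w u)).card ≤
      (univ \ univ.filter (fun c : Fin Δ => ∀ p ∈ cl (τ c), p.1 ≠ w)).card := by
    apply card_le_card_of_forall_subsingleton (fun u c => (w, u) ∈ cl (τ c))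
    · intro u hu
      simp only [mem_filter, mem_univ, true_and] at hu
      obtain ⟨c, hc⟩ := h.ex (w, u) (by simp [pe, hw, hu.1, hu.2])
      refine ⟨τ.symm c, ?_, by simpa using hc⟩
      simp only [mem_sdiff, mem_univ, mem_filter, true_and, not_forall]
      exact ⟨(w, u), by simpa using hc, by simp⟩
    · intro c _ u hu u' hu'
      have := h.fst (τ c) _ hu.2 _ hu'.2 rfl
      exact congrArg Prod.snd this
  have h2 := card_sdiff_add_card_eq_card
    (subset_univ (univ.filter (fun c : Fin Δ => ∀ p ∈ cl (τ c), p.1 ≠ w)))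
  rw [card_univ, Fintype.card_fin] at h2
  omega

private theorem gc_miss2 {V P : Type} [Fintype V] {J Δ : ℕ} {pt : V → P} {U : Fin J → ℕ → P}
    {H : SimpleGraph V} {j : Fin J} {s : ℕ} {cl : Fin Δ → Finset (V × V)}
    (h : IsCls (pe pt U H j s) cl) (τ : Equiv.Perm (Fin Δ)) {w : V} (hw : pt w = U j (s + 1)) :
    (univ.filter (fun c : Fin Δ => ∀ p ∈ cl (τ c), p.2 ≠ w)).card +
      (univ.filter (fun u => pt u = U j s ∧ H.Adj w u)).card ≤ Δ := by
  have h1 : (univ.filter (fun u => pt u = U j s ∧ H.Adj w u)).card ≤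
      (univ \ univ.filter (fun c : Fin Δ => ∀ p ∈ cl (τ c), p.2 ≠ w)).card := by
    apply card_le_card_of_forall_subsingleton (fun u c => (u, w) ∈ cl (τ c))
    · intro u hu
      simp only [mem_filter, mem_univ, true_and] at hu
      obtain ⟨c, hc⟩ := h.ex (u, w) (by simp [pe, hw, hu.1, hu.2.symm])
      refine ⟨τ.symm c, ?_, by simpa using hc⟩
      simp only [mem_sdiff, mem_univ, mem_filter, true_and, not_forall]
      exact ⟨(u, w), by simpa using hc, by simp⟩
    · intro c _ u hu u' hu'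
      have := h.snd (τ c) _ hu.2 _ hu'.2 rfl
      exact congrArg Prod.fst this
  have h2 := card_sdiff_add_card_eq_card
    (subset_univ (univ.filter (fun c : Fin Δ => ∀ p ∈ cl (τ c), p.2 ≠ w)))
  rw [card_univ, Fintype.card_fin] at h2
  omega

private theorem gc_prod_card {J Δ : ℕ} (T : Fin J → Fin Δ → Prop) (A : Finset (Fin J × Fin Δ))
    (hA : ∀ x ∈ A, T x.1 x.2) (ρ : ℝ)
    (hT : ∀ j, ∃ B : Finset (Fin Δ), (∀ c, T j c → c ∈ B) ∧ (B.card : ℝ) ≤ ρ) :
    (A.card : ℝ) ≤ J * ρ := by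
  choose B hB1 hB2 using hT
  have h1 : A ⊆ (univ : Finset (Fin J)).biUnion (fun j => (B j).map
      ⟨fun c => (j, c), fun a b h => congrArg Prod.snd h⟩) := by
    intro x hx
    rw [mem_biUnion]
    refine ⟨x.1, mem_univ _, ?_⟩
    rw [mem_map]
    exact ⟨x.2, hB1 _ _ (hA x hx), rfl⟩
  have h2 : A.card ≤ ∑ j, (B j).card := by
    refine (card_le_card h1).trans (card_biUnion_le.trans ?_)
    exact sum_le_sum fun j _ => (card_map _).le
  calc (A.card : ℝ) ≤ ((∑ j, (B j).card : ℕ) : ℝ) := by exact_mod_cast h2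
    _ = ∑ j, ((B j).card : ℝ) := by push_cast; rfl
    _ ≤ ∑ j : Fin J, ρ := sum_le_sum fun j _ => hB2 j
    _ = J * ρ := by simp

theorem mkFam_loadL {V P : Type} [Fintype V] {N J : ℕ} {pt : V → P} {U : Fin J → ℕ → P}
    {L Δ : ℕ} {H : SimpleGraph V} {virt : Fin N → Finset (V × V)} (hpat : IsPat U L)
    (cls : Fin J → ℕ → Fin Δ → Finset (V × V))
    (hcls : ∀ j s, s + 1 < L → IsCls (pe pt U H j s) (cls j s))
    (τ : Fin J → ℕ → Equiv.Perm (Fin Δ)) (e : Fin N → Fin J × Fin Δ)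
    (he : Function.Injective e) (k : ℕ) (hk : 2 * k + 1 ≤ L) (w : V) :
    (univ.filter (fun i => w ∈ vs ((mkFam L k cls τ e virt).links i))).card ≤ 4 * k * Δ := by
  have h1 : (univ.filter (fun i => w ∈ vs ((mkFam L k cls τ e virt).links i))) ⊆
      univ.filter (fun i => e i ∈
        (univ.filter (fun j : Fin J => ∃ s ∈ Finset.Ico (L - 2 * k) L, U j s = pt w)) ×ˢ
          (univ : Finset (Fin Δ))) := by
    intro i hi
    simp only [mem_filter, mem_univ, true_and, mem_product, and_true] at hi ⊢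
    obtain ⟨p, hp, hpw⟩ := gc_vs.1 hi
    obtain ⟨⟨t, ht, hpc⟩, _, _⟩ := gc_mem_links.1 hp
    have h2 := (hcls (e i).1 (L - 2 * k + 2 * t) (by omega)).sub _ hpc
    simp only [pe, mem_filter, mem_univ, true_and] at h2
    rcases hpw with h3 | h3
    · exact ⟨L - 2 * k + 2 * t, mem_Ico.2 ⟨by omega, by omega⟩, by rw [← h3, h2.1]⟩
    · exact ⟨L - 2 * k + 2 * t + 1, mem_Ico.2 ⟨by omega, by omega⟩, by rw [← h3, h2.2.1]⟩
  refine (card_le_card h1).trans ((gc_count e he _).trans ?_)
  rw [card_product, card_univ, Fintype.card_fin]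
  apply Nat.mul_le_mul_right
  have h3 := gc_layers hpat (pt w) (Ico (L - 2 * k) L) (fun s hs => (mem_Ico.1 hs).2)
  rw [Nat.card_Ico] at h3
  refine le_trans (le_of_eq ?_) (h3.trans (by omega))
  congr!

theorem mkFam_loadE {V P : Type} [Fintype V] {N J : ℕ} {pt : V → P} {U : Fin J → ℕ → P}
    {L Δ : ℕ} {H : SimpleGraph V} {virt : Fin N → Finset (V × V)} (hpat : IsPat U L)
    (hv : ∀ i, IsMat (virt i)) (cls : Fin J → ℕ → Fin Δ → Finset (V × V))
    (hcls : ∀ j s, s + 1 < L → IsCls (pe pt U H j s) (cls j s))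
    (τ : Fin J → ℕ → Equiv.Perm (Fin Δ)) (e : Fin N → Fin J × Fin Δ)
    (he : Function.Injective e) (k : ℕ) (hk : 2 * k + 1 ≤ L) (VM : Fin J → Fin Δ → Finset V)
    (hVM : ∀ i, VM (e i).1 (e i).2 = vs (virt i)) (ρ b B : ℝ) (hρ : 0 ≤ ρ)
    (hlo1 : ∀ j s, s + 1 < L → ∀ v, pt v = U j s → (Δ : ℝ) - ρ ≤
      (univ.filter (fun u => pt u = U j (s+1) ∧ H.Adj v u)).card)
    (hlo2 : ∀ j s, s + 1 < L → ∀ v, pt v = U j (s+1) → (Δ : ℝ) - ρ ≤
      (univ.filter (fun u => pt u = U j s ∧ H.Adj v u)).card)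
    (w : V) (hb : ((univ.filter (fun i => w ∈ vs (virt i))).card : ℝ) ≤ b)
    (hload : ((∑ j, ∑ s ∈ range (L - 1), ∑ c, ((cls j s (τ j s c)).filter (fun p =>
        (p.1 = w ∧ p.2 ∈ VM j c) ∨ (p.2 = w ∧ p.1 ∈ VM j c))).card : ℕ) : ℝ) ≤ B) :
    ((univ.filter (fun i => w ∈ (mkFam L k cls τ e virt).ends i)).card : ℝ) ≤
      4 * Δ + b + 2 * J * ρ + B := by
  choose ps hps1 hps2 using fun j => hpat.cover j (pt w)
  set F : Fam V N := mkFam L k cls τ e virt with hF
  -- the five sets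
  set A1 : Finset (Fin J × Fin Δ) := (univ.filter (fun j : Fin J =>
    ∃ s ∈ ({0, L - 2 * k - 1} : Finset ℕ), U j s = pt w)) ×ˢ (univ : Finset (Fin Δ)) with hA1
  set A3 : Finset (Fin J × Fin Δ) := univ.filter (fun x : Fin J × Fin Δ =>
    ps x.1 + 1 < L ∧ ∀ p ∈ cls x.1 (ps x.1) (τ x.1 (ps x.1) x.2), p.1 ≠ w) with hA3
  set A4 : Finset (Fin J × Fin Δ) := univ.filter (fun x : Fin J × Fin Δ =>
    1 ≤ ps x.1 ∧ ∀ p ∈ cls x.1 (ps x.1 - 1) (τ x.1 (ps x.1 - 1) x.2), p.2 ≠ w) with hA4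
  set A5 : Finset (Fin J × Fin Δ) := univ.filter (fun x : Fin J × Fin Δ =>
    ∃ s ∈ range (L - 1), ((cls x.1 s (τ x.1 s x.2)).filter (fun p =>
        (p.1 = w ∧ p.2 ∈ VM x.1 x.2) ∨ (p.2 = w ∧ p.1 ∈ VM x.1 x.2))).Nonempty) with hA5
  have hsub : (univ.filter (fun i => w ∈ F.ends i)) ⊆
      (((univ.filter (fun i => e i ∈ A1) ∪ univ.filter (fun i => w ∈ vs (virt i))) ∪
        univ.filter (fun i => e i ∈ A3)) ∪ univ.filter (fun i => e i ∈ A4)) ∪
        univ.filter (fun i => e i ∈ A5) := by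
    intro i hi
    by_contra hcon
    simp only [mem_union, mem_filter, mem_univ, true_and, not_or] at hcon hi
    obtain ⟨⟨⟨⟨c1, c2⟩, c3⟩, c4⟩, c5⟩ := hcon
    have hj1 := hps1 (e i).1
    have hj2 := hps2 (e i).1
    have d1 : ps (e i).1 ≠ 0 ∧ ps (e i).1 ≠ L - 2 * k - 1 := by
      constructor
      · intro h0
        apply c1
        simp only [hA1, mem_product, mem_filter, mem_univ, true_and, and_true]
        exact ⟨0, by simp, by rw [← h0, hj2]⟩
      · intro h0
        apply c1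
        simp only [hA1, mem_product, mem_filter, mem_univ, true_and, and_true]
        exact ⟨L - 2 * k - 1, by simp, by rw [← h0, hj2]⟩
    have hVMi : VM (e i).1 (e i).2 = vs (virt i) := hVM i
    -- the out-pair
    have d3 : ps (e i).1 + 1 < L → ∃ p ∈ cls (e i).1 (ps (e i).1)
        (τ (e i).1 (ps (e i).1) (e i).2), p.1 = w ∧ p.2 ∉ vs (virt i) := by
      intro hlt
      have h1 : ∃ p ∈ cls (e i).1 (ps (e i).1) (τ (e i).1 (ps (e i).1) (e i).2), p.1 = w := by
        by_contra hne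
        apply c3
        simp only [hA3, mem_filter, mem_univ, true_and]
        exact ⟨hlt, fun p hp h => hne ⟨p, hp, h⟩⟩
      obtain ⟨p, hp, hpw⟩ := h1
      refine ⟨p, hp, hpw, fun hv2 => c5 ?_⟩
      simp only [hA5, mem_filter, mem_univ, true_and]
      refine ⟨ps (e i).1, mem_range.2 (by omega), p, ?_⟩
      rw [mem_filter, hVMi]
      exact ⟨hp, Or.inl ⟨hpw, hv2⟩⟩
    have d4 : 1 ≤ ps (e i).1 → ∃ p ∈ cls (e i).1 (ps (e i).1 - 1)
        (τ (e i).1 (ps (e i).1 - 1) (e i).2), p.2 = w ∧ p.1 ∉ vs (virt i) := by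
      intro hlt
      have h1 : ∃ p ∈ cls (e i).1 (ps (e i).1 - 1) (τ (e i).1 (ps (e i).1 - 1) (e i).2),
          p.2 = w := by
        by_contra hne
        apply c4
        simp only [hA4, mem_filter, mem_univ, true_and]
        exact ⟨hlt, fun p hp h => hne ⟨p, hp, h⟩⟩
      obtain ⟨p, hp, hpw⟩ := h1
      refine ⟨p, hp, hpw, fun hv2 => c5 ?_⟩
      simp only [hA5, mem_filter, mem_univ, true_and]
      refine ⟨ps (e i).1 - 1, mem_range.2 (by omega), p, ?_⟩
      rw [mem_filter, hVMi]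
      exact ⟨hp, Or.inr ⟨hpw, hv2⟩⟩
    simp only [Fam.ends, endsOf, mem_filter, Fam.W, mem_sdiff, mem_univ, true_and] at hi
    obtain ⟨hi1, hi2⟩ := hi
    rcases Nat.lt_or_ge (ps (e i).1) (L - 2 * k - 1) with hlt | hge
    · obtain ⟨p, hp, hpw, hpv⟩ := d3 (by omega)
      obtain ⟨p', hp', hpw', hpv'⟩ := d4 (by omega)
      have hm : p ∈ F.main i := gc_mem_main.2 ⟨⟨_, hlt, hp⟩, by rw [hpw]; exact c2, hpv⟩
      have hm' : p' ∈ F.main i :=
        gc_mem_main.2 ⟨⟨_, by omega, hp'⟩, hpv', by rw [hpw']; exact c2⟩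
      rcases hi2 with h | h
      · exact h p (mem_union_left _ hm) hpw
      · exact h p' (mem_union_left _ hm') hpw'
    · apply hi1
      rw [gc_vs]
      obtain ⟨t, ht⟩ := Nat.even_or_odd' (ps (e i).1 - (L - 2 * k))
      rcases ht with ht | ht
      · obtain ⟨p, hp, hpw, hpv⟩ := d3 (by omega)
        refine ⟨p, gc_mem_links.2 ⟨⟨t, by omega, ?_⟩, by rw [hpw]; exact c2, hpv⟩, Or.inl hpw⟩
        have : L - 2 * k + 2 * t = ps (e i).1 := by omega
        rw [this]
        exact hp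
      · obtain ⟨p', hp', hpw', hpv'⟩ := d4 (by omega)
        refine ⟨p', gc_mem_links.2 ⟨⟨t, by omega, ?_⟩, hpv', by rw [hpw']; exact c2⟩, Or.inr hpw'⟩
        have : L - 2 * k + 2 * t = ps (e i).1 - 1 := by omega
        rw [this]
        exact hp'
  have e1 : (univ.filter (fun i => e i ∈ A1)).card ≤ 4 * Δ := by
    refine (gc_count e he _).trans ?_
    rw [hA1, card_product, card_univ, Fintype.card_fin]
    apply Nat.mul_le_mul_right
    have h3 := gc_layers hpat (pt w) ({0, L - 2 * k - 1} : Finset ℕ) (by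
      intro s hs
      simp only [mem_insert, mem_singleton] at hs
      omega)
    have h4 : ({0, L - 2 * k - 1} : Finset ℕ).card ≤ 2 := card_le_two
    refine le_trans (le_of_eq ?_) (h3.trans (by omega))
    congr!
  have e3 : ((univ.filter (fun i => e i ∈ A3)).card : ℝ) ≤ J * ρ := by
    have h1 : ((univ.filter (fun i => e i ∈ A3)).card : ℝ) ≤ (A3.card : ℝ) := by
      exact_mod_cast gc_count e he _
    refine h1.trans ?_
    apply gc_prod_card (fun j c => ps j + 1 < L ∧ ∀ p ∈ cls j (ps j) (τ j (ps j) c), p.1 ≠ w) A3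
    · intro x hx
      simp only [hA3, mem_filter, mem_univ, true_and] at hx
      exact hx
    · intro j
      by_cases hlt : ps j + 1 < L
      · have h2 := gc_miss1 (hcls j (ps j) hlt) (τ j (ps j)) (w := w) (hps2 j).symm
        have h3 := hlo1 j (ps j) hlt w (hps2 j).symm
        refine ⟨univ.filter (fun c => ∀ p ∈ cls j (ps j) (τ j (ps j) c), p.1 ≠ w), ?_, ?_⟩
        · intro c hc
          simp only [mem_filter, mem_univ, true_and]
          exact hc.2
        · have h5 : (((univ.filter (fun c => ∀ p ∈ cls j (ps j) (τ j (ps j) c), p.1 ≠ w)).card +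
              (univ.filter (fun u => pt u = U j (ps j+1) ∧ H.Adj w u)).card : ℕ) : ℝ) ≤ Δ := by
            exact_mod_cast h2
          push_cast at h5
          linarith
      · exact ⟨∅, fun c hc => absurd hc.1 hlt, by simpa using hρ⟩
  have e4 : ((univ.filter (fun i => e i ∈ A4)).card : ℝ) ≤ J * ρ := by
    have h1 : ((univ.filter (fun i => e i ∈ A4)).card : ℝ) ≤ (A4.card : ℝ) := by
      exact_mod_cast gc_count e he _
    refine h1.trans ?_
    apply gc_prod_card (fun j c => 1 ≤ ps j ∧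
      ∀ p ∈ cls j (ps j - 1) (τ j (ps j - 1) c), p.2 ≠ w) A4
    · intro x hx
      simp only [hA4, mem_filter, mem_univ, true_and] at hx
      exact hx
    · intro j
      by_cases hlt : 1 ≤ ps j
      · have hlt' : ps j - 1 + 1 < L := by have := hps1 j; omega
        have hpw : pt w = U j (ps j - 1 + 1) := by
          rw [Nat.sub_add_cancel hlt]
          exact (hps2 j).symm
        have h2 := gc_miss2 (hcls j (ps j - 1) hlt') (τ j (ps j - 1)) (w := w) hpw
        have h3 := hlo2 j (ps j - 1) hlt' w hpw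
        refine ⟨univ.filter (fun c => ∀ p ∈ cls j (ps j - 1) (τ j (ps j - 1) c), p.2 ≠ w), ?_, ?_⟩
        · intro c hc
          simp only [mem_filter, mem_univ, true_and]
          exact hc.2
        · have h5 : (((univ.filter (fun c => ∀ p ∈ cls j (ps j - 1)
              (τ j (ps j - 1) c), p.2 ≠ w)).card +
              (univ.filter (fun u => pt u = U j (ps j - 1) ∧ H.Adj w u)).card : ℕ) : ℝ) ≤ Δ := by
            exact_mod_cast h2
          push_cast at h5
          linarith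
      · exact ⟨∅, fun c hc => absurd hc.1 hlt, by simpa using hρ⟩
  have e5 : ((univ.filter (fun i => e i ∈ A5)).card : ℝ) ≤ B := by
    refine le_trans ?_ hload
    have h1 : (univ.filter (fun i => e i ∈ A5)).card ≤ ∑ j, ∑ s ∈ range (L - 1), ∑ c,
        ((cls j s (τ j s c)).filter (fun p =>
        (p.1 = w ∧ p.2 ∈ VM j c) ∨ (p.2 = w ∧ p.1 ∈ VM j c))).card := by
      refine (gc_count e he _).trans ?_
      have h2 : ∀ x ∈ A5, 1 ≤ ∑ s ∈ range (L - 1), ((cls x.1 s (τ x.1 s x.2)).filter (fun p =>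
        (p.1 = w ∧ p.2 ∈ VM x.1 x.2) ∨ (p.2 = w ∧ p.1 ∈ VM x.1 x.2))).card := by
        intro x hx
        simp only [hA5, mem_filter, mem_univ, true_and] at hx
        obtain ⟨s, hs, hne⟩ := hx
        exact (card_pos.2 hne).trans_le (single_le_sum (f := fun s =>
          ((cls x.1 s (τ x.1 s x.2)).filter (fun p =>
        (p.1 = w ∧ p.2 ∈ VM x.1 x.2) ∨ (p.2 = w ∧ p.1 ∈ VM x.1 x.2))).card)
          (fun _ _ => Nat.zero_le _) hs)
      calc A5.card = ∑ x ∈ A5, 1 := card_eq_sum_ones _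
        _ ≤ ∑ x ∈ A5, ∑ s ∈ range (L - 1), ((cls x.1 s (τ x.1 s x.2)).filter (fun p =>
            (p.1 = w ∧ p.2 ∈ VM x.1 x.2) ∨ (p.2 = w ∧ p.1 ∈ VM x.1 x.2))).card :=
            sum_le_sum h2
        _ ≤ ∑ x : Fin J × Fin Δ, ∑ s ∈ range (L - 1), ((cls x.1 s (τ x.1 s x.2)).filter (fun p =>
            (p.1 = w ∧ p.2 ∈ VM x.1 x.2) ∨ (p.2 = w ∧ p.1 ∈ VM x.1 x.2))).card :=
            sum_le_sum_of_subset (subset_univ _)
        _ = _ := by
            rw [Fintype.sum_prod_type]
            exact sum_congr rfl fun j _ => sum_comm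
    exact_mod_cast h1
  have e0 : ((univ.filter (fun i => w ∈ F.ends i)).card : ℝ) ≤
      (((((univ.filter (fun i => e i ∈ A1)).card + (univ.filter (fun i => w ∈ vs (virt i))).card) +
        (univ.filter (fun i => e i ∈ A3)).card) + (univ.filter (fun i => e i ∈ A4)).card) +
        (univ.filter (fun i => e i ∈ A5)).card : ℕ) := by
    have h1 := card_le_card hsub
    refine Nat.cast_le.2 (h1.trans ?_)
    refine (card_union_le _ _).trans (Nat.add_le_add_right ?_ _)
    refine (card_union_le _ _).trans (Nat.add_le_add_right ?_ _)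
    refine (card_union_le _ _).trans (Nat.add_le_add_right ?_ _)
    exact card_union_le _ _
  push_cast at e0
  have e1' : ((univ.filter (fun i => e i ∈ A1)).card : ℝ) ≤ 4 * Δ := by exact_mod_cast e1
  linarith

end Pool.Agent.HCD
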