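import Pool.Agent.Lib.HCD.G5
import Pool.Agent.Lib.HCD.G6b
import Pool.Agent.Lib.HCD.G6c

/-!
# G6: from PD to a good family

PROOF.  m = card V.  k = ⌊ζ K⌋₊ : ζK/2 ≤ ζK - 1 ≤ k ≤ ζK, 2k + 1 ≤ K/2 ≤ L (K ≥ 4·..: 2 ≤ ζK, ζ ≤ 1/10 gives K ≥ 20).  e: an injection Fin N → Fin J × Fin Δ
(hN).  VM j c = vs (virt i) if (j,c) = e i, else ∅.  cls from `exists_cls`, τ from `stage3` with Pos1 = {L-2k+2t : t < k},
Pos2 = range (L-2k-1).  F = mkFam L k cls τ e virt.
lin .. disj: `mkFam_str`.  joints: `mkFam_joints`, M = 2m/K: 2m/K + 81(η+5δ)m + 4ηm ≤ μ m by hK2, hc.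
nlinks: k * 2m/K ≤ 2ζm.  loadL: 4kΔ ≤ 4ζKΔ ≤ 8ζm (D2).  loadE: 4Δ + ηm + 2J(η+5δ)m/K + (η+2δ)m, 4Δ ≤ 8m/K, 2J = K.
suit1: the links are the pairs of the link classes not touching vs (virt i); a vertex kills at most one pair (positions), so at
least k γ m/(2K) - δm - ηm ≥ ζγm/4 - (δ+η)m ≥ ζγm/16.  suit2: each vertex kills at most two main pairs:
≥ (L-2k-1)γm/(2K) - δm - 2ηm ≥ γm/4 - .. ≥ γm/16.  (biUnion over positions is a disjoint union: the positions of p.1 differ.)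
-/

set_option autoImplicit false

noncomputable section

open scoped Classical
open Finset

namespace Pool.Agent.HCD

private theorem g6_kill {V P : Type} [Fintype V] {J : ℕ} {pt : V → P} {U : Fin J → ℕ → P}
    {L Δ : ℕ} {H : SimpleGraph V} (hpat : IsPat U L)
    (cls : Fin J → ℕ → Fin Δ → Finset (V × V))
    (hcls : ∀ j s, s + 1 < L → IsCls (pe pt U H j s) (cls j s)) (j : Fin J) (σ : ℕ → Fin Δ)
    (S : Finset ℕ) (hS : ∀ s ∈ S, s + 1 < L) (VM : Finset V) (Q : V × V → Prop) :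
    ∑ s ∈ S, ((cls j s (σ s)).filter Q).card ≤
      (((S.biUnion (fun s => cls j s (σ s))).filter
        (fun p => p.1 ∉ VM ∧ p.2 ∉ VM)).filter Q).card + 2 * VM.card := by
  have hpe : ∀ s ∈ S, ∀ p ∈ cls j s (σ s), pt p.1 = U j s ∧ pt p.2 = U j (s + 1) := by
    intro s hs p hp
    have h1 := (hcls j s (hS s hs)).sub (σ s) hp
    rw [pe, mem_filter] at h1
    exact ⟨h1.2.1, h1.2.2.1⟩
  have hdis : ∀ s ∈ S, ∀ s' ∈ S, s ≠ s' →
      Disjoint ((cls j s (σ s)).filter Q) ((cls j s' (σ s')).filter Q) := by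
    intro s hs s' hs' hne
    rw [Finset.disjoint_left]
    intro p hp hp'
    have h1 := (hpe s hs p (mem_filter.mp hp).1).1
    have h2 := (hpe s' hs' p (mem_filter.mp hp').1).1
    have h3 := hS s hs
    have h4 := hS s' hs'
    exact hne (hpat.inj j s s' (by omega) (by omega) (h1.symm.trans h2))
  rw [← card_biUnion (fun s hs s' hs' hne => hdis s hs s' hs' hne)]
  obtain ⟨A, hA⟩ : ∃ A, A = S.biUnion (fun s => cls j s (σ s)) := ⟨_, rfl⟩
  rw [← hA]
  have hAm : ∀ p ∈ A, ∃ s ∈ S, p ∈ cls j s (σ s) := fun p hp => by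
    rw [hA, mem_biUnion] at hp
    exact hp
  have hinj1 : Set.InjOn Prod.fst (A.filter (fun p => p.1 ∈ VM) : Set (V × V)) := by
    intro p hp q hq hpq
    obtain ⟨s, hs, hps⟩ := hAm p (mem_filter.mp (mem_coe.mp hp)).1
    obtain ⟨s', hs', hqs⟩ := hAm q (mem_filter.mp (mem_coe.mp hq)).1
    have h1 := (hpe s hs p hps).1
    have h2 := (hpe s' hs' q hqs).1
    have h3 := hS s hs
    have h4 := hS s' hs'
    have h5 : s = s' := hpat.inj j s s' (by omega) (by omega) (by rw [← h1, ← h2, hpq])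
    subst h5
    exact (hcls j s h3).fst _ p hps q hqs hpq
  have hinj2 : Set.InjOn Prod.snd (A.filter (fun p => p.2 ∈ VM) : Set (V × V)) := by
    intro p hp q hq hpq
    obtain ⟨s, hs, hps⟩ := hAm p (mem_filter.mp (mem_coe.mp hp)).1
    obtain ⟨s', hs', hqs⟩ := hAm q (mem_filter.mp (mem_coe.mp hq)).1
    have h1 := (hpe s hs p hps).2
    have h2 := (hpe s' hs' q hqs).2
    have h3 := hS s hs
    have h4 := hS s' hs'
    have h5 : s + 1 = s' + 1 := hpat.inj j _ _ h3 h4 (by rw [← h1, ← h2, hpq])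
    have h6 : s = s' := by omega
    subst h6
    exact (hcls j s h3).snd _ p hps q hqs hpq
  have c1 : (A.filter (fun p => p.1 ∈ VM)).card ≤ VM.card := by
    rw [← card_image_of_injOn hinj1]
    refine card_le_card fun v hv => ?_
    obtain ⟨p, hp, rfl⟩ := mem_image.mp hv
    exact (mem_filter.mp hp).2
  have c2 : (A.filter (fun p => p.2 ∈ VM)).card ≤ VM.card := by
    rw [← card_image_of_injOn hinj2]
    refine card_le_card fun v hv => ?_
    obtain ⟨p, hp, rfl⟩ := mem_image.mp hv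
    exact (mem_filter.mp hp).2
  have hsub : S.biUnion (fun s => (cls j s (σ s)).filter Q) ⊆
      ((A.filter (fun p => p.1 ∉ VM ∧ p.2 ∉ VM)).filter Q) ∪
        (A.filter (fun p => p.1 ∈ VM) ∪ A.filter (fun p => p.2 ∈ VM)) := by
    intro p hp
    obtain ⟨s, hs, hps⟩ := mem_biUnion.mp hp
    obtain ⟨h1, h2⟩ := mem_filter.mp hps
    have hpA : p ∈ A := by rw [hA, mem_biUnion]; exact ⟨s, hs, h1⟩
    by_cases h3 : p.1 ∈ VM
    · exact mem_union_right _ (mem_union_left _ (mem_filter.mpr ⟨hpA, h3⟩))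
    · by_cases h4 : p.2 ∈ VM
      · exact mem_union_right _ (mem_union_right _ (mem_filter.mpr ⟨hpA, h4⟩))
      · exact mem_union_left _ (mem_filter.mpr ⟨mem_filter.mpr ⟨hpA, h3, h4⟩, h2⟩)
  have h1 := card_le_card hsub
  have h2 := card_union_le ((A.filter (fun p => p.1 ∉ VM ∧ p.2 ∉ VM)).filter Q)
    (A.filter (fun p => p.1 ∈ VM) ∪ A.filter (fun p => p.2 ∈ VM))
  have h3 := card_union_le (A.filter (fun p => p.1 ∈ VM)) (A.filter (fun p => p.2 ∈ VM))
  omega

theorem exists_fam {V P : Type} [Fintype V] {N J : ℕ} {pt : V → P} {U : Fin J → ℕ → P}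
    {L K Δ : ℕ} {H R1 R2 : SimpleGraph V} {Adm : V → V → Prop} {virt : Fin N → Finset (V × V)}
    {η δ γ : ℝ} (h : PD pt U L K Δ H R1 R2 Adm virt η δ γ) (hη : 0 ≤ η) (hδ : 0 < δ) (hγ : 0 < γ)
    (hγ1 : γ ≤ 1) (h1 : 1 ≤ Fintype.card V) (ζ μ : ℝ) (hζ : 0 < ζ) (hζ1 : ζ ≤ 1 / 10)
    (hK1 : 2 ≤ ζ * K) (hK2 : 32 ≤ μ * K) (hμ : μ ≤ ζ * γ) (hc : 1000 * (η + δ) ≤ μ)
    (hnum : 4 * (Fintype.card V : ℝ) ^ 3 * Real.exp (-(δ ^ 2 * K / 128)) < 1 / 2) :
    ∃ F : Fam V N, F.virt = virt ∧ F.Good H R1 R2 Adm ζ γ μ := by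
  -- numbers
  obtain ⟨m, hm⟩ : ∃ m : ℝ, m = (Fintype.card V : ℝ) := ⟨_, rfl⟩
  have hm1 : 1 ≤ m := by rw [hm]; exact_mod_cast h1
  have hKpos : (0 : ℝ) < K := by
    by_contra hcon
    have : (K : ℝ) ≤ 0 := not_lt.mp hcon
    nlinarith
  have hKnat : 0 < K := by exact_mod_cast hKpos
  have hK20 : (20 : ℝ) ≤ K := by nlinarith
  obtain ⟨k, hk⟩ : ∃ k : ℕ, k = ⌊ζ * K⌋₊ := ⟨_, rfl⟩
  have hk1 : (k : ℝ) ≤ ζ * K := by rw [hk]; exact Nat.floor_le (by positivity)
  have hk2 : ζ * K < k + 1 := by rw [hk]; exact Nat.lt_floor_add_one _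
  have hk3 : ζ * K / 2 ≤ k := by linarith
  have hLK : (K : ℝ) ≤ L := by exact_mod_cast h.L1
  have hkL : 2 * k + 1 ≤ L := by
    have : (2 * k + 1 : ℝ) ≤ L := by nlinarith
    exact_mod_cast this
  have hJ : (2 : ℝ) * J = K := by exact_mod_cast h.J2
  have hμ0 : 0 < μ := by
    by_contra hcon
    have : μ ≤ 0 := not_lt.mp hcon
    nlinarith
  -- the injection
  obtain ⟨e⟩ : Nonempty (Fin N ↪ Fin J × Fin Δ) :=
    Function.Embedding.nonempty_of_card_le (by simpa using h.hN)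
  have he := e.injective
  obtain ⟨VM, hVMdef⟩ : ∃ VM : Fin J → Fin Δ → Finset V, VM = fun j c =>
    if hi : ∃ i, e i = (j, c) then vs (virt hi.choose) else ∅ := ⟨_, rfl⟩
  have hVM : ∀ i, VM (e i).1 (e i).2 = vs (virt i) := by
    intro i
    have hi : ∃ i', e i' = ((e i).1, (e i).2) := ⟨i, rfl⟩
    rw [hVMdef]
    simp only
    rw [dif_pos hi]
    have := he hi.choose_spec
    rw [this]
  have hVMs : ∀ j c p, (((VM j c).filter (fun v => pt v = p)).card : ℝ) ≤
      (η + δ) * (Fintype.card V : ℝ) / K := by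
    intro j c p
    rw [hVMdef]
    simp only
    split_ifs with hi
    · exact h.vsize _ p
    · simp only [filter_empty, card_empty, Nat.cast_zero]
      positivity
  obtain ⟨cls, hcls⟩ := exists_cls h
  have hP1 : ∀ s ∈ (range k).image (fun t => L - 2 * k + 2 * t), s + 1 < L := by
    intro s hs
    obtain ⟨t, ht, rfl⟩ := mem_image.mp hs
    have := mem_range.mp ht
    omega
  have hP2 : ∀ s ∈ range (L - 2 * k - 1), s + 1 < L := by
    intro s hs
    have := mem_range.mp hs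
    omega
  obtain ⟨τ, t1, t2, t3, t4⟩ := stage3 h hη hδ hγ.le h1 hKnat cls hcls VM hVMs
    ((range k).image (fun t => L - 2 * k + 2 * t)) (range (L - 2 * k - 1)) hP1 hP2 hnum
  have hM : ∀ p, ((univ.filter (fun v => pt v = p)).card : ℝ) ≤ 2 * m / K := by
    intro p
    rw [le_div_iff₀ hKpos, mul_comm, hm]
    exact h.size p
  have hstr := mkFam_str h.pat h.vmat cls hcls τ e he k hkL
  have hvt : ∀ i, ((vs (virt i)).card : ℝ) ≤ η * m := fun i => by rw [hm]; exact h.vtot i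
  have hδη : η + δ ≤ μ / 1000 := by linarith
  have hMm : 2 * m / K ≤ μ * m / 16 := by
    rw [div_le_iff₀ hKpos]
    nlinarith
  have hΔ : 4 * (Δ : ℝ) ≤ μ * m / 4 := by
    have h2 := h.D2
    rw [← hm] at h2
    have h3 : 32 * (4 * (Δ : ℝ)) ≤ 32 * (μ * m / 4) := by
      calc 32 * (4 * (Δ : ℝ)) ≤ (μ * K) * (4 * Δ) := by gcongr
        _ = 4 * μ * (K * Δ) := by ring
        _ ≤ 4 * μ * (2 * m) := by gcongr
        _ = 32 * (μ * m / 4) := by ring
    linarith
  refine ⟨mkFam L k cls τ e virt, rfl, ?_⟩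
  constructor
  · exact hstr.lin
  · exact hstr.lmat
  · exact hstr.mH
  · exact hstr.lH
  · exact hstr.ml
  · exact hstr.mv
  · exact hstr.disj
  · -- joints
    intro i
    have h2 := mkFam_joints h.pat h.vmat cls hcls τ e he k hkL (2 * m / K) hM i
    have h3 := t1 (e i).1 (e i).2
    rw [← hm] at h3 ⊢
    have h4 := hvt i
    have h5 : 81 * (η + 5 * δ) * m + 4 * (η * m) ≤ μ * m / 2 := by
      have : 81 * (η + 5 * δ) + 4 * η ≤ μ / 2 := by nlinarith
      nlinarith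
    nlinarith
  · -- nlinks
    intro i
    have h2 := mkFam_nlinks (virt := virt) cls hcls τ e k hkL (2 * m / K) hM i
    rw [← hm]
    refine h2.trans ?_
    calc (k : ℝ) * (2 * m / K) ≤ (ζ * K) * (2 * m / K) := by gcongr
      _ = 2 * ζ * m := by field_simp
  · -- loadE
    intro w
    have h2 := mkFam_loadE (virt := virt) h.pat h.vmat cls hcls τ e he k hkL VM hVM
      ((η + 5 * δ) * (Fintype.card V : ℝ) / K) (η * (Fintype.card V : ℝ))
      ((η + 2 * δ) * (Fintype.card V : ℝ)) (by positivity) h.lo1 h.lo2 w (h.vload w) (t4 w)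
    rw [← hm] at h2 ⊢
    refine h2.trans ?_
    have h3 : 2 * (J : ℝ) * ((η + 5 * δ) * m / K) = (η + 5 * δ) * m := by
      rw [hJ]; field_simp
    rw [h3]
    have h4 : η * m + (η + 5 * δ) * m + (η + 2 * δ) * m ≤ μ * m / 2 := by
      have : η + (η + 5 * δ) + (η + 2 * δ) ≤ μ / 2 := by nlinarith
      nlinarith
    nlinarith
  · -- loadL
    intro w
    have h2 := mkFam_loadL (virt := virt) h.pat cls hcls τ e he k hkL w
    have h3 : ((univ.filter (fun i => w ∈ vs ((mkFam L k cls τ e virt).links i))).card : ℝ) ≤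
        4 * k * Δ := by exact_mod_cast h2
    rw [← hm]
    refine h3.trans ?_
    have h4 := h.D2
    rw [← hm] at h4
    calc 4 * (k : ℝ) * Δ ≤ 4 * (ζ * K) * Δ := by gcongr
      _ = 4 * ζ * (K * Δ) := by ring
      _ ≤ 4 * ζ * (2 * m) := by gcongr
      _ = 8 * ζ * m := by ring
  · -- suit1
    intro i x z hxz
    have h2 := t2 (e i).1 (e i).2 x z hxz
    have h3 := g6_kill h.pat cls hcls (e i).1 (fun s => τ (e i).1 s (e i).2)
      ((range k).image (fun t => L - 2 * k + 2 * t)) hP1 (vs (virt i)) (Suit R1 x z)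
    have h4 : ((range k).image (fun t => L - 2 * k + 2 * t)).card = k := by
      rw [card_image_of_injective _ (fun a b hab => by have hab' : L - 2 * k + 2 * a = L - 2 * k + 2 * b := hab; omega), card_range]
    rw [h4, ← hm] at h2
    rw [image_biUnion] at h3
    have h5 : ((∑ s ∈ (range k).image (fun t => L - 2 * k + 2 * t),
        ((cls (e i).1 s (τ (e i).1 s (e i).2)).filter (fun p => Suit R1 x z p)).card : ℕ) : ℝ) ≤
        ((((mkFam L k cls τ e virt).links i).filter (fun p => Suit R1 x z p)).card : ℝ) +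
          2 * (vs (virt i)).card := by
      exact_mod_cast h3
    have h6 := hvt i
    have h7 : ζ * γ * m / 4 ≤ k * γ * m / (2 * K) := by
      rw [le_div_iff₀ (by positivity)]
      calc ζ * γ * m / 4 * (2 * K) = (ζ * K / 2) * γ * m := by ring
        _ ≤ k * γ * m := by gcongr
    have h8 : (δ + 2 * η) * m ≤ ζ * γ * m / 8 := by
      have : δ + 2 * η ≤ ζ * γ / 8 := by nlinarith [mul_pos hζ hγ]
      nlinarith
    rw [← hm]
    have h9 : 0 < ζ * γ * m := by positivity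
    nlinarith
  · -- suit2
    intro i x z hxz
    have h2 := t3 (e i).1 (e i).2 x z hxz
    have h3 := g6_kill h.pat cls hcls (e i).1 (fun s => τ (e i).1 s (e i).2)
      (range (L - 2 * k - 1)) hP2 (vs (virt i)) (Suit R2 x z)
    rw [card_range, ← hm] at h2
    have h5 : ((∑ s ∈ range (L - 2 * k - 1),
        ((cls (e i).1 s (τ (e i).1 s (e i).2)).filter (fun p => Suit R2 x z p)).card : ℕ) : ℝ) ≤
        ((((mkFam L k cls τ e virt).main i).filter (fun p => Suit R2 x z p)).card : ℝ) +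
          2 * (vs (virt i)).card := by
      exact_mod_cast h3
    have h6 := hvt i
    have hcast : ((L - 2 * k - 1 : ℕ) : ℝ) = L - 2 * k - 1 := by
      rw [Nat.sub_sub, Nat.cast_sub hkL]
      push_cast; ring
    have h7 : γ * m / 4 ≤ ((L - 2 * k - 1 : ℕ) : ℝ) * γ * m / (2 * K) := by
      rw [le_div_iff₀ (by positivity), hcast]
      have h71 : (K : ℝ) / 2 ≤ L - 2 * k - 1 := by nlinarith
      calc γ * m / 4 * (2 * K) = (K / 2) * γ * m := by ring
        _ ≤ (L - 2 * k - 1) * γ * m := by gcongr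
    have h8 : (δ + 2 * η) * m ≤ γ * m / 8 := by
      have h81 : ζ * γ ≤ γ := by nlinarith
      have : δ + 2 * η ≤ γ / 8 := by nlinarith
      nlinarith
    rw [← hm]
    have h9 : 0 < γ * m := by positivity
    nlinarith

end Pool.Agent.HCD
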