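import Pool.Agent.Lib.HCD.G4

/-!
# G6a: the systems; structural facts

PROOF of `mkFam_str`.  For i let (j,c) = e i; position of a vertex v = the unique s < L with U j s = pt v.
Main pairs p of position s: pt p.1 = U j s, pt p.2 = U j (s+1), s + 1 ≤ L - 2k - 1; link pairs: s = L-2k+2t, s + 1 = L-2k+2t+1.
lin: fst: p.1 = q.1, both main → same position s (inj) → same class → p = q (IsCls.fst); main / virt cannot share a vertex (filter);
both virt: IsMat.  rank: h v = position of v for v ∉ vs (virt i); on vs (virt i): 0 on first components, 1 on the others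
(IsMat.mix: a second component is not a first component).
lmat: ne: U j s ≠ U j (s+1) (or H irreflexive); fst, snd: position; mix: p.1 has position L-2k+2t, q.2 has position L-2k+2t'+1.
mH, lH: IsCls.sub.  ml: positions of main pairs are ≤ L-2k-1 < those of links; virtual vertices are not in links (filter).  mv: filter.
disj: i ≠ j': if s(p.1,p.2) = s(q.1,q.2): same pattern pair by pair1/pair2 (pair2 excludes the reversed direction), so the same
layer j and position s and the same ordered pair p = q, then the two colours τ j s c and τ j s c' are equal (uniq), so c = c', e i = e i'.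
-/

set_option autoImplicit false

noncomputable section

open scoped Classical
open Finset

namespace Pool.Agent.HCD

/-- the family of systems (section 2 of the paper, stage 3) -/
def mkFam {V : Type} {N J Δ : ℕ} (L k : ℕ) (cls : Fin J → ℕ → Fin Δ → Finset (V × V))
    (τ : Fin J → ℕ → Equiv.Perm (Fin Δ)) (e : Fin N → Fin J × Fin Δ)
    (virt : Fin N → Finset (V × V)) : Fam V N where
  main i := ((range (L - 2 * k - 1)).biUnion
    (fun s => cls (e i).1 s (τ (e i).1 s (e i).2))).filter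
    (fun p => p.1 ∉ vs (virt i) ∧ p.2 ∉ vs (virt i))
  virt := virt
  links i := ((range k).biUnion
    (fun t => cls (e i).1 (L - 2 * k + 2 * t) (τ (e i).1 (L - 2 * k + 2 * t) (e i).2))).filter
    (fun p => p.1 ∉ vs (virt i) ∧ p.2 ∉ vs (virt i))

/-- the structural part of `Fam.Good` -/
structure Fam.Str {V : Type} [Fintype V] {N : ℕ} (F : Fam V N) (H : SimpleGraph V) : Prop where
  lin : ∀ i, IsLin (F.E i)
  lmat : ∀ i, IsMat (F.links i)
  mH : ∀ i, ∀ p ∈ F.main i, H.Adj p.1 p.2
  lH : ∀ i, ∀ p ∈ F.links i, H.Adj p.1 p.2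
  ml : ∀ i, ∀ p ∈ F.E i, p.1 ∉ vs (F.links i) ∧ p.2 ∉ vs (F.links i)
  mv : ∀ i, ∀ p ∈ F.main i, p.1 ∉ vs (F.virt i) ∧ p.2 ∉ vs (F.virt i)
  disj : ∀ i j, i ≠ j → ∀ p ∈ F.main i ∪ F.links i, ∀ q ∈ F.main j ∪ F.links j,
    s(p.1, p.2) ≠ s(q.1, q.2)

private theorem mem_cls {V P : Type} [Fintype V] {J : ℕ} {pt : V → P} {U : Fin J → ℕ → P}
    {L Δ : ℕ} {H : SimpleGraph V} {cls : Fin J → ℕ → Fin Δ → Finset (V × V)}
    (hcls : ∀ j s, s + 1 < L → IsCls (pe pt U H j s) (cls j s)) {j : Fin J} {s : ℕ}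
    (hs : s + 1 < L) {c : Fin Δ} {p : V × V} (hp : p ∈ cls j s c) :
    pt p.1 = U j s ∧ pt p.2 = U j (s + 1) ∧ H.Adj p.1 p.2 := by
  have := (hcls j s hs).sub c hp
  simpa [pe] using this

private theorem mem_main {V : Type} {N J Δ : ℕ} {L k : ℕ}
    {cls : Fin J → ℕ → Fin Δ → Finset (V × V)} {τ : Fin J → ℕ → Equiv.Perm (Fin Δ)}
    {e : Fin N → Fin J × Fin Δ} {virt : Fin N → Finset (V × V)} {i : Fin N} {p : V × V}
    (hp : p ∈ (mkFam L k cls τ e virt).main i) :
    ∃ s, s < L - 2 * k - 1 ∧ p ∈ cls (e i).1 s (τ (e i).1 s (e i).2) ∧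
      p.1 ∉ vs (virt i) ∧ p.2 ∉ vs (virt i) := by
  simp only [mkFam, mem_filter, mem_biUnion, mem_range] at hp
  obtain ⟨⟨s, hs, h1⟩, h2, h3⟩ := hp
  exact ⟨s, hs, h1, h2, h3⟩

private theorem mem_links {V : Type} {N J Δ : ℕ} {L k : ℕ}
    {cls : Fin J → ℕ → Fin Δ → Finset (V × V)} {τ : Fin J → ℕ → Equiv.Perm (Fin Δ)}
    {e : Fin N → Fin J × Fin Δ} {virt : Fin N → Finset (V × V)} {i : Fin N} {p : V × V}
    (hp : p ∈ (mkFam L k cls τ e virt).links i) :
    ∃ t, t < k ∧ p ∈ cls (e i).1 (L - 2 * k + 2 * t) (τ (e i).1 (L - 2 * k + 2 * t) (e i).2) ∧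
      p.1 ∉ vs (virt i) ∧ p.2 ∉ vs (virt i) := by
  simp only [mkFam, mem_filter, mem_biUnion, mem_range] at hp
  obtain ⟨⟨s, hs, h1⟩, h2, h3⟩ := hp
  exact ⟨s, hs, h1, h2, h3⟩

private theorem mem_vs {V : Type} {E : Finset (V × V)} {v : V} :
    v ∈ vs E ↔ (∃ p ∈ E, p.1 = v) ∨ (∃ p ∈ E, p.2 = v) := by
  simp only [vs, mem_union, mem_image]

theorem mkFam_str {V P : Type} [Fintype V] {N J : ℕ} {pt : V → P} {U : Fin J → ℕ → P}
    {L Δ : ℕ} {H : SimpleGraph V} {virt : Fin N → Finset (V × V)} (hpat : IsPat U L)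
    (hv : ∀ i, IsMat (virt i)) (cls : Fin J → ℕ → Fin Δ → Finset (V × V))
    (hcls : ∀ j s, s + 1 < L → IsCls (pe pt U H j s) (cls j s))
    (τ : Fin J → ℕ → Equiv.Perm (Fin Δ)) (e : Fin N → Fin J × Fin Δ)
    (he : Function.Injective e) (k : ℕ) (hk : 2 * k + 1 ≤ L) :
    (mkFam L k cls τ e virt).Str H := by
  -- uniform access to the pairs of the main part and of the links
  have hU : ∀ i, ∀ p ∈ (mkFam L k cls τ e virt).main i ∪ (mkFam L k cls τ e virt).links i,
      ∃ s, s + 1 < L ∧ p ∈ cls (e i).1 s (τ (e i).1 s (e i).2) := by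
    intro i p hp
    rcases mem_union.1 hp with hp | hp
    · obtain ⟨s, hs, h1, -, -⟩ := mem_main hp
      exact ⟨s, by omega, h1⟩
    · obtain ⟨t, ht, h1, -, -⟩ := mem_links hp
      exact ⟨L - 2 * k + 2 * t, by omega, h1⟩
  refine ⟨?_, ?_, ?_, ?_, ?_, ?_, ?_⟩
  · -- lin
    intro i
    have hmv : ∀ p ∈ (mkFam L k cls τ e virt).main i, ∀ q ∈ virt i,
        p.1 ≠ q.1 ∧ p.1 ≠ q.2 ∧ p.2 ≠ q.1 ∧ p.2 ≠ q.2 := by
      intro p hp q hq
      obtain ⟨s, hs, -, h2, h3⟩ := mem_main hp
      refine ⟨fun h => h2 ?_, fun h => h2 ?_, fun h => h3 ?_, fun h => h3 ?_⟩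
      · exact mem_vs.2 (Or.inl ⟨q, hq, h.symm⟩)
      · exact mem_vs.2 (Or.inr ⟨q, hq, h.symm⟩)
      · exact mem_vs.2 (Or.inl ⟨q, hq, h.symm⟩)
      · exact mem_vs.2 (Or.inr ⟨q, hq, h.symm⟩)
    refine ⟨?_, ?_, ?_⟩
    · intro p hp q hq hpq
      rcases mem_union.1 hp with hp | hp <;> rcases mem_union.1 hq with hq | hq
      · obtain ⟨s, hs, h1, -, -⟩ := mem_main hp
        obtain ⟨s', hs', h1', -, -⟩ := mem_main hq
        have a := (mem_cls hcls (by omega) h1).1
        have b := (mem_cls hcls (by omega) h1').1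
        have hss : s = s' := hpat.inj _ s s' (by omega) (by omega) (by rw [← a, ← b, hpq])
        subst hss
        exact (hcls _ s (by omega)).fst _ p h1 q h1' hpq
      · exact absurd hpq (hmv p hp q hq).1
      · exact absurd hpq.symm (hmv q hq p hp).1
      · exact (hv i).fst p hp q hq hpq
    · intro p hp q hq hpq
      rcases mem_union.1 hp with hp | hp <;> rcases mem_union.1 hq with hq | hq
      · obtain ⟨s, hs, h1, -, -⟩ := mem_main hp
        obtain ⟨s', hs', h1', -, -⟩ := mem_main hq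
        have a := (mem_cls hcls (by omega) h1).2.1
        have b := (mem_cls hcls (by omega) h1').2.1
        have hss : s + 1 = s' + 1 :=
          hpat.inj _ (s + 1) (s' + 1) (by omega) (by omega) (by rw [← a, ← b, hpq])
        have hss' : s = s' := by omega
        subst hss'
        exact (hcls _ s (by omega)).snd _ p h1 q h1' hpq
      · exact absurd hpq (hmv p hp q hq).2.2.2
      · exact absurd hpq.symm (hmv q hq p hp).2.2.2
      · exact (hv i).snd p hp q hq hpq
    · choose pos hpos hpos2 using fun v => hpat.cover (e i).1 (pt v)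
      refine ⟨fun v => if v ∈ vs (virt i) then
        (if v ∈ (virt i).image Prod.fst then 0 else 1) else pos v, ?_⟩
      intro p hp
      rcases mem_union.1 hp with hp | hp
      · obtain ⟨s, hs, h1, h2, h3⟩ := mem_main hp
        have a := mem_cls hcls (show s + 1 < L by omega) h1
        have e1 : pos p.1 = s := hpat.inj _ _ _ (hpos _) (by omega) (by rw [hpos2, a.1])
        have e2 : pos p.2 = s + 1 := hpat.inj _ _ _ (hpos _) (by omega) (by rw [hpos2, a.2.1])
        simp only [h2, h3, if_false, e1, e2]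
        omega
      · have h1 : p.1 ∈ vs (virt i) := mem_vs.2 (Or.inl ⟨p, hp, rfl⟩)
        have h2 : p.2 ∈ vs (virt i) := mem_vs.2 (Or.inr ⟨p, hp, rfl⟩)
        have h3 : p.1 ∈ (virt i).image Prod.fst := mem_image.2 ⟨p, hp, rfl⟩
        have h4 : p.2 ∉ (virt i).image Prod.fst := by
          intro h
          obtain ⟨q, hq, hq2⟩ := mem_image.1 h
          exact (hv i).mix q hq p hp hq2
        simp only [h1, h2, h3, h4, if_true, if_false]
        omega
  · -- lmat
    intro i
    refine ⟨?_, ?_, ?_, ?_⟩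
    · intro p hp
      obtain ⟨t, ht, h1, -, -⟩ := mem_links hp
      exact (mem_cls hcls (by omega) h1).2.2.ne
    · intro p hp q hq hpq
      obtain ⟨t, ht, h1, -, -⟩ := mem_links hp
      obtain ⟨t', ht', h1', -, -⟩ := mem_links hq
      have a := (mem_cls hcls (by omega) h1).1
      have b := (mem_cls hcls (by omega) h1').1
      have hss : L - 2 * k + 2 * t = L - 2 * k + 2 * t' :=
        hpat.inj _ _ _ (by omega) (by omega) (by rw [← a, ← b, hpq])
      have htt : t = t' := by omega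
      subst htt
      exact (hcls _ _ (by omega)).fst _ p h1 q h1' hpq
    · intro p hp q hq hpq
      obtain ⟨t, ht, h1, -, -⟩ := mem_links hp
      obtain ⟨t', ht', h1', -, -⟩ := mem_links hq
      have a := (mem_cls hcls (by omega) h1).2.1
      have b := (mem_cls hcls (by omega) h1').2.1
      have hss : L - 2 * k + 2 * t + 1 = L - 2 * k + 2 * t' + 1 :=
        hpat.inj _ _ _ (by omega) (by omega) (by rw [← a, ← b, hpq])
      have htt : t = t' := by omega
      subst htt
      exact (hcls _ _ (by omega)).snd _ p h1 q h1' hpq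
    · intro p hp q hq hpq
      obtain ⟨t, ht, h1, -, -⟩ := mem_links hp
      obtain ⟨t', ht', h1', -, -⟩ := mem_links hq
      have a := (mem_cls hcls (by omega) h1).1
      have b := (mem_cls hcls (by omega) h1').2.1
      have hss : L - 2 * k + 2 * t = L - 2 * k + 2 * t' + 1 :=
        hpat.inj _ _ _ (by omega) (by omega) (by rw [← a, ← b, hpq])
      omega
  · -- mH
    intro i p hp
    obtain ⟨s, hs, h1⟩ := hU i p (mem_union_left _ hp)
    exact (mem_cls hcls hs h1).2.2
  · -- lH
    intro i p hp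
    obtain ⟨s, hs, h1⟩ := hU i p (mem_union_right _ hp)
    exact (mem_cls hcls hs h1).2.2
  · -- ml
    intro i p hp
    rcases mem_union.1 hp with hp | hp
    · obtain ⟨s, hs, h1, -, -⟩ := mem_main hp
      have a := mem_cls hcls (show s + 1 < L by omega) h1
      refine ⟨fun h => ?_, fun h => ?_⟩
      · rcases mem_vs.1 h with ⟨q, hq, hq2⟩ | ⟨q, hq, hq2⟩
        · obtain ⟨t, ht, g1, -, -⟩ := mem_links hq
          have b := (mem_cls hcls (by omega) g1).1
          have hss : s = L - 2 * k + 2 * t :=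
            hpat.inj _ _ _ (by omega) (by omega) (by rw [← a.1, ← b, hq2])
          omega
        · obtain ⟨t, ht, g1, -, -⟩ := mem_links hq
          have b := (mem_cls hcls (by omega) g1).2.1
          have hss : s = L - 2 * k + 2 * t + 1 :=
            hpat.inj _ _ _ (by omega) (by omega) (by rw [← a.1, ← b, hq2])
          omega
      · rcases mem_vs.1 h with ⟨q, hq, hq2⟩ | ⟨q, hq, hq2⟩
        · obtain ⟨t, ht, g1, -, -⟩ := mem_links hq
          have b := (mem_cls hcls (by omega) g1).1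
          have hss : s + 1 = L - 2 * k + 2 * t :=
            hpat.inj _ _ _ (by omega) (by omega) (by rw [← a.2.1, ← b, hq2])
          omega
        · obtain ⟨t, ht, g1, -, -⟩ := mem_links hq
          have b := (mem_cls hcls (by omega) g1).2.1
          have hss : s + 1 = L - 2 * k + 2 * t + 1 :=
            hpat.inj _ _ _ (by omega) (by omega) (by rw [← a.2.1, ← b, hq2])
          omega
    · have hvv : ∀ v, v ∈ vs (virt i) → v ∉ vs ((mkFam L k cls τ e virt).links i) := by
        intro v hv1 h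
        rcases mem_vs.1 h with ⟨q, hq, hq2⟩ | ⟨q, hq, hq2⟩
        · obtain ⟨t, ht, -, g2, g3⟩ := mem_links hq
          exact g2 (hq2 ▸ hv1)
        · obtain ⟨t, ht, -, g2, g3⟩ := mem_links hq
          exact g3 (hq2 ▸ hv1)
      exact ⟨hvv _ (mem_vs.2 (Or.inl ⟨p, hp, rfl⟩)), hvv _ (mem_vs.2 (Or.inr ⟨p, hp, rfl⟩))⟩
  · -- mv
    intro i p hp
    obtain ⟨s, hs, h1, h2, h3⟩ := mem_main hp
    exact ⟨h2, h3⟩
  · -- disj
    intro i j hij p hp q hq hpq
    obtain ⟨s, hs, h1⟩ := hU i p hp
    obtain ⟨s', hs', h1'⟩ := hU j q hq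
    have a := mem_cls hcls hs h1
    have b := mem_cls hcls hs' h1'
    rcases Sym2.eq_iff.1 hpq with ⟨c1, c2⟩ | ⟨c1, c2⟩
    · have hh := hpat.pair1 (e i).1 s (e j).1 s' hs hs' (by rw [← a.1, ← b.1, c1])
        (by rw [← a.2.1, ← b.2.1, c2])
      obtain ⟨hj, hs2⟩ := hh
      have hpq' : p = q := Prod.ext c1 c2
      subst hs2
      subst hpq'
      rw [← hj] at h1'
      have hu := (hcls _ s hs).uniq _ _ p h1 h1'
      have hc : (e i).2 = (e j).2 := (τ (e i).1 s).injective hu
      exact hij (he (Prod.ext hj hc))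
    · exact hpat.pair2 (e i).1 s (e j).1 s' hs hs' (by rw [← a.1, ← b.2.1, c1])
        (by rw [← a.2.1, ← b.1, c2])

end Pool.Agent.HCD
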