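import Pool.Agent.Lib.HCD.T14

/-!
# G7a: the joint stage and the host stage

PROOF of `joint_choice`.  `choice_stage` with R = R1, B = F.links, b = 1 (IsMat), s = ⌊μ m⌋₊, F = ⌊2 μ m⌋₊ (every vertex v is in at most
two joints of a system, and only if v ∈ ends i: use fst, snd of X i and loadE), Lo = ⌈√μ m⌉₊, 2N ≤ m:
2s + 4(F+Lo+1) + 2(2(Ns)/Lo + 1) ≤ 2μm + 8μm + 4√μ m + 8 + 2√μ m + 2 ≤ 16 √μ m + 10 < ζγm/16 (√μ ≤ ζγ/2000, 10 ≤ ζγm/100).
The vertices of joints are in W i, so not in vs (links i).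
PROOF of `host_choice`.  `choice_stage` with R = R2, X = Y, B = F.main, b = 2 (IsLin: one out-pair, one in-pair; q.swap ∉ main by rank),
s = ⌊2ζm⌋₊, F = ⌊8ζm⌋₊ (loadL and IsMat), Lo = ⌈√ζ m⌉₊: 2s + 8(F+Lo+1) + 4(2(Ns)/Lo + 1) ≤ 84 √ζ m + 20 < γ m/16
(√ζ ≤ γ/2000, 20 ≤ γm/100).
-/

set_option autoImplicit false

noncomputable section

open scoped Classical
open Finset

namespace Pool.Agent.HCD

private theorem memf7 {α : Type} (q : α → Prop) (inst : DecidablePred q) (s : Finset α) (a : α) :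
    a ∈ @Finset.filter α q inst s ↔ a ∈ s ∧ q a := @Finset.mem_filter α q inst s a

private theorem vs_fst {V : Type} {E : Finset (V × V)} {p : V × V} (hp : p ∈ E) : p.1 ∈ vs E := by
  unfold vs
  exact Finset.mem_union_left _ (Finset.mem_image_of_mem _ hp)

private theorem vs_snd {V : Type} {E : Finset (V × V)} {p : V × V} (hp : p ∈ E) : p.2 ∈ vs E := by
  unfold vs
  exact Finset.mem_union_right _ (Finset.mem_image_of_mem _ hp)

private theorem ends_sub {V : Type} [Fintype V] {N : ℕ} (F : Fam V N) (i : Fin N) {v : V}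
    (hv : v ∈ F.ends i) : v ∉ vs (F.links i) := by
  unfold Fam.ends endsOf Fam.W at hv
  rw [memf7, Finset.mem_sdiff] at hv
  exact hv.1.2

private theorem mat_one {V : Type} {E : Finset (V × V)} (hE : IsMat E) (v : V) :
    (E.filter (fun q => q.1 = v ∨ q.2 = v)).card ≤ 1 := by
  rw [Finset.card_le_one]
  intro a ha b hb
  rw [memf7] at ha hb
  obtain ⟨ha, ha'⟩ := ha
  obtain ⟨hb, hb'⟩ := hb
  rcases ha' with h | h <;> rcases hb' with h' | h'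
  · exact hE.fst a ha b hb (h.trans h'.symm)
  · exact absurd (h.trans h'.symm) (hE.mix a ha b hb)
  · exact absurd (h'.trans h.symm) (hE.mix b hb a ha)
  · exact hE.snd a ha b hb (h.trans h'.symm)

private theorem two_of {V : Type} {E : Finset (V × V)}
    (h1 : ∀ p ∈ E, ∀ q ∈ E, p.1 = q.1 → p = q) (h2 : ∀ p ∈ E, ∀ q ∈ E, p.2 = q.2 → p = q)
    (v : V) : (E.filter (fun q => q.1 = v ∨ q.2 = v)).card ≤ 2 := by
  rw [Finset.filter_or]
  refine (Finset.card_union_le _ _).trans ?_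
  have e1 : (E.filter (fun q => q.1 = v)).card ≤ 1 := by
    rw [Finset.card_le_one]
    intro a ha b hb
    rw [memf7] at ha hb
    exact h1 a ha.1 b hb.1 (ha.2.trans hb.2.symm)
  have e2 : (E.filter (fun q => q.2 = v)).card ≤ 1 := by
    rw [Finset.card_le_one]
    intro a ha b hb
    rw [memf7] at ha hb
    exact h2 a ha.1 b hb.1 (ha.2.trans hb.2.symm)
  omega

private theorem sum_load {V : Type} {N : ℕ} (X : Fin N → Finset (V × V)) (v : V) (c : ℕ)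
    (P : Fin N → Prop) [inst : DecidablePred P]
    (h1 : ∀ i, ((X i).filter (fun p => p.1 = v ∨ p.2 = v)).card ≤ c)
    (h2 : ∀ i, ¬ P i → ∀ p ∈ X i, ¬ (p.1 = v ∨ p.2 = v)) :
    ∑ i, ((X i).filter (fun p => p.1 = v ∨ p.2 = v)).card ≤
      c * (@Finset.filter _ P inst univ).card := by
  calc ∑ i, ((X i).filter (fun p => p.1 = v ∨ p.2 = v)).card
      ≤ ∑ i, (if P i then c else 0) := by
        refine Finset.sum_le_sum (fun i _ => ?_)
        split_ifs with hP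
        · exact h1 i
        · rw [Finset.filter_false_of_mem (h2 i hP)]
          simp
    _ = c * (@Finset.filter _ P inst univ).card := by
        rw [← Finset.sum_filter, Finset.sum_const, smul_eq_mul, mul_comm]

/-- the numerical heart: division by `Lo` -/
private theorem div_bound (N s Lo : ℕ) (m ν t : ℝ) (hm : 0 < m) (ht : 0 < t)
    (hN : 2 * (N : ℝ) ≤ m) (hs : (s : ℝ) ≤ ν * m) (hν : 0 ≤ ν) (hLo : t * m ≤ (Lo : ℝ)) :
    ((2 * (N * s) / Lo : ℕ) : ℝ) ≤ ν / t * m := by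
  have hLo0 : (0 : ℝ) < Lo := lt_of_lt_of_le (by positivity) hLo
  have h1 : ((2 * (N * s) / Lo : ℕ) : ℝ) ≤ ((2 * (N * s) : ℕ) : ℝ) / (Lo : ℝ) := Nat.cast_div_le
  refine h1.trans ?_
  rw [div_le_iff₀ hLo0]
  push_cast
  have h2 : 2 * ((N : ℝ) * s) ≤ m * (ν * m) := by
    have : (0 : ℝ) ≤ s := Nat.cast_nonneg _
    have : 2 * (N : ℝ) * s ≤ m * (ν * m) :=
      mul_le_mul hN hs (Nat.cast_nonneg _) hm.le
    linarith
  refine h2.trans ?_
  have h3 : ν / t * m * (t * m) ≤ ν / t * m * Lo :=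
    mul_le_mul_of_nonneg_left hLo (by positivity)
  have e1 : ν / t * m * (t * m) = m * (ν * m) := by
    field_simp
  linarith

theorem joint_choice {V : Type} [Fintype V] {N : ℕ} (F : Fam V N) (H R1 R2 : SimpleGraph V)
    (Adm : V → V → Prop) (ζ γ μ : ℝ) (hF : F.Good H R1 R2 Adm ζ γ μ) (hζ : 0 < ζ) (hζ1 : ζ ≤ 1)
    (hγ : 0 < γ) (hγ1 : γ ≤ 1) (hμ0 : 0 < μ) (hμ : μ ≤ (ζ * γ / 2000) ^ 2)
    (hm : 1000 ≤ ζ * γ * Fintype.card V) (hN : 2 * N ≤ Fintype.card V)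
    (X : Fin N → Finset (V × V))
    (hX : ∀ i, ∀ p ∈ X i, Adm p.1 p.2 ∧ p.1 ≠ p.2 ∧ p.1 ∈ F.ends i ∧ p.2 ∈ F.ends i)
    (hX1 : ∀ i, ∀ p ∈ X i, ∀ q ∈ X i, p.1 = q.1 → p = q)
    (hX2 : ∀ i, ∀ p ∈ X i, ∀ q ∈ X i, p.2 = q.2 → p = q)
    (hXc : ∀ i, ((X i).card : ℝ) ≤ μ * Fintype.card V) :
    ∃ g : Fin N → V × V → V × V,
      (∀ i, ∀ p ∈ X i, (g i p ∈ F.links i ∨ (g i p).swap ∈ F.links i) ∧ R1.Adj p.1 (g i p).1 ∧
        R1.Adj p.2 (g i p).2) ∧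
      (∀ i, ∀ p ∈ X i, ∀ q ∈ X i, p ≠ q → s((g i p).1, (g i p).2) ≠ s((g i q).1, (g i q).2)) ∧
      (∀ i, ∀ p ∈ X i, ∀ j, ∀ q ∈ X j, (i ≠ j ∨ p ≠ q) →
        s(p.1, (g i p).1) ≠ s(q.1, (g j q).1) ∧ s(p.2, (g i p).2) ≠ s(q.2, (g j q).2)) ∧
      (∀ i, ∀ p ∈ X i, ∀ j, ∀ q ∈ X j, s(p.1, (g i p).1) ≠ s(q.2, (g j q).2)) := by
  set m : ℝ := (Fintype.card V : ℝ) with hmdef
  have hζγ : 0 < ζ * γ := mul_pos hζ hγ
  have hζγ1 : ζ * γ ≤ 1 := mul_le_one₀ hζ1 hγ.le hγ1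
  have hm0 : 0 < m := by
    by_contra hh
    push Not at hh
    nlinarith
  have hNm : 2 * (N : ℝ) ≤ m := by
    rw [hmdef]
    exact_mod_cast hN
  set t : ℝ := Real.sqrt μ with ht
  have ht0 : 0 < t := Real.sqrt_pos.2 hμ0
  have ht2 : t ^ 2 = μ := Real.sq_sqrt hμ0.le
  have ht3 : t ≤ ζ * γ / 2000 := by
    rw [ht]
    exact Real.sqrt_le_iff.2 ⟨by positivity, hμ⟩
  have htm : 0 < t * m := mul_pos ht0 hm0
  refine choice_stage R1 X F.links (fun i p hp => (hX i p hp).2.1) ?_ ?_ 1 ⌊μ * m⌋₊ ⌊2 * μ * m⌋₊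
    ⌈t * m⌉₊ (Nat.ceil_pos.2 htm) (fun i v => mat_one (hF.lmat i) v) ?_ ?_ ?_
  · intro i p hp q hq
    have h1 := ends_sub F i (hX i p hp).2.2.1
    have h2 := ends_sub F i (hX i p hp).2.2.2
    refine ⟨?_, ?_, ?_, ?_⟩
    · intro h; exact h1 (h ▸ vs_fst hq)
    · intro h; exact h1 (h ▸ vs_snd hq)
    · intro h; exact h2 (h ▸ vs_fst hq)
    · intro h; exact h2 (h ▸ vs_snd hq)
  · intro i q hq
    exact ⟨(hF.lmat i).ne q hq, fun hs => (hF.lmat i).mix q.swap hs q hq rfl⟩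
  · intro i
    exact Nat.le_floor (hXc i)
  · intro v
    refine Nat.le_floor ?_
    have h1 := sum_load X v 2 (fun i => v ∈ F.ends i)
      (fun i => two_of (hX1 i) (hX2 i) v) (by
        rintro i hi p hp (h | h)
        · exact hi (h ▸ (hX i p hp).2.2.1)
        · exact hi (h ▸ (hX i p hp).2.2.2))
    have h2 := hF.loadE v
    have h3 : ((∑ i, ((X i).filter (fun p => p.1 = v ∨ p.2 = v)).card : ℕ) : ℝ) ≤
        2 * ((univ.filter (fun i => v ∈ F.ends i)).card : ℝ) := by exact_mod_cast h1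
    rw [← hmdef] at h2
    linarith
  · intro i p hp
    have h1 := hF.suit1 i p.1 p.2 (hX i p hp).1
    rw [← hmdef] at h1
    have hs : ((⌊μ * m⌋₊ : ℕ) : ℝ) ≤ μ * m := Nat.floor_le (by positivity)
    have hF' : ((⌊2 * μ * m⌋₊ : ℕ) : ℝ) ≤ 2 * μ * m := Nat.floor_le (by positivity)
    have hL1 : t * m ≤ ((⌈t * m⌉₊ : ℕ) : ℝ) := Nat.le_ceil _
    have hL2 : ((⌈t * m⌉₊ : ℕ) : ℝ) ≤ t * m + 1 := (Nat.ceil_lt_add_one htm.le).le
    have hd := div_bound N ⌊μ * m⌋₊ ⌈t * m⌉₊ m μ t hm0 ht0 hNm hs hμ0.le hL1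
    have e1 : μ / t = t := by
      rw [div_eq_iff ht0.ne', ← ht2]
      ring
    rw [e1] at hd
    generalize 2 * (N * ⌊μ * m⌋₊) / ⌈t * m⌉₊ = Q at hd ⊢
    generalize ⌊μ * m⌋₊ = s at hs ⊢
    generalize ⌊2 * μ * m⌋₊ = Fn at hF' ⊢
    generalize ⌈t * m⌉₊ = Lo at hL1 hL2 ⊢
    have hlt : ((2 * s + 4 * 1 * (Fn + Lo + 1) + 2 * 1 * (Q + 1) : ℕ) : ℝ) <
        (((F.links i).filter (fun q => Suit R1 p.1 p.2 q)).card : ℝ) := by
      refine lt_of_lt_of_le ?_ h1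
      push_cast
      have hμt : μ * m ≤ t * m := by
        have : μ ≤ t := by
          rw [← ht2]
          nlinarith
        exact mul_le_mul_of_nonneg_right this hm0.le
      have htm3 : t * m ≤ ζ * γ / 2000 * m := mul_le_mul_of_nonneg_right ht3 hm0.le
      nlinarith
    exact_mod_cast hlt

theorem host_choice {V : Type} [Fintype V] {N : ℕ} (F : Fam V N) (H R1 R2 : SimpleGraph V)
    (Adm : V → V → Prop) (ζ γ μ : ℝ) (hF : F.Good H R1 R2 Adm ζ γ μ) (hζ : 0 < ζ)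
    (hγ : 0 < γ) (hγ1 : γ ≤ 1) (hζ2 : ζ ≤ (γ / 2000) ^ 2)
    (hm : 2000 ≤ γ * Fintype.card V) (hN : 2 * N ≤ Fintype.card V)
    (Y : Fin N → Finset (V × V)) (hY : ∀ i, Y i ⊆ F.links i)
    (hadm : ∀ i, ∀ p ∈ F.links i, Adm p.1 p.2) :
    ∃ g : Fin N → V × V → V × V,
      (∀ i, ∀ p ∈ Y i, (g i p ∈ F.main i ∨ (g i p).swap ∈ F.main i) ∧ R2.Adj p.1 (g i p).1 ∧
        R2.Adj p.2 (g i p).2) ∧
      (∀ i, ∀ p ∈ Y i, ∀ q ∈ Y i, p ≠ q → s((g i p).1, (g i p).2) ≠ s((g i q).1, (g i q).2)) ∧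
      (∀ i, ∀ p ∈ Y i, ∀ j, ∀ q ∈ Y j, (i ≠ j ∨ p ≠ q) →
        s(p.1, (g i p).1) ≠ s(q.1, (g j q).1) ∧ s(p.2, (g i p).2) ≠ s(q.2, (g j q).2)) ∧
      (∀ i, ∀ p ∈ Y i, ∀ j, ∀ q ∈ Y j, s(p.1, (g i p).1) ≠ s(q.2, (g j q).2)) := by
  set m : ℝ := (Fintype.card V : ℝ) with hmdef
  have hm0 : 0 < m := by
    by_contra hh
    push Not at hh
    nlinarith
  have hNm : 2 * (N : ℝ) ≤ m := by
    rw [hmdef]
    exact_mod_cast hN
  set t : ℝ := Real.sqrt ζ with ht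
  have ht0 : 0 < t := Real.sqrt_pos.2 hζ
  have ht2 : t ^ 2 = ζ := Real.sq_sqrt hζ.le
  have ht3 : t ≤ γ / 2000 := by
    rw [ht]
    exact Real.sqrt_le_iff.2 ⟨by positivity, hζ2⟩
  have htm : 0 < t * m := mul_pos ht0 hm0
  refine choice_stage R2 Y F.main (fun i p hp => (hF.lmat i).ne p (hY i hp)) ?_ ?_ 2
    ⌊2 * ζ * m⌋₊ ⌊8 * ζ * m⌋₊ ⌈t * m⌉₊ (Nat.ceil_pos.2 htm) ?_ ?_ ?_ ?_
  · intro i p hp q hq
    have hq' : q ∈ F.E i := by
      unfold Fam.E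
      exact Finset.mem_union_left _ hq
    have h1 := hF.ml i q hq'
    refine ⟨?_, ?_, ?_, ?_⟩
    · intro h; exact h1.1 (h ▸ vs_fst (hY i hp))
    · intro h; exact h1.2 (h ▸ vs_fst (hY i hp))
    · intro h; exact h1.1 (h ▸ vs_snd (hY i hp))
    · intro h; exact h1.2 (h ▸ vs_snd (hY i hp))
  · intro i q hq
    refine ⟨(hF.mH i q hq).ne, fun hs => ?_⟩
    obtain ⟨h, hh⟩ := (hF.lin i).rank
    have hq1 : q ∈ F.E i := by
      unfold Fam.E
      exact Finset.mem_union_left _ hq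
    have hq2 : q.swap ∈ F.E i := by
      unfold Fam.E
      exact Finset.mem_union_left _ hs
    have h1 := hh q hq1
    have h2 := hh q.swap hq2
    simp only [Prod.fst_swap, Prod.snd_swap] at h2
    omega
  · intro i v
    refine two_of (fun p hp q hq => ?_) (fun p hp q hq => ?_) v
    · exact (hF.lin i).fst p (Finset.mem_union_left _ hp) q (Finset.mem_union_left _ hq)
    · exact (hF.lin i).snd p (Finset.mem_union_left _ hp) q (Finset.mem_union_left _ hq)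
  · intro i
    refine Nat.le_floor ?_
    have h1 : ((Y i).card : ℝ) ≤ ((F.links i).card : ℝ) := by
      exact_mod_cast Finset.card_le_card (hY i)
    exact h1.trans (hF.nlinks i)
  · intro v
    refine Nat.le_floor ?_
    have h1 := sum_load Y v 1 (fun i => v ∈ vs (F.links i))
      (fun i => (Finset.card_le_card (Finset.filter_subset_filter _ (hY i))).trans
        (mat_one (hF.lmat i) v)) (by
        rintro i hi p hp (h | h)
        · exact hi (h ▸ vs_fst (hY i hp))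
        · exact hi (h ▸ vs_snd (hY i hp)))
    have h2 := hF.loadL v
    have h3 : ((∑ i, ((Y i).filter (fun p => p.1 = v ∨ p.2 = v)).card : ℕ) : ℝ) ≤
        1 * ((univ.filter (fun i => v ∈ vs (F.links i))).card : ℝ) := by exact_mod_cast h1
    rw [← hmdef] at h2
    linarith
  · intro i p hp
    have h1 := hF.suit2 i p.1 p.2 (hadm i p (hY i hp))
    rw [← hmdef] at h1
    have hs : ((⌊2 * ζ * m⌋₊ : ℕ) : ℝ) ≤ 2 * ζ * m := Nat.floor_le (by positivity)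
    have hF' : ((⌊8 * ζ * m⌋₊ : ℕ) : ℝ) ≤ 8 * ζ * m := Nat.floor_le (by positivity)
    have hL1 : t * m ≤ ((⌈t * m⌉₊ : ℕ) : ℝ) := Nat.le_ceil _
    have hL2 : ((⌈t * m⌉₊ : ℕ) : ℝ) ≤ t * m + 1 := (Nat.ceil_lt_add_one htm.le).le
    have hd := div_bound N ⌊2 * ζ * m⌋₊ ⌈t * m⌉₊ m (2 * ζ) t hm0 ht0 hNm hs (by positivity) hL1
    have e1 : 2 * ζ / t = 2 * t := by
      rw [div_eq_iff ht0.ne', ← ht2]
      ring
    rw [e1] at hd
    generalize 2 * (N * ⌊2 * ζ * m⌋₊) / ⌈t * m⌉₊ = Q at hd ⊢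
    generalize ⌊2 * ζ * m⌋₊ = s at hs ⊢
    generalize ⌊8 * ζ * m⌋₊ = Fn at hF' ⊢
    generalize ⌈t * m⌉₊ = Lo at hL1 hL2 ⊢
    have hlt : ((2 * s + 4 * 2 * (Fn + Lo + 1) + 2 * 2 * (Q + 1) : ℕ) : ℝ) <
        (((F.main i).filter (fun q => Suit R2 p.1 p.2 q)).card : ℝ) := by
      refine lt_of_lt_of_le ?_ h1
      push_cast
      have hζt : ζ * m ≤ t * m := by
        have : ζ ≤ t := by
          rw [← ht2]
          nlinarith
        exact mul_le_mul_of_nonneg_right this hm0.le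
      have htm3 : t * m ≤ γ / 2000 * m := mul_le_mul_of_nonneg_right ht3 hm0.le
      nlinarith
    exact_mod_cast hlt

end Pool.Agent.HCD
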