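import Pool.Agent.Lib.HCD.T10

/-!
# G7b: one system: insertion of the links

PROOF.  l' = expand ins l with: ins a = [(gJ p).1, (gJ p).2] if p = (a,b) ∈ X (b unique: X ⊆ cp l, `cp_fst`); otherwise, if there is q ∈ Y
with gH q = (a,b) ∈ cp l then [q.1, q.2], or with (gH q).swap = (a,b) ∈ cp l then [q.2, q.1] (q unique by hHinj; for the consecutive
pair (a,b) ∈ cp l of the main pair; (a,b) ∉ X by E_cp and cp_fst); otherwise [].
Every link is inserted exactly once: links used by gJ (Y is the complement, hY) and Y: every q ∈ Y has gH q or its swap in main ⊆ E, so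
(E_cp) exactly at one position of l.  Nodup and membership: `nodup_expand`, `mem_expand`; the vertices of l are those outside vs links,
the inserted ones are the vertices of the links (IsMat: different links are disjoint).
Consecutive pairs: `mem_cp_expand`: for p = (a,b) ∈ cp l: ins a = [] : p itself: p ∉ X, so p or p.swap ∈ main ∪ virt.  ins a = [u,v]: the pairs (a,u),
(u,v), (v,b): joint: s(a,(gJ p).1), s(gJ p) = a link, s((gJ p).2, b) with p.2 = b; host q ∈ Y with gH q = (a,b): s(q.1,a), s(q.1,q.2), s(q.2,b); with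
(gH q).swap = (a,b): (gH q).2 = a: pairs (a,q.2), (q.2,q.1), (q.1,b), (gH q).1 = b.
A virtual pair is in cp l (one direction, not in X); it is not the host of any q ∈ Y (mv), so ins = [] there and it stays.
-/

set_option autoImplicit false

noncomputable section

open scoped Classical
open Finset

namespace Pool.Agent.HCD

/-- the edges of one finished system -/
def sysE {V : Type} (main links X Y : Finset (V × V)) (gJ gH : V × V → V × V) : Set (Sym2 V) :=
  {e | (∃ p ∈ main ∪ links, e = s(p.1, p.2)) ∨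
    (∃ p ∈ X, e = s(p.1, (gJ p).1) ∨ e = s(p.2, (gJ p).2)) ∨
    (∃ q ∈ Y, e = s(q.1, (gH q).1) ∨ e = s(q.2, (gH q).2))}

private lemma sym_of {V : Type} {c x : V × V} (h : c = x ∨ c = x.swap) :
    s(c.1, c.2) = s(x.1, x.2) := by
  rcases h with rfl | rfl
  · rfl
  · exact Sym2.eq_swap

private lemma of_sym {V : Type} {c x : V × V} (h : s(c.1, c.2) = s(x.1, x.2)) :
    c = x ∨ c = x.swap := by
  rw [Sym2.eq_iff] at h
  rcases h with ⟨h1, h2⟩ | ⟨h1, h2⟩
  · exact Or.inl (Prod.ext h1 h2)
  · exact Or.inr (Prod.ext h1 h2)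

private lemma mem_vs {V : Type} {E : Finset (V × V)} {v : V} :
    v ∈ vs E ↔ ∃ q ∈ E, v = q.1 ∨ v = q.2 := by
  unfold vs
  simp only [mem_union, mem_image]
  constructor
  · rintro (⟨q, hq, rfl⟩ | ⟨q, hq, rfl⟩)
    · exact ⟨q, hq, Or.inl rfl⟩
    · exact ⟨q, hq, Or.inr rfl⟩
  · rintro ⟨q, hq, rfl | rfl⟩
    · exact Or.inl ⟨q, hq, rfl⟩
    · exact Or.inr ⟨q, hq, rfl⟩

theorem assemble_one {V : Type} [Fintype V] (l : List V) (X main virt links Y : Finset (V × V))
    (Adm : V → V → Prop) (gJ gH : V × V → V × V) (hl : IsMat links)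
    (harr : IsArr (univ \ vs links) (main ∪ virt) Adm l X)
    (hJ : ∀ p ∈ X, gJ p ∈ links ∨ (gJ p).swap ∈ links)
    (hJi : ∀ p ∈ X, ∀ q ∈ X, p ≠ q → s((gJ p).1, (gJ p).2) ≠ s((gJ q).1, (gJ q).2))
    (hY : ∀ q, q ∈ Y ↔ q ∈ links ∧ ∀ p ∈ X, s((gJ p).1, (gJ p).2) ≠ s(q.1, q.2))
    (hH : ∀ q ∈ Y, gH q ∈ main ∨ (gH q).swap ∈ main)
    (hHi : ∀ p ∈ Y, ∀ q ∈ Y, p ≠ q → s((gH p).1, (gH p).2) ≠ s((gH q).1, (gH q).2))
    (hmv : ∀ p ∈ main, ∀ q ∈ virt, s(p.1, p.2) ≠ s(q.1, q.2)) :
    ∃ l' : List V, Full l' ∧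
      (∀ p ∈ cp l', s(p.1, p.2) ∈ sysE main links X Y gJ gH ∨ p ∈ virt ∨ p.swap ∈ virt) ∧
      (∀ p ∈ virt, p ∈ cp l' ∨ p.swap ∈ cp l') := by
  have hd : ∀ q ∈ links, ∀ q' ∈ links, ∀ v, (v = q.1 ∨ v = q.2) → (v = q'.1 ∨ v = q'.2) →
      q = q' := by
    intro q hq q' hq' v h1 h2
    rcases h1 with rfl | rfl <;> rcases h2 with h2 | h2
    · exact hl.fst q hq q' hq' h2
    · exact absurd h2 (hl.mix q hq q' hq')
    · exact absurd h2.symm (hl.mix q' hq' q hq)
    · exact hl.snd q hq q' hq' h2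
  have hYl : ∀ q ∈ Y, q ∈ links := fun q hq => ((hY q).1 hq).1
  have hpos : ∀ q ∈ Y, ∃ c, c ∈ cp l ∧ c ∉ X ∧ (c = gH q ∨ c = (gH q).swap) := by
    intro q hq
    rcases hH q hq with h | h
    · rcases harr.E_cp (gH q) (mem_union_left _ h) with h1 | h1
      · exact ⟨_, h1.1, h1.2, Or.inl rfl⟩
      · exact ⟨_, h1.1, h1.2, Or.inr rfl⟩
    · rcases harr.E_cp (gH q).swap (mem_union_left _ h) with h1 | h1
      · exact ⟨_, h1.1, h1.2, Or.inr rfl⟩
      · rw [Prod.swap_swap] at h1
        exact ⟨_, h1.1, h1.2, Or.inl rfl⟩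
  choose! pos hp1 hp2 hp3 using hpos
  have hpinj : ∀ q ∈ Y, ∀ q' ∈ Y, pos q = pos q' → q = q' := by
    intro q hq q' hq' h
    by_contra hne
    apply hHi q hq q' hq' hne
    rw [← sym_of (hp3 q hq), ← sym_of (hp3 q' hq'), h]
  let ori : V × V → V × V := fun q => if pos q = gH q then q else q.swap
  have hori : ∀ q, ori q = q ∨ ori q = q.swap := by
    intro q
    by_cases h : pos q = gH q
    · exact Or.inl (if_pos h)
    · exact Or.inr (if_neg h)
  let insP : V × V → List V := fun p =>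
    if p ∈ X then [(gJ p).1, (gJ p).2]
    else if h : ∃ q ∈ Y, pos q = p then [(ori h.choose).1, (ori h.choose).2] else []
  have hA : ∀ p ∈ X, insP p = [(gJ p).1, (gJ p).2] := fun p hp => if_pos hp
  have hB : ∀ q ∈ Y, insP (pos q) = [(ori q).1, (ori q).2] := by
    intro q hq
    have h : ∃ q' ∈ Y, pos q' = pos q := ⟨q, hq, rfl⟩
    have e : h.choose = q := hpinj _ h.choose_spec.1 _ hq h.choose_spec.2
    simp only [insP]
    rw [if_neg (hp2 q hq), dif_pos h, e]
  have hC : ∀ p, p ∈ X ∨ (∃ q ∈ Y, pos q = p) ∨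
      (p ∉ X ∧ (¬ ∃ q ∈ Y, pos q = p) ∧ insP p = []) := by
    intro p
    by_cases h1 : p ∈ X
    · exact Or.inl h1
    by_cases h2 : ∃ q ∈ Y, pos q = p
    · exact Or.inr (Or.inl h2)
    refine Or.inr (Or.inr ⟨h1, h2, ?_⟩)
    simp only [insP]
    rw [if_neg h1, dif_neg h2]
  -- the inserted pair is a link
  have hlk : ∀ p, ∀ v ∈ insP p, ∃ q ∈ links, (v = q.1 ∨ v = q.2) ∧
      ((p ∈ X ∧ s((gJ p).1, (gJ p).2) = s(q.1, q.2)) ∨ (q ∈ Y ∧ pos q = p)) := by
    intro p v hv
    rcases hC p with h | ⟨q, hq, rfl⟩ | ⟨_, _, h⟩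
    · rw [hA p h] at hv
      simp only [List.mem_cons, List.not_mem_nil, or_false] at hv
      rcases hJ p h with h1 | h1
      · exact ⟨_, h1, hv, Or.inl ⟨h, rfl⟩⟩
      · refine ⟨_, h1, ?_, Or.inl ⟨h, ?_⟩⟩
        · simp only [Prod.fst_swap, Prod.snd_swap]
          exact hv.symm
        · exact (sym_of (Or.inr rfl)).symm
    · rw [hB q hq] at hv
      simp only [List.mem_cons, List.not_mem_nil, or_false] at hv
      refine ⟨q, hYl q hq, ?_, Or.inr ⟨hq, rfl⟩⟩
      rcases hori q with h1 | h1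
      · rw [h1] at hv
        exact hv
      · rw [h1] at hv
        simp only [Prod.fst_swap, Prod.snd_swap] at hv
        exact hv.symm
    · rw [h] at hv
      simp at hv
  have hnx : ∀ a, ∃ b, a ∈ l → (a, b) ∈ cp l := by
    intro a
    by_cases h : a ∈ l
    · obtain ⟨b, hb⟩ := exists_cp_fst h
      exact ⟨b, fun _ => hb⟩
    · exact ⟨a, fun h' => absurd h' h⟩
  choose nxt hnxt using hnx
  let ins : V → List V := fun a => insP (a, nxt a)
  have hins : ∀ c ∈ cp l, ins c.1 = insP c := by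
    intro c hc
    have h1 := hnxt c.1 (mem_of_mem_cp hc).1
    have h2 : (c.1, nxt c.1) = c := cp_fst harr.nodup h1 hc rfl
    simp only [ins]
    rw [h2]
  have hmemcp : ∀ c ∈ cp l, ∀ p ∈ (c.1 :: insP c).zip (insP c ++ [c.2]),
      p ∈ cp (expand ins l) := by
    intro c hc p hp
    rw [mem_cp_expand]
    refine ⟨c, hc, ?_⟩
    rw [hins c hc]
    exact hp
  refine ⟨expand ins l, ⟨?_, ?_⟩, ?_, ?_⟩
  · -- nodup
    refine nodup_expand ins harr.nodup ?_ ?_ ?_
    · intro a ha
      rcases hC (a, nxt a) with h | ⟨q, hq, h⟩ | ⟨_, _, h⟩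
      · simp only [ins]
        rw [hA _ h]
        have : (gJ (a, nxt a)).1 ≠ (gJ (a, nxt a)).2 := by
          rcases hJ _ h with h1 | h1
          · exact hl.ne _ h1
          · exact (hl.ne _ h1).symm
        simp [this]
      · simp only [ins]
        rw [← h, hB q hq]
        have : (ori q).1 ≠ (ori q).2 := by
          rcases hori q with h1 | h1
          · rw [h1]
            exact hl.ne _ (hYl q hq)
          · rw [h1]
            exact (hl.ne _ (hYl q hq)).symm
        simp [this]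
      · simp only [ins]
        rw [h]
        exact List.nodup_nil
    · intro a ha v hv hvl
      obtain ⟨q, hq, hvq, _⟩ := hlk _ v hv
      have := (harr.mem v).1 hvl
      rw [mem_sdiff] at this
      exact this.2 (mem_vs.2 ⟨q, hq, hvq⟩)
    · intro a ha b hb hab v hva hvb
      obtain ⟨q, hq, hvq, h1⟩ := hlk _ v hva
      obtain ⟨q', hq', hvq', h2⟩ := hlk _ v hvb
      have e : q = q' := hd q hq q' hq' v hvq hvq'
      subst e
      have : (a, nxt a) = (b, nxt b) := by
        rcases h1 with ⟨h1, h1'⟩ | ⟨h1, h1'⟩ <;> rcases h2 with ⟨h2, h2'⟩ | ⟨h2, h2'⟩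
        · by_contra hne
          exact hJi _ h1 _ h2 hne (h1'.trans h2'.symm)
        · exact absurd h1' (((hY q).1 h2).2 _ h1)
        · exact absurd h2' (((hY q).1 h1).2 _ h2)
        · rw [← h1', ← h2']
      exact hab (congrArg Prod.fst this)
  · -- membership
    intro v
    rw [mem_expand]
    by_cases hv : v ∈ vs links
    · right
      obtain ⟨q, hq, hvq⟩ := mem_vs.1 hv
      by_cases hqY : q ∈ Y
      · refine ⟨(pos q).1, (mem_of_mem_cp (hp1 q hqY)).1, ?_⟩
        rw [hins _ (hp1 q hqY), hB q hqY]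
        rcases hori q with h1 | h1
        · rw [h1]
          simpa using hvq
        · rw [h1]
          simpa using hvq.symm
      · have : ∃ p ∈ X, s((gJ p).1, (gJ p).2) = s(q.1, q.2) := by
          by_contra hcon
          push Not at hcon
          exact hqY ((hY q).2 ⟨hq, hcon⟩)
        obtain ⟨p, hp, hpq⟩ := this
        refine ⟨p.1, (mem_of_mem_cp (harr.X_cp p hp)).1, ?_⟩
        rw [hins _ (harr.X_cp p hp), hA p hp]
        rcases of_sym hpq with h1 | h1
        · rw [h1]
          simpa using hvq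
        · rw [h1]
          simpa using hvq.symm
    · left
      rw [harr.mem, mem_sdiff]
      exact ⟨mem_univ _, hv⟩
  · -- consecutive pairs
    intro p hp
    rw [mem_cp_expand] at hp
    obtain ⟨c, hc, hp⟩ := hp
    rw [hins c hc] at hp
    rcases hC c with h | ⟨q, hq, h⟩ | ⟨hcX, hcY, h⟩
    · rw [hA c h] at hp
      left
      simp only [List.cons_append, List.nil_append, List.zip_cons_cons, List.zip_nil_right,
        List.mem_cons, List.not_mem_nil, or_false] at hp
      rcases hp with rfl | rfl | rfl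
      · exact Or.inr (Or.inl ⟨c, h, Or.inl rfl⟩)
      · refine Or.inl ?_
        rcases hJ c h with h1 | h1
        · exact ⟨gJ c, mem_union_right _ h1, rfl⟩
        · exact ⟨(gJ c).swap, mem_union_right _ h1, Sym2.eq_swap⟩
      · exact Or.inr (Or.inl ⟨c, h, Or.inr Sym2.eq_swap⟩)
    · subst h
      rw [hB q hq] at hp
      left
      simp only [List.cons_append, List.nil_append, List.zip_cons_cons, List.zip_nil_right,
        List.mem_cons, List.not_mem_nil, or_false] at hp
      by_cases ho : pos q = gH q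
      · have e : ori q = q := if_pos ho
        rw [e, ho] at hp
        rcases hp with rfl | rfl | rfl
        · exact Or.inr (Or.inr ⟨q, hq, Or.inl Sym2.eq_swap⟩)
        · exact Or.inl ⟨q, mem_union_right _ (hYl q hq), rfl⟩
        · exact Or.inr (Or.inr ⟨q, hq, Or.inr rfl⟩)
      · have e : ori q = q.swap := if_neg ho
        have ho' : pos q = (gH q).swap := (hp3 q hq).resolve_left ho
        rw [e, ho'] at hp
        simp only [Prod.fst_swap, Prod.snd_swap] at hp
        rcases hp with rfl | rfl | rfl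
        · exact Or.inr (Or.inr ⟨q, hq, Or.inr Sym2.eq_swap⟩)
        · exact Or.inl ⟨q, mem_union_right _ (hYl q hq), Sym2.eq_swap⟩
        · exact Or.inr (Or.inr ⟨q, hq, Or.inl rfl⟩)
    · rw [h] at hp
      simp only [List.nil_append, List.zip_cons_cons, List.zip_nil_right,
        List.mem_cons, List.not_mem_nil, or_false] at hp
      have hpc : p = c := hp
      subst hpc
      rcases harr.cp_E p hc hcX with h1 | h1 <;> rw [mem_union] at h1 <;> rcases h1 with h1 | h1
      · exact Or.inl (Or.inl ⟨p, mem_union_left _ h1, rfl⟩)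
      · exact Or.inr (Or.inl h1)
      · exact Or.inl (Or.inl ⟨p.swap, mem_union_left _ h1, Sym2.eq_swap⟩)
      · exact Or.inr (Or.inr h1)
  · -- virtual pairs
    intro p hp
    have key : ∀ c, c ∈ cp l → c ∉ X → (c = p ∨ c = p.swap) → c ∈ cp (expand ins l) := by
      intro c hc hcX hcp
      have hno : ¬ ∃ q ∈ Y, pos q = c := by
        rintro ⟨q, hq, h⟩
        have e1 : s((gH q).1, (gH q).2) = s(p.1, p.2) := by
          rw [← sym_of (hp3 q hq), h, sym_of hcp]
        rcases hH q hq with h1 | h1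
        · exact hmv _ h1 _ hp e1
        · refine hmv _ h1 _ hp ?_
          rw [← e1]
          exact Sym2.eq_swap
      rcases hC c with h | h | ⟨_, _, h⟩
      · exact absurd h hcX
      · exact absurd h hno
      · refine hmemcp c hc c ?_
        rw [h]
        simp
    rcases harr.E_cp p (mem_union_right _ hp) with h | h
    · exact Or.inl (key p h.1 h.2 (Or.inl rfl))
    · exact Or.inr (key p.swap h.1 h.2 (Or.inr rfl))

end Pool.Agent.HCD
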