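import Pool.Agent.Lib.HCD.T7
import Pool.Agent.Lib.HCD.T10

/-!
# T8a: arrangement in the general mode

PROOF.  `blocks` gives B; l = B.flatten; X = the pairs (last of a block, head of the cyclically next block).  X.card = B.length
(the first components, the last elements of the blocks, are distinct).  A pair of `cp l` is either inside a block (then in
E) or in X.  A pair of E is inside a block; it is not in X because its first component has an out-pair while the first components
of X (last elements of blocks) have none (`fst`, nodup).  `ends`: the last element of a block has no out-pair, the head of a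
block has no in-pair.  adm: p.1 ≠ p.2 for p ∈ cp l as 2 ≤ W.card.
(Handy: prove by induction on B a statement about the open list B.flatten and its zip with its tail, then close up with
`mem_cp_open`.)
-/

set_option autoImplicit false

noncomputable section

open scoped Classical
open Finset

namespace Pool.Agent.HCD

private theorem t8_memf {α : Type} (q : α → Prop) (inst : DecidablePred q) (s : Finset α) (a : α)
    (h : a ∈ s) (hq : q a) : a ∈ @Finset.filter α q inst s :=
  (@Finset.mem_filter α q inst s a).2 ⟨h, hq⟩

private theorem t8_inside {V : Type} (x b y : List V) {p : V × V} (hp : p ∈ b.zip b.tail) :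
    p ∈ cp (x ++ b ++ y) := by
  rw [List.mem_iff_getElem] at hp
  obtain ⟨k, hk, he⟩ := hp
  have hk' : k + 1 < b.length := by
    rw [List.length_zip, List.length_tail] at hk
    omega
  have h1 : p.1 = b[k]'(by omega) := by
    rw [← he, List.getElem_zip]
  have h2 : p.2 = b[k + 1]'hk' := by
    rw [← he, List.getElem_zip]
    exact List.getElem_tail _
  rw [mem_cp_iff]
  have hlen : (x ++ b ++ y).length = x.length + b.length + y.length := by
    simp only [List.length_append]
  refine ⟨x.length + k, by rw [hlen]; omega, ?_, ?_⟩
  · rw [h1, List.getElem_append_left (by rw [List.length_append]; omega),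
      List.getElem_append_right (by omega)]
    congr 1
    omega
  · have hmod : (x.length + k + 1) % (x ++ b ++ y).length = x.length + k + 1 :=
      Nat.mod_eq_of_lt (by rw [hlen]; omega)
    have h3 : (x ++ b ++ y)[x.length + k + 1]'(by rw [hlen]; omega) = b[k + 1]'hk' := by
      rw [List.getElem_append_left (by rw [List.length_append]; omega),
        List.getElem_append_right (by omega)]
      congr 1
      omega
    rw [h2, ← h3]
    congr 1
    exact hmod.symm

theorem arr_gen {V : Type} [Fintype V] (W : Finset V) (E : Finset (V × V)) (hE : IsLin E)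
    (hW : ∀ p ∈ E, p.1 ∈ W ∧ p.2 ∈ W) (h2 : 2 ≤ W.card) (Adm : V → V → Prop)
    (hAdm : ∀ x z, x ≠ z → Adm x z) :
    ∃ (l : List V) (X : Finset (V × V)), IsArr W E Adm l X := by
  obtain ⟨B, hB1, hB2, hB3, hB4, hB5, hB6⟩ := blocks W E hE hW
  have hin : ∀ p ∈ E, p ∈ cp B.flatten := by
    intro p hp
    obtain ⟨b, hb, hpb⟩ := hB5 p hp
    obtain ⟨B1, B2, rfl⟩ := List.append_of_mem hb
    have h1 := t8_inside B1.flatten b B2.flatten hpb
    have h2 : (B1 ++ b :: B2).flatten = B1.flatten ++ b ++ B2.flatten := by
      simp [List.flatten_append, List.flatten_cons, List.append_assoc]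
    rw [h2]
    exact h1
  have hlen : B.flatten.length = W.card := by
    rw [← List.toFinset_card_of_nodup hB2]
    congr 1
    ext v
    rw [List.mem_toFinset, hB3]
  have hcpn : (cp B.flatten).Nodup := by
    refine List.Nodup.of_map Prod.fst ?_
    have h1 : (cp B.flatten).map Prod.fst = B.flatten := by
      unfold cp
      exact List.map_fst_zip (by rw [List.length_rotate])
    rw [h1]
    exact hB2
  have hcpl : (cp B.flatten).toFinset.card = W.card := by
    rw [List.toFinset_card_of_nodup hcpn, ← hlen]
    unfold cp
    rw [List.length_zip, List.length_rotate, min_self]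
  have hsub : E ⊆ (cp B.flatten).toFinset := fun p hp => List.mem_toFinset.2 (hin p hp)
  refine ⟨B.flatten, (cp B.flatten).toFinset \ E, ?_⟩
  have hX : ∀ p, p ∈ (cp B.flatten).toFinset \ E ↔ p ∈ cp B.flatten ∧ p ∉ E := fun p => by
    rw [Finset.mem_sdiff, List.mem_toFinset]
  constructor
  · exact hB2
  · exact hB3
  · intro p hp
    exact ((hX p).1 hp).1
  · intro p hp hpX
    left
    by_contra hpE
    exact hpX ((hX p).2 ⟨hp, hpE⟩)
  · intro p hp
    left
    exact ⟨hin p hp, fun h => ((hX p).1 h).2 hp⟩
  · intro p hp
    exact hAdm _ _ (cp_ne hB2 (by rw [hlen]; exact h2) ((hX p).1 hp).1)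
  · intro p hp
    obtain ⟨hp1, hp2⟩ := (hX p).1 hp
    have hm := mem_of_mem_cp hp1
    constructor
    · refine t8_memf _ _ _ _ ((hB3 _).1 hm.1) (Or.inl fun q hq he => ?_)
      have h3 := cp_fst hB2 (hin q hq) hp1 he
      exact hp2 (h3 ▸ hq)
    · refine t8_memf _ _ _ _ ((hB3 _).1 hm.2) (Or.inr fun q hq he => ?_)
      have h3 := cp_snd hB2 (hin q hq) hp1 he
      exact hp2 (h3 ▸ hq)
  · rw [← hcpl]
    exact Finset.card_sdiff_add_card_eq_card hsub

end Pool.Agent.HCD
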