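import Pool.Agent.Lib.HCD.T7
import Pool.Agent.Lib.HCD.T10

/-!
# T8b: arrangement in the bipartite mode

PROOF.  `blocks` gives B.  (i) COUNT.  For a block (list) b with head a and last c:
(#true - #false in b) = (#pairs of b.zip b.tail with both ends true) - (#both false) + [1 if a, c both true, -1 if both false, 0 else]
(induction on the list).  Sum over the blocks and `Bal`: number of blocks with both ends true = number with both ends false.
(ii) ARRANGEMENT.  Reverse the blocks which start with `false` and end with `true`; then first all blocks `true ... false`,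
then alternately a block `true ... true` and a block `false ... false`.
-/

set_option autoImplicit false

noncomputable section

open scoped Classical
open Finset

namespace Pool.Agent.HCD

section lists

variable {V : Type}

theorem ht_zt (l : List V) : ∀ p ∈ l.zip l.tail, p.1 ∈ l ∧ p.2 ∈ l := by
  intro p hp
  have h := List.of_mem_zip (a := p.1) (b := p.2) hp
  exact ⟨h.1, List.mem_of_mem_tail h.2⟩

/-- the open form of `mem_cp_flatten` -/
theorem mem_zip_flatten (v0 : V) (C : List V) (p : V × V) (s : List (List V)) :
    ∀ (b : List V), (∀ x ∈ b :: s, x ≠ []) →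
    (p ∈ (b :: s).flatten.zip ((b :: s).flatten.tail ++ [C.headD v0]) ↔
      (∃ x ∈ b :: s, p ∈ x.zip x.tail) ∨
        ∃ q ∈ (b :: s).zip (s ++ [C]), p = (q.1.getLastD v0, q.2.headD v0)) := by
  induction s with
  | nil =>
    intro b hb
    cases b with
    | nil => exact absurd rfl (hb [] (by simp))
    | cons x t =>
      have := mem_zip_snoc t x (C.headD v0) p
      simp only [List.flatten_cons, List.flatten_nil, List.append_nil, List.tail_cons] at this ⊢
      rw [this]
      simp only [List.mem_cons, List.not_mem_nil, or_false, exists_eq_left, List.tail_cons,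
        List.nil_append, List.zip_cons_cons, List.zip_nil_right]
      rw [List.getLastD_eq_getLast?, List.getLast?_eq_getLast_of_ne_nil (List.cons_ne_nil _ _)]
      rfl
  | cons b' s ih =>
    intro b hb
    have ih' := ih b' (fun x hx => hb x (List.mem_cons_of_mem _ hx))
    have hb' : b' ≠ [] := hb b' (by simp)
    have hbn : b ≠ [] := hb b (by simp)
    obtain ⟨y, t', rfl⟩ : ∃ y t', b' = y :: t' := by
      cases b' with
      | nil => exact absurd rfl hb'
      | cons y t' => exact ⟨y, t', rfl⟩
    obtain ⟨x, t, rfl⟩ : ∃ x t, b = x :: t := by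
      cases b with
      | nil => exact absurd rfl hbn
      | cons y t' => exact ⟨y, t', rfl⟩
    have e1 : (((x :: t) :: (y :: t') :: s).flatten).tail ++ [C.headD v0] =
        (t ++ [y]) ++ (((y :: t') :: s).flatten.tail ++ [C.headD v0]) := by
      simp
    have e2 : ((x :: t) :: (y :: t') :: s).flatten = (x :: t) ++ ((y :: t') :: s).flatten := by
      rw [List.flatten_cons]
    rw [e1, e2, List.zip_append (by simp), List.mem_append, ih', mem_zip_snoc]
    have e3 : (x :: t).getLast (List.cons_ne_nil _ _) = (x :: t).getLastD v0 := by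
      rw [List.getLastD_eq_getLast?, List.getLast?_eq_getLast_of_ne_nil (List.cons_ne_nil _ _)]
      rfl
    rw [e3]
    simp only [List.cons_append, List.zip_cons_cons, List.mem_cons, exists_eq_or_imp,
      List.headD_cons, List.tail_cons]
    generalize (∃ q ∈ ((y :: t') :: s).zip (s ++ [C]), p = (q.1.getLastD v0, q.2.headD v0)) = P1
    generalize (∃ a ∈ s, p ∈ a.zip a.tail) = P2
    generalize (p = ((x :: t).getLastD v0, y)) = P3
    tauto

theorem mem_cp_flatten (v0 : V) (B : List (List V)) (hB : ∀ x ∈ B, x ≠ []) (p : V × V) :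
    p ∈ cp B.flatten ↔ (∃ x ∈ B, p ∈ x.zip x.tail) ∨
      ∃ q ∈ cp B, p = (q.1.getLastD v0, q.2.headD v0) := by
  cases B with
  | nil => simp [cp]
  | cons b s =>
    have h := mem_zip_flatten v0 b p s b hB
    rw [cp_cons]
    rw [← h]
    cases b with
    | nil => exact absurd rfl (hB [] (by simp))
    | cons x t =>
      rw [List.flatten_cons, List.cons_append, cp_cons]
      rfl

/-- internal pairs do not start at the last member -/
theorem zt_fst_ne (l : List V) (hl : l.Nodup) (v0 : V) :
    ∀ p ∈ l.zip l.tail, p.1 ≠ l.getLastD v0 := by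
  induction l with
  | nil => intro p hp; simp at hp
  | cons x t ih =>
    intro p hp
    cases t with
    | nil => simp at hp
    | cons y s =>
      rw [List.nodup_cons] at hl
      simp only [List.tail_cons, List.zip_cons_cons, List.mem_cons] at hp
      have e : (x :: y :: s).getLastD v0 = (y :: s).getLastD v0 := by
        simp [List.getLastD_eq_getLast?]
      rw [e]
      rcases hp with h | h
      · rw [h]
        intro h'
        apply hl.1
        simp only at h'
        rw [h', List.getLastD_eq_getLast?,
          List.getLast?_eq_getLast_of_ne_nil (List.cons_ne_nil _ _)]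
        exact List.getLast_mem _
      · exact ih hl.2 p h

theorem getLastD_mem {b : List V} (hb : b ≠ []) (v0 : V) : b.getLastD v0 ∈ b := by
  rw [List.getLastD_eq_getLast?, List.getLast?_eq_getLast_of_ne_nil hb]
  exact List.getLast_mem _

theorem headD_mem {b : List V} (hb : b ≠ []) (v0 : V) : b.headD v0 ∈ b := by
  cases b with
  | nil => exact absurd rfl hb
  | cons x t => simp

/-- the sign of a type -/
def sg (b : Bool) : ℤ := if b then 1 else -1

/-- the sign of a pair of types -/
def pr (b c : Bool) : ℤ := if b && c then 1 else if b || c then 0 else -1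

theorem sum_sg (ty : V → Bool) (v0 : V) (l : List V) (hl : l ≠ []) :
    (l.map (fun v => sg (ty v))).sum =
      ((l.zip l.tail).map (fun p => pr (ty p.1) (ty p.2))).sum +
        pr (ty (l.headD v0)) (ty (l.getLastD v0)) := by
  induction l with
  | nil => exact absurd rfl hl
  | cons x t ih =>
    cases t with
    | nil => cases h : ty x <;> simp [sg, pr, h]
    | cons y s =>
      have := ih (List.cons_ne_nil _ _)
      have e : (x :: y :: s).getLastD v0 = (y :: s).getLastD v0 := by
        simp [List.getLastD_eq_getLast?]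
      rw [List.map_cons, List.sum_cons, this, e]
      simp only [List.tail_cons, List.zip_cons_cons, List.map_cons, List.sum_cons,
        List.headD_cons]
      generalize ty ((y :: s).getLastD v0) = z
      generalize (List.map (fun p => pr (ty p.1) (ty p.2)) ((y :: s).zip s)).sum = S
      cases ty x <;> cases ty y <;> cases z <;> simp [sg, pr] <;> ring

theorem sum_sg_flatten (ty : V → Bool) (v0 : V) (B : List (List V)) (hB : ∀ x ∈ B, x ≠ []) :
    (B.flatten.map (fun v => sg (ty v))).sum =
      ((B.flatMap (fun b => b.zip b.tail)).map (fun p => pr (ty p.1) (ty p.2))).sum +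
        (B.map (fun b => pr (ty (b.headD v0)) (ty (b.getLastD v0)))).sum := by
  induction B with
  | nil => simp
  | cons b s ih =>
    rw [List.flatten_cons, List.map_append, List.sum_append, List.flatMap_cons, List.map_append,
      List.sum_append, List.map_cons, List.sum_cons, ih (fun x hx => hB x (by simp [hx])),
      sum_sg ty v0 b (hB b (by simp))]
    ring

theorem map_fst_zt (b : List V) : (b.zip b.tail).map Prod.fst = b.dropLast := by
  induction b with
  | nil => simp
  | cons x t ih =>
    cases t with
    | nil => simp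
    | cons y s =>
      simp only [List.tail_cons, List.zip_cons_cons, List.map_cons, List.dropLast_cons_cons] at ih ⊢
      rw [ih]

theorem nodup_flatMap_zt (B : List (List V)) (hB : B.flatten.Nodup) :
    (B.flatMap (fun b => b.zip b.tail)).Nodup := by
  apply List.Nodup.of_map Prod.fst
  rw [List.map_flatMap]
  have : (B.flatMap (fun b => (b.zip b.tail).map Prod.fst)) = B.flatMap List.dropLast := by
    congr 1
    funext b
    exact map_fst_zt b
  rw [this]
  refine List.Nodup.sublist ?_ hB
  clear hB this
  induction B with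
  | nil => simp
  | cons b s ih =>
    rw [List.flatMap_cons, List.flatten_cons]
    exact List.Sublist.append (List.dropLast_sublist b) ih

/-- turn a block that starts with `false` and ends with `true` -/
def ori (ty : V → Bool) (v0 : V) (b : List V) : List V :=
  if ty (b.headD v0) = false ∧ ty (b.getLastD v0) = true then b.reverse else b

theorem headD_reverse (b : List V) (v0 : V) : b.reverse.headD v0 = b.getLastD v0 := by
  rw [List.getLastD_eq_getLast?, List.headD_eq_head?_getD, List.head?_reverse]

theorem getLastD_reverse (b : List V) (v0 : V) : b.reverse.getLastD v0 = b.headD v0 := by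
  rw [List.getLastD_eq_getLast?, List.headD_eq_head?_getD, List.getLast?_reverse]

theorem ori_ne (ty : V → Bool) (v0 : V) (b : List V) (hb : b ≠ []) : ori ty v0 b ≠ [] := by
  unfold ori
  split_ifs
  · simpa using hb
  · exact hb

theorem ori_perm (ty : V → Bool) (v0 : V) (b : List V) : (ori ty v0 b).Perm b := by
  unfold ori
  split_ifs
  · exact List.reverse_perm b
  · exact List.Perm.refl _

theorem ori_not (ty : V → Bool) (v0 : V) (b : List V) :
    ¬ (ty ((ori ty v0 b).headD v0) = false ∧ ty ((ori ty v0 b).getLastD v0) = true) := by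
  unfold ori
  split_ifs with h
  · rw [headD_reverse, getLastD_reverse, h.1, h.2]
    simp
  · exact h

theorem ori_pr (ty : V → Bool) (v0 : V) (b : List V) :
    pr (ty ((ori ty v0 b).headD v0)) (ty ((ori ty v0 b).getLastD v0)) =
      pr (ty (b.headD v0)) (ty (b.getLastD v0)) := by
  unfold ori
  split_ifs with h
  · rw [headD_reverse, getLastD_reverse, h.1, h.2]
    simp [pr]
  · rfl

theorem ori_zt (ty : V → Bool) (v0 : V) (b : List V) (p : V × V) :
    (p ∈ (ori ty v0 b).zip (ori ty v0 b).tail ∨ p.swap ∈ (ori ty v0 b).zip (ori ty v0 b).tail) ↔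
      (p ∈ b.zip b.tail ∨ p.swap ∈ b.zip b.tail) := by
  unfold ori
  split_ifs with h
  · rw [mem_zt_reverse, mem_zt_reverse, Prod.swap_swap]
    tauto
  · rfl

/-- the two lists `C, D` interleaved -/
def inter {α : Type} (C D : List α) : List α := (List.zipWith (fun c d => [c, d]) C D).flatten

theorem inter_perm {α : Type} (C : List α) : ∀ D : List α, C.length = D.length →
    (inter C D).Perm (C ++ D) := by
  induction C with
  | nil =>
    intro D h
    cases D with
    | nil => exact List.Perm.refl _
    | cons d D => simp at h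
  | cons c C ih =>
    intro D h
    cases D with
    | nil => simp at h
    | cons d D =>
      have h' := ih D (by simpa using h)
      have e : inter (c :: C) (d :: D) = c :: d :: inter C D := by simp [inter]
      rw [e, List.cons_append]
      refine List.Perm.cons _ ?_
      exact (List.Perm.cons d h').trans (List.perm_middle.symm)

/-- the property preserved while concatenating -/
structure Gd (ty : V → Bool) (v0 : V) (L : List (List V)) : Prop where
  head : ∀ b, L.head? = some b → ty (b.headD v0) = true
  last : ∀ b, L.getLast? = some b → ty (b.getLastD v0) = false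
  mid : ∀ q ∈ L.zip L.tail, ty (q.1.getLastD v0) ≠ ty (q.2.headD v0)

theorem gd_append {ty : V → Bool} {v0 : V} {L M : List (List V)} (hL : Gd ty v0 L)
    (hM : Gd ty v0 M) : Gd ty v0 (L ++ M) := by
  cases L with
  | nil => simpa using hM
  | cons x L =>
    cases M with
    | nil => simpa using hL
    | cons y M =>
      obtain ⟨b, hb⟩ : ∃ b, (x :: L).getLast? = some b :=
        ⟨_, List.getLast?_eq_getLast_of_ne_nil (List.cons_ne_nil _ _)⟩
      obtain ⟨d, hd⟩ : ∃ b, (y :: M).getLast? = some b :=
        ⟨_, List.getLast?_eq_getLast_of_ne_nil (List.cons_ne_nil _ _)⟩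
      refine ⟨?_, ?_, ?_⟩
      · intro b' hb'
        exact hL.head b' (by simpa using hb')
      · intro b' hb'
        apply hM.last b'
        rw [List.getLast?_append, hd] at hb'
        rw [hd]
        exact hb'
      · intro q hq
        rw [mem_zt_append (x :: L) (y :: M) hb (List.head?_cons)] at hq
        rcases hq with hq | hq | hq
        · exact hL.mid q hq
        · exact hM.mid q hq
        · rw [hq]
          simp only
          rw [hL.last b hb, hM.head y (List.head?_cons)]
          simp

theorem gd_all {ty : V → Bool} {v0 : V} (A : List (List V))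
    (hA : ∀ b ∈ A, ty (b.headD v0) = true ∧ ty (b.getLastD v0) = false) : Gd ty v0 A := by
  induction A with
  | nil => exact ⟨by simp, by simp, by simp⟩
  | cons a A ih =>
    have h1 : Gd ty v0 [a] := by
      refine ⟨?_, ?_, by simp⟩
      · intro b hb
        have : a = b := by simpa using hb
        rw [← this]; exact (hA a (by simp)).1
      · intro b hb
        have : a = b := by simpa using hb
        rw [← this]; exact (hA a (by simp)).2
    exact gd_append h1 (ih (fun b hb => hA b (by simp [hb])))

theorem gd_inter {ty : V → Bool} {v0 : V} (C : List (List V)) : ∀ (D : List (List V)),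
    (∀ b ∈ C, ty (b.headD v0) = true ∧ ty (b.getLastD v0) = true) →
    (∀ b ∈ D, ty (b.headD v0) = false ∧ ty (b.getLastD v0) = false) → Gd ty v0 (inter C D) := by
  induction C with
  | nil => intro D _ _; exact ⟨by simp [inter], by simp [inter], by simp [inter]⟩
  | cons c C ih =>
    intro D hC hD
    cases D with
    | nil => exact ⟨by simp [inter], by simp [inter], by simp [inter]⟩
    | cons d D =>
      have e : inter (c :: C) (d :: D) = [c, d] ++ inter C D := by simp [inter]
      rw [e]
      refine gd_append ?_ (ih D (fun b hb => hC b (by simp [hb])) (fun b hb => hD b (by simp [hb])))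
      refine ⟨?_, ?_, ?_⟩
      · intro b hb
        have : c = b := by simpa using hb
        rw [← this]; exact (hC c (by simp)).1
      · intro b hb
        have : d = b := by simpa using hb
        rw [← this]; exact (hD d (by simp)).2
      · intro q hq
        have : q = (c, d) := by simpa using hq
        rw [this]
        simp only
        rw [(hC c (by simp)).2, (hD d (by simp)).1]
        simp

theorem gd_cp {ty : V → Bool} {v0 : V} {L : List (List V)} (hL : Gd ty v0 L) :
    ∀ q ∈ cp L, ty (q.1.getLastD v0) ≠ ty (q.2.headD v0) := by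
  intro q hq
  cases L with
  | nil => simp [cp] at hq
  | cons x L =>
    obtain ⟨b, hb⟩ : ∃ b, (x :: L).getLast? = some b :=
        ⟨_, List.getLast?_eq_getLast_of_ne_nil (List.cons_ne_nil _ _)⟩
    rw [mem_cp_open (List.head?_cons) hb] at hq
    rcases hq with hq | hq
    · exact hL.mid q hq
    · rw [hq]
      simp only
      rw [hL.last b hb, hL.head x List.head?_cons]
      simp

theorem sum_pr_eq (ty : V → Bool) (v0 : V) (B : List (List V)) :
    (B.map (fun b => pr (ty (b.headD v0)) (ty (b.getLastD v0)))).sum =
      ((B.filter (fun b => ty (b.headD v0) && ty (b.getLastD v0))).length : ℤ) -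
        ((B.filter (fun b => !ty (b.headD v0) && !ty (b.getLastD v0))).length : ℤ) := by
  induction B with
  | nil => simp
  | cons b B ih =>
    rw [List.map_cons, List.sum_cons, ih, List.filter_cons, List.filter_cons]
    generalize (B.filter (fun b => ty (b.headD v0) && ty (b.getLastD v0))) = X
    generalize (B.filter (fun b => !ty (b.headD v0) && !ty (b.getLastD v0))) = Y
    generalize ty (b.headD v0) = x
    generalize ty (b.getLastD v0) = y
    cases x <;> cases y <;> simp [pr] <;> ring

/-- internal pairs do not end at the first member -/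
theorem zt_snd_ne (l : List V) (hl : l.Nodup) (v0 : V) :
    ∀ p ∈ l.zip l.tail, p.2 ≠ l.headD v0 := by
  intro p hp
  have h1 : p.swap ∈ l.reverse.zip l.reverse.tail := by
    rw [mem_zt_reverse, Prod.swap_swap]; exact hp
  have h2 := zt_fst_ne l.reverse (List.nodup_reverse.2 hl) v0 p.swap h1
  rw [getLastD_reverse] at h2
  exact h2

theorem eq_of_mem_flatten {L : List (List V)} (hL : L.flatten.Nodup) {x y : List V} (hx : x ∈ L)
    (hy : y ∈ L) {v : V} (hvx : v ∈ x) (hvy : v ∈ y) : x = y := by
  by_contra hne
  rw [List.nodup_flatten] at hL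
  have : Std.Symm (List.Disjoint (α := V)) := ⟨fun a b h => List.Disjoint.symm h⟩
  have := List.Pairwise.forall hL.2 hx hy hne
  exact this hvx hvy

theorem map_last_sublist (v0 : V) (L : List (List V)) (hL : ∀ x ∈ L, x ≠ []) :
    (L.map (fun b => b.getLastD v0)).Sublist L.flatten := by
  induction L with
  | nil => simp
  | cons b s ih =>
    rw [List.map_cons, List.flatten_cons, ← List.singleton_append]
    refine List.Sublist.append ?_ (ih (fun x hx => hL x (by simp [hx])))
    rw [List.singleton_sublist]
    exact getLastD_mem (hL b (by simp)) v0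

theorem map_fst_cp {α : Type} (L : List α) : (cp L).map Prod.fst = L := by
  unfold cp
  rw [List.map_fst_zip (by simp)]

end lists

theorem sum_sg_finset {V : Type} (ty : V → Bool) (W : Finset V) :
    ∑ v ∈ W, sg (ty v) = ((W.filter (fun v => ty v = true)).card : ℤ) -
      (W.filter (fun v => ty v = false)).card := by
  have : ∀ v, sg (ty v) = (if ty v = true then (1 : ℤ) else 0) - (if ty v = false then 1 else 0) := by
    intro v
    cases ty v <;> simp [sg]
  rw [Finset.sum_congr rfl (fun v _ => this v), Finset.sum_sub_distrib, Finset.sum_boole,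
    Finset.sum_boole]

theorem sum_pr_finset {V : Type} (ty : V → Bool) (E : Finset (V × V)) :
    ∑ p ∈ E, pr (ty p.1) (ty p.2) =
      ((E.filter (fun p => ty p.1 = true ∧ ty p.2 = true)).card : ℤ) -
      (E.filter (fun p => ty p.1 = false ∧ ty p.2 = false)).card := by
  have : ∀ p : V × V, pr (ty p.1) (ty p.2) =
      (if ty p.1 = true ∧ ty p.2 = true then (1 : ℤ) else 0) -
        (if ty p.1 = false ∧ ty p.2 = false then 1 else 0) := by
    intro p
    cases ty p.1 <;> cases ty p.2 <;> simp [pr]
  rw [Finset.sum_congr rfl (fun v _ => this v), Finset.sum_sub_distrib, Finset.sum_boole,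
    Finset.sum_boole]

theorem arr_bip {V : Type} [Fintype V] (W : Finset V) (E : Finset (V × V)) (hE : IsLin E)
    (hW : ∀ p ∈ E, p.1 ∈ W ∧ p.2 ∈ W) (h2 : 1 ≤ W.card) (ty : V → Bool) (hb : Bal ty W E)
    (Adm : V → V → Prop) (hAdm : ∀ x z, ty x ≠ ty z → Adm x z) :
    ∃ (l : List V) (X : Finset (V × V)), IsArr W E Adm l X := by
  obtain ⟨v0, _⟩ : ∃ v, v ∈ W := Finset.card_pos.1 h2
  obtain ⟨B, hBne, hBnd, hBmem, hBzt, hEzt, hBcard⟩ := blocks W E hE hW
  -- counting
  have hcount : (B.map (fun b => pr (ty (b.headD v0)) (ty (b.getLastD v0)))).sum = 0 := by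
    have h1 := sum_sg_flatten ty v0 B hBne
    have hW' : B.flatten.toFinset = W := by
      ext v; rw [List.mem_toFinset]; exact hBmem v
    have hE' : (B.flatMap (fun b => b.zip b.tail)).toFinset = E := by
      ext p
      rw [List.mem_toFinset, List.mem_flatMap]
      constructor
      · rintro ⟨b, hb, h⟩; exact hBzt b hb p h
      · intro h; exact hEzt p h
    rw [← List.sum_toFinset _ hBnd, ← List.sum_toFinset _ (nodup_flatMap_zt B hBnd), hW', hE',
      sum_sg_finset, sum_pr_finset] at h1
    unfold Bal at hb
    omega
  set B1 : List (List V) := B.map (ori ty v0) with hB1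
  have hB1ne : ∀ x ∈ B1, x ≠ [] := by
    intro x hx
    obtain ⟨b, hb, rfl⟩ := List.mem_map.1 hx
    exact ori_ne ty v0 b (hBne b hb)
  have hB1not : ∀ x ∈ B1, ¬ (ty (x.headD v0) = false ∧ ty (x.getLastD v0) = true) := by
    intro x hx
    obtain ⟨b, hb, rfl⟩ := List.mem_map.1 hx
    exact ori_not ty v0 b
  have hB1f : B1.flatten.Perm B.flatten := by
    have e1 : B1.flatten = B.flatMap (ori ty v0) := by rw [hB1, List.flatMap_def]
    have e2 : B.flatten = B.flatMap id := by rw [List.flatMap_id]
    rw [e1, e2]
    exact List.Perm.flatMap_left B (fun b _ => ori_perm ty v0 b)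
  have hsum : (B1.map (fun b => pr (ty (b.headD v0)) (ty (b.getLastD v0)))).sum = 0 := by
    rw [hB1, List.map_map, ← hcount]
    congr 1
    apply List.map_congr_left
    intro b _
    exact ori_pr ty v0 b
  rw [sum_pr_eq] at hsum
  set P := B1.filter (fun b => ty (b.headD v0) && !ty (b.getLastD v0)) with hP
  set Q := B1.filter (fun b => !(ty (b.headD v0) && !ty (b.getLastD v0))) with hQ
  set C := Q.filter (fun b => ty (b.headD v0) && ty (b.getLastD v0)) with hC
  set D := Q.filter (fun b => !(ty (b.headD v0) && ty (b.getLastD v0))) with hD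
  have hC' : C = B1.filter (fun b => ty (b.headD v0) && ty (b.getLastD v0)) := by
    rw [hC, hQ, List.filter_filter]
    apply List.filter_congr
    intro b _
    cases ty (b.headD v0) <;> cases ty (b.getLastD v0) <;> rfl
  have hD' : D = B1.filter (fun b => !ty (b.headD v0) && !ty (b.getLastD v0)) := by
    rw [hD, hQ, List.filter_filter]
    apply List.filter_congr
    intro b hb
    have := hB1not b hb
    revert this
    cases ty (b.headD v0) <;> cases ty (b.getLastD v0) <;> simp
  have hCD : C.length = D.length := by
    rw [hC', hD']; omega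
  set L := P ++ inter C D with hL
  have hLB : L.Perm B1 := by
    have h1 : (C ++ D).Perm Q := List.filter_append_perm _ Q
    have h2 : (P ++ Q).Perm B1 := List.filter_append_perm _ B1
    exact (List.Perm.append_left P ((inter_perm C D hCD).trans h1)).trans h2
  have hgd : Gd ty v0 L := by
    refine gd_append (gd_all P ?_) (gd_inter C D ?_ ?_)
    · intro b hb
      rw [hP, List.mem_filter] at hb
      simpa using hb.2
    · intro b hb
      rw [hC', List.mem_filter] at hb
      simpa using hb.2
    · intro b hb
      rw [hD', List.mem_filter] at hb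
      simpa using hb.2
  have hLne : ∀ x ∈ L, x ≠ [] := fun x hx => hB1ne x (hLB.mem_iff.1 hx)
  have hLf : L.flatten.Perm B.flatten := (hLB.flatten).trans hB1f
  have hLnd : L.flatten.Nodup := hLf.nodup_iff.2 hBnd
  have hLex : ∀ x ∈ L, ∃ b ∈ B, x = ori ty v0 b := by
    intro x hx
    obtain ⟨b, hb, h⟩ := List.mem_map.1 (hLB.mem_iff.1 hx)
    exact ⟨b, hb, h.symm⟩
  have hcpL : ∀ q ∈ cp L, q.1 ∈ L ∧ q.2 ∈ L := fun q hq => mem_of_mem_cp hq
  have hends : ∀ b ∈ B, b.getLastD v0 ∈ endsOf W E ∧ b.headD v0 ∈ endsOf W E := by
    intro b hb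
    have hbn : b.Nodup := (List.nodup_flatten.1 hBnd).1 b hb
    simp only [endsOf, Finset.mem_filter]
    refine ⟨⟨(hBmem _).1 (List.mem_flatten.2 ⟨b, hb, getLastD_mem (hBne b hb) v0⟩), Or.inl ?_⟩,
      ⟨(hBmem _).1 (List.mem_flatten.2 ⟨b, hb, headD_mem (hBne b hb) v0⟩), Or.inr ?_⟩⟩
    · intro p hp h
      obtain ⟨b', hb', h'⟩ := hEzt p hp
      have : b' = b := eq_of_mem_flatten hBnd hb' hb (ht_zt b' p h').1
        (h ▸ getLastD_mem (hBne b hb) v0)
      subst this
      exact zt_fst_ne b' hbn v0 p h' h
    · intro p hp h
      obtain ⟨b', hb', h'⟩ := hEzt p hp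
      have : b' = b := eq_of_mem_flatten hBnd hb' hb (ht_zt b' p h').2
        (h ▸ headD_mem (hBne b hb) v0)
      subst this
      exact zt_snd_ne b' hbn v0 p h' h
  have hends' : ∀ x ∈ L, x.getLastD v0 ∈ endsOf W E ∧ x.headD v0 ∈ endsOf W E := by
    intro x hx
    obtain ⟨b, hb, rfl⟩ := hLex x hx
    unfold ori
    split_ifs
    · rw [headD_reverse, getLastD_reverse]
      exact ⟨(hends b hb).2, (hends b hb).1⟩
    · exact hends b hb
  set g : List V × List V → V × V := fun q => (q.1.getLastD v0, q.2.headD v0) with hg
  have hXmem : ∀ p, p ∈ ((cp L).map g).toFinset ↔ ∃ q ∈ cp L, p = g q := by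
    intro p
    rw [List.mem_toFinset, List.mem_map]
    constructor
    · rintro ⟨q, hq, h⟩; exact ⟨q, hq, h.symm⟩
    · rintro ⟨q, hq, h⟩; exact ⟨q, hq, h.symm⟩
  have hnotX : ∀ x ∈ L, ∀ p ∈ x.zip x.tail, p ∉ ((cp L).map g).toFinset := by
    intro x hx p hp h
    obtain ⟨q, hq, h⟩ := (hXmem p).1 h
    have h1 : p.1 = q.1.getLastD v0 := by rw [h]
    have h2 : p.1 ∈ q.1 := h1 ▸ getLastD_mem (hLne _ (hcpL q hq).1) v0
    have h3 : x = q.1 := eq_of_mem_flatten hLnd hx (hcpL q hq).1 (ht_zt x p hp).1 h2
    exact zt_fst_ne x ((List.nodup_flatten.1 hLnd).1 x hx) v0 p hp (h3 ▸ h1)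
  have hnd : ((cp L).map g).Nodup := by
    apply List.Nodup.of_map Prod.fst
    have e : ((cp L).map g).map Prod.fst = L.map (fun b => b.getLastD v0) := by
      conv_rhs => rw [← map_fst_cp L]
      rw [List.map_map, List.map_map]
      rfl
    rw [e]
    exact hLnd.sublist (map_last_sublist v0 L hLne)
  refine ⟨L.flatten, ((cp L).map g).toFinset, hLnd, ?_, ?_, ?_, ?_, ?_, ?_, ?_⟩
  · intro v
    rw [hLf.mem_iff]
    exact hBmem v
  · intro p hp
    rw [mem_cp_flatten v0 L hLne]
    exact Or.inr ((hXmem p).1 hp)
  · intro p hp hpX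
    rw [mem_cp_flatten v0 L hLne] at hp
    rcases hp with ⟨x, hx, h⟩ | h
    · obtain ⟨b, hb, rfl⟩ := hLex x hx
      rcases (ori_zt ty v0 b p).1 (Or.inl h) with h' | h'
      · exact Or.inl (hBzt b hb p h')
      · exact Or.inr (hBzt b hb _ h')
    · exact absurd ((hXmem p).2 h) hpX
  · intro p hp
    obtain ⟨b, hb, h⟩ := hEzt p hp
    have hx : ori ty v0 b ∈ L := hLB.mem_iff.2 (List.mem_map.2 ⟨b, hb, rfl⟩)
    rcases (ori_zt ty v0 b p).2 (Or.inl h) with h' | h'
    · exact Or.inl ⟨(mem_cp_flatten v0 L hLne p).2 (Or.inl ⟨_, hx, h'⟩), hnotX _ hx p h'⟩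
    · exact Or.inr ⟨(mem_cp_flatten v0 L hLne p.swap).2 (Or.inl ⟨_, hx, h'⟩), hnotX _ hx _ h'⟩
  · intro p hp
    obtain ⟨q, hq, h⟩ := (hXmem p).1 hp
    rw [h]
    exact hAdm _ _ (gd_cp hgd q hq)
  · intro p hp
    obtain ⟨q, hq, h⟩ := (hXmem p).1 hp
    rw [h]
    exact ⟨(hends' _ (hcpL q hq).1).1, (hends' _ (hcpL q hq).2).2⟩
  · rw [List.toFinset_card_of_nodup hnd, List.length_map]
    have : (cp L).length = B.length := by
      have h1 := congrArg List.length (map_fst_cp L)
      rw [List.length_map] at h1
      rw [h1, hLB.length_eq, hB1, List.length_map]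
    rw [this]
    exact hBcard

end Pool.Agent.HCD
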