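import Pool.Agent.Lib.HCD.G7a
import Pool.Agent.Lib.HCD.G7b
import Pool.Agent.Lib.HCD.T8a
import Pool.Agent.Lib.HCD.T8b

/-!
# G7c: the finishing theorem: from a good family to cyclic lists

PROOF.  Arrangements (l i, X i) of W i, E i = main i ∪ virt i: general mode `arr_gen`, bipartite mode `arr_bip`; the balance for W i: the links
and the main pairs have ends of different types (H), so Bal ty univ (virt i) gives Bal ty (W i) (E i).  (W i).card ≥ 2: by nlinks,
2 * 2ζm ≤ m/2.)  X i: card ≤ μ m by `joints` and IsArr.card; p.1 ≠ p.2 by cp_ne; first and second components injective by cp_fst, cp_snd.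
gJ from `joint_choice`, Y i = links not used, gH from `host_choice` (Adm on the links: general mode p.1 ≠ p.2 (IsMat.ne); bipartite: types
differ).  l' i from `assemble_one` (hmv: main pairs have no vertex in vs (virt i)).
E i := sysE ..: edges of G (H, R1, R2 ≤ G).  Disjointness for i ≠ j: H-edges (main, links): `Good.disj`; R1-edges: the last two clauses of
`joint_choice`; R2-edges: those of `host_choice`; an H-edge is not an R1-edge etc. (Disjoint graphs).
-/

set_option autoImplicit false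

noncomputable section

open scoped Classical
open Finset

namespace Pool.Agent.HCD

private theorem g7_mem_vs {V : Type} (E : Finset (V × V)) (v : V) :
    v ∈ vs E ↔ ∃ p ∈ E, v = p.1 ∨ v = p.2 := by
  unfold vs
  rw [Finset.mem_union, Finset.mem_image, Finset.mem_image]
  constructor
  · rintro (⟨p, hp, rfl⟩ | ⟨p, hp, rfl⟩)
    · exact ⟨p, hp, Or.inl rfl⟩
    · exact ⟨p, hp, Or.inr rfl⟩
  · rintro ⟨p, hp, h | h⟩
    · exact Or.inl ⟨p, hp, h.symm⟩
    · exact Or.inr ⟨p, hp, h.symm⟩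

private theorem g7_vs_card {V : Type} (E : Finset (V × V)) : (vs E).card ≤ 2 * E.card := by
  unfold vs
  have h1 : (E.image Prod.fst).card ≤ E.card := Finset.card_image_le
  have h2 : (E.image Prod.snd).card ≤ E.card := Finset.card_image_le
  have h3 := Finset.card_union_le (E.image Prod.fst) (E.image Prod.snd)
  omega

/-- the number of vertices of a given type of a matching whose pairs have ends of both types -/
private theorem g7_type {V : Type} (E : Finset (V × V)) (hE : IsMat E) (ty : V → Bool)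
    (hty : ∀ p ∈ E, ty p.1 ≠ ty p.2) (b : Bool) :
    ((vs E).filter (fun v => ty v = b)).card = E.card := by
  have h1 : (vs E).filter (fun v => ty v = b) =
      E.image (fun p : V × V => if ty p.1 = b then p.1 else p.2) := by
    ext v
    rw [Finset.mem_filter, Finset.mem_image, g7_mem_vs]
    constructor
    · rintro ⟨⟨p, hp, h | h⟩, hv⟩
      · refine ⟨p, hp, ?_⟩
        rw [h] at hv
        rw [if_pos hv, h]
      · refine ⟨p, hp, ?_⟩
        rw [h] at hv
        have h2 : ¬ ty p.1 = b := fun h3 => hty p hp (h3.trans hv.symm)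
        rw [if_neg h2, h]
    · rintro ⟨p, hp, rfl⟩
      by_cases h2 : ty p.1 = b
      · rw [if_pos h2]
        exact ⟨⟨p, hp, Or.inl rfl⟩, h2⟩
      · rw [if_neg h2]
        refine ⟨⟨p, hp, Or.inr rfl⟩, ?_⟩
        have h3 := hty p hp
        revert h2 h3
        cases ty p.1 <;> cases ty p.2 <;> cases b <;> simp
  rw [h1, Finset.card_image_of_injOn]
  intro p hp q hq h
  rw [Finset.mem_coe] at hp hq
  dsimp only at h
  split_ifs at h
  · exact hE.fst p hp q hq h
  · exact absurd h (hE.mix p hp q hq)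
  · exact absurd h.symm (hE.mix q hq p hp)
  · exact hE.snd p hp q hq h

private theorem g7_sdiff {V : Type} [Fintype V] (W : Finset V) (ty : V → Bool) (b : Bool) :
    ((univ \ W).filter (fun v => ty v = b)).card + (W.filter (fun v => ty v = b)).card =
      (univ.filter (fun v => ty v = b)).card := by
  have h1 : (univ \ W).filter (fun v => ty v = b) =
      (univ.filter (fun v => ty v = b)) \ (W.filter (fun v => ty v = b)) := by
    ext v
    simp only [Finset.mem_filter, Finset.mem_sdiff, Finset.mem_univ, true_and]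
    tauto
  rw [h1]
  exact Finset.card_sdiff_add_card_eq_card (Finset.filter_subset_filter _ (Finset.subset_univ _))

private theorem g7_bal {V : Type} [Fintype V] (ty : V → Bool) (main virt links : Finset (V × V))
    (hb : Bal ty univ virt) (hl : IsMat links) (hlt : ∀ p ∈ links, ty p.1 ≠ ty p.2)
    (hmt : ∀ p ∈ main, ty p.1 ≠ ty p.2) : Bal ty (univ \ vs links) (main ∪ virt) := by
  unfold Bal at hb ⊢
  have h1 := g7_sdiff (vs links) ty true
  have h2 := g7_sdiff (vs links) ty false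
  rw [g7_type links hl ty hlt true] at h1
  rw [g7_type links hl ty hlt false] at h2
  have h3 : (main ∪ virt).filter (fun p => ty p.1 = true ∧ ty p.2 = true) =
      virt.filter (fun p => ty p.1 = true ∧ ty p.2 = true) := by
    ext p
    rw [Finset.mem_filter, Finset.mem_filter, Finset.mem_union]
    constructor
    · rintro ⟨h | h, h4, h5⟩
      · exact absurd (h4.trans h5.symm) (hmt p h)
      · exact ⟨h, h4, h5⟩
    · rintro ⟨h, h4⟩
      exact ⟨Or.inr h, h4⟩
  have h4 : (main ∪ virt).filter (fun p => ty p.1 = false ∧ ty p.2 = false) =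
      virt.filter (fun p => ty p.1 = false ∧ ty p.2 = false) := by
    ext p
    rw [Finset.mem_filter, Finset.mem_filter, Finset.mem_union]
    constructor
    · rintro ⟨h | h, h4, h5⟩
      · exact absurd (h4.trans h5.symm) (hmt p h)
      · exact ⟨h, h4, h5⟩
    · rintro ⟨h, h4⟩
      exact ⟨Or.inr h, h4⟩
  rw [h3, h4]
  omega

private theorem g7_arr {V : Type} [Fintype V] {N : ℕ} (F : Fam V N)
    (H R1 R2 : SimpleGraph V) (Adm : V → V → Prop) (ζ γ μ : ℝ)
    (hF : F.Good H R1 R2 Adm ζ γ μ) (hmode : Mode H Adm F.virt) (i : Fin N)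
    (h2 : 2 ≤ (F.W i).card) :
    ∃ (l : List V) (X : Finset (V × V)), IsArr (F.W i) (F.E i) Adm l X := by
  have hW : ∀ p ∈ F.E i, p.1 ∈ F.W i ∧ p.2 ∈ F.W i := by
    intro p hp
    obtain ⟨h3, h4⟩ := hF.ml i p hp
    unfold Fam.W
    exact ⟨Finset.mem_sdiff.2 ⟨Finset.mem_univ _, h3⟩, Finset.mem_sdiff.2 ⟨Finset.mem_univ _, h4⟩⟩
  rcases hmode with hm | ⟨ty, hm1, hm2, hm3⟩
  · exact arr_gen (F.W i) (F.E i) (hF.lin i) hW h2 Adm hm
  · exact arr_bip (F.W i) (F.E i) (hF.lin i) hW (by omega) ty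
      (g7_bal ty (F.main i) (F.virt i) (F.links i) (hm3 i) (hF.lmat i)
        (fun p hp => hm2 _ _ (hF.lH i p hp)) (fun p hp => hm2 _ _ (hF.mH i p hp))) Adm hm1

theorem finish {V : Type} [Fintype V] {N : ℕ} (G : SimpleGraph V) (F : Fam V N)
    (H R1 R2 : SimpleGraph V) (Adm : V → V → Prop) (ζ γ μ : ℝ)
    (hF : F.Good H R1 R2 Adm ζ γ μ) (hmode : Mode H Adm F.virt) (hv : ∀ i, IsMat (F.virt i))
    (hHG : H ≤ G) (hR1G : R1 ≤ G) (hR2G : R2 ≤ G) (h1 : Disjoint H R1) (h2 : Disjoint H R2)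
    (h3 : Disjoint R1 R2) (hζ : 0 < ζ) (hγ : 0 < γ) (hγ1 : γ ≤ 1) (hμ0 : 0 < μ)
    (hζ2 : ζ ≤ (γ / 2000) ^ 2) (hμ : μ ≤ (ζ * γ / 2000) ^ 2)
    (hm : 2000 ≤ ζ * γ * Fintype.card V) (hN : 2 * N ≤ Fintype.card V) :
    HasCyc G F.virt := by
  have hmR : (0 : ℝ) < Fintype.card V := by
    by_contra h0
    have h4 : (Fintype.card V : ℝ) ≤ 0 := not_lt.1 h0
    have h5 : 0 ≤ ζ * γ := (mul_pos hζ hγ).le
    nlinarith
  have hζs : ζ ≤ 1 / 1000 := by nlinarith
  have hζγ : ζ * γ ≤ γ := by nlinarith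
  have hζγ1 : ζ * γ ≤ 1 := by nlinarith
  have hm2 : 2000 ≤ γ * Fintype.card V := by nlinarith
  have hm3 : (2000 : ℝ) ≤ Fintype.card V := by nlinarith
  have hW2 : ∀ i, 2 ≤ (F.W i).card := by
    intro i
    have h4 : (F.W i).card + (vs (F.links i)).card = Fintype.card V := by
      unfold Fam.W
      rw [← Finset.card_univ]
      exact Finset.card_sdiff_add_card_eq_card (Finset.subset_univ _)
    have h5 := g7_vs_card (F.links i)
    have h6 := hF.nlinks i
    have h7 : ((F.W i).card : ℝ) + ((vs (F.links i)).card : ℝ) = Fintype.card V := by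
      exact_mod_cast h4
    have h8 : ((vs (F.links i)).card : ℝ) ≤ 2 * ((F.links i).card : ℝ) := by exact_mod_cast h5
    have h9 : (2 : ℝ) ≤ ((F.W i).card : ℝ) := by nlinarith
    exact_mod_cast h9
  choose l X hA using fun i => g7_arr F H R1 R2 Adm ζ γ μ hF hmode i (hW2 i)
  have hlen : ∀ i, (l i).length = (F.W i).card := by
    intro i
    rw [← List.toFinset_card_of_nodup (hA i).nodup]
    congr 1
    ext v
    rw [List.mem_toFinset, (hA i).mem]
  have hXc : ∀ i, ((X i).card : ℝ) ≤ μ * Fintype.card V := by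
    intro i
    have h4 : ((X i).card : ℝ) + ((F.E i).card : ℝ) = (F.W i).card := by
      exact_mod_cast (hA i).card
    have h5 := hF.joints i
    linarith
  obtain ⟨gJ, hJ1, hJ2, hJ3, hJ4⟩ := joint_choice F H R1 R2 Adm ζ γ μ hF hζ (by linarith) hγ hγ1
    hμ0 hμ (by linarith) hN X
    (fun i p hp => ⟨(hA i).adm p hp, cp_ne (hA i).nodup (by rw [hlen]; exact hW2 i)
      ((hA i).X_cp p hp), ((hA i).ends p hp).1, ((hA i).ends p hp).2⟩)
    (fun i p hp q hq h => cp_fst (hA i).nodup ((hA i).X_cp p hp) ((hA i).X_cp q hq) h)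
    (fun i p hp q hq h => cp_snd (hA i).nodup ((hA i).X_cp p hp) ((hA i).X_cp q hq) h) hXc
  have hadm : ∀ i, ∀ p ∈ F.links i, Adm p.1 p.2 := by
    intro i p hp
    rcases hmode with hm | ⟨ty, hm1, hm2, _⟩
    · exact hm _ _ ((hF.lmat i).ne p hp)
    · exact hm1 _ _ (hm2 _ _ (hF.lH i p hp))
  obtain ⟨Y, hYdef⟩ : ∃ Y : Fin N → Finset (V × V), ∀ i q, q ∈ Y i ↔ q ∈ F.links i ∧
      ∀ p ∈ X i, s((gJ i p).1, (gJ i p).2) ≠ s(q.1, q.2) :=
    ⟨fun i => (F.links i).filter (fun q => ∀ p ∈ X i, s((gJ i p).1, (gJ i p).2) ≠ s(q.1, q.2)),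
      fun i q => Finset.mem_filter⟩
  obtain ⟨gH, hH1, hH2, hH3, hH4⟩ := host_choice F H R1 R2 Adm ζ γ μ hF hζ hγ hγ1 hζ2 hm2 hN Y
    (fun i q hq => ((hYdef i q).1 hq).1) hadm
  have hmv : ∀ i, ∀ p ∈ F.main i, ∀ q ∈ F.virt i, s(p.1, p.2) ≠ s(q.1, q.2) := by
    intro i p hp q hq he
    have h4 := (hF.mv i p hp).1
    apply h4
    rw [g7_mem_vs]
    rw [Sym2.eq_iff] at he
    rcases he with ⟨h5, _⟩ | ⟨h5, _⟩
    · exact ⟨q, hq, Or.inl h5⟩
    · exact ⟨q, hq, Or.inr h5⟩
  choose l' hl1 hl2 hl3 using fun i => assemble_one (l i) (X i) (F.main i) (F.virt i)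
    (F.links i) (Y i) Adm (gJ i) (gH i) (hF.lmat i) (hA i) (fun p hp => (hJ1 i p hp).1)
    (hJ2 i) (hYdef i) (fun q hq => (hH1 i q hq).1) (hH2 i) (hmv i)
  -- the three kinds of edges
  have hkind : ∀ i, ∀ e ∈ sysE (F.main i) (F.links i) (X i) (Y i) (gJ i) (gH i),
      (e ∈ H.edgeSet ∧ ∃ p ∈ F.main i ∪ F.links i, e = s(p.1, p.2)) ∨
      (e ∈ R1.edgeSet ∧ ∃ p ∈ X i, e = s(p.1, (gJ i p).1) ∨ e = s(p.2, (gJ i p).2)) ∨
      (e ∈ R2.edgeSet ∧ ∃ q ∈ Y i, e = s(q.1, (gH i q).1) ∨ e = s(q.2, (gH i q).2)) := by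
    intro i e he
    rcases he with ⟨p, hp, rfl⟩ | ⟨p, hp, h⟩ | ⟨q, hq, h⟩
    · left
      refine ⟨?_, p, hp, rfl⟩
      rw [SimpleGraph.mem_edgeSet]
      rcases Finset.mem_union.1 hp with h | h
      · exact hF.mH i p h
      · exact hF.lH i p h
    · right
      left
      refine ⟨?_, p, hp, h⟩
      rcases h with rfl | rfl
      · exact (SimpleGraph.mem_edgeSet _).2 (hJ1 i p hp).2.1
      · exact (SimpleGraph.mem_edgeSet _).2 (hJ1 i p hp).2.2
    · right
      right
      refine ⟨?_, q, hq, h⟩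
      rcases h with rfl | rfl
      · exact (SimpleGraph.mem_edgeSet _).2 (hH1 i q hq).2.1
      · exact (SimpleGraph.mem_edgeSet _).2 (hH1 i q hq).2.2
  have hd1 := Set.disjoint_left.1 (SimpleGraph.disjoint_edgeSet.2 h1)
  have hd2 := Set.disjoint_left.1 (SimpleGraph.disjoint_edgeSet.2 h2)
  have hd3 := Set.disjoint_left.1 (SimpleGraph.disjoint_edgeSet.2 h3)
  refine ⟨l', fun i => sysE (F.main i) (F.links i) (X i) (Y i) (gJ i) (gH i), hl1, ?_, ?_, hl2,
    hl3⟩
  · intro i e he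
    rcases hkind i e he with h | h | h
    · exact SimpleGraph.edgeSet_mono hHG h.1
    · exact SimpleGraph.edgeSet_mono hR1G h.1
    · exact SimpleGraph.edgeSet_mono hR2G h.1
  · intro i j hij
    rw [Set.disjoint_left]
    intro e he he'
    rcases hkind i e he with ⟨ha, p, hp, hpe⟩ | ⟨ha, p, hp, hpe⟩ | ⟨ha, p, hp, hpe⟩ <;>
      rcases hkind j e he' with ⟨hb, q, hq, hqe⟩ | ⟨hb, q, hq, hqe⟩ | ⟨hb, q, hq, hqe⟩
    · exact hF.disj i j hij p hp q hq (hpe.symm.trans hqe)
    · exact hd1 ha hb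
    · exact hd2 ha hb
    · exact hd1 hb ha
    · have h5 := hJ3 i p hp j q hq (Or.inl hij)
      rcases hpe with h | h <;> rcases hqe with h' | h'
      · exact h5.1 (h.symm.trans h')
      · exact hJ4 i p hp j q hq (h.symm.trans h')
      · exact hJ4 j q hq i p hp (h'.symm.trans h)
      · exact h5.2 (h.symm.trans h')
    · exact hd3 ha hb
    · exact hd2 hb ha
    · exact hd3 hb ha
    · have h5 := hH3 i p hp j q hq (Or.inl hij)
      rcases hpe with h | h <;> rcases hqe with h' | h'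
      · exact h5.1 (h.symm.trans h')
      · exact hH4 i p hp j q hq (h.symm.trans h')
      · exact hH4 j q hq i p hp (h'.symm.trans h)
      · exact h5.2 (h.symm.trans h')

end Pool.Agent.HCD
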