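import Pool.Agent.Lib.HCD.G6
import Pool.Agent.Lib.HCD.G7c

/-!
# G8: core: from PD to cyclic lists

PROOF.  `exists_fam` and `finish` with ζ = (γ/2000)^2, μ = (ζγ/2000)^2.
-/

set_option autoImplicit false

noncomputable section

open scoped Classical
open Finset

namespace Pool.Agent.HCD

theorem core (γ : ℝ) (hγ : 0 < γ) (hγ1 : γ ≤ 1) : ∃ κ : ℝ, 0 < κ ∧ ∀ (V P : Type) [Fintype V]
    (N J : ℕ) (pt : V → P) (U : Fin J → ℕ → P) (L K Δ : ℕ) (G H R1 R2 : SimpleGraph V)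
    (Adm : V → V → Prop) (virt : Fin N → Finset (V × V)) (η δ : ℝ),
    PD pt U L K Δ H R1 R2 Adm virt η δ γ → 0 ≤ η → 0 < δ → η + δ ≤ κ → 1 ≤ κ * K →
    1 ≤ κ * Fintype.card V → 2 * N ≤ Fintype.card V →
    4 * (Fintype.card V : ℝ) ^ 3 * Real.exp (-(δ ^ 2 * K / 128)) < 1 / 2 →
    Mode H Adm virt → H ≤ G → R1 ≤ G → R2 ≤ G → Disjoint H R1 → Disjoint H R2 →
    Disjoint R1 R2 → HasCyc G virt := by
  obtain ⟨ζ, hζdef⟩ : ∃ ζ : ℝ, ζ = (γ / 2000) ^ 2 := ⟨_, rfl⟩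
  obtain ⟨μ, hμdef⟩ : ∃ μ : ℝ, μ = (ζ * γ / 2000) ^ 2 := ⟨_, rfl⟩
  have hζ0 : 0 < ζ := by
    rw [hζdef]
    positivity
  have hζ1 : ζ ≤ 1 / 10 := by
    rw [hζdef]
    nlinarith
  have hμ0 : 0 < μ := by
    rw [hμdef]
    positivity
  have hζγ0 : 0 < ζ * γ := mul_pos hζ0 hγ
  have hζγ1 : ζ * γ ≤ 1 := by nlinarith
  have hμζγ : μ ≤ ζ * γ := by
    rw [hμdef]
    nlinarith
  have hζγ : ζ * γ ≤ ζ := by nlinarith
  refine ⟨μ / 2000, by positivity, ?_⟩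
  intro V P _ N J pt U L K Δ G H R1 R2 Adm virt η δ hPD hη hδ hηδ hK hV hN hnum hmode hHG hR1G
    hR2G h1 h2 h3
  have hKnn : (0 : ℝ) ≤ K := Nat.cast_nonneg _
  have hVnn : (0 : ℝ) ≤ Fintype.card V := Nat.cast_nonneg _
  have hV1 : 1 ≤ Fintype.card V := by
    rcases Nat.eq_zero_or_pos (Fintype.card V) with h0 | h0
    · rw [h0] at hV
      norm_num at hV
    · exact h0
  obtain ⟨F, hFv, hF⟩ := exists_fam hPD hη hδ hγ hγ1 hV1 ζ μ hζ0 hζ1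
    (by nlinarith [mul_le_mul_of_nonneg_right (hμζγ.trans hζγ) hKnn]) (by nlinarith) hμζγ
    (by linarith) hnum
  have hfin := finish G F H R1 R2 Adm ζ γ μ hF (by rw [hFv]; exact hmode)
    (by rw [hFv]; exact hPD.vmat) hHG hR1G hR2G h1 h2 h3 hζ0 hγ hγ1 hμ0 hζdef.le hμdef.le
    (by nlinarith [mul_le_mul_of_nonneg_right hμζγ hVnn]) hN
  rw [hFv] at hfin
  exact hfin

end Pool.Agent.HCD
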