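import Pool.Agent.Lib.HCD.Defs
import Pool.Agent.Lib.DHC.T1

/-!
# T1: bounded differences on a finite product space, union bound form

PROOF.  (1) `exp y ≤ y + exp (y^2)` for all real `y` (for |y| ≤ 1: exp y ≤ 1 + y + y^2 ≤ y + exp(y^2); for y > 1: exp y ≤ exp (y^2);
for y < -1: exp y ≤ 1 and y + exp (y^2) ≥ y + 1 + y^2 ≥ 1).
(2) One coordinate: if sum w = 1, w ≥ 0, sum_r w r * Y r = 0, |Y r| ≤ c then sum_r w r * exp (λ Y r) ≤ exp (λ^2 c^2).
(3) `EE w (fun ω => exp (λ (f ω - EE w f))) ≤ exp (λ^2 * ∑ i, (c i)^2)` by induction: first for `I = Fin n` (induction on `n`,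
`Fin.consEquiv`/`Fin.cons`: average over the first coordinate; the average over one coordinate again has bounded differences
in the others), then for general `I` by transport along `Fintype.equivFin I`.  (`|f ω r - mean| ≤ c` because all values on the
fibre differ by at most `c`.)
(4) Markov: the weight of {ω : f ω - E f ≥ t} is at most exp (λ^2 S - λ t) = exp (-(t^2/(4S))) for λ = t/(2S); same for -f; the
total weight of the bad ω is at most 2 * card K * exp (..) < 1, and the total weight is 1, so some ω of positive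
weight (hence all `w i (ω i) > 0`) is good.
-/

set_option autoImplicit false

noncomputable section

open scoped Classical
open Finset

namespace Pool.Agent.HCD

theorem bd_exists {I R K : Type} [Fintype I] [Fintype R] [Fintype K] (w : I → R → ℝ)
    (hw0 : ∀ i r, 0 ≤ w i r) (hw1 : ∀ i, ∑ r, w i r = 1)
    (f : K → (I → R) → ℝ) (c : K → I → ℝ)
    (hc : ∀ k i (ω ω' : I → R), (∀ j, j ≠ i → ω j = ω' j) → |f k ω - f k ω'| ≤ c k i)
    (S t : ℝ) (hS : 0 < S) (ht : 0 < t) (hcS : ∀ k, ∑ i, c k i ^ 2 ≤ S)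
    (hcard : (Fintype.card K : ℝ) * Real.exp (-(t ^ 2 / (4 * S))) < 1 / 2) :
    ∃ ω : I → R, (∀ i, 0 < w i (ω i)) ∧ ∀ k, |f k ω - EE w (f k)| < t := by
  obtain ⟨ω, h1, h2⟩ := Pool.Agent.Lib.DHC.bounded_differences w hw0 hw1 f c
    (fun k i ω ω' h => hc k i ω ω' h) S t hS hcS ht.le (by rw [neg_div]; exact hcard)
  exact ⟨ω, h1, fun k => h2 k⟩

end Pool.Agent.HCD
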