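import Pool.Agent.Lib.HCD.Defs

/-!
# T13: greedy list colouring
-/

set_option autoImplicit false

noncomputable section

open scoped Classical
open Finset

namespace Pool.Agent.HCD

theorem list_choice {D V : Type} [Fintype D] [Fintype V] (conf : D → D → Prop)
    (hsymm : ∀ d e, conf d e → conf e d) (C : D → Finset V)
    (h : ∀ d, (univ.filter (fun e => e ≠ d ∧ conf d e)).card < (C d).card) :
    ∃ g : D → V, (∀ d, g d ∈ C d) ∧ ∀ d e, d ≠ e → conf d e → g d ≠ g e := by
  have hne : ∀ d, (C d).Nonempty := fun d => by
    rw [← Finset.card_pos]; exact lt_of_le_of_lt (Nat.zero_le _) (h d)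
  have key : ∀ A : Finset D, ∃ g : D → V, (∀ d, g d ∈ C d) ∧
      ∀ d ∈ A, ∀ e ∈ A, d ≠ e → conf d e → g d ≠ g e := by
    intro A
    induction A using Finset.induction_on with
    | empty => exact ⟨fun d => (hne d).choose, fun d => (hne d).choose_spec, by simp⟩
    | insert d A hd ih =>
      obtain ⟨g, hg, hgA⟩ := ih
      set B : Finset V := (univ.filter (fun e => e ≠ d ∧ conf d e)).image g with hB
      have hBc : B.card < (C d).card := lt_of_le_of_lt Finset.card_image_le (h d)
      obtain ⟨v, hv, hvB⟩ := Finset.exists_mem_notMem_of_card_lt_card hBc
      refine ⟨Function.update g d v, ?_, ?_⟩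
      · intro e
        by_cases he : e = d
        · subst he; simpa using hv
        · rw [Function.update_of_ne he]; exact hg e
      · have hdd : ∀ e ∈ A, conf d e → v ≠ g e := by
          intro e he hce hve
          apply hvB
          rw [hve, hB]
          apply Finset.mem_image_of_mem
          simp only [Finset.mem_filter, Finset.mem_univ, true_and]
          exact ⟨fun h' => hd (h' ▸ he), hce⟩
        intro a ha e he hae hc
        rw [Finset.mem_insert] at ha he
        rcases ha with rfl | ha
        · rcases he with rfl | he
          · exact absurd rfl hae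
          · rw [Function.update_self, Function.update_of_ne (fun h' => hae h'.symm)]
            exact hdd e he hc
        · rcases he with rfl | he
          · rw [Function.update_self, Function.update_of_ne hae]
            exact (hdd a ha (hsymm _ _ hc)).symm
          · have h1 : a ≠ d := fun h' => hd (h' ▸ ha)
            have h2 : e ≠ d := fun h' => hd (h' ▸ he)
            rw [Function.update_of_ne h1, Function.update_of_ne h2]
            exact hgA a ha e he hae hc
  obtain ⟨g, hg, hgA⟩ := key univ
  exact ⟨g, hg, fun d e hde hc => hgA d (mem_univ _) e (mem_univ _) hde hc⟩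

end Pool.Agent.HCD
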