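import Pool.Agent.Lib.HCD.T6

/-!
# T14: one choice stage (used for the joints with R1 and for the hosts with R2)

PROOF.  `greedy` with D = {(i,p) : p ∈ X i} (a subtype or sigma type; card D = ∑ |X i| ≤ N s), I = Fin N, sys = fst, x = p.1,
y = p.2, C (i,p) = {p' : (p' ∈ B i ∨ p'.swap ∈ B i) ∧ R.Adj p.1 p'.1 ∧ R.Adj p.2 p'.2}.  Its cardinality is at least the number of
q ∈ B i with Suit R p.1 p.2 q (map q to q or q.swap; injective because q ∈ B i → q.swap ∉ B i).  h = 2b, F and s as given.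
-/

set_option autoImplicit false

noncomputable section

open scoped Classical
open Finset

namespace Pool.Agent.HCD

theorem choice_stage {V : Type} [Fintype V] {N : ℕ} (R : SimpleGraph V)
    (X B : Fin N → Finset (V × V)) (hX : ∀ i, ∀ p ∈ X i, p.1 ≠ p.2)
    (hXB : ∀ i, ∀ p ∈ X i, ∀ q ∈ B i, p.1 ≠ q.1 ∧ p.1 ≠ q.2 ∧ p.2 ≠ q.1 ∧ p.2 ≠ q.2)
    (hB : ∀ i, ∀ q ∈ B i, q.1 ≠ q.2 ∧ q.swap ∉ B i) (b s F Lo : ℕ) (hLo : 0 < Lo)
    (hb : ∀ i v, ((B i).filter (fun q => q.1 = v ∨ q.2 = v)).card ≤ b)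
    (hs : ∀ i, (X i).card ≤ s)
    (hF : ∀ v, ∑ i, ((X i).filter (fun p => p.1 = v ∨ p.2 = v)).card ≤ F)
    (hk : ∀ i, ∀ p ∈ X i, 2 * s + 4 * b * (F + Lo + 1) + 2 * b * (2 * (N * s) / Lo + 1) <
      ((B i).filter (fun q => Suit R p.1 p.2 q)).card) :
    ∃ g : Fin N → V × V → V × V,
      (∀ i, ∀ p ∈ X i, (g i p ∈ B i ∨ (g i p).swap ∈ B i) ∧ R.Adj p.1 (g i p).1 ∧
        R.Adj p.2 (g i p).2) ∧
      (∀ i, ∀ p ∈ X i, ∀ q ∈ X i, p ≠ q → s((g i p).1, (g i p).2) ≠ s((g i q).1, (g i q).2)) ∧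
      (∀ i, ∀ p ∈ X i, ∀ j, ∀ q ∈ X j, (i ≠ j ∨ p ≠ q) →
        s(p.1, (g i p).1) ≠ s(q.1, (g j q).1) ∧ s(p.2, (g i p).2) ≠ s(q.2, (g j q).2)) ∧
      (∀ i, ∀ p ∈ X i, ∀ j, ∀ q ∈ X j, s(p.1, (g i p).1) ≠ s(q.2, (g j q).2)) := by
  set D : Type := {d : Fin N × (V × V) // d.2 ∈ X d.1} with hD
  let sys : D → Fin N := fun d => d.1.1
  let x : D → V := fun d => d.1.2.1
  let y : D → V := fun d => d.1.2.2
  let C : D → Finset (V × V) := fun d => univ.filter (fun p' => (p' ∈ B d.1.1 ∨ p'.swap ∈ B d.1.1) ∧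
    R.Adj d.1.2.1 p'.1 ∧ R.Adj d.1.2.2 p'.2)
  have hCmem : ∀ (d : D) (p : V × V), p ∈ C d ↔ (p ∈ B d.1.1 ∨ p.swap ∈ B d.1.1) ∧
      R.Adj d.1.2.1 p.1 ∧ R.Adj d.1.2.2 p.2 := by
    intro d p
    simp only [C, Finset.mem_filter, Finset.mem_univ, true_and]
  have hne : ∀ d, ∀ p ∈ C d, p.1 ≠ p.2 ∧ p.1 ≠ x d ∧ p.1 ≠ y d ∧ p.2 ≠ x d ∧ p.2 ≠ y d := by
    intro d p hp
    rw [hCmem] at hp
    rcases hp.1 with h1 | h1
    · obtain ⟨a1, a2, a3, a4⟩ := hXB d.1.1 d.1.2 d.2 p h1
      exact ⟨(hB _ _ h1).1, a1.symm, a3.symm, a2.symm, a4.symm⟩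
    · obtain ⟨a1, a2, a3, a4⟩ := hXB d.1.1 d.1.2 d.2 p.swap h1
      exact ⟨(hB _ _ h1).1.symm, a2.symm, a4.symm, a1.symm, a3.symm⟩
  have hxy : ∀ d, x d ≠ y d := fun d => hX d.1.1 d.1.2 d.2
  have hh : ∀ d v, ((C d).filter (fun p => p.1 = v ∨ p.2 = v)).card ≤ 2 * b := by
    intro d v
    have hsub : (C d).filter (fun p => p.1 = v ∨ p.2 = v) ⊆
        (B d.1.1).filter (fun q => q.1 = v ∨ q.2 = v) ∪
        ((B d.1.1).filter (fun q => q.1 = v ∨ q.2 = v)).image Prod.swap := by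
      intro p hp
      rw [Finset.mem_filter, hCmem] at hp
      rw [Finset.mem_union]
      rcases hp.1.1 with h1 | h1
      · left; rw [Finset.mem_filter]; exact ⟨h1, hp.2⟩
      · right
        rw [Finset.mem_image]
        refine ⟨p.swap, ?_, Prod.swap_swap p⟩
        rw [Finset.mem_filter]
        exact ⟨h1, hp.2.symm⟩
    calc _ ≤ _ := Finset.card_le_card hsub
      _ ≤ _ + _ := Finset.card_union_le _ _
      _ ≤ b + b := Nat.add_le_add (hb _ _) (le_trans Finset.card_image_le (hb _ _))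
      _ = 2 * b := by ring
  have hsys : ∀ i, (univ.filter (fun d => sys d = i)).card ≤ s := by
    intro i
    refine le_trans ?_ (hs i)
    apply Finset.card_le_card_of_injOn (fun d => d.1.2)
    · intro d hd
      have hd' : d.1.1 = i := by simpa [sys] using hd
      have := d.2
      rw [hd'] at this
      exact this
    · intro d hd e he hde
      have hd' : d.1.1 = i := by simpa [sys] using hd
      have he' : e.1.1 = i := by simpa [sys] using he
      exact Subtype.ext (Prod.ext (hd'.trans he'.symm) hde)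
  have hFix : ∀ v, (univ.filter (fun d => x d = v ∨ y d = v)).card ≤ F := by
    intro v
    refine le_trans ?_ (hF v)
    rw [Finset.card_eq_sum_card_fiberwise (f := sys) (t := univ) (fun _ _ => Finset.mem_coe.2 (mem_univ _))]
    apply Finset.sum_le_sum
    intro i _
    apply Finset.card_le_card_of_injOn (fun d => d.1.2)
    · intro d hd
      simp only [Finset.coe_filter, Finset.mem_filter, Finset.mem_univ, true_and,
        Set.mem_ofPred_eq] at hd ⊢
      have hd' : d.1.1 = i := hd.2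
      have := d.2
      rw [hd'] at this
      exact ⟨this, hd.1⟩
    · intro d hd e he hde
      simp only [Finset.coe_filter, Finset.mem_filter, Finset.mem_univ, true_and,
        Set.mem_ofPred_eq] at hd he
      exact Subtype.ext (Prod.ext ((show d.1.1 = i from hd.2).trans (show e.1.1 = i from he.2).symm) hde)
  have hcardD : Fintype.card D ≤ N * s := by
    rw [← Finset.card_univ, Finset.card_eq_sum_card_fiberwise (f := sys) (t := univ)
      (fun _ _ => Finset.mem_coe.2 (mem_univ _))]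
    calc _ ≤ ∑ _i : Fin N, s := Finset.sum_le_sum (fun i _ => hsys i)
      _ = N * s := by simp
  have hC : ∀ d, 2 * s + 2 * (2 * b) * (F + Lo + 1) + (2 * b) * (2 * Fintype.card D / Lo + 1) <
      (C d).card := by
    intro d
    have h1 : ((B d.1.1).filter (fun q => Suit R d.1.2.1 d.1.2.2 q)).card ≤ (C d).card := by
      apply Finset.card_le_card_of_injOn
        (fun q => if R.Adj d.1.2.1 q.1 ∧ R.Adj d.1.2.2 q.2 then q else q.swap)
      · intro q hq
        rw [Finset.mem_coe, Finset.mem_filter] at hq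
        rw [Finset.mem_coe, hCmem]
        dsimp only
        split_ifs with hc
        · exact ⟨Or.inl hq.1, hc⟩
        · rcases hq.2 with h2 | h2
          · exact absurd h2 hc
          · exact ⟨Or.inr (by rw [Prod.swap_swap]; exact hq.1), h2⟩
      · intro q hq q' hq' hqq
        rw [Finset.mem_coe, Finset.mem_filter] at hq hq'
        dsimp only at hqq
        split_ifs at hqq with hc hc' hc'
        · exact hqq
        · exfalso
          have h3 := (hB _ _ hq'.1).2
          rw [← hqq] at h3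
          exact h3 hq.1
        · exfalso
          have h3 := (hB _ _ hq.1).2
          rw [hqq] at h3
          exact h3 hq'.1
        · exact Prod.swap_injective hqq
    have h2 := hk d.1.1 d.1.2 d.2
    have h3 : 2 * Fintype.card D / Lo ≤ 2 * (N * s) / Lo :=
      Nat.div_le_div_right (Nat.mul_le_mul_left 2 hcardD)
    have h4 : (2 * b) * (2 * Fintype.card D / Lo + 1) ≤ 2 * b * (2 * (N * s) / Lo + 1) :=
      Nat.mul_le_mul_left _ (Nat.add_le_add_right h3 1)
    have h5 : 2 * (2 * b) * (F + Lo + 1) = 4 * b * (F + Lo + 1) := by ring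
    omega
  obtain ⟨g, hg1, hg2, hg3, hg4, hg5⟩ :=
    greedy sys x y C hne hxy (2 * b) s F Lo (fun d v => by convert hh d v)
      (fun i => by convert hsys i) (fun v => by convert hFix v) hLo hC
  refine ⟨fun i p => if h : p ∈ X i then g ⟨(i, p), h⟩ else p, ?_, ?_, ?_, ?_⟩
  · intro i p hp
    simp only [dif_pos hp]
    have := hg1 ⟨(i, p), hp⟩
    rw [hCmem] at this
    exact this
  · intro i p hp q hq hpq
    simp only [dif_pos hp, dif_pos hq]
    refine hg2 ⟨(i, p), hp⟩ ⟨(i, q), hq⟩ ?_ rfl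
    intro h
    exact hpq (congrArg (fun d : D => d.1.2) h)
  · intro i p hp j q hq hpq
    simp only [dif_pos hp, dif_pos hq]
    have hne' : (⟨(i, p), hp⟩ : D) ≠ ⟨(j, q), hq⟩ := by
      intro h
      rcases hpq with h1 | h1
      · exact h1 (congrArg (fun d : D => d.1.1) h)
      · exact h1 (congrArg (fun d : D => d.1.2) h)
    exact ⟨hg3 _ _ hne', hg4 _ _ hne'⟩
  · intro i p hp j q hq
    simp only [dif_pos hp, dif_pos hq]
    exact hg5 ⟨(i, p), hp⟩ ⟨(j, q), hq⟩

end Pool.Agent.HCD
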