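import Pool.Agent.Lib.HCD.Defs
import Pool.Agent.Lib.MP_6fba53_co.Koenig

/-!
# T3: Koenig's edge colouring theorem with `Δ` colours, for a set of pairs

PROOF.  Library: `Pool.Agent.Lib.MP_6fba53_co.koenig` (a regular bipartite MULTIgraph of degree r has a proper colouring with r
colours; edge set `S : Finset Z`, end maps `m : Z → α`, `k : Z → β`).  Doubling trick: α = A ⊕ B, β = B ⊕ A; edges: for
every e in E the edge (inl e.1, inl e.2) and the reversed copy (inr e.2, inr e.1); for every a in A, Δ - deg a parallel edges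
(inl a, inr a); for every b in B, Δ - deg b parallel edges (inr b, inl b).  So Z = (A × B) ⊕ (A × B) ⊕ (A × ℕ) ⊕ (B × ℕ) and S
the finset of those used (second components of the last two < Δ - deg).  Every vertex has degree Δ exactly.  Restrict the
colouring to the first copy and collect colour classes.
-/

set_option autoImplicit false

noncomputable section

open scoped Classical
open Finset

namespace Pool.Agent.HCD

private theorem t3_fd {X Y : Type} (s : Finset X) (t : Finset Y) (p : X ⊕ Y → Prop)
    [DecidablePred p] :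
    ((s.disjSum t).filter p).card = (s.filter (fun x => p (Sum.inl x))).card +
      (t.filter (fun y => p (Sum.inr y))).card := by
  rw [← Finset.card_disjSum]
  congr 1
  ext z
  rcases z with x | y <;> simp

private theorem t3_sum {X Y Z W : Type} (s : Finset X) (t : Finset Y) (u : Finset Z)
    (w : Finset W) (p : (X ⊕ Y) ⊕ (Z ⊕ W) → Prop) [DecidablePred p] {a b c d : ℕ}
    (h1 : (s.filter (fun x => p (Sum.inl (Sum.inl x)))).card = a)
    (h2 : (t.filter (fun x => p (Sum.inl (Sum.inr x)))).card = b)
    (h3 : (u.filter (fun x => p (Sum.inr (Sum.inl x)))).card = c)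
    (h4 : (w.filter (fun x => p (Sum.inr (Sum.inr x)))).card = d) :
    (((s.disjSum t).disjSum (u.disjSum w)).filter p).card = a + b + (c + d) := by
  rw [t3_fd, t3_fd, t3_fd, ← h1, ← h2, ← h3, ← h4]

private theorem t3_pad {A : Type} [Fintype A] (Δ : ℕ) (d : A → ℕ) (a : A) :
    (((Finset.univ ×ˢ Finset.range Δ).filter (fun p : A × ℕ => p.2 < Δ - d p.1)).filter
      (fun p => p.1 = a)).card = Δ - d a := by
  have h : (((Finset.univ ×ˢ Finset.range Δ).filter (fun p : A × ℕ => p.2 < Δ - d p.1)).filter
      (fun p => p.1 = a)) = (Finset.range (Δ - d a)).map ⟨fun i => (a, i), fun i j h => by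
        simpa using h⟩ := by
    ext ⟨x, i⟩
    rw [Finset.mem_filter, Finset.mem_filter, Finset.mem_product, Finset.mem_map]
    simp only [Finset.mem_univ, true_and, Finset.mem_range]
    constructor
    · rintro ⟨⟨h1, h2⟩, rfl⟩
      exact ⟨i, h2, rfl⟩
    · rintro ⟨j, h1, h2⟩
      have h3 : a = x := congrArg Prod.fst h2
      have h4 : j = i := congrArg Prod.snd h2
      subst h3 h4
      exact ⟨⟨by omega, h1⟩, rfl⟩
  rw [h, Finset.card_map, Finset.card_range]

theorem koenig_classes {A B : Type} [Fintype A] [Fintype B] (E : Finset (A × B)) (Δ : ℕ)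
    (h1 : ∀ a, (E.filter (fun e => e.1 = a)).card ≤ Δ)
    (h2 : ∀ b, (E.filter (fun e => e.2 = b)).card ≤ Δ) :
    ∃ cls : Fin Δ → Finset (A × B), (∀ c, cls c ⊆ E) ∧ (∀ e ∈ E, ∃! c, e ∈ cls c) ∧
      (∀ c, ∀ e ∈ cls c, ∀ e' ∈ cls c, e.1 = e'.1 → e = e') ∧
      (∀ c, ∀ e ∈ cls c, ∀ e' ∈ cls c, e.2 = e'.2 → e = e') := by
  set dA : A → ℕ := fun a => (E.filter (fun e => e.1 = a)).card with hdA
  set dB : B → ℕ := fun b => (E.filter (fun e => e.2 = b)).card with hdB
  set SA : Finset (A × ℕ) :=
    (Finset.univ ×ˢ Finset.range Δ).filter (fun p : A × ℕ => p.2 < Δ - dA p.1) with hSA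
  set SB : Finset (B × ℕ) :=
    (Finset.univ ×ˢ Finset.range Δ).filter (fun p : B × ℕ => p.2 < Δ - dB p.1) with hSB
  set S : Finset (((A × B) ⊕ (A × B)) ⊕ ((A × ℕ) ⊕ (B × ℕ))) :=
    (E.disjSum E).disjSum (SA.disjSum SB) with hS
  set m : ((A × B) ⊕ (A × B)) ⊕ ((A × ℕ) ⊕ (B × ℕ)) → A ⊕ B := fun z => match z with
    | Sum.inl (Sum.inl e) => Sum.inl e.1
    | Sum.inl (Sum.inr e) => Sum.inr e.2
    | Sum.inr (Sum.inl p) => Sum.inl p.1
    | Sum.inr (Sum.inr p) => Sum.inr p.1 with hm
  set k : ((A × B) ⊕ (A × B)) ⊕ ((A × ℕ) ⊕ (B × ℕ)) → B ⊕ A := fun z => match z with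
    | Sum.inl (Sum.inl e) => Sum.inl e.2
    | Sum.inl (Sum.inr e) => Sum.inr e.1
    | Sum.inr (Sum.inl p) => Sum.inr p.1
    | Sum.inr (Sum.inr p) => Sum.inl p.1 with hk
  have hm' : ∀ v, (S.filter fun z => m z = v).card = Δ := by
    intro v
    rcases v with a | b
    · have hle : dA a ≤ Δ := h1 a
      have : (S.filter fun z => m z = Sum.inl a).card = dA a + 0 + ((Δ - dA a) + 0) := by
        refine t3_sum _ _ _ _ _ ?_ ?_ ?_ ?_
        · rw [hdA]
          congr 1
          ext e
          rw [Finset.mem_filter, Finset.mem_filter]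
          simp only [hm, Sum.inl.injEq]
        · refine Finset.card_eq_zero.2 (Finset.filter_eq_empty_iff.2 fun x _ => ?_)
          simp only [hm, reduceCtorEq, not_false_eq_true]
        · rw [← t3_pad Δ dA a]
          congr 1
          ext p
          simp only [hm, hSA, hSB, Sum.inl.injEq, Finset.mem_filter]
        · refine Finset.card_eq_zero.2 (Finset.filter_eq_empty_iff.2 fun x _ => ?_)
          simp only [hm, reduceCtorEq, not_false_eq_true]
      rw [this]
      omega
    · have hle : dB b ≤ Δ := h2 b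
      have : (S.filter fun z => m z = Sum.inr b).card = 0 + dB b + (0 + (Δ - dB b)) := by
        refine t3_sum _ _ _ _ _ ?_ ?_ ?_ ?_
        · refine Finset.card_eq_zero.2 (Finset.filter_eq_empty_iff.2 fun x _ => ?_)
          simp only [hm, reduceCtorEq, not_false_eq_true]
        · rw [hdB]
          congr 1
          ext e
          rw [Finset.mem_filter, Finset.mem_filter]
          simp only [hm, Sum.inr.injEq]
        · refine Finset.card_eq_zero.2 (Finset.filter_eq_empty_iff.2 fun x _ => ?_)
          simp only [hm, reduceCtorEq, not_false_eq_true]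
        · rw [← t3_pad Δ dB b]
          congr 1
          ext p
          simp only [hm, hSA, hSB, Sum.inr.injEq, Finset.mem_filter]
      rw [this]
      omega
  have hk' : ∀ v, (S.filter fun z => k z = v).card = Δ := by
    intro v
    rcases v with b | a
    · have hle : dB b ≤ Δ := h2 b
      have : (S.filter fun z => k z = Sum.inl b).card = dB b + 0 + (0 + (Δ - dB b)) := by
        refine t3_sum _ _ _ _ _ ?_ ?_ ?_ ?_
        · rw [hdB]
          congr 1
          ext e
          rw [Finset.mem_filter, Finset.mem_filter]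
          simp only [hk, Sum.inl.injEq]
        · refine Finset.card_eq_zero.2 (Finset.filter_eq_empty_iff.2 fun x _ => ?_)
          simp only [hk, reduceCtorEq, not_false_eq_true]
        · refine Finset.card_eq_zero.2 (Finset.filter_eq_empty_iff.2 fun x _ => ?_)
          simp only [hk, reduceCtorEq, not_false_eq_true]
        · rw [← t3_pad Δ dB b]
          congr 1
          ext p
          simp only [hk, hSA, hSB, Sum.inl.injEq, Finset.mem_filter]
      rw [this]
      omega
    · have hle : dA a ≤ Δ := h1 a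
      have : (S.filter fun z => k z = Sum.inr a).card = 0 + dA a + ((Δ - dA a) + 0) := by
        refine t3_sum _ _ _ _ _ ?_ ?_ ?_ ?_
        · refine Finset.card_eq_zero.2 (Finset.filter_eq_empty_iff.2 fun x _ => ?_)
          simp only [hk, reduceCtorEq, not_false_eq_true]
        · rw [hdA]
          congr 1
          ext e
          rw [Finset.mem_filter, Finset.mem_filter]
          simp only [hk, Sum.inr.injEq]
        · rw [← t3_pad Δ dA a]
          congr 1
          ext p
          simp only [hk, hSA, hSB, Sum.inr.injEq, Finset.mem_filter]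
        · refine Finset.card_eq_zero.2 (Finset.filter_eq_empty_iff.2 fun x _ => ?_)
          simp only [hk, reduceCtorEq, not_false_eq_true]
      rw [this]
      omega
  obtain ⟨c, hc1, hc2, hc3⟩ := Pool.Agent.Lib.MP_6fba53_co.koenig m k Δ S
    (fun v => by convert hm' v) (fun v => by convert hk' v)
  have hmem : ∀ e ∈ E, (Sum.inl (Sum.inl e) : ((A × B) ⊕ (A × B)) ⊕ ((A × ℕ) ⊕ (B × ℕ))) ∈ S := by
    intro e he
    simp [hS, he]
  refine ⟨fun c0 => E.filter (fun e => c (Sum.inl (Sum.inl e)) = c0), fun c0 =>
    Finset.filter_subset _ _, fun e he => ?_, fun c0 e he e' he' h => ?_,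
    fun c0 e he e' he' h => ?_⟩
  · refine ⟨⟨c (Sum.inl (Sum.inl e)), hc1 _ (hmem e he)⟩, ?_, ?_⟩
    · exact Finset.mem_filter.2 ⟨he, rfl⟩
    · intro c' hc'
      have := (Finset.mem_filter.1 hc').2
      exact Fin.ext this.symm
  · have a1 := Finset.mem_filter.1 he
    have a2 := Finset.mem_filter.1 he'
    have a3 := hc2 _ (hmem e a1.1) _ (hmem e' a2.1) (by simp only [hm, h]) (a1.2.trans a2.2.symm)
    simpa using a3
  · have a1 := Finset.mem_filter.1 he
    have a2 := Finset.mem_filter.1 he'
    have a3 := hc3 _ (hmem e a1.1) _ (hmem e' a2.1) (by simp only [hk, h]) (a1.2.trans a2.2.symm)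
    simpa using a3

end Pool.Agent.HCD
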