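import Pool.Agent.Lib.HCD.Defs
import Pool.Agent.Lib.DHC.T6

/-!
# T6: greedy choice with load control

PROOF.  Induction over finsets A of demands already served: a function g with g d ∈ C d for d ∈ A, the two distinctness
properties for d, d' ∈ A, and for every vertex v the number of d ∈ A with (g d).1 = v ∨ (g d).2 = v is at most Lo.
Step, new demand d.  Forbidden members of C d:
 (1) {p.1,p.2} = {(g d').1,(g d').2} as unordered pair for some d' ∈ A with sys d' = sys d: at most s unordered pairs, two orders each: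
     at most 2s;
 (2) s(x d, p.1) is a used edge (an edge s(x d', (g d').1) or s(y d', (g d').2), d' ∈ A): the number of used edges at x d is at most
     (number of d' ∈ A fixing x d) + (number of d' ∈ A choosing x d) ≤ F + Lo, each kills at most h members (p.1 is given);
     the same for s(y d, p.2): at most h(F+Lo) more;
 (3) p.1 or p.2 was already chosen at least Lo times: the number of such vertices is at most 2|A|/Lo, each kills at most h.
 Total ≤ 2s + 2h(F+Lo) + h(2 card D / Lo + 1) < |C d|; choose a remaining p.  s(x d, p.1) ≠ s(y d, p.2) by `hne`, `hxy`.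
-/

set_option autoImplicit false

noncomputable section

open scoped Classical
open Finset

namespace Pool.Agent.HCD

theorem greedy {V D I : Type} [Fintype V] [Fintype D] (sys : D → I) (x y : D → V)
    (C : D → Finset (V × V))
    (hne : ∀ d, ∀ p ∈ C d, p.1 ≠ p.2 ∧ p.1 ≠ x d ∧ p.1 ≠ y d ∧ p.2 ≠ x d ∧ p.2 ≠ y d)
    (hxy : ∀ d, x d ≠ y d) (h s F Lo : ℕ)
    (hh : ∀ d v, ((C d).filter (fun p => p.1 = v ∨ p.2 = v)).card ≤ h)
    (hs : ∀ i, (univ.filter (fun d => sys d = i)).card ≤ s)
    (hF : ∀ v, (univ.filter (fun d => x d = v ∨ y d = v)).card ≤ F)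
    (hLo : 0 < Lo)
    (hC : ∀ d, 2 * s + 2 * h * (F + Lo + 1) + h * (2 * Fintype.card D / Lo + 1) < (C d).card) :
    ∃ g : D → V × V, (∀ d, g d ∈ C d) ∧
      (∀ d d', d ≠ d' → sys d = sys d' → s((g d).1, (g d).2) ≠ s((g d').1, (g d').2)) ∧
      (∀ d d', d ≠ d' → s(x d, (g d).1) ≠ s(x d', (g d').1)) ∧
      (∀ d d', d ≠ d' → s(y d, (g d).2) ≠ s(y d', (g d').2)) ∧
      (∀ d d', s(x d, (g d).1) ≠ s(y d', (g d').2)) := by
  obtain ⟨g, h1, h2, h3, h4⟩ := Pool.Agent.Lib.DHC.greedy sys x y C h s F Lo hxy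
    (fun d p hp => ⟨(hne d p hp).2.1, (hne d p hp).2.2.1, (hne d p hp).2.2.2.1,
      (hne d p hp).2.2.2.2, (hne d p hp).1⟩) hh hs hF
    (by
      intro d
      have h1 := hC d
      have h2 : 2 * Fintype.card D < Lo * (2 * Fintype.card D / Lo + 1) :=
        Nat.lt_mul_div_succ _ hLo
      set q := 2 * Fintype.card D / Lo + 1 with hq
      have h3 : Lo * (2 * s + 2 * h * (F + Lo + 1) + h * q) < Lo * (C d).card :=
        (Nat.mul_lt_mul_left hLo).2 h1
      have h4 : h * (2 * Fintype.card D) ≤ h * (Lo * q) := Nat.mul_le_mul_left h h2.le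
      have h5 : Lo * (2 * s + 2 * h * (F + Lo)) ≤ Lo * (2 * s + 2 * h * (F + Lo + 1)) :=
        Nat.mul_le_mul_left _ (Nat.add_le_add_left
          (Nat.mul_le_mul_left (2 * h) (Nat.le_succ (F + Lo))) (2 * s))
      nlinarith)
  refine ⟨g, h1, ?_, fun d d' hdd => (h3 d d' hdd).1, fun d d' hdd => (h3 d d' hdd).2.2, ?_⟩
  · intro d d' hdd hsys heq
    have h5 := h2 d d' hdd hsys
    rw [Sym2.eq_iff] at heq
    rcases heq with ⟨a, b⟩ | ⟨a, b⟩
    · exact h5.1 (Prod.ext a b)
    · exact h5.2 (Prod.ext a b)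
  · intro d d'
    by_cases hdd : d = d'
    · subst hdd; exact h4 d
    · exact (h3 d d' hdd).2.1

end Pool.Agent.HCD
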