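import Pool.Agent.Lib.HCD.Defs

/-!
# T7: blocks

PROOF.  Induction on `W.card` (or on W).  If W is empty: B = [].  Otherwise let u ∈ W be of minimal rank among the members of W
(h from `IsLin`): no pair of E ends in u.  If no pair of E starts in u: apply induction to W \ {u} and E, add the block [u].
Otherwise there is exactly one pair (u,b) ∈ E; apply induction to W \ {u} and E \ {(u,b)}: b is in some block, and it is the HEAD of
its block, because a pair (a,b) inside the block would be in E \ {(u,b)}, contradicting `snd`.  Replace that block b :: t by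
u :: b :: t.
(The order of the blocks is irrelevant: permute the list so that the changed block comes first.)
-/

set_option autoImplicit false

noncomputable section

open scoped Classical
open Finset

namespace Pool.Agent.HCD

theorem T7_zip {V : Type} (l : List V) (b : V) (hb : b ∈ l.tail) :
    ∃ a, (a, b) ∈ l.zip l.tail := by
  induction l with
  | nil => simp at hb
  | cons x t ih =>
    cases t with
    | nil => simp at hb
    | cons y t =>
      simp only [List.tail_cons, List.mem_cons] at hb
      rcases hb with hb | hb
      · exact ⟨x, by simp [hb]⟩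
      · obtain ⟨a, ha⟩ := ih (by simpa using hb)
        refine ⟨a, ?_⟩
        simp only [List.tail_cons] at ha ⊢
        rw [List.zip_cons_cons]
        exact List.mem_cons_of_mem _ ha

theorem blocks {V : Type} [Fintype V] (W : Finset V) (E : Finset (V × V)) (hE : IsLin E)
    (hW : ∀ p ∈ E, p.1 ∈ W ∧ p.2 ∈ W) :
    ∃ B : List (List V), (∀ b ∈ B, b ≠ []) ∧ B.flatten.Nodup ∧ (∀ v, v ∈ B.flatten ↔ v ∈ W) ∧
      (∀ b ∈ B, ∀ p ∈ b.zip b.tail, p ∈ E) ∧ (∀ p ∈ E, ∃ b ∈ B, p ∈ b.zip b.tail) ∧
      B.length + E.card = W.card := by
  obtain ⟨hfst, hsnd, h, hh⟩ := hE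
  have key : ∀ (n : ℕ) (W : Finset V) (E : Finset (V × V)), W.card = n →
      (∀ p ∈ E, ∀ q ∈ E, p.1 = q.1 → p = q) → (∀ p ∈ E, ∀ q ∈ E, p.2 = q.2 → p = q) →
      (∀ p ∈ E, h p.1 < h p.2) → (∀ p ∈ E, p.1 ∈ W ∧ p.2 ∈ W) →
      ∃ B : List (List V), (∀ b ∈ B, b ≠ []) ∧ B.flatten.Nodup ∧ (∀ v, v ∈ B.flatten ↔ v ∈ W) ∧
      (∀ b ∈ B, ∀ p ∈ b.zip b.tail, p ∈ E) ∧ (∀ p ∈ E, ∃ b ∈ B, p ∈ b.zip b.tail) ∧
      B.length + E.card = W.card := by
    intro n
    induction n with
    | zero =>
      intro W E hc h1 h2 h3 h4
      have hW0 : W = ∅ := Finset.card_eq_zero.mp hc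
      have hE0 : E = ∅ := by
        rw [Finset.eq_empty_iff_forall_notMem]
        intro p hp
        have := (h4 p hp).1
        rw [hW0] at this
        simp at this
      subst hW0
      subst hE0
      exact ⟨[], by simp, by simp, by simp, by simp, by simp, by simp⟩
    | succ n ih =>
      intro W E hc h1 h2 h3 h4
      have hne : W.Nonempty := by
        rw [← Finset.card_pos]; omega
      obtain ⟨u, hu, hmin⟩ := Finset.exists_min_image W h hne
      have hu2 : ∀ p ∈ E, p.2 ≠ u := by
        intro p hp he
        have e1 := h3 p hp
        have e2 := hmin p.1 (h4 p hp).1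
        rw [he] at e1
        omega
      have hWc : (W.erase u).card = n := by
        rw [Finset.card_erase_of_mem hu]; omega
      by_cases hex : ∃ b, (u, b) ∈ E
      · obtain ⟨b, hb⟩ := hex
        have hub : b ≠ u := by
          intro he
          exact hu2 _ hb he
        obtain ⟨B, b1, b2, b3, b4, b5, b6⟩ := ih (W.erase u) (E.erase (u, b)) hWc
          (fun p hp q hq => h1 p (Finset.mem_of_mem_erase hp) q (Finset.mem_of_mem_erase hq))
          (fun p hp q hq => h2 p (Finset.mem_of_mem_erase hp) q (Finset.mem_of_mem_erase hq))
          (fun p hp => h3 p (Finset.mem_of_mem_erase hp))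
          (by
            intro p hp
            have hpE := Finset.mem_of_mem_erase hp
            have hpne := Finset.ne_of_mem_erase hp
            refine ⟨Finset.mem_erase.mpr ⟨?_, (h4 p hpE).1⟩,
              Finset.mem_erase.mpr ⟨hu2 p hpE, (h4 p hpE).2⟩⟩
            intro he
            exact hpne (h1 p hpE (u, b) hb he))
        have hbW : b ∈ W.erase u := Finset.mem_erase.mpr ⟨hub, (h4 _ hb).2⟩
        have hbf := (b3 b).mpr hbW
        rw [List.mem_flatten] at hbf
        obtain ⟨bl, hbl, hbbl⟩ := hbf
        have hperm : B.Perm (bl :: B.erase bl) := List.perm_cons_erase hbl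
        set C := B.erase bl with hC
        have hhead : ∃ t, bl = b :: t := by
          cases hbl' : bl with
          | nil => exact absurd hbl' (b1 bl hbl)
          | cons x t =>
            rw [hbl'] at hbbl
            rcases List.mem_cons.mp hbbl with hx | hx
            · exact ⟨t, by rw [hx]⟩
            · exfalso
              obtain ⟨a, ha⟩ := T7_zip (x :: t) b (by simpa using hx)
              have hab : (a, b) ∈ E.erase (u, b) := b4 bl hbl (a, b) (by rw [hbl']; exact ha)
              have e1 := h2 (a, b) (Finset.mem_of_mem_erase hab) (u, b) hb rfl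
              exact (Finset.ne_of_mem_erase hab) e1
        obtain ⟨t, ht⟩ := hhead
        have hmemB : ∀ x, x ∈ B ↔ x = bl ∨ x ∈ C := by
          intro x
          rw [hperm.mem_iff, List.mem_cons]
        have hflat : B.flatten.Perm (bl ++ C.flatten) := by
          have := hperm.flatten
          rwa [List.flatten_cons] at this
        have hzip : ∀ p, p ∈ (u :: bl).zip (u :: bl).tail ↔ p = (u, b) ∨ p ∈ bl.zip bl.tail := by
          intro p
          rw [ht, List.tail_cons, List.zip_cons_cons, List.mem_cons, List.tail_cons]
        refine ⟨(u :: bl) :: C, ?_, ?_, ?_, ?_, ?_, ?_⟩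
        · intro x hx
          rcases List.mem_cons.mp hx with hx | hx
          · rw [hx]; exact List.cons_ne_nil _ _
          · exact b1 x ((hmemB x).mpr (Or.inr hx))
        · rw [List.flatten_cons, List.cons_append, List.nodup_cons]
          refine ⟨?_, hflat.nodup_iff.mp b2⟩
          intro hmem
          have := (b3 u).mp (hflat.mem_iff.mpr hmem)
          simp at this
        · intro v
          rw [List.flatten_cons, List.cons_append, List.mem_cons, ← hflat.mem_iff, b3 v]
          constructor
          · rintro (hv | hv)
            · rw [hv]; exact hu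
            · exact Finset.mem_of_mem_erase hv
          · intro hv
            by_cases hvu : v = u
            · exact Or.inl hvu
            · exact Or.inr (Finset.mem_erase.mpr ⟨hvu, hv⟩)
        · intro x hx p hp
          rcases List.mem_cons.mp hx with hx | hx
          · rw [hx, hzip] at hp
            rcases hp with hp | hp
            · rw [hp]; exact hb
            · exact Finset.mem_of_mem_erase (b4 bl hbl p hp)
          · exact Finset.mem_of_mem_erase (b4 x ((hmemB x).mpr (Or.inr hx)) p hp)
        · intro p hp
          by_cases hpe : p = (u, b)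
          · exact ⟨u :: bl, List.mem_cons_self, (hzip p).mpr (Or.inl hpe)⟩
          · obtain ⟨x, hx, hpx⟩ := b5 p (Finset.mem_erase.mpr ⟨hpe, hp⟩)
            rcases (hmemB x).mp hx with hx | hx
            · rw [hx] at hpx
              exact ⟨u :: bl, List.mem_cons_self, (hzip p).mpr (Or.inr hpx)⟩
            · exact ⟨x, List.mem_cons_of_mem _ hx, hpx⟩
        · have e1 := hperm.length_eq
          have e2 := Finset.card_erase_of_mem hb
          have e3 : 0 < E.card := Finset.card_pos.mpr ⟨_, hb⟩
          rw [List.length_cons] at e1 ⊢
          omega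
      · push Not at hex
        obtain ⟨B, b1, b2, b3, b4, b5, b6⟩ := ih (W.erase u) E hWc h1 h2 h3
          (by
            intro p hp
            refine ⟨Finset.mem_erase.mpr ⟨?_, (h4 p hp).1⟩,
              Finset.mem_erase.mpr ⟨hu2 p hp, (h4 p hp).2⟩⟩
            intro he
            apply hex p.2
            rw [← he]
            exact hp)
        refine ⟨[u] :: B, ?_, ?_, ?_, ?_, ?_, ?_⟩
        · intro x hx
          rcases List.mem_cons.mp hx with hx | hx
          · rw [hx]; exact List.cons_ne_nil _ _
          · exact b1 x hx
        · rw [List.flatten_cons, List.singleton_append, List.nodup_cons]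
          refine ⟨?_, b2⟩
          intro hmem
          have := (b3 u).mp hmem
          simp at this
        · intro v
          rw [List.flatten_cons, List.singleton_append, List.mem_cons, b3 v]
          constructor
          · rintro (hv | hv)
            · rw [hv]; exact hu
            · exact Finset.mem_of_mem_erase hv
          · intro hv
            by_cases hvu : v = u
            · exact Or.inl hvu
            · exact Or.inr (Finset.mem_erase.mpr ⟨hvu, hv⟩)
        · intro x hx p hp
          rcases List.mem_cons.mp hx with hx | hx
          · rw [hx] at hp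
            simp at hp
          · exact b4 x hx p hp
        · intro p hp
          obtain ⟨x, hx, hpx⟩ := b5 p hp
          exact ⟨x, List.mem_cons_of_mem _ hx, hpx⟩
        · rw [List.length_cons]
          omega
  exact key W.card W E rfl hfst hsnd hh hW

end Pool.Agent.HCD
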